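import Pool.Agent.RTX.Par

/-!
# RTX certificates: the golden loops
-/

set_option autoImplicit false
set_option maxRecDepth 100000

namespace Pool.Agent.RTX

/-- golden data, `d = 4` -/
def gd4 : Gd := ⟨[true, true, false, true, true, false, true, false, false, true, false, false, true, false],
  ⟨0, 4, 1, 0, 2, 5, 6⟩, 10, 18, 16, 3, [(2, -8)], []⟩

theorem gd4_ok : goldOK par4 gd4 1 = true := by decide +kernel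

/-- golden data, `d = 5` -/
def gd5 : Gd := ⟨[false, true, false, true, false, true, false, true, false, true, false, true, false, true, false, true, false, true],
  ⟨0, 5, 0, 0, 2, 3, 2⟩, 9, 18, 16, -5, [(0, 8), (2, 8)], []⟩

theorem gd5_ok : goldOK par5 gd5 3 = true := by decide +kernel

/-- golden data, `d = 6` -/
def gd6 : Gd := ⟨[true, true, false, true, false, false, true, false, true, true, false, true, false, false, true, false],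
  ⟨0, 4, 1, 1, 1, 4, 2⟩, 14, 7, 15, 4, [(1, -2), (2, 2), (3, 1), (4, -1)], [(1, -3), (2, 3), (3, -6), (4, 6)]⟩

theorem gd6_ok : goldOK par6 gd6 2 = true := by decide +kernel

theorem g2_4 : tree2OK par4
    (.N (.N (.F ⟨⟨10,4,0,1,3,1,1⟩,[(1,38),(2,176)]⟩) (.F ⟨⟨14,4,0,0,0,1,1⟩,[(1,76),(2,59)]⟩)) (.N (.F ⟨⟨14,4,0,0,1,1,1⟩,[(1,76),(2,259)]⟩) (.N (.N (.N (.N (.F ⟨⟨16,4,0,0,1,1,2⟩,[(1,345),(2,759)]⟩) (.F ⟨⟨13,4,1,1,4,2,2⟩,[(1,-24),(2,90)]⟩)) (.F ⟨⟨13,4,1,1,3,2,2⟩,[(1,-24),(2,90)]⟩)) (.N (.F ⟨⟨13,4,1,1,3,2,2⟩,[(1,-24),(2,90)]⟩) (.N (.N (.F ⟨⟨15,4,1,0,2,3,4⟩,[(1,-41),(2,32)]⟩) (.N (.N (.N (.F ⟨⟨15,4,1,3,5,3,4⟩,[(1,190),(2,563)]⟩) (.N (.N (.N (.F ⟨⟨23,4,0,0,1,1,1⟩,[(1,863),(2,2168)]⟩) (.N (.G) (.F ⟨⟨22,4,0,1,0,3,4⟩,[(1,105),(2,-163)]⟩)))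 (.F ⟨⟨20,4,1,1,0,2,2⟩,[(1,-422),(2,-59)]⟩)) (.N (.F ⟨⟨20,4,1,1,0,2,2⟩,[(1,-422),(2,-59)]⟩) (.N (.F ⟨⟨20,4,1,1,0,2,2⟩,[(1,-422),(2,-59)]⟩) (.F ⟨⟨23,4,0,0,0,1,2⟩,[(1,1242),(2,3105)]⟩))))) (.F ⟨⟨21,4,0,0,0,1,1⟩,[(1,473),(2,1305)]⟩)) (.N (.F ⟨⟨21,4,0,0,1,1,1⟩,[(1,173),(2,305)]⟩) (.F ⟨⟨17,4,1,0,0,1,1⟩,[(1,283),(2,-176)]⟩)))) (.F ⟨⟨16,4,0,0,0,1,1⟩,[(1,214),(2,473)]⟩)))) (.F ⟨⟨8,4,3,1,0,3,4⟩,[(1,-114),(2,-38)]⟩)))) = true := by decide +kernel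

theorem g2_5 : tree2OK par5
    (.N (.N (.F ⟨⟨6,5,0,0,1,1,1⟩,[(0,-19),(3,19)]⟩) (.N (.N (.F ⟨⟨2,5,0,0,1,2,2⟩,[(0,-19),(3,-19)]⟩) (.N (.N (.F ⟨⟨0,5,1,2,5,3,3⟩,[(2,19),(3,19)]⟩) (.G)) (.F ⟨⟨9,5,0,0,0,1,1⟩,[(0,-19),(3,19)]⟩))) (.N (.N (.N (.F ⟨⟨0,5,1,2,5,3,3⟩,[(2,19),(3,19)]⟩) (.F ⟨⟨5,5,0,0,1,2,2⟩,[(0,-19),(2,100),(3,119)]⟩)) (.F ⟨⟨10,5,0,0,0,1,1⟩,[(0,-19),(3,19)]⟩)) (.N (.F ⟨⟨10,5,0,0,1,1,1⟩,[(0,-19),(3,19)]⟩) (.F ⟨⟨7,5,1,0,0,1,1⟩,[(3,19)]⟩))))) (.N (.N (.N (.F ⟨⟨7,5,0,0,1,1,1⟩,[(0,-19),(2,19),(3,19)]⟩) (.N (.F ⟨⟨0,5,1,2,5,3,3⟩,[(2,19),(3,19)]⟩) (.F ⟨⟨9,5,0,0,0,1,1⟩,[(0,-19),(3,19)]⟩))) (.N (.N (.F ⟨⟨0,5,1,2,5,3,3⟩,[(2,19),(3,19)]⟩) (.F ⟨⟨10,5,0,0,0,1,1⟩,[(0,-19),(3,19)]⟩)) (.N (.F ⟨⟨10,5,0,0,1,1,1⟩,[(0,-19),(3,19)]⟩)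 (.N (.F ⟨⟨5,5,0,0,1,2,1⟩,[(0,-19),(3,-38)]⟩) (.F ⟨⟨8,5,1,0,0,1,1⟩,[(3,19)]⟩))))) (.F ⟨⟨5,5,0,0,0,1,1⟩,[]⟩))) = true := by decide +kernel

end Pool.Agent.RTX
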