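import Pool.Agent.RTX.Par

/-!
# RTX certificates: the Rauzy class of 3120 (4 intervals)
-/

set_option autoImplicit false
set_option maxRecDepth 100000

namespace Pool.Agent.RTX

theorem c4_1230_0 : treeOK par4 []
    (gold1 par4 (rows0 4 [3, 1, 2, 0])) (rows0 4 [3, 1, 2, 0])
    (.N (.N (.N (.N (.N (.N (.F ⟨⟨0,4,0,1,2,1,2⟩,[]⟩) (.N (.F ⟨⟨0,4,0,2,3,1,1⟩,[]⟩) (.N (.N (.N (.N (.N (.N (.F ⟨⟨7,4,0,1,2,1,2⟩,[(1,69),(2,69)]⟩) (.F ⟨⟨11,4,0,0,0,1,1⟩,[(1,38),(2,7)]⟩)) (.N (.F ⟨⟨11,4,0,0,1,1,1⟩,[(1,38),(2,7)]⟩) (.N (.N (.F ⟨⟨8,4,0,1,2,2,3⟩,[(1,7),(2,7)]⟩) (.N (.F ⟨⟨10,4,1,1,3,2,2⟩,[(1,38),(2,38)]⟩)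 (.N (.N (.F ⟨⟨12,4,1,0,2,3,4⟩,[(1,14),(2,-17)]⟩) (.N (.N (.N (.F ⟨⟨12,4,1,3,5,3,4⟩,[(1,145),(2,114)]⟩) (.N (.N (.N (.F ⟨⟨20,4,0,0,1,1,1⟩,[(1,466),(2,473)]⟩) (.N (.G) (.F ⟨⟨19,4,0,1,0,3,4⟩,[(1,-44),(2,-109)]⟩))) (.F ⟨⟨17,4,1,1,0,2,2⟩,[(1,-76),(2,-7)]⟩)) (.N (.F ⟨⟨17,4,1,1,0,2,2⟩,[(1,-76),(2,-7)]⟩) (.N (.F ⟨⟨17,4,1,1,0,2,2⟩,[(1,-76),(2,-7)]⟩) (.F ⟨⟨20,4,0,0,0,1,2⟩,[(1,690),(2,759)]⟩))))) (.F ⟨⟨18,4,0,0,0,1,1⟩,[(1,221),(2,259)]⟩)) (.N (.F ⟨⟨18,4,0,0,1,1,1⟩,[(1,121),(2,59)]⟩) (.F ⟨⟨14,4,1,0,0,1,1⟩,[(1,76),(2,-69)]⟩)))) (.F ⟨⟨13,4,0,0,0,1,1⟩,[(1,107),(2,76)]⟩)))) (.F ⟨⟨8,4,2,1,0,2,3⟩,[(1,69),(2,69)]⟩))))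 (.N (.N (.F ⟨⟨7,4,0,1,2,2,3⟩,[(1,38),(2,7)]⟩) (.N (.N (.N (.F ⟨⟨8,4,0,2,3,2,3⟩,[(1,7),(2,7)]⟩) (.F ⟨⟨10,4,0,0,1,2,2⟩,[(1,76),(2,45)]⟩)) (.F ⟨⟨13,4,0,0,0,1,1⟩,[(1,176),(2,145)]⟩)) (.N (.F ⟨⟨13,4,0,0,1,1,1⟩,[(1,-24),(2,-55)]⟩) (.F ⟨⟨8,4,2,1,0,2,3⟩,[(1,69),(2,69)]⟩)))) (.F ⟨⟨7,4,0,1,0,2,3⟩,[(1,38),(2,38)]⟩))) (.F ⟨⟨8,4,0,0,0,1,1⟩,[(1,69),(2,38)]⟩)) (.N (.F ⟨⟨8,4,0,0,1,1,1⟩,[(1,-31),(2,-62)]⟩) (.N (.N (.N (.N (.F ⟨⟨10,4,0,0,1,1,2⟩,[(1,138),(2,138)]⟩) (.F ⟨⟨5,4,2,2,6,3,4⟩,[(1,69),(2,69)]⟩)) (.F ⟨⟨5,4,2,2,4,3,4⟩,[(1,69),(2,69)]⟩)) (.N (.F ⟨⟨5,4,2,2,4,3,4⟩,[(1,69),(2,69)]⟩) (.N (.N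 (.F ⟨⟨6,4,2,1,4,5,7⟩,[(1,7),(2,-24)]⟩) (.N (.N (.N (.F ⟨⟨9,4,1,3,5,3,4⟩,[(1,38),(2,7)]⟩) (.N (.N (.N (.F ⟨⟨17,4,0,0,1,1,1⟩,[(1,214),(2,221)]⟩) (.N (.G) (.F ⟨⟨16,4,0,1,0,3,4⟩,[(1,-41),(2,-114)]⟩))) (.F ⟨⟨14,4,1,1,0,2,2⟩,[(1,-76),(2,-7)]⟩)) (.N (.F ⟨⟨14,4,1,1,0,2,2⟩,[(1,-76),(2,-7)]⟩) (.N (.F ⟨⟨14,4,1,1,0,2,2⟩,[(1,-76),(2,-7)]⟩) (.F ⟨⟨17,4,0,0,0,1,2⟩,[(1,345),(2,414)]⟩))))) (.F ⟨⟨15,4,0,0,0,1,1⟩,[(1,76),(2,114)]⟩)) (.N (.F ⟨⟨15,4,0,0,1,1,1⟩,[(1,76),(2,14)]⟩) (.F ⟨⟨11,4,1,0,0,1,1⟩,[(1,38),(2,-69)]⟩)))) (.F ⟨⟨10,4,0,0,0,1,1⟩,[(1,69),(2,38)]⟩)))) (.N (.N (.N (.F ⟨⟨8,4,1,2,3,2,3⟩,[(1,-31),(2,-31)]⟩)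 (.N (.N (.F ⟨⟨9,4,1,1,3,3,4⟩,[(1,38),(2,7)]⟩) (.N (.N (.N (.F ⟨⟨11,4,0,2,3,2,3⟩,[(1,7),(2,7)]⟩) (.F ⟨⟨13,4,0,0,1,2,2⟩,[(1,76),(2,45)]⟩)) (.F ⟨⟨16,4,0,0,0,1,1⟩,[(1,176),(2,145)]⟩)) (.N (.F ⟨⟨16,4,0,0,1,1,1⟩,[(1,-24),(2,-55)]⟩) (.F ⟨⟨11,4,2,1,0,2,3⟩,[(1,69),(2,69)]⟩)))) (.F ⟨⟨7,4,1,1,0,3,5⟩,[(1,38),(2,38)]⟩))) (.F ⟨⟨11,4,0,0,0,1,1⟩,[(1,69),(2,38)]⟩)) (.N (.F ⟨⟨8,4,1,0,1,2,3⟩,[(1,-31),(2,-62)]⟩) (.N (.N (.F ⟨⟨3,4,2,2,3,5,8⟩,[(1,-62),(2,-62)]⟩) (.F ⟨⟨8,4,2,0,3,1,1⟩,[]⟩)) (.F ⟨⟨8,4,1,0,0,1,2⟩,[]⟩))))))) (.N (.N (.N (.F ⟨⟨7,4,0,0,1,1,1⟩,[(1,-31),(2,-62)]⟩) (.N (.N (.F ⟨⟨8,4,0,0,1,1,1⟩,[(1,69)]⟩)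 (.N (.F ⟨⟨12,4,0,0,1,1,1⟩,[(1,7),(2,45)]⟩) (.F ⟨⟨7,4,0,0,1,2,2⟩,[(1,38),(2,7)]⟩))) (.F ⟨⟨4,4,0,1,0,4,6⟩,[(1,38)]⟩))) (.N (.N (.N (.N (.N (.N (.F ⟨⟨10,4,0,1,2,1,2⟩,[(1,138),(2,138)]⟩) (.N (.F ⟨⟨10,4,0,2,3,1,1⟩,[(1,138),(2,138)]⟩) (.F ⟨⟨12,4,0,1,0,2,3⟩,[(1,107),(2,76)]⟩))) (.F ⟨⟨13,4,0,0,0,1,1⟩,[(1,76),(2,45)]⟩)) (.N (.F ⟨⟨13,4,0,0,1,1,1⟩,[(1,76),(2,45)]⟩) (.N (.N (.F ⟨⟨10,4,0,1,2,2,3⟩,[(1,107),(2,76)]⟩) (.N (.N (.N (.F ⟨⟨13,4,1,2,4,2,3⟩,[(1,76),(2,76)]⟩) (.F ⟨⟨18,4,0,0,0,1,1⟩,[(1,121),(2,59)]⟩)) (.N (.F ⟨⟨18,4,0,0,1,1,1⟩,[(1,221),(2,259)]⟩) (.N (.F ⟨⟨15,4,0,0,1,2,2⟩,[(1,21),(2,-138)]⟩)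 (.F ⟨⟨13,4,2,0,0,2,3⟩,[(1,45),(2,14)]⟩)))) (.F ⟨⟨11,4,1,1,0,3,4⟩,[(1,114),(2,-69)]⟩))) (.F ⟨⟨10,4,2,1,0,2,3⟩,[(1,138),(2,138)]⟩)))) (.F ⟨⟨7,4,0,0,1,2,2⟩,[(1,38),(2,7)]⟩)) (.F ⟨⟨10,4,0,0,0,1,1⟩,[(1,138),(2,107)]⟩)) (.N (.N (.F ⟨⟨11,4,0,0,1,1,2⟩,[(1,138),(2,207)]⟩) (.F ⟨⟨6,4,2,0,2,3,4⟩,[(1,69),(2,38)]⟩)) (.N (.N (.F ⟨⟨7,4,1,0,1,2,3⟩,[(1,-31),(2,-62)]⟩) (.N (.N (.F ⟨⟨8,4,1,0,2,2,2⟩,[(1,69),(2,31)]⟩) (.N (.F ⟨⟨15,4,0,0,1,1,1⟩,[(1,7),(2,45)]⟩) (.N (.F ⟨⟨12,4,0,0,1,2,2⟩,[(1,7),(2,-138)]⟩) (.F ⟨⟨7,4,3,0,3,1,1⟩,[]⟩)))) (.F ⟨⟨6,4,1,0,0,4,6⟩,[(1,38),(2,7)]⟩))) (.N (.N (.N (.N (.F ⟨⟨8,4,1,2,5,2,3⟩,[(1,-62),(2,-62)]⟩)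 (.N (.F ⟨⟨16,4,0,0,1,1,1⟩,[(1,76),(2,45)]⟩) (.F ⟨⟨12,4,1,1,0,2,2⟩,[(1,38),(2,-38)]⟩))) (.N (.N (.N (.F ⟨⟨15,4,0,0,1,1,1⟩,[(1,76),(2,45)]⟩) (.N (.N (.N (.F ⟨⟨16,4,0,1,3,1,1⟩,[(1,207),(2,276)]⟩) (.F ⟨⟨20,4,0,0,0,1,1⟩,[(1,21),(2,28)]⟩)) (.N (.F ⟨⟨20,4,0,0,1,1,1⟩,[(1,321),(2,328)]⟩) (.N (.N (.N (.N (.F ⟨⟨22,4,0,0,1,1,2⟩,[(1,552),(2,759)]⟩) (.F ⟨⟨19,4,1,1,4,2,2⟩,[(1,121),(2,159)]⟩)) (.F ⟨⟨19,4,1,1,3,2,2⟩,[(1,121),(2,159)]⟩)) (.N (.F ⟨⟨19,4,1,1,3,2,2⟩,[(1,121),(2,159)]⟩) (.N (.N (.F ⟨⟨21,4,1,0,2,3,4⟩,[(1,187),(2,170)]⟩) (.N (.N (.N (.F ⟨⟨21,4,1,3,5,3,4⟩,[(1,556),(2,670)]⟩) (.N (.N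 (.N (.F ⟨⟨29,4,0,0,1,1,1⟩,[(1,1878),(2,2351)]⟩) (.N (.G) (.F ⟨⟨28,4,0,1,0,3,4⟩,[(1,-400),(2,-368)]⟩))) (.F ⟨⟨26,4,1,1,0,2,2⟩,[(1,422),(2,-332)]⟩)) (.N (.F ⟨⟨26,4,1,1,0,2,2⟩,[(1,422),(2,-332)]⟩) (.N (.F ⟨⟨26,4,1,1,0,2,2⟩,[(1,422),(2,-332)]⟩) (.F ⟨⟨29,4,0,0,0,1,2⟩,[(1,2553),(2,3312)]⟩))))) (.F ⟨⟨27,4,0,0,0,1,1⟩,[(1,1222),(2,1481)]⟩)) (.N (.F ⟨⟨27,4,0,0,1,1,1⟩,[(1,222),(2,281)]⟩) (.F ⟨⟨23,4,1,0,0,1,1⟩,[(1,-735),(2,-559)]⟩)))) (.F ⟨⟨22,4,0,0,0,1,1⟩,[(1,435),(2,511)]⟩)))) (.F ⟨⟨14,4,3,1,0,3,4⟩,[(1,114),(2,-176)]⟩)))) (.F ⟨⟨14,4,0,1,0,3,4⟩,[(1,-14),(2,-76)]⟩))) (.F ⟨⟨12,4,1,1,0,2,2⟩,[(1,38),(2,-38)]⟩))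 (.F ⟨⟨7,4,2,0,3,1,1⟩,[]⟩))) (.F ⟨⟨13,4,0,0,0,1,1⟩,[(1,138),(2,107)]⟩)) (.N (.F ⟨⟨10,4,1,0,1,2,3⟩,[(1,-62),(2,-93)]⟩) (.F ⟨⟨9,4,1,0,0,1,2⟩,[]⟩))))))) (.F ⟨⟨5,4,0,0,0,1,2⟩,[(1,69),(2,69)]⟩))))) (.N (.N (.F ⟨⟨0,4,0,2,3,1,1⟩,[]⟩) (.N (.F ⟨⟨0,4,0,2,3,1,1⟩,[]⟩) (.N (.N (.N (.N (.F ⟨⟨3,4,0,3,4,3,4⟩,[(1,-31),(2,-62)]⟩) (.N (.F ⟨⟨3,4,0,4,5,3,3⟩,[(1,-31),(2,-62)]⟩) (.F ⟨⟨8,4,0,1,0,2,3⟩,[(1,38),(2,107)]⟩))) (.F ⟨⟨9,4,0,0,0,1,1⟩,[(1,69),(2,107)]⟩)) (.N (.N (.F ⟨⟨10,4,0,0,1,1,2⟩,[(1,69),(2,207)]⟩) (.N (.F ⟨⟨9,4,0,0,1,1,1⟩,[(1,69),(2,-100)]⟩) (.F ⟨⟨4,4,3,2,5,4,5⟩,[(1,-31),(2,38)]⟩))) (.N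 (.N (.N (.F ⟨⟨10,4,0,0,2,1,1⟩,[(1,-62),(2,7)]⟩) (.F ⟨⟨6,4,2,2,4,3,4⟩,[(1,69),(2,38)]⟩)) (.N (.F ⟨⟨6,4,2,2,4,3,4⟩,[(1,69),(2,38)]⟩) (.N (.N (.F ⟨⟨7,4,2,1,4,5,7⟩,[(1,7),(2,14)]⟩) (.N (.N (.N (.F ⟨⟨10,4,1,3,5,3,4⟩,[(1,38),(2,45)]⟩) (.F ⟨⟨13,4,0,0,1,2,2⟩,[(1,-24),(2,21)]⟩)) (.F ⟨⟨16,4,0,0,0,1,1⟩,[(1,76),(2,221)]⟩)) (.N (.F ⟨⟨16,4,0,0,1,1,1⟩,[(1,76),(2,21)]⟩) (.F ⟨⟨12,4,1,0,0,1,1⟩,[(1,38),(2,-69)]⟩)))) (.F ⟨⟨11,4,0,0,0,1,1⟩,[(1,69),(2,107)]⟩)))) (.N (.F ⟨⟨3,0,2,2,1,2,3⟩,[]⟩) (.N (.F ⟨⟨9,4,1,0,1,2,3⟩,[(1,-31),(2,-93)]⟩) (.N (.F ⟨⟨3,0,2,2,1,2,3⟩,[]⟩) (.F ⟨⟨9,4,1,0,0,1,2⟩,[]⟩)))))))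 (.N (.N (.N (.N (.F ⟨⟨9,4,0,0,1,1,2⟩,[(1,69),(2,207)]⟩) (.N (.N (.F ⟨⟨6,4,0,0,1,2,3⟩,[(1,69),(2,7)]⟩) (.F ⟨⟨13,4,0,0,0,1,1⟩,[(1,107),(2,83)]⟩)) (.N (.F ⟨⟨13,4,0,0,1,1,1⟩,[(1,7),(2,83)]⟩) (.N (.F ⟨⟨11,4,1,0,2,2,2⟩,[(1,38),(2,114)]⟩) (.N (.N (.N (.F ⟨⟨13,4,1,2,3,2,3⟩,[(1,7),(2,114)]⟩) (.N (.N (.N (.F ⟨⟨18,4,0,0,1,1,1⟩,[(1,183),(2,404)]⟩) (.N (.N (.N (.F ⟨⟨19,4,0,1,3,1,1⟩,[(1,314),(2,735)]⟩) (.F ⟨⟨23,4,0,0,0,1,1⟩,[(1,73),(2,229)]⟩)) (.N (.F ⟨⟨23,4,0,0,1,1,1⟩,[(1,573),(2,1229)]⟩) (.N (.F ⟨⟨20,4,0,0,1,2,2⟩,[(1,-70),(2,-114)]⟩) (.F ⟨⟨17,4,3,1,0,3,4⟩,[(1,259),(2,-176)]⟩)))) (.F ⟨⟨17,4,0,1,0,3,4⟩,[(1,-111),(2,-76)]⟩)))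 (.F ⟨⟨15,4,1,1,0,2,2⟩,[(1,76),(2,-38)]⟩)) (.F ⟨⟨13,4,1,0,0,2,3⟩,[(1,7),(2,21)]⟩))) (.F ⟨⟨16,4,0,0,0,1,1⟩,[(1,176),(2,290)]⟩)) (.N (.F ⟨⟨16,4,0,0,1,1,1⟩,[(1,-24),(2,-10)]⟩) (.F ⟨⟨12,4,1,0,0,1,2⟩,[(1,69),(2,207)]⟩))))))) (.N (.N (.N (.F ⟨⟨9,4,0,1,3,1,1⟩,[(1,-62),(2,7)]⟩) (.F ⟨⟨13,4,0,0,0,1,1⟩,[(1,107),(2,83)]⟩)) (.N (.F ⟨⟨13,4,0,0,1,1,1⟩,[(1,7),(2,83)]⟩) (.F ⟨⟨8,4,0,0,1,2,2⟩,[(1,38),(2,76)]⟩))) (.F ⟨⟨5,4,0,1,0,4,6⟩,[(1,38)]⟩))) (.N (.N (.N (.N (.F ⟨⟨9,4,0,1,3,1,1⟩,[(1,-62),(2,7)]⟩) (.N (.F ⟨⟨14,4,0,0,1,1,1⟩,[(1,76),(2,83)]⟩) (.N (.N (.F ⟨⟨11,4,0,1,2,2,3⟩,[(1,107),(2,114)]⟩) (.N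 (.N (.N (.F ⟨⟨14,4,1,2,4,2,3⟩,[(1,76),(2,114)]⟩) (.F ⟨⟨19,4,0,0,0,1,1⟩,[(1,121),(2,104)]⟩)) (.N (.F ⟨⟨19,4,0,0,1,1,1⟩,[(1,221),(2,404)]⟩) (.N (.F ⟨⟨16,4,0,0,1,2,2⟩,[(1,21),(2,-125)]⟩) (.F ⟨⟨14,4,2,0,0,2,3⟩,[(1,45),(2,21)]⟩)))) (.F ⟨⟨12,4,1,1,0,3,4⟩,[(1,114),(2,-69)]⟩))) (.F ⟨⟨11,4,2,1,0,2,3⟩,[(1,138),(2,207)]⟩)))) (.F ⟨⟨8,4,0,0,1,2,2⟩,[(1,38),(2,76)]⟩)) (.F ⟨⟨11,4,0,0,0,1,1⟩,[(1,138),(2,176)]⟩)) (.N (.N (.F ⟨⟨12,4,0,0,1,1,2⟩,[(1,138),(2,276)]⟩) (.N (.N (.F ⟨⟨12,4,0,0,2,1,1⟩,[(1,69),(2,207)]⟩) (.N (.N (.N (.F ⟨⟨9,4,1,2,7,2,3⟩,[(1,-62),(2,7)]⟩) (.N (.F ⟨⟨14,2,0,1,1,2,2⟩,[(1,45),(2,59)]⟩)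 (.F ⟨⟨18,4,0,0,0,1,2⟩,[(1,345),(2,759)]⟩))) (.N (.F ⟨⟨17,4,0,0,1,1,1⟩,[(1,145),(2,359)]⟩) (.N (.F ⟨⟨14,4,0,0,1,2,2⟩,[(1,145),(2,-138)]⟩) (.F ⟨⟨11,4,3,0,0,3,4⟩,[(1,107),(2,83)]⟩)))) (.N (.N (.F ⟨⟨13,4,1,0,2,3,4⟩,[(1,145),(2,359)]⟩) (.N (.N (.F ⟨⟨14,4,0,0,1,2,2⟩,[(1,145),(2,-138)]⟩) (.F ⟨⟨19,4,0,0,0,1,1⟩,[(1,321),(2,511)]⟩)) (.F ⟨⟨15,4,0,0,1,1,1⟩,[(1,-24),(2,52)]⟩))) (.F ⟨⟨14,4,0,0,0,1,1⟩,[(1,76),(2,52)]⟩)))) (.N (.N (.N (.F ⟨⟨9,4,1,2,5,2,3⟩,[(1,-62),(2,7)]⟩) (.N (.N (.F ⟨⟨13,4,1,1,3,3,4⟩,[(1,14),(2,159)]⟩) (.N (.N (.N (.F ⟨⟨14,4,1,3,4,3,5⟩,[(1,245),(2,390)]⟩) (.N (.N (.N (.F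 ⟨⟨22,4,0,0,1,1,1⟩,[(1,466),(2,832)]⟩) (.F ⟨⟨18,2,1,2,4,3,3⟩,[(1,166),(2,-83)]⟩)) (.F ⟨⟨15,4,2,3,0,4,5⟩,[(1,-97),(2,-45)]⟩)) (.F ⟨⟨16,4,1,1,0,3,4⟩,[(1,190),(2,-176)]⟩))) (.F ⟨⟨20,4,0,0,0,1,1⟩,[(1,221),(2,442)]⟩)) (.N (.F ⟨⟨20,4,0,0,1,1,1⟩,[(1,121),(2,142)]⟩) (.F ⟨⟨15,4,2,1,0,2,3⟩,[(1,76),(2,83)]⟩)))) (.F ⟨⟨11,4,2,0,0,3,4⟩,[(1,107),(2,83)]⟩))) (.F ⟨⟨15,4,0,0,0,1,1⟩,[(1,76),(2,52)]⟩)) (.N (.F ⟨⟨15,4,0,0,1,1,1⟩,[(1,76),(2,152)]⟩) (.F ⟨⟨7,4,4,0,0,4,6⟩,[(1,38),(2,-24)]⟩))))) (.N (.F ⟨⟨3,0,2,2,1,2,3⟩,[]⟩) (.N (.F ⟨⟨3,0,2,2,1,2,3⟩,[]⟩) (.N (.F ⟨⟨11,4,1,0,1,2,3⟩,[(1,-62),(2,-124)]⟩)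 (.F ⟨⟨10,4,1,0,0,1,2⟩,[]⟩))))))) (.F ⟨⟨6,4,0,0,0,1,2⟩,[(1,69),(2,69)]⟩))))) (.F ⟨⟨4,4,0,0,0,1,2⟩,[(2,69)]⟩))) (.N (.F ⟨⟨3,4,0,0,1,1,1⟩,[(2,-31)]⟩) (.N (.N (.N (.N (.F ⟨⟨5,4,0,0,1,1,2⟩,[(1,69),(2,69)]⟩) (.N (.N (.N (.F ⟨⟨3,4,1,2,5,2,3⟩,[]⟩) (.N (.N (.N (.N (.F ⟨⟨6,4,0,4,5,4,6⟩,[(1,38),(2,7)]⟩) (.F ⟨⟨14,4,0,0,0,1,1⟩,[(1,76),(2,114)]⟩)) (.N (.F ⟨⟨14,4,0,0,1,1,1⟩,[(1,76),(2,14)]⟩) (.N (.N (.F ⟨⟨10,4,0,2,3,3,4⟩,[(1,107),(2,45)]⟩) (.N (.N (.N (.F ⟨⟨14,4,1,2,4,2,3⟩,[(1,76),(2,45)]⟩) (.F ⟨⟨19,4,0,0,0,1,1⟩,[(1,121),(2,97)]⟩)) (.N (.F ⟨⟨19,4,0,0,1,1,1⟩,[(1,221),(2,297)]⟩) (.N (.N (.F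 ⟨⟨16,4,0,1,3,2,2⟩,[(1,-10),(2,-3)]⟩) (.N (.F ⟨⟨14,4,3,2,6,4,5⟩,[(1,121),(2,128)]⟩) (.F ⟨⟨16,3,3,0,4,3,2⟩,[(1,21),(2,28)]⟩))) (.F ⟨⟨13,4,3,1,0,3,5⟩,[(1,245),(2,283)]⟩)))) (.F ⟨⟨12,4,1,1,0,3,4⟩,[(1,14),(2,-145)]⟩))) (.F ⟨⟨8,4,2,1,0,2,3⟩,[(1,-62),(2,-138)]⟩)))) (.N (.N (.N (.F ⟨⟨13,4,0,0,1,1,1⟩,[(1,76),(2,14)]⟩) (.N (.N (.F ⟨⟨14,4,0,0,1,1,1⟩,[(1,-28),(2,10)]⟩) (.N (.F ⟨⟨18,4,0,0,1,1,1⟩,[(1,321),(2,366)]⟩) (.F ⟨⟨13,4,0,0,1,2,2⟩,[(1,145),(2,152)]⟩))) (.F ⟨⟨12,4,0,1,0,3,4⟩,[(1,-252),(2,-145)]⟩))) (.N (.N (.N (.F ⟨⟨10,4,0,3,4,3,4⟩,[(1,107),(2,45)]⟩) (.F ⟨⟨13,4,0,0,1,2,2⟩,[(1,145),(2,152)]⟩))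 (.F ⟨⟨16,4,0,0,0,1,1⟩,[(1,145),(2,252)]⟩)) (.N (.N (.F ⟨⟨17,4,0,0,1,1,2⟩,[(1,345),(2,552)]⟩) (.F ⟨⟨13,2,1,0,1,2,2⟩,[(1,45),(2,-135)]⟩)) (.F ⟨⟨8,4,2,1,0,2,3⟩,[(1,-62),(2,-138)]⟩)))) (.F ⟨⟨11,4,0,0,0,1,1⟩,[(1,-107),(2,-38)]⟩))) (.F ⟨⟨11,4,0,0,0,1,2⟩,[(1,138),(2,207)]⟩))) (.N (.F ⟨⟨10,4,0,0,1,1,1⟩,[(1,138),(2,107)]⟩) (.N (.F ⟨⟨7,4,0,0,1,2,2⟩,[(1,-38),(2,-69)]⟩) (.N (.N (.N (.F ⟨⟨10,4,1,2,3,2,3⟩,[(1,138),(2,138)]⟩) (.N (.N (.F ⟨⟨11,4,1,1,3,3,4⟩,[(1,114),(2,83)]⟩) (.N (.N (.N (.F ⟨⟨13,4,0,2,3,2,3⟩,[(1,45),(2,14)]⟩) (.F ⟨⟨15,4,0,0,1,2,2⟩,[(1,21),(2,-41)]⟩)) (.F ⟨⟨18,4,0,0,0,1,1⟩,[(1,221),(2,259)]⟩))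 (.N (.F ⟨⟨18,4,0,0,1,1,1⟩,[(1,121),(2,59)]⟩) (.F ⟨⟨13,4,2,1,0,2,3⟩,[(1,76),(2,76)]⟩)))) (.F ⟨⟨10,4,1,0,0,2,3⟩,[(1,107),(2,76)]⟩))) (.F ⟨⟨13,4,0,0,0,1,1⟩,[(1,76),(2,45)]⟩)) (.N (.F ⟨⟨13,4,0,0,1,1,1⟩,[(1,76),(2,45)]⟩) (.N (.N (.F ⟨⟨12,4,1,0,1,2,3⟩,[(1,107),(2,76)]⟩) (.F ⟨⟨10,4,2,0,3,1,1⟩,[(1,138),(2,138)]⟩)) (.F ⟨⟨10,4,1,0,0,1,2⟩,[(1,138),(2,138)]⟩))))))) (.N (.N (.F ⟨⟨4,4,1,0,2,4,6⟩,[(1,38),(2,7)]⟩) (.N (.N (.F ⟨⟨7,4,0,0,1,2,2⟩,[(1,-38),(2,-69)]⟩) (.F ⟨⟨12,4,0,0,0,1,1⟩,[(1,7),(2,45)]⟩)) (.F ⟨⟨8,4,0,0,1,1,1⟩,[(1,69),(2,38)]⟩))) (.F ⟨⟨7,4,0,0,0,1,1⟩,[(1,-31),(2,-62)]⟩)))) (.N (.N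 (.N (.F ⟨⟨3,4,1,2,4,2,3⟩,[]⟩) (.N (.N (.N (.F ⟨⟨10,4,0,0,1,1,1⟩,[(1,69),(2,38)]⟩) (.N (.N (.N (.F ⟨⟨11,4,0,1,3,1,1⟩,[(1,38),(2,38)]⟩) (.F ⟨⟨15,4,0,0,0,1,1⟩,[(1,76),(2,14)]⟩)) (.N (.F ⟨⟨15,4,0,0,1,1,1⟩,[(1,76),(2,114)]⟩) (.N (.F ⟨⟨12,4,0,0,1,2,2⟩,[(1,-24),(2,-97)]⟩) (.F ⟨⟨9,4,3,1,0,3,4⟩,[(1,-45),(2,-76)]⟩)))) (.F ⟨⟨6,4,1,2,0,5,7⟩,[(1,7),(2,-107)]⟩))) (.F ⟨⟨5,4,2,2,0,3,4⟩,[(1,62),(2,62)]⟩)) (.F ⟨⟨2,4,3,1,0,5,7⟩,[(1,-62),(2,-62)]⟩))) (.F ⟨⟨8,4,0,0,0,1,1⟩,[(1,-31),(2,-62)]⟩)) (.N (.F ⟨⟨8,4,0,0,1,1,1⟩,[(1,69),(2,38)]⟩) (.N (.N (.F ⟨⟨7,4,1,0,1,2,3⟩,[(1,38),(2,38)]⟩) (.F ⟨⟨3,4,3,0,4,2,2⟩,[(1,-31),(2,-31)]⟩))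 (.F ⟨⟨3,4,2,0,0,2,3⟩,[(1,-31),(2,-31)]⟩))))) (.N (.N (.N (.F ⟨⟨3,4,1,2,4,2,3⟩,[]⟩) (.F ⟨⟨8,4,0,0,0,1,1⟩,[(1,-31),(2,-62)]⟩)) (.N (.F ⟨⟨8,4,0,0,1,1,1⟩,[(1,69),(2,38)]⟩) (.N (.N (.F ⟨⟨4,4,1,1,3,3,4⟩,[(2,-31)]⟩) (.F ⟨⟨3,4,3,0,4,2,2⟩,[(1,-31),(2,-31)]⟩)) (.F ⟨⟨3,4,2,0,0,2,3⟩,[(1,-31),(2,-31)]⟩)))) (.N (.N (.F ⟨⟨4,4,1,0,2,3,4⟩,[(1,-31),(2,-62)]⟩) (.N (.N (.N (.F ⟨⟨4,4,1,3,5,3,4⟩,[(2,-31)]⟩) (.N (.N (.N (.F ⟨⟨12,4,0,0,1,1,1⟩,[(1,69),(2,76)]⟩) (.N (.G) (.F ⟨⟨8,4,1,2,0,5,7⟩,[(1,7),(2,-214)]⟩))) (.F ⟨⟨9,4,1,1,0,2,2⟩,[(1,-76),(2,-7)]⟩)) (.N (.F ⟨⟨9,4,1,1,0,2,2⟩,[(1,-76),(2,-7)]⟩) (.N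 (.F ⟨⟨9,4,1,1,0,2,2⟩,[(1,-76),(2,-7)]⟩) (.F ⟨⟨12,4,0,0,0,1,2⟩,[(1,138),(2,207)]⟩))))) (.F ⟨⟨10,4,0,0,0,1,1⟩,[(1,-31),(2,7)]⟩)) (.N (.F ⟨⟨10,4,0,0,1,1,1⟩,[(1,69),(2,7)]⟩) (.F ⟨⟨6,4,1,0,0,1,1⟩,[(1,-31),(2,-38)]⟩)))) (.F ⟨⟨5,4,0,0,0,1,1⟩,[(2,-31)]⟩)))) (.N (.N (.N (.F ⟨⟨3,4,1,2,3,2,3⟩,[]⟩) (.N (.N (.F ⟨⟨4,4,1,1,3,3,4⟩,[(2,-31)]⟩) (.N (.N (.N (.F ⟨⟨6,4,0,2,3,2,3⟩,[(1,-31),(2,-31)]⟩) (.N (.F ⟨⟨6,4,0,3,4,2,2⟩,[(1,-31),(2,-31)]⟩) (.F ⟨⟨7,4,1,1,0,3,4⟩,[(1,-45),(2,-76)]⟩))) (.F ⟨⟨11,4,0,0,0,1,1⟩,[(1,69),(2,38)]⟩)) (.N (.F ⟨⟨11,4,0,0,1,1,1⟩,[(1,-31),(2,-62)]⟩) (.F ⟨⟨6,4,2,1,0,2,3⟩,[]⟩))))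 (.F ⟨⟨3,4,1,0,0,2,3⟩,[(1,-31),(2,-31)]⟩))) (.F ⟨⟨6,4,0,0,0,1,1⟩,[(2,-31)]⟩)) (.N (.F ⟨⟨6,4,0,0,1,1,1⟩,[(2,-31)]⟩) (.N (.N (.F ⟨⟨5,4,1,0,1,2,3⟩,[(1,-31),(2,-31)]⟩) (.F ⟨⟨3,4,2,0,3,1,1⟩,[]⟩)) (.F ⟨⟨3,4,1,0,0,1,2⟩,[]⟩))))))) (.N (.N (.N (.F ⟨⟨2,4,0,0,1,1,1⟩,[(2,-31)]⟩) (.N (.N (.N (.N (.N (.N (.F ⟨⟨6,4,0,1,2,1,2⟩,[(1,69),(2,69)]⟩) (.F ⟨⟨7,4,0,1,0,2,3⟩,[(1,138),(2,76)]⟩)) (.N (.F ⟨⟨10,4,0,0,1,1,1⟩,[(1,38),(2,76)]⟩) (.N (.N (.F ⟨⟨4,4,0,2,6,1,1⟩,[(1,69),(2,69)]⟩) (.N (.F ⟨⟨9,4,1,1,3,2,2⟩,[(1,38),(2,107)]⟩) (.N (.N (.F ⟨⟨11,4,1,0,2,3,4⟩,[(1,14),(2,-10)]⟩) (.N (.N (.N (.F ⟨⟨11,4,1,3,5,3,4⟩,[(1,145),(2,221)]⟩)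 (.N (.N (.N (.F ⟨⟨19,4,0,0,1,1,1⟩,[(1,466),(2,725)]⟩) (.N (.G) (.F ⟨⟨18,4,0,1,0,3,4⟩,[(1,-44),(2,-114)]⟩))) (.F ⟨⟨16,4,1,1,0,2,2⟩,[(1,-121),(2,-7)]⟩)) (.N (.F ⟨⟨16,4,1,1,0,2,2⟩,[(1,-121),(2,-7)]⟩) (.N (.F ⟨⟨16,4,1,1,0,2,2⟩,[(1,-121),(2,-7)]⟩) (.F ⟨⟨19,4,0,0,0,1,2⟩,[(1,690),(2,1104)]⟩))))) (.F ⟨⟨17,4,0,0,0,1,1⟩,[(1,221),(2,404)]⟩)) (.N (.F ⟨⟨17,4,0,0,1,1,1⟩,[(1,121),(2,104)]⟩) (.F ⟨⟨13,4,1,0,0,1,1⟩,[(1,76),(2,-69)]⟩)))) (.F ⟨⟨12,4,0,0,0,1,1⟩,[(1,107),(2,114)]⟩)))) (.F ⟨⟨7,4,2,1,0,2,3⟩,[(1,69),(2,38)]⟩)))) (.N (.N (.F ⟨⟨3,4,0,1,2,4,6⟩,[(1,38),(2,76)]⟩) (.N (.N (.N (.F ⟨⟨4,4,0,3,7,1,1⟩,[(1,69),(2,69)]⟩)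 (.F ⟨⟨9,4,0,0,1,2,2⟩,[(1,76),(2,83)]⟩)) (.F ⟨⟨12,4,0,0,0,1,1⟩,[(1,176),(2,183)]⟩)) (.F ⟨⟨5,4,0,1,2,2,2⟩,[(1,-62)]⟩))) (.F ⟨⟨6,4,0,1,0,2,3⟩,[(1,38),(2,7)]⟩))) (.F ⟨⟨7,4,0,0,0,1,1⟩,[(1,69),(2,7)]⟩)) (.N (.F ⟨⟨7,4,0,0,1,1,1⟩,[(1,-31),(2,7)]⟩) (.N (.N (.N (.N (.F ⟨⟨9,4,0,0,1,1,2⟩,[(1,138),(2,207)]⟩) (.F ⟨⟨6,4,1,1,4,2,2⟩,[(1,-31),(2,38)]⟩)) (.F ⟨⟨6,4,1,1,3,2,2⟩,[(1,-31),(2,38)]⟩)) (.N (.F ⟨⟨6,4,1,1,3,2,2⟩,[(1,-31),(2,38)]⟩) (.N (.N (.F ⟨⟨5,4,2,1,4,5,7⟩,[(1,7),(2,83)]⟩) (.N (.N (.N (.F ⟨⟨8,4,1,3,5,3,4⟩,[(1,38),(2,114)]⟩) (.N (.N (.N (.F ⟨⟨16,4,0,0,1,1,1⟩,[(1,214),(2,473)]⟩) (.N (.G)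 (.F ⟨⟨15,4,0,1,0,3,4⟩,[(1,-41),(2,-114)]⟩))) (.F ⟨⟨13,4,1,1,0,2,2⟩,[(1,-121),(2,-7)]⟩)) (.N (.F ⟨⟨13,4,1,1,0,2,2⟩,[(1,-121),(2,-7)]⟩) (.N (.F ⟨⟨13,4,1,1,0,2,2⟩,[(1,-121),(2,-7)]⟩) (.F ⟨⟨16,4,0,0,0,1,2⟩,[(1,345),(2,759)]⟩))))) (.F ⟨⟨14,4,0,0,0,1,1⟩,[(1,76),(2,259)]⟩)) (.N (.F ⟨⟨14,4,0,0,1,1,1⟩,[(1,76),(2,59)]⟩) (.F ⟨⟨10,4,1,0,0,1,1⟩,[(1,38),(2,-69)]⟩)))) (.F ⟨⟨9,4,0,0,0,1,1⟩,[(1,69),(2,76)]⟩)))) (.N (.N (.F ⟨⟨6,4,1,1,3,2,2⟩,[(1,-31),(2,38)]⟩) (.F ⟨⟨10,4,0,0,0,1,1⟩,[(1,69),(2,76)]⟩)) (.N (.F ⟨⟨10,4,0,0,1,1,1⟩,[(1,-31),(2,-24)]⟩) (.N (.N (.F ⟨⟨9,4,1,0,1,2,3⟩,[(1,-62),(2,-24)]⟩)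 (.F ⟨⟨7,4,2,0,3,1,1⟩,[(2,69)]⟩)) (.F ⟨⟨7,4,1,0,0,1,2⟩,[(2,69)]⟩))))))) (.N (.N (.F ⟨⟨3,4,0,0,1,3,4⟩,[(1,-31),(2,7)]⟩) (.N (.N (.N (.N (.N (.N (.F ⟨⟨9,4,0,1,2,1,2⟩,[(1,138),(2,207)]⟩) (.N (.F ⟨⟨9,4,0,2,3,1,1⟩,[(1,138),(2,207)]⟩) (.F ⟨⟨11,4,0,1,0,2,3⟩,[(1,107),(2,83)]⟩))) (.F ⟨⟨12,4,0,0,0,1,1⟩,[(1,76),(2,52)]⟩)) (.N (.F ⟨⟨12,4,0,0,1,1,1⟩,[(1,76),(2,152)]⟩) (.F ⟨⟨8,4,1,1,0,2,2⟩,[(1,38),(2,31)]⟩))) (.F ⟨⟨6,4,0,0,1,2,2⟩,[(1,38),(2,45)]⟩)) (.F ⟨⟨9,4,0,0,0,1,1⟩,[(1,138),(2,145)]⟩)) (.F ⟨⟨5,4,0,0,1,1,1⟩,[(1,-31),(2,38)]⟩))) (.F ⟨⟨4,4,0,0,0,1,1⟩,[(1,69),(2,38)]⟩)))) (.N (.N (.N (.N (.N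 (.N (.F ⟨⟨5,4,0,1,2,1,2⟩,[(1,69),(2,69)]⟩) (.N (.F ⟨⟨5,4,0,2,3,1,1⟩,[(1,69),(2,69)]⟩) (.F ⟨⟨7,4,0,1,0,2,3⟩,[(1,69),(2,38)]⟩))) (.F ⟨⟨8,4,0,0,0,1,1⟩,[(1,38),(2,7)]⟩)) (.N (.F ⟨⟨8,4,0,0,1,1,1⟩,[(1,38),(2,7)]⟩) (.N (.N (.F ⟨⟨5,4,0,1,2,2,3⟩,[(1,69),(2,38)]⟩) (.N (.N (.N (.F ⟨⟨8,4,1,2,4,2,3⟩,[(1,38),(2,38)]⟩) (.F ⟨⟨13,4,0,0,0,1,1⟩,[(1,76),(2,14)]⟩)) (.N (.F ⟨⟨13,4,0,0,1,1,1⟩,[(1,76),(2,114)]⟩) (.N (.N (.F ⟨⟨9,4,1,1,3,3,4⟩,[(1,45),(2,14)]⟩) (.F ⟨⟨8,4,3,0,4,2,2⟩,[(1,38),(2,7)]⟩)) (.F ⟨⟨8,4,2,0,0,2,3⟩,[(1,38),(2,7)]⟩)))) (.F ⟨⟨6,4,1,1,0,3,4⟩,[(1,7),(2,-69)]⟩))) (.F ⟨⟨5,4,2,1,0,2,3⟩,[(1,69),(2,69)]⟩))))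 (.N (.N (.N (.F ⟨⟨7,4,0,0,1,1,1⟩,[(1,38),(2,7)]⟩) (.N (.N (.N (.F ⟨⟨8,4,0,1,3,1,1⟩,[(1,69),(2,138)]⟩) (.F ⟨⟨12,4,0,0,0,1,1⟩,[(1,-24),(2,-17)]⟩)) (.N (.F ⟨⟨12,4,0,0,1,1,1⟩,[(1,176),(2,183)]⟩) (.N (.N (.N (.N (.F ⟨⟨14,4,0,0,1,1,2⟩,[(1,207),(2,414)]⟩) (.F ⟨⟨11,4,1,1,4,2,2⟩,[(1,76),(2,114)]⟩)) (.F ⟨⟨11,4,1,1,3,2,2⟩,[(1,76),(2,114)]⟩)) (.N (.F ⟨⟨11,4,1,1,3,2,2⟩,[(1,76),(2,114)]⟩) (.N (.N (.F ⟨⟨13,4,1,0,2,3,4⟩,[(1,90),(2,73)]⟩) (.N (.N (.N (.F ⟨⟨13,4,1,3,5,3,4⟩,[(1,259),(2,373)]⟩) (.N (.N (.N (.F ⟨⟨21,4,0,0,1,1,1⟩,[(1,832),(2,1305)]⟩) (.N (.G) (.F ⟨⟨20,4,0,1,0,3,4⟩,[(1,-105),(2,-73)]⟩)))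 (.F ⟨⟨18,4,1,1,0,2,2⟩,[(1,173),(2,-83)]⟩)) (.N (.F ⟨⟨18,4,1,1,0,2,2⟩,[(1,173),(2,-83)]⟩) (.N (.F ⟨⟨18,4,1,1,0,2,2⟩,[(1,173),(2,-83)]⟩) (.F ⟨⟨21,4,0,0,0,1,2⟩,[(1,1104),(2,1863)]⟩))))) (.F ⟨⟨19,4,0,0,0,1,1⟩,[(1,573),(2,832)]⟩)) (.N (.F ⟨⟨19,4,0,0,1,1,1⟩,[(1,73),(2,132)]⟩) (.F ⟨⟨15,4,1,0,0,1,1⟩,[(1,-283),(2,-107)]⟩)))) (.F ⟨⟨14,4,0,0,0,1,1⟩,[(1,183),(2,259)]⟩)))) (.F ⟨⟨6,4,3,1,0,3,4⟩,[(1,7),(2,-69)]⟩)))) (.F ⟨⟨3,4,1,2,0,5,7⟩,[(1,-7),(2,31)]⟩))) (.N (.F ⟨⟨2,0,1,3,1,3,3⟩,[(1,-31),(2,-31)]⟩) (.N (.F ⟨⟨10,4,0,0,1,1,1⟩,[(1,38),(2,-24)]⟩) (.F ⟨⟨5,4,2,1,0,2,3⟩,[(1,69),(2,69)]⟩)))) (.N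 (.N (.F ⟨⟨2,0,1,3,1,3,3⟩,[(1,-31),(2,-31)]⟩) (.N (.F ⟨⟨10,4,0,0,1,1,1⟩,[(1,38),(2,-24)]⟩) (.N (.F ⟨⟨2,0,1,3,1,3,3⟩,[(1,-31),(2,-31)]⟩) (.F ⟨⟨7,4,1,0,0,1,1⟩,[(1,-31),(2,-38)]⟩)))) (.N (.N (.F ⟨⟨2,0,1,3,1,3,3⟩,[(1,-31),(2,-31)]⟩) (.N (.F ⟨⟨2,0,1,3,1,3,3⟩,[(1,-31),(2,-31)]⟩) (.N (.F ⟨⟨4,4,1,1,2,6,8⟩,[(1,38),(2,-55)]⟩) (.F ⟨⟨8,4,1,0,0,1,1⟩,[(1,-31),(2,-38)]⟩)))) (.F ⟨⟨7,4,0,0,0,1,2⟩,[(2,69)]⟩))))) (.F ⟨⟨5,4,0,0,0,1,1⟩,[(1,69),(2,38)]⟩)) (.N (.F ⟨⟨5,4,0,0,1,1,1⟩,[(1,-31),(2,-62)]⟩) (.N (.N (.F ⟨⟨4,4,1,0,1,2,3⟩,[(2,-31)]⟩) (.N (.N (.N (.F ⟨⟨5,4,1,2,4,2,3⟩,[(1,-31),(2,-31)]⟩) (.F ⟨⟨10,4,0,0,0,1,1⟩,[(1,69),(2,7)]⟩))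 (.N (.F ⟨⟨10,4,0,0,1,1,1⟩,[(1,-31),(2,7)]⟩) (.N (.N (.N (.N (.F ⟨⟨12,4,0,0,1,1,2⟩,[(1,138),(2,207)]⟩) (.N (.N (.N (.F ⟨⟨13,4,0,1,3,1,1⟩,[(1,69),(2,138)]⟩) (.F ⟨⟨9,4,1,1,0,6,8⟩,[(1,45),(2,-10)]⟩)) (.F ⟨⟨7,2,3,1,6,3,3⟩,[(1,69),(2,38)]⟩)) (.F ⟨⟨7,3,3,1,6,3,3⟩,[(1,69),(2,38)]⟩))) (.F ⟨⟨5,4,3,2,6,4,5⟩,[(1,-31),(2,38)]⟩)) (.N (.F ⟨⟨5,4,3,2,6,4,5⟩,[(1,-31),(2,38)]⟩) (.N (.N (.F ⟨⟨8,4,2,1,4,5,7⟩,[(1,7),(2,83)]⟩) (.N (.N (.N (.F ⟨⟨11,4,1,3,5,3,4⟩,[(1,38),(2,114)]⟩) (.N (.N (.F ⟨⟨14,0,0,3,1,3,2⟩,[(1,-24),(2,-11)]⟩) (.F ⟨⟨16,4,1,1,0,2,2⟩,[(1,-273),(2,-159)]⟩)) (.F ⟨⟨14,4,1,0,0,2,2⟩,[(1,-55),(2,-42)]⟩)))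 (.F ⟨⟨17,4,0,0,0,1,1⟩,[(1,76),(2,259)]⟩)) (.N (.F ⟨⟨17,4,0,0,1,1,1⟩,[(1,76),(2,59)]⟩) (.F ⟨⟨13,4,1,0,0,1,1⟩,[(1,38),(2,-276)]⟩)))) (.F ⟨⟨12,4,0,0,0,1,1⟩,[(1,69),(2,76)]⟩)))) (.F ⟨⟨2,4,3,0,3,1,1⟩,[]⟩)))) (.F ⟨⟨1,4,1,1,0,4,6⟩,[(1,-31),(2,-69)]⟩))) (.N (.N (.N (.F ⟨⟨5,4,1,2,3,2,3⟩,[(1,-31),(2,-31)]⟩) (.N (.N (.N (.F ⟨⟨10,4,0,0,1,1,1⟩,[(1,38),(2,7)]⟩) (.N (.N (.N (.F ⟨⟨11,4,0,1,3,1,1⟩,[(1,69),(2,138)]⟩) (.F ⟨⟨15,4,0,0,0,1,1⟩,[(1,-24),(2,-17)]⟩)) (.N (.F ⟨⟨15,4,0,0,1,1,1⟩,[(1,176),(2,183)]⟩) (.N (.N (.N (.N (.F ⟨⟨17,4,0,0,1,1,2⟩,[(1,207),(2,414)]⟩) (.F ⟨⟨14,4,1,1,4,2,2⟩,[(1,76),(2,114)]⟩))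 (.F ⟨⟨14,4,1,1,3,2,2⟩,[(1,76),(2,114)]⟩)) (.N (.F ⟨⟨14,4,1,1,3,2,2⟩,[(1,76),(2,114)]⟩) (.N (.N (.F ⟨⟨16,4,1,0,2,3,4⟩,[(1,90),(2,73)]⟩) (.N (.N (.N (.F ⟨⟨16,4,1,3,5,3,4⟩,[(1,259),(2,373)]⟩) (.N (.N (.N (.F ⟨⟨24,4,0,0,1,1,1⟩,[(1,832),(2,1305)]⟩) (.N (.G) (.F ⟨⟨23,4,0,1,0,3,4⟩,[(1,-400),(2,-368)]⟩))) (.F ⟨⟨21,4,1,1,0,2,2⟩,[(1,173),(2,-332)]⟩)) (.N (.F ⟨⟨21,4,1,1,0,2,2⟩,[(1,173),(2,-332)]⟩) (.N (.F ⟨⟨21,4,1,1,0,2,2⟩,[(1,173),(2,-332)]⟩) (.F ⟨⟨24,4,0,0,0,1,2⟩,[(1,1104),(2,1863)]⟩))))) (.F ⟨⟨22,4,0,0,0,1,1⟩,[(1,573),(2,832)]⟩)) (.N (.F ⟨⟨22,4,0,0,1,1,1⟩,[(1,73),(2,132)]⟩) (.F ⟨⟨18,4,1,0,0,1,1⟩,[(1,-735),(2,-559)]⟩))))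 (.F ⟨⟨17,4,0,0,0,1,1⟩,[(1,183),(2,259)]⟩)))) (.F ⟨⟨9,4,3,1,0,3,4⟩,[(1,7),(2,-176)]⟩)))) (.F ⟨⟨9,4,0,1,0,3,4⟩,[(1,-14),(2,-76)]⟩))) (.N (.F ⟨⟨2,0,2,4,1,4,5⟩,[(1,-31),(2,-31)]⟩) (.N (.F ⟨⟨13,4,0,0,1,1,1⟩,[(1,38),(2,-24)]⟩) (.F ⟨⟨8,4,2,1,0,2,3⟩,[(1,69),(2,69)]⟩)))) (.F ⟨⟨2,4,2,0,3,1,1⟩,[]⟩))) (.F ⟨⟨8,4,0,0,0,1,1⟩,[(1,69),(2,38)]⟩)) (.N (.F ⟨⟨5,4,1,0,1,2,3⟩,[(1,-31),(2,-62)]⟩) (.F ⟨⟨4,4,1,0,0,1,2⟩,[]⟩))))))) (.N (.N (.N (.N (.N (.N (.F ⟨⟨4,4,0,1,2,1,2⟩,[(1,69),(2,69)]⟩) (.F ⟨⟨8,4,0,0,0,1,1⟩,[(1,38),(2,7)]⟩)) (.N (.F ⟨⟨8,4,0,0,1,1,1⟩,[(1,38),(2,7)]⟩) (.N (.N (.F ⟨⟨5,4,0,1,2,2,3⟩,[(1,7),(2,7)]⟩)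 (.N (.F ⟨⟨7,4,1,1,3,2,2⟩,[(1,38),(2,38)]⟩) (.N (.N (.F ⟨⟨9,4,1,0,2,3,4⟩,[(1,14),(2,-17)]⟩) (.N (.N (.N (.F ⟨⟨9,4,1,3,5,3,4⟩,[(1,145),(2,114)]⟩) (.N (.N (.N (.F ⟨⟨17,4,0,0,1,1,1⟩,[(1,466),(2,473)]⟩) (.N (.G) (.F ⟨⟨13,4,1,2,0,5,7⟩,[(1,556),(2,-214)]⟩))) (.F ⟨⟨14,4,1,1,0,2,2⟩,[(1,-76),(2,-7)]⟩)) (.N (.F ⟨⟨14,4,1,1,0,2,2⟩,[(1,-76),(2,-7)]⟩) (.N (.F ⟨⟨14,4,1,1,0,2,2⟩,[(1,-76),(2,-7)]⟩) (.F ⟨⟨17,4,0,0,0,1,2⟩,[(1,690),(2,759)]⟩))))) (.F ⟨⟨15,4,0,0,0,1,1⟩,[(1,221),(2,259)]⟩)) (.N (.F ⟨⟨15,4,0,0,1,1,1⟩,[(1,121),(2,59)]⟩) (.F ⟨⟨11,4,1,0,0,1,1⟩,[(1,76),(2,-69)]⟩)))) (.F ⟨⟨10,4,0,0,0,1,1⟩,[(1,107),(2,76)]⟩))))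 (.F ⟨⟨5,4,2,1,0,2,3⟩,[(1,69),(2,69)]⟩)))) (.N (.N (.F ⟨⟨4,4,0,1,2,2,3⟩,[(1,38),(2,7)]⟩) (.N (.N (.N (.F ⟨⟨5,4,0,2,3,2,3⟩,[(1,7),(2,7)]⟩) (.F ⟨⟨7,4,0,0,1,2,2⟩,[(1,76),(2,45)]⟩)) (.F ⟨⟨10,4,0,0,0,1,1⟩,[(1,176),(2,145)]⟩)) (.N (.F ⟨⟨10,4,0,0,1,1,1⟩,[(1,-24),(2,-55)]⟩) (.F ⟨⟨5,4,2,1,0,2,3⟩,[(1,69),(2,69)]⟩)))) (.F ⟨⟨4,4,0,1,0,2,3⟩,[(1,38),(2,38)]⟩))) (.F ⟨⟨5,4,0,0,0,1,1⟩,[(1,69),(2,38)]⟩)) (.N (.F ⟨⟨5,4,0,0,1,1,1⟩,[(1,-31),(2,-62)]⟩) (.N (.N (.N (.N (.F ⟨⟨7,4,0,0,1,1,2⟩,[(1,138),(2,138)]⟩) (.F ⟨⟨2,4,2,2,6,3,4⟩,[(1,69),(2,69)]⟩)) (.F ⟨⟨2,4,2,2,4,3,4⟩,[(1,69),(2,69)]⟩)) (.N (.F ⟨⟨2,4,2,2,4,3,4⟩,[(1,69),(2,69)]⟩)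 (.N (.N (.F ⟨⟨3,4,2,1,4,5,7⟩,[(1,7),(2,-24)]⟩) (.N (.N (.N (.F ⟨⟨6,4,1,3,5,3,4⟩,[(1,38),(2,7)]⟩) (.N (.N (.N (.F ⟨⟨14,4,0,0,1,1,1⟩,[(1,214),(2,221)]⟩) (.N (.G) (.F ⟨⟨13,4,0,1,0,3,4⟩,[(1,-41),(2,-66)]⟩))) (.F ⟨⟨11,4,1,1,0,2,2⟩,[(1,-76),(2,-7)]⟩)) (.N (.F ⟨⟨11,4,1,1,0,2,2⟩,[(1,-76),(2,-7)]⟩) (.N (.F ⟨⟨11,4,1,1,0,2,2⟩,[(1,-76),(2,-7)]⟩) (.F ⟨⟨14,4,0,0,0,1,2⟩,[(1,345),(2,414)]⟩))))) (.F ⟨⟨12,4,0,0,0,1,1⟩,[(1,76),(2,114)]⟩)) (.N (.F ⟨⟨12,4,0,0,1,1,1⟩,[(1,76),(2,14)]⟩) (.F ⟨⟨8,4,1,0,0,1,1⟩,[(1,38),(2,-38)]⟩)))) (.F ⟨⟨7,4,0,0,0,1,1⟩,[(1,69),(2,38)]⟩)))) (.N (.N (.N (.F ⟨⟨5,4,1,2,3,2,3⟩,[(1,-31),(2,-31)]⟩)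 (.N (.N (.F ⟨⟨6,4,1,1,3,3,4⟩,[(1,38),(2,7)]⟩) (.N (.N (.N (.F ⟨⟨8,4,0,2,3,2,3⟩,[(1,7),(2,7)]⟩) (.F ⟨⟨10,4,0,0,1,2,2⟩,[(1,76),(2,45)]⟩)) (.F ⟨⟨13,4,0,0,0,1,1⟩,[(1,176),(2,145)]⟩)) (.N (.F ⟨⟨13,4,0,0,1,1,1⟩,[(1,-24),(2,-55)]⟩) (.F ⟨⟨8,4,2,1,0,2,3⟩,[(1,69),(2,69)]⟩)))) (.F ⟨⟨4,4,1,1,0,3,5⟩,[(1,38),(2,38)]⟩))) (.F ⟨⟨8,4,0,0,0,1,1⟩,[(1,69),(2,38)]⟩)) (.N (.F ⟨⟨5,4,1,0,1,2,3⟩,[(1,-31),(2,-62)]⟩) (.N (.N (.F ⟨⟨0,4,2,2,3,5,8⟩,[(1,-62),(2,-62)]⟩) (.F ⟨⟨5,4,2,0,3,1,1⟩,[]⟩)) (.F ⟨⟨5,4,1,0,0,1,2⟩,[]⟩))))))) (.N (.N (.N (.F ⟨⟨4,4,0,0,1,1,1⟩,[(1,-31),(2,-62)]⟩) (.N (.N (.F ⟨⟨5,4,0,0,1,1,1⟩,[(1,69),(2,31)]⟩)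 (.N (.F ⟨⟨9,4,0,0,1,1,1⟩,[(1,7),(2,45)]⟩) (.F ⟨⟨4,4,0,0,1,2,2⟩,[(1,38),(2,7)]⟩))) (.F ⟨⟨1,4,0,1,0,4,6⟩,[(1,38)]⟩))) (.N (.N (.N (.N (.N (.N (.F ⟨⟨7,4,0,1,2,1,2⟩,[(1,138),(2,138)]⟩) (.N (.F ⟨⟨7,4,0,2,3,1,1⟩,[(1,138),(2,138)]⟩) (.F ⟨⟨9,4,0,1,0,2,3⟩,[(1,107),(2,76)]⟩))) (.F ⟨⟨10,4,0,0,0,1,1⟩,[(1,76),(2,45)]⟩)) (.N (.F ⟨⟨10,4,0,0,1,1,1⟩,[(1,76),(2,45)]⟩) (.N (.N (.F ⟨⟨7,4,0,1,2,2,3⟩,[(1,107),(2,76)]⟩) (.N (.N (.N (.F ⟨⟨10,4,1,2,4,2,3⟩,[(1,76),(2,76)]⟩) (.F ⟨⟨15,4,0,0,0,1,1⟩,[(1,121),(2,59)]⟩)) (.N (.F ⟨⟨15,4,0,0,1,1,1⟩,[(1,221),(2,259)]⟩) (.N (.F ⟨⟨12,4,0,0,1,2,2⟩,[(1,21),(2,-83)]⟩)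 (.F ⟨⟨10,4,2,0,0,2,3⟩,[(1,45),(2,14)]⟩)))) (.F ⟨⟨8,4,1,1,0,3,4⟩,[(1,114),(2,-69)]⟩))) (.F ⟨⟨7,4,2,1,0,2,3⟩,[(1,138),(2,138)]⟩)))) (.F ⟨⟨4,4,0,0,1,2,2⟩,[(1,38),(2,7)]⟩)) (.F ⟨⟨7,4,0,0,0,1,1⟩,[(1,138),(2,107)]⟩)) (.N (.N (.F ⟨⟨8,4,0,0,1,1,2⟩,[(1,138),(2,207)]⟩) (.N (.N (.F ⟨⟨8,4,0,0,2,1,1⟩,[(1,69),(2,138)]⟩) (.N (.N (.N (.F ⟨⟨5,4,1,2,7,2,3⟩,[(1,-62),(2,-62)]⟩) (.N (.N (.F ⟨⟨9,1,1,2,1,3,3⟩,[(1,14),(2,-38)]⟩) (.N (.F ⟨⟨9,1,1,2,1,3,3⟩,[(1,14),(2,-38)]⟩) (.F ⟨⟨14,4,0,0,0,1,1⟩,[(1,314),(2,-138)]⟩))) (.F ⟨⟨14,4,0,0,0,1,2⟩,[(1,345),(2,552)]⟩))) (.N (.F ⟨⟨13,4,0,0,1,1,1⟩,[(1,145),(2,252)]⟩)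 (.N (.F ⟨⟨10,4,0,0,1,2,2⟩,[(1,145),(2,-138)]⟩) (.F ⟨⟨7,4,3,0,0,3,4⟩,[(1,107),(2,45)]⟩)))) (.N (.N (.F ⟨⟨9,4,1,0,2,3,4⟩,[(1,145),(2,252)]⟩) (.N (.N (.F ⟨⟨10,4,0,0,1,2,2⟩,[(1,145),(2,-138)]⟩) (.F ⟨⟨15,4,0,0,0,1,1⟩,[(1,321),(2,366)]⟩)) (.N (.F ⟨⟨15,4,0,0,1,1,1⟩,[(1,21),(2,66)]⟩) (.F ⟨⟨11,4,1,0,0,1,1⟩,[(1,-76),(2,-38)]⟩)))) (.F ⟨⟨10,4,0,0,0,1,1⟩,[(1,76),(2,14)]⟩)))) (.N (.N (.N (.F ⟨⟨5,4,1,2,5,2,3⟩,[(1,-62),(2,-62)]⟩) (.N (.N (.F ⟨⟨9,4,1,1,3,3,4⟩,[(1,14),(2,52)]⟩) (.N (.N (.N (.F ⟨⟨10,4,1,3,4,3,5⟩,[(1,245),(2,283)]⟩) (.N (.N (.F ⟨⟨13,0,0,3,1,3,2⟩,[(1,21),(2,10)]⟩) (.F ⟨⟨11,4,2,3,0,4,5⟩,[(1,-52),(2,-45)]⟩))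 (.F ⟨⟨13,4,1,0,0,2,2⟩,[(1,-10),(2,-21)]⟩))) (.F ⟨⟨16,4,0,0,0,1,1⟩,[(1,221),(2,297)]⟩)) (.N (.F ⟨⟨16,4,0,0,1,1,1⟩,[(1,121),(2,97)]⟩) (.F ⟨⟨11,4,2,1,0,2,3⟩,[(1,76),(2,45)]⟩)))) (.F ⟨⟨7,4,2,0,0,3,4⟩,[(1,107),(2,45)]⟩))) (.F ⟨⟨11,4,0,0,0,1,1⟩,[(1,76),(2,14)]⟩)) (.N (.F ⟨⟨11,4,0,0,1,1,1⟩,[(1,76),(2,114)]⟩) (.F ⟨⟨3,4,4,0,0,4,6⟩,[(1,38),(2,7)]⟩))))) (.N (.N (.F ⟨⟨4,4,1,0,1,2,3⟩,[(1,-31),(2,-62)]⟩) (.N (.N (.N (.F ⟨⟨5,4,1,2,5,2,3⟩,[(1,-62),(2,-62)]⟩) (.F ⟨⟨12,4,0,0,0,1,1⟩,[(1,107),(2,45)]⟩)) (.N (.F ⟨⟨12,4,0,0,1,1,1⟩,[(1,7),(2,45)]⟩) (.N (.F ⟨⟨9,4,0,0,1,2,2⟩,[(1,7),(2,-76)]⟩) (.F ⟨⟨4,4,3,0,3,1,1⟩,[]⟩))))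 (.F ⟨⟨3,4,1,0,0,4,6⟩,[(1,38),(2,7)]⟩))) (.N (.N (.N (.N (.F ⟨⟨5,4,1,2,5,2,3⟩,[(1,-62),(2,-62)]⟩) (.N (.F ⟨⟨13,4,0,0,1,1,1⟩,[(1,76),(2,45)]⟩) (.F ⟨⟨9,4,1,1,0,2,2⟩,[(1,38),(2,-7)]⟩))) (.N (.N (.N (.F ⟨⟨12,4,0,0,1,1,1⟩,[(1,76),(2,45)]⟩) (.N (.N (.N (.F ⟨⟨13,4,0,1,3,1,1⟩,[(1,207),(2,276)]⟩) (.F ⟨⟨17,4,0,0,0,1,1⟩,[(1,21),(2,28)]⟩)) (.N (.F ⟨⟨17,4,0,0,1,1,1⟩,[(1,321),(2,328)]⟩) (.N (.N (.N (.N (.F ⟨⟨19,4,0,0,1,1,2⟩,[(1,552),(2,759)]⟩) (.F ⟨⟨16,4,1,1,4,2,2⟩,[(1,121),(2,159)]⟩)) (.F ⟨⟨16,4,1,1,3,2,2⟩,[(1,121),(2,159)]⟩)) (.N (.F ⟨⟨16,4,1,1,3,2,2⟩,[(1,121),(2,159)]⟩) (.N (.N (.F ⟨⟨18,4,1,0,2,3,4⟩,[(1,187),(2,170)]⟩)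 (.N (.N (.N (.F ⟨⟨18,4,1,3,5,3,4⟩,[(1,556),(2,670)]⟩) (.N (.N (.N (.F ⟨⟨26,4,0,0,1,1,1⟩,[(1,1878),(2,2351)]⟩) (.N (.G) (.F ⟨⟨25,4,0,1,0,3,4⟩,[(1,-400),(2,-368)]⟩))) (.F ⟨⟨23,4,1,1,0,2,2⟩,[(1,422),(2,-332)]⟩)) (.N (.F ⟨⟨23,4,1,1,0,2,2⟩,[(1,422),(2,-332)]⟩) (.N (.F ⟨⟨23,4,1,1,0,2,2⟩,[(1,422),(2,-332)]⟩) (.F ⟨⟨26,4,0,0,0,1,2⟩,[(1,2553),(2,3312)]⟩))))) (.F ⟨⟨24,4,0,0,0,1,1⟩,[(1,1222),(2,1481)]⟩)) (.N (.F ⟨⟨24,4,0,0,1,1,1⟩,[(1,222),(2,281)]⟩) (.F ⟨⟨20,4,1,0,0,1,1⟩,[(1,-735),(2,-559)]⟩)))) (.F ⟨⟨19,4,0,0,0,1,1⟩,[(1,435),(2,511)]⟩)))) (.F ⟨⟨11,4,3,1,0,3,4⟩,[(1,114),(2,-176)]⟩)))) (.F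 ⟨⟨11,4,0,1,0,3,4⟩,[(1,-14),(2,-76)]⟩))) (.F ⟨⟨9,4,1,1,0,2,2⟩,[(1,38),(2,-7)]⟩)) (.F ⟨⟨4,4,2,0,3,1,1⟩,[]⟩))) (.F ⟨⟨10,4,0,0,0,1,1⟩,[(1,138),(2,107)]⟩)) (.N (.F ⟨⟨7,4,1,0,1,2,3⟩,[(1,-62),(2,-93)]⟩) (.F ⟨⟨6,4,1,0,0,1,2⟩,[]⟩))))))) (.F ⟨⟨2,4,0,0,0,1,2⟩,[(1,69),(2,69)]⟩))))) (.N (.N (.N (.N (.N (.F ⟨⟨0,4,0,2,3,2,3⟩,[(2,-31)]⟩) (.N (.F ⟨⟨0,4,0,3,4,2,2⟩,[(2,-31)]⟩) (.F ⟨⟨3,4,0,1,0,2,3⟩,[(1,-31),(2,38)]⟩))) (.F ⟨⟨4,4,0,0,0,1,1⟩,[(2,38)]⟩)) (.N (.F ⟨⟨4,4,0,0,1,1,1⟩,[(2,-62)]⟩) (.N (.N (.F ⟨⟨0,4,0,2,3,3,4⟩,[(1,-31),(2,-62)]⟩) (.N (.N (.N (.F ⟨⟨4,4,1,2,4,2,3⟩,[(2,-31)]⟩) (.F ⟨⟨9,4,0,0,0,1,1⟩,[(1,-31),(2,-24)]⟩))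 (.N (.F ⟨⟨9,4,0,0,1,1,1⟩,[(1,69),(2,76)]⟩) (.N (.N (.F ⟨⟨5,4,1,1,3,3,4⟩,[(2,7)]⟩) (.N (.F ⟨⟨4,4,3,2,6,4,5⟩,[(1,-31),(2,7)]⟩) (.N (.N (.F ⟨⟨7,4,2,1,4,5,7⟩,[(1,38),(2,221)]⟩) (.N (.N (.N (.F ⟨⟨10,4,1,3,5,3,4⟩,[(1,7),(2,121)]⟩) (.N (.N (.N (.F ⟨⟨18,4,0,0,1,1,1⟩,[(1,183),(2,656)]⟩) (.N (.G) (.F ⟨⟨17,4,0,1,0,3,4⟩,[(1,-105),(2,-73)]⟩))) (.F ⟨⟨15,4,1,1,0,2,2⟩,[(1,76),(2,-83)]⟩)) (.N (.F ⟨⟨15,4,1,1,0,2,2⟩,[(1,76),(2,-83)]⟩) (.N (.F ⟨⟨15,4,1,1,0,2,2⟩,[(1,76),(2,-83)]⟩) (.F ⟨⟨18,4,0,0,0,1,2⟩,[(1,207),(2,966)]⟩))))) (.F ⟨⟨16,4,0,0,0,1,1⟩,[(1,176),(2,435)]⟩)) (.N (.F ⟨⟨16,4,0,0,1,1,1⟩,[(1,-24),(2,35)]⟩)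 (.F ⟨⟨12,4,1,0,0,1,1⟩,[(1,-283),(2,-107)]⟩)))) (.F ⟨⟨11,4,0,0,0,1,1⟩,[(1,38),(2,114)]⟩)))) (.F ⟨⟨3,4,3,1,0,3,5⟩,[(1,-31),(2,38)]⟩)))) (.F ⟨⟨2,4,1,1,0,3,4⟩,[(1,-7),(2,31)]⟩))) (.N (.F ⟨⟨0,0,2,2,1,2,3⟩,[]⟩) (.N (.F ⟨⟨4,4,1,0,1,2,3⟩,[(2,-62)]⟩) (.N (.F ⟨⟨0,4,2,2,1,2,3⟩,[]⟩) (.F ⟨⟨4,4,1,0,0,1,2⟩,[]⟩))))))) (.N (.N (.N (.F ⟨⟨3,4,0,0,1,1,1⟩,[(2,-62)]⟩) (.N (.N (.N (.F ⟨⟨4,4,0,1,3,1,1⟩,[(1,-31),(2,38)]⟩) (.F ⟨⟨8,4,0,0,0,1,1⟩,[(1,69),(2,45)]⟩)) (.N (.F ⟨⟨8,4,0,0,1,1,1⟩,[(1,-31),(2,45)]⟩) (.F ⟨⟨3,4,0,0,1,2,2⟩,[(1,-31),(2,7)]⟩))) (.F ⟨⟨2,4,0,1,0,3,4⟩,[(1,-31)]⟩))) (.N (.N (.N (.F ⟨⟨0,4,0,3,4,3,4⟩,[(1,-31),(2,-62)]⟩)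 (.F ⟨⟨3,4,0,0,1,2,2⟩,[(1,-31),(2,7)]⟩)) (.F ⟨⟨6,4,0,0,0,1,1⟩,[(1,69),(2,107)]⟩)) (.N (.N (.F ⟨⟨7,4,0,0,1,1,2⟩,[(1,69),(2,207)]⟩) (.N (.N (.F ⟨⟨7,4,0,0,2,1,1⟩,[(2,138)]⟩) (.N (.N (.N (.F ⟨⟨4,4,1,2,7,2,3⟩,[(1,-31),(2,38)]⟩) (.F ⟨⟨5,4,2,0,10,2,1⟩,[(1,-31),(2,38)]⟩)) (.F ⟨⟨5,3,2,0,4,2,1⟩,[(1,-31),(2,38)]⟩)) (.N (.N (.F ⟨⟨8,4,1,0,2,3,4⟩,[(1,38),(2,252)]⟩) (.N (.N (.F ⟨⟨9,4,0,0,1,2,2⟩,[(1,38),(2,-138)]⟩) (.F ⟨⟨14,4,0,0,0,1,1⟩,[(1,176),(2,366)]⟩)) (.N (.F ⟨⟨14,4,0,0,1,1,1⟩,[(1,-24),(2,66)]⟩) (.F ⟨⟨10,4,1,0,0,1,1⟩,[(1,-114),(2,-38)]⟩)))) (.F ⟨⟨9,4,0,0,0,1,1⟩,[(1,38),(2,14)]⟩)))) (.N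 (.N (.N (.F ⟨⟨4,4,1,2,5,2,3⟩,[(1,-31),(2,38)]⟩) (.F ⟨⟨5,3,2,0,4,2,1⟩,[(1,-31),(2,38)]⟩)) (.F ⟨⟨10,4,0,0,0,1,1⟩,[(1,38),(2,14)]⟩)) (.N (.F ⟨⟨10,4,0,0,1,1,1⟩,[(1,38),(2,114)]⟩) (.F ⟨⟨2,4,4,1,0,4,6⟩,[(1,-31),(2,-69)]⟩))))) (.N (.F ⟨⟨0,0,2,2,1,2,3⟩,[]⟩) (.N (.F ⟨⟨0,0,2,2,1,2,3⟩,[]⟩) (.N (.F ⟨⟨6,4,1,0,1,2,3⟩,[(1,-31),(2,-93)]⟩) (.F ⟨⟨5,4,1,0,0,1,2⟩,[]⟩))))))) (.N (.N (.N (.N (.F ⟨⟨0,4,0,3,4,3,4⟩,[(1,-31),(2,-62)]⟩) (.N (.F ⟨⟨0,4,0,4,5,3,3⟩,[(1,-31),(2,-62)]⟩) (.F ⟨⟨5,4,0,1,0,2,3⟩,[(1,38),(2,107)]⟩))) (.F ⟨⟨6,4,0,0,0,1,1⟩,[(1,69),(2,107)]⟩)) (.N (.N (.F ⟨⟨7,4,0,0,1,1,2⟩,[(1,69),(2,207)]⟩)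 (.N (.F ⟨⟨6,4,0,0,1,1,1⟩,[(1,69),(2,-69)]⟩) (.N (.N (.N (.F ⟨⟨4,4,1,2,5,2,3⟩,[(1,-31),(2,38)]⟩) (.F ⟨⟨5,3,2,1,4,2,2⟩,[(1,69),(2,138)]⟩)) (.F ⟨⟨10,4,0,0,0,1,1⟩,[(1,38),(2,14)]⟩)) (.N (.F ⟨⟨10,4,0,0,1,1,1⟩,[(1,38),(2,114)]⟩) (.N (.N (.F ⟨⟨9,4,1,0,1,2,3⟩,[(1,7),(2,114)]⟩) (.F ⟨⟨6,4,3,0,4,2,2⟩,[(1,69),(2,107)]⟩)) (.F ⟨⟨6,4,2,0,0,2,3⟩,[(1,69),(2,107)]⟩)))))) (.N (.N (.N (.F ⟨⟨7,4,0,0,2,1,1⟩,[(1,-62),(2,7)]⟩) (.N (.N (.N (.F ⟨⟨8,4,0,1,3,1,1⟩,[(1,69),(2,138)]⟩) (.N (.F ⟨⟨5,4,1,4,6,2,2⟩,[(1,69),(2,138)]⟩) (.F ⟨⟨5,4,3,1,0,5,7⟩,[(1,-24),(2,14)]⟩))) (.F ⟨⟨11,4,0,0,0,1,1⟩,[(1,7),(2,14)]⟩))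 (.N (.F ⟨⟨11,4,0,0,1,1,1⟩,[(1,107),(2,114)]⟩) (.F ⟨⟨5,4,3,1,0,3,4⟩,[(1,-38),(2,31)]⟩)))) (.N (.N (.N (.F ⟨⟨4,4,1,2,5,2,3⟩,[(1,-31),(2,38)]⟩) (.F ⟨⟨11,4,0,0,0,1,1⟩,[(1,7),(2,14)]⟩)) (.N (.F ⟨⟨11,4,0,0,1,1,1⟩,[(1,107),(2,114)]⟩) (.N (.N (.F ⟨⟨7,4,1,1,3,3,4⟩,[(1,38),(2,45)]⟩) (.N (.N (.N (.F ⟨⟨11,4,1,2,4,2,3⟩,[(1,107),(2,145)]⟩) (.F ⟨⟨16,4,0,0,0,1,1⟩,[(1,83),(2,66)]⟩)) (.F ⟨⟨8,3,3,1,4,3,3⟩,[(1,7),(2,45)]⟩)) (.N (.F ⟨⟨9,1,2,1,1,3,3⟩,[(1,45),(2,-38)]⟩) (.F ⟨⟨13,4,0,0,0,1,1⟩,[(1,145),(2,221)]⟩)))) (.F ⟨⟨5,4,3,1,0,3,5⟩,[(1,38),(2,107)]⟩)))) (.N (.N (.F ⟨⟨4,4,2,1,4,5,7⟩,[(1,7),(2,14)]⟩)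 (.N (.N (.N (.F ⟨⟨7,4,1,3,5,3,4⟩,[(1,38),(2,45)]⟩) (.F ⟨⟨10,4,0,0,1,2,2⟩,[(1,-24),(2,21)]⟩)) (.F ⟨⟨13,4,0,0,0,1,1⟩,[(1,76),(2,221)]⟩)) (.N (.F ⟨⟨13,4,0,0,1,1,1⟩,[(1,76),(2,21)]⟩) (.F ⟨⟨9,4,1,0,0,1,1⟩,[(1,38),(2,-38)]⟩)))) (.F ⟨⟨8,4,0,0,0,1,1⟩,[(1,69),(2,107)]⟩)))) (.N (.F ⟨⟨0,0,2,2,1,2,3⟩,[]⟩) (.N (.F ⟨⟨6,4,1,0,1,2,3⟩,[(1,-31),(2,-93)]⟩) (.N (.F ⟨⟨0,0,2,2,1,2,3⟩,[]⟩) (.F ⟨⟨6,4,1,0,0,1,2⟩,[]⟩))))))) (.N (.N (.N (.N (.F ⟨⟨6,4,0,0,1,1,2⟩,[(1,69),(2,207)]⟩) (.N (.N (.F ⟨⟨3,4,0,0,1,2,3⟩,[(1,69),(2,7)]⟩) (.F ⟨⟨10,4,0,0,0,1,1⟩,[(1,107),(2,83)]⟩)) (.N (.F ⟨⟨10,4,0,0,1,1,1⟩,[(1,7),(2,83)]⟩)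 (.N (.F ⟨⟨8,4,1,0,2,2,2⟩,[(1,38),(2,114)]⟩) (.N (.N (.N (.F ⟨⟨10,4,1,2,3,2,3⟩,[(1,7),(2,114)]⟩) (.N (.N (.N (.F ⟨⟨15,4,0,0,1,1,1⟩,[(1,183),(2,404)]⟩) (.N (.N (.N (.F ⟨⟨16,4,0,1,3,1,1⟩,[(1,314),(2,735)]⟩) (.F ⟨⟨20,4,0,0,0,1,1⟩,[(1,73),(2,229)]⟩)) (.N (.F ⟨⟨20,4,0,0,1,1,1⟩,[(1,573),(2,1229)]⟩) (.N (.F ⟨⟨17,4,0,0,1,2,2⟩,[(1,-67),(2,-111)]⟩) (.F ⟨⟨14,4,3,1,0,3,4⟩,[(1,259),(2,-176)]⟩)))) (.F ⟨⟨14,4,0,1,0,3,4⟩,[(1,-111),(2,-76)]⟩))) (.F ⟨⟨12,4,1,1,0,2,2⟩,[(1,76),(2,-38)]⟩)) (.F ⟨⟨10,4,1,0,0,2,3⟩,[(1,7),(2,21)]⟩))) (.F ⟨⟨13,4,0,0,0,1,1⟩,[(1,176),(2,290)]⟩)) (.N (.F ⟨⟨13,4,0,0,1,1,1⟩,[(1,-24),(2,-10)]⟩)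 (.F ⟨⟨9,4,1,0,0,1,2⟩,[(1,69),(2,207)]⟩))))))) (.N (.N (.N (.F ⟨⟨6,4,0,1,3,1,1⟩,[(1,-62),(2,7)]⟩) (.F ⟨⟨10,4,0,0,0,1,1⟩,[(1,107),(2,83)]⟩)) (.N (.F ⟨⟨10,4,0,0,1,1,1⟩,[(1,7),(2,83)]⟩) (.F ⟨⟨5,4,0,0,1,2,2⟩,[(1,38),(2,76)]⟩))) (.F ⟨⟨2,4,0,1,0,4,6⟩,[(1,38)]⟩))) (.N (.N (.N (.N (.F ⟨⟨6,4,0,1,3,1,1⟩,[(1,-62),(2,7)]⟩) (.N (.F ⟨⟨11,4,0,0,1,1,1⟩,[(1,76),(2,83)]⟩) (.N (.N (.F ⟨⟨8,4,0,1,2,2,3⟩,[(1,107),(2,114)]⟩) (.N (.N (.N (.F ⟨⟨11,4,1,2,4,2,3⟩,[(1,76),(2,114)]⟩) (.F ⟨⟨16,4,0,0,0,1,1⟩,[(1,121),(2,104)]⟩)) (.N (.F ⟨⟨16,4,0,0,1,1,1⟩,[(1,221),(2,404)]⟩) (.N (.N (.F ⟨⟨12,4,1,1,3,3,4⟩,[(1,90),(2,204)]⟩)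 (.F ⟨⟨11,4,3,0,4,2,2⟩,[(1,45),(2,21)]⟩)) (.F ⟨⟨11,4,2,0,0,2,3⟩,[(1,45),(2,21)]⟩)))) (.F ⟨⟨9,4,1,1,0,3,4⟩,[(1,114),(2,-69)]⟩))) (.F ⟨⟨8,4,2,1,0,2,3⟩,[(1,138),(2,207)]⟩)))) (.F ⟨⟨5,4,0,0,1,2,2⟩,[(1,38),(2,76)]⟩)) (.F ⟨⟨8,4,0,0,0,1,1⟩,[(1,138),(2,176)]⟩)) (.N (.N (.F ⟨⟨9,4,0,0,1,1,2⟩,[(1,138),(2,276)]⟩) (.N (.N (.F ⟨⟨9,4,0,0,2,1,1⟩,[(1,69),(2,207)]⟩) (.N (.N (.N (.F ⟨⟨6,4,1,2,7,2,3⟩,[(1,-62),(2,7)]⟩) (.N (.F ⟨⟨11,2,0,1,1,2,2⟩,[(1,45),(2,59)]⟩) (.F ⟨⟨15,4,0,0,0,1,2⟩,[(1,345),(2,759)]⟩))) (.N (.F ⟨⟨14,4,0,0,1,1,1⟩,[(1,145),(2,359)]⟩) (.N (.F ⟨⟨11,4,0,0,1,2,2⟩,[(1,145),(2,-138)]⟩)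 (.F ⟨⟨8,4,3,0,0,3,4⟩,[(1,107),(2,83)]⟩)))) (.N (.N (.F ⟨⟨10,4,1,0,2,3,4⟩,[(1,145),(2,359)]⟩) (.N (.N (.F ⟨⟨11,4,0,0,1,2,2⟩,[(1,145),(2,-138)]⟩) (.F ⟨⟨16,4,0,0,0,1,1⟩,[(1,321),(2,511)]⟩)) (.F ⟨⟨12,4,0,0,1,1,1⟩,[(1,-24),(2,52)]⟩))) (.F ⟨⟨11,4,0,0,0,1,1⟩,[(1,76),(2,52)]⟩)))) (.N (.N (.N (.F ⟨⟨6,4,1,2,5,2,3⟩,[(1,-62),(2,7)]⟩) (.N (.N (.F ⟨⟨10,4,1,1,3,3,4⟩,[(1,14),(2,159)]⟩) (.N (.N (.N (.F ⟨⟨11,4,1,3,4,3,5⟩,[(1,245),(2,390)]⟩) (.N (.N (.N (.F ⟨⟨19,4,0,0,1,1,1⟩,[(1,466),(2,832)]⟩) (.F ⟨⟨15,2,1,2,4,3,3⟩,[(1,166),(2,-83)]⟩)) (.F ⟨⟨12,4,2,3,0,4,5⟩,[(1,-97),(2,-45)]⟩)) (.F ⟨⟨13,4,1,1,0,3,4⟩,[(1,190),(2,-176)]⟩)))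 (.F ⟨⟨17,4,0,0,0,1,1⟩,[(1,221),(2,442)]⟩)) (.N (.F ⟨⟨17,4,0,0,1,1,1⟩,[(1,121),(2,142)]⟩) (.F ⟨⟨12,4,2,1,0,2,3⟩,[(1,76),(2,83)]⟩)))) (.F ⟨⟨8,4,2,0,0,3,4⟩,[(1,107),(2,83)]⟩))) (.F ⟨⟨12,4,0,0,0,1,1⟩,[(1,76),(2,52)]⟩)) (.N (.F ⟨⟨12,4,0,0,1,1,1⟩,[(1,76),(2,152)]⟩) (.F ⟨⟨4,4,4,0,0,4,6⟩,[(1,38),(2,-24)]⟩))))) (.N (.F ⟨⟨0,0,2,2,1,2,3⟩,[]⟩) (.N (.F ⟨⟨0,0,2,2,1,2,3⟩,[]⟩) (.N (.F ⟨⟨8,4,1,0,1,2,3⟩,[(1,-62),(2,-124)]⟩) (.F ⟨⟨7,4,1,0,0,1,2⟩,[]⟩))))))) (.F ⟨⟨3,4,0,0,0,1,2⟩,[(1,69),(2,69)]⟩))))) (.F ⟨⟨1,4,0,0,0,1,2⟩,[(2,69)]⟩))) (.N (.N (.F ⟨⟨1,4,0,0,1,1,2⟩,[(2,69)]⟩) (.N (.N (.N (.N (.F ⟨⟨3,4,0,0,1,1,2⟩,[(1,69),(2,69)]⟩)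 (.N (.N (.N (.N (.N (.N (.F ⟨⟨7,4,0,1,2,1,2⟩,[]⟩) (.F ⟨⟨8,4,0,1,0,2,3⟩,[(1,-62),(2,-124)]⟩)) (.F ⟨⟨0,2,2,2,6,2,3⟩,[]⟩)) (.F ⟨⟨0,3,2,2,6,2,3⟩,[]⟩)) (.N (.N (.N (.N (.F ⟨⟨4,4,0,4,5,4,6⟩,[(1,38),(2,-24)]⟩) (.F ⟨⟨12,4,0,0,0,1,1⟩,[(1,76),(2,152)]⟩)) (.N (.F ⟨⟨12,4,0,0,1,1,1⟩,[(1,76),(2,52)]⟩) (.N (.N (.F ⟨⟨8,4,0,2,3,3,4⟩,[(1,107),(2,83)]⟩) (.N (.N (.N (.F ⟨⟨12,4,1,2,4,2,3⟩,[(1,76),(2,83)]⟩) (.F ⟨⟨17,4,0,0,0,1,1⟩,[(1,121),(2,142)]⟩)) (.N (.F ⟨⟨17,4,0,0,1,1,1⟩,[(1,221),(2,442)]⟩) (.N (.N (.F ⟨⟨13,4,1,1,3,3,4⟩,[(1,190),(2,242)]⟩) (.N (.F ⟨⟨12,4,3,2,6,4,5⟩,[(1,121),(2,173)]⟩) (.N (.F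 ⟨⟨15,2,2,1,1,3,3⟩,[(1,-149),(2,-83)]⟩) (.F ⟨⟨19,4,0,0,0,1,1⟩,[(1,466),(2,832)]⟩)))) (.F ⟨⟨11,4,3,1,0,3,5⟩,[(1,245),(2,390)]⟩)))) (.F ⟨⟨10,4,1,1,0,3,4⟩,[(1,14),(2,-38)]⟩))) (.F ⟨⟨6,4,2,1,0,2,3⟩,[(1,-62),(2,-69)]⟩)))) (.N (.N (.N (.F ⟨⟨11,4,0,0,1,1,1⟩,[(1,76),(2,52)]⟩) (.N (.N (.F ⟨⟨12,4,0,0,1,1,1⟩,[(1,-45),(2,31)]⟩) (.N (.F ⟨⟨16,4,0,0,1,1,1⟩,[(1,321),(2,511)]⟩) (.F ⟨⟨11,4,0,0,1,2,2⟩,[(1,145),(2,159)]⟩))) (.F ⟨⟨10,4,0,1,0,3,4⟩,[(1,-252),(2,-38)]⟩))) (.N (.N (.N (.F ⟨⟨8,4,0,3,4,3,4⟩,[(1,107),(2,83)]⟩) (.F ⟨⟨11,4,0,0,1,2,2⟩,[(1,145),(2,159)]⟩)) (.F ⟨⟨14,4,0,0,0,1,1⟩,[(1,145),(2,359)]⟩))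 (.N (.N (.F ⟨⟨15,4,0,0,1,1,2⟩,[(1,345),(2,759)]⟩) (.F ⟨⟨11,2,1,0,1,2,2⟩,[(1,45),(2,-38)]⟩)) (.F ⟨⟨6,4,2,1,0,2,3⟩,[(1,-62),(2,-69)]⟩)))) (.F ⟨⟨9,4,0,0,0,1,1⟩,[(1,-107),(2,31)]⟩))) (.F ⟨⟨9,4,0,0,0,1,2⟩,[(1,138),(2,276)]⟩))) (.N (.F ⟨⟨8,4,0,0,1,1,1⟩,[(1,138),(2,176)]⟩) (.N (.F ⟨⟨5,4,0,0,1,2,2⟩,[(1,-38)]⟩) (.N (.N (.N (.F ⟨⟨8,4,1,2,3,2,3⟩,[(1,138),(2,207)]⟩) (.N (.N (.F ⟨⟨9,4,1,1,3,3,4⟩,[(1,114),(2,90)]⟩) (.N (.N (.N (.F ⟨⟨11,4,0,2,3,2,3⟩,[(1,45),(2,21)]⟩) (.N (.F ⟨⟨11,4,0,3,4,2,2⟩,[(1,45),(2,21)]⟩) (.F ⟨⟨12,4,1,1,0,3,4⟩,[(1,90),(2,-38)]⟩))) (.F ⟨⟨16,4,0,0,0,1,1⟩,[(1,221),(2,404)]⟩))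 (.N (.F ⟨⟨16,4,0,0,1,1,1⟩,[(1,121),(2,104)]⟩) (.F ⟨⟨11,4,2,1,0,2,3⟩,[(1,76),(2,114)]⟩)))) (.F ⟨⟨8,4,1,0,0,2,3⟩,[(1,107),(2,114)]⟩))) (.F ⟨⟨11,4,0,0,0,1,1⟩,[(1,76),(2,83)]⟩)) (.F ⟨⟨6,4,1,0,0,1,1⟩,[(1,-62)]⟩))))) (.N (.N (.F ⟨⟨2,4,1,0,2,4,6⟩,[(1,38),(2,76)]⟩) (.N (.N (.F ⟨⟨5,4,0,0,1,2,2⟩,[(1,-38)]⟩) (.F ⟨⟨10,4,0,0,0,1,1⟩,[(1,7),(2,83)]⟩)) (.N (.F ⟨⟨10,4,0,0,1,1,1⟩,[(1,107),(2,83)]⟩) (.F ⟨⟨6,4,1,0,0,1,1⟩,[(1,-62)]⟩)))) (.N (.N (.N (.N (.N (.N (.F ⟨⟨9,4,0,1,2,1,2⟩,[(1,69),(2,207)]⟩) (.F ⟨⟨13,4,0,0,0,1,1⟩,[(1,-24),(2,-10)]⟩)) (.N (.F ⟨⟨13,4,0,0,1,1,1⟩,[(1,176),(2,290)]⟩) (.N (.N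 (.F ⟨⟨10,4,0,1,2,2,3⟩,[(1,7),(2,21)]⟩) (.N (.F ⟨⟨12,4,1,1,3,2,2⟩,[(1,76),(2,121)]⟩) (.N (.N (.F ⟨⟨14,4,1,0,2,3,4⟩,[(1,90),(2,125)]⟩) (.N (.N (.N (.F ⟨⟨14,4,1,3,5,3,4⟩,[(1,259),(2,525)]⟩) (.F ⟨⟨17,4,0,0,1,2,2⟩,[(1,-27),(2,-71)]⟩)) (.F ⟨⟨20,4,0,0,0,1,1⟩,[(1,573),(2,1229)]⟩)) (.N (.F ⟨⟨20,4,0,0,1,1,1⟩,[(1,73),(2,229)]⟩) (.F ⟨⟨16,4,1,0,0,1,1⟩,[(1,-428),(2,-7)]⟩)))) (.F ⟨⟨15,4,0,0,0,1,1⟩,[(1,183),(2,404)]⟩)))) (.F ⟨⟨10,4,2,1,0,2,3⟩,[(1,7),(2,114)]⟩)))) (.F ⟨⟨8,4,0,1,0,2,2⟩,[(1,-45),(2,31)]⟩)) (.F ⟨⟨10,4,0,0,0,1,1⟩,[(1,7),(2,83)]⟩)) (.N (.F ⟨⟨10,4,0,0,1,1,1⟩,[(1,107),(2,83)]⟩) (.F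 ⟨⟨3,4,0,0,2,2,3⟩,[(1,69),(2,7)]⟩))) (.F ⟨⟨6,4,0,0,0,1,2⟩,[(1,69),(2,207)]⟩))))) (.N (.N (.N (.N (.N (.N (.F ⟨⟨6,4,0,1,2,1,2⟩,[]⟩) (.F ⟨⟨0,0,2,2,5,2,3⟩,[]⟩)) (.F ⟨⟨6,4,0,1,0,2,3⟩,[(1,-31),(2,-93)]⟩)) (.F ⟨⟨0,3,2,2,5,2,3⟩,[]⟩)) (.N (.N (.N (.F ⟨⟨8,4,0,0,1,1,1⟩,[(1,69),(2,107)]⟩) (.N (.N (.N (.F ⟨⟨9,4,0,1,3,1,1⟩,[(1,38),(2,7)]⟩) (.F ⟨⟨13,4,0,0,0,1,1⟩,[(1,76),(2,21)]⟩)) (.N (.F ⟨⟨13,4,0,0,1,1,1⟩,[(1,76),(2,221)]⟩) (.N (.F ⟨⟨10,4,0,0,1,2,2⟩,[(1,-24),(2,-38)]⟩) (.F ⟨⟨7,4,3,1,0,3,4⟩,[(1,-45),(2,-38)]⟩)))) (.F ⟨⟨4,4,1,2,0,5,7⟩,[(1,7),(2,-69)]⟩))) (.N (.N (.N (.F ⟨⟨5,4,1,3,4,3,5⟩,[(1,38),(2,107)]⟩)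 (.N (.N (.N (.F ⟨⟨13,4,0,0,1,1,1⟩,[(1,145),(2,221)]⟩) (.F ⟨⟨9,1,1,2,4,3,3⟩,[(1,-14),(2,-38)]⟩)) (.N (.F ⟨⟨8,0,1,3,1,3,3⟩,[(1,7),(2,45)]⟩) (.N (.F ⟨⟨16,4,0,0,1,1,1⟩,[(1,83),(2,66)]⟩) (.F ⟨⟨11,4,2,1,0,2,3⟩,[(1,107),(2,145)]⟩)))) (.F ⟨⟨7,4,1,1,0,3,4⟩,[(1,-45),(2,-38)]⟩))) (.F ⟨⟨11,4,0,0,0,1,1⟩,[(1,107),(2,114)]⟩)) (.N (.F ⟨⟨11,4,0,0,1,1,1⟩,[(1,7),(2,14)]⟩) (.F ⟨⟨4,4,2,1,0,2,3⟩,[(1,-31),(2,-69)]⟩)))) (.N (.N (.N (.F ⟨⟨5,4,1,3,5,3,4⟩,[(1,38),(2,107)]⟩) (.F ⟨⟨11,4,0,0,0,1,1⟩,[(1,107),(2,114)]⟩)) (.N (.F ⟨⟨11,4,0,0,1,1,1⟩,[(1,7),(2,14)]⟩) (.N (.N (.F ⟨⟨5,4,1,3,4,5,7⟩,[(1,-24),(2,14)]⟩)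 (.F ⟨⟨5,4,4,1,6,2,2⟩,[(1,-38),(2,31)]⟩)) (.F ⟨⟨8,4,1,0,0,1,1⟩,[(1,-38),(2,31)]⟩)))) (.F ⟨⟨7,4,0,0,0,1,1⟩,[(1,-62)]⟩)))) (.N (.N (.N (.N (.N (.F ⟨⟨6,4,0,2,3,2,3⟩,[(1,69),(2,107)]⟩) (.N (.F ⟨⟨6,4,0,3,4,2,2⟩,[(1,69),(2,107)]⟩) (.F ⟨⟨9,4,0,1,0,2,3⟩,[(1,7),(2,114)]⟩))) (.F ⟨⟨10,4,0,0,0,1,1⟩,[(1,38),(2,114)]⟩)) (.N (.F ⟨⟨10,4,0,0,1,1,1⟩,[(1,38),(2,14)]⟩) (.N (.F ⟨⟨5,0,1,2,1,2,2⟩,[(1,-38),(2,31)]⟩) (.F ⟨⟨4,4,2,1,0,2,3⟩,[(1,-31),(2,-69)]⟩)))) (.F ⟨⟨6,4,0,0,1,1,1⟩,[(1,69),(2,7)]⟩)) (.F ⟨⟨7,4,0,0,0,1,2⟩,[(1,69),(2,207)]⟩))) (.N (.F ⟨⟨6,4,0,0,1,1,1⟩,[(1,69),(2,107)]⟩) (.N (.N (.F ⟨⟨5,4,1,0,1,2,3⟩,[(1,38),(2,107)]⟩)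 (.F ⟨⟨0,4,4,0,5,3,3⟩,[(1,-31),(2,-62)]⟩)) (.F ⟨⟨0,4,3,0,0,3,4⟩,[(1,-31),(2,-62)]⟩))))) (.N (.N (.N (.N (.N (.N (.F ⟨⟨5,4,0,1,2,1,2⟩,[]⟩) (.F ⟨⟨6,4,0,1,0,2,3⟩,[(1,-31),(2,-93)]⟩)) (.F ⟨⟨0,2,2,2,5,2,3⟩,[]⟩)) (.F ⟨⟨0,3,2,2,5,2,3⟩,[]⟩)) (.N (.N (.N (.N (.F ⟨⟨2,4,1,4,6,4,6⟩,[(1,-31),(2,7)]⟩) (.F ⟨⟨10,4,0,0,0,1,1⟩,[(1,38),(2,114)]⟩)) (.N (.F ⟨⟨10,4,0,0,1,1,1⟩,[(1,38),(2,14)]⟩) (.N (.F ⟨⟨5,0,0,2,1,2,1⟩,[(1,-31),(2,31)]⟩) (.F ⟨⟨4,4,2,1,0,2,3⟩,[(1,-31),(2,-69)]⟩)))) (.N (.N (.N (.F ⟨⟨9,4,0,0,1,1,1⟩,[(1,38),(2,14)]⟩) (.N (.N (.N (.F ⟨⟨10,4,0,1,3,1,1⟩,[(1,69),(2,145)]⟩) (.F ⟨⟨14,4,0,0,0,1,1⟩,[(1,-24),(2,66)]⟩))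 (.N (.F ⟨⟨14,4,0,0,1,1,1⟩,[(1,176),(2,366)]⟩) (.F ⟨⟨9,4,0,0,1,2,2⟩,[(1,38),(2,52)]⟩))) (.F ⟨⟨8,4,0,1,0,3,4⟩,[(1,-252),(2,-38)]⟩))) (.N (.F ⟨⟨5,0,0,2,1,2,1⟩,[(1,-31),(2,31)]⟩) (.N (.F ⟨⟨5,4,0,2,1,2,1⟩,[(1,-31),(2,31)]⟩) (.F ⟨⟨4,4,2,1,0,2,3⟩,[(1,-31),(2,-69)]⟩)))) (.F ⟨⟨7,4,0,0,0,1,1⟩,[(1,-107),(2,31)]⟩))) (.F ⟨⟨7,4,0,0,0,1,2⟩,[(1,69),(2,207)]⟩))) (.N (.F ⟨⟨6,4,0,0,1,1,1⟩,[(1,69),(2,107)]⟩) (.N (.F ⟨⟨3,4,0,0,1,2,2⟩,[(1,-38)]⟩) (.F ⟨⟨0,4,3,0,0,3,4⟩,[(1,-31),(2,-62)]⟩)))) (.N (.N (.F ⟨⟨2,4,1,0,2,3,4⟩,[(1,-31),(2,7)]⟩) (.N (.N (.F ⟨⟨3,4,0,0,1,2,2⟩,[(1,-38)]⟩) (.F ⟨⟨8,4,0,0,0,1,1⟩,[(1,-31),(2,45)]⟩))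 (.N (.F ⟨⟨8,4,0,0,1,1,1⟩,[(1,69),(2,45)]⟩) (.F ⟨⟨4,4,1,0,0,1,1⟩,[(1,-31)]⟩)))) (.F ⟨⟨3,4,0,0,0,1,1⟩,[(2,-62)]⟩)))) (.N (.N (.N (.N (.N (.N (.F ⟨⟨4,4,0,1,2,1,2⟩,[]⟩) (.F ⟨⟨0,4,2,2,10,2,3⟩,[]⟩)) (.F ⟨⟨4,4,0,1,0,2,3⟩,[(2,-62)]⟩)) (.F ⟨⟨0,3,2,2,4,2,3⟩,[]⟩)) (.N (.N (.F ⟨⟨2,4,1,1,3,3,4⟩,[(2,38)]⟩) (.N (.N (.N (.F ⟨⟨3,4,1,3,4,3,5⟩,[(1,-31),(2,38)]⟩) (.N (.N (.N (.F ⟨⟨11,4,0,0,1,1,1⟩,[(1,38),(2,114)]⟩) (.N (.N (.N (.F ⟨⟨12,4,0,1,3,1,1⟩,[(1,69),(2,245)]⟩) (.F ⟨⟨16,4,0,0,0,1,1⟩,[(1,-24),(2,35)]⟩)) (.N (.F ⟨⟨16,4,0,0,1,1,1⟩,[(1,176),(2,435)]⟩) (.N (.N (.N (.N (.F ⟨⟨18,4,0,0,1,1,2⟩,[(1,207),(2,966)]⟩)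 (.F ⟨⟨15,4,1,1,4,2,2⟩,[(1,76),(2,166)]⟩)) (.F ⟨⟨15,4,1,1,3,2,2⟩,[(1,76),(2,166)]⟩)) (.N (.F ⟨⟨15,4,1,1,3,2,2⟩,[(1,76),(2,166)]⟩) (.N (.N (.F ⟨⟨17,4,1,0,2,3,4⟩,[(1,90),(2,122)]⟩) (.N (.N (.N (.F ⟨⟨17,4,1,3,5,3,4⟩,[(1,259),(2,822)]⟩) (.N (.N (.N (.F ⟨⟨25,4,0,0,1,1,1⟩,[(1,832),(2,3000)]⟩) (.N (.G) (.F ⟨⟨24,4,0,1,0,3,4⟩,[(1,-741),(2,-268)]⟩))) (.F ⟨⟨22,4,1,1,0,2,2⟩,[(1,173),(2,-232)]⟩)) (.N (.F ⟨⟨22,4,1,1,0,2,2⟩,[(1,173),(2,-232)]⟩) (.N (.F ⟨⟨22,4,1,1,0,2,2⟩,[(1,173),(2,-232)]⟩) (.F ⟨⟨25,4,0,0,0,1,2⟩,[(1,1104),(2,4209)]⟩))))) (.F ⟨⟨23,4,0,0,0,1,1⟩,[(1,573),(2,1878)]⟩)) (.N (.F ⟨⟨23,4,0,0,1,1,1⟩,[(1,73),(2,378)]⟩)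 (.F ⟨⟨19,4,1,0,0,1,1⟩,[(1,-1332),(2,-459)]⟩)))) (.F ⟨⟨18,4,0,0,0,1,1⟩,[(1,183),(2,656)]⟩)))) (.F ⟨⟨10,4,3,1,0,3,4⟩,[(1,7),(2,-76)]⟩)))) (.F ⟨⟨7,4,1,2,0,5,7⟩,[(1,-259),(2,-76)]⟩))) (.F ⟨⟨4,4,2,3,0,4,5⟩,[(1,-31),(2,-38)]⟩)) (.F ⟨⟨5,4,1,1,0,3,4⟩,[(1,-45),(2,-38)]⟩))) (.F ⟨⟨9,4,0,0,0,1,1⟩,[(1,69),(2,76)]⟩)) (.N (.F ⟨⟨9,4,0,0,1,1,1⟩,[(1,-31),(2,-24)]⟩) (.F ⟨⟨4,4,2,1,0,2,3⟩,[(2,-31)]⟩)))) (.F ⟨⟨0,4,2,0,0,3,4⟩,[(1,-31),(2,-62)]⟩))) (.F ⟨⟨4,4,0,0,0,1,1⟩,[(2,-62)]⟩)) (.N (.F ⟨⟨4,4,0,0,1,1,1⟩,[(2,38)]⟩) (.N (.N (.F ⟨⟨3,4,1,0,1,2,3⟩,[(1,-31),(2,38)]⟩) (.F ⟨⟨0,4,3,0,4,2,2⟩,[(2,-31)]⟩))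 (.F ⟨⟨0,4,2,0,0,2,3⟩,[(2,-31)]⟩)))))) (.N (.N (.N (.N (.F ⟨⟨2,4,0,0,1,1,2⟩,[(1,69),(2,69)]⟩) (.N (.N (.N (.N (.N (.N (.F ⟨⟨6,4,0,1,2,1,2⟩,[]⟩) (.F ⟨⟨7,4,0,1,0,2,3⟩,[(1,-62),(2,-93)]⟩)) (.N (.F ⟨⟨10,4,0,0,1,1,1⟩,[(1,138),(2,107)]⟩) (.N (.N (.F ⟨⟨4,4,0,2,6,1,1⟩,[]⟩) (.N (.F ⟨⟨9,4,1,1,3,2,2⟩,[(1,38),(2,38)]⟩) (.N (.N (.F ⟨⟨11,4,1,0,2,3,4⟩,[(1,45),(2,-17)]⟩) (.N (.N (.N (.F ⟨⟨11,4,1,3,5,3,4⟩,[(1,114),(2,83)]⟩) (.N (.N (.N (.F ⟨⟨19,4,0,0,1,1,1⟩,[(1,435),(2,511)]⟩) (.N (.G) (.F ⟨⟨18,4,0,1,0,3,4⟩,[(1,44),(2,27)]⟩))) (.F ⟨⟨16,4,1,1,0,2,2⟩,[(1,121),(2,17)]⟩)) (.N (.F ⟨⟨16,4,1,1,0,2,2⟩,[(1,121),(2,17)]⟩)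 (.N (.F ⟨⟨16,4,1,1,0,2,2⟩,[(1,121),(2,17)]⟩) (.F ⟨⟨19,4,0,0,0,1,2⟩,[(1,552),(2,759)]⟩))))) (.F ⟨⟨17,4,0,0,0,1,1⟩,[(1,321),(2,328)]⟩)) (.N (.F ⟨⟨17,4,0,0,1,1,1⟩,[(1,21),(2,28)]⟩) (.F ⟨⟨13,4,1,0,0,1,1⟩,[(1,-76),(2,-7)]⟩)))) (.F ⟨⟨12,4,0,0,0,1,1⟩,[(1,76),(2,45)]⟩)))) (.N (.N (.F ⟨⟨9,4,1,1,3,2,2⟩,[(1,38),(2,38)]⟩) (.F ⟨⟨13,4,0,0,0,1,1⟩,[(1,76),(2,45)]⟩)) (.F ⟨⟨5,4,2,1,0,2,3⟩,[(1,-62),(2,-69)]⟩))))) (.N (.N (.F ⟨⟨3,4,0,1,2,4,6⟩,[(1,38),(2,7)]⟩) (.N (.N (.N (.F ⟨⟨4,4,0,3,7,1,1⟩,[]⟩) (.F ⟨⟨9,4,0,0,1,2,2⟩,[(1,7),(2,-55)]⟩)) (.F ⟨⟨12,4,0,0,0,1,1⟩,[(1,7),(2,45)]⟩)) (.N (.F ⟨⟨12,4,0,0,1,1,1⟩,[(1,107),(2,45)]⟩)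 (.F ⟨⟨5,4,2,1,0,2,3⟩,[(1,-62),(2,-69)]⟩)))) (.F ⟨⟨4,4,0,1,0,2,3⟩,[(1,-31),(2,-62)]⟩))) (.N (.N (.N (.N (.F ⟨⟨3,4,0,4,5,4,6⟩,[(1,38),(2,7)]⟩) (.F ⟨⟨11,4,0,0,0,1,1⟩,[(1,76),(2,114)]⟩)) (.N (.F ⟨⟨11,4,0,0,1,1,1⟩,[(1,76),(2,14)]⟩) (.N (.N (.F ⟨⟨7,4,0,2,3,3,4⟩,[(1,107),(2,45)]⟩) (.N (.N (.N (.F ⟨⟨11,4,1,2,4,2,3⟩,[(1,76),(2,45)]⟩) (.F ⟨⟨16,4,0,0,0,1,1⟩,[(1,121),(2,97)]⟩)) (.N (.F ⟨⟨16,4,0,0,1,1,1⟩,[(1,221),(2,297)]⟩) (.N (.N (.F ⟨⟨13,4,0,1,3,2,2⟩,[(1,-10),(2,-3)]⟩) (.N (.F ⟨⟨11,4,3,2,6,4,5⟩,[(1,121),(2,128)]⟩) (.F ⟨⟨13,3,3,0,4,3,2⟩,[(1,21),(2,28)]⟩))) (.F ⟨⟨10,4,3,1,0,3,5⟩,[(1,245),(2,283)]⟩))))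 (.F ⟨⟨9,4,1,1,0,3,4⟩,[(1,14),(2,-38)]⟩))) (.F ⟨⟨5,4,2,1,0,2,3⟩,[(1,-62),(2,-69)]⟩)))) (.N (.N (.N (.F ⟨⟨10,4,0,0,1,1,1⟩,[(1,76),(2,14)]⟩) (.N (.N (.N (.F ⟨⟨11,4,0,1,3,1,1⟩,[(1,107),(2,145)]⟩) (.F ⟨⟨15,4,0,0,0,1,1⟩,[(1,21),(2,66)]⟩)) (.N (.F ⟨⟨15,4,0,0,1,1,1⟩,[(1,321),(2,366)]⟩) (.F ⟨⟨10,4,0,0,1,2,2⟩,[(1,145),(2,152)]⟩))) (.F ⟨⟨9,4,0,1,0,3,4⟩,[(1,-145),(2,-38)]⟩))) (.N (.N (.N (.F ⟨⟨7,4,0,3,4,3,4⟩,[(1,107),(2,45)]⟩) (.F ⟨⟨10,4,0,0,1,2,2⟩,[(1,145),(2,152)]⟩)) (.F ⟨⟨13,4,0,0,0,1,1⟩,[(1,145),(2,252)]⟩)) (.N (.N (.F ⟨⟨14,4,0,0,1,1,2⟩,[(1,345),(2,552)]⟩) (.N (.N (.F ⟨⟨14,4,0,0,2,1,1⟩,[(1,314),(2,452)]⟩)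 (.F ⟨⟨9,0,2,1,3,3,3⟩,[(1,-76),(2,-38)]⟩)) (.F ⟨⟨9,1,2,1,3,3,3⟩,[(1,-76),(2,-38)]⟩))) (.F ⟨⟨5,4,2,1,0,2,3⟩,[(1,-62),(2,-69)]⟩)))) (.F ⟨⟨8,4,0,0,0,1,1⟩,[(1,-38),(2,31)]⟩))) (.F ⟨⟨8,4,0,0,0,1,2⟩,[(1,138),(2,207)]⟩))) (.N (.F ⟨⟨7,4,0,0,1,1,1⟩,[(1,138),(2,107)]⟩) (.N (.F ⟨⟨4,4,0,0,1,2,2⟩,[(1,31)]⟩) (.N (.N (.N (.F ⟨⟨7,4,1,2,3,2,3⟩,[(1,138),(2,138)]⟩) (.N (.N (.F ⟨⟨8,4,1,1,3,3,4⟩,[(1,114),(2,83)]⟩) (.N (.N (.N (.F ⟨⟨10,4,0,2,3,2,3⟩,[(1,45),(2,14)]⟩) (.F ⟨⟨12,4,0,0,1,2,2⟩,[(1,21),(2,-41)]⟩)) (.F ⟨⟨15,4,0,0,0,1,1⟩,[(1,221),(2,259)]⟩)) (.N (.F ⟨⟨15,4,0,0,1,1,1⟩,[(1,121),(2,59)]⟩) (.F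 ⟨⟨10,4,2,1,0,2,3⟩,[(1,76),(2,76)]⟩)))) (.F ⟨⟨7,4,1,0,0,2,3⟩,[(1,107),(2,76)]⟩))) (.F ⟨⟨10,4,0,0,0,1,1⟩,[(1,76),(2,45)]⟩)) (.N (.F ⟨⟨10,4,0,0,1,1,1⟩,[(1,76),(2,45)]⟩) (.N (.N (.F ⟨⟨9,4,1,0,1,2,3⟩,[(1,107),(2,76)]⟩) (.F ⟨⟨7,4,2,0,3,1,1⟩,[(1,138),(2,138)]⟩)) (.F ⟨⟨7,4,1,0,0,1,2⟩,[(1,138),(2,138)]⟩))))))) (.N (.N (.F ⟨⟨1,4,1,0,2,4,6⟩,[(1,38),(2,7)]⟩) (.N (.N (.F ⟨⟨4,4,0,0,1,2,2⟩,[(1,31)]⟩) (.F ⟨⟨9,4,0,0,0,1,1⟩,[(1,7),(2,45)]⟩)) (.F ⟨⟨5,4,0,0,1,1,1⟩,[(1,69),(2,38)]⟩))) (.F ⟨⟨4,4,0,0,0,1,1⟩,[(1,-31),(2,-62)]⟩)))) (.N (.N (.N (.N (.N (.N (.F ⟨⟨5,4,0,1,2,1,2⟩,[]⟩) (.N (.F ⟨⟨5,4,0,2,3,1,1⟩,[]⟩)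 (.F ⟨⟨0,4,2,2,0,5,8⟩,[(1,-62),(2,-62)]⟩))) (.F ⟨⟨5,4,0,1,0,2,3⟩,[(1,-31),(2,-62)]⟩)) (.N (.F ⟨⟨8,4,0,0,1,1,1⟩,[(1,69),(2,38)]⟩) (.N (.N (.F ⟨⟨4,4,1,1,2,3,5⟩,[(1,38),(2,38)]⟩) (.N (.N (.N (.F ⟨⟨8,4,1,2,4,2,3⟩,[(1,69),(2,69)]⟩) (.F ⟨⟨13,4,0,0,0,1,1⟩,[(1,-24),(2,-55)]⟩)) (.N (.F ⟨⟨13,4,0,0,1,1,1⟩,[(1,176),(2,145)]⟩) (.N (.F ⟨⟨10,4,0,0,1,2,2⟩,[(1,24),(2,-7)]⟩) (.F ⟨⟨8,4,2,0,0,2,3⟩,[(1,7),(2,7)]⟩)))) (.F ⟨⟨6,4,1,1,0,3,4⟩,[(1,-7),(2,-38)]⟩))) (.F ⟨⟨5,4,2,1,0,2,3⟩,[(1,-31),(2,-31)]⟩)))) (.N (.N (.N (.F ⟨⟨7,4,0,0,1,1,1⟩,[(1,69),(2,38)]⟩) (.N (.N (.N (.F ⟨⟨8,4,0,1,3,1,1⟩,[(1,38),(2,38)]⟩)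 (.F ⟨⟨12,4,0,0,0,1,1⟩,[(1,76),(2,14)]⟩)) (.N (.F ⟨⟨12,4,0,0,1,1,1⟩,[(1,76),(2,114)]⟩) (.N (.N (.N (.N (.F ⟨⟨14,4,0,0,1,1,2⟩,[(1,345),(2,414)]⟩) (.F ⟨⟨11,4,1,1,4,2,2⟩,[(1,-24),(2,45)]⟩)) (.F ⟨⟨11,4,1,1,3,2,2⟩,[(1,-24),(2,45)]⟩)) (.N (.F ⟨⟨11,4,1,1,3,2,2⟩,[(1,-24),(2,45)]⟩) (.N (.N (.F ⟨⟨13,4,1,0,2,3,4⟩,[(1,-41),(2,-65)]⟩) (.N (.N (.N (.F ⟨⟨13,4,1,3,5,3,4⟩,[(1,190),(2,266)]⟩) (.N (.N (.N (.F ⟨⟨21,4,0,0,1,1,1⟩,[(1,863),(2,1122)]⟩) (.N (.G) (.F ⟨⟨20,4,0,1,0,3,4⟩,[(1,105),(2,-163)]⟩))) (.F ⟨⟨18,4,1,1,0,2,2⟩,[(1,-173),(2,-59)]⟩)) (.N (.F ⟨⟨18,4,1,1,0,2,2⟩,[(1,-173),(2,-59)]⟩) (.N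 (.F ⟨⟨18,4,1,1,0,2,2⟩,[(1,-173),(2,-59)]⟩) (.F ⟨⟨21,4,0,0,0,1,2⟩,[(1,1242),(2,1656)]⟩))))) (.F ⟨⟨19,4,0,0,0,1,1⟩,[(1,473),(2,656)]⟩)) (.N (.F ⟨⟨19,4,0,0,1,1,1⟩,[(1,173),(2,156)]⟩) (.F ⟨⟨15,4,1,0,0,1,1⟩,[(1,283),(2,-176)]⟩)))) (.F ⟨⟨14,4,0,0,0,1,1⟩,[(1,214),(2,221)]⟩)))) (.F ⟨⟨6,4,3,1,0,3,4⟩,[(1,-7),(2,-38)]⟩)))) (.F ⟨⟨3,4,1,2,0,5,7⟩,[(1,7),(2,-69)]⟩))) (.F ⟨⟨2,4,2,2,0,3,4⟩,[(1,62),(2,62)]⟩)) (.N (.F ⟨⟨2,4,2,2,0,3,4⟩,[(1,62),(2,62)]⟩) (.N (.F ⟨⟨2,4,2,2,0,3,4⟩,[(1,62),(2,62)]⟩) (.F ⟨⟨7,4,0,0,0,1,2⟩,[(1,138),(2,138)]⟩))))) (.F ⟨⟨5,4,0,0,0,1,1⟩,[(1,-31),(2,-62)]⟩)) (.N (.F ⟨⟨5,4,0,0,1,1,1⟩,[(1,69),(2,38)]⟩)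 (.N (.N (.F ⟨⟨4,4,1,0,1,2,3⟩,[(1,38),(2,38)]⟩) (.N (.N (.N (.F ⟨⟨5,4,1,2,4,2,3⟩,[(1,69),(2,69)]⟩) (.F ⟨⟨10,4,0,0,0,1,1⟩,[(1,-24),(2,-55)]⟩)) (.N (.F ⟨⟨10,4,0,0,1,1,1⟩,[(1,176),(2,145)]⟩) (.N (.F ⟨⟨7,4,0,0,1,2,2⟩,[(1,31)]⟩) (.F ⟨⟨5,4,2,0,0,2,3⟩,[(1,7),(2,7)]⟩)))) (.F ⟨⟨4,4,1,0,0,2,3⟩,[(1,38),(2,7)]⟩))) (.N (.N (.N (.F ⟨⟨5,4,1,2,3,2,3⟩,[(1,69),(2,69)]⟩) (.N (.N (.N (.F ⟨⟨10,4,0,0,1,1,1⟩,[(1,107),(2,76)]⟩) (.N (.N (.N (.F ⟨⟨11,4,0,1,3,1,1⟩,[(1,76),(2,76)]⟩) (.F ⟨⟨15,4,0,0,0,1,1⟩,[(1,121),(2,59)]⟩)) (.N (.F ⟨⟨15,4,0,0,1,1,1⟩,[(1,221),(2,259)]⟩) (.N (.N (.N (.N (.F ⟨⟨17,4,0,0,1,1,2⟩,[(1,690),(2,759)]⟩)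 (.F ⟨⟨14,4,1,1,4,2,2⟩,[(1,21),(2,90)]⟩)) (.F ⟨⟨14,4,1,1,3,2,2⟩,[(1,21),(2,90)]⟩)) (.N (.F ⟨⟨14,4,1,1,3,2,2⟩,[(1,21),(2,90)]⟩) (.N (.N (.F ⟨⟨13,4,2,1,4,5,7⟩,[(1,556),(2,632)]⟩) (.N (.N (.N (.F ⟨⟨16,4,1,3,5,3,4⟩,[(1,487),(2,563)]⟩) (.N (.N (.N (.F ⟨⟨24,4,0,0,1,1,1⟩,[(1,1909),(2,2168)]⟩) (.N (.G) (.F ⟨⟨23,4,0,1,0,3,4⟩,[(1,400),(2,-163)]⟩))) (.F ⟨⟨21,4,1,1,0,2,2⟩,[(1,-173),(2,-59)]⟩)) (.N (.F ⟨⟨21,4,1,1,0,2,2⟩,[(1,-173),(2,-59)]⟩) (.N (.F ⟨⟨21,4,1,1,0,2,2⟩,[(1,-173),(2,-59)]⟩) (.F ⟨⟨24,4,0,0,0,1,2⟩,[(1,2691),(2,3105)]⟩))))) (.F ⟨⟨22,4,0,0,0,1,1⟩,[(1,1122),(2,1305)]⟩)) (.N (.F ⟨⟨22,4,0,0,1,1,1⟩,[(1,322),(2,305)]⟩)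 (.F ⟨⟨18,4,1,0,0,1,1⟩,[(1,735),(2,-176)]⟩)))) (.F ⟨⟨17,4,0,0,0,1,1⟩,[(1,466),(2,473)]⟩)))) (.F ⟨⟨9,4,3,1,0,3,4⟩,[(1,-7),(2,-38)]⟩)))) (.F ⟨⟨9,4,0,1,0,3,4⟩,[(1,14),(2,-69)]⟩))) (.F ⟨⟨7,4,1,1,0,2,2⟩,[(1,31),(2,31)]⟩)) (.F ⟨⟨5,4,1,0,0,2,3⟩,[(1,7),(2,7)]⟩))) (.F ⟨⟨8,4,0,0,0,1,1⟩,[(1,38),(2,7)]⟩)) (.N (.F ⟨⟨8,4,0,0,1,1,1⟩,[(1,38),(2,7)]⟩) (.F ⟨⟨4,4,1,0,0,1,2⟩,[(1,69),(2,69)]⟩))))))) (.N (.N (.N (.N (.N (.N (.F ⟨⟨4,4,0,1,2,1,2⟩,[]⟩) (.F ⟨⟨5,4,0,1,0,2,3⟩,[(1,-31),(2,-62)]⟩)) (.N (.F ⟨⟨8,4,0,0,1,1,1⟩,[(1,69),(2,38)]⟩) (.N (.N (.F ⟨⟨2,4,0,2,6,1,1⟩,[]⟩) (.N (.N (.N (.F ⟨⟨8,4,1,2,4,2,3⟩,[(1,69),(2,69)]⟩)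 (.F ⟨⟨13,4,0,0,0,1,1⟩,[(1,38),(2,-24)]⟩)) (.F ⟨⟨2,3,4,2,6,4,5⟩,[(1,-31),(2,-31)]⟩)) (.N (.N (.F ⟨⟨9,4,1,0,2,3,4⟩,[(1,38),(2,-24)]⟩) (.N (.N (.N (.F ⟨⟨9,4,1,3,5,3,4⟩,[(1,7),(2,-24)]⟩) (.N (.N (.N (.F ⟨⟨17,4,0,0,1,1,1⟩,[(1,183),(2,259)]⟩) (.N (.G) (.F ⟨⟨16,4,0,1,0,3,4⟩,[(1,44),(2,27)]⟩))) (.F ⟨⟨14,4,1,1,0,2,2⟩,[(1,76),(2,17)]⟩)) (.N (.F ⟨⟨14,4,1,1,0,2,2⟩,[(1,76),(2,17)]⟩) (.N (.F ⟨⟨14,4,1,1,0,2,2⟩,[(1,76),(2,17)]⟩) (.F ⟨⟨17,4,0,0,0,1,2⟩,[(1,207),(2,414)]⟩))))) (.F ⟨⟨15,4,0,0,0,1,1⟩,[(1,176),(2,183)]⟩)) (.N (.F ⟨⟨15,4,0,0,1,1,1⟩,[(1,-24),(2,-17)]⟩) (.F ⟨⟨11,4,1,0,0,1,1⟩,[(1,-76),(2,-7)]⟩))))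 (.F ⟨⟨10,4,0,0,0,1,1⟩,[(1,38),(2,7)]⟩)))) (.F ⟨⟨5,4,2,1,0,2,3⟩,[(1,-31),(2,-31)]⟩)))) (.N (.N (.F ⟨⟨1,4,1,1,3,4,6⟩,[(1,-31),(2,-62)]⟩) (.N (.N (.N (.F ⟨⟨2,4,0,3,7,1,1⟩,[]⟩) (.N (.N (.N (.F ⟨⟨12,4,0,0,1,1,1⟩,[(1,69),(2,76)]⟩) (.N (.N (.N (.F ⟨⟨13,4,0,1,3,1,1⟩,[(1,38),(2,176)]⟩) (.F ⟨⟨17,4,0,0,0,1,1⟩,[(1,76),(2,59)]⟩)) (.N (.F ⟨⟨17,4,0,0,1,1,1⟩,[(1,76),(2,259)]⟩) (.N (.N (.F ⟨⟨14,4,0,1,3,2,2⟩,[(1,-55),(2,-41)]⟩) (.N (.F ⟨⟨16,4,1,1,3,2,2⟩,[(1,-24),(2,90)]⟩) (.F ⟨⟨14,3,3,0,4,3,2⟩,[(1,-24),(2,-10)]⟩))) (.F ⟨⟨11,4,3,1,0,3,4⟩,[(1,-159),(2,-83)]⟩)))) (.F ⟨⟨8,4,1,2,0,5,7⟩,[(1,7),(2,-114)]⟩)))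 (.F ⟨⟨5,4,2,3,0,4,5⟩,[(1,-76),(2,-7)]⟩)) (.N (.F ⟨⟨5,4,2,3,0,4,5⟩,[(1,-76),(2,-7)]⟩) (.N (.N (.F ⟨⟨7,0,1,3,1,3,3⟩,[(1,69),(2,38)]⟩) (.N (.F ⟨⟨7,0,1,3,1,3,3⟩,[(1,69),(2,38)]⟩) (.N (.F ⟨⟨9,4,1,1,2,6,8⟩,[(1,45),(2,-10)]⟩) (.F ⟨⟨13,4,1,0,0,1,1⟩,[(1,-76),(2,-7)]⟩)))) (.F ⟨⟨12,4,0,0,0,1,2⟩,[(1,138),(2,207)]⟩))))) (.F ⟨⟨10,4,0,0,0,1,1⟩,[(1,-31),(2,7)]⟩)) (.N (.F ⟨⟨10,4,0,0,1,1,1⟩,[(1,69),(2,7)]⟩) (.F ⟨⟨5,4,2,1,0,2,3⟩,[(1,-31),(2,-31)]⟩)))) (.F ⟨⟨4,4,0,1,0,2,3⟩,[(2,-31)]⟩))) (.F ⟨⟨5,4,0,0,0,1,1⟩,[(1,-31),(2,-62)]⟩)) (.N (.F ⟨⟨5,4,0,0,1,1,1⟩,[(1,69),(2,38)]⟩) (.N (.N (.N (.N (.F ⟨⟨7,4,0,0,1,1,2⟩,[(2,69)]⟩)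 (.N (.N (.N (.F ⟨⟨8,4,0,1,3,1,1⟩,[(1,-31),(2,-31)]⟩) (.F ⟨⟨4,4,1,1,0,6,8⟩,[(1,38),(2,-55)]⟩)) (.F ⟨⟨2,1,3,1,6,3,3⟩,[(1,-31),(2,-31)]⟩)) (.F ⟨⟨2,3,3,1,6,3,3⟩,[(1,-31),(2,-31)]⟩))) (.N (.N (.N (.F ⟨⟨7,4,0,1,3,1,1⟩,[(1,-31),(2,-31)]⟩) (.F ⟨⟨2,0,3,1,4,3,3⟩,[(1,-31),(2,-31)]⟩)) (.F ⟨⟨10,4,0,0,0,1,1⟩,[(1,38),(2,-24)]⟩)) (.F ⟨⟨2,3,3,1,4,3,3⟩,[(1,-31),(2,-31)]⟩))) (.N (.N (.N (.F ⟨⟨5,4,1,2,4,2,3⟩,[(1,69),(2,69)]⟩) (.F ⟨⟨10,4,0,0,0,1,1⟩,[(1,38),(2,-24)]⟩)) (.F ⟨⟨2,3,3,1,4,3,3⟩,[(1,-31),(2,-31)]⟩)) (.N (.N (.F ⟨⟨3,4,2,1,4,5,7⟩,[(1,38),(2,76)]⟩) (.N (.N (.N (.F ⟨⟨6,4,1,3,5,3,4⟩,[(1,7),(2,-24)]⟩)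 (.N (.N (.N (.F ⟨⟨14,4,0,0,1,1,1⟩,[(1,183),(2,259)]⟩) (.N (.G) (.F ⟨⟨13,4,0,1,0,3,4⟩,[(1,41),(2,24)]⟩))) (.F ⟨⟨11,4,1,1,0,2,2⟩,[(1,76),(2,62)]⟩)) (.N (.F ⟨⟨11,4,1,1,0,2,2⟩,[(1,76),(2,62)]⟩) (.N (.F ⟨⟨11,4,1,1,0,2,2⟩,[(1,76),(2,62)]⟩) (.F ⟨⟨14,4,0,0,0,1,2⟩,[(1,207),(2,414)]⟩))))) (.F ⟨⟨12,4,0,0,0,1,1⟩,[(1,176),(2,183)]⟩)) (.N (.F ⟨⟨12,4,0,0,1,1,1⟩,[(1,-24),(2,-17)]⟩) (.F ⟨⟨8,4,1,0,0,1,1⟩,[(1,-38),(2,31)]⟩)))) (.F ⟨⟨7,4,0,0,0,1,1⟩,[(1,38),(2,7)]⟩)))) (.N (.N (.N (.F ⟨⟨5,4,1,2,3,2,3⟩,[(1,69),(2,69)]⟩) (.N (.N (.F ⟨⟨6,4,1,1,3,3,4⟩,[(1,7),(2,-24)]⟩) (.N (.N (.N (.F ⟨⟨8,4,0,2,3,2,3⟩,[(1,38),(2,7)]⟩)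 (.N (.F ⟨⟨8,4,0,3,4,2,2⟩,[(1,38),(2,7)]⟩) (.F ⟨⟨9,4,1,1,0,3,4⟩,[(1,45),(2,-38)]⟩))) (.F ⟨⟨13,4,0,0,0,1,1⟩,[(1,76),(2,114)]⟩)) (.N (.F ⟨⟨13,4,0,0,1,1,1⟩,[(1,76),(2,14)]⟩) (.F ⟨⟨8,4,2,1,0,2,3⟩,[(1,38),(2,38)]⟩)))) (.F ⟨⟨5,4,1,0,0,2,3⟩,[(1,69),(2,38)]⟩))) (.F ⟨⟨8,4,0,0,0,1,1⟩,[(1,38),(2,7)]⟩)) (.N (.F ⟨⟨8,4,0,0,1,1,1⟩,[(1,38),(2,7)]⟩) (.N (.N (.F ⟨⟨7,4,1,0,1,2,3⟩,[(1,69),(2,38)]⟩) (.F ⟨⟨5,4,2,0,3,1,1⟩,[(1,69),(2,69)]⟩)) (.F ⟨⟨5,4,1,0,0,1,2⟩,[(1,69),(2,69)]⟩))))))) (.N (.N (.N (.F ⟨⟨4,4,0,0,1,1,1⟩,[(1,69),(2,38)]⟩) (.N (.N (.F ⟨⟨5,4,0,0,1,1,1⟩,[(1,-69)]⟩) (.N (.F ⟨⟨9,4,0,0,1,1,1⟩,[(1,138),(2,145)]⟩)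 (.N (.F ⟨⟨6,4,0,0,1,2,2⟩,[(1,-7)]⟩) (.N (.N (.F ⟨⟨8,4,1,1,3,2,2⟩,[(1,38),(2,76)]⟩) (.F ⟨⟨12,4,0,0,0,1,1⟩,[(1,76),(2,152)]⟩)) (.N (.F ⟨⟨12,4,0,0,1,1,1⟩,[(1,76),(2,52)]⟩) (.N (.N (.F ⟨⟨11,4,1,0,1,2,3⟩,[(1,107),(2,83)]⟩) (.F ⟨⟨9,4,2,0,3,1,1⟩,[(1,138),(2,207)]⟩)) (.F ⟨⟨9,4,1,0,0,1,2⟩,[(1,138),(2,207)]⟩))))))) (.F ⟨⟨3,4,0,0,0,3,4⟩,[(1,-31),(2,7)]⟩))) (.N (.N (.N (.N (.N (.N (.F ⟨⟨7,4,0,1,2,1,2⟩,[(2,69)]⟩) (.N (.F ⟨⟨7,4,0,2,3,1,1⟩,[(2,69)]⟩) (.F ⟨⟨9,4,0,1,0,2,3⟩,[(1,-62),(2,-24)]⟩))) (.F ⟨⟨10,4,0,0,0,1,1⟩,[(1,-31),(2,-24)]⟩)) (.N (.F ⟨⟨10,4,0,0,1,1,1⟩,[(1,69),(2,76)]⟩) (.F ⟨⟨6,4,1,1,0,2,2⟩,[(1,-38),(2,31)]⟩)))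 (.N (.N (.N (.F ⟨⟨9,4,0,0,1,1,1⟩,[(1,69),(2,76)]⟩) (.N (.G) (.F ⟨⟨5,4,1,2,0,5,7⟩,[(1,7),(2,-69)]⟩))) (.F ⟨⟨6,4,1,1,0,2,2⟩,[(1,-38),(2,31)]⟩)) (.N (.F ⟨⟨6,4,1,1,0,2,2⟩,[(1,-38),(2,31)]⟩) (.N (.F ⟨⟨6,4,1,1,0,2,2⟩,[(1,-38),(2,31)]⟩) (.F ⟨⟨9,4,0,0,0,1,2⟩,[(1,138),(2,207)]⟩))))) (.F ⟨⟨7,4,0,0,0,1,1⟩,[(1,-31),(2,7)]⟩)) (.N (.F ⟨⟨7,4,0,0,1,1,1⟩,[(1,69),(2,7)]⟩) (.N (.N (.F ⟨⟨6,4,1,0,1,2,3⟩,[(1,38),(2,7)]⟩) (.N (.N (.F ⟨⟨5,4,1,0,2,2,2⟩,[(1,-69)]⟩) (.N (.F ⟨⟨12,4,0,0,1,1,1⟩,[(1,176),(2,183)]⟩) (.N (.F ⟨⟨9,4,0,0,1,2,2⟩,[(1,-7)]⟩) (.F ⟨⟨4,4,3,0,3,1,1⟩,[(1,69),(2,69)]⟩)))) (.F ⟨⟨3,4,1,0,0,4,6⟩,[(1,38),(2,76)]⟩)))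 (.N (.N (.N (.F ⟨⟨7,4,1,2,3,2,3⟩,[(1,69),(2,38)]⟩) (.N (.N (.N (.F ⟨⟨12,4,0,0,1,1,1⟩,[(1,107),(2,114)]⟩) (.N (.N (.N (.F ⟨⟨13,4,0,1,3,1,1⟩,[(1,76),(2,214)]⟩) (.F ⟨⟨17,4,0,0,0,1,1⟩,[(1,121),(2,104)]⟩)) (.N (.F ⟨⟨17,4,0,0,1,1,1⟩,[(1,221),(2,404)]⟩) (.N (.N (.N (.N (.F ⟨⟨19,4,0,0,1,1,2⟩,[(1,690),(2,1104)]⟩) (.F ⟨⟨16,4,1,1,4,2,2⟩,[(1,21),(2,135)]⟩)) (.F ⟨⟨16,4,1,1,3,2,2⟩,[(1,21),(2,135)]⟩)) (.N (.F ⟨⟨16,4,1,1,3,2,2⟩,[(1,21),(2,135)]⟩) (.N (.N (.F ⟨⟨18,4,1,0,2,3,4⟩,[(1,-44),(2,29)]⟩) (.N (.N (.N (.F ⟨⟨18,4,1,3,5,3,4⟩,[(1,487),(2,860)]⟩) (.N (.N (.N (.F ⟨⟨26,4,0,0,1,1,1⟩,[(1,1909),(2,3214)]⟩)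 (.N (.G) (.F ⟨⟨25,4,0,1,0,3,4⟩,[(1,400),(2,-163)]⟩))) (.F ⟨⟨23,4,1,1,0,2,2⟩,[(1,-422),(2,-59)]⟩)) (.N (.F ⟨⟨23,4,1,1,0,2,2⟩,[(1,-422),(2,-59)]⟩) (.N (.F ⟨⟨23,4,1,1,0,2,2⟩,[(1,-422),(2,-59)]⟩) (.F ⟨⟨26,4,0,0,0,1,2⟩,[(1,2691),(2,4554)]⟩))))) (.F ⟨⟨24,4,0,0,0,1,1⟩,[(1,1122),(2,1954)]⟩)) (.N (.F ⟨⟨24,4,0,0,1,1,1⟩,[(1,322),(2,454)]⟩) (.F ⟨⟨20,4,1,0,0,1,1⟩,[(1,735),(2,-176)]⟩)))) (.F ⟨⟨19,4,0,0,0,1,1⟩,[(1,466),(2,725)]⟩)))) (.F ⟨⟨11,4,3,1,0,3,4⟩,[(1,-114),(2,-38)]⟩)))) (.F ⟨⟨11,4,0,1,0,3,4⟩,[(1,14),(2,-69)]⟩))) (.F ⟨⟨9,4,1,1,0,2,2⟩,[(1,-38),(2,31)]⟩)) (.F ⟨⟨4,4,2,0,3,1,1⟩,[(1,69),(2,69)]⟩)))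 (.F ⟨⟨10,4,0,0,0,1,1⟩,[(1,38),(2,76)]⟩)) (.N (.F ⟨⟨7,4,1,0,1,2,3⟩,[(1,138),(2,76)]⟩) (.F ⟨⟨6,4,1,0,0,1,2⟩,[(1,69),(2,69)]⟩))))))) (.F ⟨⟨2,4,0,0,0,1,1⟩,[(2,-31)]⟩)))) (.N (.N (.N (.N (.N (.N (.F ⟨⟨3,4,0,1,2,1,2⟩,[]⟩) (.N (.F ⟨⟨3,4,0,2,3,1,1⟩,[]⟩) (.F ⟨⟨5,4,0,1,0,2,3⟩,[(1,-31),(2,-31)]⟩))) (.F ⟨⟨6,4,0,0,0,1,1⟩,[(2,-31)]⟩)) (.N (.F ⟨⟨6,4,0,0,1,1,1⟩,[(2,-31)]⟩) (.N (.N (.F ⟨⟨3,4,0,1,2,2,3⟩,[(1,-31),(2,-31)]⟩) (.N (.N (.N (.F ⟨⟨6,4,1,2,4,2,3⟩,[]⟩) (.F ⟨⟨11,4,0,0,0,1,1⟩,[(1,-31),(2,-62)]⟩)) (.N (.F ⟨⟨11,4,0,0,1,1,1⟩,[(1,69),(2,38)]⟩) (.N (.N (.F ⟨⟨7,4,1,1,3,3,4⟩,[(2,-31)]⟩) (.F ⟨⟨6,4,3,0,4,2,2⟩,[(1,-31),(2,-31)]⟩))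 (.F ⟨⟨6,4,2,0,0,2,3⟩,[(1,-31),(2,-31)]⟩)))) (.F ⟨⟨4,4,1,1,0,3,4⟩,[(1,-7),(2,-38)]⟩))) (.F ⟨⟨3,4,2,1,0,2,3⟩,[]⟩)))) (.N (.N (.N (.F ⟨⟨5,4,0,0,1,1,1⟩,[(2,-31)]⟩) (.N (.N (.N (.F ⟨⟨6,4,0,1,3,1,1⟩,[(1,-31),(2,-31)]⟩) (.F ⟨⟨10,4,0,0,0,1,1⟩,[(1,69),(2,7)]⟩)) (.N (.F ⟨⟨10,4,0,0,1,1,1⟩,[(1,-31),(2,7)]⟩) (.N (.N (.N (.N (.F ⟨⟨12,4,0,0,1,1,2⟩,[(1,138),(2,207)]⟩) (.F ⟨⟨9,4,1,1,4,2,2⟩,[(1,-31),(2,38)]⟩)) (.F ⟨⟨9,4,1,1,3,2,2⟩,[(1,-31),(2,38)]⟩)) (.N (.F ⟨⟨9,4,1,1,3,2,2⟩,[(1,-31),(2,38)]⟩) (.N (.N (.F ⟨⟨8,4,2,1,4,5,7⟩,[(1,7),(2,83)]⟩) (.N (.N (.N (.F ⟨⟨11,4,1,3,5,3,4⟩,[(1,38),(2,114)]⟩) (.N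 (.N (.N (.F ⟨⟨19,4,0,0,1,1,1⟩,[(1,214),(2,473)]⟩) (.N (.G) (.F ⟨⟨18,4,0,1,0,3,4⟩,[(1,-41),(2,-163)]⟩))) (.F ⟨⟨16,4,1,1,0,2,2⟩,[(1,-173),(2,-59)]⟩)) (.N (.F ⟨⟨16,4,1,1,0,2,2⟩,[(1,-173),(2,-59)]⟩) (.N (.F ⟨⟨16,4,1,1,0,2,2⟩,[(1,-173),(2,-59)]⟩) (.F ⟨⟨19,4,0,0,0,1,2⟩,[(1,345),(2,759)]⟩))))) (.F ⟨⟨17,4,0,0,0,1,1⟩,[(1,76),(2,259)]⟩)) (.N (.F ⟨⟨17,4,0,0,1,1,1⟩,[(1,76),(2,59)]⟩) (.F ⟨⟨13,4,1,0,0,1,1⟩,[(1,38),(2,-176)]⟩)))) (.F ⟨⟨12,4,0,0,0,1,1⟩,[(1,69),(2,76)]⟩)))) (.F ⟨⟨4,4,3,1,0,3,4⟩,[(1,-7),(2,-38)]⟩)))) (.F ⟨⟨4,4,0,1,0,3,4⟩,[(1,-31),(2,-69)]⟩))) (.N (.N (.N (.F ⟨⟨3,4,0,2,3,2,3⟩,[(1,-31),(2,-31)]⟩)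 (.N (.F ⟨⟨3,4,0,3,4,2,2⟩,[(1,-31),(2,-31)]⟩) (.F ⟨⟨4,4,1,1,0,3,4⟩,[(1,-7),(2,-38)]⟩))) (.F ⟨⟨8,4,0,0,0,1,1⟩,[(1,69),(2,38)]⟩)) (.N (.F ⟨⟨8,4,0,0,1,1,1⟩,[(1,-31),(2,-62)]⟩) (.F ⟨⟨3,4,2,1,0,2,3⟩,[]⟩)))) (.N (.N (.N (.N (.F ⟨⟨3,4,0,2,3,2,3⟩,[(1,-31),(2,-31)]⟩) (.N (.F ⟨⟨3,4,0,3,4,2,2⟩,[(1,-31),(2,-31)]⟩) (.F ⟨⟨7,4,0,1,0,2,3⟩,[(1,38),(2,38)]⟩))) (.F ⟨⟨8,4,0,0,0,1,1⟩,[(1,69),(2,38)]⟩)) (.N (.F ⟨⟨8,4,0,0,1,1,1⟩,[(1,-31),(2,-62)]⟩) (.N (.N (.F ⟨⟨2,4,1,3,4,5,7⟩,[(1,-62),(2,-62)]⟩) (.N (.F ⟨⟨5,4,2,2,4,3,4⟩,[(1,69),(2,69)]⟩) (.N (.N (.F ⟨⟨6,4,2,1,4,5,7⟩,[(1,7),(2,-24)]⟩) (.N (.N (.N (.F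 ⟨⟨9,4,1,3,5,3,4⟩,[(1,38),(2,7)]⟩) (.F ⟨⟨12,4,0,0,1,2,2⟩,[(1,-24),(2,-86)]⟩)) (.F ⟨⟨15,4,0,0,0,1,1⟩,[(1,76),(2,114)]⟩)) (.N (.F ⟨⟨15,4,0,0,1,1,1⟩,[(1,76),(2,14)]⟩) (.F ⟨⟨11,4,1,0,0,1,1⟩,[(1,38),(2,-38)]⟩)))) (.F ⟨⟨10,4,0,0,0,1,1⟩,[(1,69),(2,38)]⟩)))) (.F ⟨⟨3,4,2,1,0,2,3⟩,[]⟩)))) (.N (.N (.N (.F ⟨⟨7,4,0,0,1,1,1⟩,[(1,-31),(2,-62)]⟩) (.N (.N (.F ⟨⟨8,4,0,0,1,1,1⟩,[(1,69),(2,31)]⟩) (.N (.F ⟨⟨12,4,0,0,1,1,1⟩,[(1,7),(2,45)]⟩) (.F ⟨⟨7,4,0,0,1,2,2⟩,[(1,38),(2,7)]⟩))) (.F ⟨⟨4,4,0,1,0,4,6⟩,[(1,38),(2,-69)]⟩))) (.N (.N (.N (.N (.N (.N (.F ⟨⟨10,4,0,1,2,1,2⟩,[(1,138),(2,138)]⟩) (.N (.F ⟨⟨10,4,0,2,3,1,1⟩,[(1,138),(2,138)]⟩)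 (.F ⟨⟨12,4,0,1,0,2,3⟩,[(1,107),(2,76)]⟩))) (.F ⟨⟨13,4,0,0,0,1,1⟩,[(1,76),(2,45)]⟩)) (.N (.F ⟨⟨13,4,0,0,1,1,1⟩,[(1,76),(2,45)]⟩) (.N (.N (.F ⟨⟨10,4,0,1,2,2,3⟩,[(1,107),(2,76)]⟩) (.N (.N (.N (.F ⟨⟨13,4,1,2,4,2,3⟩,[(1,76),(2,76)]⟩) (.F ⟨⟨18,4,0,0,0,1,1⟩,[(1,121),(2,59)]⟩)) (.N (.F ⟨⟨18,4,0,0,1,1,1⟩,[(1,221),(2,259)]⟩) (.N (.F ⟨⟨15,4,0,0,1,2,2⟩,[(1,21),(2,-83)]⟩) (.F ⟨⟨13,4,2,0,0,2,3⟩,[(1,45),(2,14)]⟩)))) (.F ⟨⟨11,4,1,1,0,3,4⟩,[(1,114),(2,-76)]⟩))) (.F ⟨⟨10,4,2,1,0,2,3⟩,[(1,138),(2,138)]⟩)))) (.F ⟨⟨7,4,0,0,1,2,2⟩,[(1,38),(2,7)]⟩)) (.F ⟨⟨10,4,0,0,0,1,1⟩,[(1,138),(2,107)]⟩)) (.N (.N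 (.F ⟨⟨11,4,0,0,1,1,2⟩,[(1,138),(2,207)]⟩) (.N (.N (.F ⟨⟨11,4,0,0,2,1,1⟩,[(1,69),(2,138)]⟩) (.N (.N (.N (.F ⟨⟨8,4,1,2,7,2,3⟩,[(1,-62),(2,-62)]⟩) (.N (.F ⟨⟨13,2,0,1,1,2,2⟩,[(1,45),(2,-48)]⟩) (.F ⟨⟨17,4,0,0,0,1,2⟩,[(1,345),(2,552)]⟩))) (.N (.F ⟨⟨16,4,0,0,1,1,1⟩,[(1,145),(2,252)]⟩) (.N (.F ⟨⟨13,4,0,0,1,2,2⟩,[(1,145),(2,-145)]⟩) (.F ⟨⟨10,4,3,0,0,3,4⟩,[(1,107),(2,45)]⟩)))) (.N (.N (.F ⟨⟨12,4,1,0,2,3,4⟩,[(1,145),(2,252)]⟩) (.N (.N (.F ⟨⟨13,4,0,0,1,2,2⟩,[(1,145),(2,-145)]⟩) (.F ⟨⟨18,4,0,0,0,1,1⟩,[(1,321),(2,366)]⟩)) (.F ⟨⟨14,4,0,0,1,1,1⟩,[(1,-24),(2,14)]⟩))) (.F ⟨⟨13,4,0,0,0,1,1⟩,[(1,76),(2,14)]⟩))))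 (.N (.N (.N (.F ⟨⟨8,4,1,2,5,2,3⟩,[(1,-62),(2,-62)]⟩) (.N (.N (.F ⟨⟨12,4,1,1,3,3,4⟩,[(1,14),(2,52)]⟩) (.N (.N (.N (.F ⟨⟨13,4,1,3,4,3,5⟩,[(1,245),(2,283)]⟩) (.N (.N (.F ⟨⟨16,0,0,3,1,3,2⟩,[(1,21),(2,10)]⟩) (.F ⟨⟨14,4,2,3,0,4,5⟩,[(1,-97),(2,-90)]⟩)) (.F ⟨⟨16,4,1,0,0,2,2⟩,[(1,-10),(2,-21)]⟩))) (.F ⟨⟨19,4,0,0,0,1,1⟩,[(1,221),(2,297)]⟩)) (.N (.F ⟨⟨19,4,0,0,1,1,1⟩,[(1,121),(2,97)]⟩) (.F ⟨⟨14,4,2,1,0,2,3⟩,[(1,76),(2,45)]⟩)))) (.F ⟨⟨10,4,2,0,0,3,4⟩,[(1,107),(2,45)]⟩))) (.F ⟨⟨14,4,0,0,0,1,1⟩,[(1,76),(2,14)]⟩)) (.N (.F ⟨⟨14,4,0,0,1,1,1⟩,[(1,76),(2,114)]⟩) (.F ⟨⟨6,4,4,0,0,4,6⟩,[(1,38),(2,7)]⟩)))))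 (.F ⟨⟨3,4,2,1,0,2,3⟩,[]⟩)))) (.F ⟨⟨5,4,0,0,0,1,2⟩,[(1,69),(2,69)]⟩))))) (.F ⟨⟨3,4,0,0,0,1,1⟩,[(2,-31)]⟩)) (.N (.N (.F ⟨⟨4,4,0,0,1,1,2⟩,[(2,69)]⟩) (.N (.N (.N (.N (.F ⟨⟨6,4,0,0,1,1,2⟩,[(1,69),(2,69)]⟩) (.N (.N (.N (.N (.N (.N (.F ⟨⟨10,4,0,1,2,1,2⟩,[]⟩) (.F ⟨⟨11,4,0,1,0,2,3⟩,[(1,-62),(2,-124)]⟩)) (.F ⟨⟨3,2,2,2,6,2,3⟩,[]⟩)) (.F ⟨⟨3,3,2,2,6,2,3⟩,[]⟩)) (.N (.N (.N (.N (.F ⟨⟨7,4,0,4,5,4,6⟩,[(1,38),(2,-24)]⟩) (.F ⟨⟨15,4,0,0,0,1,1⟩,[(1,76),(2,152)]⟩)) (.N (.F ⟨⟨15,4,0,0,1,1,1⟩,[(1,76),(2,52)]⟩) (.N (.N (.F ⟨⟨11,4,0,2,3,3,4⟩,[(1,107),(2,83)]⟩) (.N (.N (.N (.F ⟨⟨15,4,1,2,4,2,3⟩,[(1,76),(2,83)]⟩)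 (.F ⟨⟨20,4,0,0,0,1,1⟩,[(1,121),(2,142)]⟩)) (.N (.F ⟨⟨20,4,0,0,1,1,1⟩,[(1,221),(2,442)]⟩) (.N (.N (.F ⟨⟨16,4,1,1,3,3,4⟩,[(1,190),(2,242)]⟩) (.N (.F ⟨⟨15,4,3,2,6,4,5⟩,[(1,121),(2,173)]⟩) (.N (.F ⟨⟨18,2,2,1,1,3,3⟩,[(1,-149),(2,-83)]⟩) (.F ⟨⟨22,4,0,0,0,1,1⟩,[(1,466),(2,832)]⟩)))) (.F ⟨⟨14,4,3,1,0,3,5⟩,[(1,245),(2,390)]⟩)))) (.F ⟨⟨13,4,1,1,0,3,4⟩,[(1,14),(2,-38)]⟩))) (.F ⟨⟨9,4,2,1,0,2,3⟩,[(1,-62),(2,-69)]⟩)))) (.N (.N (.N (.F ⟨⟨14,4,0,0,1,1,1⟩,[(1,76),(2,52)]⟩) (.N (.N (.F ⟨⟨15,4,0,0,1,1,1⟩,[(1,-45),(2,31)]⟩) (.N (.F ⟨⟨19,4,0,0,1,1,1⟩,[(1,321),(2,511)]⟩) (.F ⟨⟨14,4,0,0,1,2,2⟩,[(1,145),(2,159)]⟩)))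 (.F ⟨⟨13,4,0,1,0,3,4⟩,[(1,-252),(2,-38)]⟩))) (.N (.N (.N (.F ⟨⟨11,4,0,3,4,3,4⟩,[(1,107),(2,83)]⟩) (.F ⟨⟨14,4,0,0,1,2,2⟩,[(1,145),(2,159)]⟩)) (.F ⟨⟨17,4,0,0,0,1,1⟩,[(1,145),(2,359)]⟩)) (.N (.N (.F ⟨⟨18,4,0,0,1,1,2⟩,[(1,345),(2,759)]⟩) (.F ⟨⟨14,2,1,0,1,2,2⟩,[(1,45),(2,-38)]⟩)) (.F ⟨⟨9,4,2,1,0,2,3⟩,[(1,-62),(2,-69)]⟩)))) (.F ⟨⟨12,4,0,0,0,1,1⟩,[(1,-107),(2,31)]⟩))) (.F ⟨⟨12,4,0,0,0,1,2⟩,[(1,138),(2,276)]⟩))) (.N (.F ⟨⟨11,4,0,0,1,1,1⟩,[(1,138),(2,176)]⟩) (.N (.F ⟨⟨8,4,0,0,1,2,2⟩,[(1,-38)]⟩) (.N (.N (.N (.F ⟨⟨11,4,1,2,3,2,3⟩,[(1,138),(2,207)]⟩) (.N (.N (.F ⟨⟨12,4,1,1,3,3,4⟩,[(1,114),(2,90)]⟩)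 (.N (.N (.N (.F ⟨⟨14,4,0,2,3,2,3⟩,[(1,45),(2,21)]⟩) (.F ⟨⟨16,4,0,0,1,2,2⟩,[(1,21),(2,-96)]⟩)) (.F ⟨⟨19,4,0,0,0,1,1⟩,[(1,221),(2,404)]⟩)) (.N (.F ⟨⟨19,4,0,0,1,1,1⟩,[(1,121),(2,104)]⟩) (.F ⟨⟨14,4,2,1,0,2,3⟩,[(1,76),(2,114)]⟩)))) (.F ⟨⟨11,4,1,0,0,2,3⟩,[(1,107),(2,114)]⟩))) (.F ⟨⟨14,4,0,0,0,1,1⟩,[(1,76),(2,83)]⟩)) (.F ⟨⟨9,4,1,0,0,1,1⟩,[(1,-62)]⟩))))) (.N (.N (.F ⟨⟨5,4,1,0,2,4,6⟩,[(1,38),(2,76)]⟩) (.N (.N (.F ⟨⟨8,4,0,0,1,2,2⟩,[(1,-38)]⟩) (.F ⟨⟨13,4,0,0,0,1,1⟩,[(1,7),(2,83)]⟩)) (.N (.F ⟨⟨13,4,0,0,1,1,1⟩,[(1,107),(2,83)]⟩) (.F ⟨⟨9,4,1,0,0,1,1⟩,[(1,-62)]⟩)))) (.N (.N (.N (.N (.N (.N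 (.F ⟨⟨12,4,0,1,2,1,2⟩,[(1,69),(2,207)]⟩) (.F ⟨⟨16,4,0,0,0,1,1⟩,[(1,-24),(2,-10)]⟩)) (.N (.F ⟨⟨16,4,0,0,1,1,1⟩,[(1,176),(2,290)]⟩) (.N (.N (.F ⟨⟨13,4,0,1,2,2,3⟩,[(1,7),(2,21)]⟩) (.N (.F ⟨⟨15,4,1,1,3,2,2⟩,[(1,76),(2,121)]⟩) (.N (.N (.F ⟨⟨17,4,1,0,2,3,4⟩,[(1,90),(2,125)]⟩) (.N (.N (.N (.F ⟨⟨17,4,1,3,5,3,4⟩,[(1,259),(2,525)]⟩) (.F ⟨⟨20,4,0,0,1,2,2⟩,[(1,-27),(2,-71)]⟩)) (.F ⟨⟨23,4,0,0,0,1,1⟩,[(1,573),(2,1229)]⟩)) (.N (.F ⟨⟨23,4,0,0,1,1,1⟩,[(1,73),(2,229)]⟩) (.F ⟨⟨19,4,1,0,0,1,1⟩,[(1,-428),(2,-7)]⟩)))) (.F ⟨⟨18,4,0,0,0,1,1⟩,[(1,183),(2,404)]⟩)))) (.F ⟨⟨13,4,2,1,0,2,3⟩,[(1,7),(2,114)]⟩))))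 (.F ⟨⟨11,4,0,1,0,2,2⟩,[(1,-45),(2,31)]⟩)) (.F ⟨⟨13,4,0,0,0,1,1⟩,[(1,7),(2,83)]⟩)) (.N (.F ⟨⟨13,4,0,0,1,1,1⟩,[(1,107),(2,83)]⟩) (.F ⟨⟨6,4,0,0,2,2,3⟩,[(1,69),(2,7)]⟩))) (.F ⟨⟨9,4,0,0,0,1,2⟩,[(1,69),(2,207)]⟩))))) (.N (.N (.N (.N (.N (.N (.F ⟨⟨9,4,0,1,2,1,2⟩,[]⟩) (.F ⟨⟨3,0,2,2,5,2,3⟩,[]⟩)) (.F ⟨⟨9,4,0,1,0,2,3⟩,[(1,-31),(2,-93)]⟩)) (.F ⟨⟨3,3,2,2,5,2,3⟩,[]⟩)) (.N (.N (.N (.F ⟨⟨11,4,0,0,1,1,1⟩,[(1,69),(2,107)]⟩) (.N (.N (.N (.F ⟨⟨12,4,0,1,3,1,1⟩,[(1,38),(2,7)]⟩) (.F ⟨⟨16,4,0,0,0,1,1⟩,[(1,76),(2,21)]⟩)) (.N (.F ⟨⟨16,4,0,0,1,1,1⟩,[(1,76),(2,221)]⟩) (.N (.F ⟨⟨13,4,0,0,1,2,2⟩,[(1,-24),(2,-38)]⟩)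 (.F ⟨⟨10,4,3,1,0,3,4⟩,[(1,-45),(2,-38)]⟩)))) (.F ⟨⟨7,4,1,2,0,5,7⟩,[(1,7),(2,-69)]⟩))) (.F ⟨⟨6,4,2,2,0,3,4⟩,[(1,62),(2,31)]⟩)) (.N (.F ⟨⟨6,4,2,2,0,3,4⟩,[(1,62),(2,31)]⟩) (.F ⟨⟨10,4,0,0,0,1,1⟩,[(1,-62)]⟩)))) (.N (.N (.F ⟨⟨4,4,2,3,0,4,5⟩,[(1,-31),(2,31)]⟩) (.F ⟨⟨9,4,0,0,1,1,1⟩,[(1,69),(2,7)]⟩)) (.F ⟨⟨10,4,0,0,0,1,2⟩,[(1,69),(2,207)]⟩))) (.N (.F ⟨⟨9,4,0,0,1,1,1⟩,[(1,69),(2,107)]⟩) (.N (.N (.F ⟨⟨8,4,1,0,1,2,3⟩,[(1,38),(2,107)]⟩) (.F ⟨⟨3,4,4,0,5,3,3⟩,[(1,-31),(2,-62)]⟩)) (.F ⟨⟨3,4,3,0,0,3,4⟩,[(1,-31),(2,-62)]⟩))))) (.F ⟨⟨0,4,2,0,5,1,1⟩,[]⟩)) (.F ⟨⟨0,4,2,0,3,1,1⟩,[]⟩))) (.N (.N (.N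 (.N (.F ⟨⟨5,4,0,0,1,1,2⟩,[(1,69),(2,69)]⟩) (.N (.N (.N (.N (.N (.N (.F ⟨⟨9,4,0,1,2,1,2⟩,[]⟩) (.F ⟨⟨10,4,0,1,0,2,3⟩,[(1,-62),(2,-93)]⟩)) (.N (.F ⟨⟨13,4,0,0,1,1,1⟩,[(1,138),(2,107)]⟩) (.N (.N (.F ⟨⟨7,4,0,2,6,1,1⟩,[]⟩) (.N (.F ⟨⟨12,4,1,1,3,2,2⟩,[(1,38),(2,38)]⟩) (.N (.N (.F ⟨⟨14,4,1,0,2,3,4⟩,[(1,45),(2,-17)]⟩) (.N (.N (.N (.F ⟨⟨14,4,1,3,5,3,4⟩,[(1,114),(2,83)]⟩) (.N (.N (.N (.F ⟨⟨22,4,0,0,1,1,1⟩,[(1,435),(2,511)]⟩) (.N (.G) (.F ⟨⟨21,4,0,1,0,3,4⟩,[(1,44),(2,27)]⟩))) (.F ⟨⟨19,4,1,1,0,2,2⟩,[(1,121),(2,17)]⟩)) (.N (.F ⟨⟨19,4,1,1,0,2,2⟩,[(1,121),(2,17)]⟩) (.N (.F ⟨⟨19,4,1,1,0,2,2⟩,[(1,121),(2,17)]⟩)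 (.F ⟨⟨22,4,0,0,0,1,2⟩,[(1,552),(2,759)]⟩))))) (.F ⟨⟨20,4,0,0,0,1,1⟩,[(1,321),(2,328)]⟩)) (.N (.F ⟨⟨20,4,0,0,1,1,1⟩,[(1,21),(2,28)]⟩) (.F ⟨⟨16,4,1,0,0,1,1⟩,[(1,-76),(2,-7)]⟩)))) (.F ⟨⟨15,4,0,0,0,1,1⟩,[(1,76),(2,45)]⟩)))) (.N (.N (.F ⟨⟨12,4,1,1,3,2,2⟩,[(1,38),(2,38)]⟩) (.F ⟨⟨16,4,0,0,0,1,1⟩,[(1,76),(2,45)]⟩)) (.F ⟨⟨8,4,2,1,0,2,3⟩,[(1,-62),(2,-69)]⟩))))) (.N (.N (.F ⟨⟨6,4,0,1,2,4,6⟩,[(1,38),(2,7)]⟩) (.N (.N (.N (.F ⟨⟨7,4,0,3,7,1,1⟩,[]⟩) (.F ⟨⟨12,4,0,0,1,2,2⟩,[(1,7),(2,-55)]⟩)) (.F ⟨⟨15,4,0,0,0,1,1⟩,[(1,7),(2,45)]⟩)) (.F ⟨⟨8,4,0,1,2,2,2⟩,[(1,62),(2,31)]⟩))) (.F ⟨⟨7,4,0,1,0,2,3⟩,[(1,-31),(2,-62)]⟩)))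 (.N (.F ⟨⟨6,4,0,2,0,3,4⟩,[(1,62),(2,31)]⟩) (.F ⟨⟨11,4,0,0,0,1,2⟩,[(1,138),(2,207)]⟩))) (.N (.F ⟨⟨10,4,0,0,1,1,1⟩,[(1,138),(2,107)]⟩) (.N (.F ⟨⟨7,4,0,0,1,2,2⟩,[(1,31)]⟩) (.N (.N (.N (.F ⟨⟨10,4,1,2,3,2,3⟩,[(1,138),(2,138)]⟩) (.N (.N (.F ⟨⟨11,4,1,1,3,3,4⟩,[(1,114),(2,83)]⟩) (.N (.N (.N (.F ⟨⟨13,4,0,2,3,2,3⟩,[(1,45),(2,14)]⟩) (.F ⟨⟨15,4,0,0,1,2,2⟩,[(1,21),(2,-41)]⟩)) (.F ⟨⟨18,4,0,0,0,1,1⟩,[(1,221),(2,259)]⟩)) (.N (.F ⟨⟨18,4,0,0,1,1,1⟩,[(1,121),(2,59)]⟩) (.F ⟨⟨13,4,2,1,0,2,3⟩,[(1,76),(2,76)]⟩)))) (.F ⟨⟨10,4,1,0,0,2,3⟩,[(1,107),(2,76)]⟩))) (.F ⟨⟨13,4,0,0,0,1,1⟩,[(1,76),(2,45)]⟩))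 (.N (.F ⟨⟨13,4,0,0,1,1,1⟩,[(1,76),(2,45)]⟩) (.N (.N (.F ⟨⟨12,4,1,0,1,2,3⟩,[(1,107),(2,76)]⟩) (.F ⟨⟨10,4,2,0,3,1,1⟩,[(1,138),(2,138)]⟩)) (.F ⟨⟨10,4,1,0,0,1,2⟩,[(1,138),(2,138)]⟩))))))) (.N (.N (.F ⟨⟨4,4,1,0,2,4,6⟩,[(1,38),(2,7)]⟩) (.N (.N (.F ⟨⟨7,4,0,0,1,2,2⟩,[(1,31)]⟩) (.F ⟨⟨12,4,0,0,0,1,1⟩,[(1,7),(2,45)]⟩)) (.F ⟨⟨8,4,0,0,1,1,1⟩,[(1,69),(2,38)]⟩))) (.F ⟨⟨7,4,0,0,0,1,1⟩,[(1,-31),(2,-62)]⟩)))) (.N (.N (.N (.N (.N (.N (.F ⟨⟨8,4,0,1,2,1,2⟩,[]⟩) (.N (.F ⟨⟨8,4,0,2,3,1,1⟩,[]⟩) (.F ⟨⟨3,4,2,2,0,5,8⟩,[(1,-62),(2,-62)]⟩))) (.F ⟨⟨8,4,0,1,0,2,3⟩,[(1,-31),(2,-62)]⟩)) (.N (.F ⟨⟨11,4,0,0,1,1,1⟩,[(1,69),(2,38)]⟩)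 (.N (.N (.F ⟨⟨7,4,1,1,2,3,5⟩,[(1,38),(2,38)]⟩) (.N (.N (.N (.F ⟨⟨11,4,1,2,4,2,3⟩,[(1,69),(2,69)]⟩) (.F ⟨⟨16,4,0,0,0,1,1⟩,[(1,-24),(2,-55)]⟩)) (.N (.F ⟨⟨16,4,0,0,1,1,1⟩,[(1,176),(2,145)]⟩) (.N (.F ⟨⟨13,4,0,0,1,2,2⟩,[(1,24),(2,-7)]⟩) (.F ⟨⟨11,4,2,0,0,2,3⟩,[(1,7),(2,7)]⟩)))) (.F ⟨⟨9,4,1,1,0,3,4⟩,[(1,-7),(2,-38)]⟩))) (.F ⟨⟨8,4,2,1,0,2,3⟩,[(1,-31),(2,-31)]⟩)))) (.N (.N (.N (.F ⟨⟨10,4,0,0,1,1,1⟩,[(1,69),(2,38)]⟩) (.N (.N (.N (.F ⟨⟨11,4,0,1,3,1,1⟩,[(1,38),(2,38)]⟩) (.F ⟨⟨15,4,0,0,0,1,1⟩,[(1,76),(2,14)]⟩)) (.N (.F ⟨⟨15,4,0,0,1,1,1⟩,[(1,76),(2,114)]⟩) (.N (.N (.N (.N (.F ⟨⟨17,4,0,0,1,1,2⟩,[(1,345),(2,414)]⟩)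 (.F ⟨⟨14,4,1,1,4,2,2⟩,[(1,-24),(2,45)]⟩)) (.F ⟨⟨14,4,1,1,3,2,2⟩,[(1,-24),(2,45)]⟩)) (.N (.F ⟨⟨14,4,1,1,3,2,2⟩,[(1,-24),(2,45)]⟩) (.N (.N (.F ⟨⟨16,4,1,0,2,3,4⟩,[(1,-41),(2,-65)]⟩) (.N (.N (.N (.F ⟨⟨16,4,1,3,5,3,4⟩,[(1,190),(2,266)]⟩) (.N (.N (.N (.F ⟨⟨24,4,0,0,1,1,1⟩,[(1,863),(2,1122)]⟩) (.N (.G) (.F ⟨⟨23,4,0,1,0,3,4⟩,[(1,105),(2,-163)]⟩))) (.F ⟨⟨21,4,1,1,0,2,2⟩,[(1,-173),(2,-59)]⟩)) (.N (.F ⟨⟨21,4,1,1,0,2,2⟩,[(1,-173),(2,-59)]⟩) (.N (.F ⟨⟨21,4,1,1,0,2,2⟩,[(1,-173),(2,-59)]⟩) (.F ⟨⟨24,4,0,0,0,1,2⟩,[(1,1242),(2,1656)]⟩))))) (.F ⟨⟨22,4,0,0,0,1,1⟩,[(1,473),(2,656)]⟩)) (.N (.F ⟨⟨22,4,0,0,1,1,1⟩,[(1,173),(2,156)]⟩)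 (.F ⟨⟨18,4,1,0,0,1,1⟩,[(1,283),(2,-176)]⟩)))) (.F ⟨⟨17,4,0,0,0,1,1⟩,[(1,214),(2,221)]⟩)))) (.F ⟨⟨9,4,3,1,0,3,4⟩,[(1,-7),(2,-38)]⟩)))) (.F ⟨⟨6,4,1,2,0,5,7⟩,[(1,7),(2,-69)]⟩))) (.F ⟨⟨5,4,2,2,0,3,4⟩,[(1,31),(2,31)]⟩)) (.N (.F ⟨⟨5,4,2,2,0,3,4⟩,[(1,31),(2,31)]⟩) (.N (.F ⟨⟨5,4,2,2,0,3,4⟩,[(1,31),(2,31)]⟩) (.F ⟨⟨10,4,0,0,0,1,2⟩,[(1,138),(2,138)]⟩))))) (.F ⟨⟨8,4,0,0,0,1,1⟩,[(1,-31),(2,-62)]⟩)) (.N (.F ⟨⟨8,4,0,0,1,1,1⟩,[(1,69),(2,38)]⟩) (.N (.N (.F ⟨⟨7,4,1,0,1,2,3⟩,[(1,38),(2,38)]⟩) (.N (.N (.N (.F ⟨⟨8,4,1,2,4,2,3⟩,[(1,69),(2,69)]⟩) (.F ⟨⟨13,4,0,0,0,1,1⟩,[(1,-24),(2,-55)]⟩)) (.N (.F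 ⟨⟨13,4,0,0,1,1,1⟩,[(1,176),(2,145)]⟩) (.N (.F ⟨⟨10,4,0,0,1,2,2⟩,[(1,31)]⟩) (.F ⟨⟨8,4,2,0,0,2,3⟩,[(1,7),(2,7)]⟩)))) (.F ⟨⟨7,4,1,0,0,2,3⟩,[(1,38),(2,7)]⟩))) (.N (.N (.N (.F ⟨⟨8,4,1,2,3,2,3⟩,[(1,69),(2,69)]⟩) (.N (.N (.N (.F ⟨⟨13,4,0,0,1,1,1⟩,[(1,107),(2,76)]⟩) (.N (.N (.N (.F ⟨⟨14,4,0,1,3,1,1⟩,[(1,76),(2,76)]⟩) (.F ⟨⟨18,4,0,0,0,1,1⟩,[(1,121),(2,59)]⟩)) (.N (.F ⟨⟨18,4,0,0,1,1,1⟩,[(1,221),(2,259)]⟩) (.N (.N (.N (.N (.F ⟨⟨20,4,0,0,1,1,2⟩,[(1,690),(2,759)]⟩) (.F ⟨⟨17,4,1,1,4,2,2⟩,[(1,21),(2,90)]⟩)) (.F ⟨⟨17,4,1,1,3,2,2⟩,[(1,21),(2,90)]⟩)) (.N (.F ⟨⟨17,4,1,1,3,2,2⟩,[(1,21),(2,90)]⟩)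 (.N (.N (.F ⟨⟨19,4,1,0,2,3,4⟩,[(1,-44),(2,-68)]⟩) (.N (.N (.N (.F ⟨⟨19,4,1,3,5,3,4⟩,[(1,487),(2,563)]⟩) (.N (.N (.N (.F ⟨⟨27,4,0,0,1,1,1⟩,[(1,1909),(2,2168)]⟩) (.N (.G) (.F ⟨⟨26,4,0,1,0,3,4⟩,[(1,400),(2,-163)]⟩))) (.F ⟨⟨24,4,1,1,0,2,2⟩,[(1,-173),(2,-59)]⟩)) (.N (.F ⟨⟨24,4,1,1,0,2,2⟩,[(1,-173),(2,-59)]⟩) (.N (.F ⟨⟨24,4,1,1,0,2,2⟩,[(1,-173),(2,-59)]⟩) (.F ⟨⟨27,4,0,0,0,1,2⟩,[(1,2691),(2,3105)]⟩))))) (.F ⟨⟨25,4,0,0,0,1,1⟩,[(1,1122),(2,1305)]⟩)) (.N (.F ⟨⟨25,4,0,0,1,1,1⟩,[(1,322),(2,305)]⟩) (.F ⟨⟨21,4,1,0,0,1,1⟩,[(1,735),(2,-176)]⟩)))) (.F ⟨⟨20,4,0,0,0,1,1⟩,[(1,466),(2,473)]⟩))))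 (.F ⟨⟨12,4,3,1,0,3,4⟩,[(1,-7),(2,-38)]⟩)))) (.F ⟨⟨12,4,0,1,0,3,4⟩,[(1,14),(2,-69)]⟩))) (.F ⟨⟨10,4,1,1,0,2,2⟩,[(1,31),(2,31)]⟩)) (.F ⟨⟨8,4,1,0,0,2,3⟩,[(1,7),(2,7)]⟩))) (.F ⟨⟨11,4,0,0,0,1,1⟩,[(1,38),(2,7)]⟩)) (.N (.F ⟨⟨11,4,0,0,1,1,1⟩,[(1,38),(2,7)]⟩) (.F ⟨⟨7,4,1,0,0,1,2⟩,[(1,69),(2,69)]⟩))))))) (.F ⟨⟨0,4,2,0,3,1,1⟩,[]⟩)) (.F ⟨⟨0,4,1,0,0,1,2⟩,[]⟩)))))))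
    [] (rows0 4 [3, 1, 2, 0]) = true := by decide +kernel

theorem c4_1230_1 : treeOK par4 [[3, 1, 2, 0]]
    (gold1 par4 (rows0 4 [2, 3, 1, 0])) (rows0 4 [2, 3, 1, 0])
    (.N (.N (.N (.N (.F ⟨⟨0,4,0,0,1,1,2⟩,[]⟩) (.N (.Y) (.N (.N (.N (.F ⟨⟨4,4,0,0,1,1,1⟩,[(1,-31),(2,-31)]⟩) (.N (.Y) (.F ⟨⟨3,4,0,0,0,3,4⟩,[(1,38),(2,38)]⟩))) (.Y)) (.N (.Y) (.F ⟨⟨3,4,0,0,0,1,2⟩,[(1,69),(2,69)]⟩))))) (.Y)) (.N (.Y) (.N (.N (.N (.F ⟨⟨2,4,0,0,1,1,1⟩,[(1,-31),(2,-31)]⟩) (.N (.Y) (.F ⟨⟨1,4,0,0,0,3,4⟩,[(1,38),(2,38)]⟩))) (.Y)) (.N (.Y) (.F ⟨⟨1,4,0,0,0,1,2⟩,[(1,69),(2,69)]⟩))))) (.Y))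
    [] (rows0 4 [2, 3, 1, 0]) = true := by decide +kernel

theorem c4_1230_2 : treeOK par4 [[2, 3, 1, 0], [3, 1, 2, 0]]
    (gold1 par4 (rows0 4 [1, 2, 3, 0])) (rows0 4 [1, 2, 3, 0])
    (.N (.N (.F ⟨⟨0,4,0,0,1,1,2⟩,[]⟩) (.Y)) (.Y))
    [] (rows0 4 [1, 2, 3, 0]) = true := by decide +kernel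

theorem c4_1230_3 : treeOK par4 [[1, 2, 3, 0], [2, 3, 1, 0], [3, 1, 2, 0]]
    (gold1 par4 (rows0 4 [2, 3, 0, 1])) (rows0 4 [2, 3, 0, 1])
    (.N (.Y) (.N (.Y) (.N (.Y) (.N (.Y) (.F ⟨⟨0,4,0,0,0,1,2⟩,[(0,-69)]⟩)))))
    [] (rows0 4 [2, 3, 0, 1]) = true := by decide +kernel

theorem c4_1230_4 : treeOK par4 [[2, 3, 0, 1], [1, 2, 3, 0], [2, 3, 1, 0], [3, 1, 2, 0]]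
    (gold1 par4 (rows0 4 [3, 2, 0, 1])) (rows0 4 [3, 2, 0, 1])
    (.N (.Y) (.Y))
    [] (rows0 4 [3, 2, 0, 1]) = true := by decide +kernel

theorem c4_1230_5 : treeOK par4 [[3, 2, 0, 1], [2, 3, 0, 1], [1, 2, 3, 0], [2, 3, 1, 0], [3, 1, 2, 0]]
    (gold1 par4 (rows0 4 [3, 0, 1, 2])) (rows0 4 [3, 0, 1, 2])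
    (.N (.Y) (.N (.Y) (.F ⟨⟨0,4,0,0,0,1,2⟩,[(0,-69),(1,-69)]⟩)))
    [] (rows0 4 [3, 0, 1, 2]) = true := by decide +kernel

end Pool.Agent.RTX
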