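import Pool.Agent.RTX.C4_3210
import Pool.Agent.RTX.C4_1230

/-!
# RTX: the certified lists of vertices (par4)
-/

set_option autoImplicit false
set_option maxRecDepth 100000

namespace Pool.Agent.RTX

/-- certified vertices -/
def L_c4_3210 : List (List ℕ) :=
  [[3, 1, 0, 2], [3, 0, 2, 1], [2, 1, 3, 0], [1, 3, 2, 0], [3, 2, 1, 0], [2, 0, 3, 1], [1, 3, 0, 2]]

theorem cfd_c4_3210 : Cfd par4 L_c4_3210 :=
  (Cfd.cons _ _ _ (Cfd.cons _ _ _ (Cfd.cons _ _ _ (Cfd.cons _ _ _ (Cfd.cons _ _ _ (Cfd.cons _ _ _ (Cfd.cons _ _ _ (Cfd.nil) c4_3210_0) c4_3210_1) c4_3210_2) c4_3210_3) c4_3210_4) c4_3210_5) c4_3210_6)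

/-- certified vertices -/
def L_c4_1230 : List (List ℕ) :=
  [[3, 0, 1, 2], [3, 2, 0, 1], [2, 3, 0, 1], [1, 2, 3, 0], [2, 3, 1, 0], [3, 1, 2, 0]]

theorem cfd_c4_1230 : Cfd par4 L_c4_1230 :=
  (Cfd.cons _ _ _ (Cfd.cons _ _ _ (Cfd.cons _ _ _ (Cfd.cons _ _ _ (Cfd.cons _ _ _ (Cfd.cons _ _ _ (Cfd.nil) c4_1230_0) c4_1230_1) c4_1230_2) c4_1230_3) c4_1230_4) c4_1230_5)

/-- all certified vertices -/
def L4 : List (List ℕ) := L_c4_3210 ++ L_c4_1230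

theorem cov4_ok : covOK par4.d L4 = true := by decide +kernel

end Pool.Agent.RTX
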