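import Pool.Agent.RTX.FibA

/-!
# RTX/FibB: two neighbouring hits
-/

set_option autoImplicit false

namespace Pool.Agent.RTX

open Pool.Agent.Helper44.IET Pool.Agent.Helper28.IET3

private lemma FibB_pow_le (k : ℕ) : al ^ (k + 1) ≤ al ^ k ∧ 0 < al ^ k := by
  have h0 : 0 < al ^ k := pow_pos al_pos k
  refine ⟨?_, h0⟩
  rw [pow_succ]
  nlinarith [al_lt_one, al_pos]

theorem pair_block (k : ℕ) (w : ℝ) (s0 : ℤ) :
    ∃ s N s' N' : ℤ, s0 ≤ s ∧ s < s0 + Nat.fib (k + 3) ∧ s0 ≤ s' ∧ s' < s0 + Nat.fib (k + 3) ∧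
      w < N - s * al ∧ N - s * al ≤ w + 2 * al ^ (k + 1) ∧
      w < N' - s' * al ∧ N' - s' * al ≤ w + 2 * al ^ (k + 1) ∧
      ∃ m : ℕ, ∃ e : ℤ, (e = 1 ∨ e = -1) ∧ s' - s = e * Nat.fib (m + 1) ∧ N' - N = e * Nat.fib m := by
  obtain ⟨s, h1, h2, h3⟩ := fib_block (le_refl (al ^ (k + 1))) w s0
  obtain ⟨N, h4, h5⟩ := h3
  have hle := (FibB_pow_le (k + 1)).1
  have hp1 := (FibB_pow_le (k + 1)).2
  have hp2 := (FibB_pow_le (k + 2)).2
  have hfib : (Nat.fib (k + 3) : ℤ) = Nat.fib (k + 1) + Nat.fib (k + 2) := by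
    have := Nat.fib_add_two (n := k + 1)
    have e : k + 3 = k + 1 + 2 := rfl
    rw [e, this]; push_cast; ring
  have h2' : s < s0 + (Nat.fib (k + 1) + Nat.fib (k + 2)) := by
    have : k + 1 + 2 = k + 3 := rfl
    rw [this] at h2
    rw [hfib] at h2; exact h2
  rw [hfib]
  have e1 := fib_err k
  have e2 := fib_err (k + 1)
  have hsq : al ^ (k + 1 + 1) = al ^ (k + 2) := rfl
  have hF1 : (0 : ℤ) ≤ Nat.fib (k + 1) := Int.natCast_nonneg _
  have hF2 : (0 : ℤ) ≤ Nat.fib (k + 2) := Int.natCast_nonneg _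
  rcases Nat.even_or_odd (k + 1) with hk | hk
  · have n1 : (-al) ^ (k + 1) = al ^ (k + 1) := hk.neg_pow al
    have n2 : (-al) ^ (k + 1 + 1) = - al ^ (k + 1 + 1) := (hk.add_one).neg_pow al
    rw [n1] at e1; rw [n2] at e2
    by_cases hs : s < s0 + Nat.fib (k + 2)
    · refine ⟨s, N, s + Nat.fib (k + 1), N + Nat.fib k, h1, h2', by linarith, by linarith, by linarith,
        by linarith, ?_, ?_, k, 1, Or.inl rfl, by ring, by ring⟩
      · push_cast; nlinarith
      · push_cast; nlinarith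
    · push Not at hs
      refine ⟨s, N, s - Nat.fib (k + 2), N - Nat.fib (k + 1), h1, h2', by linarith, by linarith, by linarith,
        by linarith, ?_, ?_, k + 1, -1, Or.inr rfl, by ring, by ring⟩
      · push_cast; nlinarith
      · push_cast; nlinarith
  · have n1 : (-al) ^ (k + 1) = - al ^ (k + 1) := hk.neg_pow al
    have n2 : (-al) ^ (k + 1 + 1) = al ^ (k + 1 + 1) := (hk.add_one).neg_pow al
    rw [n1] at e1; rw [n2] at e2
    by_cases hs : s < s0 + Nat.fib (k + 1)
    · refine ⟨s, N, s + Nat.fib (k + 2), N + Nat.fib (k + 1), h1, h2', by linarith, by linarith, by linarith,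
        by linarith, ?_, ?_, k + 1, 1, Or.inl rfl, by ring, by ring⟩
      · push_cast; nlinarith
      · push_cast; nlinarith
    · push Not at hs
      refine ⟨s, N, s - Nat.fib (k + 1), N - Nat.fib k, h1, h2', by linarith, by linarith, by linarith,
        by linarith, ?_, ?_, k, -1, Or.inr rfl, by ring, by ring⟩
      · push_cast; nlinarith
      · push_cast; nlinarith

/-- Of two neighbouring hits with odd `s`, exactly one has an even `N`. -/
theorem fib_par {s N s' N' : ℤ} {m : ℕ} {e : ℤ} (he : e = 1 ∨ e = -1) (h1 : s' - s = e * Nat.fib (m + 1))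
    (h2 : N' - N = e * Nat.fib m) (hs : Odd s) (hs' : Odd s') : Even N ∨ Even N' := by
  have hev : Even ((Nat.fib (m + 1) : ℕ) : ℤ) := by
    have h : Even (s' - s) := hs'.sub_odd hs
    rw [h1] at h
    rcases he with rfl | rfl
    · simpa using h
    · simpa using h
  have hev' : Even (Nat.fib (m + 1)) := by exact_mod_cast hev
  have hodd : Odd (Nat.fib m) := by
    rcases Nat.even_or_odd (Nat.fib m) with h | h
    · exfalso
      have hc := Nat.fib_coprime_fib_succ m
      have h2 := Nat.dvd_gcd h.two_dvd hev'.two_dvd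
      rw [hc] at h2
      omega
    · exact h
  have hodd' : Odd ((Nat.fib m : ℕ) : ℤ) := by exact_mod_cast hodd
  have hd : Odd (N' - N) := by
    rw [h2]
    rcases he with rfl | rfl
    · simpa using hodd'
    · simpa using hodd'
  by_contra hcon
  push Not at hcon
  obtain ⟨ha, hb⟩ := hcon
  rw [Int.not_even_iff_odd] at ha hb
  have := hb.sub_odd ha
  exact (Int.not_even_iff_odd.2 hd) this

end Pool.Agent.RTX
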