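import Pool.Agent.RTX.UG
import Pool.Agent.RTX.FibB

/-!
# RTX/U4: the upper bound for `d = 4`

Cuts `0, al/2, 1 - al, 1/2`.  `keane4`: `Cuts.keane`; the doubled cuts `al, 2 - 2 al, 1` are in different classes modulo
`2 Z + 2 Z al` (`re_eq_zero`, parity).
`run4`: `fib_loc`: `F_k ≤ p < F_(k+1)`, `k = k' + 1`; `run_avoid` with `δ ≥ al ^ k` (`fib_best`).  Suppose `2 n ≥ F_(k+2) = F_(k'+3)`.  `pair_block k'` with `2 w` and `s0 = -1`:
two neighbouring `(s, N)`, `(s', N')` with `-1 ≤ s, s' ≤ 2 n - 2` and `2 w < N - s al ≤ 2 w + 2 δ`.  If `s = 2 j` is even (`0 ≤ j < n`): `(N - 2 j al) / 2 = N / 2 - j al` is in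
`(w, w + δ]`, i.e. the cut `0` or `1/2` is in the arc number `j`, contradiction; the same for `s'`.  So both are odd, and by `fib_par` one of `N`, `N'` is even, say
`N = 2 q`, `s = 2 j - 1`, `0 ≤ j < n`: `q - j al + al / 2` is in `(w, w + δ]`, i.e. the cut `al / 2` is in the arc number `j`, contradiction.
So `2 n ≤ F_(k+2) - 1 = F_k + F_(k+1) - 1 ≤ (1 + ph) F_k` (`fib_ph`).
-/

set_option autoImplicit false

namespace Pool.Agent.RTX

open Pool.Agent.Helper44.IET Pool.Agent.Helper28.IET3

/-- The cuts for `d = 4`. -/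
noncomputable def C4 : Cuts 4 where
  g n := match n with
    | 0 => 0
    | 1 => al / 2
    | 2 => 1 - al
    | 3 => 1 / 2
    | _ => 1
  r := 2
  mono i hi := by
    have h1 := al_gt
    have h2 := al_lt
    interval_cases i <;> simp only [] <;> linarith
  zero := rfl
  last := rfl
  hr := rfl
  hr0 := by norm_num
  hrd := by norm_num

theorem keane4 : C4.ex.Keane := by
  apply C4.keane
  intro i j hi hid hj hjd a b h
  have e1 : C4.g 1 = al / 2 := rfl
  have e2 : C4.g 2 = 1 - al := rfl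
  have e3 : C4.g 3 = 1 / 2 := rfl
  interval_cases i <;> interval_cases j <;> first | rfl | exfalso
  · rw [e1, e2] at h
    have h1 := re_eq_zero (a := -2 * (a + 1)) (b := 3 - 2 * b) (by
      unfold re; push_cast; linear_combination 2 * h)
    omega
  · rw [e1, e3] at h
    have h1 := re_eq_zero (a := -2 * a - 1) (b := 1 - 2 * b) (by
      unfold re; push_cast; linear_combination 2 * h)
    omega
  · rw [e1, e2] at h
    have h1 := re_eq_zero (a := 2 - 2 * a) (b := -3 - 2 * b) (by
      unfold re; push_cast; linear_combination 2 * h)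
    omega
  · rw [e2, e3] at h
    have h1 := re_eq_zero (a := 1 - 2 * a) (b := -2 - 2 * b) (by
      unfold re; push_cast; linear_combination 2 * h)
    omega
  · rw [e1, e3] at h
    have h1 := re_eq_zero (a := 1 - 2 * a) (b := -1 - 2 * b) (by
      unfold re; push_cast; linear_combination 2 * h)
    omega
  · rw [e2, e3] at h
    have h1 := re_eq_zero (a := -1 - 2 * a) (b := 2 - 2 * b) (by
      unfold re; push_cast; linear_combination 2 * h)
    omega

theorem run4 {u : ℕ → Fin 4} (hu : C4.ex.IsCoding u) {i p n : ℕ} (hp : 0 < p) (h : HasPower u i p (p + n)) :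
    (n : ℝ) ≤ (1 + ph) / 2 * p := by
  have e0 : C4.g 0 = 0 := rfl
  have e1 : C4.g 1 = al / 2 := rfl
  have e2 : C4.g 2 = 1 - al := rfl
  have e3 : C4.g 3 = 1 / 2 := rfl
  have e4 : C4.g 4 = 1 := rfl
  have hlen : ∀ i < 4, C4.g (i + 1) - C4.g i ≤ 1 / 2 := by
    intro i hi
    have h1 := al_gt
    have h2 := al_lt
    interval_cases i
    · norm_num only [Nat.zero_add, e0, e1]; linarith
    · norm_num only [e1, e2]; linarith
    · norm_num only [e2, e3]; linarith
    · norm_num only [e3, e4]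
  obtain ⟨w, m, -, hav⟩ := run_avoid C4 hlen hu hp h
  obtain ⟨k, hk2, hk, hk1⟩ := fib_loc hp
  obtain ⟨k', rfl⟩ : ∃ k', k = k' + 1 := ⟨k - 1, by omega⟩
  have hδ := fib_best hp hk1 m
  set δ : ℝ := |(p : ℝ) * al - m| with hδd
  have key : 2 * n < Nat.fib (k' + 3) := by
    by_contra hcon
    push Not at hcon
    obtain ⟨s, N, s', N', hs, hs2, hs', hs2', l1, r1, l2, r2, mm, e, he, d1, d2⟩ :=
      pair_block k' (2 * w) (-1)
    have hcon' : (Nat.fib (k' + 3) : ℤ) ≤ 2 * n := by exact_mod_cast hcon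
    have noeven : ∀ s N : ℤ, -1 ≤ s → s < -1 + Nat.fib (k' + 3) → 2 * w < N - s * al →
        N - s * al ≤ 2 * w + 2 * al ^ (k' + 1) → Odd s := by
      intro s N a1 a2 a3 a4
      by_contra hns
      rw [Int.not_odd_iff_even] at hns
      obtain ⟨j, hj⟩ := hns
      obtain ⟨j', rfl⟩ : ∃ j' : ℕ, j = j' := ⟨j.toNat, by omega⟩
      have hjn : j' < n := by omega
      rw [hj] at a3 a4
      push_cast at a3 a4
      rcases Int.even_or_odd' N with ⟨q, hq | hq⟩
      · refine hav j' hjn 0 (by norm_num) q ⟨?_, ?_⟩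
        · rw [e0]
          rw [hq] at a3
          push_cast at a3
          linarith
        · rw [e0]
          rw [hq] at a4
          push_cast at a4
          linarith
      · refine hav j' hjn 3 (by norm_num) q ⟨?_, ?_⟩
        · rw [e3]
          rw [hq] at a3
          push_cast at a3
          linarith
        · rw [e3]
          rw [hq] at a4
          push_cast at a4
          linarith
    have noevenN : ∀ s N : ℤ, -1 ≤ s → s < -1 + Nat.fib (k' + 3) → 2 * w < N - s * al →
        N - s * al ≤ 2 * w + 2 * al ^ (k' + 1) → Odd s → ¬ Even N := by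
      intro s N a1 a2 a3 a4 ho hN
      obtain ⟨q, hq⟩ := hN
      obtain ⟨j, hj⟩ := ho
      obtain ⟨j', hj'⟩ : ∃ j' : ℕ, j + 1 = j' := ⟨(j + 1).toNat, by omega⟩
      have hjn : j' < n := by omega
      have hj3 : s = 2 * (j' : ℤ) - 1 := by omega
      rw [hj3, hq] at a3 a4
      push_cast at a3 a4
      refine hav j' hjn 1 (by norm_num) q ⟨?_, ?_⟩
      · rw [e1]
        linarith
      · rw [e1]
        linarith
    have o1 := noeven s N hs hs2 l1 r1
    have o2 := noeven s' N' hs' hs2' l2 r2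
    rcases fib_par he d1 d2 o1 o2 with h3 | h3
    · exact noevenN s N hs hs2 l1 r1 o1 h3
    · exact noevenN s' N' hs' hs2' l2 r2 o2 h3
  have hf : Nat.fib (k' + 3) = Nat.fib (k' + 1) + Nat.fib (k' + 2) := Nat.fib_add_two
  have hph := fib_ph (k' + 1)
  have h5 : (2 * n + 1 : ℝ) ≤ (Nat.fib (k' + 1) : ℝ) + Nat.fib (k' + 1 + 1) := by
    have : 2 * n + 1 ≤ Nat.fib (k' + 1) + Nat.fib (k' + 1 + 1) := by
      have : k' + 1 + 1 = k' + 2 := rfl
      rw [this]
      omega
    exact_mod_cast this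
  have h6 : (Nat.fib (k' + 1) : ℝ) ≤ p := by exact_mod_cast hk
  have h7 : (1 + ph) * (Nat.fib (k' + 1) : ℝ) ≤ (1 + ph) * p :=
    mul_le_mul_of_nonneg_left h6 (by linarith [ph_pos])
  nlinarith

end Pool.Agent.RTX
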