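import Pool.Agent.RTX.FinL
import Pool.Agent.RTX.Cov4
import Pool.Agent.RTX.CGold
import Pool.Agent.RTX.U4

/-!
# RTX/Fin4: four intervals
-/

set_option autoImplicit false

namespace Pool.Agent.RTX

open Pool.Agent.Helper44.IET Pool.Agent.Helper28.IET3

theorem hL4 : ∀ π, memL π L4 = true → ∃ rs, Cfd par4 rs ∧ memL π rs = true :=
  mem_app (by rfl) (mem_one cfd_c4_3210) (mem_one cfd_c4_1230)

theorem low4 {u : ℕ → Fin 4} (hu : u ∈ Codings 4) :
    (((7 + Real.sqrt 5) / 4 : ℝ) : EReal) ≤ critExp u ∧ (((7 + Real.sqrt 5) / 4 : ℝ) : EReal) ≤ asympCritExp u := by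
  have h5 := sqrt5_sq
  have hg := sqrt5_gt
  have hl := sqrt5_lt
  refine lower_cod (A := par4) (L := L4) (D := gd4) (lam := 9 + 4 * Real.sqrt 5) hL4 cov4_ok g2_4 gd4_ok
    (by norm_num [par4]) (by norm_num [par4]) (by norm_num [par4]) (by norm_num [gd4]) (by norm_num [gd4]) ?_ ?_ ?_ ?_
    (by norm_num [par4]) hu
  · have : ((gd4.c : ℤ) : ℝ) = 18 := by norm_num [gd4]
    rw [this]; nlinarith
  · linarith
  · have h1 : ((par4.P : ℤ) : ℝ) = 131 := by norm_num [par4]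
    have h2 : ((par4.Q : ℤ) : ℝ) = 100 := by norm_num [par4]
    rw [h1, h2]; linarith
  · have h1 : ((gd4.A : ℤ) : ℝ) = 16 := by norm_num [gd4]
    have h2 : ((gd4.B : ℤ) : ℝ) = 3 := by norm_num [gd4]
    rw [h1, h2]; linarith

theorem thr4 : RT 4 = (((7 + Real.sqrt 5) / 4 : ℝ) : EReal) ∧ RTstar 4 = (((7 + Real.sqrt 5) / 4 : ℝ) : EReal) ∧
    ∃ u ∈ Codings 4, critExp u = (((7 + Real.sqrt 5) / 4 : ℝ) : EReal) ∧
      asympCritExp u = (((7 + Real.sqrt 5) / 4 : ℝ) : EReal) := by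
  obtain ⟨u, hu, hc⟩ := coding_ex C4 keane4
  refine thresholds hu (crit_le u _ (by linarith [sqrt5_gt]) fun i p n hp h => ?_) fun v hv => low4 hv
  have h1 := run4 hc hp h
  have h2 : (1 + ph) / 2 = (7 + Real.sqrt 5) / 4 - 1 := by unfold ph; ring
  rwa [h2] at h1

end Pool.Agent.RTX
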