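import Pool.Agent.RTX.Par

/-!
# RTX certificates: the Rauzy class of 12340 (5 intervals)
-/

set_option autoImplicit false
set_option maxRecDepth 100000

namespace Pool.Agent.RTX

theorem c5_12340_0 : treeOK par5 []
    (gold1 par5 (rows0 5 [1, 2, 3, 4, 0])) (rows0 5 [1, 2, 3, 4, 0])
    (.N (.F ⟨⟨0,5,0,0,1,1,1⟩,[]⟩) (.N (.N (.F ⟨⟨1,5,0,0,1,1,1⟩,[(3,19)]⟩) (.N (.N (.N (.F ⟨⟨3,5,0,0,1,1,1⟩,[(2,19),(3,19)]⟩) (.N (.N (.N (.N (.F ⟨⟨6,5,0,1,2,1,1⟩,[(1,19),(2,19),(3,19)]⟩) (.F ⟨⟨9,5,0,0,0,1,1⟩,[(2,19),(3,38)]⟩)) (.N (.F ⟨⟨9,5,0,0,1,1,1⟩,[(2,19),(3,38)]⟩) (.N (.F ⟨⟨4,5,0,0,1,2,2⟩,[(2,-138),(3,-19)]⟩) (.N (.F ⟨⟨4,5,0,0,1,2,1⟩,[(2,19),(3,-19)]⟩)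 (.F ⟨⟨8,5,1,0,0,1,1⟩,[(2,19),(3,38)]⟩))))) (.N (.N (.F ⟨⟨8,5,0,0,1,1,1⟩,[(2,19),(3,38)]⟩) (.N (.F ⟨⟨3,5,0,0,1,2,2⟩,[(2,-38),(3,-19)]⟩) (.N (.N (.F ⟨⟨4,5,0,0,1,2,1⟩,[(2,19),(3,-19)]⟩) (.F ⟨⟨12,5,0,0,0,1,1⟩,[(2,38),(3,57)]⟩)) (.F ⟨⟨2,5,0,0,1,2,2⟩,[(2,19),(3,-19)]⟩)))) (.N (.N (.F ⟨⟨3,5,0,0,1,2,2⟩,[(2,-38),(3,-19)]⟩) (.N (.N (.N (.N (.F ⟨⟨11,5,0,1,2,1,1⟩,[(1,19),(2,38),(3,38)]⟩) (.N (.F ⟨⟨7,5,0,2,3,2,1⟩,[(1,19),(2,38),(3,38)]⟩) (.F ⟨⟨7,5,0,0,1,2,2⟩,[(1,19),(2,138),(3,157)]⟩))) (.F ⟨⟨5,5,0,1,0,3,3⟩,[(1,19),(2,-57),(3,-38)]⟩)) (.F ⟨⟨12,5,0,0,0,1,1⟩,[(2,38),(3,57)]⟩)) (.F ⟨⟨2,5,0,0,1,2,2⟩,[(2,19),(3,-19)]⟩))) (.F ⟨⟨7,5,0,0,0,1,1⟩,[(2,19),(3,19)]⟩))))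 (.F ⟨⟨5,5,0,0,0,1,1⟩,[(3,19)]⟩))) (.N (.N (.N (.N (.F ⟨⟨5,5,0,1,2,1,1⟩,[(1,19),(2,19),(3,19)]⟩) (.N (.N (.F ⟨⟨9,5,0,0,1,1,1⟩,[(1,19),(2,19),(3,38)]⟩) (.N (.N (.F ⟨⟨5,5,0,1,2,2,1⟩,[(1,19),(2,19),(3,-19)]⟩) (.N (.N (.F ⟨⟨3,5,1,2,5,3,3⟩,[(1,19),(2,38),(3,57)]⟩) (.G)) (.F ⟨⟨12,5,0,0,0,1,1⟩,[(1,19),(2,38),(3,76)]⟩))) (.F ⟨⟨4,5,1,1,0,2,2⟩,[(1,19),(2,-19)]⟩))) (.N (.N (.N (.F ⟨⟨10,5,0,0,1,1,1⟩,[(1,19),(2,38),(3,38)]⟩) (.N (.F ⟨⟨3,5,1,2,5,3,3⟩,[(1,19),(2,38),(3,57)]⟩) (.F ⟨⟨12,5,0,0,0,1,1⟩,[(1,19),(2,38),(3,76)]⟩))) (.F ⟨⟨4,5,1,1,0,2,2⟩,[(1,19),(2,-19)]⟩)) (.F ⟨⟨8,5,0,0,0,1,1⟩,[(2,19),(3,38)]⟩)))) (.N (.N (.N (.F ⟨⟨8,5,0,0,1,1,1⟩,[(1,19),(2,19),(3,38)]⟩)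 (.N (.N (.N (.F ⟨⟨5,5,0,1,2,2,1⟩,[(1,19),(2,19),(3,-19)]⟩) (.F ⟨⟨7,5,0,0,1,2,2⟩,[(1,119),(2,238),(3,257)]⟩)) (.F ⟨⟨12,5,0,0,0,1,1⟩,[(1,19),(2,38),(3,57)]⟩)) (.N (.F ⟨⟨12,5,0,0,1,1,1⟩,[(1,19),(2,38),(3,57)]⟩) (.F ⟨⟨4,5,1,1,0,2,2⟩,[(1,19),(2,-19)]⟩)))) (.N (.N (.N (.N (.F ⟨⟨10,5,0,1,2,1,1⟩,[(1,19),(2,38),(3,38)]⟩) (.F ⟨⟨7,5,0,0,1,2,2⟩,[(1,119),(2,238),(3,257)]⟩)) (.F ⟨⟨12,5,0,0,0,1,1⟩,[(1,19),(2,38),(3,57)]⟩)) (.N (.F ⟨⟨12,5,0,0,1,1,1⟩,[(1,19),(2,38),(3,57)]⟩) (.F ⟨⟨4,5,1,1,0,2,2⟩,[(1,19),(2,-19)]⟩))) (.F ⟨⟨2,5,0,0,1,2,2⟩,[(2,19),(3,-19)]⟩))) (.F ⟨⟨7,5,0,0,0,1,1⟩,[(2,19),(3,19)]⟩))) (.F ⟨⟨6,5,0,0,0,1,1⟩,[(3,19)]⟩))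 (.N (.F ⟨⟨6,5,0,0,1,1,1⟩,[(3,19)]⟩) (.N (.F ⟨⟨1,5,0,0,1,2,2⟩,[(3,-19)]⟩) (.F ⟨⟨4,5,1,0,0,1,1⟩,[(3,19)]⟩))))) (.N (.N (.N (.N (.F ⟨⟨4,5,0,1,2,1,1⟩,[(1,19),(2,19),(3,19)]⟩) (.N (.F ⟨⟨2,5,0,1,0,2,2⟩,[(1,19),(2,19),(3,19)]⟩) (.F ⟨⟨7,5,0,0,0,1,1⟩,[(2,19),(3,19)]⟩))) (.F ⟨⟨6,5,0,0,0,1,1⟩,[(3,19)]⟩)) (.N (.F ⟨⟨6,5,0,0,1,1,1⟩,[(3,19)]⟩) (.N (.F ⟨⟨1,5,0,0,1,2,2⟩,[(3,-19)]⟩) (.N (.F ⟨⟨1,5,0,0,1,2,2⟩,[(3,19)]⟩) (.F ⟨⟨5,5,1,0,0,1,1⟩,[(3,19)]⟩))))) (.F ⟨⟨2,5,0,0,0,1,1⟩,[]⟩)))) (.N (.N (.N (.F ⟨⟨2,5,0,0,1,1,1⟩,[(2,19),(3,19)]⟩) (.N (.N (.N (.N (.F ⟨⟨5,5,0,1,2,1,1⟩,[(1,19),(2,19),(3,19)]⟩) (.N (.N (.F ⟨⟨0,5,1,2,0,3,3⟩,[(1,19),(2,38),(3,38)]⟩)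 (.F ⟨⟨4,5,0,1,0,2,2⟩,[(1,19),(2,-19)]⟩)) (.F ⟨⟨8,5,0,0,0,1,1⟩,[(2,19),(3,38)]⟩))) (.F ⟨⟨7,5,0,0,0,1,1⟩,[(2,19),(3,19)]⟩)) (.N (.F ⟨⟨7,5,0,0,1,1,1⟩,[(2,19),(3,19)]⟩) (.N (.N (.F ⟨⟨8,5,0,0,1,1,1⟩,[(2,19),(3,38)]⟩) (.N (.F ⟨⟨2,5,0,0,1,2,2⟩,[(2,-19)]⟩) (.F ⟨⟨2,5,2,0,3,2,1⟩,[(2,19),(3,19)]⟩))) (.N (.N (.F ⟨⟨2,5,0,0,1,2,2⟩,[(2,-19)]⟩) (.F ⟨⟨2,5,2,0,3,2,1⟩,[(2,19),(3,19)]⟩)) (.F ⟨⟨6,5,1,0,0,1,1⟩,[(2,19),(3,19)]⟩))))) (.N (.N (.F ⟨⟨6,5,0,0,1,1,1⟩,[(2,19),(3,19)]⟩) (.N (.N (.N (.F ⟨⟨8,5,0,0,1,1,1⟩,[(2,19),(3,38)]⟩) (.N (.F ⟨⟨2,5,0,0,1,2,2⟩,[(2,-19)]⟩) (.F ⟨⟨4,5,0,0,1,2,2⟩,[(2,19),(3,38)]⟩))) (.N (.N (.F ⟨⟨2,5,0,0,1,2,2⟩,[(2,-19)]⟩)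 (.G)) (.F ⟨⟨9,5,0,0,0,1,1⟩,[(2,19),(3,38)]⟩))) (.N (.N (.N (.F ⟨⟨2,5,0,0,1,2,2⟩,[(2,-19)]⟩) (.F ⟨⟨5,5,0,0,1,2,2⟩,[(1,100),(2,119),(3,138)]⟩)) (.F ⟨⟨10,5,0,0,0,1,1⟩,[(2,19),(3,38)]⟩)) (.N (.F ⟨⟨10,5,0,0,1,1,1⟩,[(2,19),(3,38)]⟩) (.F ⟨⟨7,5,1,0,0,1,1⟩,[(2,19),(3,19)]⟩))))) (.F ⟨⟨4,5,0,0,0,1,1⟩,[(3,19)]⟩)))) (.N (.N (.N (.N (.F ⟨⟨4,5,0,1,2,1,1⟩,[(1,19),(2,19),(3,19)]⟩) (.F ⟨⟨7,5,0,0,0,1,1⟩,[(2,19),(3,19)]⟩)) (.N (.F ⟨⟨7,5,0,0,1,1,1⟩,[(2,19),(3,19)]⟩) (.N (.F ⟨⟨2,5,0,0,1,2,2⟩,[(2,-19),(3,-19)]⟩) (.N (.N (.N (.F ⟨⟨9,5,0,0,1,1,1⟩,[(1,19),(2,19),(3,38)]⟩) (.F ⟨⟨4,5,1,1,3,2,2⟩,[(1,19),(2,38),(3,38)]⟩)) (.F ⟨⟨2,5,2,0,3,2,1⟩,[(2,19),(3,19)]⟩))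 (.F ⟨⟨6,5,1,0,0,1,1⟩,[(2,19),(3,19)]⟩))))) (.N (.N (.F ⟨⟨6,5,0,0,1,1,1⟩,[(2,19),(3,19)]⟩) (.N (.N (.F ⟨⟨2,5,0,0,1,2,2⟩,[(2,-19),(3,-19)]⟩) (.N (.N (.N (.N (.F ⟨⟨10,5,0,1,2,1,1⟩,[(1,19),(2,19),(3,38)]⟩) (.F ⟨⟨13,5,0,0,0,1,1⟩,[(1,19),(2,38),(3,57)]⟩)) (.N (.F ⟨⟨13,5,0,0,1,1,1⟩,[(1,19),(2,38),(3,57)]⟩) (.N (.F ⟨⟨8,5,0,0,1,2,2⟩,[(1,19),(2,138),(3,157)]⟩) (.F ⟨⟨3,5,2,1,0,3,3⟩,[(1,19),(2,-19),(3,-19)]⟩)))) (.G)) (.F ⟨⟨9,5,0,0,0,1,1⟩,[(2,19),(3,38)]⟩))) (.N (.N (.N (.N (.F ⟨⟨9,5,0,1,2,1,1⟩,[(1,19),(2,19),(3,38)]⟩) (.N (.F ⟨⟨5,5,0,2,3,2,1⟩,[(1,19),(2,19),(3,38)]⟩) (.F ⟨⟨3,5,1,1,0,3,3⟩,[(1,19),(2,-19),(3,-19)]⟩))) (.F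 ⟨⟨5,5,0,0,1,2,2⟩,[(1,100),(2,119),(3,138)]⟩)) (.F ⟨⟨10,5,0,0,0,1,1⟩,[(2,19),(3,38)]⟩)) (.N (.F ⟨⟨10,5,0,0,1,1,1⟩,[(2,19),(3,38)]⟩) (.F ⟨⟨7,5,1,0,0,1,1⟩,[(2,19),(3,19)]⟩))))) (.N (.N (.N (.F ⟨⟨7,5,0,0,1,1,1⟩,[(1,19),(2,19),(3,19)]⟩) (.N (.N (.N (.N (.F ⟨⟨10,5,0,1,2,1,1⟩,[(1,19),(2,19),(3,38)]⟩) (.F ⟨⟨13,5,0,0,0,1,1⟩,[(1,19),(2,38),(3,57)]⟩)) (.N (.F ⟨⟨13,5,0,0,1,1,1⟩,[(1,19),(2,38),(3,57)]⟩) (.N (.F ⟨⟨8,5,0,0,1,2,2⟩,[(1,19),(2,138),(3,157)]⟩) (.F ⟨⟨5,5,0,0,1,2,2⟩,[(1,19),(2,19),(3,38)]⟩)))) (.F ⟨⟨3,5,0,1,0,3,3⟩,[(1,19),(2,-38),(3,-19)]⟩)) (.F ⟨⟨9,5,0,0,0,1,1⟩,[(2,19),(3,38)]⟩))) (.N (.N (.N (.N (.F ⟨⟨9,5,0,1,2,1,1⟩,[(1,19),(2,19),(3,38)]⟩)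 (.N (.F ⟨⟨5,5,0,2,3,2,1⟩,[(1,19),(2,19),(3,38)]⟩) (.F ⟨⟨5,5,0,0,1,2,2⟩,[(1,19),(2,19),(3,38)]⟩))) (.F ⟨⟨3,5,0,1,0,3,3⟩,[(1,19),(2,-38),(3,-19)]⟩)) (.F ⟨⟨10,5,0,0,0,1,1⟩,[(2,19),(3,38)]⟩)) (.N (.F ⟨⟨10,5,0,0,1,1,1⟩,[(2,19),(3,38)]⟩) (.N (.F ⟨⟨5,5,0,0,1,2,1⟩,[(2,-38),(3,-19)]⟩) (.F ⟨⟨8,5,1,0,0,1,1⟩,[(2,19),(3,19)]⟩))))) (.F ⟨⟨5,5,0,0,0,1,1⟩,[(3,19)]⟩)))) (.F ⟨⟨3,5,0,0,0,1,1⟩,[]⟩))) (.N (.N (.N (.N (.F ⟨⟨3,5,0,1,2,1,1⟩,[(1,19),(2,19),(3,19)]⟩) (.N (.F ⟨⟨0,5,1,1,0,2,2⟩,[(1,19),(2,19),(3,19)]⟩) (.N (.F ⟨⟨1,5,1,1,0,2,2⟩,[(1,19),(2,19),(3,19)]⟩) (.F ⟨⟨6,5,0,0,0,1,1⟩,[(2,19),(3,19)]⟩)))) (.N (.N (.F ⟨⟨0,5,1,1,0,2,2⟩,[(1,19),(2,19),(3,19)]⟩)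 (.N (.F ⟨⟨1,5,1,1,0,2,2⟩,[(1,19),(2,19),(3,19)]⟩) (.N (.F ⟨⟨1,5,1,1,0,2,2⟩,[(1,19),(2,19),(3,19)]⟩) (.F ⟨⟨7,5,0,0,0,1,1⟩,[(2,19),(3,19)]⟩)))) (.F ⟨⟨5,5,0,0,0,1,1⟩,[(3,19)]⟩))) (.F ⟨⟨4,5,0,0,0,1,1⟩,[]⟩)) (.F ⟨⟨0,5,1,0,0,1,1⟩,[]⟩)))))
    [] (rows0 5 [1, 2, 3, 4, 0]) = true := by decide +kernel

theorem c5_12340_1 : treeOK par5 [[1, 2, 3, 4, 0]]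
    (gold1 par5 (rows0 5 [4, 0, 1, 2, 3])) (rows0 5 [4, 0, 1, 2, 3])
    (.N (.N (.N (.N (.F ⟨⟨0,5,0,1,2,1,1⟩,[]⟩) (.Y)) (.N (.N (.F ⟨⟨3,5,0,0,1,1,1⟩,[(0,-19),(1,-19),(2,-19)]⟩) (.N (.N (.N (.F ⟨⟨5,5,0,0,1,1,1⟩,[(0,-19),(1,-19)]⟩) (.N (.N (.N (.N (.F ⟨⟨8,5,0,1,2,1,1⟩,[(0,-19)]⟩) (.F ⟨⟨5,5,0,0,1,2,1⟩,[(0,-57),(1,-38),(2,-19)]⟩)) (.F ⟨⟨10,5,0,0,0,1,1⟩,[(0,-57),(1,-38),(2,-19)]⟩)) (.Y)) (.N (.N (.F ⟨⟨9,5,0,0,1,1,1⟩,[(0,-57),(1,-38),(2,-19)]⟩) (.N (.F ⟨⟨3,5,1,0,3,3,3⟩,[(0,-38),(1,-38),(2,-19)]⟩) (.N (.N (.N (.F ⟨⟨5,5,0,0,1,2,2⟩,[(0,19),(1,19),(2,-19)]⟩) (.F ⟨⟨8,5,0,0,1,2,2⟩,[(0,-176),(1,-57),(2,-38)]⟩)) (.F ⟨⟨13,5,0,0,0,1,1⟩,[(0,-76),(1,-57),(2,-38)]⟩))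 (.Y)))) (.F ⟨⟨7,5,0,0,0,1,1⟩,[(0,-19),(1,-19),(2,-19)]⟩)))) (.N (.N (.N (.N (.F ⟨⟨7,5,0,1,2,1,1⟩,[(0,-19)]⟩) (.F ⟨⟨10,5,0,0,0,1,1⟩,[(0,-57),(1,-38),(2,-19)]⟩)) (.Y)) (.G)) (.F ⟨⟨6,5,0,0,0,1,1⟩,[(0,-38),(1,-19),(2,-19)]⟩))) (.N (.N (.N (.N (.F ⟨⟨6,5,0,1,2,1,1⟩,[(0,-19)]⟩) (.N (.F ⟨⟨2,5,0,2,3,2,1⟩,[(0,-19)]⟩) (.N (.F ⟨⟨4,5,1,1,0,2,2⟩,[(0,-19)]⟩) (.F ⟨⟨9,5,0,0,0,1,1⟩,[(0,-19),(1,-19)]⟩)))) (.F ⟨⟨2,5,0,0,1,2,2⟩,[(0,-38),(1,-19),(2,-19)]⟩)) (.F ⟨⟨7,5,0,0,0,1,1⟩,[(0,-38),(1,-19),(2,-19)]⟩)) (.Y)))) (.N (.N (.N (.F ⟨⟨4,5,0,0,1,1,1⟩,[(0,-19),(1,-19)]⟩) (.N (.N (.N (.N (.F ⟨⟨7,5,0,1,2,1,1⟩,[(0,-19)]⟩) (.F ⟨⟨10,5,0,0,0,1,1⟩,[(0,-57),(1,-38),(2,-19)]⟩))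 (.Y)) (.N (.N (.F ⟨⟨9,5,0,0,1,1,1⟩,[(0,-57),(1,-38),(2,-19)]⟩) (.N (.F ⟨⟨4,5,0,0,1,2,2⟩,[(1,19),(2,-19)]⟩) (.F ⟨⟨2,5,0,0,1,2,2⟩,[(0,-38),(1,-19)]⟩))) (.N (.N (.F ⟨⟨4,5,0,0,1,2,2⟩,[(1,19),(2,-19)]⟩) (.F ⟨⟨2,5,0,0,1,2,2⟩,[(0,-38),(1,-19)]⟩)) (.F ⟨⟨8,5,0,0,0,1,1⟩,[(0,-38),(1,-19)]⟩)))) (.F ⟨⟨6,5,0,0,0,1,1⟩,[(0,-38),(1,-19),(2,-19)]⟩))) (.N (.N (.N (.N (.F ⟨⟨6,5,0,1,2,1,1⟩,[(0,-19)]⟩) (.N (.F ⟨⟨2,5,0,2,3,2,1⟩,[(0,-19)]⟩) (.F ⟨⟨2,5,0,0,1,2,2⟩,[(0,-38),(1,-19)]⟩))) (.N (.N (.F ⟨⟨2,5,0,2,3,2,1⟩,[(0,-19)]⟩) (.F ⟨⟨2,5,0,0,1,2,2⟩,[(0,-38),(1,-19)]⟩)) (.F ⟨⟨8,5,0,0,0,1,1⟩,[(0,-38),(1,-19)]⟩))) (.F ⟨⟨7,5,0,0,0,1,1⟩,[(0,-38),(1,-19),(2,-19)]⟩))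 (.Y))) (.F ⟨⟨2,5,0,0,0,1,1⟩,[(0,-19)]⟩)))) (.N (.N (.N (.F ⟨⟨2,5,0,0,1,1,1⟩,[(0,-19),(1,-19),(2,-19)]⟩) (.N (.N (.N (.N (.F ⟨⟨5,5,0,1,2,1,1⟩,[(0,-19),(1,-19)]⟩) (.F ⟨⟨1,5,0,0,1,2,2⟩,[(0,-38),(1,-38),(2,-19)]⟩)) (.F ⟨⟨1,5,0,0,1,2,2⟩,[(0,-38),(1,-38),(2,-19)]⟩)) (.F ⟨⟨6,5,0,0,0,1,1⟩,[(0,-38),(1,-38),(2,-19)]⟩)) (.Y))) (.N (.N (.N (.N (.F ⟨⟨4,5,0,1,2,1,1⟩,[(0,-19),(1,-19)]⟩) (.F ⟨⟨1,5,0,0,1,2,2⟩,[(0,-38),(1,-38),(2,-19)]⟩)) (.F ⟨⟨6,5,0,0,0,1,1⟩,[(0,-38),(1,-38),(2,-19)]⟩)) (.Y)) (.N (.N (.F ⟨⟨5,5,0,0,1,1,1⟩,[(0,-38),(1,-38),(2,-19)]⟩) (.N (.N (.N (.F ⟨⟨7,5,0,0,1,1,1⟩,[(0,-38),(1,-19),(2,-19)]⟩) (.N (.N (.F ⟨⟨2,5,0,0,2,2,2⟩,[(1,19),(2,19)]⟩)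 (.Y)) (.F ⟨⟨3,5,0,0,1,2,2⟩,[(0,-57),(1,-38),(2,-19)]⟩))) (.N (.N (.N (.F ⟨⟨2,5,0,0,2,2,2⟩,[(1,19),(2,19)]⟩) (.Y)) (.G)) (.F ⟨⟨8,5,0,0,0,1,1⟩,[(0,-57),(1,-38),(2,-19)]⟩))) (.N (.N (.N (.N (.F ⟨⟨8,5,0,1,2,1,1⟩,[(0,-38),(1,-19)]⟩) (.F ⟨⟨4,5,0,0,2,2,1⟩,[(0,-57),(1,-38),(2,-19)]⟩)) (.F ⟨⟨4,5,0,0,1,2,2⟩,[(0,-157),(1,-138),(2,-19)]⟩)) (.F ⟨⟨9,5,0,0,0,1,1⟩,[(0,-57),(1,-38),(2,-19)]⟩)) (.Y)))) (.F ⟨⟨3,5,0,0,0,1,1⟩,[(0,-19)]⟩)))) (.F ⟨⟨1,5,0,0,0,1,1⟩,[(0,-19),(1,-19)]⟩))) (.F ⟨⟨0,5,0,0,0,1,1⟩,[(0,-19),(1,-19),(2,-19)]⟩))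
    [] (rows0 5 [4, 0, 1, 2, 3]) = true := by decide +kernel

theorem c5_12340_2 : treeOK par5 [[4, 0, 1, 2, 3], [1, 2, 3, 4, 0]]
    (gold1 par5 (rows0 5 [4, 1, 2, 3, 0])) (rows0 5 [4, 1, 2, 3, 0])
    (.N (.Y) (.Y))
    [] (rows0 5 [4, 1, 2, 3, 0]) = true := by decide +kernel

theorem c5_12340_3 : treeOK par5 [[4, 1, 2, 3, 0], [4, 0, 1, 2, 3], [1, 2, 3, 4, 0]]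
    (gold1 par5 (rows0 5 [3, 4, 2, 0, 1])) (rows0 5 [3, 4, 2, 0, 1])
    (.N (.N (.N (.F ⟨⟨0,5,0,0,1,1,1⟩,[]⟩) (.N (.N (.Y) (.N (.N (.F ⟨⟨5,5,0,0,1,1,1⟩,[(2,19),(3,19)]⟩) (.N (.F ⟨⟨0,5,0,0,1,2,2⟩,[(2,19),(3,19)]⟩) (.Y))) (.N (.N (.F ⟨⟨0,5,0,0,1,2,2⟩,[(2,19),(3,19)]⟩) (.Y)) (.F ⟨⟨4,5,0,0,0,1,1⟩,[(0,-19)]⟩)))) (.F ⟨⟨2,5,0,0,0,1,1⟩,[(2,19),(3,19)]⟩))) (.Y)) (.N (.Y) (.N (.N (.F ⟨⟨2,5,0,0,1,1,1⟩,[(2,19),(3,19)]⟩) (.N (.N (.N (.F ⟨⟨4,5,0,0,1,1,1⟩,[(0,-19)]⟩) (.N (.Y) (.F ⟨⟨0,5,0,0,1,2,2⟩,[(0,-19),(2,19),(3,19)]⟩))) (.N (.N (.Y) (.G)) (.F ⟨⟨5,5,0,0,0,1,1⟩,[(0,-19),(2,19),(3,19)]⟩))) (.Y))) (.F ⟨⟨0,5,0,0,0,1,1⟩,[(0,-19)]⟩))))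
    [] (rows0 5 [3, 4, 2, 0, 1]) = true := by decide +kernel

theorem c5_12340_4 : treeOK par5 [[3, 4, 2, 0, 1], [4, 1, 2, 3, 0], [4, 0, 1, 2, 3], [1, 2, 3, 4, 0]]
    (gold1 par5 (rows0 5 [2, 3, 4, 0, 1])) (rows0 5 [2, 3, 4, 0, 1])
    (.N (.N (.F ⟨⟨0,5,0,0,1,1,1⟩,[]⟩) (.N (.N (.Y) (.N (.N (.Y) (.G)) (.F ⟨⟨3,5,0,0,0,1,1⟩,[(0,-19)]⟩))) (.Y))) (.Y))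
    [] (rows0 5 [2, 3, 4, 0, 1]) = true := by decide +kernel

theorem c5_12340_5 : treeOK par5 [[2, 3, 4, 0, 1], [3, 4, 2, 0, 1], [4, 1, 2, 3, 0], [4, 0, 1, 2, 3], [1, 2, 3, 4, 0]]
    (gold1 par5 (rows0 5 [4, 2, 3, 0, 1])) (rows0 5 [4, 2, 3, 0, 1])
    (.N (.Y) (.Y))
    [] (rows0 5 [4, 2, 3, 0, 1]) = true := by decide +kernel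

theorem c5_12340_6 : treeOK par5 [[4, 2, 3, 0, 1], [2, 3, 4, 0, 1], [3, 4, 2, 0, 1], [4, 1, 2, 3, 0], [4, 0, 1, 2, 3], [1, 2, 3, 4, 0]]
    (gold1 par5 (rows0 5 [2, 3, 4, 1, 0])) (rows0 5 [2, 3, 4, 1, 0])
    (.N (.Y) (.N (.N (.Y) (.N (.Y) (.F ⟨⟨2,5,0,0,0,1,1⟩,[(1,19),(2,19),(3,19)]⟩))) (.Y)))
    [] (rows0 5 [2, 3, 4, 1, 0]) = true := by decide +kernel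

theorem c5_12340_7 : treeOK par5 [[2, 3, 4, 1, 0], [4, 2, 3, 0, 1], [2, 3, 4, 0, 1], [3, 4, 2, 0, 1], [4, 1, 2, 3, 0], [4, 0, 1, 2, 3], [1, 2, 3, 4, 0]]
    (gold1 par5 (rows0 5 [3, 4, 0, 1, 2])) (rows0 5 [3, 4, 0, 1, 2])
    (.N (.Y) (.N (.Y) (.F ⟨⟨0,5,0,0,0,1,1⟩,[(0,-19),(1,-19)]⟩)))
    [] (rows0 5 [3, 4, 0, 1, 2]) = true := by decide +kernel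

theorem c5_12340_8 : treeOK par5 [[3, 4, 0, 1, 2], [2, 3, 4, 1, 0], [4, 2, 3, 0, 1], [2, 3, 4, 0, 1], [3, 4, 2, 0, 1], [4, 1, 2, 3, 0], [4, 0, 1, 2, 3], [1, 2, 3, 4, 0]]
    (gold1 par5 (rows0 5 [3, 4, 1, 2, 0])) (rows0 5 [3, 4, 1, 2, 0])
    (.N (.Y) (.Y))
    [] (rows0 5 [3, 4, 1, 2, 0]) = true := by decide +kernel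

theorem c5_12340_9 : treeOK par5 [[3, 4, 1, 2, 0], [3, 4, 0, 1, 2], [2, 3, 4, 1, 0], [4, 2, 3, 0, 1], [2, 3, 4, 0, 1], [3, 4, 2, 0, 1], [4, 1, 2, 3, 0], [4, 0, 1, 2, 3], [1, 2, 3, 4, 0]]
    (gold1 par5 (rows0 5 [4, 3, 0, 1, 2])) (rows0 5 [4, 3, 0, 1, 2])
    (.N (.Y) (.Y))
    [] (rows0 5 [4, 3, 0, 1, 2]) = true := by decide +kernel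

end Pool.Agent.RTX
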