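import Pool.Agent.RTX.Par

/-!
# RTX certificates: the Rauzy class of 14023 (5 intervals)
-/

set_option autoImplicit false
set_option maxRecDepth 100000

namespace Pool.Agent.RTX

theorem c5_12403_0 : treeOK par5 []
    (gold1 par5 (rows0 5 [1, 4, 0, 2, 3])) (rows0 5 [1, 4, 0, 2, 3])
    (.N (.N (.N (.F ⟨⟨0,5,0,0,1,1,1⟩,[]⟩) (.N (.F ⟨⟨3,5,0,0,1,1,1⟩,[(0,-19),(1,-19),(2,-19)]⟩) (.N (.N (.F ⟨⟨4,5,0,0,1,1,1⟩,[(0,-19),(1,-19)]⟩) (.N (.N (.N (.N (.F ⟨⟨6,5,0,1,2,1,1⟩,[(1,19)]⟩) (.F ⟨⟨9,5,0,0,0,1,1⟩,[]⟩)) (.F ⟨⟨1,5,1,0,3,2,2⟩,[]⟩)) (.F ⟨⟨1,5,1,0,2,2,2⟩,[]⟩)) (.F ⟨⟨0,5,1,0,2,2,2⟩,[]⟩))) (.N (.N (.N (.N (.F ⟨⟨5,5,0,1,2,1,1⟩,[(1,19)]⟩) (.F ⟨⟨8,5,0,0,0,1,1⟩,[]⟩))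 (.F ⟨⟨1,5,1,0,2,2,2⟩,[]⟩)) (.F ⟨⟨0,5,1,0,2,2,2⟩,[]⟩)) (.F ⟨⟨2,5,1,0,0,1,1⟩,[]⟩))))) (.N (.N (.F ⟨⟨2,5,0,0,1,1,1⟩,[(0,-19),(1,-19),(2,-19)]⟩) (.N (.N (.N (.F ⟨⟨4,5,0,0,1,1,1⟩,[(0,-19),(1,-19)]⟩) (.F ⟨⟨1,5,0,0,1,2,2⟩,[(2,19)]⟩)) (.F ⟨⟨5,5,0,0,0,1,1⟩,[(2,19)]⟩)) (.N (.F ⟨⟨5,5,0,0,1,1,1⟩,[(2,19)]⟩) (.N (.N (.N (.N (.F ⟨⟨6,5,0,1,2,1,1⟩,[(1,19)]⟩) (.N (.F ⟨⟨3,5,1,1,0,2,2⟩,[(0,19),(1,38)]⟩) (.F ⟨⟨9,5,0,0,0,1,1⟩,[(0,-19),(1,-19)]⟩))) (.F ⟨⟨8,5,0,0,0,1,1⟩,[(0,-19),(1,-19),(2,-19)]⟩)) (.F ⟨⟨2,5,1,0,2,2,2⟩,[(0,-19),(1,-19),(2,-19)]⟩)) (.F ⟨⟨3,5,1,0,0,1,1⟩,[]⟩))))) (.F ⟨⟨1,5,0,0,0,1,1⟩,[(2,19)]⟩))) (.F ⟨⟨0,5,0,0,0,1,1⟩,[]⟩))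
    [] (rows0 5 [1, 4, 0, 2, 3]) = true := by decide +kernel

theorem c5_12403_1 : treeOK par5 [[1, 4, 0, 2, 3]]
    (gold1 par5 (rows0 5 [2, 0, 3, 4, 1])) (rows0 5 [2, 0, 3, 4, 1])
    (.N (.F ⟨⟨0,5,0,0,1,1,1⟩,[]⟩) (.N (.N (.F ⟨⟨1,5,0,0,1,1,1⟩,[(3,19)]⟩) (.N (.N (.N (.N (.F ⟨⟨3,5,0,1,2,1,1⟩,[(2,19)]⟩) (.N (.Y) (.N (.F ⟨⟨8,5,0,0,1,1,1⟩,[(0,-19),(2,19),(3,-19)]⟩) (.N (.N (.F ⟨⟨9,5,0,0,1,1,1⟩,[(0,-19),(2,19)]⟩) (.F ⟨⟨3,5,1,1,3,2,2⟩,[(2,19)]⟩)) (.F ⟨⟨6,5,1,0,0,1,1⟩,[]⟩))))) (.F ⟨⟨5,5,0,0,0,1,1⟩,[(0,-19),(3,-19)]⟩)) (.N (.F ⟨⟨5,5,0,0,1,1,1⟩,[(0,-19),(3,-19)]⟩) (.N (.F ⟨⟨1,5,0,0,1,2,2⟩,[(0,-19),(3,-19)]⟩) (.F ⟨⟨4,5,0,0,0,1,1⟩,[(0,-19)]⟩)))) (.F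 ⟨⟨2,5,0,0,0,1,1⟩,[(0,-19),(3,-19)]⟩))) (.N (.N (.N (.N (.F ⟨⟨2,5,0,1,2,1,1⟩,[(2,19)]⟩) (.N (.F ⟨⟨0,5,0,1,0,2,2⟩,[(0,19),(2,19),(3,19)]⟩) (.N (.F ⟨⟨1,5,0,1,0,2,2⟩,[(0,19),(2,19)]⟩) (.N (.F ⟨⟨8,5,0,0,1,1,1⟩,[(0,19),(2,19),(3,19)]⟩) (.F ⟨⟨5,5,1,0,0,1,1⟩,[]⟩))))) (.N (.N (.F ⟨⟨0,5,0,1,0,2,2⟩,[(0,19),(2,19),(3,19)]⟩) (.N (.F ⟨⟨1,5,0,1,0,2,2⟩,[(0,19),(2,19)]⟩) (.N (.F ⟨⟨1,5,0,1,0,2,2⟩,[(0,19),(2,19)]⟩) (.N (.F ⟨⟨9,5,0,0,1,1,1⟩,[(0,19),(2,19),(3,19)]⟩) (.F ⟨⟨6,5,1,0,0,1,1⟩,[]⟩))))) (.F ⟨⟨4,5,0,0,0,1,1⟩,[(0,-19)]⟩))) (.F ⟨⟨3,5,0,0,0,1,1⟩,[(0,-19),(3,-19)]⟩)) (.F ⟨⟨0,5,0,0,0,1,1⟩,[]⟩))))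
    [] (rows0 5 [2, 0, 3, 4, 1]) = true := by decide +kernel

theorem c5_12403_2 : treeOK par5 [[2, 0, 3, 4, 1], [1, 4, 0, 2, 3]]
    (gold1 par5 (rows0 5 [1, 4, 3, 0, 2])) (rows0 5 [1, 4, 3, 0, 2])
    (.N (.N (.Y) (.N (.F ⟨⟨2,5,0,0,1,1,1⟩,[(3,19)]⟩) (.N (.N (.F ⟨⟨3,5,0,0,1,1,1⟩,[(0,-19),(1,-19)]⟩) (.N (.N (.N (.N (.F ⟨⟨5,5,0,1,2,1,1⟩,[(1,19)]⟩) (.F ⟨⟨8,5,0,0,0,1,1⟩,[]⟩)) (.F ⟨⟨0,5,1,0,3,2,2⟩,[]⟩)) (.F ⟨⟨0,5,1,0,2,2,2⟩,[]⟩)) (.N (.F ⟨⟨0,5,1,0,2,2,2⟩,[]⟩) (.F ⟨⟨4,5,0,0,0,1,1⟩,[(3,19)]⟩)))) (.N (.N (.N (.N (.F ⟨⟨4,5,0,1,2,1,1⟩,[(1,19)]⟩) (.F ⟨⟨7,5,0,0,0,1,1⟩,[]⟩)) (.F ⟨⟨0,5,1,0,2,2,2⟩,[]⟩)) (.N (.F ⟨⟨0,5,1,0,2,2,2⟩,[]⟩) (.F ⟨⟨5,5,0,0,0,1,1⟩,[(3,19)]⟩)))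 (.F ⟨⟨1,5,1,0,0,1,1⟩,[]⟩))))) (.N (.N (.F ⟨⟨1,5,0,0,1,1,1⟩,[(3,19)]⟩) (.N (.N (.N (.F ⟨⟨3,5,0,0,1,1,1⟩,[(0,-19),(1,-19)]⟩) (.F ⟨⟨0,5,0,0,1,2,2⟩,[(0,19),(1,19),(3,19)]⟩)) (.F ⟨⟨4,5,0,0,0,1,1⟩,[(0,19),(1,19),(3,19)]⟩)) (.N (.F ⟨⟨4,5,0,0,1,1,1⟩,[(0,19),(1,19),(3,19)]⟩) (.N (.N (.N (.N (.F ⟨⟨5,5,0,1,2,1,1⟩,[(1,19)]⟩) (.N (.F ⟨⟨2,5,1,1,0,2,2⟩,[(0,19),(1,38)]⟩) (.F ⟨⟨8,5,0,0,0,1,1⟩,[(0,-19),(1,-19)]⟩))) (.F ⟨⟨7,5,0,0,0,1,1⟩,[(3,19)]⟩)) (.Y)) (.F ⟨⟨2,5,1,0,0,1,1⟩,[]⟩))))) (.F ⟨⟨0,5,0,0,0,1,1⟩,[]⟩)))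
    [] (rows0 5 [1, 4, 3, 0, 2]) = true := by decide +kernel

theorem c5_12403_3 : treeOK par5 [[1, 4, 3, 0, 2], [2, 0, 3, 4, 1], [1, 4, 0, 2, 3]]
    (gold1 par5 (rows0 5 [3, 0, 4, 2, 1])) (rows0 5 [3, 0, 4, 2, 1])
    (.N (.N (.F ⟨⟨0,5,0,0,1,1,1⟩,[]⟩) (.N (.N (.N (.N (.F ⟨⟨2,5,0,1,2,1,1⟩,[(3,19)]⟩) (.N (.Y) (.N (.F ⟨⟨7,5,0,0,1,1,1⟩,[(2,19),(3,38)]⟩) (.N (.N (.F ⟨⟨8,5,0,0,1,1,1⟩,[(0,-19),(3,19)]⟩) (.F ⟨⟨2,5,1,1,3,2,2⟩,[(3,19)]⟩)) (.F ⟨⟨5,5,1,0,0,1,1⟩,[]⟩))))) (.F ⟨⟨4,5,0,0,0,1,1⟩,[(2,19),(3,19)]⟩)) (.N (.F ⟨⟨4,5,0,0,1,1,1⟩,[(2,19),(3,19)]⟩) (.N (.F ⟨⟨0,5,0,0,1,2,2⟩,[(2,19),(3,19)]⟩) (.F ⟨⟨3,5,0,0,0,1,1⟩,[(0,-19)]⟩)))) (.F ⟨⟨1,5,0,0,0,1,1⟩,[(2,19),(3,19)]⟩)))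 (.N (.N (.N (.N (.F ⟨⟨1,5,0,1,2,1,1⟩,[(3,19)]⟩) (.N (.N (.F ⟨⟨5,5,0,0,1,1,1⟩,[(2,19),(3,38)]⟩) (.Y)) (.N (.F ⟨⟨0,5,0,1,0,2,2⟩,[(0,19),(3,19)]⟩) (.N (.F ⟨⟨7,5,0,0,1,1,1⟩,[(0,19),(3,19)]⟩) (.F ⟨⟨4,5,1,0,0,1,1⟩,[]⟩))))) (.N (.N (.N (.F ⟨⟨4,5,0,0,1,1,1⟩,[(2,19),(3,38)]⟩) (.F ⟨⟨0,5,0,1,0,2,2⟩,[(0,19),(3,19)]⟩)) (.N (.F ⟨⟨0,5,0,1,0,2,2⟩,[(0,19),(3,19)]⟩) (.N (.F ⟨⟨0,5,0,1,0,2,2⟩,[(0,19),(3,19)]⟩) (.N (.F ⟨⟨8,5,0,0,1,1,1⟩,[(0,19),(3,19)]⟩) (.F ⟨⟨5,5,1,0,0,1,1⟩,[]⟩))))) (.F ⟨⟨3,5,0,0,0,1,1⟩,[(0,-19)]⟩))) (.F ⟨⟨2,5,0,0,0,1,1⟩,[(2,19),(3,19)]⟩)) (.Y)))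
    [] (rows0 5 [3, 0, 4, 2, 1]) = true := by decide +kernel

theorem c5_12403_4 : treeOK par5 [[3, 0, 4, 2, 1], [1, 4, 3, 0, 2], [2, 0, 3, 4, 1], [1, 4, 0, 2, 3]]
    (gold1 par5 (rows0 5 [1, 3, 4, 0, 2])) (rows0 5 [1, 3, 4, 0, 2])
    (.N (.N (.F ⟨⟨0,5,0,0,1,1,1⟩,[]⟩) (.N (.N (.N (.F ⟨⟨2,5,0,0,1,1,1⟩,[(3,19)]⟩) (.N (.N (.F ⟨⟨5,5,0,0,1,1,1⟩,[(0,-19),(1,-19),(3,-19)]⟩) (.N (.N (.N (.N (.F ⟨⟨7,5,0,1,2,1,1⟩,[(1,19)]⟩) (.F ⟨⟨10,5,0,0,0,1,1⟩,[(3,19)]⟩)) (.F ⟨⟨0,5,1,0,3,3,3⟩,[(3,19)]⟩)) (.F ⟨⟨0,5,1,0,3,3,3⟩,[(3,19)]⟩)) (.N (.Y) (.N (.F ⟨⟨9,5,0,0,1,1,1⟩,[(0,-19),(1,-19),(3,-38)]⟩) (.F ⟨⟨6,5,1,0,0,1,1⟩,[(3,19)]⟩))))) (.N (.N (.N (.N (.F ⟨⟨6,5,0,1,2,1,1⟩,[(1,19)]⟩)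 (.F ⟨⟨9,5,0,0,0,1,1⟩,[(3,19)]⟩)) (.F ⟨⟨0,5,1,0,3,3,3⟩,[(3,19)]⟩)) (.N (.F ⟨⟨0,5,1,0,3,3,3⟩,[(3,19)]⟩) (.N (.F ⟨⟨9,5,0,0,1,1,1⟩,[(0,-19),(1,-19),(3,-38)]⟩) (.N (.N (.F ⟨⟨2,5,0,0,1,2,2⟩,[(3,19)]⟩) (.F ⟨⟨2,5,2,0,4,2,1⟩,[(3,19)]⟩)) (.F ⟨⟨7,5,1,0,0,1,1⟩,[(3,19)]⟩))))) (.F ⟨⟨4,5,0,0,0,1,1⟩,[]⟩)))) (.F ⟨⟨3,5,0,0,0,1,1⟩,[(0,-19),(1,-19),(3,-19)]⟩)) (.N (.F ⟨⟨3,5,0,0,1,1,1⟩,[(0,-19),(1,-19),(3,-19)]⟩) (.N (.N (.N (.N (.F ⟨⟨4,5,0,1,2,1,1⟩,[(1,19)]⟩) (.N (.F ⟨⟨1,5,1,1,0,2,2⟩,[(0,19),(1,38)]⟩) (.F ⟨⟨7,5,0,0,0,1,1⟩,[(3,19)]⟩))) (.F ⟨⟨6,5,0,0,0,1,1⟩,[]⟩)) (.Y)) (.F ⟨⟨1,5,1,0,0,1,1⟩,[]⟩))))) (.Y))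
    [] (rows0 5 [1, 3, 4, 0, 2]) = true := by decide +kernel

theorem c5_12403_5 : treeOK par5 [[1, 3, 4, 0, 2], [3, 0, 4, 2, 1], [1, 4, 3, 0, 2], [2, 0, 3, 4, 1], [1, 4, 0, 2, 3]]
    (gold1 par5 (rows0 5 [3, 0, 4, 1, 2])) (rows0 5 [3, 0, 4, 1, 2])
    (.N (.Y) (.N (.N (.N (.N (.F ⟨⟨1,5,0,1,2,1,1⟩,[(3,19)]⟩) (.N (.Y) (.N (.F ⟨⟨6,5,0,0,1,1,1⟩,[(3,19)]⟩) (.N (.N (.F ⟨⟨7,5,0,0,1,1,1⟩,[(1,19),(3,19)]⟩) (.F ⟨⟨1,5,1,1,3,2,2⟩,[(3,19)]⟩)) (.F ⟨⟨4,5,1,0,0,1,1⟩,[]⟩))))) (.F ⟨⟨3,5,0,0,0,1,1⟩,[(0,-19),(1,-19)]⟩)) (.N (.F ⟨⟨3,5,0,0,1,1,1⟩,[(0,-19),(1,-19)]⟩) (.N (.N (.N (.F ⟨⟨4,5,0,0,1,1,1⟩,[(3,19)]⟩) (.N (.N (.N (.N (.F ⟨⟨7,5,0,1,2,1,1⟩,[(1,19),(3,19)]⟩)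 (.N (.F ⟨⟨2,5,0,2,3,2,1⟩,[(1,19),(3,19)]⟩) (.F ⟨⟨2,5,0,0,1,2,2⟩,[(1,19),(3,19)]⟩))) (.F ⟨⟨9,5,0,0,0,1,1⟩,[(1,19),(3,19)]⟩)) (.F ⟨⟨0,5,0,1,0,3,3⟩,[(1,19),(3,19)]⟩)) (.N (.F ⟨⟨0,5,0,1,0,3,3⟩,[(1,19),(3,19)]⟩) (.N (.F ⟨⟨9,5,0,0,1,1,1⟩,[(1,19),(3,19)]⟩) (.F ⟨⟨6,5,1,0,0,1,1⟩,[]⟩))))) (.N (.N (.N (.N (.F ⟨⟨6,5,0,1,2,1,1⟩,[(1,19),(3,19)]⟩) (.F ⟨⟨9,5,0,0,0,1,1⟩,[(1,19),(3,19)]⟩)) (.Y)) (.N (.Y) (.N (.F ⟨⟨0,5,0,1,0,3,3⟩,[(1,19),(3,19)]⟩) (.N (.F ⟨⟨10,5,0,0,1,1,1⟩,[(1,19),(3,19)]⟩) (.F ⟨⟨7,5,1,0,0,1,1⟩,[]⟩))))) (.F ⟨⟨5,5,0,0,0,1,1⟩,[(1,19)]⟩))) (.F ⟨⟨2,5,0,0,0,1,1⟩,[(1,19)]⟩)))) (.F ⟨⟨0,5,0,0,0,1,1⟩,[]⟩)))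
    [] (rows0 5 [3, 0, 4, 1, 2]) = true := by decide +kernel

theorem c5_12403_6 : treeOK par5 [[3, 0, 4, 1, 2], [1, 3, 4, 0, 2], [3, 0, 4, 2, 1], [1, 4, 3, 0, 2], [2, 0, 3, 4, 1], [1, 4, 0, 2, 3]]
    (gold1 par5 (rows0 5 [1, 2, 4, 0, 3])) (rows0 5 [1, 2, 4, 0, 3])
    (.N (.N (.F ⟨⟨0,5,0,0,1,1,1⟩,[]⟩) (.N (.F ⟨⟨2,5,0,0,1,1,1⟩,[(0,-19),(1,-19),(2,-19)]⟩) (.N (.N (.N (.F ⟨⟨3,5,0,0,1,1,1⟩,[(2,19)]⟩) (.N (.N (.N (.N (.F ⟨⟨6,5,0,1,2,1,1⟩,[(1,19),(2,19)]⟩) (.F ⟨⟨9,5,0,0,0,1,1⟩,[(0,19),(1,19),(2,38)]⟩)) (.Y)) (.N (.Y) (.N (.N (.F ⟨⟨3,5,0,0,1,2,2⟩,[(0,19),(1,19)]⟩) (.F ⟨⟨10,5,0,0,0,1,1⟩,[(0,19),(1,19),(2,38)]⟩)) (.N (.F ⟨⟨10,5,0,0,1,1,1⟩,[(0,19),(1,19),(2,38)]⟩)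 (.F ⟨⟨7,5,1,0,0,1,1⟩,[(0,19),(1,19),(2,38)]⟩))))) (.F ⟨⟨5,5,0,0,0,1,1⟩,[]⟩))) (.N (.N (.N (.N (.F ⟨⟨5,5,0,1,2,1,1⟩,[(1,19),(2,19)]⟩) (.Y)) (.N (.Y) (.N (.F ⟨⟨9,5,0,0,1,1,1⟩,[(0,19),(1,19),(2,38)]⟩) (.N (.F ⟨⟨3,5,0,0,1,2,2⟩,[(0,119),(1,119),(2,-19)]⟩) (.F ⟨⟨7,5,1,0,0,1,1⟩,[(0,19),(1,19),(2,38)]⟩))))) (.F ⟨⟨6,5,0,0,0,1,1⟩,[]⟩)) (.F ⟨⟨0,5,1,0,2,2,2⟩,[]⟩))) (.N (.N (.N (.N (.F ⟨⟨4,5,0,1,2,1,1⟩,[(1,19),(2,19)]⟩) (.N (.F ⟨⟨1,5,1,1,0,2,2⟩,[(0,19),(1,38),(2,38)]⟩) (.N (.F ⟨⟨2,5,1,1,0,2,2⟩,[(0,19),(1,38),(2,38)]⟩) (.F ⟨⟨7,5,0,0,0,1,1⟩,[(0,19),(1,19),(2,38)]⟩)))) (.F ⟨⟨6,5,0,0,0,1,1⟩,[]⟩)) (.F ⟨⟨0,5,1,0,2,2,2⟩,[]⟩)) (.F ⟨⟨1,5,1,0,0,1,1⟩,[]⟩))))) (.F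 ⟨⟨0,5,0,0,0,1,1⟩,[]⟩))
    [] (rows0 5 [1, 2, 4, 0, 3]) = true := by decide +kernel

theorem c5_12403_7 : treeOK par5 [[1, 2, 4, 0, 3], [3, 0, 4, 1, 2], [1, 3, 4, 0, 2], [3, 0, 4, 2, 1], [1, 4, 3, 0, 2], [2, 0, 3, 4, 1], [1, 4, 0, 2, 3]]
    (gold1 par5 (rows0 5 [1, 4, 2, 3, 0])) (rows0 5 [1, 4, 2, 3, 0])
    (.N (.Y) (.N (.F ⟨⟨1,5,0,0,1,1,1⟩,[(3,19)]⟩) (.N (.N (.F ⟨⟨2,5,0,0,1,1,1⟩,[(2,19),(3,19)]⟩) (.N (.N (.N (.N (.F ⟨⟨4,5,0,1,2,1,1⟩,[(1,19)]⟩) (.F ⟨⟨7,5,0,0,0,1,1⟩,[]⟩)) (.N (.F ⟨⟨7,5,0,0,1,1,1⟩,[]⟩) (.F ⟨⟨6,5,0,0,0,1,1⟩,[(2,19),(3,38)]⟩))) (.N (.Y) (.N (.F ⟨⟨7,5,0,0,1,1,1⟩,[(2,19),(3,38)]⟩) (.N (.F ⟨⟨2,5,0,0,1,2,2⟩,[(2,-19)]⟩) (.F ⟨⟨5,5,1,0,0,1,1⟩,[(2,19),(3,19)]⟩)))))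 (.N (.N (.N (.F ⟨⟨5,5,0,0,1,1,1⟩,[]⟩) (.F ⟨⟨7,5,0,0,0,1,1⟩,[(2,19),(3,38)]⟩)) (.N (.F ⟨⟨7,5,0,0,1,1,1⟩,[(2,19),(3,38)]⟩) (.N (.F ⟨⟨2,5,0,0,1,2,2⟩,[(2,-19)]⟩) (.N (.Y) (.F ⟨⟨6,5,1,0,0,1,1⟩,[(2,19),(3,19)]⟩))))) (.F ⟨⟨3,5,0,0,0,1,1⟩,[(3,19)]⟩)))) (.N (.N (.N (.N (.F ⟨⟨3,5,0,1,2,1,1⟩,[(1,19)]⟩) (.F ⟨⟨6,5,0,0,0,1,1⟩,[]⟩)) (.N (.F ⟨⟨6,5,0,0,1,1,1⟩,[]⟩) (.N (.N (.F ⟨⟨1,5,1,1,0,2,2⟩,[(1,19)]⟩) (.N (.F ⟨⟨2,5,1,1,0,2,2⟩,[(1,19)]⟩) (.F ⟨⟨8,5,0,0,0,1,1⟩,[(2,19),(3,19)]⟩))) (.F ⟨⟨5,5,0,0,0,1,1⟩,[(2,19),(3,19)]⟩)))) (.Y)) (.F ⟨⟨0,5,1,0,0,1,1⟩,[]⟩)))))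
    [] (rows0 5 [1, 4, 2, 3, 0]) = true := by decide +kernel

theorem c5_12403_8 : treeOK par5 [[1, 4, 2, 3, 0], [1, 2, 4, 0, 3], [3, 0, 4, 1, 2], [1, 3, 4, 0, 2], [3, 0, 4, 2, 1], [1, 4, 3, 0, 2], [2, 0, 3, 4, 1], [1, 4, 0, 2, 3]]
    (gold1 par5 (rows0 5 [1, 2, 4, 3, 0])) (rows0 5 [1, 2, 4, 3, 0])
    (.N (.Y) (.N (.F ⟨⟨1,5,0,0,1,1,1⟩,[(3,19)]⟩) (.N (.N (.N (.F ⟨⟨2,5,0,0,1,1,1⟩,[(2,19)]⟩) (.N (.N (.N (.N (.F ⟨⟨5,5,0,1,2,1,1⟩,[(1,19),(2,19)]⟩) (.F ⟨⟨8,5,0,0,0,1,1⟩,[(2,19),(3,-19)]⟩)) (.Y)) (.N (.Y) (.N (.N (.F ⟨⟨2,5,0,0,1,2,2⟩,[(2,-19),(3,-19)]⟩) (.F ⟨⟨9,5,0,0,0,1,1⟩,[(2,19)]⟩)) (.N (.F ⟨⟨9,5,0,0,1,1,1⟩,[(2,19)]⟩) (.F ⟨⟨6,5,1,0,0,1,1⟩,[(2,19)]⟩)))))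 (.F ⟨⟨4,5,0,0,0,1,1⟩,[]⟩))) (.N (.N (.N (.N (.F ⟨⟨4,5,0,1,2,1,1⟩,[(1,19),(2,19)]⟩) (.Y)) (.Y)) (.F ⟨⟨5,5,0,0,0,1,1⟩,[]⟩)) (.N (.F ⟨⟨5,5,0,0,1,1,1⟩,[]⟩) (.F ⟨⟨3,5,0,0,0,1,1⟩,[(3,19)]⟩)))) (.N (.N (.N (.N (.F ⟨⟨3,5,0,1,2,1,1⟩,[(1,19),(2,19)]⟩) (.N (.F ⟨⟨0,5,1,1,0,2,2⟩,[(1,19),(2,19)]⟩) (.N (.F ⟨⟨1,5,1,1,0,2,2⟩,[(1,19),(2,19)]⟩) (.F ⟨⟨6,5,0,0,0,1,1⟩,[(2,19)]⟩)))) (.F ⟨⟨5,5,0,0,0,1,1⟩,[]⟩)) (.N (.F ⟨⟨5,5,0,0,1,1,1⟩,[]⟩) (.F ⟨⟨4,5,0,0,0,1,1⟩,[(3,19)]⟩))) (.F ⟨⟨0,5,1,0,0,1,1⟩,[]⟩)))))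
    [] (rows0 5 [1, 2, 4, 3, 0]) = true := by decide +kernel

theorem c5_12403_9 : treeOK par5 [[1, 2, 4, 3, 0], [1, 4, 2, 3, 0], [1, 2, 4, 0, 3], [3, 0, 4, 1, 2], [1, 3, 4, 0, 2], [3, 0, 4, 2, 1], [1, 4, 3, 0, 2], [2, 0, 3, 4, 1], [1, 4, 0, 2, 3]]
    (gold1 par5 (rows0 5 [3, 0, 1, 4, 2])) (rows0 5 [3, 0, 1, 4, 2])
    (.N (.F ⟨⟨0,5,0,0,1,1,1⟩,[]⟩) (.N (.N (.N (.N (.F ⟨⟨1,5,0,1,2,1,1⟩,[(3,19)]⟩) (.Y)) (.N (.N (.F ⟨⟨0,5,0,1,0,2,2⟩,[(0,19),(1,19),(3,19)]⟩) (.N (.F ⟨⟨6,5,0,0,1,1,1⟩,[(0,19),(1,19),(3,19)]⟩) (.N (.N (.N (.N (.F ⟨⟨7,5,0,1,2,1,1⟩,[(0,-19),(3,19)]⟩) (.F ⟨⟨3,5,0,0,1,2,2⟩,[(0,-38),(1,-19),(3,119)]⟩)) (.F ⟨⟨9,5,0,0,0,1,1⟩,[(0,-38),(1,-19),(3,19)]⟩))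 (.Y)) (.N (.Y) (.F ⟨⟨5,5,1,0,0,1,1⟩,[]⟩))))) (.N (.N (.F ⟨⟨5,5,0,0,1,1,1⟩,[(0,19),(1,19),(3,19)]⟩) (.N (.N (.N (.N (.F ⟨⟨7,5,0,1,2,1,1⟩,[(0,-19),(3,19)]⟩) (.F ⟨⟨10,5,0,0,0,1,1⟩,[(0,-38),(1,-19),(3,19)]⟩)) (.N (.F ⟨⟨10,5,0,0,1,1,1⟩,[(0,-38),(1,-19),(3,19)]⟩) (.F ⟨⟨3,5,0,0,1,2,2⟩,[(0,19),(1,38),(3,19)]⟩))) (.Y)) (.Y))) (.F ⟨⟨3,5,0,0,0,1,1⟩,[(0,-19)]⟩)))) (.F ⟨⟨2,5,0,0,0,1,1⟩,[(0,-19),(1,-19)]⟩)) (.F ⟨⟨0,5,0,0,0,1,1⟩,[]⟩)))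
    [] (rows0 5 [3, 0, 1, 4, 2]) = true := by decide +kernel

theorem c5_12403_10 : treeOK par5 [[3, 0, 1, 4, 2], [1, 2, 4, 3, 0], [1, 4, 2, 3, 0], [1, 2, 4, 0, 3], [3, 0, 4, 1, 2], [1, 3, 4, 0, 2], [3, 0, 4, 2, 1], [1, 4, 3, 0, 2], [2, 0, 3, 4, 1], [1, 4, 0, 2, 3]]
    (gold1 par5 (rows0 5 [4, 0, 1, 3, 2])) (rows0 5 [4, 0, 1, 3, 2])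
    (.N (.N (.N (.N (.F ⟨⟨0,5,0,1,2,1,1⟩,[]⟩) (.Y)) (.N (.N (.N (.F ⟨⟨3,5,0,0,1,1,1⟩,[(3,19)]⟩) (.F ⟨⟨5,5,0,0,0,1,1⟩,[(0,-19),(1,-19),(3,-19)]⟩)) (.N (.F ⟨⟨5,5,0,0,1,1,1⟩,[(0,-19),(1,-19),(3,-19)]⟩) (.N (.N (.N (.N (.F ⟨⟨6,5,0,1,2,1,1⟩,[(0,-19)]⟩) (.F ⟨⟨2,5,0,0,1,2,2⟩,[(0,-19),(3,19)]⟩)) (.F ⟨⟨8,5,0,0,0,1,1⟩,[(0,-19),(3,19)]⟩)) (.Y)) (.N (.Y) (.F ⟨⟨4,5,1,0,0,1,1⟩,[]⟩))))) (.N (.N (.F ⟨⟨4,5,0,0,1,1,1⟩,[(0,-19),(1,-19),(3,-19)]⟩) (.N (.N (.N (.N (.F ⟨⟨6,5,0,1,2,1,1⟩,[(0,-19)]⟩) (.F ⟨⟨9,5,0,0,0,1,1⟩,[(0,-19),(3,19)]⟩)) (.N (.F ⟨⟨9,5,0,0,1,1,1⟩,[(0,-19),(3,19)]⟩) (.F ⟨⟨2,5,0,0,1,2,2⟩,[(0,-38),(1,-19),(3,-19)]⟩))) (.Y)) (.Y))) (.F ⟨⟨2,5,0,0,0,1,1⟩,[(0,-19)]⟩))))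 (.F ⟨⟨1,5,0,0,0,1,1⟩,[(3,19)]⟩)) (.Y))
    [] (rows0 5 [4, 0, 1, 3, 2]) = true := by decide +kernel

theorem c5_12403_11 : treeOK par5 [[4, 0, 1, 3, 2], [3, 0, 1, 4, 2], [1, 2, 4, 3, 0], [1, 4, 2, 3, 0], [1, 2, 4, 0, 3], [3, 0, 4, 1, 2], [1, 3, 4, 0, 2], [3, 0, 4, 2, 1], [1, 4, 3, 0, 2], [2, 0, 3, 4, 1], [1, 4, 0, 2, 3]]
    (gold1 par5 (rows0 5 [4, 1, 3, 2, 0])) (rows0 5 [4, 1, 3, 2, 0])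
    (.N (.Y) (.Y))
    [] (rows0 5 [4, 1, 3, 2, 0]) = true := by decide +kernel

theorem c5_12403_12 : treeOK par5 [[4, 1, 3, 2, 0], [4, 0, 1, 3, 2], [3, 0, 1, 4, 2], [1, 2, 4, 3, 0], [1, 4, 2, 3, 0], [1, 2, 4, 0, 3], [3, 0, 4, 1, 2], [1, 3, 4, 0, 2], [3, 0, 4, 2, 1], [1, 4, 3, 0, 2], [2, 0, 3, 4, 1], [1, 4, 0, 2, 3]]
    (gold1 par5 (rows0 5 [3, 4, 2, 1, 0])) (rows0 5 [3, 4, 2, 1, 0])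
    (.N (.N (.N (.F ⟨⟨0,5,0,0,1,1,1⟩,[]⟩) (.N (.N (.N (.N (.F ⟨⟨3,5,0,1,2,1,1⟩,[(3,19)]⟩) (.F ⟨⟨6,5,0,0,0,1,1⟩,[(2,19),(3,19)]⟩)) (.Y)) (.N (.Y) (.N (.N (.F ⟨⟨0,5,0,0,1,2,2⟩,[(2,19),(3,19)]⟩) (.F ⟨⟨7,5,0,0,0,1,1⟩,[(1,19)]⟩)) (.N (.F ⟨⟨7,5,0,0,1,1,1⟩,[(1,19)]⟩) (.F ⟨⟨4,5,1,0,0,1,1⟩,[]⟩))))) (.F ⟨⟨2,5,0,0,0,1,1⟩,[(2,19),(3,19)]⟩))) (.N (.N (.N (.N (.F ⟨⟨2,5,0,1,2,1,1⟩,[(3,19)]⟩) (.Y)) (.Y)) (.F ⟨⟨3,5,0,0,0,1,1⟩,[(2,19),(3,19)]⟩)) (.N (.F ⟨⟨3,5,0,0,1,1,1⟩,[(2,19),(3,19)]⟩) (.F ⟨⟨1,5,0,0,0,1,1⟩,[(1,19)]⟩)))) (.Y))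
    [] (rows0 5 [3, 4, 2, 1, 0]) = true := by decide +kernel

theorem c5_12403_13 : treeOK par5 [[3, 4, 2, 1, 0], [4, 1, 3, 2, 0], [4, 0, 1, 3, 2], [3, 0, 1, 4, 2], [1, 2, 4, 3, 0], [1, 4, 2, 3, 0], [1, 2, 4, 0, 3], [3, 0, 4, 1, 2], [1, 3, 4, 0, 2], [3, 0, 4, 2, 1], [1, 4, 3, 0, 2], [2, 0, 3, 4, 1], [1, 4, 0, 2, 3]]
    (gold1 par5 (rows0 5 [2, 3, 1, 4, 0])) (rows0 5 [2, 3, 1, 4, 0])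
    (.N (.F ⟨⟨0,5,0,0,1,1,1⟩,[]⟩) (.Y))
    [] (rows0 5 [2, 3, 1, 4, 0]) = true := by decide +kernel

theorem c5_12403_14 : treeOK par5 [[2, 3, 1, 4, 0], [3, 4, 2, 1, 0], [4, 1, 3, 2, 0], [4, 0, 1, 3, 2], [3, 0, 1, 4, 2], [1, 2, 4, 3, 0], [1, 4, 2, 3, 0], [1, 2, 4, 0, 3], [3, 0, 4, 1, 2], [1, 3, 4, 0, 2], [3, 0, 4, 2, 1], [1, 4, 3, 0, 2], [2, 0, 3, 4, 1], [1, 4, 0, 2, 3]]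
    (gold1 par5 (rows0 5 [3, 4, 1, 0, 2])) (rows0 5 [3, 4, 1, 0, 2])
    (.N (.Y) (.N (.N (.N (.N (.F ⟨⟨1,5,0,1,2,1,1⟩,[(3,19)]⟩) (.F ⟨⟨4,5,0,0,0,1,1⟩,[(0,-19),(1,-19)]⟩)) (.Y)) (.N (.Y) (.N (.N (.N (.F ⟨⟨4,5,0,0,1,1,1⟩,[(0,-19),(1,-19),(3,19)]⟩) (.N (.N (.F ⟨⟨7,5,0,0,1,1,1⟩,[(1,19),(3,19)]⟩) (.F ⟨⟨1,5,1,1,3,2,2⟩,[(3,19)]⟩)) (.N (.Y) (.F ⟨⟨6,5,0,0,0,1,1⟩,[(0,-19),(1,-19)]⟩)))) (.F ⟨⟨5,5,0,0,0,1,1⟩,[(1,19)]⟩)) (.N (.F ⟨⟨5,5,0,0,1,1,1⟩,[(1,19)]⟩) (.F ⟨⟨2,5,1,0,0,1,1⟩,[]⟩))))) (.F ⟨⟨0,5,0,0,0,1,1⟩,[(0,-19),(1,-19)]⟩)))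
    [] (rows0 5 [3, 4, 1, 0, 2]) = true := by decide +kernel

theorem c5_12403_15 : treeOK par5 [[3, 4, 1, 0, 2], [2, 3, 1, 4, 0], [3, 4, 2, 1, 0], [4, 1, 3, 2, 0], [4, 0, 1, 3, 2], [3, 0, 1, 4, 2], [1, 2, 4, 3, 0], [1, 4, 2, 3, 0], [1, 2, 4, 0, 3], [3, 0, 4, 1, 2], [1, 3, 4, 0, 2], [3, 0, 4, 2, 1], [1, 4, 3, 0, 2], [2, 0, 3, 4, 1], [1, 4, 0, 2, 3]]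
    (gold1 par5 (rows0 5 [2, 3, 0, 4, 1])) (rows0 5 [2, 3, 0, 4, 1])
    (.N (.F ⟨⟨0,5,0,0,1,1,1⟩,[]⟩) (.N (.Y) (.N (.N (.N (.N (.F ⟨⟨2,5,0,1,2,1,1⟩,[(2,19),(3,19)]⟩) (.Y)) (.Y)) (.F ⟨⟨3,5,0,0,0,1,1⟩,[(0,-19)]⟩)) (.F ⟨⟨0,5,0,0,0,1,1⟩,[]⟩))))
    [] (rows0 5 [2, 3, 0, 4, 1]) = true := by decide +kernel

theorem c5_12403_16 : treeOK par5 [[2, 3, 0, 4, 1], [3, 4, 1, 0, 2], [2, 3, 1, 4, 0], [3, 4, 2, 1, 0], [4, 1, 3, 2, 0], [4, 0, 1, 3, 2], [3, 0, 1, 4, 2], [1, 2, 4, 3, 0], [1, 4, 2, 3, 0], [1, 2, 4, 0, 3], [3, 0, 4, 1, 2], [1, 3, 4, 0, 2], [3, 0, 4, 2, 1], [1, 4, 3, 0, 2], [2, 0, 3, 4, 1], [1, 4, 0, 2, 3]]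
    (gold1 par5 (rows0 5 [3, 4, 0, 2, 1])) (rows0 5 [3, 4, 0, 2, 1])
    (.N (.Y) (.N (.N (.N (.N (.F ⟨⟨1,5,0,1,2,1,1⟩,[(3,19)]⟩) (.Y)) (.Y)) (.F ⟨⟨2,5,0,0,0,1,1⟩,[(2,19),(3,19)]⟩)) (.Y)))
    [] (rows0 5 [3, 4, 0, 2, 1]) = true := by decide +kernel

theorem c5_12403_17 : treeOK par5 [[3, 4, 0, 2, 1], [2, 3, 0, 4, 1], [3, 4, 1, 0, 2], [2, 3, 1, 4, 0], [3, 4, 2, 1, 0], [4, 1, 3, 2, 0], [4, 0, 1, 3, 2], [3, 0, 1, 4, 2], [1, 2, 4, 3, 0], [1, 4, 2, 3, 0], [1, 2, 4, 0, 3], [3, 0, 4, 1, 2], [1, 3, 4, 0, 2], [3, 0, 4, 2, 1], [1, 4, 3, 0, 2], [2, 0, 3, 4, 1], [1, 4, 0, 2, 3]]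
    (gold1 par5 (rows0 5 [4, 0, 3, 1, 2])) (rows0 5 [4, 0, 3, 1, 2])
    (.N (.N (.N (.N (.F ⟨⟨0,5,0,1,2,1,1⟩,[]⟩) (.Y)) (.F ⟨⟨2,5,0,0,0,1,1⟩,[(3,19)]⟩)) (.Y)) (.Y))
    [] (rows0 5 [4, 0, 3, 1, 2]) = true := by decide +kernel

theorem c5_12403_18 : treeOK par5 [[4, 0, 3, 1, 2], [3, 4, 0, 2, 1], [2, 3, 0, 4, 1], [3, 4, 1, 0, 2], [2, 3, 1, 4, 0], [3, 4, 2, 1, 0], [4, 1, 3, 2, 0], [4, 0, 1, 3, 2], [3, 0, 1, 4, 2], [1, 2, 4, 3, 0], [1, 4, 2, 3, 0], [1, 2, 4, 0, 3], [3, 0, 4, 1, 2], [1, 3, 4, 0, 2], [3, 0, 4, 2, 1], [1, 4, 3, 0, 2], [2, 0, 3, 4, 1], [1, 4, 0, 2, 3]]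
    (gold1 par5 (rows0 5 [4, 3, 1, 2, 0])) (rows0 5 [4, 3, 1, 2, 0])
    (.N (.Y) (.Y))
    [] (rows0 5 [4, 3, 1, 2, 0]) = true := by decide +kernel

theorem c5_12403_19 : treeOK par5 [[4, 3, 1, 2, 0], [4, 0, 3, 1, 2], [3, 4, 0, 2, 1], [2, 3, 0, 4, 1], [3, 4, 1, 0, 2], [2, 3, 1, 4, 0], [3, 4, 2, 1, 0], [4, 1, 3, 2, 0], [4, 0, 1, 3, 2], [3, 0, 1, 4, 2], [1, 2, 4, 3, 0], [1, 4, 2, 3, 0], [1, 2, 4, 0, 3], [3, 0, 4, 1, 2], [1, 3, 4, 0, 2], [3, 0, 4, 2, 1], [1, 4, 3, 0, 2], [2, 0, 3, 4, 1], [1, 4, 0, 2, 3]]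
    (gold1 par5 (rows0 5 [4, 1, 2, 0, 3])) (rows0 5 [4, 1, 2, 0, 3])
    (.N (.Y) (.F ⟨⟨0,5,0,0,0,1,1⟩,[(0,-19),(1,-19),(2,-19)]⟩))
    [] (rows0 5 [4, 1, 2, 0, 3]) = true := by decide +kernel

theorem c5_12403_20 : treeOK par5 [[4, 1, 2, 0, 3], [4, 3, 1, 2, 0], [4, 0, 3, 1, 2], [3, 4, 0, 2, 1], [2, 3, 0, 4, 1], [3, 4, 1, 0, 2], [2, 3, 1, 4, 0], [3, 4, 2, 1, 0], [4, 1, 3, 2, 0], [4, 0, 1, 3, 2], [3, 0, 1, 4, 2], [1, 2, 4, 3, 0], [1, 4, 2, 3, 0], [1, 2, 4, 0, 3], [3, 0, 4, 1, 2], [1, 3, 4, 0, 2], [3, 0, 4, 2, 1], [1, 4, 3, 0, 2], [2, 0, 3, 4, 1], [1, 4, 0, 2, 3]]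
    (gold1 par5 (rows0 5 [4, 2, 0, 3, 1])) (rows0 5 [4, 2, 0, 3, 1])
    (.N (.Y) (.Y))
    [] (rows0 5 [4, 2, 0, 3, 1]) = true := by decide +kernel

theorem c5_12403_21 : treeOK par5 [[4, 2, 0, 3, 1], [4, 1, 2, 0, 3], [4, 3, 1, 2, 0], [4, 0, 3, 1, 2], [3, 4, 0, 2, 1], [2, 3, 0, 4, 1], [3, 4, 1, 0, 2], [2, 3, 1, 4, 0], [3, 4, 2, 1, 0], [4, 1, 3, 2, 0], [4, 0, 1, 3, 2], [3, 0, 1, 4, 2], [1, 2, 4, 3, 0], [1, 4, 2, 3, 0], [1, 2, 4, 0, 3], [3, 0, 4, 1, 2], [1, 3, 4, 0, 2], [3, 0, 4, 2, 1], [1, 4, 3, 0, 2], [2, 0, 3, 4, 1], [1, 4, 0, 2, 3]]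
    (gold1 par5 (rows0 5 [3, 2, 4, 1, 0])) (rows0 5 [3, 2, 4, 1, 0])
    (.N (.N (.F ⟨⟨0,5,0,0,1,1,1⟩,[]⟩) (.N (.Y) (.N (.N (.N (.F ⟨⟨3,5,0,0,1,1,1⟩,[(2,19),(3,19)]⟩) (.F ⟨⟨5,5,0,0,0,1,1⟩,[(1,19),(2,19),(3,19)]⟩)) (.N (.F ⟨⟨5,5,0,0,1,1,1⟩,[(1,19),(2,19),(3,19)]⟩) (.N (.F ⟨⟨0,5,0,0,1,2,2⟩,[(1,19),(2,19),(3,19)]⟩) (.N (.Y) (.F ⟨⟨4,5,1,0,0,1,1⟩,[]⟩))))) (.F ⟨⟨1,5,0,0,0,1,1⟩,[(1,19),(2,19),(3,19)]⟩)))) (.Y))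
    [] (rows0 5 [3, 2, 4, 1, 0]) = true := by decide +kernel

theorem c5_12403_22 : treeOK par5 [[3, 2, 4, 1, 0], [4, 2, 0, 3, 1], [4, 1, 2, 0, 3], [4, 3, 1, 2, 0], [4, 0, 3, 1, 2], [3, 4, 0, 2, 1], [2, 3, 0, 4, 1], [3, 4, 1, 0, 2], [2, 3, 1, 4, 0], [3, 4, 2, 1, 0], [4, 1, 3, 2, 0], [4, 0, 1, 3, 2], [3, 0, 1, 4, 2], [1, 2, 4, 3, 0], [1, 4, 2, 3, 0], [1, 2, 4, 0, 3], [3, 0, 4, 1, 2], [1, 3, 4, 0, 2], [3, 0, 4, 2, 1], [1, 4, 3, 0, 2], [2, 0, 3, 4, 1], [1, 4, 0, 2, 3]]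
    (gold1 par5 (rows0 5 [2, 1, 3, 4, 0])) (rows0 5 [2, 1, 3, 4, 0])
    (.N (.F ⟨⟨0,5,0,0,1,1,1⟩,[]⟩) (.Y))
    [] (rows0 5 [2, 1, 3, 4, 0]) = true := by decide +kernel

theorem c5_12403_23 : treeOK par5 [[2, 1, 3, 4, 0], [3, 2, 4, 1, 0], [4, 2, 0, 3, 1], [4, 1, 2, 0, 3], [4, 3, 1, 2, 0], [4, 0, 3, 1, 2], [3, 4, 0, 2, 1], [2, 3, 0, 4, 1], [3, 4, 1, 0, 2], [2, 3, 1, 4, 0], [3, 4, 2, 1, 0], [4, 1, 3, 2, 0], [4, 0, 1, 3, 2], [3, 0, 1, 4, 2], [1, 2, 4, 3, 0], [1, 4, 2, 3, 0], [1, 2, 4, 0, 3], [3, 0, 4, 1, 2], [1, 3, 4, 0, 2], [3, 0, 4, 2, 1], [1, 4, 3, 0, 2], [2, 0, 3, 4, 1], [1, 4, 0, 2, 3]]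
    (gold1 par5 (rows0 5 [1, 3, 4, 2, 0])) (rows0 5 [1, 3, 4, 2, 0])
    (.N (.Y) (.N (.N (.N (.F ⟨⟨1,5,0,0,1,1,1⟩,[(3,19)]⟩) (.N (.Y) (.N (.Y) (.F ⟨⟨3,5,0,0,0,1,1⟩,[]⟩)))) (.F ⟨⟨2,5,0,0,0,1,1⟩,[(2,19)]⟩)) (.N (.F ⟨⟨2,5,0,0,1,1,1⟩,[(2,19)]⟩) (.N (.N (.N (.N (.F ⟨⟨3,5,0,1,2,1,1⟩,[(1,19)]⟩) (.Y)) (.F ⟨⟨5,5,0,0,0,1,1⟩,[]⟩)) (.Y)) (.F ⟨⟨0,5,1,0,0,1,1⟩,[]⟩)))))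
    [] (rows0 5 [1, 3, 4, 2, 0]) = true := by decide +kernel

theorem c5_12403_24 : treeOK par5 [[1, 3, 4, 2, 0], [2, 1, 3, 4, 0], [3, 2, 4, 1, 0], [4, 2, 0, 3, 1], [4, 1, 2, 0, 3], [4, 3, 1, 2, 0], [4, 0, 3, 1, 2], [3, 4, 0, 2, 1], [2, 3, 0, 4, 1], [3, 4, 1, 0, 2], [2, 3, 1, 4, 0], [3, 4, 2, 1, 0], [4, 1, 3, 2, 0], [4, 0, 1, 3, 2], [3, 0, 1, 4, 2], [1, 2, 4, 3, 0], [1, 4, 2, 3, 0], [1, 2, 4, 0, 3], [3, 0, 4, 1, 2], [1, 3, 4, 0, 2], [3, 0, 4, 2, 1], [1, 4, 3, 0, 2], [2, 0, 3, 4, 1], [1, 4, 0, 2, 3]]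
    (gold1 par5 (rows0 5 [4, 0, 2, 3, 1])) (rows0 5 [4, 0, 2, 3, 1])
    (.N (.N (.N (.N (.F ⟨⟨0,5,0,1,2,1,1⟩,[]⟩) (.Y)) (.Y)) (.F ⟨⟨1,5,0,0,0,1,1⟩,[(3,19)]⟩)) (.Y))
    [] (rows0 5 [4, 0, 2, 3, 1]) = true := by decide +kernel

theorem c5_12403_25 : treeOK par5 [[4, 0, 2, 3, 1], [1, 3, 4, 2, 0], [2, 1, 3, 4, 0], [3, 2, 4, 1, 0], [4, 2, 0, 3, 1], [4, 1, 2, 0, 3], [4, 3, 1, 2, 0], [4, 0, 3, 1, 2], [3, 4, 0, 2, 1], [2, 3, 0, 4, 1], [3, 4, 1, 0, 2], [2, 3, 1, 4, 0], [3, 4, 2, 1, 0], [4, 1, 3, 2, 0], [4, 0, 1, 3, 2], [3, 0, 1, 4, 2], [1, 2, 4, 3, 0], [1, 4, 2, 3, 0], [1, 2, 4, 0, 3], [3, 0, 4, 1, 2], [1, 3, 4, 0, 2], [3, 0, 4, 2, 1], [1, 4, 3, 0,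 2], [2, 0, 3, 4, 1], [1, 4, 0, 2, 3]]
    (gold1 par5 (rows0 5 [4, 2, 3, 1, 0])) (rows0 5 [4, 2, 3, 1, 0])
    (.N (.Y) (.Y))
    [] (rows0 5 [4, 2, 3, 1, 0]) = true := by decide +kernel

theorem c5_12403_26 : treeOK par5 [[4, 2, 3, 1, 0], [4, 0, 2, 3, 1], [1, 3, 4, 2, 0], [2, 1, 3, 4, 0], [3, 2, 4, 1, 0], [4, 2, 0, 3, 1], [4, 1, 2, 0, 3], [4, 3, 1, 2, 0], [4, 0, 3, 1, 2], [3, 4, 0, 2, 1], [2, 3, 0, 4, 1], [3, 4, 1, 0, 2], [2, 3, 1, 4, 0], [3, 4, 2, 1, 0], [4, 1, 3, 2, 0], [4, 0, 1, 3, 2], [3, 0, 1, 4, 2], [1, 2, 4, 3, 0], [1, 4, 2, 3, 0], [1, 2, 4, 0, 3], [3, 0, 4, 1, 2], [1, 3, 4, 0, 2], [3, 0, 4, 2, 1], [1, 4, 3, 0, 2], [2, 0, 3, 4, 1],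 [1, 4, 0, 2, 3]]
    (gold1 par5 (rows0 5 [4, 3, 1, 0, 2])) (rows0 5 [4, 3, 1, 0, 2])
    (.N (.Y) (.Y))
    [] (rows0 5 [4, 3, 1, 0, 2]) = true := by decide +kernel

theorem c5_12403_27 : treeOK par5 [[4, 3, 1, 0, 2], [4, 2, 3, 1, 0], [4, 0, 2, 3, 1], [1, 3, 4, 2, 0], [2, 1, 3, 4, 0], [3, 2, 4, 1, 0], [4, 2, 0, 3, 1], [4, 1, 2, 0, 3], [4, 3, 1, 2, 0], [4, 0, 3, 1, 2], [3, 4, 0, 2, 1], [2, 3, 0, 4, 1], [3, 4, 1, 0, 2], [2, 3, 1, 4, 0], [3, 4, 2, 1, 0], [4, 1, 3, 2, 0], [4, 0, 1, 3, 2], [3, 0, 1, 4, 2], [1, 2, 4, 3, 0], [1, 4, 2, 3, 0], [1, 2, 4, 0, 3], [3, 0, 4, 1, 2], [1, 3, 4, 0, 2], [3, 0, 4, 2, 1], [1, 4, 3, 0, 2], [2, 0, 3, 4, 1], [1,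 4, 0, 2, 3]]
    (gold1 par5 (rows0 5 [3, 1, 2, 4, 0])) (rows0 5 [3, 1, 2, 4, 0])
    (.N (.F ⟨⟨0,5,0,0,1,1,1⟩,[]⟩) (.Y))
    [] (rows0 5 [3, 1, 2, 4, 0]) = true := by decide +kernel

theorem c5_12403_28 : treeOK par5 [[3, 1, 2, 4, 0], [4, 3, 1, 0, 2], [4, 2, 3, 1, 0], [4, 0, 2, 3, 1], [1, 3, 4, 2, 0], [2, 1, 3, 4, 0], [3, 2, 4, 1, 0], [4, 2, 0, 3, 1], [4, 1, 2, 0, 3], [4, 3, 1, 2, 0], [4, 0, 3, 1, 2], [3, 4, 0, 2, 1], [2, 3, 0, 4, 1], [3, 4, 1, 0, 2], [2, 3, 1, 4, 0], [3, 4, 2, 1, 0], [4, 1, 3, 2, 0], [4, 0, 1, 3, 2], [3, 0, 1, 4, 2], [1, 2, 4, 3, 0], [1, 4, 2, 3, 0], [1, 2, 4, 0, 3], [3, 0, 4, 1, 2], [1, 3, 4, 0, 2], [3, 0, 4, 2, 1], [1,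 4, 3, 0, 2], [2, 0, 3, 4, 1], [1, 4, 0, 2, 3]]
    (gold1 par5 (rows0 5 [4, 1, 0, 2, 3])) (rows0 5 [4, 1, 0, 2, 3])
    (.N (.Y) (.F ⟨⟨0,5,0,0,0,1,1⟩,[(0,-19),(1,-19),(2,-19)]⟩))
    [] (rows0 5 [4, 1, 0, 2, 3]) = true := by decide +kernel

theorem c5_12403_29 : treeOK par5 [[4, 1, 0, 2, 3], [3, 1, 2, 4, 0], [4, 3, 1, 0, 2], [4, 2, 3, 1, 0], [4, 0, 2, 3, 1], [1, 3, 4, 2, 0], [2, 1, 3, 4, 0], [3, 2, 4, 1, 0], [4, 2, 0, 3, 1], [4, 1, 2, 0, 3], [4, 3, 1, 2, 0], [4, 0, 3, 1, 2], [3, 4, 0, 2, 1], [2, 3, 0, 4, 1], [3, 4, 1, 0, 2], [2, 3, 1, 4, 0], [3, 4, 2, 1, 0], [4, 1, 3, 2, 0], [4, 0, 1, 3, 2], [3, 0, 1, 4, 2], [1, 2, 4, 3, 0], [1, 4, 2, 3, 0],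 [1, 2, 4, 0, 3], [3, 0, 4, 1, 2], [1, 3, 4, 0, 2], [3, 0, 4, 2, 1], [1, 4, 3, 0, 2], [2, 0, 3, 4, 1], [1, 4, 0, 2, 3]]
    (gold1 par5 (rows0 5 [2, 4, 0, 1, 3])) (rows0 5 [2, 4, 0, 1, 3])
    (.N (.N (.N (.F ⟨⟨0,5,0,0,1,1,1⟩,[]⟩) (.Y)) (.N (.Y) (.N (.Y) (.F ⟨⟨1,5,0,0,0,1,1⟩,[(0,-19)]⟩)))) (.F ⟨⟨0,5,0,0,0,1,1⟩,[]⟩))
    [] (rows0 5 [2, 4, 0, 1, 3]) = true := by decide +kernel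

theorem c5_12403_30 : treeOK par5 [[2, 4, 0, 1, 3], [4, 1, 0, 2, 3], [3, 1, 2, 4, 0], [4, 3, 1, 0, 2], [4, 2, 3, 1, 0], [4, 0, 2, 3, 1], [1, 3, 4, 2, 0], [2, 1, 3, 4, 0], [3, 2, 4, 1, 0], [4, 2, 0, 3, 1], [4, 1, 2, 0, 3], [4, 3, 1, 2, 0], [4, 0, 3, 1, 2], [3, 4, 0, 2, 1], [2, 3, 0, 4, 1], [3, 4, 1, 0, 2], [2, 3, 1, 4, 0], [3, 4, 2, 1, 0], [4, 1, 3, 2, 0], [4, 0, 1, 3, 2], [3, 0, 1, 4, 2], [1, 2, 4, 3, 0], [1, 4, 2, 3, 0], [1, 2, 4, 0, 3], [3, 0, 4, 1, 2], [1, 3, 4, 0, 2], [3, 0, 4, 2, 1], [1, 4, 3, 0, 2], [2, 0, 3, 4, 1], [1, 4, 0, 2, 3]]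
    (gold1 par5 (rows0 5 [2, 4, 1, 3, 0])) (rows0 5 [2, 4, 1, 3, 0])
    (.N (.Y) (.Y))
    [] (rows0 5 [2, 4, 1, 3, 0]) = true := by decide +kernel

theorem c5_12403_31 : treeOK par5 [[2, 4, 1, 3, 0], [2, 4, 0, 1, 3], [4, 1, 0, 2, 3], [3, 1, 2, 4, 0], [4, 3, 1, 0, 2], [4, 2, 3, 1, 0], [4, 0, 2, 3, 1], [1, 3, 4, 2, 0], [2, 1, 3, 4, 0], [3, 2, 4, 1, 0], [4, 2, 0, 3, 1], [4, 1, 2, 0, 3], [4, 3, 1, 2, 0], [4, 0, 3, 1, 2], [3, 4, 0, 2, 1], [2, 3, 0, 4, 1], [3, 4, 1, 0, 2], [2, 3, 1, 4, 0], [3, 4, 2, 1, 0], [4, 1, 3, 2, 0], [4, 0, 1, 3, 2], [3, 0, 1, 4, 2], [1, 2, 4, 3, 0], [1, 4, 2, 3, 0], [1, 2, 4, 0, 3], [3, 0, 4, 1, 2], [1, 3, 4, 0, 2], [3,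 0, 4, 2, 1], [1, 4, 3, 0, 2], [2, 0, 3, 4, 1], [1, 4, 0, 2, 3]]
    (gold1 par5 (rows0 5 [2, 4, 3, 0, 1])) (rows0 5 [2, 4, 3, 0, 1])
    (.N (.Y) (.N (.Y) (.N (.Y) (.F ⟨⟨0,5,0,0,0,1,1⟩,[(0,-19)]⟩))))
    [] (rows0 5 [2, 4, 3, 0, 1]) = true := by decide +kernel

theorem c5_12403_32 : treeOK par5 [[2, 4, 3, 0, 1], [2, 4, 1, 3, 0], [2, 4, 0, 1, 3], [4, 1, 0, 2, 3], [3, 1, 2, 4, 0], [4, 3, 1, 0, 2], [4, 2, 3, 1, 0], [4, 0, 2, 3, 1], [1, 3, 4, 2, 0], [2, 1, 3, 4, 0], [3, 2, 4, 1, 0], [4, 2, 0, 3, 1], [4, 1, 2, 0, 3], [4, 3, 1, 2, 0], [4, 0, 3, 1, 2], [3, 4, 0, 2, 1], [2, 3, 0, 4, 1], [3, 4, 1, 0, 2], [2, 3, 1, 4, 0], [3, 4, 2, 1, 0], [4, 1, 3, 2,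 0], [4, 0, 1, 3, 2], [3, 0, 1, 4, 2], [1, 2, 4, 3, 0], [1, 4, 2, 3, 0], [1, 2, 4, 0, 3], [3, 0, 4, 1, 2], [1, 3, 4, 0, 2], [3, 0, 4, 2, 1], [1, 4, 3, 0, 2], [2, 0, 3, 4, 1], [1, 4, 0, 2, 3]]
    (gold1 par5 (rows0 5 [3, 2, 4, 0, 1])) (rows0 5 [3, 2, 4, 0, 1])
    (.N (.Y) (.N (.Y) (.Y)))
    [] (rows0 5 [3, 2, 4, 0, 1]) = true := by decide +kernel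

theorem c5_12403_33 : treeOK par5 [[3, 2, 4, 0, 1], [2, 4, 3, 0, 1], [2, 4, 1, 3, 0], [2, 4, 0, 1, 3], [4, 1, 0, 2, 3], [3, 1, 2, 4, 0], [4, 3, 1, 0, 2], [4, 2, 3, 1, 0], [4, 0, 2, 3, 1], [1, 3, 4, 2, 0], [2, 1, 3, 4, 0], [3, 2, 4, 1, 0], [4, 2, 0, 3, 1], [4, 1, 2, 0, 3], [4, 3, 1, 2, 0], [4, 0, 3, 1, 2], [3, 4, 0, 2, 1], [2, 3, 0, 4, 1], [3, 4, 1, 0, 2], [2, 3, 1, 4, 0], [3, 4, 2, 1, 0], [4, 1, 3, 2, 0], [4, 0, 1, 3, 2], [3, 0, 1, 4, 2], [1, 2, 4, 3, 0], [1, 4, 2, 3, 0], [1, 2, 4, 0, 3], [3, 0, 4, 1, 2], [1, 3, 4, 0, 2], [3, 0, 4, 2, 1], [1, 4, 3, 0, 2], [2, 0, 3, 4, 1], [1, 4, 0, 2, 3]]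
    (gold1 par5 (rows0 5 [4, 3, 2, 0, 1])) (rows0 5 [4, 3, 2, 0, 1])
    (.N (.Y) (.Y))
    [] (rows0 5 [4, 3, 2, 0, 1]) = true := by decide +kernel

theorem c5_12403_34 : treeOK par5 [[4, 3, 2, 0, 1], [3, 2, 4, 0, 1], [2, 4, 3, 0, 1], [2, 4, 1, 3, 0], [2, 4, 0, 1, 3], [4, 1, 0, 2, 3], [3, 1, 2, 4, 0], [4, 3, 1, 0, 2], [4, 2, 3, 1, 0], [4, 0, 2, 3, 1], [1, 3, 4, 2, 0], [2, 1, 3, 4, 0], [3, 2, 4, 1, 0], [4, 2, 0, 3, 1], [4, 1, 2, 0, 3], [4, 3, 1, 2, 0], [4, 0, 3, 1, 2], [3, 4, 0, 2, 1], [2, 3, 0, 4, 1], [3, 4, 1, 0, 2], [2, 3, 1, 4, 0], [3, 4, 2, 1, 0], [4, 1, 3, 2, 0], [4, 0, 1, 3, 2], [3, 0, 1, 4, 2], [1, 2, 4, 3, 0], [1, 4, 2, 3, 0], [1,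 2, 4, 0, 3], [3, 0, 4, 1, 2], [1, 3, 4, 0, 2], [3, 0, 4, 2, 1], [1, 4, 3, 0, 2], [2, 0, 3, 4, 1], [1, 4, 0, 2, 3]]
    (gold1 par5 (rows0 5 [4, 2, 0, 1, 3])) (rows0 5 [4, 2, 0, 1, 3])
    (.N (.Y) (.F ⟨⟨0,5,0,0,0,1,1⟩,[(0,-19),(1,-19),(2,-19)]⟩))
    [] (rows0 5 [4, 2, 0, 1, 3]) = true := by decide +kernel

end Pool.Agent.RTX
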