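import Pool.Agent.RTX.C5_13042
import Pool.Agent.RTX.C5_13240
import Pool.Agent.RTX.C5_12403
import Pool.Agent.RTX.C5_12340

/-!
# RTX: the certified lists of vertices (par5)
-/

set_option autoImplicit false
set_option maxRecDepth 100000

namespace Pool.Agent.RTX

/-- certified vertices -/
def L_c5_13042 : List (List ℕ) :=
  [[2, 1, 4, 3, 0], [2, 1, 4, 0, 3], [4, 2, 1, 0, 3], [4, 1, 0, 3, 2], [3, 2, 1, 4, 0], [3, 0, 2, 4, 1], [4, 3, 2, 1, 0], [4, 0, 3, 2, 1], [3, 1, 0, 4, 2], [1, 4, 3, 2, 0], [2, 0, 4, 3, 1], [2, 0, 4, 1, 3], [1, 4, 2, 0, 3], [1, 4, 0, 3, 2], [1, 3, 0, 4, 2]]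

theorem cfd_c5_13042 : Cfd par5 L_c5_13042 :=
  (Cfd.cons _ _ _ (Cfd.cons _ _ _ (Cfd.cons _ _ _ (Cfd.cons _ _ _ (Cfd.cons _ _ _ (Cfd.cons _ _ _ (Cfd.cons _ _ _ (Cfd.cons _ _ _ (Cfd.cons _ _ _ (Cfd.cons _ _ _ (Cfd.cons _ _ _ (Cfd.cons _ _ _ (Cfd.cons _ _ _ (Cfd.cons _ _ _ (Cfd.cons _ _ _ (Cfd.nil) c5_13042_0) c5_13042_1) c5_13042_2) c5_13042_3) c5_13042_4) c5_13042_5) c5_13042_6) c5_13042_7) c5_13042_8) c5_13042_9) c5_13042_10) c5_13042_11) c5_13042_12) c5_13042_13) c5_13042_14)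

/-- certified vertices -/
def L_c5_13240 : List (List ℕ) :=
  [[4, 3, 0, 2, 1], [4, 1, 3, 0, 2], [3, 1, 4, 2, 0], [3, 1, 4, 0, 2], [2, 4, 3, 1, 0], [4, 2, 1, 3, 0], [4, 0, 2, 1, 3], [3, 2, 0, 4, 1], [1, 3, 2, 4, 0], [2, 4, 0, 3, 1], [2, 4, 1, 0, 3]]

theorem cfd_c5_13240 : Cfd par5 L_c5_13240 :=
  (Cfd.cons _ _ _ (Cfd.cons _ _ _ (Cfd.cons _ _ _ (Cfd.cons _ _ _ (Cfd.cons _ _ _ (Cfd.cons _ _ _ (Cfd.cons _ _ _ (Cfd.cons _ _ _ (Cfd.cons _ _ _ (Cfd.cons _ _ _ (Cfd.cons _ _ _ (Cfd.nil) c5_13240_0) c5_13240_1) c5_13240_2) c5_13240_3) c5_13240_4) c5_13240_5) c5_13240_6) c5_13240_7) c5_13240_8) c5_13240_9) c5_13240_10)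

/-- certified vertices -/
def L_c5_12403 : List (List ℕ) :=
  [[4, 2, 0, 1, 3], [4, 3, 2, 0, 1], [3, 2, 4, 0, 1], [2, 4, 3, 0, 1], [2, 4, 1, 3, 0], [2, 4, 0, 1, 3], [4, 1, 0, 2, 3], [3, 1, 2, 4, 0], [4, 3, 1, 0, 2], [4, 2, 3, 1, 0], [4, 0, 2, 3, 1], [1, 3, 4, 2, 0], [2, 1, 3, 4, 0], [3, 2, 4, 1, 0], [4, 2, 0, 3, 1], [4, 1, 2, 0, 3], [4, 3, 1, 2, 0], [4, 0, 3, 1, 2], [3, 4, 0, 2, 1], [2, 3, 0, 4, 1], [3, 4, 1, 0, 2], [2, 3, 1, 4, 0], [3, 4, 2, 1, 0], [4, 1, 3, 2, 0], [4, 0, 1, 3, 2], [3, 0, 1, 4, 2], [1, 2, 4, 3, 0], [1, 4, 2, 3, 0], [1, 2, 4, 0, 3], [3, 0, 4, 1, 2], [1, 3, 4, 0, 2], [3, 0, 4, 2, 1], [1, 4, 3, 0, 2], [2, 0, 3, 4, 1], [1, 4, 0, 2, 3]]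

theorem cfd_c5_12403 : Cfd par5 L_c5_12403 :=
  (Cfd.cons _ _ _ (Cfd.cons _ _ _ (Cfd.cons _ _ _ (Cfd.cons _ _ _ (Cfd.cons _ _ _ (Cfd.cons _ _ _ (Cfd.cons _ _ _ (Cfd.cons _ _ _ (Cfd.cons _ _ _ (Cfd.cons _ _ _ (Cfd.cons _ _ _ (Cfd.cons _ _ _ (Cfd.cons _ _ _ (Cfd.cons _ _ _ (Cfd.cons _ _ _ (Cfd.cons _ _ _ (Cfd.cons _ _ _ (Cfd.cons _ _ _ (Cfd.cons _ _ _ (Cfd.cons _ _ _ (Cfd.cons _ _ _ (Cfd.cons _ _ _ (Cfd.cons _ _ _ (Cfd.cons _ _ _ (Cfd.cons _ _ _ (Cfd.cons _ _ _ (Cfd.cons _ _ _ (Cfd.cons _ _ _ (Cfd.cons _ _ _ (Cfd.cons _ _ _ (Cfd.cons _ _ _ (Cfd.cons _ _ _ (Cfd.cons _ _ _ (Cfd.cons _ _ _ (Cfd.cons _ _ _ (Cfd.nil) c5_12403_0) c5_12403_1) c5_12403_2) c5_12403_3) c5_12403_4) c5_12403_5) c5_12403_6) c5_12403_7) c5_12403_8) c5_12403_9) c5_12403_10) c5_12403_11) c5_12403_12) c5_12403_13)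 c5_12403_14) c5_12403_15) c5_12403_16) c5_12403_17) c5_12403_18) c5_12403_19) c5_12403_20) c5_12403_21) c5_12403_22) c5_12403_23) c5_12403_24) c5_12403_25) c5_12403_26) c5_12403_27) c5_12403_28) c5_12403_29) c5_12403_30) c5_12403_31) c5_12403_32) c5_12403_33) c5_12403_34)

/-- certified vertices -/
def L_c5_12340 : List (List ℕ) :=
  [[4, 3, 0, 1, 2], [3, 4, 1, 2, 0], [3, 4, 0, 1, 2], [2, 3, 4, 1, 0], [4, 2, 3, 0, 1], [2, 3, 4, 0, 1], [3, 4, 2, 0, 1], [4, 1, 2, 3, 0], [4, 0, 1, 2, 3], [1, 2, 3, 4, 0]]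

theorem cfd_c5_12340 : Cfd par5 L_c5_12340 :=
  (Cfd.cons _ _ _ (Cfd.cons _ _ _ (Cfd.cons _ _ _ (Cfd.cons _ _ _ (Cfd.cons _ _ _ (Cfd.cons _ _ _ (Cfd.cons _ _ _ (Cfd.cons _ _ _ (Cfd.cons _ _ _ (Cfd.cons _ _ _ (Cfd.nil) c5_12340_0) c5_12340_1) c5_12340_2) c5_12340_3) c5_12340_4) c5_12340_5) c5_12340_6) c5_12340_7) c5_12340_8) c5_12340_9)

/-- all certified vertices -/
def L5 : List (List ℕ) := L_c5_13042 ++ L_c5_13240 ++ L_c5_12403 ++ L_c5_12340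

theorem cov5_ok : covOK par5.d L5 = true := by decide +kernel

end Pool.Agent.RTX
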