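import Pool.Agent.Helper44.IETGolden
import Pool.Agent.Helper28.IET3.Upper

/-!
# RTX/FibA: Fibonacci numbers and the golden rotation
-/

set_option autoImplicit false

namespace Pool.Agent.RTX

open Pool.Agent.Helper44.IET Pool.Agent.Helper28.IET3

private theorem FibA_abs (k : ℕ) : |(-al) ^ k| = al ^ k := by
  rw [abs_pow, abs_neg, abs_of_pos al_pos]

private theorem FibA_det (n : ℕ) :
    (Nat.fib n : ℤ) * Nat.fib (n + 2) - Nat.fib (n + 1) * Nat.fib (n + 1) = 1 ∨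
    (Nat.fib n : ℤ) * Nat.fib (n + 2) - Nat.fib (n + 1) * Nat.fib (n + 1) = -1 := by
  induction n with
  | zero => right; simp
  | succ n ih =>
    have e1 : (Nat.fib (n + 1 + 2) : ℤ) = Nat.fib (n + 1) + Nat.fib (n + 2) := by
      exact_mod_cast Nat.fib_add_two
    have e2 : (Nat.fib (n + 2) : ℤ) = Nat.fib n + Nat.fib (n + 1) := by
      exact_mod_cast Nat.fib_add_two
    have e3 : (Nat.fib (n + 1 + 1) : ℤ) = Nat.fib n + Nat.fib (n + 1) := e2
    rw [e1, e3]
    rw [e2] at ih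
    rcases ih with h | h
    · right; linear_combination -h
    · left; linear_combination -h

theorem fib_err (k : ℕ) : (Nat.fib (k + 1) : ℝ) * al - Nat.fib k = -(-al) ^ (k + 1) := by
  have h : ∀ n, ((Nat.fib (n + 1) : ℝ) * al - Nat.fib n = -(-al) ^ (n + 1)) ∧
      ((Nat.fib (n + 2) : ℝ) * al - Nat.fib (n + 1) = -(-al) ^ (n + 2)) := by
    intro n
    induction n with
    | zero =>
      constructor
      · simp
      · simp only [Nat.zero_add, Nat.fib_one, Nat.fib_two]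
        push_cast
        linear_combination al_sq
    | succ n ih =>
      obtain ⟨h1, h2⟩ := ih
      refine ⟨h2, ?_⟩
      have e1 : (Nat.fib (n + 1 + 2) : ℝ) = Nat.fib (n + 1) + Nat.fib (n + 2) := by
        exact_mod_cast Nat.fib_add_two
      have e2 : (Nat.fib (n + 2) : ℝ) = Nat.fib n + Nat.fib (n + 1) := by
        exact_mod_cast Nat.fib_add_two
      have e3 : (Nat.fib (n + 1 + 1) : ℝ) = Nat.fib n + Nat.fib (n + 1) := e2
      rw [e1, e3]
      have e4 : (-al) ^ (n + 1 + 2) = (-al) ^ (n + 1) * (al * al) := by ring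
      have e5 : (-al) ^ (n + 2) = (-al) ^ (n + 1) * (-al) := by ring
      rw [e5] at h2
      rw [e4, al_sq]
      linear_combination h2 + h1 - al * e2
  exact (h k).1

private noncomputable def FibA_pair (n : ℕ) : Pair al where
  q := Nat.fib (n + 1)
  p := Nat.fib n
  q' := Nat.fib (n + 2)
  p' := Nat.fib (n + 1)
  hq := Int.natCast_nonneg _
  hqq := by exact_mod_cast Nat.fib_le_fib_succ
  hq' := by
    have : 0 < Nat.fib (n + 2) := Nat.fib_pos.2 (by omega)
    exact_mod_cast this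
  det := FibA_det n
  sgn := by
    have h1 := fib_err n
    have h2 := fib_err (n + 1)
    have h3 : ((Nat.fib n : ℤ) : ℝ) - ((Nat.fib (n + 1) : ℤ) : ℝ) * al = (-al) ^ (n + 1) := by
      push_cast
      linarith
    have h4 : ((Nat.fib (n + 1) : ℤ) : ℝ) - ((Nat.fib (n + 2) : ℤ) : ℝ) * al = (-al) ^ (n + 1 + 1) := by
      push_cast
      linarith
    rw [h3, h4]
    have h5 : (-al) ^ (n + 1) * (-al) ^ (n + 1 + 1) = -(((-al) ^ (n + 1)) ^ 2 * al) := by ring
    rw [h5]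
    have h6 : (-al) ^ (n + 1) ≠ 0 := pow_ne_zero _ (by linarith [al_pos])
    have h7 := al_pos
    have h8 : 0 < ((-al) ^ (n + 1)) ^ 2 * al := by positivity
    linarith
  dec := by
    have h1 := fib_err n
    have h2 := fib_err (n + 1)
    have h3 : ((Nat.fib n : ℤ) : ℝ) - ((Nat.fib (n + 1) : ℤ) : ℝ) * al = (-al) ^ (n + 1) := by
      push_cast
      linarith
    have h4 : ((Nat.fib (n + 1) : ℤ) : ℝ) - ((Nat.fib (n + 2) : ℤ) : ℝ) * al = (-al) ^ (n + 1 + 1) := by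
      push_cast
      linarith
    rw [h3, h4, FibA_abs, FibA_abs, pow_succ al (n + 1)]
    have h5 : 0 < al ^ (n + 1) := pow_pos al_pos _
    have h6 := al_lt_one
    nlinarith
  le1 := by
    have h1 := fib_err n
    have h3 : ((Nat.fib n : ℤ) : ℝ) - ((Nat.fib (n + 1) : ℤ) : ℝ) * al = (-al) ^ (n + 1) := by
      push_cast
      linarith
    rw [h3, FibA_abs]
    exact pow_le_one₀ al_pos.le al_lt_one.le

theorem fib_best {k p : ℕ} (hp : 0 < p) (hk : p < Nat.fib (k + 1)) (m : ℤ) :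
    al ^ k ≤ |(p : ℝ) * al - m| := by
  rcases Nat.eq_zero_or_pos k with rfl | hk0
  · simp at hk
    omega
  · obtain ⟨n, rfl⟩ : ∃ n, k = n + 1 := ⟨k - 1, by omega⟩
    have h := (FibA_pair n).best p m (Or.inl (by omega)) (by
      rw [abs_of_nonneg (by omega : (0 : ℤ) ≤ p)]
      show (p : ℤ) < (Nat.fib (n + 2) : ℤ)
      exact_mod_cast hk)
    have h1 : |(FibA_pair n).x| = al ^ (n + 1) := by
      change |((Nat.fib n : ℤ) : ℝ) - ((Nat.fib (n + 1) : ℤ) : ℝ) * al| = _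
      have h2 : ((Nat.fib n : ℤ) : ℝ) - ((Nat.fib (n + 1) : ℤ) : ℝ) * al = (-al) ^ (n + 1) := by
        have := fib_err n
        push_cast
        linarith
      rw [h2, FibA_abs]
    rw [h1] at h
    push_cast at h
    rw [abs_sub_comm]
    exact h

theorem fib_block {k : ℕ} {δ : ℝ} (hδ : al ^ k ≤ δ) (w : ℝ) (s0 : ℤ) :
    ∃ s, s0 ≤ s ∧ s < s0 + Nat.fib (k + 2) ∧ Hit al δ w s := by
  have h5 := al_pos
  have e1 := fib_err k
  have e2 : (Nat.fib (k + 2) : ℝ) * al - Nat.fib (k + 1) = -(-al) ^ (k + 1 + 1) := fib_err (k + 1)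
  have hpow : 0 < al ^ k := pow_pos h5 _
  have e1' : ((Nat.fib (k + 1) : ℤ) : ℝ) * al - ((Nat.fib k : ℤ) : ℝ) = -(-al) ^ (k + 1) := by
    push_cast
    exact e1
  have e2' : ((Nat.fib (k + 2) : ℤ) : ℝ) * al - ((Nat.fib (k + 1) : ℤ) : ℝ) = -(-al) ^ (k + 1 + 1) := by
    push_cast
    exact e2
  refine hit_block (a := (Nat.fib (k + 1) : ℤ)) (b := (Nat.fib (k + 2) : ℤ)) (ga := (Nat.fib k : ℤ))
    (gb := (Nat.fib (k + 1) : ℤ)) ?_ ?_ ?_ ?_ ?_ s0
  · have : 0 < Nat.fib (k + 1) := Nat.fib_pos.2 (by omega)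
    exact_mod_cast this
  · exact_mod_cast Nat.fib_le_fib_succ
  · rw [e1', e2']
    have h4 : -(-al) ^ (k + 1) * -(-al) ^ (k + 1 + 1) = -(((-al) ^ (k + 1)) ^ 2 * al) := by ring
    rw [h4]
    have h6 : (-al) ^ (k + 1) ≠ 0 := pow_ne_zero _ (by linarith)
    have h7 : 0 < ((-al) ^ (k + 1)) ^ 2 * al := by positivity
    linarith
  · rw [e1', e2', abs_neg, abs_neg, FibA_abs, FibA_abs]
    have h7 : al ^ (k + 1) + al ^ (k + 1 + 1) = al ^ k := by
      rw [pow_succ, pow_succ]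
      linear_combination al ^ k * al_sq
    linarith
  · obtain ⟨i, _, l, hl1, hl2⟩ := orbit_dense al irrational_al w (-δ) 0 (by linarith) 0
    refine ⟨i, -l, ?_, ?_⟩ <;> push_cast <;> linarith

theorem fib_loc {p : ℕ} (hp : 0 < p) : ∃ k, 2 ≤ k ∧ Nat.fib k ≤ p ∧ p < Nat.fib (k + 1) := by
  refine ⟨Nat.greatestFib p, ?_, Nat.fib_greatestFib_le p, Nat.lt_fib_greatestFib_add_one p⟩
  rw [Nat.le_greatestFib, Nat.fib_two]
  exact hp

/-- `F (k+1) = ph F k + (-al) ^ k` -/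
theorem fib_ph (k : ℕ) : (Nat.fib (k + 1) : ℝ) ≤ ph * Nat.fib k + 1 := by
  have h1 := fib_err k
  have h2 := ph_mul_al
  have h3 : (Nat.fib (k + 1) : ℝ) = ph * Nat.fib k + (-al) ^ k := by
    have h4 : (-al) ^ (k + 1) = (-al) ^ k * (-al) := pow_succ _ _
    rw [h4] at h1
    linear_combination ph * h1 - ((Nat.fib (k + 1) : ℝ) - (-al) ^ k) * h2
  have h5 : (-al) ^ k ≤ 1 := by
    have h6 := le_abs_self ((-al) ^ k)
    rw [FibA_abs] at h6
    exact h6.trans (pow_le_one₀ al_pos.le al_lt_one.le)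
  linarith

end Pool.Agent.RTX
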