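import Pool.Agent.RTX.UG
import Pool.Agent.RTX.FibA

/-!
# RTX/U5: the upper bound for `d = 5`

Cuts `0, al/2, 1 - al, 1/2, (1 + al)/2`.  `keane5`: `Cuts.keane`; the doubled cuts `al, 2 - 2 al, 1, 1 + al` are in different classes
modulo `2 Z + 2 Z al` (`re_eq_zero`, parity).
`run5`: `fib_loc`: `F_k ≤ p < F_(k+1)`; `run_avoid` with `δ ≥ al ^ k` (`fib_best`).  The integers `s = 2 j` and `s = 2 j - 1`, `0 ≤ j < n`, i.e. all `s` from
`-1` to `2 n - 2`, are no hits `Hit al (2 δ) (2 w) s`: `2 w + 2 j al < N ≤ 2 w + 2 j al + 2 δ` means that the cut `0` (`N` even) or `1/2` (`N` odd) is in the arc;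
`2 w + (2 j - 1) al < N ≤ ...` means that `al/2` or `(1 + al)/2` is in the arc.  `k = k' + 1`, `al ^ k' ≤ 2 al ^ (k' + 1) ≤ 2 δ`, so `fib_block` gives
`2 n < F_(k'+2) = F_(k+1)`, `2 n ≤ F_(k+1) - 1 ≤ ph F_k ≤ ph p` (`fib_ph`).
-/

set_option autoImplicit false

namespace Pool.Agent.RTX

open Pool.Agent.Helper44.IET Pool.Agent.Helper28.IET3

/-- The cuts for `d = 5`. -/
noncomputable def C5 : Cuts 5 where
  g n := match n with
    | 0 => 0
    | 1 => al / 2
    | 2 => 1 - al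
    | 3 => 1 / 2
    | 4 => (1 + al) / 2
    | _ => 1
  r := 2
  mono i hi := by
    have h1 := al_gt
    have h2 := al_lt
    interval_cases i <;> simp only [] <;> linarith
  zero := rfl
  last := rfl
  hr := rfl
  hr0 := by norm_num
  hrd := by norm_num

private theorem U5_g0 : C5.g 0 = 0 := rfl
private theorem U5_g1 : C5.g 1 = al / 2 := rfl
private theorem U5_g2 : C5.g 2 = 1 - al := rfl
private theorem U5_g3 : C5.g 3 = 1 / 2 := rfl
private theorem U5_g4 : C5.g 4 = (1 + al) / 2 := rfl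
private theorem U5_g5 : C5.g 5 = 1 := rfl

private theorem U5_par {x y : ℝ} {P Q P' Q' a b : ℤ} (hx : 2 * x = P + Q * al)
    (hy : 2 * y = P' + Q' * al) (h : x - y = a + b * al) : P - P' = 2 * a ∧ Q - Q' = 2 * b := by
  have h1 : re (P - P' - 2 * a) (Q - Q' - 2 * b) = 0 := by
    unfold re
    push_cast
    linear_combination 2 * h - hx + hy
  have h2 := re_eq_zero h1
  omega

theorem keane5 : C5.ex.Keane := by
  have t1 : 2 * C5.g 1 = ((0 : ℤ) : ℝ) + ((1 : ℤ) : ℝ) * al := by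
    rw [U5_g1]; push_cast; ring
  have t2 : 2 * C5.g 2 = ((2 : ℤ) : ℝ) + ((-2 : ℤ) : ℝ) * al := by
    rw [U5_g2]; push_cast; ring
  have t3 : 2 * C5.g 3 = ((1 : ℤ) : ℝ) + ((0 : ℤ) : ℝ) * al := by
    rw [U5_g3]; push_cast; ring
  have t4 : 2 * C5.g 4 = ((1 : ℤ) : ℝ) + ((1 : ℤ) : ℝ) * al := by
    rw [U5_g4]; push_cast; ring
  refine C5.keane ?_
  intro i j hi hi' hj hj' a b h
  interval_cases i <;> interval_cases j <;> first
    | rfl
    | (exfalso; have h3 := U5_par t1 t2 h; omega)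
    | (exfalso; have h3 := U5_par t1 t3 h; omega)
    | (exfalso; have h3 := U5_par t1 t4 h; omega)
    | (exfalso; have h3 := U5_par t2 t1 h; omega)
    | (exfalso; have h3 := U5_par t2 t3 h; omega)
    | (exfalso; have h3 := U5_par t2 t4 h; omega)
    | (exfalso; have h3 := U5_par t3 t1 h; omega)
    | (exfalso; have h3 := U5_par t3 t2 h; omega)
    | (exfalso; have h3 := U5_par t3 t4 h; omega)
    | (exfalso; have h3 := U5_par t4 t1 h; omega)
    | (exfalso; have h3 := U5_par t4 t2 h; omega)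
    | (exfalso; have h3 := U5_par t4 t3 h; omega)

theorem run5 {u : ℕ → Fin 5} (hu : C5.ex.IsCoding u) {i p n : ℕ} (hp : 0 < p) (h : HasPower u i p (p + n)) :
    (n : ℝ) ≤ ph / 2 * p := by
  have ha1 := al_gt
  have ha2 := al_lt
  have hlen : ∀ i < 5, C5.g (i + 1) - C5.g i ≤ 1 / 2 := by
    intro i hi
    interval_cases i
    · rw [U5_g1, U5_g0]; linarith
    · rw [U5_g2, U5_g1]; linarith
    · rw [U5_g3, U5_g2]; linarith
    · rw [U5_g4, U5_g3]; linarith
    · rw [U5_g5, U5_g4]; linarith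
  obtain ⟨w, m, hpos, hav⟩ := run_avoid C5 hlen hu hp h
  obtain ⟨k, hk2, hk, hk'⟩ := fib_loc hp
  have hbest := fib_best hp hk' m
  set δ : ℝ := |(p : ℝ) * al - m| with hδ
  obtain ⟨k', rfl⟩ : ∃ k', k = k' + 1 := ⟨k - 1, by omega⟩
  have hδ2 : al ^ k' ≤ 2 * δ := by
    have h1 : 0 ≤ al ^ k' := pow_nonneg (by linarith) _
    have h2 : al ^ (k' + 1) = al ^ k' * al := pow_succ al k'
    have h3 : al ^ k' * (1 / 2) ≤ al ^ k' * al := mul_le_mul_of_nonneg_left (by linarith) h1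
    linarith
  obtain ⟨s, hs1, hs2, N, hN1, hN2⟩ := fib_block hδ2 (2 * w) (-1)
  have hs3 : 2 * (n : ℤ) - 1 ≤ s := by
    by_contra hcon
    push Not at hcon
    rcases Int.even_or_odd' s with ⟨t, ht | ht⟩
    · obtain ⟨j, hj⟩ := Int.eq_ofNat_of_zero_le (by omega : 0 ≤ t)
      have hjn : j < n := by omega
      have hsr : (s : ℝ) = 2 * j := by rw [ht, hj]; push_cast; ring
      rw [hsr] at hN1 hN2
      rcases Int.even_or_odd' N with ⟨q, hq | hq⟩
      · have hNr : (N : ℝ) = 2 * q := by rw [hq]; push_cast; ring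
        rw [hNr] at hN1 hN2
        refine hav j hjn 0 (by norm_num) q ⟨?_, ?_⟩
        · rw [U5_g0]; linarith
        · rw [U5_g0]; linarith
      · have hNr : (N : ℝ) = 2 * q + 1 := by rw [hq]; push_cast; ring
        rw [hNr] at hN1 hN2
        refine hav j hjn 3 (by norm_num) q ⟨?_, ?_⟩
        · rw [U5_g3]; linarith
        · rw [U5_g3]; linarith
    · obtain ⟨j, hj⟩ := Int.eq_ofNat_of_zero_le (by omega : 0 ≤ t + 1)
      have hjn : j < n := by omega
      have hsr : (s : ℝ) = 2 * j - 1 := by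
        have h1 : s = 2 * (j : ℤ) - 1 := by omega
        rw [h1]; push_cast; ring
      rw [hsr] at hN1 hN2
      rcases Int.even_or_odd' N with ⟨q, hq | hq⟩
      · have hNr : (N : ℝ) = 2 * q := by rw [hq]; push_cast; ring
        rw [hNr] at hN1 hN2
        refine hav j hjn 1 (by norm_num) q ⟨?_, ?_⟩
        · rw [U5_g1]; linarith
        · rw [U5_g1]; linarith
      · have hNr : (N : ℝ) = 2 * q + 1 := by rw [hq]; push_cast; ring
        rw [hNr] at hN1 hN2
        refine hav j hjn 4 (by norm_num) q ⟨?_, ?_⟩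
        · rw [U5_g4]; linarith
        · rw [U5_g4]; linarith
  have hfin : 2 * (n : ℤ) + 1 ≤ Nat.fib (k' + 2) := by omega
  have hfinr : 2 * (n : ℝ) + 1 ≤ Nat.fib (k' + 2) := by exact_mod_cast hfin
  have hph := fib_ph (k' + 1)
  have hpr : (Nat.fib (k' + 1) : ℝ) ≤ p := by exact_mod_cast hk
  have hphp : ph * Nat.fib (k' + 1) ≤ ph * p := mul_le_mul_of_nonneg_left hpr ph_pos.le
  have e : k' + 1 + 1 = k' + 2 := rfl
  rw [e] at hph
  linarith

end Pool.Agent.RTX
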