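import Pool.Agent.RTX.FinL
import Pool.Agent.RTX.Cov5
import Pool.Agent.RTX.CGold
import Pool.Agent.RTX.U5

/-!
# RTX/Fin5: five intervals
-/

set_option autoImplicit false

namespace Pool.Agent.RTX

open Pool.Agent.Helper44.IET Pool.Agent.Helper28.IET3

theorem hL5 : ∀ π, memL π L5 = true → ∃ rs, Cfd par5 rs ∧ memL π rs = true :=
  mem_app (by rfl) (mem_app (by rfl) (mem_app (by rfl) (mem_one cfd_c5_13042) (mem_one cfd_c5_13240))
    (mem_one cfd_c5_12403)) (mem_one cfd_c5_12340)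

theorem low5 {u : ℕ → Fin 5} (hu : u ∈ Codings 5) :
    (((5 + Real.sqrt 5) / 4 : ℝ) : EReal) ≤ critExp u ∧ (((5 + Real.sqrt 5) / 4 : ℝ) : EReal) ≤ asympCritExp u := by
  have h5 := sqrt5_sq
  have hg := sqrt5_gt
  have hl := sqrt5_lt
  refine lower_cod (A := par5) (L := L5) (D := gd5) (lam := 9 + 4 * Real.sqrt 5) hL5 cov5_ok g2_5 gd5_ok
    (by norm_num [par5]) (by norm_num [par5]) (by norm_num [par5]) (by norm_num [gd5]) (by norm_num [gd5]) ?_ ?_ ?_ ?_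
    (by norm_num [par5]) hu
  · have : ((gd5.c : ℤ) : ℝ) = 18 := by norm_num [gd5]
    rw [this]; nlinarith
  · linarith
  · have h1 : ((par5.P : ℤ) : ℝ) = 81 := by norm_num [par5]
    have h2 : ((par5.Q : ℤ) : ℝ) = 100 := by norm_num [par5]
    rw [h1, h2]; linarith
  · have h1 : ((gd5.A : ℤ) : ℝ) = 16 := by norm_num [gd5]
    have h2 : ((gd5.B : ℤ) : ℝ) = -5 := by norm_num [gd5]
    rw [h1, h2]; linarith

theorem thr5 : RT 5 = (((5 + Real.sqrt 5) / 4 : ℝ) : EReal) ∧ RTstar 5 = (((5 + Real.sqrt 5) / 4 : ℝ) : EReal) ∧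
    ∃ u ∈ Codings 5, critExp u = (((5 + Real.sqrt 5) / 4 : ℝ) : EReal) ∧
      asympCritExp u = (((5 + Real.sqrt 5) / 4 : ℝ) : EReal) := by
  obtain ⟨u, hu, hc⟩ := coding_ex C5 keane5
  refine thresholds hu (crit_le u _ (by linarith [sqrt5_gt]) fun i p n hp h => ?_) fun v hv => low5 hv
  have h1 := run5 hc hp h
  have h2 : ph / 2 = (5 + Real.sqrt 5) / 4 - 1 := by unfold ph; ring
  rwa [h2] at h1

end Pool.Agent.RTX
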