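import Pool.Agent.RTX.Leaf

/-!
# RTX/Tree: soundness of a certificate tree

Induction on the tree, generalising `gr`, `R`.  `N`: the next type `𝒮.c gr.length` decides the child.
-/

set_option autoImplicit false

namespace Pool.Agent.RTX

private lemma tree_pth {c : ℕ → Bool} {gr : List Bool} (h : Fol c 0 gr.reverse) :
    (pth c 0 gr.length).reverse = gr := by
  rw [List.reverse_eq_iff]
  refine List.ext_getElem (by simp [pth]) fun j h1 h2 => ?_
  have h3 := h j h2
  rw [← h3]
  simp [pth]

private lemma tree_fol {c : ℕ → Bool} {gr : List Bool} (h : Fol c 0 gr.reverse) (b : Bool)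
    (hb : c gr.length = b) : Fol c 0 (b :: gr).reverse := by
  intro j hj
  have h1 : (b :: gr).reverse = gr.reverse ++ [b] := List.reverse_cons
  have h2 : j ≤ gr.length := by simpa using hj
  rcases Nat.lt_or_eq_of_le h2 with h3 | h3
  · have h4 : j < gr.reverse.length := by simpa using h3
    simp only [h1]
    rw [List.getElem_append_left h4]
    exact h j h4
  · subst h3
    simp [hb]

theorem tree_sound {u : ℕ → ℕ} (A : Par) (𝒮 : Sys A.d u) (stop : List (List ℕ)) (gchk : List Bool → Bool) :
    ∀ (t : Crt) (gr : List Bool) (R : Rows), Fol 𝒮.c 0 gr.reverse → R = 𝒮.R gr.length →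
      treeOK A stop gchk (𝒮.R 0) t gr R = true →
      𝒮.fb A 0 ∨ (∃ j, 0 < j ∧ memL (canon (𝒮.R j)) stop = true) ∨
        ∃ j, gr.length ≤ j ∧ gchk (pth 𝒮.c 0 j).reverse = true := by
  intro t
  induction t with
  | F h =>
    intro gr R hf hR hc
    exact Or.inl (leaf_sound A 𝒮 hf hc)
  | Y =>
    intro gr R hf hR hc
    simp only [treeOK, Bool.and_eq_true] at hc
    refine Or.inr (Or.inl ⟨gr.length, ?_, hR ▸ hc.2⟩)
    cases gr with
    | nil => simp at hc
    | cons b gr => simp
  | G =>
    intro gr R hf hR hc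
    simp only [treeOK] at hc
    exact Or.inr (Or.inr ⟨gr.length, le_rfl, by rw [tree_pth hf]; exact hc⟩)
  | N t0 t1 ih0 ih1 =>
    intro gr R hf hR hc
    simp only [treeOK, Bool.and_eq_true] at hc
    have hlt : ∀ b : Bool, gr.length ≤ (b :: gr).length := fun b => by simp
    have key : ∀ b : Bool, 𝒮.c gr.length = b → step b R = 𝒮.R (b :: gr).length := by
      intro b hb
      rw [hR, List.length_cons, 𝒮.hR, hb]
    cases hb : 𝒮.c gr.length with
    | false =>
      rcases ih0 (false :: gr) (step false R) (tree_fol hf false hb) (key false hb) hc.1 with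
        h | h | ⟨j, hj, h⟩
      · exact Or.inl h
      · exact Or.inr (Or.inl h)
      · exact Or.inr (Or.inr ⟨j, (hlt false).trans hj, h⟩)
    | true =>
      rcases ih1 (true :: gr) (step true R) (tree_fol hf true hb) (key true hb) hc.2 with
        h | h | ⟨j, hj, h⟩
      · exact Or.inl h
      · exact Or.inr (Or.inl h)
      · exact Or.inr (Or.inr ⟨j, (hlt true).trans hj, h⟩)

end Pool.Agent.RTX
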