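import Pool.Agent.RTX.RelB
import Pool.Agent.RTX.Tree

/-!
# RTX/Reach: certified roots

Induction on `Cfd`: for `π :: rs` and a system with `canon (R 0) = π` (else it is in `rs`: induction hypothesis) pass to
`𝒯` of `exists_canon`, `tree_sound` with `gr = []`: a power at level `0`; or a vertex of `rs` at a level `j > 0`: apply the induction
hypothesis to `𝒮.shift j`; or `gold1` of the path of some length `j`: then the last `|gp|` types are `gp` and the vertex at level `j - |gp|`
is `g0` (`dropPre p l = some l'` iff `l = p ++ l'`).  `memL` is membership.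
-/

set_option autoImplicit false

namespace Pool.Agent.RTX

theorem memL_iff (x : List ℕ) (l : List (List ℕ)) : memL x l = true ↔ x ∈ l := by
  induction l with
  | nil => simp [memL]
  | cons y l ih => simp [memL, ih, eqL_iff]

private theorem rc_eqB (l m : List Bool) : eqB l m = true ↔ l = m := by
  induction l generalizing m with
  | nil => cases m <;> simp [eqB]
  | cons x l ih =>
    cases m with
    | nil => simp [eqB]
    | cons y m => simp [eqB, ih m]

private theorem rc_dropPre (p l l' : List Bool) : dropPre p l = some l' ↔ l = p ++ l' := by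
  induction p generalizing l with
  | nil => simp [dropPre]
  | cons x p ih =>
    cases l with
    | nil => simp [dropPre]
    | cons y l =>
      unfold dropPre
      by_cases h : x = y
      · subst h
        simp [ih l]
      · have h1 : (x == y) = false := by simpa using h
        rw [h1, cond_false]
        simp only [reduceCtorEq, List.cons_append, List.cons.injEq, false_iff, not_and]
        intro h2
        exact absurd h2.symm h

private theorem rc_fb {d : ℕ} {u : ℕ → ℕ} {𝒮 𝒯 : Sys d u} {A : Par} (hh : ∀ t m, 𝒯.high t m ↔ 𝒮.high t m)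
    {t : ℕ} (h : 𝒯.fb A t) : 𝒮.fb A t := fun m hm => h m ((hh t m).2 hm)

theorem reach {A : Par} {rs : List (List ℕ)} (h : Cfd A rs) :
    ∀ {u : ℕ → ℕ} (𝒮 : Sys A.d u), memL (canon (𝒮.R 0)) rs = true → ∃ t, 𝒮.fb A t ∨ 𝒮.gold A t := by
  induction h with
  | nil => intro u 𝒮 hm; simp [memL] at hm
  | cons π rs t h ht ih =>
    intro u 𝒮 hm
    rw [memL_iff, List.mem_cons] at hm
    rcases hm with hm | hm
    · obtain ⟨𝒯, h0, hc, hcan, hhigh⟩ := exists_canon 𝒮
      rw [hm] at h0
      have hf : Fol 𝒯.c 0 ([] : List Bool).reverse := fun j hj => by simp at hj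
      rcases tree_sound A 𝒯 rs (gold1 A (rows0 A.d π)) t [] (rows0 A.d π) hf (by rw [List.length_nil, h0])
        (by rw [h0]; exact ht) with h1 | ⟨j, -, h1⟩ | ⟨j, -, h1⟩
      · exact ⟨0, Or.inl (rc_fb hhigh h1)⟩
      · rw [hcan j] at h1
        obtain ⟨s, hs⟩ := ih (𝒮.shift j) h1
        rw [shift_fb, shift_gold] at hs
        exact ⟨j + s, hs⟩
      · unfold gold1 at h1
        cases h2 : dropPre A.gp.reverse (pth 𝒯.c 0 j).reverse with
        | none => rw [h2] at h1; simp at h1
        | some l =>
          rw [h2] at h1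
          simp only [eqL_iff] at h1
          rw [rc_dropPre] at h2
          have h3 : pth 𝒯.c 0 j = l.reverse ++ A.gp := by
            rw [← List.reverse_reverse (pth 𝒯.c 0 j), h2, List.reverse_append, List.reverse_reverse]
          have h4 := (fol_pth 𝒯.c 0 j).1
          rw [h3, fol_append] at h4
          have h5 := sys_runR 𝒯 h4.1
          rw [h0] at h5
          rw [h5, hcan] at h1
          rw [hc] at h4
          exact ⟨0 + l.reverse.length, Or.inr ⟨h1, h4.2⟩⟩
    · exact ih 𝒮 ((memL_iff _ _).2 hm)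

theorem second {A : Par} {t : Crt} (h : tree2OK A t = true) {u : ℕ → ℕ} (𝒮 : Sys A.d u) (hg : 𝒮.gold A 0) :
    𝒮.fb A 0 ∨ 𝒮.gold A A.gp.length := by
  unfold tree2OK at h
  rw [Bool.and_eq_true, eqL_iff] at h
  obtain ⟨h1, h2⟩ := h
  obtain ⟨𝒯, h0, hc, hcan, hhigh⟩ := exists_canon 𝒮
  rw [hg.1] at h0
  have hf : Fol 𝒯.c 0 A.gp.reverse.reverse := by
    rw [List.reverse_reverse, hc]
    exact hg.2
  have hf' : Fol 𝒯.c 0 A.gp := by rw [hc]; exact hg.2
  have hrun := sys_runR 𝒯 hf'
  rw [h0, Nat.zero_add] at hrun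
  rcases tree_sound A 𝒯 [] (gold2 A) t A.gp.reverse (runR A.gp (rows0 A.d A.g0)) hf
    (by rw [List.length_reverse, hrun]) (by rw [h0]; exact h2) with h3 | ⟨j, -, h3⟩ | ⟨j, -, h3⟩
  · exact Or.inl (rc_fb hhigh h3)
  · simp [memL] at h3
  · right
    unfold gold2 at h3
    rw [rc_eqB] at h3
    have h4 : pth 𝒯.c 0 j = A.gp ++ A.gp := by
      rw [← List.reverse_reverse (pth 𝒯.c 0 j), h3, List.reverse_append, List.reverse_reverse]
    have h5 := (fol_pth 𝒯.c 0 j).1
    rw [h4, fol_append, hc, Nat.zero_add] at h5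
    refine ⟨?_, h5.2⟩
    rw [← hcan, ← hrun]
    exact h1

end Pool.Agent.RTX
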