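import Pool.Agent.RTX.GDefs

/-!
# RTX/BlkU: from the blocks of a higher level to blocks in which every label is used infinitely often

States `(i, j)` with `j < |W (v i)|` (the words `W x` are not empty: `0 < d`, all labels occur); successor `(i, j + 1)` if `j + 1 < |W (v i)|`, otherwise `(i + 1, 0)`.
New `v' n = (W (v i))[j]`, `pos' n = pos i + |((W (v i)).take j).flatMap σ|` for the `n`-th state `(i, j)`.  `occ` of `(W (v i)).flatMap σ` at `pos i` gives `occ` of the
factor `σ (v' n)` at `pos' n`.  Every state is reached, the state `(i, 0)` at an index `≥ i`.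
-/

set_option autoImplicit false

namespace Pool.Agent.RTX

/-- the states -/
private def blkU_st (L : ℕ → ℕ) : ℕ → ℕ × ℕ
  | 0 => (0, 0)
  | n + 1 => if (blkU_st L n).2 + 1 < L (blkU_st L n).1 then ((blkU_st L n).1, (blkU_st L n).2 + 1)
      else ((blkU_st L n).1 + 1, 0)

private theorem blkU_lt (L : ℕ → ℕ) (hL : ∀ i, 0 < L i) (n : ℕ) :
    (blkU_st L n).2 < L (blkU_st L n).1 := by
  induction n with
  | zero => exact hL 0
  | succ n ih =>
    simp only [blkU_st]
    split_ifs with h
    · exact h
    · exact hL _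

private theorem blkU_run (L : ℕ → ℕ) {N i : ℕ} (h : blkU_st L N = (i, 0)) :
    ∀ j, j < L i → blkU_st L (N + j) = (i, j)
  | 0, _ => by simpa using h
  | j + 1, hj => by
    have h1 := blkU_run L h j (by omega)
    have h2 : N + (j + 1) = N + j + 1 := by omega
    rw [h2]
    simp only [blkU_st, h1]
    rw [if_pos hj]

private theorem blkU_reach (L : ℕ → ℕ) (hL : ∀ i, 0 < L i) :
    ∀ i, ∃ N, i ≤ N ∧ blkU_st L N = (i, 0)
  | 0 => ⟨0, le_rfl, rfl⟩
  | i + 1 => by
    obtain ⟨N, hN, h⟩ := blkU_reach L hL i
    have h1 := blkU_run L h (L i - 1) (by have := hL i; omega)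
    refine ⟨N + (L i - 1) + 1, by omega, ?_⟩
    simp only [blkU_st, h1]
    rw [if_neg (by have := hL i; omega)]

private theorem blkU_take {l : List ℕ} {j : ℕ} (h : j < l.length) (σ : ℕ → List ℕ) :
    ((l.take (j + 1)).flatMap σ).length = ((l.take j).flatMap σ).length + (σ l[j]).length := by
  rw [List.take_add_one, List.getElem?_eq_getElem h, Option.toList_some, List.flatMap_append,
    List.length_append, List.flatMap_singleton]

private theorem blkU_split {l : List ℕ} {j : ℕ} (h : j < l.length) (σ : ℕ → List ℕ) :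
    l.flatMap σ = (l.take j).flatMap σ ++ (σ l[j] ++ (l.drop (j + 1)).flatMap σ) := by
  conv_lhs => rw [← List.take_append_drop j l, List.flatMap_append,
    List.drop_eq_getElem_cons h, List.flatMap_cons]

theorem blk_up {d : ℕ} (hd : 0 < d) {u : ℕ → ℕ} {σ τ W : ℕ → List ℕ} (h : BlkW d u τ)
    (hW : ∀ x < d, τ x = (W x).flatMap σ) (hz : ∀ x < d, ∀ z ∈ W x, z < d) (hall : ∀ x < d, ∀ y < d, y ∈ W x) :
    Blk d u σ := by
  obtain ⟨v, pos, hv, hpos, hocc⟩ := h
  set L : ℕ → ℕ := fun i => (W (v i)).length with hLdef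
  have hL : ∀ i, 0 < L i := fun i => List.length_pos_of_mem (hall (v i) (hv i) 0 hd)
  have hlt : ∀ n, (blkU_st L n).2 < (W (v (blkU_st L n).1)).length := fun n => blkU_lt L hL n
  refine ⟨fun n => (W (v (blkU_st L n).1))[(blkU_st L n).2]'(hlt n),
    fun n => pos (blkU_st L n).1 + (((W (v (blkU_st L n).1)).take (blkU_st L n).2).flatMap σ).length,
    ?_, ?_, ?_, ?_⟩
  · intro n
    exact hz _ (hv _) _ (List.getElem_mem _)
  · intro n
    dsimp only
    have h1 := blkU_take (hlt n) σ
    by_cases hc : (blkU_st L n).2 + 1 < L (blkU_st L n).1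
    · have h2 : blkU_st L (n + 1) = ((blkU_st L n).1, (blkU_st L n).2 + 1) := by
        simp only [blkU_st]
        rw [if_pos hc]
      rw [h2]
      dsimp only
      rw [h1]
      omega
    · have h2 : blkU_st L (n + 1) = ((blkU_st L n).1 + 1, 0) := by
        simp only [blkU_st]
        rw [if_neg hc]
      have h3 : (W (v (blkU_st L n).1)).take ((blkU_st L n).2 + 1) = W (v (blkU_st L n).1) := by
        apply List.take_of_length_le
        simpa [hLdef] using hc
      rw [h3] at h1
      rw [h2]
      dsimp only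
      rw [hpos, hW _ (hv _), h1]
      simp
      omega
  · intro n k hk
    dsimp only at hk ⊢
    have h1 := hocc (blkU_st L n).1
    rw [hW _ (hv _), blkU_split (hlt n) σ] at h1
    set A := ((W (v (blkU_st L n).1)).take (blkU_st L n).2).flatMap σ with hA
    have h2 := h1 (A.length + k) (by
      rw [List.length_append, List.length_append]
      omega)
    rw [List.getElem_append_right (by omega)] at h2
    rw [List.getElem_append_left (by simpa using hk)] at h2
    rw [← add_assoc] at h2
    rw [h2]
    congr 1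
    omega
  · intro x hx n
    obtain ⟨N, hN, h1⟩ := blkU_reach L hL n
    obtain ⟨j, hj, hjx⟩ := List.getElem_of_mem (hall (v n) (hv n) x hx)
    have h2 := blkU_run L h1 j hj
    refine ⟨N + j, by omega, ?_⟩
    dsimp only
    simp only [h2]
    exact hjx

end Pool.Agent.RTX
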