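import Pool.Agent.RTX.PsB

/-!
# RTX/Ent: orbits enter the smaller interval; the block structure

`enter`: `T = tot lam R.top`, `T' = tot` after the step `= T - lam (loser)` (`tot_ins`, resp. for `c = false` the top row does not change
and only the last entry `a` became shorter: use `tot_perm` to pass to the bottom row).  If `z < T'` take `n = 0`.  Otherwise `z` is in the interval
`[T - lam a, T)` of `a` in the top row (in both cases), and `E.T^[|σ a|] z = z - (T - lam a) + ps bot a`, which is `≥ 0` and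
`< ps bot a + lam a ≤ T - lam b ≤ T'` (`ps_le_lst` in the bottom row, `a ≠ b`).
`blk_weak`: the label `v i` of the point `z i` (`ps_find` in the top row), `pos (i + 1) = pos i + |σ (v i)|`, `z i = E.T^[pos i] x` stays in `[0, T)`
(`ret`, `ps_nonneg`, `ps_le_tot` in the bottom row, `tot_perm`); `Vis` and `E.interval_inj` give `occ`.
-/

set_option autoImplicit false

namespace Pool.Agent.RTX

open Pool.Agent.Helper44.IET (Exchange)

private theorem Ent_ne_top {d : ℕ} {R : Rows} (h : RI d R) : R.top ≠ [] := by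
  intro h0
  have h1 := (ri_len h).1
  rw [h0] at h1
  have h2 := h.two
  simp only [List.length_nil] at h1
  omega

private theorem Ent_tot_step {d : ℕ} {R : Rows} (h : RI d R) (lam : ℕ → ℝ) (c : Bool) :
    tot (stepL c R lam) (step c R).top = tot lam R.top - lam (los c R) := by
  obtain ⟨ha, hb, hab⟩ := ri_ab h
  cases c with
  | false =>
    have h1 := ri_step h false
    have hp : ((step false R).top).Perm (ins R.a (lst R.bot) R.bot.dropLast) := h1.top.trans h1.bot.symm
    rw [tot_perm (stepL false R lam) hp]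
    rw [tot_ins (lam := lam) (mu := stepL false R lam) (a := R.a) (l := R.bot) (ri_nd_bot h)
      ((ri_mem_bot h _).2 ha) hab ?_ ?_]
    · rw [tot_perm lam (h.bot.trans h.top.symm)]
      rfl
    · show (if R.a = win false R then lam R.a - lam (los false R) else lam R.a) = lam R.a - lam (lst R.bot)
      have w1 : win false R = R.a := rfl
      rw [w1, if_pos rfl]
      rfl
    · intro z _ hz
      show (if z = win false R then lam z - lam (los false R) else lam z) = lam z
      have w1 : win false R = R.a := rfl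
      rw [w1, if_neg hz]
  | true =>
    have e : (step true R).top = ins R.b (lst R.top) R.top.dropLast := rfl
    rw [e]
    rw [tot_ins (lam := lam) (mu := stepL true R lam) (a := R.b) (l := R.top) (ri_nd_top h)
      ((ri_mem_top h _).2 hb) (fun h1 => hab h1.symm) ?_ ?_]
    · rfl
    · show (if R.b = win true R then lam R.b - lam (los true R) else lam R.b) = lam R.b - lam (lst R.top)
      have w1 : win true R = R.b := rfl
      rw [w1, if_pos rfl]
      rfl
    · intro z _ hz
      show (if z = win true R then lam z - lam (los true R) else lam z) = lam z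
      have w1 : win true R = R.b := rfl
      rw [w1, if_neg hz]

theorem enter {d : ℕ} {E : Exchange d} {R : Rows} {σ : ℕ → List ℕ} {lam : ℕ → ℝ} (h : Geo E R σ lam) {c : Bool}
    (hc : lam (los c R) < lam (win c R)) {z : ℝ} (h0 : 0 ≤ z) (h1 : z < tot lam R.top) :
    ∃ n, 0 ≤ E.T^[n] z ∧ E.T^[n] z < tot (stepL c R lam) (step c R).top := by
  rw [Ent_tot_step h.ri]
  obtain ⟨ha, hb, hab⟩ := ri_ab h.ri
  by_cases hz : z < tot lam R.top - lam (los c R)
  · exact ⟨0, h0, hz⟩
  push Not at hz
  have hla : lam (los c R) ≤ lam R.a := by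
    cases c with
    | false => exact hc.le
    | true => exact le_refl _
  have hlb : lam (los c R) ≤ lam R.b := by
    cases c with
    | false => exact le_refl _
    | true => exact hc.le
  have e1 : ps lam R.a R.top = tot lam R.top - lam R.a := ps_lst (ri_nd_top h.ri) (Ent_ne_top h.ri)
  have hJ : inJ R lam R.a z := by
    refine ⟨?_, ?_⟩
    · rw [e1]; linarith
    · rw [e1]; linarith
  have hpb : ∀ w ∈ R.bot, 0 < lam w := fun w hw => h.pos w ((ri_mem_bot h.ri w).1 hw)
  have h2 := h.ret R.a ha z hJ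
  have h3 : 0 ≤ ps lam R.a R.bot := ps_nonneg hpb R.a
  have h4 : ps lam R.a R.bot + lam R.a ≤ tot lam R.bot - lam R.b :=
    ps_le_lst (ri_nd_bot h.ri) hpb ((ri_mem_bot h.ri _).2 ha) hab
  have h5 : tot lam R.bot = tot lam R.top := tot_perm lam (h.ri.bot.trans h.ri.top.symm)
  obtain ⟨hJ0, hJ1⟩ := hJ
  refine ⟨(σ R.a).length, ?_, ?_⟩
  · rw [h2]; linarith
  · rw [h2]; linarith

open Classical in
/-- the label of the interval of `z` -/
private noncomputable def Ent_lab (d : ℕ) (R : Rows) (lam : ℕ → ℝ) (z : ℝ) : ℕ :=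
  if h : ∃ x, x < d ∧ inJ R lam x z then Classical.choose h else 0

private theorem Ent_lab_spec {d : ℕ} {R : Rows} {lam : ℕ → ℝ} (h : RI d R) (hp : ∀ x < d, 0 < lam x) {z : ℝ}
    (h0 : 0 ≤ z) (h1 : z < tot lam R.top) :
    Ent_lab d R lam z < d ∧ inJ R lam (Ent_lab d R lam z) z := by
  obtain ⟨x, hx, hx0, hx1⟩ := ps_find (ri_nd_top h) (fun w hw => hp w ((ri_mem_top h w).1 hw)) h0 h1
  have hex : ∃ x, x < d ∧ inJ R lam x z := ⟨x, (ri_mem_top h x).1 hx, hx0, hx1⟩
  unfold Ent_lab
  rw [dif_pos hex]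
  exact Classical.choose_spec hex

private noncomputable def Ent_pos {d : ℕ} (E : Exchange d) (R : Rows) (σ : ℕ → List ℕ) (lam : ℕ → ℝ) (x : ℝ)
    (n : ℕ) : ℕ → ℕ
  | 0 => n
  | i + 1 => Ent_pos E R σ lam x n i + (σ (Ent_lab d R lam (E.T^[Ent_pos E R σ lam x n i] x))).length

theorem blk_weak {d : ℕ} {E : Exchange d} {R : Rows} {σ : ℕ → List ℕ} {lam : ℕ → ℝ} (h : Geo E R σ lam)
    {u : ℕ → Fin d} {x : ℝ} (hu : ∀ n, E.T^[n] x ∈ E.interval (u n)) {n : ℕ} (h0 : 0 ≤ E.T^[n] x)
    (h1 : E.T^[n] x < tot lam R.top) : BlkW d (fun n => (u n : ℕ)) σ := by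
  have hpb : ∀ w ∈ R.bot, 0 < lam w := fun w hw => h.pos w ((ri_mem_bot h.ri w).1 hw)
  have h5 : tot lam R.bot = tot lam R.top := tot_perm lam (h.ri.bot.trans h.ri.top.symm)
  have key : ∀ i, 0 ≤ E.T^[Ent_pos E R σ lam x n i] x ∧ E.T^[Ent_pos E R σ lam x n i] x < tot lam R.top := by
    intro i
    induction i with
    | zero => exact ⟨h0, h1⟩
    | succ i ih =>
      obtain ⟨hl, hJ⟩ := Ent_lab_spec h.ri h.pos ih.1 ih.2
      have h2 := h.ret _ hl _ hJ
      have h3 := ps_nonneg hpb (Ent_lab d R lam (E.T^[Ent_pos E R σ lam x n i] x))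
      have h4 := ps_le_tot hpb ((ri_mem_bot h.ri _).2 hl)
      obtain ⟨hJ0, hJ1⟩ := hJ
      have e : E.T^[Ent_pos E R σ lam x n (i + 1)] x =
          E.T^[(σ (Ent_lab d R lam (E.T^[Ent_pos E R σ lam x n i] x))).length]
            (E.T^[Ent_pos E R σ lam x n i] x) := by
        rw [← Function.iterate_add_apply,
          add_comm (σ (Ent_lab d R lam (E.T^[Ent_pos E R σ lam x n i] x))).length]
        rfl
      rw [e, h2]
      exact ⟨by linarith, by linarith⟩
  refine ⟨fun i => Ent_lab d R lam (E.T^[Ent_pos E R σ lam x n i] x), Ent_pos E R σ lam x n, ?_, ?_, ?_⟩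
  · intro i
    exact (Ent_lab_spec h.ri h.pos (key i).1 (key i).2).1
  · intro i
    rfl
  · intro i j hj
    obtain ⟨hl, hJ⟩ := Ent_lab_spec h.ri h.pos (key i).1 (key i).2
    obtain ⟨hd, hv⟩ := h.vis _ hl _ hJ j hj
    rw [← Function.iterate_add_apply, add_comm] at hv
    have h6 := E.interval_inj (hu (Ent_pos E R σ lam x n i + j)) hv
    show ((u (Ent_pos E R σ lam x n i + j) : Fin d) : ℕ) = _
    rw [h6]

end Pool.Agent.RTX
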