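import Pool.Agent.RTX.PsA

/-!
# RTX/GeoI: level zero

`RI`: `botE E` is the list of the values of `perm.symm`, a permutation of `range d`; `irr`: `E.Irreducible` gives `i < k` with
`k ≤ perm i`; `i` is at position `perm i` of the bottom row.  `ps (lamE E) x (range d) = E.left x`,
`ps (lamE E) x (botE E) = E.imageLeft x` for `x < d` (sums over the entries before `x`; the filtered sums of `Exchange.left`,
`imageLeft`), `tot = 1` (`len_sum`).  `vis`, `ret`: `E.T_of_mem`.  `cut`: `p = 0`, `i = x`.
-/

set_option autoImplicit false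

namespace Pool.Agent.RTX

open Pool.Agent.Helper44.IET (Exchange)

private theorem GeoI_ps (lam : ℕ → ℝ) {l : List ℕ} (hl : l.Nodup) {j : ℕ} (hj : j < l.length) :
    ps lam l[j] l = ((l.map lam).take j).sum := by
  induction l generalizing j with
  | nil => simp at hj
  | cons z l ih =>
    cases j with
    | zero => simp [ps]
    | succ j =>
      have h1 : j < l.length := by simpa using hj
      have h2 := List.nodup_cons.1 hl
      have h3 : z ≠ l[j] := fun e => h2.1 (by rw [e]; exact List.getElem_mem h1)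
      have h4 := ih h2.2 h1
      simp only [List.getElem_cons_succ, ps, List.map_cons, List.take_succ_cons, List.sum_cons]
      rw [if_neg h3, h4]

private theorem GeoI_bot_perm {d : ℕ} (E : Exchange d) : (botE E).Perm (List.range d) := by
  have h1 := (Equiv.Perm.map_finRange_perm E.perm.symm).map (fun x : Fin d => (x : ℕ))
  rw [List.map_coe_finRange_eq_range, List.map_map] at h1
  exact h1

private theorem GeoI_lam {d : ℕ} (E : Exchange d) (k : Fin d) : lamE E (k : ℕ) = E.len k := by
  unfold lamE
  rw [dif_pos k.2]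

private theorem GeoI_topm {d : ℕ} (E : Exchange d) :
    (List.range d).map (lamE E) = List.ofFn fun k : Fin d => E.len k := by
  rw [List.ofFn_eq_map, ← List.map_coe_finRange_eq_range, List.map_map]
  exact List.map_congr_left fun k _ => GeoI_lam E k

private theorem GeoI_botm {d : ℕ} (E : Exchange d) :
    (botE E).map (lamE E) = List.ofFn fun k : Fin d => E.len (E.perm.symm k) := by
  rw [List.ofFn_eq_map, botE, List.map_map]
  exact List.map_congr_left fun k _ => GeoI_lam E _

theorem ri_rowsE {d : ℕ} (E : Exchange d) (hd : 2 ≤ d) (hi : E.Irreducible) : RI d (rowsE E) := by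
  refine ⟨hd, List.Perm.refl _, GeoI_bot_perm E, fun k hk hkd => ?_⟩
  have h1 := hi k hk hkd
  push Not at h1
  obtain ⟨i, hik, hpi⟩ := h1
  refine ⟨i, ?_, fun h2 => ?_⟩
  · show (i : ℕ) ∈ (List.range d).take k
    rw [List.take_range, List.mem_range]
    exact lt_min hik i.2
  · have h3 : (i : ℕ) ∈ (botE E).take k := h2
    rw [botE, ← List.map_take, List.mem_map] at h3
    obtain ⟨j, hj, hji⟩ := h3
    have h4 : (j : ℕ) < k := by
      obtain ⟨n, hn, hnj⟩ := List.getElem_of_mem hj
      have h5 : n < k := by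
        rw [List.length_take] at hn
        exact lt_of_lt_of_le hn (min_le_left _ _)
      rw [← hnj]
      simpa using h5
    have h5 : E.perm.symm j = i := Fin.ext hji
    have h6 : j = E.perm i := by rw [← h5, Equiv.apply_symm_apply]
    rw [h6] at h4
    omega

theorem ps_top {d : ℕ} (E : Exchange d) (x : Fin d) : ps (lamE E) x (rowsE E).top = E.left x := by
  have h1 : (x : ℕ) < (List.range d).length := by simpa using x.2
  have h2 := GeoI_ps (lamE E) (List.nodup_range (n := d)) h1
  rw [List.getElem_range] at h2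
  show ps (lamE E) x (List.range d) = E.left x
  rw [h2, GeoI_topm, List.sum_take_ofFn]
  rfl

theorem ps_bot {d : ℕ} (E : Exchange d) (x : Fin d) : ps (lamE E) x (rowsE E).bot = E.imageLeft x := by
  have hn : (botE E).Nodup := (GeoI_bot_perm E).nodup_iff.2 List.nodup_range
  have h1 : ((E.perm x : Fin d) : ℕ) < (botE E).length := by
    rw [(GeoI_bot_perm E).length_eq, List.length_range]
    exact (E.perm x).2
  have h2 := GeoI_ps (lamE E) hn h1
  have h3 : (botE E)[((E.perm x : Fin d) : ℕ)] = (x : ℕ) := by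
    simp [botE]
  rw [h3] at h2
  show ps (lamE E) x (botE E) = E.imageLeft x
  rw [h2, GeoI_botm, List.sum_take_ofFn]
  unfold Exchange.imageLeft
  refine Finset.sum_equiv E.perm.symm (fun k => ?_) (fun k _ => rfl)
  simp only [Finset.mem_filter, Finset.mem_univ, true_and, Equiv.apply_symm_apply]
  exact Fin.lt_def.symm

theorem geo_init {d : ℕ} (E : Exchange d) (hd : 2 ≤ d) (hi : E.Irreducible) :
    Geo E (rowsE E) (fun x => [x]) (lamE E) ∧ tot (lamE E) (rowsE E).top = 1 := by
  refine ⟨⟨ri_rowsE E hd hi, fun x hx => ?_, fun x hx z hz => ?_, fun x hx z hz => ?_,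
    fun x hx h0 => ?_⟩, ?_⟩
  · have h1 := GeoI_lam E ⟨x, hx⟩
    have h2 := E.len_pos ⟨x, hx⟩
    rw [← h1] at h2
    exact h2
  · intro j hj
    have hj0 : j = 0 := by simpa using hj
    subst hj0
    refine ⟨hx, ?_⟩
    have h1 := ps_top E ⟨x, hx⟩
    have h2 := GeoI_lam E ⟨x, hx⟩
    simp only at h1 h2
    obtain ⟨h3, h4⟩ := hz
    rw [h1] at h3 h4
    rw [h2] at h4
    exact ⟨h3, h4⟩
  · have h1 := ps_top E ⟨x, hx⟩
    have h2 := GeoI_lam E ⟨x, hx⟩
    have h5 := ps_bot E ⟨x, hx⟩
    simp only at h1 h2 h5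
    obtain ⟨h3, h4⟩ := hz
    rw [h1] at h3 h4
    rw [h2] at h4
    have h6 : z ∈ E.interval ⟨x, hx⟩ := ⟨h3, h4⟩
    have h7 := E.T_of_mem h6
    rw [h1, h5]
    show E.T z = _
    rw [h7]
    ring
  · have h1 := ps_top E ⟨x, hx⟩
    simp only at h1
    refine ⟨0, by simp, ⟨x, hx⟩, ?_, h1⟩
    have h2 : x ≠ (List.range d).headD 0 := h0
    have h3 : (List.range d).headD 0 = 0 := by
      cases d with
      | zero => rfl
      | succ d => rw [List.range_succ_eq_map]; rfl
    rw [h3] at h2
    exact Nat.pos_of_ne_zero h2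
  · show ((List.range d).map (lamE E)).sum = 1
    rw [GeoI_topm, List.sum_ofFn]
    exact E.len_sum

end Pool.Agent.RTX
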