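import Pool.Agent.RTX.PsA

/-!
# RTX/GeoN: the last labels have different lengths (Keane's condition)

`zero_hit`: let `i = perm.symm 0` (the interval whose image is the first); `E.left i` is in `E.interval i`, `E.T (E.left i) = E.imageLeft i = 0`
(`T_of_mem`; no `k` has `perm k < 0`), and `i ≠ 0` by irreducibility with `k = 1` (here `2 ≤ d` is used).
`geo_ne`: suppose `lam a = lam b`, `T = tot`.  The left end of `b` in the top row returns after `|σ b|` steps to `ps bot b = T - lam b = T - lam a = ps top a`
(`ps_lst` twice).  `a` is not the first label of the top row (`ri_head`), so by `cut` `E.T^[p] (ps top a) = E.left j`, `p < |σ a|`, `j` interior.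
If `b` is not the first label of the top row: `E.T^[q] (ps top b) = E.left i` with `q < |σ b|`, hence `E.T^[|σ b| - q + p] (E.left i) = E.left j = E.T^[0] (E.left j)` and
Keane's condition gives `|σ b| - q + p = 0`, a contradiction.  If `b` is the first one: `ps top b = 0 = E.T (E.left i)` (`zero_hit`), so
`E.T^[p + |σ b| + 1] (E.left i) = E.T^[0] (E.left j)`, again a contradiction.
-/

set_option autoImplicit false

namespace Pool.Agent.RTX

open Pool.Agent.Helper44.IET (Exchange)

theorem zero_hit {d : ℕ} (E : Exchange d) (hd : 2 ≤ d) (hi : E.Irreducible) :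
    ∃ i : Fin d, 0 < (i : ℕ) ∧ E.T (E.left i) = 0 := by
  have hd0 : 0 < d := by omega
  refine ⟨E.perm.symm ⟨0, hd0⟩, ?_, ?_⟩
  · by_contra hcon
    have h0 : ((E.perm.symm ⟨0, hd0⟩ : Fin d) : ℕ) = 0 := by omega
    refine hi 1 one_pos (by omega) fun k hk => ?_
    have h1 : k = E.perm.symm ⟨0, hd0⟩ := by
      apply Fin.ext
      omega
    rw [h1, Equiv.apply_symm_apply]
    exact one_pos
  · have h1 : E.left (E.perm.symm ⟨0, hd0⟩) ∈ E.interval (E.perm.symm ⟨0, hd0⟩) := by
      refine ⟨le_refl _, ?_⟩
      have := E.len_pos (E.perm.symm ⟨0, hd0⟩)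
      linarith
    rw [E.T_of_mem h1]
    have h2 : E.imageLeft (E.perm.symm ⟨0, hd0⟩) = 0 := by
      unfold Pool.Agent.Helper44.IET.Exchange.imageLeft
      apply Finset.sum_eq_zero
      intro k hk
      rw [Finset.mem_filter, Equiv.apply_symm_apply] at hk
      exact absurd hk.2 (Nat.not_lt_zero _)
    rw [h2]
    ring

theorem geo_ne {d : ℕ} {E : Exchange d} (hd : 2 ≤ d) (hi : E.Irreducible) (hK : E.Keane) {R : Rows}
    {σ : ℕ → List ℕ} {lam : ℕ → ℝ} (h : Geo E R σ lam) : lam R.a ≠ lam R.b := by
  intro hab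
  obtain ⟨ha, hb, -⟩ := ri_ab h.ri
  have htop : R.top ≠ [] := by
    intro h0
    have h1 := (ri_mem_top h.ri _).2 ha
    rw [h0] at h1
    exact absurd h1 List.not_mem_nil
  have hbot : R.bot ≠ [] := by
    intro h0
    have h1 := (ri_mem_bot h.ri _).2 hb
    rw [h0] at h1
    exact absurd h1 List.not_mem_nil
  have hT : tot lam R.top = tot lam R.bot := tot_perm lam (h.ri.top.trans h.ri.bot.symm)
  have e1 : ps lam R.a R.top = tot lam R.top - lam R.a := ps_lst (ri_nd_top h.ri) htop
  have e2 : ps lam R.b R.bot = tot lam R.bot - lam R.b := ps_lst (ri_nd_bot h.ri) hbot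
  have e3 : ps lam R.b R.bot = ps lam R.a R.top := by
    rw [e1, e2, hT, hab]
  have hJ : inJ R lam R.b (ps lam R.b R.top) := by
    refine ⟨le_refl _, ?_⟩
    have := h.pos R.b hb
    linarith
  have hret := h.ret R.b hb _ hJ
  have hret' : E.T^[(σ R.b).length] (ps lam R.b R.top) = ps lam R.a R.top := by
    rw [hret, e3]
    ring
  have hhead := ri_head h.ri true
  obtain ⟨p, hp, j, hj, hpj⟩ := h.cut R.a ha (fun he => hhead.2.2.1 he.symm)
  have hall : E.T^[p + (σ R.b).length] (ps lam R.b R.top) = E.left j := by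
    rw [Function.iterate_add_apply, hret', hpj]
  by_cases hbh : R.b = R.top.headD 0
  · obtain ⟨i, hi0, hi1⟩ := zero_hit E hd hi
    have h0 : ps lam R.b R.top = 0 := by
      rw [hbh]
      exact ps_head
    rw [h0] at hall
    have h2 : E.T^[(p + (σ R.b).length) + 1] (E.left i) = E.T^[0] (E.left j) := by
      rw [Function.iterate_add_apply, Function.iterate_one, hi1, hall]
      rfl
    have h3 := (hK i j hi0 hj _ _ h2).2
    omega
  · obtain ⟨q, hq, i, hi0, hqi⟩ := h.cut R.b hb hbh
    have h2 : E.T^[p + (σ R.b).length - q] (E.left i) = E.T^[0] (E.left j) := by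
      rw [← hqi, ← Function.iterate_add_apply,
        show p + (σ R.b).length - q + q = p + (σ R.b).length by omega, hall]
      rfl
    have h3 := (hK i j hi0 hj _ _ h2).2
    omega

end Pool.Agent.RTX
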