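import Pool.Agent.RTX.PosB

/-!
# RTX/Hts: the heights tend to infinity

Heights do not decrease (`stepW`: the loser gets `σ b ++ σ a`, which is at least as long as its old word).  If all heights at level `t` are `≥ m`, `m ≥ 1`, take
`s` of `hp`: every word at level `t + s` is the concatenation (`relW_flat`) of words of level `t` in which all `d ≥ 2` labels occur, so its length is
`≥ 2 m`.  Start: all heights at level `0` are `≥ 1`; induction on `m` (`2 m ≥ m + 1`).
-/

set_option autoImplicit false

namespace Pool.Agent.RTX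

private theorem Hts_step {c : Bool} {R : Rows} {σ : ℕ → List ℕ} (x : ℕ) :
    (σ x).length ≤ (stepW c R σ x).length := by
  unfold stepW
  split_ifs with h
  · rw [List.length_append]
    cases c with
    | false =>
      have h1 : x = R.b := h
      rw [h1]
      omega
    | true =>
      have h1 : x = R.a := h
      rw [h1]
      omega
  · exact le_refl _

private theorem Hts_mono {R : ℕ → Rows} {c : ℕ → Bool} {σ : ℕ → ℕ → List ℕ}
    (hσ : ∀ t, σ (t + 1) = stepW (c t) (R t) (σ t)) (x t : ℕ) :
    ∀ t', t ≤ t' → (σ t x).length ≤ (σ t' x).length := by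
  intro t' ht
  induction t', ht using Nat.le_induction with
  | base => exact le_refl _
  | succ n hn ih =>
    refine ih.trans ?_
    rw [hσ n]
    exact Hts_step x

private theorem Hts_two {w : List ℕ} {x y : ℕ} (hx : x ∈ w) (hy : y ∈ w) (hne : x ≠ y) :
    2 ≤ w.length := by
  match w with
  | [] => simp at hx
  | [z] =>
    simp only [List.mem_singleton] at hx hy
    exact absurd (hx.trans hy.symm) hne
  | _ :: _ :: w => simp

theorem hts_of {d : ℕ} (hd : 2 ≤ d) {R : ℕ → Rows} {c : ℕ → Bool} (hri : ∀ t, RI d (R t)) {σ : ℕ → ℕ → List ℕ}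
    (hσ : ∀ t, σ (t + 1) = stepW (c t) (R t) (σ t)) (h0 : ∀ x < d, σ 0 x ≠ [])
    (hp : ∀ t, ∃ s, ∀ x < d, ∀ y < d, y ∈ relW R c t s x) (m : ℕ) :
    ∃ t0, ∀ t, t0 ≤ t → ∀ x < d, m ≤ (σ t x).length := by
  induction m with
  | zero => exact ⟨0, fun t _ x _ => Nat.zero_le _⟩
  | succ m ih =>
    rcases Nat.eq_zero_or_pos m with hm | hm
    · subst hm
      refine ⟨0, fun t ht x hx => ?_⟩
      refine le_trans ?_ (Hts_mono hσ x 0 t ht)
      exact List.length_pos_iff.2 (h0 x hx)
    · obtain ⟨t0, ht0⟩ := ih
      obtain ⟨s, hs⟩ := hp t0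
      refine ⟨t0 + s, fun t ht x hx => ?_⟩
      refine le_trans ?_ (Hts_mono hσ x (t0 + s) t ht)
      obtain ⟨h1, h2⟩ := relW_flat hri hσ t0 s hx
      rw [h1, List.length_flatMap]
      have hlen : 2 ≤ (relW R c t0 s x).length :=
        Hts_two (hs x hx 0 (by omega)) (hs x hx 1 (by omega)) (by norm_num)
      have hsum := List.card_nsmul_le_sum
        ((relW R c t0 s x).map fun z => (σ t0 z).length) m (by
          intro k hk
          obtain ⟨z, hz, rfl⟩ := List.mem_map.1 hk
          exact ht0 t0 (le_refl _) z (h2 z hz))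
      rw [List.length_map, smul_eq_mul] at hsum
      have h3 : 2 * m ≤ (relW R c t0 s x).length * m := Nat.mul_le_mul_right m hlen
      refine le_trans ?_ hsum
      omega

end Pool.Agent.RTX
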