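import Pool.Agent.RTX.NxtA

/-!
# RTX/InvBF: common suffixes under a step of type `false`

The bottom row becomes `ins a b bot.dropLast`, the top row does not change, `σ a` is appended to
`σ b` and its length is added to `S b`.
-/

set_option autoImplicit false

namespace Pool.Agent.RTX

private theorem invBF_lastN (n : ℕ) (w v : List ℕ) :
    lastN (n + v.length) (w ++ v) = lastN n w ++ v := by
  unfold lastN
  have e : (w ++ v).length - (n + v.length) = w.length - n := by
    rw [List.length_append]; omega
  rw [e, List.drop_append_of_le_length (Nat.sub_le _ _)]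

theorem invB_false {d : ℕ} {R : Rows} {σ : ℕ → List ℕ} {P S : ℕ → ℕ} (hR : RI d R) (h : InvN d R σ P S)
    (hB : InvB R σ S) : InvB (step false R) (stepW false R σ) (stepS false R P S) := by
  obtain ⟨had, hbd, hab⟩ := ri_ab hR
  have hndb := ri_nd_bot hR
  have hab' : R.a ≠ lst R.bot := hab
  have hamem : R.a ∈ R.bot := (ri_mem_bot hR _).2 had
  have eSb : stepS false R P S R.b = S R.b + (P R.a + S R.a + 1) := by
    simp [stepS]
  have eS : ∀ x, x ≠ R.b → stepS false R P S x = S x := by
    intro x hx; simp [stepS, hx]
  have eWb : stepW false R σ R.b = σ R.b ++ σ R.a := by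
    simp [stepW, los]
  have eW : ∀ x, x ≠ R.b → stepW false R σ x = σ x := by
    intro x hx; simp [stepW, los, hx]
  have hla := h.len _ had
  have hbot : (step false R).bot = ins R.a (lst R.bot) R.bot.dropLast := rfl
  have hA : (step false R).a = R.a := rfl
  have hBB : (step false R).b = lst (ins R.a (lst R.bot) R.bot.dropLast) := rfl
  have hnb : nxt R.b R.bot = none := nxt_lst hndb
  refine ⟨?_, ?_⟩
  · intro g k he2 hga
    rw [hbot] at he2
    rw [hA] at hga
    by_cases hc : nxt R.a R.bot = some (lst R.bot)
    · rw [ins_same hndb hc] at he2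
      have hgb : g ≠ R.b := by
        rintro rfl
        rw [hnb] at he2
        exact absurd he2 (by simp)
      have hkb : k ≠ R.b := by
        rintro rfl
        exact hga (nxt_inj hndb he2 hc)
      rw [eW g hgb, eW k hkb, eS k hkb]
      exact hB.bs g k he2 hga
    · by_cases hgb : g = R.b
      · subst hgb
        have he3 : nxt R.a R.bot = some k := by
          rw [← he2]
          exact (nxt_ins_b hndb hamem hab' hc).symm
        have hkb : k ≠ R.b := by
          rintro rfl
          exact hc he3
        rw [eWb, eW k hkb, eS k hkb]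
        exact hB.ba k he3
      · rw [nxt_ins_x hndb hamem hab' hga hgb] at he2
        by_cases hc2 : nxt g R.bot = some (lst R.bot)
        · rw [if_pos hc2] at he2
          exact absurd he2 (by simp)
        · rw [if_neg hc2] at he2
          have hkb : k ≠ R.b := by
            rintro rfl
            exact hc2 he2
          rw [eW g hgb, eW k hkb, eS k hkb]
          exact hB.bs g k he2 hga
  · intro k he2
    rw [hA, hbot, nxt_ins_a hndb hamem hab'] at he2
    have hk : k = R.b := (Option.some.inj he2).symm
    subst hk
    rw [eSb, ← hla, hA, hBB, eW R.a hab, eWb, invBF_lastN, invBF_lastN]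
    congr 1
    by_cases hc : nxt R.a R.bot = some (lst R.bot)
    · rw [ins_same hndb hc]
      have e1 : stepW false R σ (lst R.bot) = σ R.b ++ σ R.a := eWb
      rw [e1]
      exact hB.ba R.b hc
    · obtain ⟨h1, h2, h3⟩ := lst_ins hndb hamem hab' hc
      rw [eW _ h3]
      exact hB.bs _ R.b h1 h2

end Pool.Agent.RTX
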