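import Pool.Agent.RTX.NxtA

/-!
# RTX/InvTF: common prefixes under a step of type `false`

The top row and `P` do not change, `σ' b = σ b ++ σ a`; new last bottom label `b'` (see `InvNF`).
`tp` for `(g, c)`, `g ≠ b'`: if `g = b`: old `tb`, and `c ≠ b` (`nxt_ne`), so `σ' c = σ c`.  If `c = b`: `P b ≤ |σ b|`, so
`(σ b ++ σ a).take (P b) = (σ b).take (P b)`; old `tp` (`g ≠ b`).  Otherwise old `tp`.
`tb` for `c`, `g = b'`: if `b' = b` (case `nxt a bot = some b`): `σ' b ++ σ' a = (σ b ++ σ a) ++ σ a`, old `tb` and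
`P c ≤ |σ b| + |σ a|` (`rab` gives `P c + 1 ≤ |σ b| + |σ a|`, there is a `k` with `nxt a bot = some k`), `c ≠ b`.
If `b' ≠ b`: `b' ≠ a`; `P c ≤ |σ b'|` by `rel` (`nxt b' bot = some b`), so
`(σ b' ++ σ a).take (P c) = (σ b').take (P c) = (σ c).take (P c)` by old `tp` (`b' ≠ b`), and if `c = b` use `P b ≤ |σ b|` as before.
`P x ≤ |σ x|` for `x < d` from `len`.
-/

set_option autoImplicit false

namespace Pool.Agent.RTX

private theorem invTF_take {l m : List ℕ} {n : ℕ} (h : n ≤ l.length) : (l ++ m).take n = l.take n :=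
  List.take_append_of_le_length h

theorem invT_false {d : ℕ} {R : Rows} {σ : ℕ → List ℕ} {P S : ℕ → ℕ} (hR : RI d R) (h : InvN d R σ P S)
    (hT : InvT R σ P) : InvT (step false R) (stepW false R σ) (stepP false R P S) := by
  have hab := ri_ab hR
  have hnt := ri_nd_top hR
  have hnb := ri_nd_bot hR
  have hane : R.a ≠ R.b := hab.2.2
  have hPb : P R.b ≤ (σ R.b).length := by
    have := h.len R.b hab.2.1
    omega
  have hW1 : stepW false R σ R.b = σ R.b ++ σ R.a := by simp [stepW, los]
  have hW2 : ∀ x, x ≠ R.b → stepW false R σ x = σ x := by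
    intro x hx
    simp [stepW, los, hx]
  have hP : ∀ x, stepP false R P S x = P x := by
    intro x
    simp [stepP]
  have hT1 : ∀ c, (stepW false R σ c).take (P c) = (σ c).take (P c) := by
    intro c
    by_cases hc : c = R.b
    · rw [hc, hW1, invTF_take hPb]
    · rw [hW2 c hc]
  have htop : (step false R).top = R.top := rfl
  have ha' : (step false R).a = R.a := rfl
  have hb' : (step false R).b = lst (ins R.a (lst R.bot) R.bot.dropLast) := rfl
  have habot : R.a ∈ R.bot := (ri_mem_bot hR R.a).2 hab.1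
  have hbdef : R.b = lst R.bot := rfl
  constructor
  · intro g c hg hgb
    rw [htop] at hg
    rw [hP, hT1 c]
    by_cases hgb2 : g = R.b
    · subst hgb2
      rw [hW1]
      exact hT.tb c hg
    · rw [hW2 g hgb2]
      exact hT.tp g c hg hgb2
  · intro c hc
    rw [htop] at hc
    rw [hP, hT1 c, ha', hW2 R.a hane]
    by_cases hn : nxt R.a R.bot = some R.b
    · have hb2 : (step false R).b = R.b := by
        rw [hb', ins_same hnb hn]; rfl
      rw [hb2] at hc ⊢
      rw [hW1]
      have hr := (h.rab c R.b hc hn).1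
      rw [invTF_take (by rw [List.length_append]; omega)]
      exact hT.tb c hc
    · have hl := lst_ins hnb habot hane hn
      rw [← hb'] at hl
      obtain ⟨h1, h2, h3⟩ := hl
      rw [hW2 _ h3]
      have hr := (h.rel _ c R.b hc h1).1
      rw [invTF_take (by omega)]
      exact hT.tp _ c hc h3

end Pool.Agent.RTX
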