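import Pool.Agent.RTX.InvNF
import Pool.Agent.RTX.InvTF
import Pool.Agent.RTX.InvBF

/-!
# RTX/InvSw: all invariants under both types of steps, and at the start

Mirror symmetry: interchange the rows (`R.swap`, so `a`, `b` are interchanged), reverse all words, interchange `P` and `S`.
`σ R.b ++ σ R.a` becomes its reverse.  `lastN n l = (l.reverse.take n).reverse`.  `stepW c R σ` reversed is
`stepW (!c) R.swap (reversed σ)`, `stepP c R P S = stepS (!c) R.swap S P`, `step_swap`.  So the case `true` follows from the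
three modules for `false` applied to `R.swap`.
`inv_base`: `σ x = [x]`, `P = S = 0`.
-/

set_option autoImplicit false

namespace Pool.Agent.RTX

/-- reversed words -/
private def InvSw_rv (σ : ℕ → List ℕ) : ℕ → List ℕ := fun x => (σ x).reverse

private theorem InvSw_rv_rv (σ : ℕ → List ℕ) : InvSw_rv (InvSw_rv σ) = σ := by
  funext x
  simp [InvSw_rv]

private theorem InvSw_rv_app (σ : ℕ → List ℕ) (x y : ℕ) :
    InvSw_rv σ x ++ InvSw_rv σ y = (σ y ++ σ x).reverse := by
  simp [InvSw_rv]

private theorem InvSw_len (σ : ℕ → List ℕ) (x : ℕ) : (InvSw_rv σ x).length = (σ x).length := by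
  simp [InvSw_rv]

private theorem InvSw_take (n : ℕ) (l : List ℕ) : l.reverse.take n = (lastN n l).reverse := by
  rw [lastN, List.take_reverse]

private theorem InvSw_last (n : ℕ) (l : List ℕ) : lastN n l.reverse = (l.take n).reverse := by
  rw [lastN, List.reverse_take, List.length_reverse]

private theorem InvSw_a (R : Rows) : R.swap.a = R.b := rfl

private theorem InvSw_b (R : Rows) : R.swap.b = R.a := rfl

private theorem InvSw_N {d : ℕ} {R : Rows} {σ : ℕ → List ℕ} {P S : ℕ → ℕ} (h : InvN d R σ P S) :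
    InvN d R.swap (InvSw_rv σ) S P where
  len := fun x hx => by
    rw [InvSw_len, h.len x hx]
    omega
  p0 := h.s0
  s0 := h.p0
  rel := fun e g k hg hk => by
    have h1 := h.rel e k g hk hg
    rw [InvSw_len]
    omega
  rab := fun g k hg hk => by
    have h1 := h.rab k g hk hg
    rw [InvSw_len, InvSw_len, InvSw_a, InvSw_b]
    omega

private theorem InvSw_T {R : Rows} {σ : ℕ → List ℕ} {S : ℕ → ℕ} (h : InvB R σ S) :
    InvT R.swap (InvSw_rv σ) S where
  tp := fun g c hg hb => by
    have h1 := h.bs g c hg hb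
    rw [InvSw_rv, InvSw_rv, InvSw_take, InvSw_take, h1]
  tb := fun c hc => by
    have h1 := h.ba c hc
    rw [InvSw_rv_app, InvSw_a, InvSw_b, InvSw_rv, InvSw_take, InvSw_take, h1]

private theorem InvSw_B {R : Rows} {σ : ℕ → List ℕ} {P : ℕ → ℕ} (h : InvT R σ P) :
    InvB R.swap (InvSw_rv σ) P where
  bs := fun g c hg hb => by
    have h1 := h.tp g c hg hb
    rw [InvSw_rv, InvSw_rv, InvSw_last, InvSw_last, h1]
  ba := fun c hc => by
    have h1 := h.tb c hc
    rw [InvSw_rv_app, InvSw_a, InvSw_b, InvSw_rv, InvSw_last, InvSw_last, h1]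

private theorem InvSw_stepW (R : Rows) (σ : ℕ → List ℕ) :
    InvSw_rv (stepW false R.swap (InvSw_rv σ)) = stepW true R σ := by
  funext x
  show (if x = los false R.swap then InvSw_rv σ R.swap.b ++ InvSw_rv σ R.swap.a
    else InvSw_rv σ x).reverse = if x = los true R then σ R.b ++ σ R.a else σ x
  have h1 : los false R.swap = los true R := rfl
  rw [h1, InvSw_rv_app, InvSw_a, InvSw_b]
  by_cases h : x = los true R
  · rw [if_pos h, if_pos h, List.reverse_reverse]
  · rw [if_neg h, if_neg h, InvSw_rv, List.reverse_reverse]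

private theorem InvSw_stepP (R : Rows) (P S : ℕ → ℕ) :
    stepS false R.swap S P = stepP true R P S := by
  funext x
  show (if false = false ∧ x = R.a then P R.a + (S R.b + P R.b + 1) else P x) =
    if true = true ∧ x = R.a then P R.a + (P R.b + S R.b + 1) else P x
  by_cases h : x = R.a
  · rw [if_pos ⟨rfl, h⟩, if_pos ⟨rfl, h⟩, Nat.add_comm (S R.b)]
  · rw [if_neg (fun h1 => h h1.2), if_neg (fun h1 => h h1.2)]

private theorem InvSw_stepS (R : Rows) (P S : ℕ → ℕ) :
    stepP false R.swap S P = stepS true R P S := by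
  funext x
  simp [stepP, stepS]

theorem inv_step {d : ℕ} {R : Rows} {σ : ℕ → List ℕ} {P S : ℕ → ℕ} (hR : RI d R) (h : InvN d R σ P S)
    (hT : InvT R σ P) (hB : InvB R σ S) (c : Bool) :
    InvN d (step c R) (stepW c R σ) (stepP c R P S) (stepS c R P S) ∧
      InvT (step c R) (stepW c R σ) (stepP c R P S) ∧ InvB (step c R) (stepW c R σ) (stepS c R P S) := by
  cases c with
  | false => exact ⟨invN_false hR h, invT_false hR h hT, invB_false hR h hB⟩
  | true =>
    have hR' := ri_swap hR
    have hN := InvSw_N h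
    have e : (step false R.swap).swap = step true R := by
      rw [step_swap]
      rfl
    have h1 := InvSw_N (invN_false hR' hN)
    have h2 := InvSw_B (invT_false hR' hN (InvSw_T hB))
    have h3 := InvSw_T (invB_false hR' hN (InvSw_B hT))
    rw [e, InvSw_stepW, InvSw_stepP, InvSw_stepS] at h1
    rw [e, InvSw_stepW, InvSw_stepS] at h2
    rw [e, InvSw_stepW, InvSw_stepP] at h3
    exact ⟨h1, h3, h2⟩

theorem inv_base {d : ℕ} {R : Rows} (hR : RI d R) :
    InvN d R (fun x => [x]) (fun _ => 0) (fun _ => 0) ∧ InvT R (fun x => [x]) (fun _ => 0) ∧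
      InvB R (fun x => [x]) (fun _ => 0) := by
  refine ⟨⟨fun x _ => rfl, rfl, rfl, fun e g k _ _ => ?_, fun g k _ _ => ?_⟩,
    ⟨fun g c _ _ => rfl, fun c _ => rfl⟩, ⟨fun g c _ _ => ?_, fun c _ => ?_⟩⟩
  · simp
  · simp
  · simp [lastN]
  · simp [lastN]

end Pool.Agent.RTX
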