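import Pool.Agent.RTX.WinP

/-!
# RTX/WinC: every label wins infinitely often

Let `B` be the set of the labels `< d` which win finitely often, `A` the others; suppose `B` is nonempty (`A` is nonempty: there is a winner at each of the
infinitely many levels and only `d` labels, pigeonhole).  By `hfin` there is a level `m` such that from `m` on no label of `B` wins or loses; so their
positions in both rows do not decrease (`idx_mono`), are `< d` (`idx_lt`) and so are constant from some level `m'` on.
Claim: at every level `t ≥ m'`, for `α ∈ A`, `β ∈ B`: `idx β top < idx α top`, and the same in the bottom row.  Otherwise (`idx_inj`) `idx α top < idx β top` at `t`, and at all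
later levels (`idx_ord`, `β` never loses).  At some level `s ≥ t` the label `α` wins; if `c s = false` then `α = a` is the last of the top row,
contradiction with `idx_last`; if `c s = true` then `α = b` stands before `β` in the top row, which is the row of the loser, and `idx_strict` contradicts the
constancy of the position of `β`.  Bottom row: the same.
So at level `m'` the labels of `B` are the first `|B|` in both rows (each `β ∈ B` has at most `|B| - 1` labels before it, all in `B`, so `idx β < |B|`; and
`{x | idx x < |B|}` has `|B|` elements), `0 < |B| < d`, which contradicts `RI.irr` (`mem_take_iff`).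
-/

set_option autoImplicit false

namespace Pool.Agent.RTX

private theorem WinC_evc {f : ℕ → ℕ} {C m : ℕ} (hm : ∀ t, m ≤ t → f t ≤ f (t + 1)) (hC : ∀ t, f t ≤ C) :
    ∃ m', m ≤ m' ∧ ∀ t, m' ≤ t → f (t + 1) = f t := by
  classical
  have hmono : ∀ a, m ≤ a → ∀ b, a ≤ b → f a ≤ f b := by
    intro a ha b hab
    induction b, hab using Nat.le_induction with
    | base => exact le_refl _
    | succ n hn ih => exact ih.trans (hm n (ha.trans hn))
  have hex : ∃ n, ∃ t, m ≤ t ∧ C - f t = n := ⟨C - f m, m, le_refl m, rfl⟩
  obtain ⟨t0, ht0, he⟩ := Nat.find_spec hex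
  have hmin : ∀ t, m ≤ t → f t ≤ f t0 := by
    intro t ht
    by_contra hlt
    have h1 : C - f t < Nat.find hex := by
      have := hC t
      omega
    exact Nat.find_min hex h1 ⟨t, ht, rfl⟩
  refine ⟨t0, ht0, fun t ht => ?_⟩
  have h1 := hmin t (ht0.trans ht)
  have h2 := hmin (t + 1) (by omega)
  have h3 := hmono t0 ht0 t ht
  have h4 := hmono t0 ht0 (t + 1) (by omega)
  omega

private theorem WinC_bound {ι : Type} (s : Finset ι) (P : ι → ℕ → Prop) (h : ∀ x ∈ s, ∃ m, ∀ t, m ≤ t → P x t) :
    ∃ m, ∀ x ∈ s, ∀ t, m ≤ t → P x t := by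
  classical
  induction s using Finset.induction_on with
  | empty => exact ⟨0, fun x hx => absurd hx (Finset.notMem_empty x)⟩
  | insert a s ha ih =>
    obtain ⟨m1, h1⟩ := h a (Finset.mem_insert_self a s)
    obtain ⟨m2, h2⟩ := ih fun x hx => h x (Finset.mem_insert_of_mem hx)
    refine ⟨max m1 m2, fun x hx t ht => ?_⟩
    rcases Finset.mem_insert.1 hx with h3 | h3
    · rw [h3]
      exact h1 t (le_trans (le_max_left _ _) ht)
    · exact h2 x h3 t (le_trans (le_max_right _ _) ht)

private theorem WinC_count {d : ℕ} {f : ℕ → ℕ} {B : Finset ℕ} (hB : B ⊆ Finset.range d)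
    (hf : ∀ x < d, f x < d) (hinj : ∀ x < d, ∀ y < d, f x = f y → x = y)
    (hsep : ∀ α < d, α ∉ B → ∀ β ∈ B, f β < f α) : ∀ x < d, f x < B.card ↔ x ∈ B := by
  classical
  intro x hx
  constructor
  · intro h
    by_contra hxB
    have h1 : B.image f ⊆ Finset.range (f x) := by
      intro y hy
      obtain ⟨z, hz, rfl⟩ := Finset.mem_image.1 hy
      exact Finset.mem_range.2 (hsep x hx hxB z hz)
    have h2 : (B.image f).card = B.card := by
      refine Finset.card_image_of_injOn ?_
      intro y hy z hz hyz
      exact hinj y (Finset.mem_range.1 (hB hy)) z (Finset.mem_range.1 (hB hz)) hyz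
    have h3 := Finset.card_le_card h1
    rw [h2, Finset.card_range] at h3
    omega
  · intro hxB
    have h1 : (Finset.range d \ B).image f ⊆ Finset.Ioo (f x) d := by
      intro y hy
      obtain ⟨z, hz, rfl⟩ := Finset.mem_image.1 hy
      rw [Finset.mem_sdiff, Finset.mem_range] at hz
      exact Finset.mem_Ioo.2 ⟨hsep z hz.1 hz.2 x hxB, hf z hz.1⟩
    have h2 : ((Finset.range d \ B).image f).card = (Finset.range d \ B).card := by
      refine Finset.card_image_of_injOn ?_
      intro y hy z hz hyz
      have hy1 := (Finset.mem_sdiff.1 (Finset.mem_coe.1 hy)).1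
      have hz1 := (Finset.mem_sdiff.1 (Finset.mem_coe.1 hz)).1
      exact hinj y (Finset.mem_range.1 hy1) z (Finset.mem_range.1 hz1) hyz
    have h3 := Finset.card_le_card h1
    rw [h2, Nat.card_Ioo, Finset.card_sdiff_of_subset hB, Finset.card_range] at h3
    have h4 := Finset.card_le_card hB
    rw [Finset.card_range] at h4
    have h5 := hf x hx
    omega

theorem win_comb {d : ℕ} {R : ℕ → Rows} {c : ℕ → Bool} (hri : ∀ t, RI d (R t))
    (hR : ∀ t, R (t + 1) = step (c t) (R t))
    (hfin : ∀ x < d, (∃ n, ∀ t, n ≤ t → win (c t) (R t) ≠ x) → ∃ m, ∀ t, m ≤ t → los (c t) (R t) ≠ x) :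
    ∀ x < d, ∀ n, ∃ t, n ≤ t ∧ win (c t) (R t) = x := by
  classical
  by_contra hcon
  push Not at hcon
  obtain ⟨x0, hx0, n0, hn0⟩ := hcon
  have hmt : ∀ t x, x < d → x ∈ (R t).top := fun t x hx => (ri_mem_top (hri t) x).2 hx
  have hmb : ∀ t x, x < d → x ∈ (R t).bot := fun t x hx => (ri_mem_bot (hri t) x).2 hx
  have hlt : ∀ t x, x < d → idx x (R t).top < d := by
    intro t x hx
    have h := idx_lt (hmt t x hx)
    rwa [(ri_len (hri t)).1] at h
  have hlb : ∀ t x, x < d → idx x (R t).bot < d := by
    intro t x hx
    have h := idx_lt (hmb t x hx)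
    rwa [(ri_len (hri t)).2] at h
  let B : Finset ℕ := (Finset.range d).filter fun x => ∃ n, ∀ t, n ≤ t → win (c t) (R t) ≠ x
  have hBd : B ⊆ Finset.range d := Finset.filter_subset _ _
  have hBlt : ∀ x ∈ B, x < d := fun x hx => Finset.mem_range.1 (hBd hx)
  have hx0B : x0 ∈ B := Finset.mem_filter.2 ⟨Finset.mem_range.2 hx0, n0, hn0⟩
  -- stabilisation
  have hst : ∀ x ∈ B, ∃ m, ∀ t, m ≤ t → win (c t) (R t) ≠ x ∧ los (c t) (R t) ≠ x ∧
      idx x (R (t + 1)).top = idx x (R t).top ∧ idx x (R (t + 1)).bot = idx x (R t).bot := by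
    intro x hx
    have hxd := hBlt x hx
    obtain ⟨n, hn⟩ := (Finset.mem_filter.1 hx).2
    obtain ⟨m, hm⟩ := hfin x hxd ⟨n, hn⟩
    obtain ⟨m1, -, hm1⟩ := WinC_evc (f := fun t => idx x (R t).top) (C := d) (m := m)
      (fun t ht => by
        have h := (idx_mono (hri t) (c t) hxd (fun e => hm t ht e.symm)).1
        rw [← hR t] at h
        exact h) (fun t => (hlt t x hxd).le)
    obtain ⟨m2, -, hm2⟩ := WinC_evc (f := fun t => idx x (R t).bot) (C := d) (m := m)
      (fun t ht => by
        have h := (idx_mono (hri t) (c t) hxd (fun e => hm t ht e.symm)).2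
        rw [← hR t] at h
        exact h) (fun t => (hlb t x hxd).le)
    refine ⟨max (max n m) (max m1 m2), fun t ht => ⟨hn t ?_, hm t ?_, hm1 t ?_, hm2 t ?_⟩⟩ <;> omega
  obtain ⟨m, hm⟩ := WinC_bound B _ hst
  -- winners infinitely often
  have hA : ∀ α < d, α ∉ B → ∀ n, ∃ t, n ≤ t ∧ win (c t) (R t) = α := by
    intro α hα hαB n
    by_contra hno
    push Not at hno
    exact hαB (Finset.mem_filter.2 ⟨Finset.mem_range.2 hα, n, hno⟩)
  have hwin : win (c m) (R m) < d := by
    have hab := ri_ab (hri m)
    unfold win
    cases c m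
    · exact hab.1
    · exact hab.2.1
  have hwB : win (c m) (R m) ∉ B := fun h => (hm _ h m (le_refl m)).1 rfl
  -- separation
  have htop : ∀ α < d, α ∉ B → ∀ β ∈ B, idx β (R m).top < idx α (R m).top := by
    intro α hα hαB β hβ
    have hβd := hBlt β hβ
    by_contra hno
    have hne : idx α (R m).top ≠ idx β (R m).top := by
      intro he
      have := idx_inj (hmt m α hα) he
      rw [this] at hαB
      exact hαB hβ
    have hord : ∀ s, m ≤ s → idx α (R s).top < idx β (R s).top := by
      intro s hs
      induction s, hs using Nat.le_induction with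
      | base => omega
      | succ s hs ih =>
        have h := (idx_ord (hri s) (c s) hα hβd (fun e => (hm β hβ s hs).2.1 e.symm)).1 ih
        rw [← hR s] at h
        exact h
    obtain ⟨s, hs, hws⟩ := hA α hα hαB m
    have hos := hord s hs
    have hcs := (hm β hβ s hs).2.2.1
    have hstr := idx_strict (hri s) (c s) hβd (fun e => (hm β hβ s hs).2.1 e.symm)
    rw [← hR s] at hstr
    unfold win at hws
    cases hc : c s with
    | false =>
      rw [hc, cond_false] at hws
      have hba : β ≠ (R s).a := by
        rw [hws]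
        intro e
        rw [← e] at hαB
        exact hαB hβ
      have h := (idx_last (hri s) hβd).1 hba
      rw [hws] at h
      omega
    | true =>
      rw [hc, cond_true] at hws
      rw [hc, if_pos rfl, if_pos rfl, hws] at hstr
      have := hstr hos
      omega
  have hbot : ∀ α < d, α ∉ B → ∀ β ∈ B, idx β (R m).bot < idx α (R m).bot := by
    intro α hα hαB β hβ
    have hβd := hBlt β hβ
    by_contra hno
    have hne : idx α (R m).bot ≠ idx β (R m).bot := by
      intro he
      have := idx_inj (hmb m α hα) he
      rw [this] at hαB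
      exact hαB hβ
    have hord : ∀ s, m ≤ s → idx α (R s).bot < idx β (R s).bot := by
      intro s hs
      induction s, hs using Nat.le_induction with
      | base => omega
      | succ s hs ih =>
        have h := (idx_ord (hri s) (c s) hα hβd (fun e => (hm β hβ s hs).2.1 e.symm)).2 ih
        rw [← hR s] at h
        exact h
    obtain ⟨s, hs, hws⟩ := hA α hα hαB m
    have hos := hord s hs
    have hcs := (hm β hβ s hs).2.2.2
    have hstr := idx_strict (hri s) (c s) hβd (fun e => (hm β hβ s hs).2.1 e.symm)
    rw [← hR s] at hstr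
    unfold win at hws
    cases hc : c s with
    | true =>
      rw [hc, cond_true] at hws
      have hba : β ≠ (R s).b := by
        rw [hws]
        intro e
        rw [← e] at hαB
        exact hαB hβ
      have h := (idx_last (hri s) hβd).2 hba
      rw [hws] at h
      omega
    | false =>
      rw [hc, cond_false] at hws
      have hff : ¬ (false = true) := Bool.false_ne_true
      rw [hc, if_neg hff, if_neg hff, hws] at hstr
      have := hstr hos
      omega
  -- the labels of `B` are the first ones in both rows
  have ct := WinC_count hBd (hlt m) (fun x hx y _ he => idx_inj (hmt m x hx) he) htop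
  have cb := WinC_count hBd (hlb m) (fun x hx y _ he => idx_inj (hmb m x hx) he) hbot
  have hk0 : 0 < B.card := Finset.card_pos.2 ⟨x0, hx0B⟩
  have hkd : B.card < d := by
    have h1 : B ⊂ Finset.range d :=
      (Finset.ssubset_iff_of_subset hBd).2 ⟨win (c m) (R m), Finset.mem_range.2 hwin, hwB⟩
    have h2 := Finset.card_lt_card h1
    rwa [Finset.card_range] at h2
  obtain ⟨x, hx1, hx2⟩ := (hri m).irr B.card hk0 hkd
  have hxt : x ∈ (R m).top := List.mem_of_mem_take hx1
  have hxd : x < d := (ri_mem_top (hri m) x).1 hxt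
  have h1 := (mem_take_iff (ri_nd_top (hri m)) hxt).1 hx1
  have h2 := (ct x hxd).1 h1
  have h3 := (cb x hxd).2 h2
  exact hx2 ((mem_take_iff (ri_nd_bot (hri m)) (hmb m x hxd)).2 h3)

end Pool.Agent.RTX
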