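import Pool.Agent.RTX.Sem

/-!
# RTX/RowA: rows

`lst`, `ins`: induction on the list (`dropLast` is core's).  `ri_step`: for `c = false` the new bottom row is
`ins a b bot.dropLast`, a permutation of `b :: bot.dropLast`, i.e. of `bot`; irreducibility: let `0 < k < d`.  If `b` is
not among the first `k` entries of the new bottom row, then these are the first `k` entries of `bot` (nothing was inserted before
them) and the old witness works.  If `b` is among them, so is `a` (it stands right before `b`), but `a` is the last entry of the top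
row, not among its first `k` entries; the first `k` entries of both rows are `k` distinct labels, so by counting some entry of
the first `k` of the top row is not among the first `k` of the bottom row.  `c = true`: apply the case `false` to `R.swap`
(`ri_swap`, `step_swap`).
`ri_swap`: if all of `bot.take k` were in `top.take k`, then (nodup, same length `k`) the two sets are equal.
-/

set_option autoImplicit false

namespace Pool.Agent.RTX

private theorem RowA_lst_eq : ∀ {l : List ℕ} (h : l ≠ []), lst l = l.getLast h
  | [], h => absurd rfl h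
  | [x], _ => rfl
  | x :: y :: l, _ => by
    have h1 : lst (x :: y :: l) = lst (y :: l) := rfl
    rw [h1, RowA_lst_eq (List.cons_ne_nil y l)]
    rfl

theorem lst_mem {l : List ℕ} (h : l ≠ []) : lst l ∈ l := by
  rw [RowA_lst_eq h]
  exact List.getLast_mem h

theorem dropLast_lst {l : List ℕ} (h : l ≠ []) : l.dropLast ++ [lst l] = l := by
  rw [RowA_lst_eq h]
  exact List.dropLast_append_getLast h

private theorem RowA_ins_cons (x y z : ℕ) (l : List ℕ) :
    ins x y (z :: l) = if z = x then z :: y :: l else z :: ins x y l := by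
  show (bif Nat.beq z x then z :: y :: l else z :: ins x y l) = _
  by_cases h : z = x
  · rw [if_pos h]
    have : Nat.beq z x = true := Nat.beq_eq.symm ▸ h
    rw [this]; rfl
  · rw [if_neg h]
    have : Nat.beq z x = false := by
      rw [Bool.eq_false_iff]
      intro h1
      exact h (Nat.eq_of_beq_eq_true h1)
    rw [this]; rfl

theorem ins_perm {x y : ℕ} {l : List ℕ} (h : x ∈ l) : (ins x y l).Perm (y :: l) := by
  induction l with
  | nil => simp at h
  | cons z l ih =>
    rw [RowA_ins_cons]
    by_cases hz : z = x
    · rw [if_pos hz]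
      exact List.Perm.swap y z l
    · rw [if_neg hz]
      have hx : x ∈ l := by
        rcases List.mem_cons.1 h with h1 | h1
        · exact absurd h1.symm hz
        · exact h1
      exact ((ih hx).cons z).trans (List.Perm.swap y z l)

theorem ins_head {x y : ℕ} {l : List ℕ} : (ins x y l).headD 0 = l.headD 0 := by
  cases l with
  | nil => rfl
  | cons z l =>
    rw [RowA_ins_cons]
    by_cases hz : z = x
    · rw [if_pos hz]; rfl
    · rw [if_neg hz]; rfl

theorem ri_mem_top {d : ℕ} {R : Rows} (h : RI d R) (x : ℕ) : x ∈ R.top ↔ x < d :=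
  h.top.mem_iff.trans List.mem_range

theorem ri_mem_bot {d : ℕ} {R : Rows} (h : RI d R) (x : ℕ) : x ∈ R.bot ↔ x < d :=
  h.bot.mem_iff.trans List.mem_range

theorem ri_nd_top {d : ℕ} {R : Rows} (h : RI d R) : R.top.Nodup :=
  h.top.nodup_iff.2 List.nodup_range

theorem ri_nd_bot {d : ℕ} {R : Rows} (h : RI d R) : R.bot.Nodup :=
  h.bot.nodup_iff.2 List.nodup_range

theorem ri_len {d : ℕ} {R : Rows} (h : RI d R) : R.top.length = d ∧ R.bot.length = d :=
  ⟨h.top.length_eq.trans List.length_range, h.bot.length_eq.trans List.length_range⟩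

private theorem RowA_ne_top {d : ℕ} {R : Rows} (h : RI d R) : R.top ≠ [] := by
  intro h0
  have := (ri_len h).1
  rw [h0] at this
  have := h.two
  simp at *
  omega

private theorem RowA_ne_bot {d : ℕ} {R : Rows} (h : RI d R) : R.bot ≠ [] := by
  intro h0
  have := (ri_len h).2
  rw [h0] at this
  have := h.two
  simp at *
  omega

/-- membership in `dropLast` of a list without repetitions -/
private theorem RowA_mem_dropLast {l : List ℕ} (h : l ≠ []) (hn : l.Nodup) (x : ℕ) :
    x ∈ l.dropLast ↔ x ∈ l ∧ x ≠ lst l := by
  have h1 := dropLast_lst h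
  have h2 : (l.dropLast ++ [lst l]).Nodup := by rw [h1]; exact hn
  rw [List.nodup_append] at h2
  constructor
  · intro hx
    refine ⟨?_, ?_⟩
    · rw [← h1]; exact List.mem_append_left _ hx
    · intro he
      exact h2.2.2 x hx (lst l) (by simp) he
  · rintro ⟨hx, hne⟩
    rw [← h1] at hx
    rcases List.mem_append.1 hx with h3 | h3
    · exact h3
    · exact absurd (List.mem_singleton.1 h3) hne

theorem ri_ab {d : ℕ} {R : Rows} (h : RI d R) : R.a < d ∧ R.b < d ∧ R.a ≠ R.b := by
  refine ⟨(ri_mem_top h _).1 (lst_mem (RowA_ne_top h)), (ri_mem_bot h _).1 (lst_mem (RowA_ne_bot h)),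
    ?_⟩
  intro hab
  have h2 := h.two
  obtain ⟨x, hx, hx'⟩ := h.irr (d - 1) (by omega) (by omega)
  have e1 : R.top.take (d - 1) = R.top.dropLast := by
    rw [List.dropLast_eq_take, (ri_len h).1]
  have e2 : R.bot.take (d - 1) = R.bot.dropLast := by
    rw [List.dropLast_eq_take, (ri_len h).2]
  rw [e1, RowA_mem_dropLast (RowA_ne_top h) (ri_nd_top h)] at hx
  rw [e2, RowA_mem_dropLast (RowA_ne_bot h) (ri_nd_bot h)] at hx'
  apply hx'
  refine ⟨(ri_mem_bot h x).2 ((ri_mem_top h x).1 hx.1), ?_⟩
  have : lst R.top = lst R.bot := hab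
  rw [← this]
  exact hx.2

/-- counting -/
private theorem RowA_count {l m : List ℕ} (hl : l.Nodup) (hlen : m.length ≤ l.length)
    (hsub : ∀ x ∈ l, x ∈ m) : ∀ x ∈ m, x ∈ l := by
  intro x hx
  have h1 : l.Subperm m := hl.subperm hsub
  exact (h1.perm_of_length_le hlen).mem_iff.2 hx

theorem ri_swap {d : ℕ} {R : Rows} (h : RI d R) : RI d R.swap := by
  refine ⟨h.two, h.bot, h.top, ?_⟩
  intro k hk hkd
  show ∃ x ∈ R.bot.take k, x ∉ R.top.take k
  by_contra hcon
  push Not at hcon
  obtain ⟨x, hx, hx'⟩ := h.irr k hk hkd
  apply hx'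
  refine RowA_count ((ri_nd_bot h).sublist (List.take_sublist _ _)) ?_ hcon x hx
  rw [List.length_take, List.length_take, (ri_len h).1, (ri_len h).2]

theorem step_swap (c : Bool) (R : Rows) : step c R.swap = (step (!c) R).swap := by
  cases c <;> rfl

private theorem RowA_ins_take_mem {x y : ℕ} {l : List ℕ} (hy : y ∉ l) (k : ℕ)
    (h : y ∈ (ins x y l).take k) : x ∈ (ins x y l).take k := by
  induction l generalizing k with
  | nil => simp [ins] at h
  | cons z l ih =>
    rw [RowA_ins_cons] at h ⊢
    have hyz : y ≠ z := fun h1 => hy (by rw [h1]; exact List.mem_cons_self)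
    have hyl : y ∉ l := fun h1 => hy (List.mem_cons_of_mem _ h1)
    cases k with
    | zero => simp at h
    | succ k =>
      by_cases hz : z = x
      · rw [if_pos hz, List.take_succ_cons]
        rw [hz]; exact List.mem_cons_self
      · rw [if_neg hz, List.take_succ_cons] at h ⊢
        rcases List.mem_cons.1 h with h1 | h1
        · exact absurd h1 hyz
        · exact List.mem_cons_of_mem _ (ih hyl k h1)

private theorem RowA_ins_take_eq {x y : ℕ} {l : List ℕ} (k : ℕ)
    (h : y ∉ (ins x y l).take k) : (ins x y l).take k = l.take k := by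
  induction l generalizing k with
  | nil => rfl
  | cons z l ih =>
    rw [RowA_ins_cons] at h ⊢
    cases k with
    | zero => simp
    | succ k =>
      by_cases hz : z = x
      · rw [if_pos hz, List.take_succ_cons] at h ⊢
        cases k with
        | zero => simp
        | succ k =>
          exfalso
          apply h
          rw [List.take_succ_cons]
          exact List.mem_cons_of_mem _ List.mem_cons_self
      · rw [if_neg hz, List.take_succ_cons] at h ⊢
        rw [List.take_succ_cons, ih k (fun h1 => h (List.mem_cons_of_mem _ h1))]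

private theorem RowA_step_false {d : ℕ} {R : Rows} (h : RI d R) : RI d (step false R) := by
  obtain ⟨ha, hb, hab⟩ := ri_ab h
  have hnb := RowA_ne_bot h
  have ha' : R.a ∈ R.bot.dropLast := by
    rw [RowA_mem_dropLast hnb (ri_nd_bot h)]
    exact ⟨(ri_mem_bot h _).2 ha, hab⟩
  have hb' : R.b ∉ R.bot.dropLast := by
    rw [RowA_mem_dropLast hnb (ri_nd_bot h)]
    exact fun h1 => h1.2 rfl
  have hperm : (ins R.a R.b R.bot.dropLast).Perm (List.range d) := by
    refine (ins_perm ha').trans ?_
    refine List.Perm.trans ?_ h.bot
    have h1 := dropLast_lst hnb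
    have h2 : (R.b :: R.bot.dropLast).Perm (R.bot.dropLast ++ [R.b]) :=
      (List.perm_append_singleton _ _).symm
    have h3 : R.bot.dropLast ++ [R.b] = R.bot := h1
    rw [h3] at h2
    exact h2
  refine ⟨h.two, h.top, hperm, ?_⟩
  intro k hk hkd
  show ∃ x ∈ R.top.take k, x ∉ (ins R.a R.b R.bot.dropLast).take k
  have hlen : (ins R.a R.b R.bot.dropLast).length = d := hperm.length_eq.trans List.length_range
  by_cases hbk : R.b ∈ (ins R.a R.b R.bot.dropLast).take k
  · have hak := RowA_ins_take_mem hb' k hbk
    by_contra hcon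
    push Not at hcon
    have h1 : R.a ∈ R.top.take k := by
      refine RowA_count ((ri_nd_top h).sublist (List.take_sublist _ _)) ?_ hcon _ hak
      rw [List.length_take, List.length_take, hlen, (ri_len h).1]
    have h2 : R.a ∈ R.top.dropLast := by
      rw [List.dropLast_eq_take, (ri_len h).1]
      exact (List.take_subset_take_left R.top (by omega)) h1
    rw [RowA_mem_dropLast (RowA_ne_top h) (ri_nd_top h)] at h2
    exact h2.2 rfl
  · rw [RowA_ins_take_eq k hbk]
    obtain ⟨x, hx, hx'⟩ := h.irr k hk hkd
    refine ⟨x, hx, ?_⟩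
    rw [List.dropLast_eq_take, List.take_take, (ri_len h).2, min_eq_left (by omega)]
    exact hx'

theorem ri_step {d : ℕ} {R : Rows} (h : RI d R) (c : Bool) : RI d (step c R) := by
  cases c with
  | false => exact RowA_step_false h
  | true =>
    have h1 := RowA_step_false (ri_swap h)
    rw [step_swap] at h1
    exact ri_swap h1

private theorem RowA_headD_dropLast {l : List ℕ} (h : 2 ≤ l.length) :
    l.dropLast.headD 0 = l.headD 0 := by
  cases l with
  | nil => simp at h
  | cons x l =>
    cases l with
    | nil => simp at h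
    | cons y l => rfl

private theorem RowA_head_ne {l : List ℕ} (h : 2 ≤ l.length) (hn : l.Nodup) :
    l.headD 0 ≠ lst l := by
  cases l with
  | nil => simp at h
  | cons x l =>
    cases l with
    | nil => simp at h
    | cons y l =>
      show x ≠ lst (y :: l)
      intro he
      have h1 := lst_mem (List.cons_ne_nil y l)
      rw [← he] at h1
      exact (List.nodup_cons.1 hn).1 h1

private theorem RowA_head_mem {l : List ℕ} (h : 2 ≤ l.length) : l.headD 0 ∈ l := by
  cases l with
  | nil => simp at h
  | cons x l => exact List.mem_cons_self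

/-- The first labels of the rows never change, and they differ from the last ones. -/
theorem ri_head {d : ℕ} {R : Rows} (h : RI d R) (c : Bool) :
    (step c R).top.headD 0 = R.top.headD 0 ∧ (step c R).bot.headD 0 = R.bot.headD 0 ∧
      R.top.headD 0 ≠ R.a ∧ R.bot.headD 0 ≠ R.b ∧ R.top.headD 0 < d ∧ R.bot.headD 0 < d := by
  have h2 := h.two
  obtain ⟨l1, l2⟩ := ri_len h
  have t1 : 2 ≤ R.top.length := by omega
  have t2 : 2 ≤ R.bot.length := by omega
  refine ⟨?_, ?_, RowA_head_ne t1 (ri_nd_top h), RowA_head_ne t2 (ri_nd_bot h),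
    (ri_mem_top h _).1 (RowA_head_mem t1), (ri_mem_bot h _).1 (RowA_head_mem t2)⟩
  · cases c with
    | false => rfl
    | true =>
      show (ins R.b R.a R.top.dropLast).headD 0 = _
      rw [ins_head, RowA_headD_dropLast t1]
  · cases c with
    | false =>
      show (ins R.a R.b R.bot.dropLast).headD 0 = _
      rw [ins_head, RowA_headD_dropLast t2]
    | true => rfl

end Pool.Agent.RTX
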