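import Pool.Agent.RTX.GDefs
import Pool.Agent.RTX.RowA

/-!
# RTX/WinL: a label which wins only finitely often loses only finitely often

From the level `n` on the length of `x` is constant, `= δ > 0` (`stepL` changes only the winner, `win ≠ x`).  The total length
`Σ_{y < d} lam t y` (a sum over `Finset.range d`) drops at each step by the length of the loser (the winner is `< d`, `ri_ab`), it is
nonincreasing and positive; each step with loser `x` costs `δ`.  If `x` lost infinitely often, the total would become negative: choose `N` with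
`N δ > Σ lam n` and `N` levels `≥ n` at which `x` loses.
-/

set_option autoImplicit false

namespace Pool.Agent.RTX

private theorem WinL_win_lt {d : ℕ} {R : Rows} (h : RI d R) (c : Bool) : win c R < d := by
  obtain ⟨ha, hb, -⟩ := ri_ab h
  cases c
  · exact ha
  · exact hb

private theorem WinL_los_lt {d : ℕ} {R : Rows} (h : RI d R) (c : Bool) : los c R < d := by
  obtain ⟨ha, hb, -⟩ := ri_ab h
  cases c
  · exact hb
  · exact ha

private theorem WinL_sum {d : ℕ} {R : ℕ → Rows} {c : ℕ → Bool} {lam : ℕ → ℕ → ℝ}
    (h : LP d R c lam) (t : ℕ) :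
    ∑ y ∈ Finset.range d, lam (t + 1) y =
      ∑ y ∈ Finset.range d, lam t y - lam t (los (c t) (R t)) := by
  rw [h.hl t]
  unfold stepL
  have h1 : ∀ y ∈ Finset.range d,
      (if y = win (c t) (R t) then lam t y - lam t (los (c t) (R t)) else lam t y) =
      lam t y - (if y = win (c t) (R t) then lam t (los (c t) (R t)) else 0) := by
    intro y _
    split_ifs <;> ring
  rw [Finset.sum_congr rfl h1, Finset.sum_sub_distrib, Finset.sum_ite_eq',
    if_pos (Finset.mem_range.2 (WinL_win_lt (h.ri t) _))]

theorem lose_fin {d : ℕ} {R : ℕ → Rows} {c : ℕ → Bool} {lam : ℕ → ℕ → ℝ} (h : LP d R c lam) {x : ℕ} (hx : x < d)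
    {n : ℕ} (hn : ∀ t, n ≤ t → win (c t) (R t) ≠ x) : ∃ m, ∀ t, m ≤ t → los (c t) (R t) ≠ x := by
  by_contra hcon
  push Not at hcon
  have hx1 : ∀ t, n ≤ t → lam t x = lam n x := by
    intro t ht
    induction t, ht using Nat.le_induction with
    | base => rfl
    | succ t ht ih =>
      rw [h.hl t]
      unfold stepL
      rw [if_neg (fun h1 => hn t ht h1.symm), ih]
  have hδ : 0 < lam n x := h.pos n x hx
  have hmono : ∀ s t, s ≤ t → ∑ y ∈ Finset.range d, lam t y ≤ ∑ y ∈ Finset.range d, lam s y := by
    intro s t hst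
    induction t, hst using Nat.le_induction with
    | base => exact le_rfl
    | succ t ht ih =>
      rw [WinL_sum h t]
      have := h.pos t _ (WinL_los_lt (h.ri t) (c t))
      linarith
  have key : ∀ N : ℕ, ∃ t, n ≤ t ∧
      ∑ y ∈ Finset.range d, lam t y ≤ ∑ y ∈ Finset.range d, lam n y - N * lam n x := by
    intro N
    induction N with
    | zero => exact ⟨n, le_rfl, by simp⟩
    | succ N ih =>
      obtain ⟨t, ht, hS⟩ := ih
      obtain ⟨t', ht', hl⟩ := hcon t
      refine ⟨t' + 1, by omega, ?_⟩
      rw [WinL_sum h t', hl, hx1 t' (by omega)]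
      have := hmono t t' ht'
      push_cast
      linarith
  obtain ⟨N, hN⟩ := exists_nat_gt ((∑ y ∈ Finset.range d, lam n y) / lam n x)
  obtain ⟨t, ht, hS⟩ := key N
  rw [div_lt_iff₀ hδ] at hN
  have hpos : 0 ≤ ∑ y ∈ Finset.range d, lam t y :=
    Finset.sum_nonneg fun y hy => (h.pos t y (Finset.mem_range.1 hy)).le
  linarith

end Pool.Agent.RTX
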