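import Pool.Agent.RTX.Reach

/-!
# RTX/Dich: powers at infinitely many levels, or golden for ever

`cov_mem`: `canon R` is a permutation of `range d` (`List.mem_permutations'`), not reducible (`canon_irr`, `RI.irr` for
`rows0 d π`: some `x < k` is not among the first `k` entries of `π`, and these are `k` distinct numbers, so they are not all `< k`).
`dich`: if from `t0` on there is no `fb`, `reach` for `𝒮.shift t0` gives a golden level `t1 ≥ t0`, and `second` for
`𝒮.shift (t1 + n * |gp|)` continues it.
-/

set_option autoImplicit false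

namespace Pool.Agent.RTX

theorem cov_mem {d : ℕ} {L : List (List ℕ)} (h : covOK d L = true) {R : Rows} (hR : RI d R) :
    memL (canon R) L = true := by
  have hI := canon_irr hR
  have hperm : (canon R).Perm (List.range d) := hI.bot
  have h1 : canon R ∈ List.permutations' (List.range d) := List.mem_permutations'.2 hperm
  unfold covOK at h
  rw [List.all_eq_true] at h
  have h2 := h _ h1
  rw [Bool.or_eq_true] at h2
  rcases h2 with h2 | h2
  · exact h2
  · exfalso
    unfold redB at h2
    rw [List.any_eq_true] at h2
    obtain ⟨k, hk, hk2⟩ := h2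
    rw [Bool.and_eq_true, List.all_eq_true] at hk2
    obtain ⟨hk0, hall⟩ := hk2
    have hk0' : 0 < k := by
      have := Nat.le_of_ble_eq_true hk0
      omega
    have hkd : k < d := List.mem_range.1 hk
    obtain ⟨x, hx, hx'⟩ := hI.irr k hk0' hkd
    have hxk : x < k := by
      have h3 : x ∈ (List.range d).take k := hx
      rw [List.take_range, List.mem_range] at h3
      omega
    apply hx'
    show x ∈ (canon R).take k
    have hnd : ((canon R).take k).Nodup := ((hperm.nodup_iff).2 List.nodup_range).sublist (List.take_sublist _ _)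
    have hlen : ((canon R).take k).length = k := by
      have h4 : (canon R).length = d := by simpa using hperm.length_eq
      rw [List.length_take, h4]
      omega
    have hsub : ((canon R).take k).toFinset ⊆ Finset.range k := by
      intro y hy
      rw [List.mem_toFinset] at hy
      have h5 := Nat.le_of_ble_eq_true (hall y hy)
      rw [Finset.mem_range]
      omega
    have hcard : (Finset.range k).card ≤ ((canon R).take k).toFinset.card := by
      rw [List.toFinset_card_of_nodup hnd, hlen, Finset.card_range]
    have heq := Finset.eq_of_subset_of_card_le hsub hcard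
    have h6 : x ∈ ((canon R).take k).toFinset := by
      rw [heq, Finset.mem_range]
      exact hxk
    exact List.mem_toFinset.1 h6

theorem dich {A : Par} {L : List (List ℕ)} (hL : ∀ π, memL π L = true → ∃ rs, Cfd A rs ∧ memL π rs = true)
    (hc : covOK A.d L = true) {t : Crt} (h2 : tree2OK A t = true) {u : ℕ → ℕ} (𝒮 : Sys A.d u) :
    (∀ t0, ∃ t, t0 ≤ t ∧ 𝒮.fb A t) ∨ ∃ t0, ∀ n, 𝒮.gold A (t0 + n * A.gp.length) := by
  by_cases hfb : ∀ t0, ∃ t, t0 ≤ t ∧ 𝒮.fb A t
  · exact Or.inl hfb
  · right
    push Not at hfb
    obtain ⟨t0, ht0⟩ := hfb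
    obtain ⟨rs, hrs, hmem⟩ := hL _ (cov_mem hc (𝒮.ri (t0 + 0)))
    obtain ⟨s, hs⟩ := reach hrs (𝒮.shift t0) hmem
    have hg : 𝒮.gold A (t0 + s) := by
      rcases hs with hs | hs
      · exact absurd ((shift_fb 𝒮 A t0 s).1 hs) (ht0 _ (Nat.le_add_right _ _))
      · exact (shift_gold 𝒮 A t0 s).1 hs
    refine ⟨t0 + s, fun n => ?_⟩
    induction n with
    | zero => simpa using hg
    | succ n ih =>
      have h3 : (𝒮.shift (t0 + s + n * A.gp.length)).gold A 0 := (shift_gold 𝒮 A _ 0).2 (by simpa using ih)
      rcases second h2 _ h3 with h4 | h4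
      · exact absurd ((shift_fb 𝒮 A _ 0).1 h4) (ht0 _ (by omega))
      · have h5 := (shift_gold 𝒮 A _ _).1 h4
        have h6 : t0 + s + (n + 1) * A.gp.length = t0 + s + n * A.gp.length + A.gp.length := by ring
        rw [h6]
        exact h5

end Pool.Agent.RTX
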