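import Pool.Agent.RTX.Reach2
import Pool.Agent.RTX.Dich

/-!
# RTX/Dich2: powers at infinitely many levels, or golden for ever (with `Cfd2`)
-/

set_option autoImplicit false

namespace Pool.Agent.RTX

theorem dich2 {A : Par} {L : List (List ℕ)} (hL : ∀ π, memL π L = true → ∃ rs, Cfd2 A rs ∧ memL π rs = true)
    (hc : covOK A.d L = true) (h2 : Sec A) {u : ℕ → ℕ} (𝒮 : Sys A.d u) :
    (∀ t0, ∃ t, t0 ≤ t ∧ 𝒮.fb A t) ∨ ∃ t0, ∀ n, 𝒮.gold A (t0 + n * A.gp.length) := by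
  by_cases hfb : ∀ t0, ∃ t, t0 ≤ t ∧ 𝒮.fb A t
  · exact Or.inl hfb
  · right
    push Not at hfb
    obtain ⟨t0, ht0⟩ := hfb
    obtain ⟨rs, hrs, hmem⟩ := hL _ (cov_mem hc (𝒮.ri (t0 + 0)))
    obtain ⟨s, hs⟩ := reach2 hrs (𝒮.shift t0) hmem
    have hg : 𝒮.gold A (t0 + s) := by
      rcases hs with hs | hs
      · exact absurd ((shift_fb 𝒮 A t0 s).1 hs) (ht0 _ (Nat.le_add_right _ _))
      · exact (shift_gold 𝒮 A t0 s).1 hs
    refine ⟨t0 + s, fun n => ?_⟩
    induction n with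
    | zero => simpa using hg
    | succ n ih =>
      have h3 : (𝒮.shift (t0 + s + n * A.gp.length)).gold A 0 := (shift_gold 𝒮 A _ 0).2 (by simpa using ih)
      rcases h2 _ _ h3 with h4 | h4
      · exact absurd ((shift_fb 𝒮 A _ 0).1 h4) (ht0 _ (by omega))
      · have h5 := (shift_gold 𝒮 A _ _).1 h4
        have h6 : t0 + s + (n + 1) * A.gp.length = t0 + s + n * A.gp.length + A.gp.length := by ring
        rw [h6]
        exact h5

end Pool.Agent.RTX
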