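import Pool.Agent.RTX.Sem

/-!
# RTX/Shift: shifting a system
-/

set_option autoImplicit false

namespace Pool.Agent.RTX

/-- Forget the first `t` levels. -/
def Sys.shift {d : ℕ} {u : ℕ → ℕ} (𝒮 : Sys d u) (t : ℕ) : Sys d u where
  R n := 𝒮.R (t + n)
  c n := 𝒮.c (t + n)
  σ n := 𝒮.σ (t + n)
  P n := 𝒮.P (t + n)
  S n := 𝒮.S (t + n)
  ri n := 𝒮.ri (t + n)
  hR n := 𝒮.hR (t + n)
  hσ n := 𝒮.hσ (t + n)
  hP n := 𝒮.hP (t + n)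
  hS n := 𝒮.hS (t + n)
  iN n := 𝒮.iN (t + n)
  iT n := 𝒮.iT (t + n)
  iB n := 𝒮.iB (t + n)
  blk n := 𝒮.blk (t + n)
  hts m := by
    obtain ⟨t0, h⟩ := 𝒮.hts m
    exact ⟨t0, fun n hn => h (t + n) (le_trans hn (Nat.le_add_left n t))⟩

theorem shift_fb {d : ℕ} {u : ℕ → ℕ} (𝒮 : Sys d u) (A : Par) (t s : ℕ) :
    (𝒮.shift t).fb A s ↔ 𝒮.fb A (t + s) := Iff.rfl

theorem shift_gold {d : ℕ} {u : ℕ → ℕ} (𝒮 : Sys d u) (A : Par) (t s : ℕ) :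
    (𝒮.shift t).gold A s ↔ 𝒮.gold A (t + s) := by
  unfold Sys.gold Fol Sys.shift
  simp only [Nat.add_assoc]

end Pool.Agent.RTX
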