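import Pool.Agent.RTX.Leaf
import Pool.Agent.RTX.Shift

/-!
# RTX/GoldS: the sequences along the golden loop

The pattern occurs once in every golden loop; its forms are pulled back to the beginning of the loop.
-/

set_option autoImplicit false

namespace Pool.Agent.RTX

open Pool.Agent.Helper44.IET (HasPower)

private theorem GoldS_eqB (l m : List Bool) (h : eqB l m = true) : l = m := by
  induction l generalizing m with
  | nil =>
    cases m with
    | nil => rfl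
    | cons y m => exact absurd h (by simp [eqB])
  | cons x l ih =>
    cases m with
    | nil => exact absurd h (by simp [eqB])
    | cons y m =>
      rw [eqB, Bool.and_eq_true, beq_iff_eq] at h
      rw [h.1, ih m h.2]

private theorem GoldS_rep (n : ℕ) (g : List Bool) : repB (n + 1) g = g ++ repB n g := by
  unfold repB
  rw [List.replicate_succ, List.flatten_cons]

private theorem GoldS_len (n : ℕ) (g : List Bool) : (repB n g).length = n * g.length := by
  induction n with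
  | zero =>
    unfold repB
    simp
  | succ n ih =>
    rw [GoldS_rep, List.length_append, ih]
    ring

private theorem GoldS_fol {c : ℕ → Bool} {g : List Bool} (hg : ∀ k, Fol c (k * g.length) g) (n : ℕ) :
    ∀ k, Fol c (k * g.length) (repB n g) := by
  induction n with
  | zero =>
    intro k j hj
    rw [GoldS_len] at hj
    omega
  | succ n ih =>
    intro k
    rw [GoldS_rep, fol_append]
    refine ⟨hg k, ?_⟩
    have h1 := ih (k + 1)
    rw [add_mul, one_mul] at h1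
    exact h1

theorem gold_seq {A : Par} {D : Gd} {n : ℕ} (h : goldOK A D n = true) {u : ℕ → ℕ} (𝒮 : Sys A.d u)
    (h0 : 𝒮.R 0 = rows0 A.d A.g0) (hg : ∀ k, Fol 𝒮.c (k * A.gp.length) A.gp) :
    ∃ V N : ℕ → ℕ, (∀ k m, 𝒮.high (k * D.gpp.length) m → m ≤ V k) ∧ (∀ k, 0 < V k) ∧
      (∀ k, ∃ j, HasPower u j (V k) (V k + N k)) ∧
      (∀ k, D.c * (V (k + 1) : ℤ) - V k - A.K ≤ V (k + 2)) ∧
      ∀ k, D.A * (N k : ℤ) - V (k + 1) - D.B * V k - A.K ≤ D.A * (N (k + 1) : ℤ) - V (k + 2) - D.B * V (k + 1) := by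
  unfold goldOK at h
  simp only [Bool.and_eq_true, Nat.blt_eq, Nat.ble_eq, eqL_iff] at h
  obtain ⟨⟨⟨⟨⟨⟨⟨⟨⟨-, -⟩, hgpp⟩, htop⟩, hbot⟩, hsm⟩, hs⟩, hpat⟩, hb1⟩, hb2⟩ := h
  have hgpp' := GoldS_eqB _ _ hgpp
  have hlen : D.gpp.length = n * A.gp.length := by rw [hgpp', GoldS_len]
  have hfol : ∀ k, Fol 𝒮.c (k * D.gpp.length) D.gpp := by
    intro k
    have h1 := GoldS_fol hg n (k * n)
    rw [← hgpp', mul_assoc, ← hlen] at h1
    exact h1
  have hrun : runR D.gpp (rows0 A.d A.g0) = rows0 A.d A.g0 := by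
    have h1 : ∀ R : Rows, R.top = List.range A.d → R.bot = A.g0 → R = rows0 A.d A.g0 := by
      rintro ⟨t, b⟩ rfl rfl
      rfl
    exact h1 _ htop hbot
  have hR : ∀ k, 𝒮.R (k * D.gpp.length) = rows0 A.d A.g0 := by
    intro k
    induction k with
    | zero =>
      rw [zero_mul]
      exact h0
    | succ k ih =>
      rw [add_mul, one_mul, ← sys_runR 𝒮 (hfol k), ih, hrun]
  have hts : (D.gpp.take D.pt.s).length = D.pt.s := by
    rw [List.length_take]
    omega
  have hf1 : ∀ k, Fol 𝒮.c (k * D.gpp.length) (D.gpp.take D.pt.s) := by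
    intro k
    have h1 := hfol k
    rw [← List.take_append_drop D.pt.s D.gpp, fol_append] at h1
    rw [List.take_append_drop] at h1
    exact h1.1
  have hRs : ∀ k, 𝒮.R (k * D.gpp.length + D.pt.s) = gR A D := by
    intro k
    have h1 := sys_runR 𝒮 (hf1 k)
    rw [hts, hR k] at h1
    exact h1.symm
  have hf2 : ∀ k, Fol 𝒮.c (k * D.gpp.length + D.pt.s) (gW D) := by
    intro k
    have h1 : Fol 𝒮.c (k * D.gpp.length) (D.gpp ++ D.gpp) := by
      rw [fol_append]
      refine ⟨hfol k, ?_⟩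
      have h2 := hfol (k + 1)
      rw [add_mul, one_mul] at h2
      exact h2
    have h3 : ((D.gpp ++ D.gpp).take D.pt.s).length = D.pt.s := by
      rw [List.length_take, List.length_append]
      omega
    have h4 : D.gpp ++ D.gpp = (D.gpp ++ D.gpp).take D.pt.s ++ (gW D ++ ((D.gpp ++ D.gpp).drop D.pt.s).drop D.m) := by
      unfold gW
      rw [List.take_append_drop, List.take_append_drop]
    rw [h4, fol_append, h3, fol_append] at h1
    exact h1.2.1
  have hpt : ∀ k, (patN A.d (gR A D) (gZ A D) D.pt).ok A.d ∧ (patV A.d (gZ A D) D.pt).ok A.d ∧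
      ∃ j p l : ℕ, (p : ℤ) = (patV A.d (gZ A D) D.pt).ev (𝒮.P (k * D.gpp.length + D.pt.s))
          (𝒮.S (k * D.gpp.length + D.pt.s)) ∧
        (l : ℤ) = (patN A.d (gR A D) (gZ A D) D.pt).ev (𝒮.P (k * D.gpp.length + D.pt.s))
          (𝒮.S (k * D.gpp.length + D.pt.s)) ∧
        0 < p ∧ HasPower u j p (p + l) ∧ ∀ m, 𝒮.high (k * D.gpp.length + D.pt.s) m → m ≤ p := by
    intro k
    have hc : patChk A.d (gW D) (𝒮.R (k * D.gpp.length + D.pt.s)) D.pt = true := by
      rw [hRs k]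
      exact hpat
    have h1 := pat_sound 𝒮 (hf2 k) hc
    rw [hRs k] at h1
    exact h1
  have okN := (hpt 0).1
  have okV := (hpt 0).2.1
  choose j V N hV hN hV0 hpow hhigh using fun k => (hpt k).2.2
  have eN : ∀ k, (gN A D).ev (𝒮.P (k * D.gpp.length)) (𝒮.S (k * D.gpp.length)) = N k := by
    intro k
    have h1 := (ev_pull 𝒮 (hf1 k) okN).1
    rw [hR k, hts, ← hN k] at h1
    exact h1
  have eV : ∀ k, (gV A D).ev (𝒮.P (k * D.gpp.length)) (𝒮.S (k * D.gpp.length)) = V k := by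
    intro k
    have h1 := (ev_pull 𝒮 (hf1 k) okV).1
    rw [hR k, hts, ← hV k] at h1
    exact h1
  have okgN : (gN A D).ok A.d := by
    have h1 := (ev_pull 𝒮 (hf1 0) okN).2
    rw [hR 0] at h1
    exact h1
  have okgV : (gV A D).ok A.d := by
    have h1 := (ev_pull 𝒮 (hf1 0) okV).2
    rw [hR 0] at h1
    exact h1
  have hpull : ∀ {F : LF}, F.ok A.d → (pull D.gpp (rows0 A.d A.g0) F).ok A.d ∧ ∀ k,
      (pull D.gpp (rows0 A.d A.g0) F).ev (𝒮.P (k * D.gpp.length)) (𝒮.S (k * D.gpp.length)) =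
        F.ev (𝒮.P ((k + 1) * D.gpp.length)) (𝒮.S ((k + 1) * D.gpp.length)) := by
    intro F hF
    refine ⟨?_, fun k => ?_⟩
    · have h1 := (ev_pull 𝒮 (hfol 0) hF).2
      rw [hR 0] at h1
      exact h1
    · have h1 := (ev_pull 𝒮 (hfol k) hF).1
      rw [hR k] at h1
      rw [add_mul, one_mul]
      exact h1
  obtain ⟨okV1, eV1⟩ := hpull okgV
  obtain ⟨okV2, eV2⟩ := hpull okV1
  have okF : (gF A D).ok A.d := by
    have h1 := (ev_lin okgN okV1 D.A (-1) (𝒮.P 0) (𝒮.S 0)).2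
    exact (ev_lin h1 okgV 1 (-D.B) (𝒮.P 0) (𝒮.S 0)).2
  obtain ⟨okPF, ePF⟩ := hpull okF
  have eF : ∀ k, (gF A D).ev (𝒮.P (k * D.gpp.length)) (𝒮.S (k * D.gpp.length)) =
      D.A * (N k : ℤ) - V (k + 1) - D.B * V k := by
    intro k
    have h1 := ev_lin okgN okV1 D.A (-1) (𝒮.P (k * D.gpp.length)) (𝒮.S (k * D.gpp.length))
    have h2 := (ev_lin h1.2 okgV 1 (-D.B) (𝒮.P (k * D.gpp.length)) (𝒮.S (k * D.gpp.length))).1
    rw [h1.1, eN, eV, eV1, eV] at h2
    have h3 : (gF A D).ev (𝒮.P (k * D.gpp.length)) (𝒮.S (k * D.gpp.length)) =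
      1 * (D.A * (N k : ℤ) + -1 * (V (k + 1) : ℤ)) + -D.B * (V k : ℤ) := h2
    rw [h3]
    ring
  refine ⟨V, N, fun k m hm => hhigh k m (sys_mono 𝒮 (Nat.le_add_right _ _) hm), hV0,
    fun k => ⟨j k, hpow k⟩, fun k => ?_, fun k => ?_⟩
  · have h1 := ev_lin okV2 okV1 1 (-D.c) (𝒮.P (k * D.gpp.length)) (𝒮.S (k * D.gpp.length))
    have h2 := ev_lin h1.2 okgV 1 1 (𝒮.P (k * D.gpp.length)) (𝒮.S (k * D.gpp.length))
    have hri := 𝒮.ri (k * D.gpp.length)
    have hiN := 𝒮.iN (k * D.gpp.length)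
    rw [hR k] at hri hiN
    have h3 := bdd_sound hri hiN h2.2 hb1
    rw [h2.1, h1.1, eV2, eV1, eV1, eV, eV, eV] at h3
    have h4 : -A.K ≤ 1 * (1 * (V (k + 1 + 1) : ℤ) + -D.c * (V (k + 1) : ℤ)) + 1 * (V k : ℤ) := h3
    have h5 : D.c * (V (k + 1) : ℤ) - V k - A.K ≤ (V (k + 1 + 1) : ℤ) := by linarith
    exact h5
  · have h1 := ev_lin okPF okF 1 (-1) (𝒮.P (k * D.gpp.length)) (𝒮.S (k * D.gpp.length))
    have hri := 𝒮.ri (k * D.gpp.length)
    have hiN := 𝒮.iN (k * D.gpp.length)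
    rw [hR k] at hri hiN
    have h3 := bdd_sound hri hiN h1.2 hb2
    rw [h1.1, ePF, eF, eF] at h3
    have h5 : D.A * (N k : ℤ) - V (k + 1) - D.B * V k - A.K ≤
        D.A * (N (k + 1) : ℤ) - V (k + 1 + 1) - D.B * V (k + 1) := by linarith
    exact h5

end Pool.Agent.RTX
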