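import Mathlib

/-!
# RTX/RealL: the limit along the golden loop

Let `λ` be the larger root of `λ ^ 2 - c λ + 1 = 0`, `c ≥ 3` (so `λ ≥ 2.618`, the other root is `1/λ`).  `V → ∞`.
(1) `A N k ≥ V (k+1) + B V k - (k K + C₀)` (sum the last hypothesis).
(2) For every `ρ < λ` there are infinitely many `k` with `V (k+1) ≥ ρ V k`, and moreover `k K + C₀ ≤ η V k` there: Suppose `V (k+1) < ρ V k`
for all large `k`, where w.l.o.g. `ρ > λ - δ > 1/λ + something`.  Better: show `liminf V (k+1)/V k ≥ λ` along all `k`: put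
`r k = V (k+1)/V k`.  Infinitely often `r k ≥ 1` (else `V` would be bounded).  If `r k ≥ 1` and `V k` is large then
`r (k+1) ≥ c - 1/r k - K/V (k+1) ≥ c - 1 - η ≥ 1`, so `r k ≥ 1` from some `k₀` on, then `r (k+1) ≥ c - 1/r k - η` and the iteration of
`r ↦ c - 1/r - η` (increasing in `r`, contraction with factor `≤ 1/r² ≤ 1/(c-1-η)²`) gives `liminf r ≥ λ_η` with `λ_η → λ`.  In particular `V` grows
exponentially (`r ≥ 3/2`), so `(k K + C₀)/V k → 0`.
Conclusion: `N k / V k ≥ (r k + B)/A - o(1)`.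
-/

set_option autoImplicit false

namespace Pool.Agent.RTX

theorem real_lim {V N : ℕ → ℕ} {c A B K : ℤ} {lam : ℝ} (hc : 3 ≤ c) (hA : 0 < A) (hl : lam ^ 2 - c * lam + 1 = 0)
    (hl1 : 1 < lam) (hpos : ∀ k, 0 < V k) (hV : ∀ m, ∃ k0, ∀ k, k0 ≤ k → m ≤ V k)
    (h1 : ∀ k, c * (V (k + 1) : ℤ) - V k - K ≤ V (k + 2))
    (h2 : ∀ k, A * (N k : ℤ) - V (k + 1) - B * V k - K ≤ A * (N (k + 1) : ℤ) - V (k + 2) - B * V (k + 1)) :
    ∀ ε : ℝ, 0 < ε → ∃ k0, ∀ k, k0 ≤ k → ((lam + B) / A - ε) * (V k : ℝ) ≤ N k := by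
  intro ε hε
  have hl0 : (0 : ℝ) < lam := by linarith
  have hAr : (0 : ℝ) < (A : ℝ) := by exact_mod_cast hA
  obtain ⟨il, hil⟩ : ∃ il : ℝ, il = lam⁻¹ := ⟨_, rfl⟩
  have hlil : lam * il = 1 := by rw [hil]; exact mul_inv_cancel₀ hl0.ne'
  have hil0 : 0 < il := by rw [hil]; positivity
  have hil1 : il < 1 := by rw [hil]; exact inv_lt_one_of_one_lt₀ hl1
  have hc' : (c : ℝ) = lam + il := by
    have h3 : lam * ((c : ℝ) - lam - il) = 0 := by
      have h4 : lam * ((c : ℝ) - lam - il) = c * lam - lam ^ 2 - lam * il := by ring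
      rw [h4, hlil]
      linarith
    rcases mul_eq_zero.1 h3 with h4 | h4
    · exact absurd h4 hl0.ne'
    · linarith
  have hK : (K : ℝ) ≤ |(K : ℝ)| := le_abs_self _
  have hK0 : 0 ≤ |(K : ℝ)| := abs_nonneg _
  have h1' : ∀ k, (c : ℝ) * V (k + 1) - V k - K ≤ V (k + 2) := by
    intro k
    exact_mod_cast h1 k
  have h2' : ∀ k, (A : ℝ) * N k - V (k + 1) - B * V k - K ≤ A * N (k + 1) - V (k + 2) - B * V (k + 1) := by
    intro k
    exact_mod_cast h2 k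
  -- `V (k + 1) ≥ lam * V k - C`
  obtain ⟨C, hC0, hC1, hC2⟩ : ∃ C : ℝ, 0 ≤ C ∧ |(K : ℝ)| ≤ C * (1 - il) ∧
      -C ≤ (V 1 : ℝ) - lam * V 0 := by
    refine ⟨|(V 1 : ℝ) - lam * V 0| + |(K : ℝ)| / (1 - il), ?_, ?_, ?_⟩
    · have : 0 ≤ |(K : ℝ)| / (1 - il) := div_nonneg hK0 (by linarith)
      positivity
    · have h5 : (1 - il) ≠ 0 := by linarith
      have h6 : |(K : ℝ)| / (1 - il) * (1 - il) = |(K : ℝ)| := div_mul_cancel₀ _ h5
      have h7 : 0 ≤ |(V 1 : ℝ) - lam * V 0| * (1 - il) := mul_nonneg (abs_nonneg _) (by linarith)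
      rw [add_mul, h6]
      linarith
    · have h5 : 0 ≤ |(K : ℝ)| / (1 - il) := div_nonneg hK0 (by linarith)
      have h6 := neg_abs_le ((V 1 : ℝ) - lam * V 0)
      linarith
  have hy : ∀ k, -C ≤ (V (k + 1) : ℝ) - lam * V k := by
    intro k
    induction k with
    | zero => exact hC2
    | succ k ih =>
      have h3 := h1' k
      rw [hc'] at h3
      have h4 : -(il * C) ≤ il * ((V (k + 1) : ℝ) - lam * V k) := by
        have := mul_le_mul_of_nonneg_left ih hil0.le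
        linarith
      have h5 : il * ((V (k + 1) : ℝ) - lam * V k) = il * V (k + 1) - (lam * il) * V k := by ring
      rw [h5, hlil] at h4
      have h6 : C * (1 - il) = C - il * C := by ring
      rw [h6] at hC1
      have h7 : (lam + il) * (V (k + 1) : ℝ) = lam * V (k + 1) + il * V (k + 1) := by ring
      rw [h7] at h3
      linarith
  have hu : ∀ k : ℕ, ((A : ℝ) * N 0 - V 1 - B * V 0) - k * |(K : ℝ)| ≤ A * N k - V (k + 1) - B * V k := by
    intro k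
    induction k with
    | zero => simp
    | succ k ih =>
      have h3 := h2' k
      push_cast
      linarith
  obtain ⟨U, hU⟩ : ∃ U : ℝ, U = |(A : ℝ) * N 0 - V 1 - B * V 0| := ⟨_, rfl⟩
  have hU0 : 0 ≤ U := by rw [hU]; exact abs_nonneg _
  have hU1 : -U ≤ (A : ℝ) * N 0 - V 1 - B * V 0 := by rw [hU]; exact neg_abs_le _
  obtain ⟨m, hm⟩ : ∃ m : ℝ, m = (|(K : ℝ)| + 1) / (A * ε) := ⟨_, rfl⟩
  have hAε : 0 < (A : ℝ) * ε := mul_pos hAr hε
  have hm0 : 0 ≤ m := by rw [hm]; positivity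
  have hm1 : (A : ℝ) * ε * m = |(K : ℝ)| + 1 := by
    rw [hm]
    exact mul_div_cancel₀ _ hAε.ne'
  obtain ⟨k1, hk1⟩ := hV ⌈(C + m) / (lam - 1)⌉₊
  have hbig : ∀ k, k1 ≤ k → C + m ≤ (lam - 1) * V k := by
    intro k hk
    have h3 : (C + m) / (lam - 1) ≤ (V k : ℝ) :=
      (Nat.le_ceil _).trans (by exact_mod_cast hk1 k hk)
    rw [div_le_iff₀ (by linarith)] at h3
    linarith
  have hlin : ∀ j : ℕ, m * j ≤ (V (k1 + j) : ℝ) := by
    intro j
    induction j with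
    | zero => simp
    | succ j ih =>
      have h3 := hbig (k1 + j) (by omega)
      have h4 := hy (k1 + j)
      have h5 : k1 + (j + 1) = k1 + j + 1 := by ring
      rw [h5]
      push_cast
      have h6 : (lam - 1) * (V (k1 + j) : ℝ) = lam * V (k1 + j) - V (k1 + j) := by ring
      rw [h6] at h3
      linarith
  refine ⟨k1 + ⌈C + U + k1 * |(K : ℝ)|⌉₊, fun k hk => ?_⟩
  obtain ⟨j, rfl⟩ : ∃ j, k = k1 + j := ⟨k - k1, by omega⟩
  have hj : ⌈C + U + k1 * |(K : ℝ)|⌉₊ ≤ j := by omega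
  have hj' : C + U + k1 * |(K : ℝ)| ≤ (j : ℝ) := (Nat.le_ceil _).trans (by exact_mod_cast hj)
  have h3 := hu (k1 + j)
  have h4 := hy (k1 + j)
  have h5 : (A : ℝ) * ε * (m * j) ≤ A * ε * V (k1 + j) := mul_le_mul_of_nonneg_left (hlin j) hAε.le
  have h6 : (A : ℝ) * ε * (m * j) = (|(K : ℝ)| + 1) * j := by rw [← hm1]; ring
  rw [h6] at h5
  push_cast at h3
  have h7 : (lam + B) * (V (k1 + j) : ℝ) - A * ε * V (k1 + j) ≤ A * N (k1 + j) := by
    have h8 : (lam + B) * (V (k1 + j) : ℝ) = lam * V (k1 + j) + B * V (k1 + j) := by ring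
    have h9 : ((k1 : ℝ) + j) * |(K : ℝ)| = k1 * |(K : ℝ)| + j * |(K : ℝ)| := by ring
    have h10 : (|(K : ℝ)| + 1) * (j : ℝ) = j * |(K : ℝ)| + j := by ring
    rw [h8]
    rw [h9] at h3
    rw [h10] at h5
    linarith
  have h8 : ((lam + B) / A - ε) * (V (k1 + j) : ℝ) =
      ((lam + B) * (V (k1 + j) : ℝ) - A * ε * V (k1 + j)) / A := by
    field_simp
  rw [h8, div_le_iff₀ hAr]
  linarith

end Pool.Agent.RTX
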