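import Pool.Agent.RTX.Dich
import Pool.Agent.RTX.GoldS
import Pool.Agent.RTX.RealL

/-!
# RTX/Lower: the lower bound for a system

`dich`.  First case: given `ε`, `m`, choose `t` large with `high t m'` for `m'` so large that `K ≤ ε Q m'` (`𝒮.hts`), then
`Pw`: `p + l ≥ (1 + P/Q) p - K/Q ≥ (κ - ε) p`.  Second case: `𝒯` of `exists_canon` for `𝒮.shift t0` has `R 0 = rows0 d g0`; `gold_seq`,
`real_lim` (`V → ∞` by `𝒯.hts` and `high`), then `p + l ≥ (1 + (λ + B)/A - ε) p`.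
-/

set_option autoImplicit false

namespace Pool.Agent.RTX

open Pool.Agent.Helper44.IET (HasPower)

private theorem Lower_eqB : ∀ {l m : List Bool}, eqB l m = true → l = m
  | [], [], _ => rfl
  | [], _ :: _, h => by simp [eqB] at h
  | _ :: _, [], h => by simp [eqB] at h
  | x :: l, y :: m, h => by
    simp only [eqB, Bool.and_eq_true, beq_iff_eq] at h
    rw [h.1, Lower_eqB h.2]

private theorem Lower_gpp {A : Par} {D : Gd} {n : ℕ} (h : goldOK A D n = true) : 0 < D.gpp.length := by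
  unfold goldOK at h
  simp only [Bool.and_eq_true] at h
  obtain ⟨⟨⟨⟨⟨⟨⟨⟨⟨hn, hg⟩, he⟩, -⟩, -⟩, -⟩, -⟩, -⟩, -⟩, -⟩ := h
  have hn' : 1 ≤ n := by simpa [Nat.blt, Nat.ble_eq] using hn
  have hg' : 1 ≤ A.gp.length := by simpa [Nat.blt, Nat.ble_eq] using hg
  rw [Lower_eqB he]
  unfold repB
  obtain ⟨k, rfl⟩ := Nat.exists_eq_succ_of_ne_zero (by omega : n ≠ 0)
  rw [List.replicate_succ, List.flatten_cons, List.length_append]
  omega

theorem lower_sys {A : Par} {L : List (List ℕ)}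
    (hL : ∀ π, memL π L = true → ∃ rs, Cfd A rs ∧ memL π rs = true)
    (hc : covOK A.d L = true) {t : Crt} (h2 : tree2OK A t = true) {D : Gd} {n : ℕ} (hg : goldOK A D n = true)
    (hQ : 0 < A.Q) (hP : 0 ≤ A.P) (hK : 0 ≤ A.K) (hc3 : 3 ≤ D.c) (hA : 0 < D.A) {lam κ : ℝ}
    (hl : lam ^ 2 - D.c * lam + 1 = 0) (hl1 : 1 < lam)
    (hκ1 : κ ≤ 1 + (A.P : ℝ) / A.Q) (hκ2 : κ ≤ 1 + (lam + D.B) / D.A) {u : ℕ → ℕ} (𝒮 : Sys A.d u) :
    ∀ ε : ℝ, 0 < ε → ∀ m : ℕ, ∃ i p l : ℕ, 0 < p ∧ m ≤ p ∧ HasPower u i p l ∧ (κ - ε) * p ≤ l := by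
  intro ε hε m
  have hQ' : (0 : ℝ) < A.Q := by exact_mod_cast hQ
  rcases dich hL hc h2 𝒮 with h | ⟨t0, h⟩
  · obtain ⟨M, hM⟩ := exists_nat_ge ((A.K : ℝ) / (ε * A.Q))
    have hM' : (A.K : ℝ) ≤ M * (ε * A.Q) := by
      rwa [div_le_iff₀ (by positivity)] at hM
    obtain ⟨s0, hs0⟩ := 𝒮.hts (m + M)
    obtain ⟨t1, ht1, hfb⟩ := h s0
    obtain ⟨i, p, l, hmp, hp, hpow, hle⟩ := hfb (m + M) (hs0 t1 ht1)
    refine ⟨i, p, p + l, hp, by omega, hpow, ?_⟩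
    have hle' : (A.P : ℝ) * p ≤ A.Q * l + A.K := by exact_mod_cast hle
    have hMp : (M : ℝ) ≤ p := by
      have : M ≤ p := by omega
      exact_mod_cast this
    have h3 : (A.K : ℝ) ≤ p * (ε * A.Q) := hM'.trans (mul_le_mul_of_nonneg_right hMp (by positivity))
    have h4 : (A.P : ℝ) / A.Q * p ≤ l + p * ε := by
      rw [div_mul_eq_mul_div, div_le_iff₀ hQ']
      nlinarith [hle', h3]
    push_cast
    have hp0 : (0 : ℝ) ≤ p := Nat.cast_nonneg p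
    nlinarith [mul_le_mul_of_nonneg_right hκ1 hp0, h4]
  · obtain ⟨𝒯, hT0, hTc, -, hThigh⟩ := exists_canon (𝒮.shift t0)
    have hR : 𝒯.R 0 = rows0 A.d A.g0 := by
      rw [hT0]
      have := (h 0).1
      rw [zero_mul, Nat.add_zero] at this
      show rows0 A.d (canon (𝒮.R (t0 + 0))) = _
      rw [Nat.add_zero, this]
    have hF : ∀ k, Fol 𝒯.c (k * A.gp.length) A.gp := by
      intro k j hj
      rw [hTc]
      have := (h k).2 j hj
      show 𝒮.c (t0 + (k * A.gp.length + j)) = _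
      rw [← Nat.add_assoc]
      exact this
    obtain ⟨V, N, hV, hpos, hpw, h3, h4⟩ := gold_seq hg 𝒯 hR hF
    have hgl := Lower_gpp hg
    have hVinf : ∀ m, ∃ k0, ∀ k, k0 ≤ k → m ≤ V k := by
      intro m
      obtain ⟨s0, hs0⟩ := 𝒯.hts m
      refine ⟨s0, fun k hk => hV k m ?_⟩
      exact hs0 (k * D.gpp.length) (hk.trans (Nat.le_mul_of_pos_right k hgl))
    obtain ⟨k0, hk0⟩ := real_lim hc3 hA hl hl1 hpos hVinf h3 h4 ε hε
    obtain ⟨k1, hk1⟩ := hVinf m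
    obtain ⟨j, hj⟩ := hpw (max k0 k1)
    refine ⟨j, V (max k0 k1), V (max k0 k1) + N (max k0 k1), hpos _, hk1 _ (le_max_right _ _), hj, ?_⟩
    have h5 := hk0 _ (le_max_left k0 k1)
    push_cast
    have hp0 : (0 : ℝ) ≤ (V (max k0 k1) : ℝ) := Nat.cast_nonneg _
    nlinarith [mul_le_mul_of_nonneg_right hκ2 hp0, h5]

end Pool.Agent.RTX
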