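import Pool.Agent.Helper44.IETRotation
import Pool.Agent.Helper28.IET3.Upper
import Pool.Agent.Helper28.IET3.Codes

/-!
# RTX/UG: runs in codings of rotations by `al` avoid the cuts

Model: `Pool.Agent.Helper28.IET3.Final`, lemmas `no_int`, `no_cut`, `power_le` (there for one special exchange).
`run_avoid`: let `x` be the coded point, `C.iter_eq`, `C.interval_iff`.  `m = round (p al)`, `η = p al - m`, `|η| ≤ 1/2`, `η ≠ 0` (`irrational_al`),
`w = x + i al` if `0 < η` and `w = x + i al + η` otherwise, `δ = |η|`.  For `j < n` the points `fract (w + j al)` and `fract (w + j al + δ)` lie in the same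
interval `[g c', g (c' + 1))` of length `≤ 1/2`.  If an integer `N` were in `(w + j al, w + j al + δ]`, then `fract (w + j al) = w + j al - N + 1` and
`fract (w + j al + δ) = w + j al + δ - N`; the difference is `1 - δ ≥ 1/2`, impossible in a half-open interval of length `≤ 1/2`.  So the two floors agree, and
a cut `g c + q` in `(w + j al, w + j al + δ]` would give `g c` (if `q` is the floor) in `(fract (w + j al), fract (w + j al + δ)]`, between two points of
`[g c', g (c' + 1))`, impossible (`C.g_mono`); if `q` is not the floor then, as `0 ≤ g c < 1`, the integer `q` (when `q` is larger) is in the arc or the cut is too small.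
`coding_ex`: the itinerary of `0` (`C.exists_interval`), `C.irreducible`.
`crit_le`: as in `thresholds3` of `IET3.Final`.
-/

set_option autoImplicit false

namespace Pool.Agent.RTX

open Pool.Agent.Helper44.IET Pool.Agent.Helper28.IET3

private theorem ug_same {d : ℕ} (C : Cuts d) (hlen : ∀ i < d, C.g (i + 1) - C.g i ≤ 1 / 2) {v δ : ℝ}
    (hδ0 : 0 < δ) (hδ : δ ≤ 1 / 2) {a : Fin d} (h1 : Int.fract v ∈ C.ex.interval a)
    (h2 : Int.fract (v + δ) ∈ C.ex.interval a) (c : ℕ) (hc : c < d) (q : ℤ) :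
    ¬ (v < C.g c + q ∧ C.g c + q ≤ v + δ) := by
  rintro ⟨e1, e2⟩
  rw [C.interval_iff] at h1 h2
  have hla := hlen a a.2
  have hfv := Int.floor_le v
  have hfv' := Int.lt_floor_add_one v
  have hfl : ⌊v + δ⌋ = ⌊v⌋ := by
    rw [Int.floor_eq_iff]
    refine ⟨by linarith, ?_⟩
    by_contra h3
    push Not at h3
    have f2 : Int.fract (v + δ) = v + δ - (⌊v⌋ + 1) := by
      have e : v + δ = (v + δ - (⌊v⌋ + 1)) + ((⌊v⌋ + 1 : ℤ) : ℝ) := by push_cast; ring
      conv_lhs => rw [e]
      rw [Int.fract_add_intCast]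
      exact Int.fract_eq_self.mpr ⟨by linarith, by linarith⟩
    have f1 : Int.fract v = v - ⌊v⌋ := rfl
    rw [f1] at h1
    rw [f2] at h2
    linarith [h1.2, h2.1]
  have f1 : Int.fract v = v - ⌊v⌋ := rfl
  have f2 : Int.fract (v + δ) = v + δ - ⌊v⌋ := by rw [Int.fract, hfl]
  rw [f1] at h1
  rw [f2] at h2
  have g0 : 0 ≤ C.g c := by
    rcases Nat.eq_zero_or_pos c with h | h
    · rw [h, C.zero]
    · have := C.g_mono h hc.le
      rw [C.zero] at this
      exact this.le
  have g1 : C.g c < 1 := by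
    have := C.g_mono hc le_rfl
    rwa [C.last] at this
  have hfl' := Int.lt_floor_add_one (v + δ)
  rw [hfl] at hfl'
  have hq : q = ⌊v⌋ := by
    have t1 : (q : ℝ) < ⌊v⌋ + 1 := by linarith
    have t2 : (⌊v⌋ : ℝ) < q + 1 := by linarith
    have t3 : q < ⌊v⌋ + 1 := by exact_mod_cast t1
    have t4 : ⌊v⌋ < q + 1 := by exact_mod_cast t2
    omega
  rw [hq] at e1 e2
  rcases lt_trichotomy c (a : ℕ) with h | h | h
  · have := C.g_mono h a.2.le
    linarith [h1.1]
  · rw [h] at e1
    linarith [h1.1]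
  · have h3 : C.g ((a : ℕ) + 1) ≤ C.g c := by
      rcases Nat.lt_or_ge ((a : ℕ) + 1) c with h4 | h4
      · exact (C.g_mono h4 hc.le).le
      · have : c = (a : ℕ) + 1 := by omega
        rw [this]
    linarith [h2.2]

theorem run_avoid {d : ℕ} (C : Cuts d) (hlen : ∀ i < d, C.g (i + 1) - C.g i ≤ 1 / 2) {u : ℕ → Fin d}
    (hu : C.ex.IsCoding u) {i p n : ℕ} (hp : 0 < p) (h : HasPower u i p (p + n)) :
    ∃ (w : ℝ) (m : ℤ), 0 < |(p : ℝ) * al - m| ∧ ∀ j : ℕ, j < n → ∀ c < d, ∀ q : ℤ,
      ¬ (w + j * al < C.g c + q ∧ C.g c + q ≤ w + j * al + |(p : ℝ) * al - m|) := by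
  obtain ⟨x, ⟨hx0, hx1⟩, hcod⟩ := hu
  have hpt : ∀ t, Int.fract (x + t * al) ∈ C.ex.interval (u t) := by
    intro t
    rw [← C.iter_eq x hx0 hx1]
    exact hcod t
  set P : ℤ := round ((p : ℝ) * al) with hP
  set η : ℝ := (p : ℝ) * al - P with hη
  have hη1 : |η| ≤ 1 / 2 := abs_sub_round _
  have hη0 : η ≠ 0 := by
    intro h0
    have h1 : re (-P) p = 0 := by
      unfold re
      push_cast
      linarith
    have h2 := (re_eq_zero h1).2
    omega
  have hpos : 0 < |η| := abs_pos.mpr hη0
  rcases lt_or_gt_of_ne hη0 with hneg | hpo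
  · refine ⟨x + i * al + η, P, hpos, fun j hj c hc q => ?_⟩
    refine ug_same C hlen hpos hη1 (a := u (i + j)) ?_ ?_ c hc q
    · have := hpt (i + j + p)
      rw [← h j (by omega)] at this
      have e : x + ((i + j + p : ℕ) : ℝ) * al = x + i * al + η + j * al + (P : ℤ) := by
        rw [hη]; push_cast; ring
      rw [e, Int.fract_add_intCast] at this; exact this
    · have := hpt (i + j)
      have e : x + ((i + j : ℕ) : ℝ) * al = x + i * al + η + j * al + |η| := by
        rw [abs_of_neg hneg]; push_cast; ring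
      rw [e] at this; exact this
  · refine ⟨x + i * al, P, hpos, fun j hj c hc q => ?_⟩
    refine ug_same C hlen hpos hη1 (a := u (i + j)) ?_ ?_ c hc q
    · have := hpt (i + j)
      have e : x + ((i + j : ℕ) : ℝ) * al = x + i * al + j * al := by push_cast; ring
      rw [e] at this; exact this
    · have := hpt (i + j + p)
      rw [← h j (by omega)] at this
      have e : x + ((i + j + p : ℕ) : ℝ) * al = x + i * al + j * al + |η| + (P : ℤ) := by
        rw [abs_of_pos hpo, hη]; push_cast; ring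
      rw [e, Int.fract_add_intCast] at this; exact this

theorem coding_ex {d : ℕ} (C : Cuts d) (hK : C.ex.Keane) : ∃ u ∈ Codings d, C.ex.IsCoding u := by
  have h : ∀ n : ℕ, ∃ j, C.ex.T^[n] (0 : ℝ) ∈ C.ex.interval j := by
    intro n
    rw [C.iter_eq 0 le_rfl one_pos]
    exact C.exists_interval _ (Int.fract_nonneg _) (Int.fract_lt_one _)
  choose u hu using h
  have hc : C.ex.IsCoding u := ⟨0, ⟨le_rfl, one_pos⟩, hu⟩
  exact ⟨u, ⟨C.ex, C.irreducible, hK, hc⟩, hc⟩

theorem crit_le {A : Type*} (u : ℕ → A) (κ : ℝ) (h1 : 1 ≤ κ)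
    (h : ∀ i p n : ℕ, 0 < p → HasPower u i p (p + n) → (n : ℝ) ≤ (κ - 1) * p) :
    critExp u ≤ (κ : EReal) ∧ asympCritExp u ≤ (κ : EReal) := by
  have hup : critExp u ≤ (κ : EReal) := by
    unfold critExp
    refine iSup_le fun i => iSup_le fun p => iSup_le fun l => iSup_le fun hp => iSup_le fun hh => ?_
    have hpr : (0 : ℝ) < p := by exact_mod_cast hp
    have h2 : (l : ℝ) / p ≤ κ := by
      rw [div_le_iff₀ hpr]
      rcases Nat.lt_or_ge l p with hl | hl
      · have : (l : ℝ) ≤ p := by exact_mod_cast hl.le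
        nlinarith
      · obtain ⟨n, rfl⟩ := Nat.exists_eq_add_of_le hl
        have := h i p n hp hh
        push_cast
        linarith
    exact_mod_cast h2
  refine ⟨hup, ?_⟩
  unfold asympCritExp
  have hne : critExp u ≠ ⊤ := ne_top_of_le_ne_top (EReal.coe_ne_top _) hup
  rw [if_neg hne]
  refine le_trans (iInf_le _ 0) (le_trans ?_ hup)
  unfold critExpFrom critExp
  refine iSup_mono fun i => iSup_mono fun p => iSup_mono fun l => iSup_mono fun hp => ?_
  exact iSup_le fun _ => le_rfl

end Pool.Agent.RTX
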