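import Pool.Agent.RTX.Par

/-!
# RTX certificates: the Rauzy class of 1302 (4 intervals)
-/

set_option autoImplicit false
set_option maxRecDepth 100000

namespace Pool.Agent.RTX

theorem c4_3210_0 : treeOK par4 []
    (gold1 par4 (rows0 4 [1, 3, 0, 2])) (rows0 4 [1, 3, 0, 2])
    (.N (.N (.N (.N (.F ⟨⟨0,4,0,0,1,1,2⟩,[]⟩) (.N (.F ⟨⟨3,4,0,0,1,1,1⟩,[(0,31),(1,31)]⟩) (.N (.N (.N (.N (.N (.N (.F ⟨⟨5,4,0,1,2,1,2⟩,[(1,69)]⟩) (.F ⟨⟨2,4,1,1,6,1,1⟩,[(1,69)]⟩)) (.F ⟨⟨2,0,1,1,2,1,1⟩,[(1,69)]⟩)) (.F ⟨⟨2,1,1,1,2,1,1⟩,[(1,69)]⟩)) (.N (.N (.N (.F ⟨⟨3,4,1,3,5,3,4⟩,[(0,31)]⟩) (.N (.F ⟨⟨10,4,0,0,1,1,1⟩,[(0,-69)]⟩)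 (.F ⟨⟨7,4,0,0,0,1,1⟩,[(0,62),(1,31)]⟩))) (.N (.N (.N (.F ⟨⟨9,4,0,0,1,1,1⟩,[(0,-69)]⟩) (.N (.F ⟨⟨12,4,0,0,1,1,1⟩,[(0,207),(1,345)]⟩) (.N (.N (.N (.F ⟨⟨10,4,0,1,3,1,1⟩,[(0,38),(1,76)]⟩) (.F ⟨⟨15,4,0,0,0,1,1⟩,[(0,45),(1,152)]⟩)) (.F ⟨⟨6,0,4,2,4,3,4⟩,[(0,38),(1,76)]⟩)) (.F ⟨⟨8,4,3,1,0,3,4⟩,[(0,7),(1,45)]⟩)))) (.F ⟨⟨10,4,0,0,0,1,1⟩,[(0,62),(1,31)]⟩)) (.N (.F ⟨⟨10,4,0,0,1,1,1⟩,[(0,69),(1,138)]⟩) (.F ⟨⟨3,4,2,1,0,2,4⟩,[(0,69),(1,138)]⟩)))) (.F ⟨⟨7,4,0,0,0,1,2⟩,[]⟩))) (.N (.F ⟨⟨3,4,1,0,2,2,3⟩,[]⟩) (.N (.N (.N (.F ⟨⟨4,4,1,3,5,3,4⟩,[(0,62),(1,31)]⟩) (.N (.F ⟨⟨3,0,1,3,2,2,2⟩,[(0,69),(1,38)]⟩)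 (.N (.F ⟨⟨3,4,1,3,2,2,2⟩,[(0,69),(1,38)]⟩) (.F ⟨⟨6,4,1,0,0,1,1⟩,[(0,69),(1,38)]⟩)))) (.F ⟨⟨8,4,0,0,0,1,1⟩,[(0,38),(1,138)]⟩)) (.F ⟨⟨5,4,0,0,0,1,1⟩,[(0,31),(1,31)]⟩)))) (.N (.N (.F ⟨⟨3,4,1,0,1,2,3⟩,[]⟩) (.F ⟨⟨6,4,0,0,0,1,1⟩,[(0,31),(1,31)]⟩)) (.N (.F ⟨⟨6,4,0,0,1,1,1⟩,[(0,31),(1,31)]⟩) (.N (.N (.N (.F ⟨⟨5,4,1,2,3,2,3⟩,[(0,31)]⟩) (.F ⟨⟨9,4,0,0,0,1,1⟩,[(0,38),(1,138)]⟩)) (.F ⟨⟨3,4,2,0,3,1,1⟩,[]⟩)) (.F ⟨⟨3,4,1,0,0,1,2⟩,[]⟩))))))) (.N (.N (.N (.F ⟨⟨1,4,0,0,1,2,3⟩,[(0,31),(1,31)]⟩) (.F ⟨⟨4,4,0,0,0,1,1⟩,[]⟩)) (.N (.F ⟨⟨4,4,0,0,1,1,1⟩,[(0,62),(1,62)]⟩) (.N (.N (.N (.N (.N (.N (.F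 ⟨⟨6,4,0,1,2,1,2⟩,[(1,69)]⟩) (.F ⟨⟨3,4,1,1,6,1,1⟩,[(1,69)]⟩)) (.F ⟨⟨3,0,1,1,2,1,1⟩,[(1,69)]⟩)) (.F ⟨⟨3,1,1,1,2,1,1⟩,[(1,69)]⟩)) (.N (.N (.F ⟨⟨1,0,2,3,1,3,4⟩,[(0,69),(1,38)]⟩) (.N (.F ⟨⟨1,1,2,3,1,3,4⟩,[(0,69),(1,38)]⟩) (.N (.F ⟨⟨4,4,1,1,2,3,5⟩,[(0,169),(1,238)]⟩) (.F ⟨⟨4,4,2,1,0,2,4⟩,[(0,69),(1,138)]⟩)))) (.F ⟨⟨8,4,0,0,0,1,2⟩,[(0,-69),(1,-69)]⟩))) (.N (.F ⟨⟨7,4,0,0,1,1,1⟩,[(0,-69),(1,-69)]⟩) (.N (.F ⟨⟨2,4,1,0,2,3,4⟩,[(0,-69),(1,-69)]⟩) (.F ⟨⟨6,4,0,0,0,1,1⟩,[(0,-38),(1,-38)]⟩)))) (.N (.N (.F ⟨⟨4,4,1,0,1,2,3⟩,[(0,31),(1,31)]⟩) (.F ⟨⟨7,4,0,0,0,1,1⟩,[(0,-38),(1,-38)]⟩)) (.N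 (.F ⟨⟨4,4,1,0,1,2,3⟩,[(0,62),(1,62)]⟩) (.N (.N (.N (.F ⟨⟨6,4,1,2,3,2,3⟩,[(0,31)]⟩) (.N (.F ⟨⟨4,4,2,2,0,3,4⟩,[(0,31)]⟩) (.F ⟨⟨11,4,0,0,0,1,2⟩,[(0,-69),(1,-69)]⟩))) (.F ⟨⟨4,4,2,0,3,1,1⟩,[]⟩)) (.F ⟨⟨4,4,1,0,0,1,2⟩,[]⟩))))))) (.F ⟨⟨2,4,0,0,0,1,2⟩,[(0,-69),(1,-69)]⟩))) (.N (.N (.F ⟨⟨2,4,0,0,1,1,2⟩,[(0,-69),(1,-69)]⟩) (.N (.N (.N (.N (.N (.N (.F ⟨⟨4,4,0,1,2,1,2⟩,[(1,69)]⟩) (.F ⟨⟨0,4,1,1,6,1,1⟩,[(1,69)]⟩)) (.F ⟨⟨0,0,1,1,4,1,1⟩,[(1,69)]⟩)) (.F ⟨⟨0,1,1,1,4,1,1⟩,[(1,69)]⟩)) (.N (.N (.N (.N (.F ⟨⟨2,4,0,2,4,2,3⟩,[(0,-69)]⟩) (.F ⟨⟨9,4,0,0,0,1,1⟩,[(0,38),(1,107)]⟩)) (.N (.F ⟨⟨9,4,0,0,1,1,1⟩,[(0,-69)]⟩)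 (.F ⟨⟨4,4,0,1,0,2,3⟩,[(0,69),(1,138)]⟩))) (.N (.N (.F ⟨⟨2,4,0,2,4,3,4⟩,[(0,-69)]⟩) (.F ⟨⟨4,4,0,1,0,2,3⟩,[(0,69),(1,138)]⟩)) (.N (.F ⟨⟨9,4,0,0,1,1,1⟩,[(0,69),(1,138)]⟩) (.F ⟨⟨1,4,3,1,0,3,5⟩,[(0,69),(1,138)]⟩)))) (.F ⟨⟨6,4,0,0,0,1,2⟩,[]⟩))) (.N (.F ⟨⟨0,4,1,0,4,2,4⟩,[]⟩) (.N (.N (.F ⟨⟨2,4,2,2,0,3,4⟩,[(0,-31),(1,-62)]⟩) (.F ⟨⟨7,4,0,0,0,1,1⟩,[(0,38),(1,138)]⟩)) (.F ⟨⟨4,4,0,0,0,1,1⟩,[(0,62),(1,62)]⟩)))) (.N (.N (.F ⟨⟨0,4,1,0,2,2,4⟩,[]⟩) (.F ⟨⟨5,4,0,0,0,1,1⟩,[(0,62),(1,62)]⟩)) (.N (.F ⟨⟨5,4,0,0,1,1,1⟩,[(0,-38),(1,-38)]⟩) (.N (.N (.N (.F ⟨⟨4,4,1,2,3,2,3⟩,[(0,-38),(1,-69)]⟩) (.F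 ⟨⟨8,4,0,0,0,1,1⟩,[(0,38),(1,138)]⟩)) (.F ⟨⟨1,4,3,0,4,2,2⟩,[(0,31),(1,31)]⟩)) (.F ⟨⟨1,4,2,0,0,2,3⟩,[(0,31),(1,31)]⟩)))))) (.N (.N (.N (.N (.N (.N (.F ⟨⟨3,4,0,1,2,1,2⟩,[(1,69)]⟩) (.F ⟨⟨0,4,1,1,6,1,1⟩,[(1,69)]⟩)) (.F ⟨⟨0,0,1,1,2,1,1⟩,[(1,69)]⟩)) (.F ⟨⟨0,1,1,1,2,1,1⟩,[(1,69)]⟩)) (.N (.N (.N (.N (.N (.F ⟨⟨4,4,0,2,3,2,3⟩,[(0,-69)]⟩) (.N (.F ⟨⟨4,4,0,3,4,2,2⟩,[(0,-69)]⟩) (.N (.F ⟨⟨11,4,0,0,1,1,1⟩,[(0,138),(1,276)]⟩) (.F ⟨⟨7,4,2,1,0,2,3⟩,[(0,38),(1,76)]⟩)))) (.F ⟨⟨8,4,0,0,0,1,1⟩,[(0,38),(1,107)]⟩)) (.N (.F ⟨⟨8,4,0,0,1,1,1⟩,[(0,-69)]⟩) (.F ⟨⟨5,4,0,0,0,1,1⟩,[(0,62),(1,31)]⟩))) (.N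 (.N (.N (.F ⟨⟨7,4,0,0,1,1,1⟩,[(0,-69)]⟩) (.N (.F ⟨⟨10,4,0,0,1,1,1⟩,[(0,207),(1,345)]⟩) (.N (.N (.N (.F ⟨⟨8,4,0,1,3,1,1⟩,[(0,38),(1,76)]⟩) (.F ⟨⟨4,0,4,2,4,3,4⟩,[(0,38),(1,76)]⟩)) (.F ⟨⟨4,0,4,2,4,3,4⟩,[(0,38),(1,76)]⟩)) (.F ⟨⟨6,4,3,1,0,3,4⟩,[(0,7),(1,45)]⟩)))) (.F ⟨⟨8,4,0,0,0,1,1⟩,[(0,62),(1,31)]⟩)) (.N (.N (.F ⟨⟨9,4,0,0,1,1,2⟩,[(0,69),(1,138)]⟩) (.F ⟨⟨1,4,3,1,5,2,2⟩,[(0,31)]⟩)) (.F ⟨⟨1,4,2,1,0,2,4⟩,[(0,69),(1,138)]⟩)))) (.F ⟨⟨5,4,0,0,0,1,2⟩,[]⟩))) (.N (.F ⟨⟨0,4,1,0,2,2,4⟩,[]⟩) (.N (.N (.N (.F ⟨⟨1,0,1,3,2,2,2⟩,[(0,69),(1,38)]⟩) (.N (.F ⟨⟨1,0,1,3,2,2,2⟩,[(0,69),(1,38)]⟩)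 (.N (.F ⟨⟨1,4,1,3,2,2,2⟩,[(0,69),(1,38)]⟩) (.F ⟨⟨4,4,1,0,0,1,1⟩,[(0,69),(1,38)]⟩)))) (.F ⟨⟨6,4,0,0,0,1,1⟩,[(0,38),(1,138)]⟩)) (.F ⟨⟨3,4,0,0,0,1,1⟩,[(0,31),(1,31)]⟩)))) (.N (.N (.N (.F ⟨⟨0,4,1,0,2,2,4⟩,[]⟩) (.N (.F ⟨⟨6,4,0,0,1,1,1⟩,[(0,31),(1,31)]⟩) (.N (.N (.N (.F ⟨⟨3,4,1,2,4,2,3⟩,[(0,31)]⟩) (.N (.N (.N (.F ⟨⟨6,4,1,3,5,3,4⟩,[(0,31)]⟩) (.N (.F ⟨⟨13,4,0,0,1,1,1⟩,[(0,-69)]⟩) (.F ⟨⟨10,4,0,0,0,1,1⟩,[(0,62),(1,31)]⟩))) (.N (.N (.N (.F ⟨⟨12,4,0,0,1,1,1⟩,[(0,-69)]⟩) (.N (.F ⟨⟨15,4,0,0,1,1,1⟩,[(0,628),(1,766)]⟩) (.F ⟨⟨10,4,2,2,4,3,4⟩,[(0,62)]⟩))) (.F ⟨⟨13,4,0,0,0,1,1⟩,[(0,62),(1,31)]⟩))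 (.F ⟨⟨4,4,2,2,0,3,4⟩,[(0,107),(1,76)]⟩))) (.F ⟨⟨10,4,0,0,0,1,2⟩,[]⟩))) (.N (.F ⟨⟨9,4,0,0,1,1,1⟩,[]⟩) (.N (.F ⟨⟨3,4,2,0,3,3,3⟩,[]⟩) (.F ⟨⟨8,4,0,0,0,1,1⟩,[(0,31),(1,31)]⟩)))) (.N (.N (.F ⟨⟨6,4,1,0,1,2,3⟩,[]⟩) (.F ⟨⟨9,4,0,0,0,1,1⟩,[(0,31),(1,31)]⟩)) (.N (.F ⟨⟨9,4,0,0,1,1,1⟩,[(0,31),(1,31)]⟩) (.N (.N (.N (.F ⟨⟨8,4,1,2,3,2,3⟩,[(0,31)]⟩) (.F ⟨⟨12,4,0,0,0,1,1⟩,[(0,145),(1,245)]⟩)) (.F ⟨⟨6,4,2,0,3,1,1⟩,[]⟩)) (.F ⟨⟨6,4,1,0,0,1,2⟩,[]⟩))))))) (.F ⟨⟨4,4,0,0,0,1,1⟩,[(0,31),(1,31)]⟩)) (.N (.N (.F ⟨⟨5,4,0,0,1,1,2⟩,[(0,-69),(1,-69)]⟩) (.N (.N (.N (.F ⟨⟨3,4,1,2,4,2,3⟩,[(0,31)]⟩) (.N (.N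 (.N (.N (.F ⟨⟨5,4,0,2,4,2,3⟩,[(0,-69)]⟩) (.F ⟨⟨12,4,0,0,0,1,1⟩,[(0,145),(1,214)]⟩)) (.N (.F ⟨⟨12,4,0,0,1,1,1⟩,[(0,-69)]⟩) (.F ⟨⟨7,4,0,1,0,2,3⟩,[(0,176),(1,245)]⟩))) (.N (.N (.F ⟨⟨5,4,0,2,4,3,4⟩,[(0,-69)]⟩) (.F ⟨⟨7,4,0,1,0,2,3⟩,[(0,176),(1,245)]⟩)) (.N (.F ⟨⟨12,4,0,0,1,1,1⟩,[(0,176),(1,245)]⟩) (.F ⟨⟨4,4,3,1,0,3,5⟩,[(0,207),(1,276)]⟩)))) (.F ⟨⟨9,4,0,0,0,1,2⟩,[]⟩))) (.F ⟨⟨1,4,2,0,5,1,1⟩,[]⟩)) (.F ⟨⟨1,4,2,0,3,1,1⟩,[]⟩))) (.N (.N (.N (.F ⟨⟨3,4,1,2,3,2,3⟩,[(0,31)]⟩) (.N (.F ⟨⟨1,4,2,2,0,3,4⟩,[(0,31)]⟩) (.F ⟨⟨8,4,0,0,0,1,2⟩,[]⟩))) (.F ⟨⟨1,4,2,0,3,1,1⟩,[]⟩)) (.F ⟨⟨1,4,1,0,0,1,2⟩,[]⟩)))))))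 (.N (.N (.N (.N (.F ⟨⟨1,4,0,0,1,1,2⟩,[(0,-69),(1,-69)]⟩) (.N (.F ⟨⟨4,4,0,0,1,1,1⟩,[(0,-7),(1,-7)]⟩) (.N (.N (.N (.N (.N (.N (.F ⟨⟨6,4,0,1,2,1,2⟩,[(1,69)]⟩) (.F ⟨⟨3,4,1,1,6,1,1⟩,[(1,69)]⟩)) (.F ⟨⟨3,0,1,1,2,1,1⟩,[(1,69)]⟩)) (.F ⟨⟨3,1,1,1,2,1,1⟩,[(1,69)]⟩)) (.N (.F ⟨⟨2,4,2,2,0,3,4⟩,[(0,-38),(1,-69)]⟩) (.F ⟨⟨8,4,0,0,0,1,2⟩,[(0,-138),(1,-138)]⟩))) (.F ⟨⟨3,4,1,0,2,2,2⟩,[(0,-38),(1,-38)]⟩)) (.N (.F ⟨⟨3,4,1,0,2,2,2⟩,[(0,-38),(1,-38)]⟩) (.N (.F ⟨⟨7,4,0,0,1,1,1⟩,[(0,24),(1,24)]⟩) (.N (.N (.N (.F ⟨⟨6,4,1,2,3,2,3⟩,[(0,-38),(1,-69)]⟩) (.F ⟨⟨10,4,0,0,0,1,1⟩,[(0,38),(1,138)]⟩)) (.F ⟨⟨4,4,2,0,3,1,1⟩,[(0,-69),(1,-69)]⟩))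 (.F ⟨⟨4,4,1,0,0,1,2⟩,[(0,-69),(1,-69)]⟩))))))) (.N (.N (.F ⟨⟨1,4,0,0,1,3,4⟩,[(0,-7),(1,-7)]⟩) (.F ⟨⟨3,4,0,0,1,1,1⟩,[(0,-38),(1,-38)]⟩)) (.F ⟨⟨3,4,0,0,0,1,2⟩,[]⟩))) (.N (.N (.F ⟨⟨3,4,0,0,1,1,2⟩,[]⟩) (.N (.N (.N (.N (.N (.N (.F ⟨⟨5,4,0,1,2,1,2⟩,[(1,69)]⟩) (.F ⟨⟨1,4,1,1,6,1,1⟩,[(1,69)]⟩)) (.F ⟨⟨1,0,1,1,4,1,1⟩,[(1,69)]⟩)) (.F ⟨⟨1,1,1,1,4,1,1⟩,[(1,69)]⟩)) (.N (.N (.N (.N (.F ⟨⟨3,4,0,2,4,2,3⟩,[(0,-138),(1,-69)]⟩) (.F ⟨⟨10,4,0,0,0,1,1⟩,[(0,38),(1,107)]⟩)) (.N (.F ⟨⟨10,4,0,0,1,1,1⟩,[(0,-107),(1,-38)]⟩) (.F ⟨⟨5,4,0,1,0,2,3⟩,[(0,69),(1,138)]⟩))) (.N (.N (.F ⟨⟨3,4,0,2,4,3,4⟩,[(0,-107),(1,-38)]⟩)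 (.F ⟨⟨5,4,0,1,0,2,3⟩,[(0,69),(1,138)]⟩)) (.F ⟨⟨1,4,3,2,0,4,5⟩,[(0,-31),(1,-62)]⟩))) (.F ⟨⟨7,4,0,0,0,1,2⟩,[(0,-69),(1,-69)]⟩))) (.N (.F ⟨⟨6,4,0,0,1,1,1⟩,[(0,-69),(1,-69)]⟩) (.N (.N (.F ⟨⟨3,4,2,2,0,3,4⟩,[(0,-31),(1,-62)]⟩) (.F ⟨⟨8,4,0,0,0,1,1⟩,[(0,38),(1,138)]⟩)) (.F ⟨⟨5,4,0,0,0,1,1⟩,[(0,69),(1,69)]⟩)))) (.N (.N (.F ⟨⟨3,4,0,0,2,1,1⟩,[(0,-69),(1,-69)]⟩) (.F ⟨⟨6,4,0,0,0,1,1⟩,[(0,69),(1,69)]⟩)) (.N (.F ⟨⟨6,4,0,0,1,1,1⟩,[(0,69),(1,69)]⟩) (.N (.N (.N (.F ⟨⟨5,4,1,2,3,2,3⟩,[(0,69),(1,38)]⟩) (.F ⟨⟨9,4,0,0,0,1,1⟩,[(0,38),(1,138)]⟩)) (.F ⟨⟨2,4,3,0,4,2,2⟩,[(0,69),(1,69)]⟩)) (.F ⟨⟨2,4,2,0,0,2,3⟩,[(0,69),(1,69)]⟩))))))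 (.N (.N (.N (.N (.N (.N (.F ⟨⟨4,4,0,1,2,1,2⟩,[(1,69)]⟩) (.F ⟨⟨1,4,1,1,6,1,1⟩,[(1,69)]⟩)) (.F ⟨⟨1,0,1,1,2,1,1⟩,[(1,69)]⟩)) (.F ⟨⟨1,1,1,1,2,1,1⟩,[(1,69)]⟩)) (.N (.N (.N (.N (.N (.F ⟨⟨5,4,0,2,3,2,3⟩,[(0,-138),(1,-69)]⟩) (.N (.F ⟨⟨5,4,0,3,4,2,2⟩,[(0,-138),(1,-69)]⟩) (.N (.F ⟨⟨12,4,0,0,1,1,1⟩,[(0,138),(1,276)]⟩) (.F ⟨⟨8,4,2,1,0,2,3⟩,[(0,38),(1,76)]⟩)))) (.F ⟨⟨9,4,0,0,0,1,1⟩,[(0,38),(1,107)]⟩)) (.N (.F ⟨⟨9,4,0,0,1,1,1⟩,[(0,-107),(1,-38)]⟩) (.F ⟨⟨6,4,0,0,0,1,1⟩,[(0,69),(1,38)]⟩))) (.N (.N (.N (.F ⟨⟨8,4,0,0,1,1,1⟩,[(0,-107),(1,-38)]⟩) (.N (.F ⟨⟨11,4,0,0,1,1,1⟩,[(0,207),(1,345)]⟩)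 (.F ⟨⟨6,4,2,2,4,3,4⟩,[(0,-7),(1,-69)]⟩))) (.F ⟨⟨9,4,0,0,0,1,1⟩,[(0,69),(1,38)]⟩)) (.N (.N (.F ⟨⟨10,4,0,0,1,1,2⟩,[(0,69),(1,138)]⟩) (.F ⟨⟨2,4,3,1,5,2,2⟩,[(0,31)]⟩)) (.F ⟨⟨2,4,2,1,0,2,4⟩,[(0,69),(1,138)]⟩)))) (.F ⟨⟨6,4,0,0,0,1,2⟩,[(0,-69),(1,-69)]⟩))) (.N (.F ⟨⟨5,4,0,0,1,1,1⟩,[(0,-69),(1,-69)]⟩) (.N (.N (.N (.F ⟨⟨2,0,1,3,2,2,2⟩,[(0,69),(1,38)]⟩) (.N (.F ⟨⟨2,0,1,3,2,2,2⟩,[(0,69),(1,38)]⟩) (.N (.F ⟨⟨2,4,1,3,2,2,2⟩,[(0,69),(1,38)]⟩) (.F ⟨⟨5,4,1,0,0,1,1⟩,[(0,69),(1,38)]⟩)))) (.F ⟨⟨7,4,0,0,0,1,1⟩,[(0,38),(1,138)]⟩)) (.F ⟨⟨4,4,0,0,0,1,1⟩,[(0,69),(1,69)]⟩)))) (.N (.N (.N (.F ⟨⟨4,4,0,0,1,1,1⟩,[(0,-69),(1,-69)]⟩)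 (.N (.F ⟨⟨7,4,0,0,1,1,1⟩,[(0,-7),(1,-7)]⟩) (.N (.N (.N (.F ⟨⟨4,4,1,2,4,2,3⟩,[(0,31)]⟩) (.N (.F ⟨⟨5,4,2,2,0,3,4⟩,[(0,-38),(1,-69)]⟩) (.F ⟨⟨11,4,0,0,0,1,2⟩,[(0,-138),(1,-138)]⟩))) (.N (.F ⟨⟨10,4,0,0,1,1,1⟩,[(0,-138),(1,-138)]⟩) (.N (.F ⟨⟨4,4,2,0,3,3,3⟩,[(0,7),(1,7)]⟩) (.F ⟨⟨9,4,0,0,0,1,1⟩,[(0,176),(1,176)]⟩)))) (.N (.N (.F ⟨⟨7,4,1,0,1,2,3⟩,[(0,-38),(1,-38)]⟩) (.F ⟨⟨10,4,0,0,0,1,1⟩,[(0,176),(1,176)]⟩)) (.N (.F ⟨⟨10,4,0,0,1,1,1⟩,[(0,24),(1,24)]⟩) (.N (.N (.N (.F ⟨⟨9,4,1,2,3,2,3⟩,[(0,-38),(1,-69)]⟩) (.F ⟨⟨13,4,0,0,0,1,1⟩,[(0,145),(1,245)]⟩)) (.F ⟨⟨7,4,2,0,3,1,1⟩,[(0,-69),(1,-69)]⟩))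 (.F ⟨⟨7,4,1,0,0,1,2⟩,[(0,-69),(1,-69)]⟩))))))) (.F ⟨⟨5,4,0,0,0,1,1⟩,[(0,69),(1,69)]⟩)) (.N (.N (.F ⟨⟨6,4,0,0,1,1,2⟩,[(0,69),(1,69)]⟩) (.N (.N (.N (.F ⟨⟨4,4,1,2,4,2,3⟩,[(0,31)]⟩) (.N (.N (.N (.N (.F ⟨⟨6,4,0,2,4,2,3⟩,[(0,-138),(1,-69)]⟩) (.F ⟨⟨13,4,0,0,0,1,1⟩,[(0,145),(1,214)]⟩)) (.N (.F ⟨⟨13,4,0,0,1,1,1⟩,[(0,-107),(1,-38)]⟩) (.F ⟨⟨8,4,0,1,0,2,3⟩,[(0,176),(1,245)]⟩))) (.N (.N (.F ⟨⟨6,4,0,2,4,3,4⟩,[(0,-107),(1,-38)]⟩) (.F ⟨⟨8,4,0,1,0,2,3⟩,[(0,176),(1,245)]⟩)) (.N (.F ⟨⟨13,4,0,0,1,1,1⟩,[(0,176),(1,245)]⟩) (.F ⟨⟨5,4,3,1,0,3,5⟩,[(0,207),(1,276)]⟩)))) (.F ⟨⟨10,4,0,0,0,1,2⟩,[(0,-69),(1,-69)]⟩)))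 (.F ⟨⟨2,4,2,0,5,1,1⟩,[]⟩)) (.F ⟨⟨2,4,2,0,3,1,1⟩,[]⟩))) (.N (.N (.N (.F ⟨⟨4,4,1,2,3,2,3⟩,[(0,31)]⟩) (.N (.F ⟨⟨2,4,2,2,0,3,4⟩,[(0,31)]⟩) (.F ⟨⟨9,4,0,0,0,1,2⟩,[(0,-69),(1,-69)]⟩))) (.F ⟨⟨2,4,2,0,3,1,1⟩,[]⟩)) (.F ⟨⟨2,4,1,0,0,1,2⟩,[]⟩))))))) (.F ⟨⟨0,4,0,0,0,1,2⟩,[]⟩)))
    [] (rows0 4 [1, 3, 0, 2]) = true := by decide +kernel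

theorem c4_3210_1 : treeOK par4 [[1, 3, 0, 2]]
    (gold1 par4 (rows0 4 [2, 0, 3, 1])) (rows0 4 [2, 0, 3, 1])
    (.N (.N (.F ⟨⟨0,4,0,0,1,1,2⟩,[]⟩) (.N (.N (.N (.N (.N (.N (.F ⟨⟨2,4,0,1,2,1,2⟩,[(2,69)]⟩) (.N (.Y) (.N (.N (.F ⟨⟨9,4,0,0,1,1,2⟩,[(0,-69),(2,138)]⟩) (.F ⟨⟨2,4,2,2,5,3,4⟩,[(2,38)]⟩)) (.F ⟨⟨4,4,2,1,0,2,3⟩,[(2,69)]⟩)))) (.N (.N (.F ⟨⟨2,4,0,2,3,1,1⟩,[(2,69)]⟩) (.N (.Y) (.N (.N (.F ⟨⟨10,4,0,0,1,1,2⟩,[(0,-69),(2,138)]⟩) (.N (.N (.N (.F ⟨⟨5,4,1,3,5,3,5⟩,[(0,31),(2,207)]⟩) (.F ⟨⟨13,4,0,0,0,1,1⟩,[(0,-38),(2,176)]⟩)) (.N (.F ⟨⟨8,4,1,0,3,2,3⟩,[(0,62),(2,176)]⟩) (.F ⟨⟨6,4,2,0,0,3,4⟩,[(0,-38),(2,-55)]⟩)))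 (.N (.Y) (.N (.F ⟨⟨13,4,0,0,1,1,1⟩,[(0,-38),(2,145)]⟩) (.F ⟨⟨6,4,2,0,0,2,3⟩,[(0,-69),(2,7)]⟩))))) (.F ⟨⟨4,4,2,1,0,2,3⟩,[(2,69)]⟩)))) (.F ⟨⟨6,4,0,0,0,1,2⟩,[(0,-69),(2,69)]⟩))) (.N (.F ⟨⟨5,4,0,0,1,1,1⟩,[(0,31),(2,69)]⟩) (.N (.N (.N (.N (.N (.N (.F ⟨⟨7,4,0,1,2,1,2⟩,[(0,-69),(2,138)]⟩) (.N (.Y) (.N (.F ⟨⟨13,4,0,0,1,1,1⟩,[(0,-7),(2,145)]⟩) (.F ⟨⟨9,4,2,1,0,2,3⟩,[(0,-69),(2,107)]⟩)))) (.F ⟨⟨10,4,0,0,0,1,1⟩,[(0,76),(2,76)]⟩)) (.N (.F ⟨⟨10,4,0,0,1,1,1⟩,[(0,-7),(2,176)]⟩) (.F ⟨⟨7,4,0,1,0,2,3⟩,[(0,-38),(2,107)]⟩))) (.N (.Y) (.N (.N (.F ⟨⟨11,4,0,0,1,1,2⟩,[(0,-138),(2,207)]⟩) (.F ⟨⟨5,4,2,2,4,3,4⟩,[(0,-69),(2,7)]⟩))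 (.F ⟨⟨4,4,2,1,0,2,3⟩,[(2,69)]⟩)))) (.F ⟨⟨7,4,0,0,0,1,1⟩,[(0,138),(2,138)]⟩)) (.F ⟨⟨4,4,0,0,0,1,1⟩,[(0,-69),(2,-31)]⟩)))) (.N (.Y) (.N (.N (.F ⟨⟨6,4,0,0,1,1,2⟩,[(0,-69),(2,69)]⟩) (.N (.N (.N (.F ⟨⟨2,4,1,2,4,2,4⟩,[(2,69)]⟩) (.N (.F ⟨⟨2,4,1,3,5,2,2⟩,[(2,69)]⟩) (.F ⟨⟨10,4,0,0,0,1,2⟩,[(0,-69),(2,69)]⟩))) (.N (.F ⟨⟨9,4,0,0,1,1,1⟩,[(0,31),(2,69)]⟩) (.N (.N (.F ⟨⟨6,4,2,2,0,3,4⟩,[(0,-24),(2,38)]⟩) (.F ⟨⟨11,4,0,0,0,1,1⟩,[(0,345),(2,207)]⟩)) (.F ⟨⟨8,4,0,0,0,1,1⟩,[(0,-38),(2,-62)]⟩)))) (.N (.Y) (.N (.F ⟨⟨9,4,0,0,1,1,1⟩,[(0,-38),(2,38)]⟩) (.N (.N (.N (.F ⟨⟨8,4,1,2,3,2,3⟩,[(0,-69),(2,38)]⟩)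 (.F ⟨⟨12,4,0,0,0,1,1⟩,[(0,276),(2,138)]⟩)) (.F ⟨⟨5,4,3,0,4,2,2⟩,[(0,-69),(2,-31)]⟩)) (.F ⟨⟨5,4,2,0,0,2,3⟩,[(0,-69),(2,-31)]⟩)))))) (.N (.F ⟨⟨1,0,1,1,1,1,1⟩,[]⟩) (.N (.Y) (.N (.F ⟨⟨1,4,1,1,1,1,1⟩,[(0,69)]⟩) (.F ⟨⟨4,4,1,0,0,1,2⟩,[]⟩))))))) (.N (.N (.N (.N (.N (.F ⟨⟨2,4,0,2,3,2,3⟩,[(0,31),(2,69)]⟩) (.N (.Y) (.N (.F ⟨⟨9,4,0,0,1,1,1⟩,[(0,-38),(2,38)]⟩) (.F ⟨⟨5,4,2,1,0,2,3⟩,[(0,-69),(2,69)]⟩)))) (.F ⟨⟨6,4,0,0,0,1,1⟩,[(0,-38),(2,69)]⟩)) (.N (.F ⟨⟨6,4,0,0,1,1,1⟩,[(0,62),(2,69)]⟩) (.F ⟨⟨3,4,0,0,0,1,1⟩,[(0,-69),(2,-31)]⟩))) (.N (.Y) (.N (.N (.F ⟨⟨7,4,0,0,1,1,2⟩,[(0,-69),(2,69)]⟩)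 (.N (.N (.F ⟨⟨1,4,2,3,6,4,5⟩,[(0,-69),(2,-31)]⟩) (.N (.F ⟨⟨5,4,1,0,3,2,3⟩,[(0,62),(2,69)]⟩) (.F ⟨⟨3,4,2,0,0,3,4⟩,[(0,-38),(2,-62)]⟩))) (.N (.Y) (.N (.F ⟨⟨10,4,0,0,1,1,1⟩,[(0,-38),(2,38)]⟩) (.F ⟨⟨3,4,2,0,0,2,3⟩,[(0,-69),(2,-31)]⟩))))) (.N (.F ⟨⟨1,0,1,1,1,1,1⟩,[(0,69)]⟩) (.N (.Y) (.N (.F ⟨⟨1,4,1,1,1,1,1⟩,[(0,69)]⟩) (.F ⟨⟨5,4,1,0,0,1,2⟩,[]⟩))))))) (.F ⟨⟨3,4,0,0,0,1,2⟩,[(0,-69)]⟩))) (.N (.N (.F ⟨⟨3,4,0,0,1,1,2⟩,[(0,-69)]⟩) (.N (.F ⟨⟨3,4,0,0,1,1,1⟩,[]⟩) (.F ⟨⟨1,4,0,0,0,3,4⟩,[]⟩))) (.N (.N (.N (.N (.N (.N (.F ⟨⟨4,4,0,1,2,1,2⟩,[(0,-69),(2,69)]⟩) (.N (.Y) (.N (.F ⟨⟨10,4,0,0,1,1,1⟩,[(0,-7),(2,38)]⟩)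 (.F ⟨⟨6,4,2,1,0,2,3⟩,[(0,-69),(2,69)]⟩)))) (.F ⟨⟨7,4,0,0,0,1,1⟩,[(0,69),(2,69)]⟩)) (.F ⟨⟨3,4,0,1,0,2,2⟩,[(0,-38),(2,-31)]⟩)) (.N (.Y) (.N (.N (.F ⟨⟨8,4,0,0,1,1,2⟩,[(0,-138),(2,69)]⟩) (.F ⟨⟨2,4,2,2,4,3,4⟩,[(0,-69),(2,-31)]⟩)) (.N (.F ⟨⟨3,0,1,1,1,1,1⟩,[]⟩) (.N (.Y) (.N (.F ⟨⟨3,4,1,1,1,1,1⟩,[(0,69)]⟩) (.F ⟨⟨6,4,1,0,0,1,2⟩,[]⟩))))))) (.F ⟨⟨4,4,0,0,0,1,1⟩,[(0,100),(2,100)]⟩)) (.F ⟨⟨1,4,0,0,0,1,2⟩,[(0,-69)]⟩))))) (.N (.N (.N (.N (.N (.N (.F ⟨⟨1,4,0,1,2,1,2⟩,[(2,69)]⟩) (.N (.Y) (.N (.N (.F ⟨⟨8,4,0,0,1,1,2⟩,[(0,138),(2,138)]⟩) (.F ⟨⟨1,4,2,2,5,3,4⟩,[(2,38)]⟩)) (.F ⟨⟨3,4,2,1,0,2,3⟩,[(2,69)]⟩))))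 (.N (.N (.F ⟨⟨1,4,0,2,3,1,1⟩,[(2,69)]⟩) (.N (.Y) (.N (.N (.F ⟨⟨9,4,0,0,1,1,2⟩,[(0,138),(2,138)]⟩) (.N (.N (.N (.F ⟨⟨4,4,1,3,5,3,5⟩,[(0,31),(2,207)]⟩) (.F ⟨⟨12,4,0,0,0,1,1⟩,[(0,-38),(2,176)]⟩)) (.N (.F ⟨⟨7,4,1,0,3,2,3⟩,[(0,62),(2,176)]⟩) (.F ⟨⟨5,4,2,0,0,3,4⟩,[(0,14),(2,-55)]⟩))) (.N (.Y) (.N (.F ⟨⟨12,4,0,0,1,1,1⟩,[(0,214),(2,145)]⟩) (.F ⟨⟨5,4,2,0,0,2,3⟩,[(0,76),(2,7)]⟩))))) (.F ⟨⟨3,4,2,1,0,2,3⟩,[(2,69)]⟩)))) (.F ⟨⟨5,4,0,0,0,1,2⟩,[(0,-69),(2,69)]⟩))) (.N (.F ⟨⟨4,4,0,0,1,1,1⟩,[(0,31),(2,69)]⟩) (.N (.N (.N (.N (.N (.N (.F ⟨⟨6,4,0,1,2,1,2⟩,[(0,138),(2,138)]⟩) (.N (.Y) (.N (.F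 ⟨⟨12,4,0,0,1,1,1⟩,[(0,245),(2,145)]⟩) (.F ⟨⟨8,4,2,1,0,2,3⟩,[(0,76),(2,107)]⟩)))) (.F ⟨⟨9,4,0,0,0,1,1⟩,[(0,76),(2,76)]⟩)) (.N (.F ⟨⟨9,4,0,0,1,1,1⟩,[(0,176),(2,176)]⟩) (.F ⟨⟨6,4,0,1,0,2,3⟩,[(0,107),(2,107)]⟩))) (.N (.Y) (.N (.N (.F ⟨⟨10,4,0,0,1,1,2⟩,[(0,207),(2,207)]⟩) (.N (.N (.F ⟨⟨4,4,2,2,5,3,4⟩,[(0,-69),(2,107)]⟩) (.N (.F ⟨⟨13,4,0,0,1,1,1⟩,[(0,114),(2,145)]⟩) (.N (.N (.F ⟨⟨10,4,2,2,0,3,4⟩,[(0,21),(2,83)]⟩) (.F ⟨⟨15,4,0,0,0,1,1⟩,[(0,766),(2,628)]⟩)) (.F ⟨⟨12,4,0,0,0,1,1⟩,[(0,52),(2,-17)]⟩)))) (.N (.Y) (.F ⟨⟨6,4,3,1,0,3,4⟩,[(0,45),(2,76)]⟩)))) (.F ⟨⟨3,4,2,1,0,2,3⟩,[(2,69)]⟩))))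 (.F ⟨⟨6,4,0,0,0,1,1⟩,[(0,138),(2,138)]⟩)) (.F ⟨⟨0,4,0,1,0,2,4⟩,[(0,69),(2,69)]⟩)))) (.N (.Y) (.N (.N (.F ⟨⟨5,4,0,0,1,1,2⟩,[(0,69),(2,69)]⟩) (.N (.N (.N (.F ⟨⟨1,4,1,2,4,2,4⟩,[(2,69)]⟩) (.N (.F ⟨⟨1,4,1,3,5,2,2⟩,[(2,69)]⟩) (.F ⟨⟨9,4,0,0,0,1,2⟩,[(0,-69),(2,69)]⟩))) (.N (.F ⟨⟨8,4,0,0,1,1,1⟩,[(0,31),(2,69)]⟩) (.N (.N (.N (.F ⟨⟨6,4,1,3,5,3,4⟩,[(0,45),(2,7)]⟩) (.N (.Y) (.N (.F ⟨⟨4,2,2,4,2,3,4⟩,[(0,76),(2,38)]⟩) (.F ⟨⟨8,4,1,0,0,1,1⟩,[(0,76),(2,38)]⟩)))) (.F ⟨⟨10,4,0,0,0,1,1⟩,[(0,345),(2,207)]⟩)) (.F ⟨⟨7,4,0,0,0,1,1⟩,[(0,7),(2,-62)]⟩)))) (.N (.Y) (.N (.F ⟨⟨8,4,0,0,1,1,1⟩,[(0,107),(2,38)]⟩)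 (.N (.N (.N (.F ⟨⟨7,4,1,2,3,2,3⟩,[(0,76),(2,38)]⟩) (.F ⟨⟨11,4,0,0,0,1,1⟩,[(0,276),(2,138)]⟩)) (.F ⟨⟨4,4,3,0,4,2,2⟩,[(0,38),(2,-31)]⟩)) (.F ⟨⟨4,4,2,0,0,2,3⟩,[(0,38),(2,-31)]⟩)))))) (.N (.F ⟨⟨0,0,1,1,1,1,1⟩,[]⟩) (.N (.Y) (.N (.F ⟨⟨0,4,1,1,1,1,1⟩,[(0,69)]⟩) (.F ⟨⟨3,4,1,0,0,1,2⟩,[]⟩))))))) (.N (.N (.N (.N (.N (.F ⟨⟨1,4,0,2,3,2,3⟩,[(0,31),(2,69)]⟩) (.N (.Y) (.N (.F ⟨⟨8,4,0,0,1,1,1⟩,[(0,-38),(2,38)]⟩) (.F ⟨⟨4,4,2,1,0,2,3⟩,[(0,-69),(2,69)]⟩)))) (.F ⟨⟨5,4,0,0,0,1,1⟩,[(0,-38),(2,69)]⟩)) (.N (.F ⟨⟨5,4,0,0,1,1,1⟩,[(0,62),(2,69)]⟩) (.F ⟨⟨0,4,0,1,0,2,4⟩,[(0,69),(2,69)]⟩))) (.N (.Y)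 (.N (.N (.F ⟨⟨6,4,0,0,1,1,2⟩,[(0,69),(2,69)]⟩) (.N (.N (.N (.F ⟨⟨1,4,1,3,5,3,5⟩,[(0,31),(2,69)]⟩) (.F ⟨⟨9,4,0,0,0,1,1⟩,[(0,-38),(2,69)]⟩)) (.N (.F ⟨⟨4,4,1,0,3,2,3⟩,[(0,62),(2,69)]⟩) (.F ⟨⟨2,4,2,0,0,3,4⟩,[(0,7),(2,-62)]⟩))) (.N (.Y) (.N (.F ⟨⟨9,4,0,0,1,1,1⟩,[(0,107),(2,38)]⟩) (.F ⟨⟨2,4,2,0,0,2,3⟩,[(0,38),(2,-31)]⟩))))) (.N (.F ⟨⟨0,0,1,1,1,1,1⟩,[(0,69)]⟩) (.N (.Y) (.N (.F ⟨⟨0,4,1,1,1,1,1⟩,[(0,69)]⟩) (.F ⟨⟨4,4,1,0,0,1,2⟩,[]⟩))))))) (.F ⟨⟨2,4,0,0,0,1,2⟩,[(0,-69)]⟩))) (.N (.N (.F ⟨⟨2,4,0,0,1,1,2⟩,[(0,-69)]⟩) (.N (.N (.N (.N (.N (.N (.F ⟨⟨4,4,0,1,2,1,2⟩,[(0,69),(2,69)]⟩) (.N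 (.Y) (.N (.N (.F ⟨⟨11,4,0,0,1,1,2⟩,[(0,138),(2,138)]⟩) (.F ⟨⟨4,4,2,2,5,3,4⟩,[(0,7),(2,38)]⟩)) (.F ⟨⟨6,4,2,1,0,2,3⟩,[(0,38),(2,69)]⟩)))) (.F ⟨⟨4,4,0,1,0,2,3⟩,[(0,169),(2,169)]⟩)) (.N (.F ⟨⟨7,4,0,0,1,1,1⟩,[(0,69),(2,69)]⟩) (.F ⟨⟨4,4,0,1,0,2,3⟩,[(0,69),(2,69)]⟩))) (.N (.Y) (.N (.N (.F ⟨⟨8,4,0,0,1,1,2⟩,[(0,69),(2,69)]⟩) (.N (.N (.N (.F ⟨⟨4,4,1,2,4,2,4⟩,[(0,138),(2,69)]⟩) (.F ⟨⟨4,4,1,1,0,3,5⟩,[(0,238),(2,169)]⟩)) (.F ⟨⟨1,0,3,2,5,3,4⟩,[(0,-69),(2,69)]⟩)) (.F ⟨⟨1,2,3,2,5,3,4⟩,[(0,-69),(2,69)]⟩))) (.N (.F ⟨⟨3,0,1,1,1,1,1⟩,[]⟩) (.N (.Y) (.N (.F ⟨⟨3,4,1,1,1,1,1⟩,[(0,69)]⟩) (.F ⟨⟨6,4,1,0,0,1,2⟩,[]⟩)))))))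 (.F ⟨⟨4,4,0,0,0,1,1⟩,[(0,100),(2,100)]⟩)) (.N (.F ⟨⟨4,4,0,0,1,1,1⟩,[(0,-7)]⟩) (.F ⟨⟨1,4,0,0,0,2,3⟩,[(0,100),(2,100)]⟩)))) (.N (.N (.N (.N (.N (.N (.F ⟨⟨3,4,0,1,2,1,2⟩,[(0,69),(2,69)]⟩) (.N (.Y) (.N (.F ⟨⟨9,4,0,0,1,1,1⟩,[(0,138),(2,38)]⟩) (.F ⟨⟨5,4,2,1,0,2,3⟩,[(0,38),(2,69)]⟩)))) (.F ⟨⟨6,4,0,0,0,1,1⟩,[(0,69),(2,69)]⟩)) (.N (.F ⟨⟨6,4,0,0,1,1,1⟩,[(0,69),(2,69)]⟩) (.F ⟨⟨3,4,0,1,0,2,3⟩,[(0,69),(2,69)]⟩))) (.N (.Y) (.N (.N (.F ⟨⟨7,4,0,0,1,1,2⟩,[(0,69),(2,69)]⟩) (.N (.N (.N (.F ⟨⟨3,4,1,2,4,2,4⟩,[(0,138),(2,69)]⟩) (.F ⟨⟨10,4,0,0,0,1,1⟩,[(0,138),(2,69)]⟩)) (.N (.F ⟨⟨10,4,0,0,1,1,1⟩,[(0,38),(2,69)]⟩)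 (.N (.N (.N (.F ⟨⟨8,4,1,3,5,3,4⟩,[(0,45),(2,7)]⟩) (.N (.Y) (.N (.F ⟨⟨15,4,0,0,1,1,1⟩,[(0,152),(2,45)]⟩) (.F ⟨⟨10,4,1,0,0,1,1⟩,[(0,76),(2,38)]⟩)))) (.F ⟨⟨12,4,0,0,0,1,1⟩,[(0,345),(2,207)]⟩)) (.F ⟨⟨9,4,0,0,0,1,1⟩,[(0,7),(2,-62)]⟩)))) (.N (.Y) (.F ⟨⟨3,4,3,1,0,3,4⟩,[(0,38),(2,69)]⟩)))) (.N (.F ⟨⟨2,0,1,1,1,1,1⟩,[]⟩) (.N (.Y) (.N (.F ⟨⟨2,4,1,1,1,1,1⟩,[(0,69)]⟩) (.F ⟨⟨5,4,1,0,0,1,2⟩,[]⟩))))))) (.F ⟨⟨3,4,0,0,0,1,1⟩,[(0,100),(2,100)]⟩)) (.F ⟨⟨0,4,0,0,0,1,2⟩,[]⟩)))))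
    [] (rows0 4 [2, 0, 3, 1]) = true := by decide +kernel

theorem c4_3210_2 : treeOK par4 [[2, 0, 3, 1], [1, 3, 0, 2]]
    (gold1 par4 (rows0 4 [3, 2, 1, 0])) (rows0 4 [3, 2, 1, 0])
    (.N (.N (.N (.N (.N (.N (.F ⟨⟨0,4,0,1,2,1,2⟩,[]⟩) (.N (.F ⟨⟨0,4,0,2,3,1,1⟩,[]⟩) (.F ⟨⟨5,4,0,0,0,1,2⟩,[(2,69)]⟩))) (.Y)) (.N (.Y) (.N (.N (.F ⟨⟨5,4,0,0,1,1,2⟩,[(1,69)]⟩) (.N (.N (.N (.F ⟨⟨3,4,1,2,4,2,3⟩,[]⟩) (.N (.N (.N (.N (.F ⟨⟨5,4,0,2,4,2,3⟩,[(2,-31)]⟩) (.F ⟨⟨12,4,0,0,0,1,1⟩,[(2,38)]⟩)) (.Y)) (.N (.Y) (.N (.F ⟨⟨12,4,0,0,1,1,1⟩,[(1,38)]⟩) (.F ⟨⟨4,4,3,1,0,3,5⟩,[(1,-31)]⟩)))) (.F ⟨⟨9,4,0,0,0,1,2⟩,[(2,69)]⟩)))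 (.Y)) (.N (.Y) (.N (.F ⟨⟨8,4,0,0,1,1,1⟩,[(1,38)]⟩) (.N (.N (.N (.F ⟨⟨7,4,1,2,3,2,3⟩,[(1,69)]⟩) (.F ⟨⟨11,4,0,0,0,1,1⟩,[(1,-138),(2,-169)]⟩)) (.Y)) (.F ⟨⟨4,4,2,0,0,2,3⟩,[(1,-31)]⟩)))))) (.N (.N (.N (.F ⟨⟨3,4,1,2,3,2,3⟩,[]⟩) (.N (.N (.N (.N (.N (.F ⟨⟨7,4,0,2,3,2,3⟩,[(2,-31)]⟩) (.N (.Y) (.N (.F ⟨⟨14,4,0,0,1,1,1⟩,[(1,-31),(2,38)]⟩) (.F ⟨⟨10,4,2,1,0,2,3⟩,[(2,69)]⟩)))) (.F ⟨⟨11,4,0,0,0,1,1⟩,[(2,38)]⟩)) (.Y)) (.N (.Y) (.N (.N (.F ⟨⟨12,4,0,0,1,1,2⟩,[(1,69)]⟩) (.F ⟨⟨4,4,3,1,5,2,2⟩,[]⟩)) (.F ⟨⟨6,4,2,1,0,2,3⟩,[]⟩)))) (.F ⟨⟨8,4,0,0,0,1,2⟩,[(2,69)]⟩))) (.Y)) (.N (.Y) (.N (.N (.F ⟨⟨8,4,0,0,1,1,2⟩,[(1,69)]⟩)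 (.F ⟨⟨3,4,2,0,3,1,1⟩,[]⟩)) (.F ⟨⟨3,4,1,0,0,1,2⟩,[]⟩))))))) (.N (.N (.N (.N (.N (.F ⟨⟨1,4,0,2,3,2,3⟩,[(2,-31)]⟩) (.N (.Y) (.N (.F ⟨⟨8,4,0,0,1,1,1⟩,[(1,-31),(2,38)]⟩) (.N (.N (.N (.F ⟨⟨7,4,1,2,3,2,3⟩,[(2,38)]⟩) (.F ⟨⟨11,4,0,0,0,1,1⟩,[(2,76)]⟩)) (.Y)) (.N (.Y) (.F ⟨⟨3,4,2,1,0,2,3⟩,[(1,31),(2,31)]⟩)))))) (.F ⟨⟨5,4,0,0,0,1,1⟩,[(2,38)]⟩)) (.Y)) (.N (.Y) (.N (.N (.F ⟨⟨6,4,0,0,1,1,2⟩,[(1,69)]⟩) (.N (.N (.N (.F ⟨⟨1,4,1,3,5,3,5⟩,[(2,-31)]⟩) (.F ⟨⟨9,4,0,0,0,1,1⟩,[(2,38)]⟩)) (.Y)) (.N (.Y) (.N (.F ⟨⟨9,4,0,0,1,1,1⟩,[(1,38)]⟩) (.F ⟨⟨2,4,2,0,0,2,3⟩,[(1,-31)]⟩))))) (.N (.N (.N (.N (.F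 ⟨⟨1,4,1,3,5,3,5⟩,[(2,-31)]⟩) (.N (.Y) (.N (.F ⟨⟨11,4,0,0,1,1,1⟩,[(1,-31),(2,38)]⟩) (.F ⟨⟨7,4,2,1,0,2,3⟩,[(2,69)]⟩)))) (.F ⟨⟨8,4,0,0,0,1,1⟩,[(2,38)]⟩)) (.Y)) (.N (.Y) (.N (.N (.F ⟨⟨9,4,0,0,1,1,2⟩,[(1,69)]⟩) (.F ⟨⟨4,4,2,0,3,1,1⟩,[]⟩)) (.F ⟨⟨4,4,1,0,0,1,2⟩,[]⟩))))))) (.F ⟨⟨2,4,0,0,0,1,2⟩,[(2,69)]⟩))) (.Y)) (.N (.Y) (.N (.N (.F ⟨⟨2,4,0,0,1,1,2⟩,[(1,69)]⟩) (.N (.N (.N (.N (.N (.N (.F ⟨⟨4,4,0,1,2,1,2⟩,[]⟩) (.N (.F ⟨⟨4,4,0,2,3,1,1⟩,[]⟩) (.F ⟨⟨9,4,0,0,0,1,2⟩,[(2,69)]⟩))) (.Y)) (.N (.Y) (.N (.F ⟨⟨8,4,0,0,1,1,1⟩,[(1,38)]⟩) (.N (.N (.N (.F ⟨⟨7,4,1,2,3,2,3⟩,[(1,69)]⟩) (.F ⟨⟨11,4,0,0,0,1,1⟩,[(1,-107),(2,-138)]⟩))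 (.Y)) (.F ⟨⟨1,4,3,1,0,3,5⟩,[(1,-31)]⟩))))) (.N (.N (.N (.N (.F ⟨⟨2,4,0,2,4,2,3⟩,[(2,-31)]⟩) (.F ⟨⟨9,4,0,0,0,1,1⟩,[(2,38)]⟩)) (.Y)) (.N (.Y) (.N (.F ⟨⟨9,4,0,0,1,1,1⟩,[(1,38)]⟩) (.F ⟨⟨1,4,3,1,0,3,5⟩,[(1,-31)]⟩)))) (.F ⟨⟨6,4,0,0,0,1,2⟩,[(2,69)]⟩))) (.Y)) (.N (.Y) (.N (.F ⟨⟨5,4,0,0,1,1,1⟩,[(1,38)]⟩) (.N (.N (.N (.N (.N (.F ⟨⟨3,4,1,2,4,2,3⟩,[(1,69),(2,69)]⟩) (.Y)) (.N (.Y) (.N (.F ⟨⟨11,4,0,0,1,1,1⟩,[(1,76)]⟩) (.F ⟨⟨7,4,2,1,0,2,3⟩,[(1,38)]⟩)))) (.F ⟨⟨8,4,0,0,0,1,1⟩,[(1,-69),(2,-100)]⟩)) (.Y)) (.F ⟨⟨1,4,2,0,0,2,3⟩,[(1,-31)]⟩)))))) (.N (.N (.N (.N (.N (.N (.F ⟨⟨3,4,0,1,2,1,2⟩,[]⟩)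 (.N (.F ⟨⟨3,4,0,2,3,1,1⟩,[]⟩) (.F ⟨⟨8,4,0,0,0,1,2⟩,[(2,69)]⟩))) (.Y)) (.N (.Y) (.N (.N (.F ⟨⟨8,4,0,0,1,1,2⟩,[(1,69)]⟩) (.N (.N (.N (.F ⟨⟨6,4,1,2,4,2,3⟩,[]⟩) (.N (.F ⟨⟨4,4,1,3,5,2,2⟩,[]⟩) (.F ⟨⟨12,4,0,0,0,1,2⟩,[(2,69)]⟩))) (.Y)) (.N (.Y) (.N (.F ⟨⟨11,4,0,0,1,1,1⟩,[(1,38)]⟩) (.N (.N (.N (.F ⟨⟨10,4,1,2,3,2,3⟩,[(1,69)]⟩) (.F ⟨⟨14,4,0,0,0,1,1⟩,[(1,-245),(2,-276)]⟩)) (.Y)) (.F ⟨⟨7,4,2,0,0,2,3⟩,[(1,-31)]⟩)))))) (.F ⟨⟨3,4,2,1,0,2,3⟩,[]⟩)))) (.N (.N (.N (.N (.N (.F ⟨⟨4,4,0,2,3,2,3⟩,[(2,-31)]⟩) (.N (.Y) (.N (.F ⟨⟨11,4,0,0,1,1,1⟩,[(1,-31),(2,38)]⟩) (.F ⟨⟨7,4,2,1,0,2,3⟩,[(2,69)]⟩))))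 (.F ⟨⟨8,4,0,0,0,1,1⟩,[(2,38)]⟩)) (.Y)) (.N (.Y) (.N (.N (.F ⟨⟨9,4,0,0,1,1,2⟩,[(1,69)]⟩) (.N (.N (.N (.F ⟨⟨4,4,1,3,5,3,5⟩,[(2,-31)]⟩) (.F ⟨⟨12,4,0,0,0,1,1⟩,[(2,38)]⟩)) (.Y)) (.N (.Y) (.N (.F ⟨⟨12,4,0,0,1,1,1⟩,[(1,38)]⟩) (.F ⟨⟨5,4,2,0,0,2,3⟩,[(1,-31)]⟩))))) (.F ⟨⟨3,4,2,1,0,2,3⟩,[]⟩)))) (.F ⟨⟨5,4,0,0,0,1,2⟩,[(2,69)]⟩))) (.Y)) (.N (.Y) (.N (.N (.F ⟨⟨5,4,0,0,1,1,2⟩,[(1,69)]⟩) (.F ⟨⟨0,4,2,0,3,1,1⟩,[]⟩)) (.F ⟨⟨0,4,1,0,0,1,2⟩,[]⟩)))))))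
    [] (rows0 4 [3, 2, 1, 0]) = true := by decide +kernel

theorem c4_3210_3 : treeOK par4 [[3, 2, 1, 0], [2, 0, 3, 1], [1, 3, 0, 2]]
    (gold1 par4 (rows0 4 [1, 3, 2, 0])) (rows0 4 [1, 3, 2, 0])
    (.N (.Y) (.N (.N (.F ⟨⟨1,4,0,0,1,1,2⟩,[(2,69)]⟩) (.Y)) (.Y)))
    [] (rows0 4 [1, 3, 2, 0]) = true := by decide +kernel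

theorem c4_3210_4 : treeOK par4 [[1, 3, 2, 0], [3, 2, 1, 0], [2, 0, 3, 1], [1, 3, 0, 2]]
    (gold1 par4 (rows0 4 [2, 1, 3, 0])) (rows0 4 [2, 1, 3, 0])
    (.N (.N (.F ⟨⟨0,4,0,0,1,1,2⟩,[]⟩) (.Y)) (.Y))
    [] (rows0 4 [2, 1, 3, 0]) = true := by decide +kernel

theorem c4_3210_5 : treeOK par4 [[2, 1, 3, 0], [1, 3, 2, 0], [3, 2, 1, 0], [2, 0, 3, 1], [1, 3, 0, 2]]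
    (gold1 par4 (rows0 4 [3, 0, 2, 1])) (rows0 4 [3, 0, 2, 1])
    (.N (.N (.Y) (.N (.Y) (.F ⟨⟨1,4,0,0,0,1,2⟩,[(2,69)]⟩))) (.Y))
    [] (rows0 4 [3, 0, 2, 1]) = true := by decide +kernel

theorem c4_3210_6 : treeOK par4 [[3, 0, 2, 1], [2, 1, 3, 0], [1, 3, 2, 0], [3, 2, 1, 0], [2, 0, 3, 1], [1, 3, 0, 2]]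
    (gold1 par4 (rows0 4 [3, 1, 0, 2])) (rows0 4 [3, 1, 0, 2])
    (.N (.Y) (.N (.Y) (.F ⟨⟨0,4,0,0,0,1,2⟩,[(0,-69),(1,-69)]⟩)))
    [] (rows0 4 [3, 1, 0, 2]) = true := by decide +kernel

end Pool.Agent.RTX
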