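import Pool.Agent.RTX.Par

/-!
# RTX certificates: the Rauzy class of 13042 (5 intervals)
-/

set_option autoImplicit false
set_option maxRecDepth 100000

namespace Pool.Agent.RTX

theorem c5_13042_0 : treeOK par5 []
    (gold1 par5 (rows0 5 [1, 3, 0, 4, 2])) (rows0 5 [1, 3, 0, 4, 2])
    (.N (.F ⟨⟨0,5,0,0,1,1,1⟩,[]⟩) (.N (.N (.N (.F ⟨⟨1,5,0,0,1,1,1⟩,[(3,19)]⟩) (.N (.N (.F ⟨⟨4,5,0,0,1,1,1⟩,[(0,-19),(1,-19),(3,-19)]⟩) (.F ⟨⟨5,5,0,0,0,1,1⟩,[(0,19),(1,19),(3,19)]⟩)) (.N (.F ⟨⟨5,5,0,0,1,1,1⟩,[(0,19),(1,19),(3,19)]⟩) (.N (.N (.N (.N (.F ⟨⟨6,5,0,1,2,1,1⟩,[(1,19)]⟩) (.F ⟨⟨9,5,0,0,0,1,1⟩,[(3,19)]⟩)) (.F ⟨⟨2,5,1,0,2,2,2⟩,[(3,19)]⟩)) (.F ⟨⟨1,5,1,0,2,2,2⟩,[(3,19)]⟩)) (.F ⟨⟨3,5,1,0,0,1,1⟩,[]⟩)))))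 (.F ⟨⟨2,5,0,0,0,1,1⟩,[(0,-19),(1,-19),(3,-19)]⟩)) (.F ⟨⟨0,5,0,0,0,1,1⟩,[]⟩)))
    [] (rows0 5 [1, 3, 0, 4, 2]) = true := by decide +kernel

theorem c5_13042_1 : treeOK par5 [[1, 3, 0, 4, 2]]
    (gold1 par5 (rows0 5 [1, 4, 0, 3, 2])) (rows0 5 [1, 4, 0, 3, 2])
    (.N (.N (.N (.F ⟨⟨0,5,0,0,1,1,1⟩,[]⟩) (.N (.N (.F ⟨⟨3,5,0,0,1,1,1⟩,[(3,19)]⟩) (.F ⟨⟨4,5,0,0,0,1,1⟩,[(0,-19),(1,-19),(3,-19)]⟩)) (.N (.F ⟨⟨4,5,0,0,1,1,1⟩,[(0,-19),(1,-19),(3,-19)]⟩) (.N (.N (.N (.N (.F ⟨⟨5,5,0,1,2,1,1⟩,[(1,19)]⟩) (.F ⟨⟨8,5,0,0,0,1,1⟩,[]⟩)) (.F ⟨⟨1,5,1,0,2,2,2⟩,[]⟩)) (.F ⟨⟨0,5,1,0,2,2,2⟩,[]⟩)) (.F ⟨⟨2,5,1,0,0,1,1⟩,[]⟩))))) (.F ⟨⟨1,5,0,0,0,1,1⟩,[(3,19)]⟩)) (.Y))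
    [] (rows0 5 [1, 4, 0, 3, 2]) = true := by decide +kernel

theorem c5_13042_2 : treeOK par5 [[1, 4, 0, 3, 2], [1, 3, 0, 4, 2]]
    (gold1 par5 (rows0 5 [1, 4, 2, 0, 3])) (rows0 5 [1, 4, 2, 0, 3])
    (.N (.N (.Y) (.N (.N (.F ⟨⟨2,5,0,0,1,1,1⟩,[(0,-19),(1,-19),(2,-19)]⟩) (.F ⟨⟨3,5,0,0,0,1,1⟩,[(2,19)]⟩)) (.N (.F ⟨⟨3,5,0,0,1,1,1⟩,[(2,19)]⟩) (.N (.N (.N (.N (.F ⟨⟨4,5,0,1,2,1,1⟩,[(1,19)]⟩) (.F ⟨⟨7,5,0,0,0,1,1⟩,[]⟩)) (.F ⟨⟨0,5,1,0,2,2,2⟩,[]⟩)) (.N (.F ⟨⟨0,5,1,0,2,2,2⟩,[]⟩) (.N (.F ⟨⟨7,5,0,0,1,1,1⟩,[(0,-19),(1,-19),(2,-19)]⟩) (.F ⟨⟨5,5,0,0,0,1,1⟩,[(2,19)]⟩)))) (.F ⟨⟨1,5,1,0,0,1,1⟩,[]⟩))))) (.F ⟨⟨0,5,0,0,0,1,1⟩,[]⟩))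
    [] (rows0 5 [1, 4, 2, 0, 3]) = true := by decide +kernel

theorem c5_13042_3 : treeOK par5 [[1, 4, 2, 0, 3], [1, 4, 0, 3, 2], [1, 3, 0, 4, 2]]
    (gold1 par5 (rows0 5 [2, 0, 4, 1, 3])) (rows0 5 [2, 0, 4, 1, 3])
    (.N (.N (.F ⟨⟨0,5,0,0,1,1,1⟩,[]⟩) (.N (.F ⟨⟨2,5,0,0,1,1,1⟩,[(0,-19),(1,-19),(2,-19)]⟩) (.N (.N (.N (.N (.F ⟨⟨3,5,0,1,2,1,1⟩,[(2,19)]⟩) (.N (.Y) (.N (.F ⟨⟨2,5,0,1,0,2,2⟩,[(1,19),(2,38)]⟩) (.N (.F ⟨⟨9,5,0,0,1,1,1⟩,[(1,19),(2,38)]⟩) (.F ⟨⟨6,5,1,0,0,1,1⟩,[]⟩))))) (.F ⟨⟨5,5,0,0,0,1,1⟩,[(0,-19)]⟩)) (.N (.F ⟨⟨5,5,0,0,1,1,1⟩,[(0,-19)]⟩) (.F ⟨⟨4,5,0,0,0,1,1⟩,[(1,19),(2,19)]⟩))) (.F ⟨⟨1,5,0,0,0,1,1⟩,[(1,19),(2,19)]⟩)))) (.F ⟨⟨0,5,0,0,0,1,1⟩,[]⟩))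
    [] (rows0 5 [2, 0, 4, 1, 3]) = true := by decide +kernel

theorem c5_13042_4 : treeOK par5 [[2, 0, 4, 1, 3], [1, 4, 2, 0, 3], [1, 4, 0, 3, 2], [1, 3, 0, 4, 2]]
    (gold1 par5 (rows0 5 [2, 0, 4, 3, 1])) (rows0 5 [2, 0, 4, 3, 1])
    (.N (.Y) (.N (.F ⟨⟨1,5,0,0,1,1,1⟩,[(3,19)]⟩) (.N (.N (.N (.N (.F ⟨⟨2,5,0,1,2,1,1⟩,[(2,19)]⟩) (.N (.Y) (.N (.F ⟨⟨1,5,0,1,0,2,2⟩,[(0,19),(2,19)]⟩) (.N (.F ⟨⟨8,5,0,0,1,1,1⟩,[(0,19),(2,19)]⟩) (.F ⟨⟨5,5,1,0,0,1,1⟩,[]⟩))))) (.F ⟨⟨4,5,0,0,0,1,1⟩,[(0,-19)]⟩)) (.N (.F ⟨⟨4,5,0,0,1,1,1⟩,[(0,-19)]⟩) (.F ⟨⟨3,5,0,0,0,1,1⟩,[(3,19)]⟩))) (.F ⟨⟨0,5,0,0,0,1,1⟩,[]⟩))))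
    [] (rows0 5 [2, 0, 4, 3, 1]) = true := by decide +kernel

theorem c5_13042_5 : treeOK par5 [[2, 0, 4, 3, 1], [2, 0, 4, 1, 3], [1, 4, 2, 0, 3], [1, 4, 0, 3, 2], [1, 3, 0, 4, 2]]
    (gold1 par5 (rows0 5 [1, 4, 3, 2, 0])) (rows0 5 [1, 4, 3, 2, 0])
    (.N (.Y) (.N (.N (.F ⟨⟨1,5,0,0,1,1,1⟩,[(3,19)]⟩) (.F ⟨⟨2,5,0,0,0,1,1⟩,[(2,19)]⟩)) (.N (.F ⟨⟨2,5,0,0,1,1,1⟩,[(2,19)]⟩) (.N (.N (.N (.N (.F ⟨⟨3,5,0,1,2,1,1⟩,[(1,19)]⟩) (.F ⟨⟨6,5,0,0,0,1,1⟩,[]⟩)) (.N (.F ⟨⟨6,5,0,0,1,1,1⟩,[]⟩) (.F ⟨⟨5,5,0,0,0,1,1⟩,[(3,19)]⟩))) (.Y)) (.F ⟨⟨0,5,1,0,0,1,1⟩,[]⟩)))))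
    [] (rows0 5 [1, 4, 3, 2, 0]) = true := by decide +kernel

theorem c5_13042_6 : treeOK par5 [[1, 4, 3, 2, 0], [2, 0, 4, 3, 1], [2, 0, 4, 1, 3], [1, 4, 2, 0, 3], [1, 4, 0, 3, 2], [1, 3, 0, 4, 2]]
    (gold1 par5 (rows0 5 [3, 1, 0, 4, 2])) (rows0 5 [3, 1, 0, 4, 2])
    (.N (.F ⟨⟨0,5,0,0,1,1,1⟩,[]⟩) (.N (.N (.N (.N (.F ⟨⟨1,5,0,1,2,1,1⟩,[(3,19)]⟩) (.Y)) (.Y)) (.F ⟨⟨2,5,0,0,0,1,1⟩,[(0,-19),(1,-19)]⟩)) (.F ⟨⟨0,5,0,0,0,1,1⟩,[]⟩)))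
    [] (rows0 5 [3, 1, 0, 4, 2]) = true := by decide +kernel

theorem c5_13042_7 : treeOK par5 [[3, 1, 0, 4, 2], [1, 4, 3, 2, 0], [2, 0, 4, 3, 1], [2, 0, 4, 1, 3], [1, 4, 2, 0, 3], [1, 4, 0, 3, 2], [1, 3, 0, 4, 2]]
    (gold1 par5 (rows0 5 [4, 0, 3, 2, 1])) (rows0 5 [4, 0, 3, 2, 1])
    (.N (.N (.N (.N (.F ⟨⟨0,5,0,1,2,1,1⟩,[]⟩) (.Y)) (.F ⟨⟨2,5,0,0,0,1,1⟩,[(3,19)]⟩)) (.Y)) (.Y))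
    [] (rows0 5 [4, 0, 3, 2, 1]) = true := by decide +kernel

theorem c5_13042_8 : treeOK par5 [[4, 0, 3, 2, 1], [3, 1, 0, 4, 2], [1, 4, 3, 2, 0], [2, 0, 4, 3, 1], [2, 0, 4, 1, 3], [1, 4, 2, 0, 3], [1, 4, 0, 3, 2], [1, 3, 0, 4, 2]]
    (gold1 par5 (rows0 5 [4, 3, 2, 1, 0])) (rows0 5 [4, 3, 2, 1, 0])
    (.N (.Y) (.Y))
    [] (rows0 5 [4, 3, 2, 1, 0]) = true := by decide +kernel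

theorem c5_13042_9 : treeOK par5 [[4, 3, 2, 1, 0], [4, 0, 3, 2, 1], [3, 1, 0, 4, 2], [1, 4, 3, 2, 0], [2, 0, 4, 3, 1], [2, 0, 4, 1, 3], [1, 4, 2, 0, 3], [1, 4, 0, 3, 2], [1, 3, 0, 4, 2]]
    (gold1 par5 (rows0 5 [3, 0, 2, 4, 1])) (rows0 5 [3, 0, 2, 4, 1])
    (.N (.F ⟨⟨0,5,0,0,1,1,1⟩,[]⟩) (.Y))
    [] (rows0 5 [3, 0, 2, 4, 1]) = true := by decide +kernel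

theorem c5_13042_10 : treeOK par5 [[3, 0, 2, 4, 1], [4, 3, 2, 1, 0], [4, 0, 3, 2, 1], [3, 1, 0, 4, 2], [1, 4, 3, 2, 0], [2, 0, 4, 3, 1], [2, 0, 4, 1, 3], [1, 4, 2, 0, 3], [1, 4, 0, 3, 2], [1, 3, 0, 4, 2]]
    (gold1 par5 (rows0 5 [3, 2, 1, 4, 0])) (rows0 5 [3, 2, 1, 4, 0])
    (.N (.F ⟨⟨0,5,0,0,1,1,1⟩,[]⟩) (.Y))
    [] (rows0 5 [3, 2, 1, 4, 0]) = true := by decide +kernel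

theorem c5_13042_11 : treeOK par5 [[3, 2, 1, 4, 0], [3, 0, 2, 4, 1], [4, 3, 2, 1, 0], [4, 0, 3, 2, 1], [3, 1, 0, 4, 2], [1, 4, 3, 2, 0], [2, 0, 4, 3, 1], [2, 0, 4, 1, 3], [1, 4, 2, 0, 3], [1, 4, 0, 3, 2], [1, 3, 0, 4, 2]]
    (gold1 par5 (rows0 5 [4, 1, 0, 3, 2])) (rows0 5 [4, 1, 0, 3, 2])
    (.N (.N (.Y) (.F ⟨⟨1,5,0,0,0,1,1⟩,[(3,19)]⟩)) (.Y))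
    [] (rows0 5 [4, 1, 0, 3, 2]) = true := by decide +kernel

theorem c5_13042_12 : treeOK par5 [[4, 1, 0, 3, 2], [3, 2, 1, 4, 0], [3, 0, 2, 4, 1], [4, 3, 2, 1, 0], [4, 0, 3, 2, 1], [3, 1, 0, 4, 2], [1, 4, 3, 2, 0], [2, 0, 4, 3, 1], [2, 0, 4, 1, 3], [1, 4, 2, 0, 3], [1, 4, 0, 3, 2], [1, 3, 0, 4, 2]]
    (gold1 par5 (rows0 5 [4, 2, 1, 0, 3])) (rows0 5 [4, 2, 1, 0, 3])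
    (.N (.Y) (.F ⟨⟨0,5,0,0,0,1,1⟩,[(0,-19),(1,-19),(2,-19)]⟩))
    [] (rows0 5 [4, 2, 1, 0, 3]) = true := by decide +kernel

theorem c5_13042_13 : treeOK par5 [[4, 2, 1, 0, 3], [4, 1, 0, 3, 2], [3, 2, 1, 4, 0], [3, 0, 2, 4, 1], [4, 3, 2, 1, 0], [4, 0, 3, 2, 1], [3, 1, 0, 4, 2], [1, 4, 3, 2, 0], [2, 0, 4, 3, 1], [2, 0, 4, 1, 3], [1, 4, 2, 0, 3], [1, 4, 0, 3, 2], [1, 3, 0, 4, 2]]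
    (gold1 par5 (rows0 5 [2, 1, 4, 0, 3])) (rows0 5 [2, 1, 4, 0, 3])
    (.N (.N (.F ⟨⟨0,5,0,0,1,1,1⟩,[]⟩) (.Y)) (.F ⟨⟨0,5,0,0,0,1,1⟩,[]⟩))
    [] (rows0 5 [2, 1, 4, 0, 3]) = true := by decide +kernel

theorem c5_13042_14 : treeOK par5 [[2, 1, 4, 0, 3], [4, 2, 1, 0, 3], [4, 1, 0, 3, 2], [3, 2, 1, 4, 0], [3, 0, 2, 4, 1], [4, 3, 2, 1, 0], [4, 0, 3, 2, 1], [3, 1, 0, 4, 2], [1, 4, 3, 2, 0], [2, 0, 4, 3, 1], [2, 0, 4, 1, 3], [1, 4, 2, 0, 3], [1, 4, 0, 3, 2], [1, 3, 0, 4, 2]]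
    (gold1 par5 (rows0 5 [2, 1, 4, 3, 0])) (rows0 5 [2, 1, 4, 3, 0])
    (.N (.Y) (.Y))
    [] (rows0 5 [2, 1, 4, 3, 0]) = true := by decide +kernel

end Pool.Agent.RTX
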