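import Pool.Agent.RTX.FDefs

/-!
# RTX: the lists of vertices for `d = 6` and their codes
-/

set_option autoImplicit false
set_option maxRecDepth 100000

namespace Pool.Agent.RTX

/-- no vertex -/
def S_130524_0 : List (List ℕ) := []

/-- no code -/
def K_130524_0 : List ℕ := []

/-- first 1 vertices -/
def S_130524_1 : List (List ℕ) := [1, 3, 0, 5, 2, 4] :: S_130524_0

/-- their codes -/
def K_130524_1 : List ℕ := 45396 :: K_130524_0

/-- first 2 vertices -/
def S_130524_2 : List (List ℕ) := [1, 3, 0, 5, 4, 2] :: S_130524_1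

/-- their codes -/
def K_130524_2 : List ℕ := 45410 :: K_130524_1

/-- first 3 vertices -/
def S_130524_3 : List (List ℕ) := [1, 5, 0, 4, 3, 2] :: S_130524_2

/-- their codes -/
def K_130524_3 : List ℕ := 53530 :: K_130524_2

/-- first 4 vertices -/
def S_130524_4 : List (List ℕ) := [1, 4, 0, 3, 5, 2] :: S_130524_3

/-- their codes -/
def K_130524_4 : List ℕ := 49386 :: K_130524_3

/-- first 5 vertices -/
def S_130524_5 : List (List ℕ) := [2, 1, 4, 0, 5, 3] :: S_130524_4

/-- their codes -/
def K_130524_5 : List ℕ := 71723 :: K_130524_4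

/-- first 6 vertices -/
def S_130524_6 : List (List ℕ) := [2, 1, 5, 0, 4, 3] :: S_130524_5

/-- their codes -/
def K_130524_6 : List ℕ := 72227 :: K_130524_5

/-- first 7 vertices -/
def S_130524_7 : List (List ℕ) := [1, 4, 2, 0, 5, 3] :: S_130524_6

/-- their codes -/
def K_130524_7 : List ℕ := 50219 :: K_130524_6

/-- first 8 vertices -/
def S_130524_8 : List (List ℕ) := [1, 5, 2, 0, 4, 3] :: S_130524_7

/-- their codes -/
def K_130524_8 : List ℕ := 54307 :: K_130524_7

/-- first 9 vertices -/
def S_130524_9 : List (List ℕ) := [3, 1, 0, 5, 2, 4] :: S_130524_8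

/-- their codes -/
def K_130524_9 : List ℕ := 102740 :: K_130524_8

/-- first 10 vertices -/
def S_130524_10 : List (List ℕ) := [3, 1, 0, 5, 4, 2] :: S_130524_9

/-- their codes -/
def K_130524_10 : List ℕ := 102754 :: K_130524_9

/-- first 11 vertices -/
def S_130524_11 : List (List ℕ) := [1, 5, 3, 2, 0, 4] :: S_130524_10

/-- their codes -/
def K_130524_11 : List ℕ := 54916 :: K_130524_10

/-- first 12 vertices -/
def S_130524_12 : List (List ℕ) := [2, 0, 4, 1, 5, 3] :: S_130524_11

/-- their codes -/
def K_130524_12 : List ℕ := 67691 :: K_130524_11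

/-- first 13 vertices -/
def S_130524_13 : List (List ℕ) := [2, 0, 5, 1, 4, 3] :: S_130524_12

/-- their codes -/
def K_130524_13 : List ℕ := 68195 :: K_130524_12

/-- first 14 vertices -/
def S_130524_14 : List (List ℕ) := [2, 0, 5, 4, 3, 1] :: S_130524_13

/-- their codes -/
def K_130524_14 : List ℕ := 68377 :: K_130524_13

/-- first 15 vertices -/
def S_130524_15 : List (List ℕ) := [2, 0, 5, 3, 1, 4] :: S_130524_14

/-- their codes -/
def K_130524_15 : List ℕ := 68300 :: K_130524_14

/-- first 16 vertices -/
def S_130524_16 : List (List ℕ) := [1, 5, 4, 3, 2, 0] :: S_130524_15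

/-- their codes -/
def K_130524_16 : List ℕ := 55504 :: K_130524_15

/-- first 17 vertices -/
def S_130524_17 : List (List ℕ) := [4, 2, 1, 0, 5, 3] :: S_130524_16

/-- their codes -/
def K_130524_17 : List ℕ := 139819 :: K_130524_16

/-- first 18 vertices -/
def S_130524_18 : List (List ℕ) := [5, 0, 4, 3, 2, 1] :: S_130524_17

/-- their codes -/
def K_130524_18 : List ℕ := 166097 :: K_130524_17

/-- first 19 vertices -/
def S_130524_19 : List (List ℕ) := [5, 4, 3, 2, 1, 0] :: S_130524_18

/-- their codes -/
def K_130524_19 : List ℕ := 181896 :: K_130524_18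

/-- first 20 vertices -/
def S_130524_20 : List (List ℕ) := [4, 0, 3, 2, 5, 1] :: S_130524_19

/-- their codes -/
def K_130524_20 : List ℕ := 132777 :: K_130524_19

/-- first 21 vertices -/
def S_130524_21 : List (List ℕ) := [4, 3, 2, 1, 5, 0] :: S_130524_20

/-- their codes -/
def K_130524_21 : List ℕ := 144488 :: K_130524_20

/-- first 22 vertices -/
def S_130524_22 : List (List ℕ) := [5, 1, 0, 4, 3, 2] :: S_130524_21

/-- their codes -/
def K_130524_22 : List ℕ := 168218 :: K_130524_21

/-- first 23 vertices -/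
def S_130524_23 : List (List ℕ) := [4, 1, 0, 3, 5, 2] :: S_130524_22

/-- their codes -/
def K_130524_23 : List ℕ := 135402 :: K_130524_22

/-- first 24 vertices -/
def S_130524_24 : List (List ℕ) := [5, 2, 1, 0, 4, 3] :: S_130524_23

/-- their codes -/
def K_130524_24 : List ℕ := 172579 :: K_130524_23

/-- first 25 vertices -/
def S_130524_25 : List (List ℕ) := [5, 3, 2, 1, 0, 4] :: S_130524_24

/-- their codes -/
def K_130524_25 : List ℕ := 177220 :: K_130524_24

/-- first 26 vertices -/
def S_130524_26 : List (List ℕ) := [2, 1, 5, 4, 3, 0] :: S_130524_25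

/-- their codes -/
def K_130524_26 : List ℕ := 72472 :: K_130524_25

/-- first 27 vertices -/
def S_130524_27 : List (List ℕ) := [2, 1, 5, 3, 0, 4] :: S_130524_26

/-- their codes -/
def K_130524_27 : List ℕ := 72388 :: K_130524_26

/-- first 28 vertices -/
def S_130524_28 : List (List ℕ) := [3, 0, 2, 5, 1, 4] :: S_130524_27

/-- their codes -/
def K_130524_28 : List ℕ := 99660 :: K_130524_27

/-- first 29 vertices -/
def S_130524_29 : List (List ℕ) := [3, 0, 2, 5, 4, 1] :: S_130524_28

/-- their codes -/
def K_130524_29 : List ℕ := 99681 :: K_130524_28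

/-- first 30 vertices -/
def S_130524_30 : List (List ℕ) := [3, 2, 1, 5, 0, 4] :: S_130524_29

/-- their codes -/
def K_130524_30 : List ℕ := 107332 :: K_130524_29

/-- first 31 vertices -/
def S_130524_31 : List (List ℕ) := [3, 2, 1, 5, 4, 0] :: S_130524_30

/-- their codes -/
def K_130524_31 : List ℕ := 107360 :: K_130524_30

/-- no vertex -/
def S_143250_0 : List (List ℕ) := []

/-- no code -/
def K_143250_0 : List ℕ := []

/-- first 1 vertices -/
def S_143250_1 : List (List ℕ) := [2, 4, 1, 0, 5, 3] :: S_143250_0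

/-- their codes -/
def K_143250_1 : List ℕ := 82475 :: K_143250_0

/-- first 2 vertices -/
def S_143250_2 : List (List ℕ) := [3, 2, 0, 5, 1, 4] :: S_143250_1

/-- their codes -/
def K_143250_2 : List ℕ := 106828 :: K_143250_1

/-- first 3 vertices -/
def S_143250_3 : List (List ℕ) := [2, 5, 1, 0, 4, 3] :: S_143250_2

/-- their codes -/
def K_143250_3 : List ℕ := 86563 :: K_143250_2

/-- first 4 vertices -/
def S_143250_4 : List (List ℕ) := [2, 5, 0, 4, 3, 1] :: S_143250_3

/-- their codes -/
def K_143250_4 : List ℕ := 86297 :: K_143250_3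

/-- first 5 vertices -/
def S_143250_5 : List (List ℕ) := [3, 2, 0, 5, 4, 1] :: S_143250_4

/-- their codes -/
def K_143250_5 : List ℕ := 106849 :: K_143250_4

/-- first 6 vertices -/
def S_143250_6 : List (List ℕ) := [2, 5, 3, 1, 0, 4] :: S_143250_5

/-- their codes -/
def K_143250_6 : List ℕ := 87620 :: K_143250_5

/-- first 7 vertices -/
def S_143250_7 : List (List ℕ) := [4, 3, 0, 2, 5, 1] :: S_143250_6

/-- their codes -/
def K_143250_7 : List ℕ := 143529 :: K_143250_6

/-- first 8 vertices -/
def S_143250_8 : List (List ℕ) := [1, 4, 3, 2, 5, 0] :: S_143250_7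

/-- their codes -/
def K_143250_8 : List ℕ := 50856 :: K_143250_7

/-- first 9 vertices -/
def S_143250_9 : List (List ℕ) := [4, 1, 3, 0, 5, 2] :: S_143250_8

/-- their codes -/
def K_143250_9 : List ℕ := 136746 :: K_143250_8

/-- first 10 vertices -/
def S_143250_10 : List (List ℕ) := [2, 5, 4, 3, 1, 0] :: S_143250_9

/-- their codes -/
def K_143250_10 : List ℕ := 88264 :: K_143250_9

/-- first 11 vertices -/
def S_143250_11 : List (List ℕ) := [3, 1, 5, 0, 4, 2] :: S_143250_10

/-- their codes -/
def K_143250_11 : List ℕ := 104994 :: K_143250_10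

/-- first 12 vertices -/
def S_143250_12 : List (List ℕ) := [5, 0, 3, 2, 1, 4] :: S_143250_11

/-- their codes -/
def K_143250_12 : List ℕ := 165516 :: K_143250_11

/-- first 13 vertices -/
def S_143250_13 : List (List ℕ) := [5, 3, 2, 1, 4, 0] :: S_143250_12

/-- their codes -/
def K_143250_13 : List ℕ := 177248 :: K_143250_12

/-- first 14 vertices -/
def S_143250_14 : List (List ℕ) := [3, 1, 5, 4, 2, 0] :: S_143250_13

/-- their codes -/
def K_143250_14 : List ℕ := 105232 :: K_143250_13

/-- first 15 vertices -/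
def S_143250_15 : List (List ℕ) := [3, 1, 5, 2, 0, 4] :: S_143250_14

/-- their codes -/
def K_143250_15 : List ℕ := 105092 :: K_143250_14

/-- first 16 vertices -/
def S_143250_16 : List (List ℕ) := [4, 2, 1, 5, 0, 3] :: S_143250_15

/-- their codes -/
def K_143250_16 : List ℕ := 140099 :: K_143250_15

/-- first 17 vertices -/
def S_143250_17 : List (List ℕ) := [4, 2, 1, 5, 3, 0] :: S_143250_16

/-- their codes -/
def K_143250_17 : List ℕ := 140120 :: K_143250_16

/-- first 18 vertices -/
def S_143250_18 : List (List ℕ) := [5, 1, 4, 0, 3, 2] :: S_143250_17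

/-- their codes -/
def K_143250_18 : List ℕ := 170010 :: K_143250_17

/-- first 19 vertices -/
def S_143250_19 : List (List ℕ) := [5, 2, 1, 4, 0, 3] :: S_143250_18

/-- their codes -/
def K_143250_19 : List ℕ := 172803 :: K_143250_18

/-- first 20 vertices -/
def S_143250_20 : List (List ℕ) := [5, 4, 0, 3, 2, 1] :: S_143250_19

/-- their codes -/
def K_143250_20 : List ℕ := 180433 :: K_143250_19

/-- no vertex -/
def S_124053_0 : List (List ℕ) := []

/-- no code -/
def K_124053_0 : List ℕ := []

/-- first 1 vertices -/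
def S_124053_1 : List (List ℕ) := [1, 2, 4, 0, 5, 3] :: S_124053_0

/-- their codes -/
def K_124053_1 : List ℕ := 43051 :: K_124053_0

/-- first 2 vertices -/
def S_124053_2 : List (List ℕ) := [1, 2, 5, 0, 4, 3] :: S_124053_1

/-- their codes -/
def K_124053_2 : List ℕ := 43555 :: K_124053_1

/-- first 3 vertices -/
def S_124053_3 : List (List ℕ) := [2, 0, 5, 1, 3, 4] :: S_124053_2

/-- their codes -/
def K_124053_3 : List ℕ := 68188 :: K_124053_2

/-- first 4 vertices -/
def S_124053_4 : List (List ℕ) := [2, 0, 5, 3, 4, 1] :: S_124053_3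

/-- their codes -/
def K_124053_4 : List ℕ := 68321 :: K_124053_3

/-- first 5 vertices -/
def S_124053_5 : List (List ℕ) := [2, 0, 5, 4, 1, 3] :: S_124053_4

/-- their codes -/
def K_124053_5 : List ℕ := 68363 :: K_124053_4

/-- first 6 vertices -/
def S_124053_6 : List (List ℕ) := [3, 1, 0, 4, 5, 2] :: S_124053_5

/-- their codes -/
def K_124053_6 : List ℕ := 102698 :: K_124053_5

/-- first 7 vertices -/
def S_124053_7 : List (List ℕ) := [4, 1, 0, 5, 3, 2] :: S_124053_6

/-- their codes -/
def K_124053_7 : List ℕ := 135514 :: K_124053_6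

/-- first 8 vertices -/
def S_124053_8 : List (List ℕ) := [3, 0, 1, 5, 2, 4] :: S_124053_7

/-- their codes -/
def K_124053_8 : List ℕ := 99156 :: K_124053_7

/-- first 9 vertices -/
def S_124053_9 : List (List ℕ) := [3, 0, 1, 5, 4, 2] :: S_124053_8

/-- their codes -/
def K_124053_9 : List ℕ := 99170 :: K_124053_8

/-- first 10 vertices -/
def S_124053_10 : List (List ℕ) := [2, 0, 4, 5, 1, 3] :: S_124053_9

/-- their codes -/
def K_124053_10 : List ℕ := 67915 :: K_124053_9

/-- first 11 vertices -/
def S_124053_11 : List (List ℕ) := [2, 0, 4, 5, 3, 1] :: S_124053_10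

/-- their codes -/
def K_124053_11 : List ℕ := 67929 :: K_124053_10

/-- first 12 vertices -/
def S_124053_12 : List (List ℕ) := [4, 1, 0, 5, 2, 3] :: S_124053_11

/-- their codes -/
def K_124053_12 : List ℕ := 135507 :: K_124053_11

/-- first 13 vertices -/
def S_124053_13 : List (List ℕ) := [1, 3, 0, 4, 5, 2] :: S_124053_12

/-- their codes -/
def K_124053_13 : List ℕ := 45354 :: K_124053_12

/-- first 14 vertices -/
def S_124053_14 : List (List ℕ) := [1, 5, 0, 3, 4, 2] :: S_124053_13

/-- their codes -/
def K_124053_14 : List ℕ := 53474 :: K_124053_13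

/-- first 15 vertices -/
def S_124053_15 : List (List ℕ) := [1, 4, 0, 5, 3, 2] :: S_124053_14

/-- their codes -/
def K_124053_15 : List ℕ := 49498 :: K_124053_14

/-- first 16 vertices -/
def S_124053_16 : List (List ℕ) := [2, 1, 5, 0, 3, 4] :: S_124053_15

/-- their codes -/
def K_124053_16 : List ℕ := 72220 :: K_124053_15

/-- first 17 vertices -/
def S_124053_17 : List (List ℕ) := [2, 1, 5, 4, 0, 3] :: S_124053_16

/-- their codes -/
def K_124053_17 : List ℕ := 72451 :: K_124053_16

/-- first 18 vertices -/
def S_124053_18 : List (List ℕ) := [1, 5, 2, 0, 3, 4] :: S_124053_17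

/-- their codes -/
def K_124053_18 : List ℕ := 54300 :: K_124053_17

/-- first 19 vertices -/
def S_124053_19 : List (List ℕ) := [1, 5, 4, 2, 0, 3] :: S_124053_18

/-- their codes -/
def K_124053_19 : List ℕ := 55427 :: K_124053_18

/-- first 20 vertices -/
def S_124053_20 : List (List ℕ) := [1, 4, 0, 5, 2, 3] :: S_124053_19

/-- their codes -/
def K_124053_20 : List ℕ := 49491 :: K_124053_19

/-- first 21 vertices -/
def S_124053_21 : List (List ℕ) := [1, 5, 0, 4, 2, 3] :: S_124053_20

/-- their codes -/
def K_124053_21 : List ℕ := 53523 :: K_124053_20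

/-- first 22 vertices -/
def S_124053_22 : List (List ℕ) := [3, 0, 2, 4, 5, 1] :: S_124053_21

/-- their codes -/
def K_124053_22 : List ℕ := 99625 :: K_124053_21

/-- first 23 vertices -/
def S_124053_23 : List (List ℕ) := [4, 0, 3, 5, 2, 1] :: S_124053_22

/-- their codes -/
def K_124053_23 : List ℕ := 132945 :: K_124053_22

/-- first 24 vertices -/
def S_124053_24 : List (List ℕ) := [2, 1, 4, 5, 0, 3] :: S_124053_23

/-- their codes -/
def K_124053_24 : List ℕ := 72003 :: K_124053_23

/-- first 25 vertices -/
def S_124053_25 : List (List ℕ) := [1, 5, 3, 0, 4, 2] :: S_124053_24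

/-- their codes -/
def K_124053_25 : List ℕ := 54818 :: K_124053_24

/-- first 26 vertices -/
def S_124053_26 : List (List ℕ) := [1, 3, 4, 0, 5, 2] :: S_124053_25

/-- their codes -/
def K_124053_26 : List ℕ := 47146 :: K_124053_25

/-- first 27 vertices -/
def S_124053_27 : List (List ℕ) := [1, 4, 5, 0, 3, 2] :: S_124053_26

/-- their codes -/
def K_124053_27 : List ℕ := 51738 :: K_124053_26

/-- first 28 vertices -/
def S_124053_28 : List (List ℕ) := [4, 0, 2, 3, 5, 1] :: S_124053_27

/-- their codes -/
def K_124053_28 : List ℕ := 132329 :: K_124053_27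

/-- first 29 vertices -/
def S_124053_29 : List (List ℕ) := [3, 0, 5, 2, 4, 1] :: S_124053_28

/-- their codes -/
def K_124053_29 : List ℕ := 101025 :: K_124053_28

/-- first 30 vertices -/
def S_124053_30 : List (List ℕ) := [3, 0, 5, 1, 2, 4] :: S_124053_29

/-- their codes -/
def K_124053_30 : List ℕ := 100948 :: K_124053_29

/-- first 31 vertices -/
def S_124053_31 : List (List ℕ) := [1, 5, 2, 3, 0, 4] :: S_124053_30

/-- their codes -/
def K_124053_31 : List ℕ := 54468 :: K_124053_30

/-- first 32 vertices -/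
def S_124053_32 : List (List ℕ) := [3, 0, 5, 4, 1, 2] :: S_124053_31

/-- their codes -/
def K_124053_32 : List ℕ := 101130 :: K_124053_31

/-- first 33 vertices -/
def S_124053_33 : List (List ℕ) := [1, 2, 5, 3, 0, 4] :: S_124053_32

/-- their codes -/
def K_124053_33 : List ℕ := 43716 :: K_124053_32

/-- first 34 vertices -/
def S_124053_34 : List (List ℕ) := [4, 0, 1, 3, 5, 2] :: S_124053_33

/-- their codes -/
def K_124053_34 : List ℕ := 131818 :: K_124053_33

/-- first 35 vertices -/
def S_124053_35 : List (List ℕ) := [1, 5, 4, 2, 3, 0] :: S_124053_34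

/-- their codes -/
def K_124053_35 : List ℕ := 55448 :: K_124053_34

/-- first 36 vertices -/
def S_124053_36 : List (List ℕ) := [4, 1, 2, 0, 5, 3] :: S_124053_35

/-- their codes -/
def K_124053_36 : List ℕ := 136235 :: K_124053_35

/-- first 37 vertices -/
def S_124053_37 : List (List ℕ) := [1, 2, 5, 4, 3, 0] :: S_124053_36

/-- their codes -/
def K_124053_37 : List ℕ := 43800 :: K_124053_36

/-- first 38 vertices -/
def S_124053_38 : List (List ℕ) := [4, 2, 0, 1, 5, 3] :: S_124053_37

/-- their codes -/
def K_124053_38 : List ℕ := 139371 :: K_124053_37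

/-- first 39 vertices -/
def S_124053_39 : List (List ℕ) := [5, 0, 1, 4, 3, 2] :: S_124053_38

/-- their codes -/
def K_124053_39 : List ℕ := 164634 :: K_124053_38

/-- first 40 vertices -/
def S_124053_40 : List (List ℕ) := [5, 1, 4, 3, 2, 0] :: S_124053_39

/-- their codes -/
def K_124053_40 : List ℕ := 170192 :: K_124053_39

/-- first 41 vertices -/
def S_124053_41 : List (List ℕ) := [2, 3, 1, 5, 0, 4] :: S_124053_40

/-- their codes -/
def K_124053_41 : List ℕ := 78660 :: K_124053_40

/-- first 42 vertices -/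
def S_124053_42 : List (List ℕ) := [4, 5, 3, 2, 1, 0] :: S_124053_41

/-- their codes -/
def K_124053_42 : List ℕ := 153224 :: K_124053_41

/-- first 43 vertices -/
def S_124053_43 : List (List ℕ) := [2, 3, 1, 5, 4, 0] :: S_124053_42

/-- their codes -/
def K_124053_43 : List ℕ := 78688 :: K_124053_42

/-- first 44 vertices -/
def S_124053_44 : List (List ℕ) := [3, 4, 2, 1, 5, 0] :: S_124053_43

/-- their codes -/
def K_124053_44 : List ℕ := 115816 :: K_124053_43

/-- first 45 vertices -/
def S_124053_45 : List (List ℕ) := [4, 5, 2, 1, 0, 3] :: S_124053_44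

/-- their codes -/
def K_124053_45 : List ℕ := 152643 :: K_124053_44

/-- first 46 vertices -/
def S_124053_46 : List (List ℕ) := [5, 0, 4, 2, 3, 1] :: S_124053_45

/-- their codes -/
def K_124053_46 : List ℕ := 166041 :: K_124053_45

/-- first 47 vertices -/
def S_124053_47 : List (List ℕ) := [5, 1, 0, 4, 2, 3] :: S_124053_46

/-- their codes -/
def K_124053_47 : List ℕ := 168211 :: K_124053_46

/-- first 48 vertices -/
def S_124053_48 : List (List ℕ) := [3, 4, 1, 0, 5, 2] :: S_124053_47

/-- their codes -/
def K_124053_48 : List ℕ := 115242 :: K_124053_47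

/-- first 49 vertices -/
def S_124053_49 : List (List ℕ) := [4, 0, 3, 5, 1, 2] :: S_124053_48

/-- their codes -/
def K_124053_49 : List ℕ := 132938 :: K_124053_48

/-- first 50 vertices -/
def S_124053_50 : List (List ℕ) := [2, 3, 0, 5, 1, 4] :: S_124053_49

/-- their codes -/
def K_124053_50 : List ℕ := 78156 :: K_124053_49

/-- first 51 vertices -/
def S_124053_51 : List (List ℕ) := [2, 3, 0, 5, 4, 1] :: S_124053_50

/-- their codes -/
def K_124053_51 : List ℕ := 78177 :: K_124053_50

/-- first 52 vertices -/
def S_124053_52 : List (List ℕ) := [5, 0, 4, 3, 1, 2] :: S_124053_51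

/-- their codes -/
def K_124053_52 : List ℕ := 166090 :: K_124053_51

/-- first 53 vertices -/
def S_124053_53 : List (List ℕ) := [5, 4, 3, 1, 2, 0] :: S_124053_52

/-- their codes -/
def K_124053_53 : List ℕ := 181840 :: K_124053_52

/-- first 54 vertices -/
def S_124053_54 : List (List ℕ) := [5, 1, 2, 0, 4, 3] :: S_124053_53

/-- their codes -/
def K_124053_54 : List ℕ := 168995 :: K_124053_53

/-- first 55 vertices -/
def S_124053_55 : List (List ℕ) := [5, 2, 0, 4, 3, 1] :: S_124053_54

/-- their codes -/
def K_124053_55 : List ℕ := 172313 :: K_124053_54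

/-- first 56 vertices -/
def S_124053_56 : List (List ℕ) := [5, 3, 1, 2, 0, 4] :: S_124053_55

/-- their codes -/
def K_124053_56 : List ℕ := 176772 :: K_124053_55

/-- first 57 vertices -/
def S_124053_57 : List (List ℕ) := [3, 4, 0, 2, 5, 1] :: S_124053_56

/-- their codes -/
def K_124053_57 : List ℕ := 114857 :: K_124053_56

/-- first 58 vertices -/
def S_124053_58 : List (List ℕ) := [4, 5, 0, 3, 2, 1] :: S_124053_57

/-- their codes -/
def K_124053_58 : List ℕ := 151761 :: K_124053_57

/-- first 59 vertices -/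
def S_124053_59 : List (List ℕ) := [4, 5, 1, 0, 3, 2] :: S_124053_58

/-- their codes -/
def K_124053_59 : List ℕ := 152090 :: K_124053_58

/-- first 60 vertices -/
def S_124053_60 : List (List ℕ) := [3, 1, 2, 5, 0, 4] :: S_124053_59

/-- their codes -/
def K_124053_60 : List ℕ := 103748 :: K_124053_59

/-- first 61 vertices -/
def S_124053_61 : List (List ℕ) := [1, 5, 3, 4, 2, 0] :: S_124053_60

/-- their codes -/
def K_124053_61 : List ℕ := 55056 :: K_124053_60

/-- first 62 vertices -/
def S_124053_62 : List (List ℕ) := [5, 4, 2, 3, 1, 0] :: S_124053_61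

/-- their codes -/
def K_124053_62 : List ℕ := 181448 :: K_124053_61

/-- first 63 vertices -/
def S_124053_63 : List (List ℕ) := [4, 3, 1, 2, 5, 0] :: S_124053_62

/-- their codes -/
def K_124053_63 : List ℕ := 144040 :: K_124053_62

/-- first 64 vertices -/
def S_124053_64 : List (List ℕ) := [5, 2, 3, 1, 0, 4] :: S_124053_63

/-- their codes -/
def K_124053_64 : List ℕ := 173636 :: K_124053_63

/-- first 65 vertices -/
def S_124053_65 : List (List ℕ) := [5, 3, 1, 0, 4, 2] :: S_124053_64

/-- their codes -/
def K_124053_65 : List ℕ := 176674 :: K_124053_64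

/-- first 66 vertices -/
def S_124053_66 : List (List ℕ) := [2, 1, 4, 5, 3, 0] :: S_124053_65

/-- their codes -/
def K_124053_66 : List ℕ := 72024 :: K_124053_65

/-- first 67 vertices -/
def S_124053_67 : List (List ℕ) := [3, 2, 5, 1, 4, 0] :: S_124053_66

/-- their codes -/
def K_124053_67 : List ℕ := 109152 :: K_124053_66

/-- first 68 vertices -/
def S_124053_68 : List (List ℕ) := [4, 3, 2, 5, 1, 0] :: S_124053_67

/-- their codes -/
def K_124053_68 : List ℕ := 144712 :: K_124053_67

/-- first 69 vertices -/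
def S_124053_69 : List (List ℕ) := [2, 1, 5, 3, 4, 0] :: S_124053_68

/-- their codes -/
def K_124053_69 : List ℕ := 72416 :: K_124053_68

/-- first 70 vertices -/
def S_124053_70 : List (List ℕ) := [3, 2, 1, 4, 5, 0] :: S_124053_69

/-- their codes -/
def K_124053_70 : List ℕ := 107304 :: K_124053_69

/-- first 71 vertices -/
def S_124053_71 : List (List ℕ) := [1, 4, 5, 2, 0, 3] :: S_124053_70

/-- their codes -/
def K_124053_71 : List ℕ := 51843 :: K_124053_70

/-- first 72 vertices -/
def S_124053_72 : List (List ℕ) := [1, 4, 5, 3, 2, 0] :: S_124053_71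

/-- their codes -/
def K_124053_72 : List ℕ := 51920 :: K_124053_71

/-- first 73 vertices -/
def S_124053_73 : List (List ℕ) := [5, 0, 3, 4, 2, 1] :: S_124053_72

/-- their codes -/
def K_124053_73 : List ℕ := 165649 :: K_124053_72

/-- first 74 vertices -/
def S_124053_74 : List (List ℕ) := [5, 3, 4, 2, 1, 0] :: S_124053_73

/-- their codes -/
def K_124053_74 : List ℕ := 178312 :: K_124053_73

/-- first 75 vertices -/
def S_124053_75 : List (List ℕ) := [5, 4, 2, 1, 0, 3] :: S_124053_74

/-- their codes -/
def K_124053_75 : List ℕ := 181315 :: K_124053_74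

/-- first 76 vertices -/
def S_124053_76 : List (List ℕ) := [3, 1, 2, 5, 4, 0] :: S_124053_75

/-- their codes -/
def K_124053_76 : List ℕ := 103776 :: K_124053_75

/-- first 77 vertices -/
def S_124053_77 : List (List ℕ) := [4, 2, 3, 1, 5, 0] :: S_124053_76

/-- their codes -/
def K_124053_77 : List ℕ := 140904 :: K_124053_76

/-- first 78 vertices -/
def S_124053_78 : List (List ℕ) := [5, 1, 0, 3, 4, 2] :: S_124053_77

/-- their codes -/
def K_124053_78 : List ℕ := 168162 :: K_124053_77

/-- first 79 vertices -/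
def S_124053_79 : List (List ℕ) := [5, 2, 1, 0, 3, 4] :: S_124053_78

/-- their codes -/
def K_124053_79 : List ℕ := 172572 :: K_124053_78

/-- first 80 vertices -/
def S_124053_80 : List (List ℕ) := [2, 4, 0, 1, 5, 3] :: S_124053_79

/-- their codes -/
def K_124053_80 : List ℕ := 82027 :: K_124053_79

/-- first 81 vertices -/
def S_124053_81 : List (List ℕ) := [2, 5, 0, 1, 4, 3] :: S_124053_80

/-- their codes -/
def K_124053_81 : List ℕ := 86115 :: K_124053_80

/-- first 82 vertices -/
def S_124053_82 : List (List ℕ) := [2, 5, 1, 4, 3, 0] :: S_124053_81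

/-- their codes -/
def K_124053_82 : List ℕ := 86808 :: K_124053_81

/-- first 83 vertices -/
def S_124053_83 : List (List ℕ) := [2, 5, 4, 3, 0, 1] :: S_124053_82

/-- their codes -/
def K_124053_83 : List ℕ := 88257 :: K_124053_82

/-- first 84 vertices -/
def S_124053_84 : List (List ℕ) := [3, 2, 5, 4, 0, 1] :: S_124053_83

/-- their codes -/
def K_124053_84 : List ℕ := 109313 :: K_124053_83

/-- first 85 vertices -/
def S_124053_85 : List (List ℕ) := [4, 3, 2, 5, 0, 1] :: S_124053_84

/-- their codes -/
def K_124053_85 : List ℕ := 144705 :: K_124053_84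

/-- first 86 vertices -/
def S_124053_86 : List (List ℕ) := [5, 4, 3, 2, 0, 1] :: S_124053_85

/-- their codes -/
def K_124053_86 : List ℕ := 181889 :: K_124053_85

/-- first 87 vertices -/
def S_124053_87 : List (List ℕ) := [2, 5, 3, 0, 1, 4] :: S_124053_86

/-- their codes -/
def K_124053_87 : List ℕ := 87564 :: K_124053_86

/-- first 88 vertices -/
def S_124053_88 : List (List ℕ) := [3, 2, 5, 0, 1, 4] :: S_124053_87

/-- their codes -/
def K_124053_88 : List ℕ := 109068 :: K_124053_87

/-- first 89 vertices -/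
def S_124053_89 : List (List ℕ) := [5, 2, 0, 1, 4, 3] :: S_124053_88

/-- their codes -/
def K_124053_89 : List ℕ := 172131 :: K_124053_88

/-- first 90 vertices -/
def S_124053_90 : List (List ℕ) := [5, 3, 2, 0, 1, 4] :: S_124053_89

/-- their codes -/
def K_124053_90 : List ℕ := 177164 :: K_124053_89

/-- no vertex -/
def S_132504_0 : List (List ℕ) := []

/-- no code -/
def K_132504_0 : List ℕ := []

/-- first 1 vertices -/
def S_132504_1 : List (List ℕ) := [1, 4, 0, 2, 5, 3] :: S_132504_0

/-- their codes -/
def K_132504_1 : List ℕ := 49323 :: K_132504_0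

/-- first 2 vertices -/
def S_132504_2 : List (List ℕ) := [2, 0, 3, 5, 1, 4] :: S_132504_1

/-- their codes -/
def K_132504_2 : List ℕ := 67404 :: K_132504_1

/-- first 3 vertices -/
def S_132504_3 : List (List ℕ) := [1, 5, 0, 2, 4, 3] :: S_132504_2

/-- their codes -/
def K_132504_3 : List ℕ := 53411 :: K_132504_2

/-- first 4 vertices -/
def S_132504_4 : List (List ℕ) := [2, 0, 3, 5, 4, 1] :: S_132504_3

/-- their codes -/
def K_132504_4 : List ℕ := 67425 :: K_132504_3

/-- first 5 vertices -/
def S_132504_5 : List (List ℕ) := [1, 5, 3, 0, 2, 4] :: S_132504_4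

/-- their codes -/
def K_132504_5 : List ℕ := 54804 :: K_132504_4

/-- first 6 vertices -/
def S_132504_6 : List (List ℕ) := [3, 0, 4, 2, 5, 1] :: S_132504_5

/-- their codes -/
def K_132504_6 : List ℕ := 100521 :: K_132504_5

/-- first 7 vertices -/
def S_132504_7 : List (List ℕ) := [1, 5, 4, 3, 0, 2] :: S_132504_6

/-- their codes -/
def K_132504_7 : List ℕ := 55490 :: K_132504_6

/-- first 8 vertices -/
def S_132504_8 : List (List ℕ) := [4, 0, 5, 3, 2, 1] :: S_132504_7

/-- their codes -/
def K_132504_8 : List ℕ := 133841 :: K_132504_7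

/-- first 9 vertices -/
def S_132504_9 : List (List ℕ) := [1, 4, 3, 0, 5, 2] :: S_132504_8

/-- their codes -/
def K_132504_9 : List ℕ := 50730 :: K_132504_8

/-- first 10 vertices -/
def S_132504_10 : List (List ℕ) := [3, 0, 5, 2, 1, 4] :: S_132504_9

/-- their codes -/
def K_132504_10 : List ℕ := 101004 :: K_132504_9

/-- first 11 vertices -/
def S_132504_11 : List (List ℕ) := [2, 1, 3, 5, 0, 4] :: S_132504_10

/-- their codes -/
def K_132504_11 : List ℕ := 71492 :: K_132504_10

/-- first 12 vertices -/
def S_132504_12 : List (List ℕ) := [4, 1, 0, 2, 5, 3] :: S_132504_11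

/-- their codes -/
def K_132504_12 : List ℕ := 135339 :: K_132504_11

/-- first 13 vertices -/
def S_132504_13 : List (List ℕ) := [1, 5, 0, 3, 2, 4] :: S_132504_12

/-- their codes -/
def K_132504_13 : List ℕ := 53460 :: K_132504_12

/-- first 14 vertices -/
def S_132504_14 : List (List ℕ) := [2, 0, 4, 3, 5, 1] :: S_132504_13

/-- their codes -/
def K_132504_14 : List ℕ := 67817 :: K_132504_13

/-- first 15 vertices -/
def S_132504_15 : List (List ℕ) := [1, 5, 4, 0, 3, 2] :: S_132504_14

/-- their codes -/
def K_132504_15 : List ℕ := 55322 :: K_132504_14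

/-- first 16 vertices -/
def S_132504_16 : List (List ℕ) := [3, 0, 5, 4, 2, 1] :: S_132504_15

/-- their codes -/
def K_132504_16 : List ℕ := 101137 :: K_132504_15

/-- first 17 vertices -/
def S_132504_17 : List (List ℕ) := [1, 3, 5, 0, 4, 2] :: S_132504_16

/-- their codes -/
def K_132504_17 : List ℕ := 47650 :: K_132504_16

/-- first 18 vertices -/
def S_132504_18 : List (List ℕ) := [3, 0, 5, 1, 4, 2] :: S_132504_17

/-- their codes -/
def K_132504_18 : List ℕ := 100962 :: K_132504_17

/-- first 19 vertices -/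
def S_132504_19 : List (List ℕ) := [1, 3, 5, 0, 2, 4] :: S_132504_18

/-- their codes -/
def K_132504_19 : List ℕ := 47636 :: K_132504_18

/-- first 20 vertices -/
def S_132504_20 : List (List ℕ) := [3, 2, 5, 1, 0, 4] :: S_132504_19

/-- their codes -/
def K_132504_20 : List ℕ := 109124 :: K_132504_19

/-- first 21 vertices -/
def S_132504_21 : List (List ℕ) := [4, 0, 2, 1, 5, 3] :: S_132504_20

/-- their codes -/
def K_132504_21 : List ℕ := 132203 :: K_132504_20

/-- first 22 vertices -/
def S_132504_22 : List (List ℕ) := [3, 2, 5, 0, 4, 1] :: S_132504_21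

/-- their codes -/
def K_132504_22 : List ℕ := 109089 :: K_132504_21

/-- first 23 vertices -/
def S_132504_23 : List (List ℕ) := [2, 5, 0, 3, 1, 4] :: S_132504_22

/-- their codes -/
def K_132504_23 : List ℕ := 86220 :: K_132504_22

/-- first 24 vertices -/
def S_132504_24 : List (List ℕ) := [1, 5, 2, 4, 0, 3] :: S_132504_23

/-- their codes -/
def K_132504_24 : List ℕ := 54531 :: K_132504_23

/-- first 25 vertices -/
def S_132504_25 : List (List ℕ) := [1, 4, 2, 5, 0, 3] :: S_132504_24

/-- their codes -/
def K_132504_25 : List ℕ := 50499 :: K_132504_24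

/-- first 26 vertices -/
def S_132504_26 : List (List ℕ) := [2, 5, 4, 0, 3, 1] :: S_132504_25

/-- their codes -/
def K_132504_26 : List ℕ := 88089 :: K_132504_25

/-- first 27 vertices -/
def S_132504_27 : List (List ℕ) := [4, 3, 2, 0, 5, 1] :: S_132504_26

/-- their codes -/
def K_132504_27 : List ℕ := 144425 :: K_132504_26

/-- first 28 vertices -/
def S_132504_28 : List (List ℕ) := [5, 0, 2, 1, 4, 3] :: S_132504_27

/-- their codes -/
def K_132504_28 : List ℕ := 164963 :: K_132504_27

/-- first 29 vertices -/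
def S_132504_29 : List (List ℕ) := [5, 3, 0, 2, 1, 4] :: S_132504_28

/-- their codes -/
def K_132504_29 : List ℕ := 176268 :: K_132504_28

/-- first 30 vertices -/
def S_132504_30 : List (List ℕ) := [1, 5, 3, 2, 4, 0] :: S_132504_29

/-- their codes -/
def K_132504_30 : List ℕ := 54944 :: K_132504_29

/-- first 31 vertices -/
def S_132504_31 : List (List ℕ) := [3, 1, 4, 0, 5, 2] :: S_132504_30

/-- their codes -/
def K_132504_31 : List ℕ := 104490 :: K_132504_30

/-- first 32 vertices -/
def S_132504_32 : List (List ℕ) := [4, 1, 5, 0, 3, 2] :: S_132504_31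

/-- their codes -/
def K_132504_32 : List ℕ := 137754 :: K_132504_31

/-- first 33 vertices -/
def S_132504_33 : List (List ℕ) := [1, 3, 2, 5, 0, 4] :: S_132504_32

/-- their codes -/
def K_132504_33 : List ℕ := 46404 :: K_132504_32

/-- first 34 vertices -/
def S_132504_34 : List (List ℕ) := [3, 5, 2, 1, 0, 4] :: S_132504_33

/-- their codes -/
def K_132504_34 : List ℕ := 119876 :: K_132504_33

/-- first 35 vertices -/
def S_132504_35 : List (List ℕ) := [3, 5, 1, 0, 4, 2] :: S_132504_34

/-- their codes -/
def K_132504_35 : List ℕ := 119330 :: K_132504_34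

/-- first 36 vertices -/
def S_132504_36 : List (List ℕ) := [4, 1, 5, 3, 2, 0] :: S_132504_35

/-- their codes -/
def K_132504_36 : List ℕ := 137936 :: K_132504_35

/-- first 37 vertices -/
def S_132504_37 : List (List ℕ) := [5, 2, 1, 4, 3, 0] :: S_132504_36

/-- their codes -/
def K_132504_37 : List ℕ := 172824 :: K_132504_36

/-- first 38 vertices -/
def S_132504_38 : List (List ℕ) := [3, 5, 4, 2, 1, 0] :: S_132504_37

/-- their codes -/
def K_132504_38 : List ℕ := 120968 :: K_132504_37

/-- first 39 vertices -/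
def S_132504_39 : List (List ℕ) := [1, 3, 2, 5, 4, 0] :: S_132504_38

/-- their codes -/
def K_132504_39 : List ℕ := 46432 :: K_132504_38

/-- first 40 vertices -/
def S_132504_40 : List (List ℕ) := [2, 4, 3, 1, 5, 0] :: S_132504_39

/-- their codes -/
def K_132504_40 : List ℕ := 83560 :: K_132504_39

/-- first 41 vertices -/
def S_132504_41 : List (List ℕ) := [4, 3, 1, 0, 5, 2] :: S_132504_40

/-- their codes -/
def K_132504_41 : List ℕ := 143914 :: K_132504_40

/-- first 42 vertices -/
def S_132504_42 : List (List ℕ) := [5, 1, 4, 3, 0, 2] :: S_132504_41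

/-- their codes -/
def K_132504_42 : List ℕ := 170178 :: K_132504_41

/-- first 43 vertices -/
def S_132504_43 : List (List ℕ) := [5, 4, 3, 0, 2, 1] :: S_132504_42

/-- their codes -/
def K_132504_43 : List ℕ := 181777 :: K_132504_42

/-- first 44 vertices -/
def S_132504_44 : List (List ℕ) := [5, 0, 3, 2, 4, 1] :: S_132504_43

/-- their codes -/
def K_132504_44 : List ℕ := 165537 :: K_132504_43

/-- first 45 vertices -/
def S_132504_45 : List (List ℕ) := [4, 0, 2, 5, 3, 1] :: S_132504_44

/-- their codes -/
def K_132504_45 : List ℕ := 132441 :: K_132504_44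

/-- first 46 vertices -/
def S_132504_46 : List (List ℕ) := [2, 1, 4, 3, 5, 0] :: S_132504_45

/-- their codes -/
def K_132504_46 : List ℕ := 71912 :: K_132504_45

/-- first 47 vertices -/
def S_132504_47 : List (List ℕ) := [5, 1, 0, 3, 2, 4] :: S_132504_46

/-- their codes -/
def K_132504_47 : List ℕ := 168148 :: K_132504_46

/-- first 48 vertices -/
def S_132504_48 : List (List ℕ) := [3, 2, 5, 4, 1, 0] :: S_132504_47

/-- their codes -/
def K_132504_48 : List ℕ := 109320 :: K_132504_47

/-- first 49 vertices -/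
def S_132504_49 : List (List ℕ) := [5, 4, 1, 0, 3, 2] :: S_132504_48

/-- their codes -/
def K_132504_49 : List ℕ := 180762 :: K_132504_48

/-- first 50 vertices -/
def S_132504_50 : List (List ℕ) := [4, 0, 2, 5, 1, 3] :: S_132504_49

/-- their codes -/
def K_132504_50 : List ℕ := 132427 :: K_132504_49

/-- first 51 vertices -/
def S_132504_51 : List (List ℕ) := [4, 0, 5, 2, 1, 3] :: S_132504_50

/-- their codes -/
def K_132504_51 : List ℕ := 133771 :: K_132504_50

/-- first 52 vertices -/
def S_132504_52 : List (List ℕ) := [3, 0, 4, 1, 5, 2] :: S_132504_51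

/-- their codes -/
def K_132504_52 : List ℕ := 100458 :: K_132504_51

/-- first 53 vertices -/
def S_132504_53 : List (List ℕ) := [4, 0, 5, 1, 3, 2] :: S_132504_52

/-- their codes -/
def K_132504_53 : List ℕ := 133722 :: K_132504_52

/-- first 54 vertices -/
def S_132504_54 : List (List ℕ) := [2, 4, 0, 3, 5, 1] :: S_132504_53

/-- their codes -/
def K_132504_54 : List ℕ := 82153 :: K_132504_53

/-- first 55 vertices -/
def S_132504_55 : List (List ℕ) := [3, 1, 5, 0, 2, 4] :: S_132504_54

/-- their codes -/
def K_132504_55 : List ℕ := 104980 :: K_132504_54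

/-- first 56 vertices -/
def S_132504_56 : List (List ℕ) := [1, 4, 3, 5, 0, 2] :: S_132504_55

/-- their codes -/
def K_132504_56 : List ℕ := 51010 :: K_132504_55

/-- first 57 vertices -/
def S_132504_57 : List (List ℕ) := [1, 3, 5, 4, 0, 2] :: S_132504_56

/-- their codes -/
def K_132504_57 : List ℕ := 47874 :: K_132504_56

/-- first 58 vertices -/
def S_132504_58 : List (List ℕ) := [3, 1, 5, 4, 0, 2] :: S_132504_57

/-- their codes -/
def K_132504_58 : List ℕ := 105218 :: K_132504_57

/-- first 59 vertices -/
def S_132504_59 : List (List ℕ) := [3, 5, 0, 4, 2, 1] :: S_132504_58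

/-- their codes -/
def K_132504_59 : List ℕ := 119057 :: K_132504_58

/-- first 60 vertices -/
def S_132504_60 : List (List ℕ) := [1, 4, 2, 5, 3, 0] :: S_132504_59

/-- their codes -/
def K_132504_60 : List ℕ := 50520 :: K_132504_59

/-- first 61 vertices -/
def S_132504_61 : List (List ℕ) := [4, 1, 5, 2, 0, 3] :: S_132504_60

/-- their codes -/
def K_132504_61 : List ℕ := 137859 :: K_132504_60

/-- first 62 vertices -/
def S_132504_62 : List (List ℕ) := [5, 0, 2, 4, 1, 3] :: S_132504_61

/-- their codes -/
def K_132504_62 : List ℕ := 165131 :: K_132504_61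

/-- first 63 vertices -/
def S_132504_63 : List (List ℕ) := [4, 1, 3, 5, 0, 2] :: S_132504_62

/-- their codes -/
def K_132504_63 : List ℕ := 137026 :: K_132504_62

/-- first 64 vertices -/
def S_132504_64 : List (List ℕ) := [1, 4, 3, 5, 2, 0] :: S_132504_63

/-- their codes -/
def K_132504_64 : List ℕ := 51024 :: K_132504_63

/-- first 65 vertices -/
def S_132504_65 : List (List ℕ) := [5, 3, 2, 4, 1, 0] :: S_132504_64

/-- their codes -/
def K_132504_65 : List ℕ := 177416 :: K_132504_64

/-- first 66 vertices -/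
def S_132504_66 : List (List ℕ) := [3, 1, 5, 2, 4, 0] :: S_132504_65

/-- their codes -/
def K_132504_66 : List ℕ := 105120 :: K_132504_65

/-- first 67 vertices -/
def S_132504_67 : List (List ℕ) := [4, 2, 1, 3, 5, 0] :: S_132504_66

/-- their codes -/
def K_132504_67 : List ℕ := 140008 :: K_132504_66

/-- first 68 vertices -/
def S_132504_68 : List (List ℕ) := [5, 2, 4, 1, 0, 3] :: S_132504_67

/-- their codes -/
def K_132504_68 : List ℕ := 174147 :: K_132504_67

/-- first 69 vertices -/
def S_132504_69 : List (List ℕ) := [4, 2, 5, 1, 0, 3] :: S_132504_68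

/-- their codes -/
def K_132504_69 : List ℕ := 141891 :: K_132504_68

/-- first 70 vertices -/
def S_132504_70 : List (List ℕ) := [4, 2, 0, 5, 3, 1] :: S_132504_69

/-- their codes -/
def K_132504_70 : List ℕ := 139609 :: K_132504_69

/-- first 71 vertices -/
def S_132504_71 : List (List ℕ) := [4, 2, 0, 5, 1, 3] :: S_132504_70

/-- their codes -/
def K_132504_71 : List ℕ := 139595 :: K_132504_70

/-- first 72 vertices -/
def S_132504_72 : List (List ℕ) := [4, 0, 3, 1, 5, 2] :: S_132504_71

/-- their codes -/
def K_132504_72 : List ℕ := 132714 :: K_132504_71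

/-- first 73 vertices -/
def S_132504_73 : List (List ℕ) := [5, 0, 4, 1, 3, 2] :: S_132504_72

/-- their codes -/
def K_132504_73 : List ℕ := 165978 :: K_132504_72

/-- first 74 vertices -/
def S_132504_74 : List (List ℕ) := [5, 1, 3, 2, 0, 4] :: S_132504_73

/-- their codes -/
def K_132504_74 : List ℕ := 169604 :: K_132504_73

/-- first 75 vertices -/
def S_132504_75 : List (List ℕ) := [5, 2, 0, 4, 1, 3] :: S_132504_74

/-- their codes -/
def K_132504_75 : List ℕ := 172299 :: K_132504_74

/-- first 76 vertices -/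
def S_132504_76 : List (List ℕ) := [1, 3, 5, 2, 0, 4] :: S_132504_75

/-- their codes -/
def K_132504_76 : List ℕ := 47748 :: K_132504_75

/-- first 77 vertices -/
def S_132504_77 : List (List ℕ) := [4, 2, 5, 0, 3, 1] :: S_132504_76

/-- their codes -/
def K_132504_77 : List ℕ := 141849 :: K_132504_76

/-- first 78 vertices -/
def S_132504_78 : List (List ℕ) := [2, 5, 3, 1, 4, 0] :: S_132504_77

/-- their codes -/
def K_132504_78 : List ℕ := 87648 :: K_132504_77

/-- first 79 vertices -/
def S_132504_79 : List (List ℕ) := [3, 1, 4, 2, 5, 0] :: S_132504_78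

/-- their codes -/
def K_132504_79 : List ℕ := 104616 :: K_132504_78

/-- first 80 vertices -/
def S_132504_80 : List (List ℕ) := [4, 2, 5, 3, 1, 0] :: S_132504_79

/-- their codes -/
def K_132504_80 : List ℕ := 142024 :: K_132504_79

/-- first 81 vertices -/
def S_132504_81 : List (List ℕ) := [1, 3, 5, 4, 2, 0] :: S_132504_80

/-- their codes -/
def K_132504_81 : List ℕ := 47888 :: K_132504_80

/-- first 82 vertices -/
def S_132504_82 : List (List ℕ) := [2, 4, 1, 5, 0, 3] :: S_132504_81

/-- their codes -/
def K_132504_82 : List ℕ := 82755 :: K_132504_81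

/-- first 83 vertices -/
def S_132504_83 : List (List ℕ) := [2, 5, 1, 4, 0, 3] :: S_132504_82

/-- their codes -/
def K_132504_83 : List ℕ := 86787 :: K_132504_82

/-- first 84 vertices -/
def S_132504_84 : List (List ℕ) := [4, 1, 3, 2, 5, 0] :: S_132504_83

/-- their codes -/
def K_132504_84 : List ℕ := 136872 :: K_132504_83

/-- first 85 vertices -/
def S_132504_85 : List (List ℕ) := [2, 4, 1, 5, 3, 0] :: S_132504_84

/-- their codes -/
def K_132504_85 : List ℕ := 82776 :: K_132504_84

/-- first 86 vertices -/
def S_132504_86 : List (List ℕ) := [3, 5, 2, 1, 4, 0] :: S_132504_85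

/-- their codes -/
def K_132504_86 : List ℕ := 119904 :: K_132504_85

/-- first 87 vertices -/
def S_132504_87 : List (List ℕ) := [5, 3, 2, 0, 4, 1] :: S_132504_86

/-- their codes -/
def K_132504_87 : List ℕ := 177185 :: K_132504_86

/-- first 88 vertices -/
def S_132504_88 : List (List ℕ) := [2, 4, 3, 0, 5, 1] :: S_132504_87

/-- their codes -/
def K_132504_88 : List ℕ := 83497 :: K_132504_87

/-- first 89 vertices -/
def S_132504_89 : List (List ℕ) := [3, 5, 0, 2, 1, 4] :: S_132504_88

/-- their codes -/
def K_132504_89 : List ℕ := 118924 :: K_132504_88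

/-- first 90 vertices -/
def S_132504_90 : List (List ℕ) := [3, 5, 1, 0, 2, 4] :: S_132504_89

/-- their codes -/
def K_132504_90 : List ℕ := 119316 :: K_132504_89

/-- first 91 vertices -/
def S_132504_91 : List (List ℕ) := [2, 4, 0, 5, 3, 1] :: S_132504_90

/-- their codes -/
def K_132504_91 : List ℕ := 82265 :: K_132504_90

/-- first 92 vertices -/
def S_132504_92 : List (List ℕ) := [5, 0, 4, 2, 1, 3] :: S_132504_91

/-- their codes -/
def K_132504_92 : List ℕ := 166027 :: K_132504_91

/-- first 93 vertices -/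
def S_132504_93 : List (List ℕ) := [5, 4, 2, 1, 3, 0] :: S_132504_92

/-- their codes -/
def K_132504_93 : List ℕ := 181336 :: K_132504_92

/-- first 94 vertices -/
def S_132504_94 : List (List ℕ) := [5, 1, 3, 0, 4, 2] :: S_132504_93

/-- their codes -/
def K_132504_94 : List ℕ := 169506 :: K_132504_93

/-- first 95 vertices -/
def S_132504_95 : List (List ℕ) := [5, 3, 0, 4, 2, 1] :: S_132504_94

/-- their codes -/
def K_132504_95 : List ℕ := 176401 :: K_132504_94

/-- first 96 vertices -/
def S_132504_96 : List (List ℕ) := [3, 5, 0, 2, 4, 1] :: S_132504_95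

/-- their codes -/
def K_132504_96 : List ℕ := 118945 :: K_132504_95

/-- first 97 vertices -/
def S_132504_97 : List (List ℕ) := [4, 2, 0, 3, 5, 1] :: S_132504_96

/-- their codes -/
def K_132504_97 : List ℕ := 139497 :: K_132504_96

/-- first 98 vertices -/
def S_132504_98 : List (List ℕ) := [5, 2, 1, 3, 0, 4] :: S_132504_97

/-- their codes -/
def K_132504_98 : List ℕ := 172740 :: K_132504_97

/-- first 99 vertices -/
def S_132504_99 : List (List ℕ) := [1, 3, 5, 2, 4, 0] :: S_132504_98

/-- their codes -/
def K_132504_99 : List ℕ := 47776 :: K_132504_98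

/-- first 100 vertices -/
def S_132504_100 : List (List ℕ) := [3, 5, 2, 4, 1, 0] :: S_132504_99

/-- their codes -/
def K_132504_100 : List ℕ := 120072 :: K_132504_99

/-- first 101 vertices -/
def S_132504_101 : List (List ℕ) := [4, 1, 3, 5, 2, 0] :: S_132504_100

/-- their codes -/
def K_132504_101 : List ℕ := 137040 :: K_132504_100

/-- first 102 vertices -/
def S_132504_102 : List (List ℕ) := [5, 2, 4, 1, 3, 0] :: S_132504_101

/-- their codes -/
def K_132504_102 : List ℕ := 174168 :: K_132504_101

/-- first 103 vertices -/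
def S_132504_103 : List (List ℕ) := [2, 4, 1, 3, 5, 0] :: S_132504_102

/-- their codes -/
def K_132504_103 : List ℕ := 82664 :: K_132504_102

/-- first 104 vertices -/
def S_132504_104 : List (List ℕ) := [3, 5, 1, 4, 0, 2] :: S_132504_103

/-- their codes -/
def K_132504_104 : List ℕ := 119554 :: K_132504_103

/-- first 105 vertices -/
def S_132504_105 : List (List ℕ) := [3, 5, 4, 0, 2, 1] :: S_132504_104

/-- their codes -/
def K_132504_105 : List ℕ := 120849 :: K_132504_104

/-- first 106 vertices -/
def S_132504_106 : List (List ℕ) := [5, 4, 1, 3, 0, 2] :: S_132504_105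

/-- their codes -/
def K_132504_106 : List ℕ := 180930 :: K_132504_105

/-- first 107 vertices -/
def S_132504_107 : List (List ℕ) := [4, 3, 1, 5, 0, 2] :: S_132504_106

/-- their codes -/
def K_132504_107 : List ℕ := 144194 :: K_132504_106

/-- first 108 vertices -/
def S_132504_108 : List (List ℕ) := [4, 3, 1, 5, 2, 0] :: S_132504_107

/-- their codes -/
def K_132504_108 : List ℕ := 144208 :: K_132504_107

/-- first 109 vertices -/
def S_132504_109 : List (List ℕ) := [5, 1, 3, 0, 2, 4] :: S_132504_108

/-- their codes -/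
def K_132504_109 : List ℕ := 169492 :: K_132504_108

/-- first 110 vertices -/
def S_132504_110 : List (List ℕ) := [5, 3, 0, 2, 4, 1] :: S_132504_109

/-- their codes -/
def K_132504_110 : List ℕ := 176289 :: K_132504_109

/-- first 111 vertices -/
def S_132504_111 : List (List ℕ) := [1, 5, 2, 4, 3, 0] :: S_132504_110

/-- their codes -/
def K_132504_111 : List ℕ := 54552 :: K_132504_110

/-- first 112 vertices -/
def S_132504_112 : List (List ℕ) := [5, 4, 1, 3, 2, 0] :: S_132504_111

/-- their codes -/
def K_132504_112 : List ℕ := 180944 :: K_132504_111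

/-- first 113 vertices -/
def S_132504_113 : List (List ℕ) := [2, 4, 0, 5, 1, 3] :: S_132504_112

/-- their codes -/
def K_132504_113 : List ℕ := 82251 :: K_132504_112

/-- first 114 vertices -/
def S_132504_114 : List (List ℕ) := [2, 5, 0, 4, 1, 3] :: S_132504_113

/-- their codes -/
def K_132504_114 : List ℕ := 86283 :: K_132504_113

/-- first 115 vertices -/
def S_132504_115 : List (List ℕ) := [2, 5, 4, 1, 3, 0] :: S_132504_114

/-- their codes -/
def K_132504_115 : List ℕ := 88152 :: K_132504_114

/-- first 116 vertices -/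
def S_132504_116 : List (List ℕ) := [2, 5, 1, 3, 0, 4] :: S_132504_115

/-- their codes -/
def K_132504_116 : List ℕ := 86724 :: K_132504_115

/-- first 117 vertices -/
def S_132504_117 : List (List ℕ) := [2, 5, 3, 0, 4, 1] :: S_132504_116

/-- their codes -/
def K_132504_117 : List ℕ := 87585 :: K_132504_116

/-- first 118 vertices -/
def S_132504_118 : List (List ℕ) := [5, 0, 3, 1, 4, 2] :: S_132504_117

/-- their codes -/
def K_132504_118 : List ℕ := 165474 :: K_132504_117

/-- first 119 vertices -/
def S_132504_119 : List (List ℕ) := [5, 1, 4, 2, 0, 3] :: S_132504_118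

/-- their codes -/
def K_132504_119 : List ℕ := 170115 :: K_132504_118

/-- first 120 vertices -/
def S_132504_120 : List (List ℕ) := [5, 3, 1, 4, 2, 0] :: S_132504_119

/-- their codes -/
def K_132504_120 : List ℕ := 176912 :: K_132504_119

/-- first 121 vertices -/
def S_132504_121 : List (List ℕ) := [5, 4, 2, 0, 3, 1] :: S_132504_120

/-- their codes -/
def K_132504_121 : List ℕ := 181273 :: K_132504_120

/-- first 122 vertices -/
def S_132504_122 : List (List ℕ) := [5, 2, 0, 3, 1, 4] :: S_132504_121

/-- their codes -/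
def K_132504_122 : List ℕ := 172236 :: K_132504_121

/-- first 123 vertices -/
def S_132504_123 : List (List ℕ) := [3, 5, 4, 1, 0, 2] :: S_132504_122

/-- their codes -/
def K_132504_123 : List ℕ := 120898 :: K_132504_122

/-- first 124 vertices -/
def S_132504_124 : List (List ℕ) := [5, 0, 2, 4, 3, 1] :: S_132504_123

/-- their codes -/
def K_132504_124 : List ℕ := 165145 :: K_132504_123

/-- first 125 vertices -/
def S_132504_125 : List (List ℕ) := [5, 2, 4, 3, 1, 0] :: S_132504_124

/-- their codes -/
def K_132504_125 : List ℕ := 174280 :: K_132504_124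

/-- first 126 vertices -/
def S_132504_126 : List (List ℕ) := [5, 4, 3, 1, 0, 2] :: S_132504_125

/-- their codes -/
def K_132504_126 : List ℕ := 181826 :: K_132504_125

/-- first 127 vertices -/
def S_132504_127 : List (List ℕ) := [4, 3, 5, 0, 2, 1] :: S_132504_126

/-- their codes -/
def K_132504_127 : List ℕ := 145937 :: K_132504_126

/-- first 128 vertices -/
def S_132504_128 : List (List ℕ) := [4, 3, 5, 1, 0, 2] :: S_132504_127

/-- their codes -/
def K_132504_128 : List ℕ := 145986 :: K_132504_127

/-- first 129 vertices -/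
def S_132504_129 : List (List ℕ) := [4, 3, 5, 2, 1, 0] :: S_132504_128

/-- their codes -/
def K_132504_129 : List ℕ := 146056 :: K_132504_128

/-- first 130 vertices -/
def S_132504_130 : List (List ℕ) := [2, 1, 3, 5, 4, 0] :: S_132504_129

/-- their codes -/
def K_132504_130 : List ℕ := 71520 :: K_132504_129

/-- first 131 vertices -/
def S_132504_131 : List (List ℕ) := [3, 2, 4, 0, 5, 1] :: S_132504_130

/-- their codes -/
def K_132504_131 : List ℕ := 108585 :: K_132504_130

/-- first 132 vertices -/
def S_132504_132 : List (List ℕ) := [3, 2, 4, 1, 5, 0] :: S_132504_131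

/-- their codes -/
def K_132504_132 : List ℕ := 108648 :: K_132504_131

/-- first 133 vertices -/
def S_132504_133 : List (List ℕ) := [5, 1, 0, 2, 4, 3] :: S_132504_132

/-- their codes -/
def K_132504_133 : List ℕ := 168099 :: K_132504_132

/-- first 134 vertices -/
def S_132504_134 : List (List ℕ) := [5, 3, 1, 0, 2, 4] :: S_132504_133

/-- their codes -/
def K_132504_134 : List ℕ := 176660 :: K_132504_133

/-- no vertex -/
def S_124350_0 : List (List ℕ) := []

/-- no code -/
def K_124350_0 : List ℕ := []

/-- first 1 vertices -/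
def S_124350_1 : List (List ℕ) := [2, 5, 1, 0, 3, 4] :: S_124350_0

/-- their codes -/
def K_124350_1 : List ℕ := 86556 :: K_124350_0

/-- first 2 vertices -/
def S_124350_2 : List (List ℕ) := [2, 5, 0, 3, 4, 1] :: S_124350_1

/-- their codes -/
def K_124350_2 : List ℕ := 86241 :: K_124350_1

/-- first 3 vertices -/
def S_124350_3 : List (List ℕ) := [3, 2, 0, 4, 5, 1] :: S_124350_2

/-- their codes -/
def K_124350_3 : List ℕ := 106793 :: K_124350_2

/-- first 4 vertices -/
def S_124350_4 : List (List ℕ) := [2, 5, 4, 1, 0, 3] :: S_124350_3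

/-- their codes -/
def K_124350_4 : List ℕ := 88131 :: K_124350_3

/-- first 5 vertices -/
def S_124350_5 : List (List ℕ) := [4, 3, 0, 5, 2, 1] :: S_124350_4

/-- their codes -/
def K_124350_5 : List ℕ := 143697 :: K_124350_4

/-- first 6 vertices -/
def S_124350_6 : List (List ℕ) := [2, 4, 5, 1, 0, 3] :: S_124350_5

/-- their codes -/
def K_124350_6 : List ℕ := 84547 :: K_124350_5

/-- first 7 vertices -/
def S_124350_7 : List (List ℕ) := [4, 3, 0, 5, 1, 2] :: S_124350_6

/-- their codes -/
def K_124350_7 : List ℕ := 143690 :: K_124350_6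

/-- first 8 vertices -/
def S_124350_8 : List (List ℕ) := [2, 4, 5, 0, 3, 1] :: S_124350_7

/-- their codes -/
def K_124350_8 : List ℕ := 84505 :: K_124350_7

/-- first 9 vertices -/
def S_124350_9 : List (List ℕ) := [4, 2, 3, 0, 5, 1] :: S_124350_8

/-- their codes -/
def K_124350_9 : List ℕ := 140841 :: K_124350_8

/-- first 10 vertices -/
def S_124350_10 : List (List ℕ) := [3, 5, 0, 4, 1, 2] :: S_124350_9

/-- their codes -/
def K_124350_10 : List ℕ := 119050 :: K_124350_9

/-- first 11 vertices -/
def S_124350_11 : List (List ℕ) := [3, 5, 2, 0, 4, 1] :: S_124350_10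

/-- their codes -/
def K_124350_11 : List ℕ := 119841 :: K_124350_10

/-- first 12 vertices -/
def S_124350_12 : List (List ℕ) := [3, 5, 1, 2, 0, 4] :: S_124350_11

/-- their codes -/
def K_124350_12 : List ℕ := 119428 :: K_124350_11

/-- first 13 vertices -/
def S_124350_13 : List (List ℕ) := [1, 4, 2, 3, 5, 0] :: S_124350_12

/-- their codes -/
def K_124350_13 : List ℕ := 50408 :: K_124350_12

/-- first 14 vertices -/
def S_124350_14 : List (List ℕ) := [4, 1, 2, 5, 0, 3] :: S_124350_13

/-- their codes -/
def K_124350_14 : List ℕ := 136515 :: K_124350_13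

/-- first 15 vertices -/
def S_124350_15 : List (List ℕ) := [5, 1, 2, 4, 0, 3] :: S_124350_14

/-- their codes -/
def K_124350_15 : List ℕ := 169219 :: K_124350_14

/-- first 16 vertices -/
def S_124350_16 : List (List ℕ) := [5, 3, 1, 2, 4, 0] :: S_124350_15

/-- their codes -/
def K_124350_16 : List ℕ := 176800 :: K_124350_15

/-- first 17 vertices -/
def S_124350_17 : List (List ℕ) := [4, 2, 5, 1, 3, 0] :: S_124350_16

/-- their codes -/
def K_124350_17 : List ℕ := 141912 :: K_124350_16

/-- first 18 vertices -/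
def S_124350_18 : List (List ℕ) := [2, 5, 3, 4, 1, 0] :: S_124350_17

/-- their codes -/
def K_124350_18 : List ℕ := 87816 :: K_124350_17

/-- first 19 vertices -/
def S_124350_19 : List (List ℕ) := [3, 1, 4, 5, 2, 0] :: S_124350_18

/-- their codes -/
def K_124350_19 : List ℕ := 104784 :: K_124350_18

/-- first 20 vertices -/
def S_124350_20 : List (List ℕ) := [1, 3, 4, 2, 5, 0] :: S_124350_19

/-- their codes -/
def K_124350_20 : List ℕ := 47272 :: K_124350_19

/-- first 21 vertices -/
def S_124350_21 : List (List ℕ) := [4, 1, 2, 5, 3, 0] :: S_124350_20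

/-- their codes -/
def K_124350_21 : List ℕ := 136536 :: K_124350_20

/-- first 22 vertices -/
def S_124350_22 : List (List ℕ) := [3, 5, 2, 0, 1, 4] :: S_124350_21

/-- their codes -/
def K_124350_22 : List ℕ := 119820 :: K_124350_21

/-- first 23 vertices -/
def S_124350_23 : List (List ℕ) := [2, 4, 5, 3, 1, 0] :: S_124350_22

/-- their codes -/
def K_124350_23 : List ℕ := 84680 :: K_124350_22

/-- first 24 vertices -/
def S_124350_24 : List (List ℕ) := [3, 5, 1, 4, 2, 0] :: S_124350_23

/-- their codes -/
def K_124350_24 : List ℕ := 119568 :: K_124350_23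

/-- first 25 vertices -/
def S_124350_25 : List (List ℕ) := [3, 5, 4, 2, 0, 1] :: S_124350_24

/-- their codes -/
def K_124350_25 : List ℕ := 120961 :: K_124350_24

/-- first 26 vertices -/
def S_124350_26 : List (List ℕ) := [2, 4, 3, 5, 0, 1] :: S_124350_25

/-- their codes -/
def K_124350_26 : List ℕ := 83777 :: K_124350_25

/-- first 27 vertices -/
def S_124350_27 : List (List ℕ) := [3, 5, 0, 1, 4, 2] :: S_124350_26

/-- their codes -/
def K_124350_27 : List ℕ := 118882 :: K_124350_26

/-- first 28 vertices -/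
def S_124350_28 : List (List ℕ) := [4, 3, 0, 1, 5, 2] :: S_124350_27

/-- their codes -/
def K_124350_28 : List ℕ := 143466 :: K_124350_27

/-- first 29 vertices -/
def S_124350_29 : List (List ℕ) := [5, 0, 1, 3, 2, 4] :: S_124350_28

/-- their codes -/
def K_124350_29 : List ℕ := 164564 :: K_124350_28

/-- first 30 vertices -/
def S_124350_30 : List (List ℕ) := [5, 4, 0, 1, 3, 2] :: S_124350_29

/-- their codes -/
def K_124350_30 : List ℕ := 180314 :: K_124350_29

/-- first 31 vertices -/
def S_124350_31 : List (List ℕ) := [4, 2, 5, 3, 0, 1] :: S_124350_30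

/-- their codes -/
def K_124350_31 : List ℕ := 142017 :: K_124350_30

/-- first 32 vertices -/
def S_124350_32 : List (List ℕ) := [4, 2, 5, 0, 1, 3] :: S_124350_31

/-- their codes -/
def K_124350_32 : List ℕ := 141835 :: K_124350_31

/-- first 33 vertices -/
def S_124350_33 : List (List ℕ) := [5, 2, 4, 0, 1, 3] :: S_124350_32

/-- their codes -/
def K_124350_33 : List ℕ := 174091 :: K_124350_32

/-- first 34 vertices -/
def S_124350_34 : List (List ℕ) := [1, 3, 2, 4, 5, 0] :: S_124350_33

/-- their codes -/
def K_124350_34 : List ℕ := 46376 :: K_124350_33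

/-- first 35 vertices -/
def S_124350_35 : List (List ℕ) := [2, 4, 3, 5, 1, 0] :: S_124350_34

/-- their codes -/
def K_124350_35 : List ℕ := 83784 :: K_124350_34

/-- first 36 vertices -/
def S_124350_36 : List (List ℕ) := [3, 1, 4, 5, 0, 2] :: S_124350_35

/-- their codes -/
def K_124350_36 : List ℕ := 104770 :: K_124350_35

/-- first 37 vertices -/
def S_124350_37 : List (List ℕ) := [3, 5, 4, 1, 2, 0] :: S_124350_36

/-- their codes -/
def K_124350_37 : List ℕ := 120912 :: K_124350_36

/-- first 38 vertices -/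
def S_124350_38 : List (List ℕ) := [5, 1, 3, 4, 0, 2] :: S_124350_37

/-- their codes -/
def K_124350_38 : List ℕ := 169730 :: K_124350_37

/-- first 39 vertices -/
def S_124350_39 : List (List ℕ) := [5, 3, 4, 0, 2, 1] :: S_124350_38

/-- their codes -/
def K_124350_39 : List ℕ := 178193 :: K_124350_38

/-- first 40 vertices -/
def S_124350_40 : List (List ℕ) := [4, 1, 5, 3, 0, 2] :: S_124350_39

/-- their codes -/
def K_124350_40 : List ℕ := 137922 :: K_124350_39

/-- first 41 vertices -/
def S_124350_41 : List (List ℕ) := [5, 2, 3, 1, 4, 0] :: S_124350_40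

/-- their codes -/
def K_124350_41 : List ℕ := 173664 :: K_124350_40

/-- first 42 vertices -/
def S_124350_42 : List (List ℕ) := [3, 4, 2, 0, 5, 1] :: S_124350_41

/-- their codes -/
def K_124350_42 : List ℕ := 115753 :: K_124350_41

/-- first 43 vertices -/
def S_124350_43 : List (List ℕ) := [2, 3, 5, 0, 4, 1] :: S_124350_42

/-- their codes -/
def K_124350_43 : List ℕ := 80417 :: K_124350_42

/-- first 44 vertices -/
def S_124350_44 : List (List ℕ) := [5, 2, 4, 0, 3, 1] :: S_124350_43

/-- their codes -/
def K_124350_44 : List ℕ := 174105 :: K_124350_43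

/-- first 45 vertices -/
def S_124350_45 : List (List ℕ) := [5, 4, 0, 3, 1, 2] :: S_124350_44

/-- their codes -/
def K_124350_45 : List ℕ := 180426 :: K_124350_44

/-- first 46 vertices -/
def S_124350_46 : List (List ℕ) := [5, 0, 3, 1, 2, 4] :: S_124350_45

/-- their codes -/
def K_124350_46 : List ℕ := 165460 :: K_124350_45

/-- first 47 vertices -/
def S_124350_47 : List (List ℕ) := [2, 3, 5, 1, 0, 4] :: S_124350_46

/-- their codes -/
def K_124350_47 : List ℕ := 80452 :: K_124350_46

/-- first 48 vertices -/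
def S_124350_48 : List (List ℕ) := [4, 5, 0, 2, 1, 3] :: S_124350_47

/-- their codes -/
def K_124350_48 : List ℕ := 151691 :: K_124350_47

/-- first 49 vertices -/
def S_124350_49 : List (List ℕ) := [5, 4, 0, 2, 1, 3] :: S_124350_48

/-- their codes -/
def K_124350_49 : List ℕ := 180363 :: K_124350_48

/-- first 50 vertices -/
def S_124350_50 : List (List ℕ) := [5, 0, 2, 1, 3, 4] :: S_124350_49

/-- their codes -/
def K_124350_50 : List ℕ := 164956 :: K_124350_49

/-- first 51 vertices -/
def S_124350_51 : List (List ℕ) := [5, 2, 1, 3, 4, 0] :: S_124350_50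

/-- their codes -/
def K_124350_51 : List ℕ := 172768 :: K_124350_50

/-- first 52 vertices -/
def S_124350_52 : List (List ℕ) := [1, 2, 4, 3, 5, 0] :: S_124350_51

/-- their codes -/
def K_124350_52 : List ℕ := 43240 :: K_124350_51

/-- first 53 vertices -/
def S_124350_53 : List (List ℕ) := [4, 5, 2, 1, 3, 0] :: S_124350_52

/-- their codes -/
def K_124350_53 : List ℕ := 152664 :: K_124350_52

/-- first 54 vertices -/
def S_124350_54 : List (List ℕ) := [5, 1, 3, 2, 4, 0] :: S_124350_53

/-- their codes -/
def K_124350_54 : List ℕ := 169632 :: K_124350_53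

/-- first 55 vertices -/
def S_124350_55 : List (List ℕ) := [5, 3, 2, 4, 0, 1] :: S_124350_54

/-- their codes -/
def K_124350_55 : List ℕ := 177409 :: K_124350_54

/-- first 56 vertices -/
def S_124350_56 : List (List ℕ) := [2, 3, 5, 4, 1, 0] :: S_124350_55

/-- their codes -/
def K_124350_56 : List ℕ := 80648 :: K_124350_55

/-- first 57 vertices -/
def S_124350_57 : List (List ℕ) := [3, 4, 1, 5, 0, 2] :: S_124350_56

/-- their codes -/
def K_124350_57 : List ℕ := 115522 :: K_124350_56

/-- first 58 vertices -/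
def S_124350_58 : List (List ℕ) := [3, 4, 1, 5, 2, 0] :: S_124350_57

/-- their codes -/
def K_124350_58 : List ℕ := 115536 :: K_124350_57

/-- first 59 vertices -/
def S_124350_59 : List (List ℕ) := [4, 5, 1, 3, 0, 2] :: S_124350_58

/-- their codes -/
def K_124350_59 : List ℕ := 152258 :: K_124350_58

/-- first 60 vertices -/
def S_124350_60 : List (List ℕ) := [4, 5, 3, 0, 2, 1] :: S_124350_59

/-- their codes -/
def K_124350_60 : List ℕ := 153105 :: K_124350_59

/-- first 61 vertices -/
def S_124350_61 : List (List ℕ) := [5, 3, 1, 4, 0, 2] :: S_124350_60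

/-- their codes -/
def K_124350_61 : List ℕ := 176898 :: K_124350_60

/-- first 62 vertices -/
def S_124350_62 : List (List ℕ) := [4, 1, 5, 0, 2, 3] :: S_124350_61

/-- their codes -/
def K_124350_62 : List ℕ := 137747 :: K_124350_61

/-- first 63 vertices -/
def S_124350_63 : List (List ℕ) := [4, 1, 5, 2, 3, 0] :: S_124350_62

/-- their codes -/
def K_124350_63 : List ℕ := 137880 :: K_124350_62

/-- first 64 vertices -/
def S_124350_64 : List (List ℕ) := [5, 1, 4, 0, 2, 3] :: S_124350_63

/-- their codes -/
def K_124350_64 : List ℕ := 170003 :: K_124350_63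

/-- first 65 vertices -/
def S_124350_65 : List (List ℕ) := [5, 4, 0, 2, 3, 1] :: S_124350_64

/-- their codes -/
def K_124350_65 : List ℕ := 180377 :: K_124350_64

/-- first 66 vertices -/
def S_124350_66 : List (List ℕ) := [5, 0, 2, 3, 1, 4] :: S_124350_65

/-- their codes -/
def K_124350_66 : List ℕ := 165068 :: K_124350_65

/-- no vertex -/
def S_123450_0 : List (List ℕ) := []

/-- no code -/
def K_123450_0 : List ℕ := []

/-- first 1 vertices -/
def S_123450_1 : List (List ℕ) := [1, 2, 3, 4, 5, 0] :: S_123450_0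

/-- their codes -/
def K_123450_1 : List ℕ := 42792 :: K_123450_0

/-- first 2 vertices -/
def S_123450_2 : List (List ℕ) := [5, 1, 2, 3, 4, 0] :: S_123450_1

/-- their codes -/
def K_123450_2 : List ℕ := 169184 :: K_123450_1

/-- first 3 vertices -/
def S_123450_3 : List (List ℕ) := [4, 5, 1, 2, 3, 0] :: S_123450_2

/-- their codes -/
def K_123450_3 : List ℕ := 152216 :: K_123450_2

/-- first 4 vertices -/
def S_123450_4 : List (List ℕ) := [3, 4, 5, 2, 0, 1] :: S_123450_3

/-- their codes -/
def K_123450_4 : List ℕ := 117377 :: K_123450_3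

/-- first 5 vertices -/
def S_123450_5 : List (List ℕ) := [4, 5, 2, 3, 0, 1] :: S_123450_4

/-- their codes -/
def K_123450_5 : List ℕ := 152769 :: K_123450_4

/-- first 6 vertices -/
def S_123450_6 : List (List ℕ) := [3, 4, 5, 1, 2, 0] :: S_123450_5

/-- their codes -/
def K_123450_6 : List ℕ := 117328 :: K_123450_5

/-- first 7 vertices -/
def S_123450_7 : List (List ℕ) := [2, 3, 4, 5, 0, 1] :: S_123450_6

/-- their codes -/
def K_123450_7 : List ℕ := 80193 :: K_123450_6

/-- first 8 vertices -/
def S_123450_8 : List (List ℕ) := [2, 3, 4, 5, 1, 0] :: S_123450_7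

/-- their codes -/
def K_123450_8 : List ℕ := 80200 :: K_123450_7

/-- first 9 vertices -/
def S_123450_9 : List (List ℕ) := [5, 2, 3, 4, 0, 1] :: S_123450_8

/-- their codes -/
def K_123450_9 : List ℕ := 173825 :: K_123450_8

/-- first 10 vertices -/
def S_123450_10 : List (List ℕ) := [3, 4, 5, 0, 1, 2] :: S_123450_9

/-- their codes -/
def K_123450_10 : List ℕ := 117258 :: K_123450_9

/-- first 11 vertices -/
def S_123450_11 : List (List ℕ) := [4, 5, 3, 0, 1, 2] :: S_123450_10

/-- their codes -/
def K_123450_11 : List ℕ := 153098 :: K_123450_10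

/-- first 12 vertices -/
def S_123450_12 : List (List ℕ) := [5, 3, 4, 0, 1, 2] :: S_123450_11

/-- their codes -/
def K_123450_12 : List ℕ := 178186 :: K_123450_11

/-- first 13 vertices -/
def S_123450_13 : List (List ℕ) := [4, 5, 0, 1, 2, 3] :: S_123450_12

/-- their codes -/
def K_123450_13 : List ℕ := 151635 :: K_123450_12

/-- first 14 vertices -/
def S_123450_14 : List (List ℕ) := [5, 4, 0, 1, 2, 3] :: S_123450_13

/-- their codes -/
def K_123450_14 : List ℕ := 180307 :: K_123450_13

/-- first 15 vertices -/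
def S_123450_15 : List (List ℕ) := [5, 0, 1, 2, 3, 4] :: S_123450_14

/-- their codes -/
def K_123450_15 : List ℕ := 164508 :: K_123450_14

/-- no vertex -/
def S_123504_0 : List (List ℕ) := []

/-- no code -/
def K_123504_0 : List ℕ := []

/-- first 1 vertices -/
def S_123504_1 : List (List ℕ) := [1, 2, 5, 0, 3, 4] :: S_123504_0

/-- their codes -/
def K_123504_1 : List ℕ := 43548 :: K_123504_0

/-- first 2 vertices -/
def S_123504_2 : List (List ℕ) := [3, 0, 1, 4, 5, 2] :: S_123504_1

/-- their codes -/
def K_123504_2 : List ℕ := 99114 :: K_123504_1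

/-- first 3 vertices -/
def S_123504_3 : List (List ℕ) := [1, 2, 5, 4, 0, 3] :: S_123504_2

/-- their codes -/
def K_123504_3 : List ℕ := 43779 :: K_123504_2

/-- first 4 vertices -/
def S_123504_4 : List (List ℕ) := [4, 0, 1, 5, 3, 2] :: S_123504_3

/-- their codes -/
def K_123504_4 : List ℕ := 131930 :: K_123504_3

/-- first 5 vertices -/
def S_123504_5 : List (List ℕ) := [1, 2, 4, 5, 0, 3] :: S_123504_4

/-- their codes -/
def K_123504_5 : List ℕ := 43331 :: K_123504_4

/-- first 6 vertices -/
def S_123504_6 : List (List ℕ) := [4, 0, 1, 5, 2, 3] :: S_123504_5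

/-- their codes -/
def K_123504_6 : List ℕ := 131923 :: K_123504_5

/-- first 7 vertices -/
def S_123504_7 : List (List ℕ) := [1, 5, 0, 2, 3, 4] :: S_123504_6

/-- their codes -/
def K_123504_7 : List ℕ := 53404 :: K_123504_6

/-- first 8 vertices -/
def S_123504_8 : List (List ℕ) := [2, 5, 0, 1, 3, 4] :: S_123504_7

/-- their codes -/
def K_123504_8 : List ℕ := 86108 :: K_123504_7

/-- first 9 vertices -/
def S_123504_9 : List (List ℕ) := [1, 4, 5, 3, 0, 2] :: S_123504_8

/-- their codes -/
def K_123504_9 : List ℕ := 51906 :: K_123504_8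

/-- first 10 vertices -/
def S_123504_10 : List (List ℕ) := [1, 4, 5, 0, 2, 3] :: S_123504_9

/-- their codes -/
def K_123504_10 : List ℕ := 51731 :: K_123504_9

/-- first 11 vertices -/
def S_123504_11 : List (List ℕ) := [1, 5, 4, 0, 2, 3] :: S_123504_10

/-- their codes -/
def K_123504_11 : List ℕ := 55315 :: K_123504_10

/-- first 12 vertices -/
def S_123504_12 : List (List ℕ) := [1, 4, 5, 2, 3, 0] :: S_123504_11

/-- their codes -/
def K_123504_12 : List ℕ := 51864 :: K_123504_11

/-- first 13 vertices -/
def S_123504_13 : List (List ℕ) := [1, 5, 3, 4, 0, 2] :: S_123504_12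

/-- their codes -/
def K_123504_13 : List ℕ := 55042 :: K_123504_12

/-- first 14 vertices -/
def S_123504_14 : List (List ℕ) := [2, 0, 3, 4, 5, 1] :: S_123504_13

/-- their codes -/
def K_123504_14 : List ℕ := 67369 :: K_123504_13

/-- first 15 vertices -/
def S_123504_15 : List (List ℕ) := [2, 3, 0, 4, 5, 1] :: S_123504_14

/-- their codes -/
def K_123504_15 : List ℕ := 78121 :: K_123504_14

/-- first 16 vertices -/
def S_123504_16 : List (List ℕ) := [5, 3, 4, 1, 2, 0] :: S_123504_15

/-- their codes -/
def K_123504_16 : List ℕ := 178256 :: K_123504_15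

/-- first 17 vertices -/
def S_123504_17 : List (List ℕ) := [5, 4, 1, 2, 0, 3] :: S_123504_16

/-- their codes -/
def K_123504_17 : List ℕ := 180867 :: K_123504_16

/-- first 18 vertices -/
def S_123504_18 : List (List ℕ) := [5, 1, 2, 0, 3, 4] :: S_123504_17

/-- their codes -/
def K_123504_18 : List ℕ := 168988 :: K_123504_17

/-- first 19 vertices -/
def S_123504_19 : List (List ℕ) := [5, 2, 0, 3, 4, 1] :: S_123504_18

/-- their codes -/
def K_123504_19 : List ℕ := 172257 :: K_123504_18

/-- first 20 vertices -/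
def S_123504_20 : List (List ℕ) := [5, 0, 3, 4, 1, 2] :: S_123504_19

/-- their codes -/
def K_123504_20 : List ℕ := 165642 :: K_123504_19

/-- first 21 vertices -/
def S_123504_21 : List (List ℕ) := [4, 2, 3, 5, 1, 0] :: S_123504_20

/-- their codes -/
def K_123504_21 : List ℕ := 141128 :: K_123504_20

/-- first 22 vertices -/
def S_123504_22 : List (List ℕ) := [2, 5, 1, 3, 4, 0] :: S_123504_21

/-- their codes -/
def K_123504_22 : List ℕ := 86752 :: K_123504_21

/-- first 23 vertices -/
def S_123504_23 : List (List ℕ) := [3, 1, 2, 4, 5, 0] :: S_123504_22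

/-- their codes -/
def K_123504_23 : List ℕ := 103720 :: K_123504_22

/-- first 24 vertices -/
def S_123504_24 : List (List ℕ) := [4, 0, 5, 3, 1, 2] :: S_123504_23

/-- their codes -/
def K_123504_24 : List ℕ := 133834 :: K_123504_23

/-- first 25 vertices -/
def S_123504_25 : List (List ℕ) := [3, 0, 4, 5, 1, 2] :: S_123504_24

/-- their codes -/
def K_123504_25 : List ℕ := 100682 :: K_123504_24

/-- first 26 vertices -/
def S_123504_26 : List (List ℕ) := [3, 0, 4, 5, 2, 1] :: S_123504_25

/-- their codes -/
def K_123504_26 : List ℕ := 100689 :: K_123504_25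

/-- first 27 vertices -/
def S_123504_27 : List (List ℕ) := [4, 0, 5, 2, 3, 1] :: S_123504_26

/-- their codes -/
def K_123504_27 : List ℕ := 133785 :: K_123504_26

/-- first 28 vertices -/
def S_123504_28 : List (List ℕ) := [2, 5, 4, 0, 1, 3] :: S_123504_27

/-- their codes -/
def K_123504_28 : List ℕ := 88075 :: K_123504_27

/-- first 29 vertices -/
def S_123504_29 : List (List ℕ) := [3, 4, 0, 5, 2, 1] :: S_123504_28

/-- their codes -/
def K_123504_29 : List ℕ := 115025 :: K_123504_28

/-- first 30 vertices -/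
def S_123504_30 : List (List ℕ) := [1, 3, 4, 5, 0, 2] :: S_123504_29

/-- their codes -/
def K_123504_30 : List ℕ := 47426 :: K_123504_29

/-- first 31 vertices -/
def S_123504_31 : List (List ℕ) := [4, 0, 5, 1, 2, 3] :: S_123504_30

/-- their codes -/
def K_123504_31 : List ℕ := 133715 :: K_123504_30

/-- first 32 vertices -/
def S_123504_32 : List (List ℕ) := [1, 2, 4, 5, 3, 0] :: S_123504_31

/-- their codes -/
def K_123504_32 : List ℕ := 43352 :: K_123504_31

/-- first 33 vertices -/
def S_123504_33 : List (List ℕ) := [4, 2, 3, 5, 0, 1] :: S_123504_32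

/-- their codes -/
def K_123504_33 : List ℕ := 141121 :: K_123504_32

/-- first 34 vertices -/
def S_123504_34 : List (List ℕ) := [3, 5, 2, 4, 0, 1] :: S_123504_33

/-- their codes -/
def K_123504_34 : List ℕ := 120065 :: K_123504_33

/-- first 35 vertices -/
def S_123504_35 : List (List ℕ) := [2, 4, 5, 0, 1, 3] :: S_123504_34

/-- their codes -/
def K_123504_35 : List ℕ := 84491 :: K_123504_34

/-- first 36 vertices -/
def S_123504_36 : List (List ℕ) := [2, 4, 5, 3, 0, 1] :: S_123504_35

/-- their codes -/
def K_123504_36 : List ℕ := 84673 :: K_123504_35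

/-- first 37 vertices -/
def S_123504_37 : List (List ℕ) := [5, 1, 3, 4, 2, 0] :: S_123504_36

/-- their codes -/
def K_123504_37 : List ℕ := 169744 :: K_123504_36

/-- first 38 vertices -/
def S_123504_38 : List (List ℕ) := [5, 3, 4, 2, 0, 1] :: S_123504_37

/-- their codes -/
def K_123504_38 : List ℕ := 178305 :: K_123504_37

/-- first 39 vertices -/
def S_123504_39 : List (List ℕ) := [5, 4, 2, 0, 1, 3] :: S_123504_38

/-- their codes -/
def K_123504_39 : List ℕ := 181259 :: K_123504_38

/-- first 40 vertices -/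
def S_123504_40 : List (List ℕ) := [5, 0, 1, 3, 4, 2] :: S_123504_39

/-- their codes -/
def K_123504_40 : List ℕ := 164578 :: K_123504_39

/-- first 41 vertices -/
def S_123504_41 : List (List ℕ) := [5, 2, 0, 1, 3, 4] :: S_123504_40

/-- their codes -/
def K_123504_41 : List ℕ := 172124 :: K_123504_40

/-- first 42 vertices -/
def S_123504_42 : List (List ℕ) := [4, 5, 2, 3, 1, 0] :: S_123504_41

/-- their codes -/
def K_123504_42 : List ℕ := 152776 :: K_123504_41

/-- first 43 vertices -/
def S_123504_43 : List (List ℕ) := [3, 4, 1, 2, 5, 0] :: S_123504_42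

/-- their codes -/
def K_123504_43 : List ℕ := 115368 :: K_123504_42

/-- first 44 vertices -/
def S_123504_44 : List (List ℕ) := [1, 3, 4, 5, 2, 0] :: S_123504_43

/-- their codes -/
def K_123504_44 : List ℕ := 47440 :: K_123504_43

/-- first 45 vertices -/
def S_123504_45 : List (List ℕ) := [4, 5, 0, 2, 3, 1] :: S_123504_44

/-- their codes -/
def K_123504_45 : List ℕ := 151705 :: K_123504_44

/-- first 46 vertices -/
def S_123504_46 : List (List ℕ) := [4, 5, 3, 1, 0, 2] :: S_123504_45

/-- their codes -/
def K_123504_46 : List ℕ := 153154 :: K_123504_45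

/-- first 47 vertices -/
def S_123504_47 : List (List ℕ) := [4, 5, 1, 0, 2, 3] :: S_123504_46

/-- their codes -/
def K_123504_47 : List ℕ := 152083 :: K_123504_46

/-- first 48 vertices -/
def S_123504_48 : List (List ℕ) := [4, 1, 2, 3, 5, 0] :: S_123504_47

/-- their codes -/
def K_123504_48 : List ℕ := 136424 :: K_123504_47

/-- first 49 vertices -/
def S_123504_49 : List (List ℕ) := [5, 0, 2, 3, 4, 1] :: S_123504_48

/-- their codes -/
def K_123504_49 : List ℕ := 165089 :: K_123504_48

/-- first 50 vertices -/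
def S_123504_50 : List (List ℕ) := [5, 2, 3, 4, 1, 0] :: S_123504_49

/-- their codes -/
def K_123504_50 : List ℕ := 173832 :: K_123504_49

/-- first 51 vertices -/
def S_123504_51 : List (List ℕ) := [5, 3, 4, 1, 0, 2] :: S_123504_50

/-- their codes -/
def K_123504_51 : List ℕ := 178242 :: K_123504_50

/-- first 52 vertices -/
def S_123504_52 : List (List ℕ) := [5, 4, 1, 0, 2, 3] :: S_123504_51

/-- their codes -/
def K_123504_52 : List ℕ := 180755 :: K_123504_51

/-- first 53 vertices -/
def S_123504_53 : List (List ℕ) := [5, 1, 0, 2, 3, 4] :: S_123504_52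

/-- their codes -/
def K_123504_53 : List ℕ := 168092 :: K_123504_52

/-- first 54 vertices -/
def S_123504_54 : List (List ℕ) := [2, 4, 5, 1, 3, 0] :: S_123504_53

/-- their codes -/
def K_123504_54 : List ℕ := 84568 :: K_123504_53

/-- first 55 vertices -/
def S_123504_55 : List (List ℕ) := [3, 5, 1, 2, 4, 0] :: S_123504_54

/-- their codes -/
def K_123504_55 : List ℕ := 119456 :: K_123504_54

/-- first 56 vertices -/
def S_123504_56 : List (List ℕ) := [2, 3, 5, 1, 4, 0] :: S_123504_55

/-- their codes -/
def K_123504_56 : List ℕ := 80480 :: K_123504_55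

/-- first 57 vertices -/
def S_123504_57 : List (List ℕ) := [1, 2, 3, 5, 0, 4] :: S_123504_56

/-- their codes -/
def K_123504_57 : List ℕ := 42820 :: K_123504_56

/-- first 58 vertices -/
def S_123504_58 : List (List ℕ) := [2, 3, 5, 0, 1, 4] :: S_123504_57

/-- their codes -/
def K_123504_58 : List ℕ := 80396 :: K_123504_57

/-- first 59 vertices -/
def S_123504_59 : List (List ℕ) := [3, 5, 0, 1, 2, 4] :: S_123504_58

/-- their codes -/
def K_123504_59 : List ℕ := 118868 :: K_123504_58

/-- first 60 vertices -/
def S_123504_60 : List (List ℕ) := [4, 0, 1, 2, 5, 3] :: S_123504_59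

/-- their codes -/
def K_123504_60 : List ℕ := 131755 :: K_123504_59

/-- first 61 vertices -/
def S_123504_61 : List (List ℕ) := [5, 0, 1, 2, 4, 3] :: S_123504_60

/-- their codes -/
def K_123504_61 : List ℕ := 164515 :: K_123504_60

/-- first 62 vertices -/
def S_123504_62 : List (List ℕ) := [1, 2, 5, 3, 4, 0] :: S_123504_61

/-- their codes -/
def K_123504_62 : List ℕ := 43744 :: K_123504_61

/-- first 63 vertices -/
def S_123504_63 : List (List ℕ) := [5, 1, 4, 2, 3, 0] :: S_123504_62

/-- their codes -/
def K_123504_63 : List ℕ := 170136 :: K_123504_62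

/-- first 64 vertices -/
def S_123504_64 : List (List ℕ) := [4, 5, 1, 2, 0, 3] :: S_123504_63

/-- their codes -/
def K_123504_64 : List ℕ := 152195 :: K_123504_63

/-- first 65 vertices -/
def S_123504_65 : List (List ℕ) := [4, 5, 3, 1, 2, 0] :: S_123504_64

/-- their codes -/
def K_123504_65 : List ℕ := 153168 :: K_123504_64

/-- first 66 vertices -/
def S_123504_66 : List (List ℕ) := [3, 4, 2, 5, 1, 0] :: S_123504_65

/-- their codes -/
def K_123504_66 : List ℕ := 116040 :: K_123504_65

/-- first 67 vertices -/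
def S_123504_67 : List (List ℕ) := [2, 3, 1, 4, 5, 0] :: S_123504_66

/-- their codes -/
def K_123504_67 : List ℕ := 78632 :: K_123504_66

/-- first 68 vertices -/
def S_123504_68 : List (List ℕ) := [4, 5, 2, 0, 3, 1] :: S_123504_67

/-- their codes -/
def K_123504_68 : List ℕ := 152601 :: K_123504_67

/-- first 69 vertices -/
def S_123504_69 : List (List ℕ) := [3, 4, 5, 0, 2, 1] :: S_123504_68

/-- their codes -/
def K_123504_69 : List ℕ := 117265 :: K_123504_68

/-- first 70 vertices -/
def S_123504_70 : List (List ℕ) := [2, 3, 4, 0, 5, 1] :: S_123504_69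

/-- their codes -/
def K_123504_70 : List ℕ := 79913 :: K_123504_69

/-- first 71 vertices -/
def S_123504_71 : List (List ℕ) := [5, 0, 4, 1, 2, 3] :: S_123504_70

/-- their codes -/
def K_123504_71 : List ℕ := 165971 :: K_123504_70

/-- first 72 vertices -/
def S_123504_72 : List (List ℕ) := [3, 4, 0, 5, 1, 2] :: S_123504_71

/-- their codes -/
def K_123504_72 : List ℕ := 115018 :: K_123504_71

/-- first 73 vertices -/
def S_123504_73 : List (List ℕ) := [4, 5, 0, 3, 1, 2] :: S_123504_72

/-- their codes -/
def K_123504_73 : List ℕ := 151754 :: K_123504_72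

/-- first 74 vertices -/
def S_123504_74 : List (List ℕ) := [5, 3, 0, 4, 1, 2] :: S_123504_73

/-- their codes -/
def K_123504_74 : List ℕ := 176394 :: K_123504_73

/-- first 75 vertices -/
def S_123504_75 : List (List ℕ) := [2, 3, 5, 4, 0, 1] :: S_123504_74

/-- their codes -/
def K_123504_75 : List ℕ := 80641 :: K_123504_74

/-- first 76 vertices -/
def S_123504_76 : List (List ℕ) := [3, 4, 2, 5, 0, 1] :: S_123504_75

/-- their codes -/
def K_123504_76 : List ℕ := 116033 :: K_123504_75

/-- first 77 vertices -/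
def S_123504_77 : List (List ℕ) := [5, 2, 3, 0, 4, 1] :: S_123504_76

/-- their codes -/
def K_123504_77 : List ℕ := 173601 :: K_123504_76

/-- first 78 vertices -/
def S_123504_78 : List (List ℕ) := [5, 2, 4, 3, 0, 1] :: S_123504_77

/-- their codes -/
def K_123504_78 : List ℕ := 174273 :: K_123504_77

/-- first 79 vertices -/
def S_123504_79 : List (List ℕ) := [3, 5, 4, 0, 1, 2] :: S_123504_78

/-- their codes -/
def K_123504_79 : List ℕ := 120842 :: K_123504_78

/-- first 80 vertices -/
def S_123504_80 : List (List ℕ) := [5, 4, 3, 0, 1, 2] :: S_123504_79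

/-- their codes -/
def K_123504_80 : List ℕ := 181770 :: K_123504_79

/-- first 81 vertices -/
def S_123504_81 : List (List ℕ) := [5, 3, 0, 1, 2, 4] :: S_123504_80

/-- their codes -/
def K_123504_81 : List ℕ := 176212 :: K_123504_80

/-- first 82 vertices -/
def S_123504_82 : List (List ℕ) := [4, 3, 5, 0, 1, 2] :: S_123504_81

/-- their codes -/
def K_123504_82 : List ℕ := 145930 :: K_123504_81

/-- first 83 vertices -/
def S_123504_83 : List (List ℕ) := [1, 5, 2, 3, 4, 0] :: S_123504_82

/-- their codes -/
def K_123504_83 : List ℕ := 54496 :: K_123504_82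

/-- first 84 vertices -/
def S_123504_84 : List (List ℕ) := [4, 3, 5, 1, 2, 0] :: S_123504_83

/-- their codes -/
def K_123504_84 : List ℕ := 146000 :: K_123504_83

/-- first 85 vertices -/
def S_123504_85 : List (List ℕ) := [5, 4, 1, 2, 3, 0] :: S_123504_84

/-- their codes -/
def K_123504_85 : List ℕ := 180888 :: K_123504_84

/-- first 86 vertices -/
def S_123504_86 : List (List ℕ) := [5, 1, 2, 3, 0, 4] :: S_123504_85

/-- their codes -/
def K_123504_86 : List ℕ := 169156 :: K_123504_85

/-- first 87 vertices -/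
def S_123504_87 : List (List ℕ) := [2, 5, 3, 4, 0, 1] :: S_123504_86

/-- their codes -/
def K_123504_87 : List ℕ := 87809 :: K_123504_86

/-- first 88 vertices -/
def S_123504_88 : List (List ℕ) := [4, 3, 5, 2, 0, 1] :: S_123504_87

/-- their codes -/
def K_123504_88 : List ℕ := 146049 :: K_123504_87

/-- first 89 vertices -/
def S_123504_89 : List (List ℕ) := [5, 4, 2, 3, 0, 1] :: S_123504_88

/-- their codes -/
def K_123504_89 : List ℕ := 181441 :: K_123504_88

/-- first 90 vertices -/
def S_123504_90 : List (List ℕ) := [3, 2, 4, 5, 0, 1] :: S_123504_89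

/-- their codes -/
def K_123504_90 : List ℕ := 108865 :: K_123504_89

/-- first 91 vertices -/
def S_123504_91 : List (List ℕ) := [3, 2, 4, 5, 1, 0] :: S_123504_90

/-- their codes -/
def K_123504_91 : List ℕ := 108872 :: K_123504_90

/-- first 92 vertices -/
def S_123504_92 : List (List ℕ) := [2, 1, 3, 4, 5, 0] :: S_123504_91

/-- their codes -/
def K_123504_92 : List ℕ := 71464 :: K_123504_91

/-- first 93 vertices -/
def S_123504_93 : List (List ℕ) := [5, 2, 3, 0, 1, 4] :: S_123504_92

/-- their codes -/
def K_123504_93 : List ℕ := 173580 :: K_123504_92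

/-- first 94 vertices -/
def S_123504_94 : List (List ℕ) := [1, 2, 3, 5, 4, 0] :: S_123504_93

/-- their codes -/
def K_123504_94 : List ℕ := 42848 :: K_123504_93

/-- first 95 vertices -/
def S_123504_95 : List (List ℕ) := [5, 1, 2, 4, 3, 0] :: S_123504_94

/-- their codes -/
def K_123504_95 : List ℕ := 169240 :: K_123504_94

/-- first 96 vertices -/
def S_123504_96 : List (List ℕ) := [3, 4, 0, 1, 5, 2] :: S_123504_95

/-- their codes -/
def K_123504_96 : List ℕ := 114794 :: K_123504_95

/-- first 97 vertices -/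
def S_123504_97 : List (List ℕ) := [5, 0, 1, 4, 2, 3] :: S_123504_96

/-- their codes -/
def K_123504_97 : List ℕ := 164627 :: K_123504_96

/-- first 98 vertices -/
def S_123504_98 : List (List ℕ) := [5, 3, 0, 1, 4, 2] :: S_123504_97

/-- their codes -/
def K_123504_98 : List ℕ := 176226 :: K_123504_97

/-- first 99 vertices -/
def S_123504_99 : List (List ℕ) := [3, 4, 5, 1, 0, 2] :: S_123504_98

/-- their codes -/
def K_123504_99 : List ℕ := 117314 :: K_123504_98

/-- first 100 vertices -/
def S_123504_100 : List (List ℕ) := [3, 4, 5, 2, 1, 0] :: S_123504_99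

/-- their codes -/
def K_123504_100 : List ℕ := 117384 :: K_123504_99

/-- first 101 vertices -/
def S_123504_101 : List (List ℕ) := [2, 3, 4, 1, 5, 0] :: S_123504_100

/-- their codes -/
def K_123504_101 : List ℕ := 79976 :: K_123504_100

/-- first 102 vertices -/
def S_123504_102 : List (List ℕ) := [4, 5, 0, 1, 3, 2] :: S_123504_101

/-- their codes -/
def K_123504_102 : List ℕ := 151642 :: K_123504_101

/-- first 103 vertices -/
def S_123504_103 : List (List ℕ) := [4, 5, 1, 3, 2, 0] :: S_123504_102

/-- their codes -/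
def K_123504_103 : List ℕ := 152272 :: K_123504_102

/-- first 104 vertices -/
def S_123504_104 : List (List ℕ) := [4, 5, 2, 0, 1, 3] :: S_123504_103

/-- their codes -/
def K_123504_104 : List ℕ := 152587 :: K_123504_103

/-- first 105 vertices -/
def S_123504_105 : List (List ℕ) := [4, 5, 3, 2, 0, 1] :: S_123504_104

/-- their codes -/
def K_123504_105 : List ℕ := 153217 :: K_123504_104

end Pool.Agent.RTX
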