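import Pool.Agent.RTX.FGood
import Pool.Agent.RTX.C6K

/-!
# RTX: the lists of vertices for `d = 6` and their codes
-/

set_option autoImplicit false
set_option maxRecDepth 100000

namespace Pool.Agent.RTX

theorem par6_ok : ParOK par6 where
  d2 := by decide
  d8 := by decide
  P0 := by decide
  P1 := by decide
  Q0 := by decide
  Q1 := by decide
  K0 := by decide

theorem g6c {π : List ℕ} {stop : List (List ℕ)} {codes : List ℕ} (hs : StopC par6.d stop codes)
    {gchk : List Bool → Bool} {gr : List Bool} {c : ℕ} (h : fastOK par6 codes gchk π gr c = true) :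
    Good par6 stop (rows0 par6.d π) gchk gr := fast_good par6_ok hs h

theorem sc_130524_0 : StopC par6.d S_130524_0 K_130524_0 := StopC.nil

theorem sc_130524_1 : StopC par6.d S_130524_1 K_130524_1 := sc_130524_0.cons [1, 3, 0, 5, 2, 4] 45396 (by decide)

theorem sc_130524_2 : StopC par6.d S_130524_2 K_130524_2 := sc_130524_1.cons [1, 3, 0, 5, 4, 2] 45410 (by decide)

theorem sc_130524_3 : StopC par6.d S_130524_3 K_130524_3 := sc_130524_2.cons [1, 5, 0, 4, 3, 2] 53530 (by decide)

theorem sc_130524_4 : StopC par6.d S_130524_4 K_130524_4 := sc_130524_3.cons [1, 4, 0, 3, 5, 2] 49386 (by decide)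

theorem sc_130524_5 : StopC par6.d S_130524_5 K_130524_5 := sc_130524_4.cons [2, 1, 4, 0, 5, 3] 71723 (by decide)

theorem sc_130524_6 : StopC par6.d S_130524_6 K_130524_6 := sc_130524_5.cons [2, 1, 5, 0, 4, 3] 72227 (by decide)

theorem sc_130524_7 : StopC par6.d S_130524_7 K_130524_7 := sc_130524_6.cons [1, 4, 2, 0, 5, 3] 50219 (by decide)

theorem sc_130524_8 : StopC par6.d S_130524_8 K_130524_8 := sc_130524_7.cons [1, 5, 2, 0, 4, 3] 54307 (by decide)

theorem sc_130524_9 : StopC par6.d S_130524_9 K_130524_9 := sc_130524_8.cons [3, 1, 0, 5, 2, 4] 102740 (by decide)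

theorem sc_130524_10 : StopC par6.d S_130524_10 K_130524_10 := sc_130524_9.cons [3, 1, 0, 5, 4, 2] 102754 (by decide)

theorem sc_130524_11 : StopC par6.d S_130524_11 K_130524_11 := sc_130524_10.cons [1, 5, 3, 2, 0, 4] 54916 (by decide)

theorem sc_130524_12 : StopC par6.d S_130524_12 K_130524_12 := sc_130524_11.cons [2, 0, 4, 1, 5, 3] 67691 (by decide)

theorem sc_130524_13 : StopC par6.d S_130524_13 K_130524_13 := sc_130524_12.cons [2, 0, 5, 1, 4, 3] 68195 (by decide)

theorem sc_130524_14 : StopC par6.d S_130524_14 K_130524_14 := sc_130524_13.cons [2, 0, 5, 4, 3, 1] 68377 (by decide)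

theorem sc_130524_15 : StopC par6.d S_130524_15 K_130524_15 := sc_130524_14.cons [2, 0, 5, 3, 1, 4] 68300 (by decide)

theorem sc_130524_16 : StopC par6.d S_130524_16 K_130524_16 := sc_130524_15.cons [1, 5, 4, 3, 2, 0] 55504 (by decide)

theorem sc_130524_17 : StopC par6.d S_130524_17 K_130524_17 := sc_130524_16.cons [4, 2, 1, 0, 5, 3] 139819 (by decide)

theorem sc_130524_18 : StopC par6.d S_130524_18 K_130524_18 := sc_130524_17.cons [5, 0, 4, 3, 2, 1] 166097 (by decide)

theorem sc_130524_19 : StopC par6.d S_130524_19 K_130524_19 := sc_130524_18.cons [5, 4, 3, 2, 1, 0] 181896 (by decide)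

theorem sc_130524_20 : StopC par6.d S_130524_20 K_130524_20 := sc_130524_19.cons [4, 0, 3, 2, 5, 1] 132777 (by decide)

theorem sc_130524_21 : StopC par6.d S_130524_21 K_130524_21 := sc_130524_20.cons [4, 3, 2, 1, 5, 0] 144488 (by decide)

theorem sc_130524_22 : StopC par6.d S_130524_22 K_130524_22 := sc_130524_21.cons [5, 1, 0, 4, 3, 2] 168218 (by decide)

theorem sc_130524_23 : StopC par6.d S_130524_23 K_130524_23 := sc_130524_22.cons [4, 1, 0, 3, 5, 2] 135402 (by decide)

theorem sc_130524_24 : StopC par6.d S_130524_24 K_130524_24 := sc_130524_23.cons [5, 2, 1, 0, 4, 3] 172579 (by decide)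

theorem sc_130524_25 : StopC par6.d S_130524_25 K_130524_25 := sc_130524_24.cons [5, 3, 2, 1, 0, 4] 177220 (by decide)

theorem sc_130524_26 : StopC par6.d S_130524_26 K_130524_26 := sc_130524_25.cons [2, 1, 5, 4, 3, 0] 72472 (by decide)

theorem sc_130524_27 : StopC par6.d S_130524_27 K_130524_27 := sc_130524_26.cons [2, 1, 5, 3, 0, 4] 72388 (by decide)

theorem sc_130524_28 : StopC par6.d S_130524_28 K_130524_28 := sc_130524_27.cons [3, 0, 2, 5, 1, 4] 99660 (by decide)

theorem sc_130524_29 : StopC par6.d S_130524_29 K_130524_29 := sc_130524_28.cons [3, 0, 2, 5, 4, 1] 99681 (by decide)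

theorem sc_130524_30 : StopC par6.d S_130524_30 K_130524_30 := sc_130524_29.cons [3, 2, 1, 5, 0, 4] 107332 (by decide)

theorem sc_130524_31 : StopC par6.d S_130524_31 K_130524_31 := sc_130524_30.cons [3, 2, 1, 5, 4, 0] 107360 (by decide)

theorem sc_143250_0 : StopC par6.d S_143250_0 K_143250_0 := StopC.nil

theorem sc_143250_1 : StopC par6.d S_143250_1 K_143250_1 := sc_143250_0.cons [2, 4, 1, 0, 5, 3] 82475 (by decide)

theorem sc_143250_2 : StopC par6.d S_143250_2 K_143250_2 := sc_143250_1.cons [3, 2, 0, 5, 1, 4] 106828 (by decide)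

theorem sc_143250_3 : StopC par6.d S_143250_3 K_143250_3 := sc_143250_2.cons [2, 5, 1, 0, 4, 3] 86563 (by decide)

theorem sc_143250_4 : StopC par6.d S_143250_4 K_143250_4 := sc_143250_3.cons [2, 5, 0, 4, 3, 1] 86297 (by decide)

theorem sc_143250_5 : StopC par6.d S_143250_5 K_143250_5 := sc_143250_4.cons [3, 2, 0, 5, 4, 1] 106849 (by decide)

theorem sc_143250_6 : StopC par6.d S_143250_6 K_143250_6 := sc_143250_5.cons [2, 5, 3, 1, 0, 4] 87620 (by decide)

theorem sc_143250_7 : StopC par6.d S_143250_7 K_143250_7 := sc_143250_6.cons [4, 3, 0, 2, 5, 1] 143529 (by decide)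

theorem sc_143250_8 : StopC par6.d S_143250_8 K_143250_8 := sc_143250_7.cons [1, 4, 3, 2, 5, 0] 50856 (by decide)

theorem sc_143250_9 : StopC par6.d S_143250_9 K_143250_9 := sc_143250_8.cons [4, 1, 3, 0, 5, 2] 136746 (by decide)

theorem sc_143250_10 : StopC par6.d S_143250_10 K_143250_10 := sc_143250_9.cons [2, 5, 4, 3, 1, 0] 88264 (by decide)

theorem sc_143250_11 : StopC par6.d S_143250_11 K_143250_11 := sc_143250_10.cons [3, 1, 5, 0, 4, 2] 104994 (by decide)

theorem sc_143250_12 : StopC par6.d S_143250_12 K_143250_12 := sc_143250_11.cons [5, 0, 3, 2, 1, 4] 165516 (by decide)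

theorem sc_143250_13 : StopC par6.d S_143250_13 K_143250_13 := sc_143250_12.cons [5, 3, 2, 1, 4, 0] 177248 (by decide)

theorem sc_143250_14 : StopC par6.d S_143250_14 K_143250_14 := sc_143250_13.cons [3, 1, 5, 4, 2, 0] 105232 (by decide)

theorem sc_143250_15 : StopC par6.d S_143250_15 K_143250_15 := sc_143250_14.cons [3, 1, 5, 2, 0, 4] 105092 (by decide)

theorem sc_143250_16 : StopC par6.d S_143250_16 K_143250_16 := sc_143250_15.cons [4, 2, 1, 5, 0, 3] 140099 (by decide)

theorem sc_143250_17 : StopC par6.d S_143250_17 K_143250_17 := sc_143250_16.cons [4, 2, 1, 5, 3, 0] 140120 (by decide)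

theorem sc_143250_18 : StopC par6.d S_143250_18 K_143250_18 := sc_143250_17.cons [5, 1, 4, 0, 3, 2] 170010 (by decide)

theorem sc_143250_19 : StopC par6.d S_143250_19 K_143250_19 := sc_143250_18.cons [5, 2, 1, 4, 0, 3] 172803 (by decide)

theorem sc_143250_20 : StopC par6.d S_143250_20 K_143250_20 := sc_143250_19.cons [5, 4, 0, 3, 2, 1] 180433 (by decide)

theorem sc_124053_0 : StopC par6.d S_124053_0 K_124053_0 := StopC.nil

theorem sc_124053_1 : StopC par6.d S_124053_1 K_124053_1 := sc_124053_0.cons [1, 2, 4, 0, 5, 3] 43051 (by decide)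

theorem sc_124053_2 : StopC par6.d S_124053_2 K_124053_2 := sc_124053_1.cons [1, 2, 5, 0, 4, 3] 43555 (by decide)

theorem sc_124053_3 : StopC par6.d S_124053_3 K_124053_3 := sc_124053_2.cons [2, 0, 5, 1, 3, 4] 68188 (by decide)

theorem sc_124053_4 : StopC par6.d S_124053_4 K_124053_4 := sc_124053_3.cons [2, 0, 5, 3, 4, 1] 68321 (by decide)

theorem sc_124053_5 : StopC par6.d S_124053_5 K_124053_5 := sc_124053_4.cons [2, 0, 5, 4, 1, 3] 68363 (by decide)

theorem sc_124053_6 : StopC par6.d S_124053_6 K_124053_6 := sc_124053_5.cons [3, 1, 0, 4, 5, 2] 102698 (by decide)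

theorem sc_124053_7 : StopC par6.d S_124053_7 K_124053_7 := sc_124053_6.cons [4, 1, 0, 5, 3, 2] 135514 (by decide)

theorem sc_124053_8 : StopC par6.d S_124053_8 K_124053_8 := sc_124053_7.cons [3, 0, 1, 5, 2, 4] 99156 (by decide)

theorem sc_124053_9 : StopC par6.d S_124053_9 K_124053_9 := sc_124053_8.cons [3, 0, 1, 5, 4, 2] 99170 (by decide)

theorem sc_124053_10 : StopC par6.d S_124053_10 K_124053_10 := sc_124053_9.cons [2, 0, 4, 5, 1, 3] 67915 (by decide)

theorem sc_124053_11 : StopC par6.d S_124053_11 K_124053_11 := sc_124053_10.cons [2, 0, 4, 5, 3, 1] 67929 (by decide)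

theorem sc_124053_12 : StopC par6.d S_124053_12 K_124053_12 := sc_124053_11.cons [4, 1, 0, 5, 2, 3] 135507 (by decide)

theorem sc_124053_13 : StopC par6.d S_124053_13 K_124053_13 := sc_124053_12.cons [1, 3, 0, 4, 5, 2] 45354 (by decide)

theorem sc_124053_14 : StopC par6.d S_124053_14 K_124053_14 := sc_124053_13.cons [1, 5, 0, 3, 4, 2] 53474 (by decide)

theorem sc_124053_15 : StopC par6.d S_124053_15 K_124053_15 := sc_124053_14.cons [1, 4, 0, 5, 3, 2] 49498 (by decide)

theorem sc_124053_16 : StopC par6.d S_124053_16 K_124053_16 := sc_124053_15.cons [2, 1, 5, 0, 3, 4] 72220 (by decide)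

theorem sc_124053_17 : StopC par6.d S_124053_17 K_124053_17 := sc_124053_16.cons [2, 1, 5, 4, 0, 3] 72451 (by decide)

theorem sc_124053_18 : StopC par6.d S_124053_18 K_124053_18 := sc_124053_17.cons [1, 5, 2, 0, 3, 4] 54300 (by decide)

theorem sc_124053_19 : StopC par6.d S_124053_19 K_124053_19 := sc_124053_18.cons [1, 5, 4, 2, 0, 3] 55427 (by decide)

theorem sc_124053_20 : StopC par6.d S_124053_20 K_124053_20 := sc_124053_19.cons [1, 4, 0, 5, 2, 3] 49491 (by decide)

theorem sc_124053_21 : StopC par6.d S_124053_21 K_124053_21 := sc_124053_20.cons [1, 5, 0, 4, 2, 3] 53523 (by decide)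

theorem sc_124053_22 : StopC par6.d S_124053_22 K_124053_22 := sc_124053_21.cons [3, 0, 2, 4, 5, 1] 99625 (by decide)

theorem sc_124053_23 : StopC par6.d S_124053_23 K_124053_23 := sc_124053_22.cons [4, 0, 3, 5, 2, 1] 132945 (by decide)

theorem sc_124053_24 : StopC par6.d S_124053_24 K_124053_24 := sc_124053_23.cons [2, 1, 4, 5, 0, 3] 72003 (by decide)

theorem sc_124053_25 : StopC par6.d S_124053_25 K_124053_25 := sc_124053_24.cons [1, 5, 3, 0, 4, 2] 54818 (by decide)

theorem sc_124053_26 : StopC par6.d S_124053_26 K_124053_26 := sc_124053_25.cons [1, 3, 4, 0, 5, 2] 47146 (by decide)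

theorem sc_124053_27 : StopC par6.d S_124053_27 K_124053_27 := sc_124053_26.cons [1, 4, 5, 0, 3, 2] 51738 (by decide)

theorem sc_124053_28 : StopC par6.d S_124053_28 K_124053_28 := sc_124053_27.cons [4, 0, 2, 3, 5, 1] 132329 (by decide)

theorem sc_124053_29 : StopC par6.d S_124053_29 K_124053_29 := sc_124053_28.cons [3, 0, 5, 2, 4, 1] 101025 (by decide)

theorem sc_124053_30 : StopC par6.d S_124053_30 K_124053_30 := sc_124053_29.cons [3, 0, 5, 1, 2, 4] 100948 (by decide)

theorem sc_124053_31 : StopC par6.d S_124053_31 K_124053_31 := sc_124053_30.cons [1, 5, 2, 3, 0, 4] 54468 (by decide)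

theorem sc_124053_32 : StopC par6.d S_124053_32 K_124053_32 := sc_124053_31.cons [3, 0, 5, 4, 1, 2] 101130 (by decide)

theorem sc_124053_33 : StopC par6.d S_124053_33 K_124053_33 := sc_124053_32.cons [1, 2, 5, 3, 0, 4] 43716 (by decide)

theorem sc_124053_34 : StopC par6.d S_124053_34 K_124053_34 := sc_124053_33.cons [4, 0, 1, 3, 5, 2] 131818 (by decide)

theorem sc_124053_35 : StopC par6.d S_124053_35 K_124053_35 := sc_124053_34.cons [1, 5, 4, 2, 3, 0] 55448 (by decide)

theorem sc_124053_36 : StopC par6.d S_124053_36 K_124053_36 := sc_124053_35.cons [4, 1, 2, 0, 5, 3] 136235 (by decide)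

theorem sc_124053_37 : StopC par6.d S_124053_37 K_124053_37 := sc_124053_36.cons [1, 2, 5, 4, 3, 0] 43800 (by decide)

theorem sc_124053_38 : StopC par6.d S_124053_38 K_124053_38 := sc_124053_37.cons [4, 2, 0, 1, 5, 3] 139371 (by decide)

theorem sc_124053_39 : StopC par6.d S_124053_39 K_124053_39 := sc_124053_38.cons [5, 0, 1, 4, 3, 2] 164634 (by decide)

theorem sc_124053_40 : StopC par6.d S_124053_40 K_124053_40 := sc_124053_39.cons [5, 1, 4, 3, 2, 0] 170192 (by decide)

theorem sc_124053_41 : StopC par6.d S_124053_41 K_124053_41 := sc_124053_40.cons [2, 3, 1, 5, 0, 4] 78660 (by decide)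

theorem sc_124053_42 : StopC par6.d S_124053_42 K_124053_42 := sc_124053_41.cons [4, 5, 3, 2, 1, 0] 153224 (by decide)

theorem sc_124053_43 : StopC par6.d S_124053_43 K_124053_43 := sc_124053_42.cons [2, 3, 1, 5, 4, 0] 78688 (by decide)

theorem sc_124053_44 : StopC par6.d S_124053_44 K_124053_44 := sc_124053_43.cons [3, 4, 2, 1, 5, 0] 115816 (by decide)

theorem sc_124053_45 : StopC par6.d S_124053_45 K_124053_45 := sc_124053_44.cons [4, 5, 2, 1, 0, 3] 152643 (by decide)

theorem sc_124053_46 : StopC par6.d S_124053_46 K_124053_46 := sc_124053_45.cons [5, 0, 4, 2, 3, 1] 166041 (by decide)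

theorem sc_124053_47 : StopC par6.d S_124053_47 K_124053_47 := sc_124053_46.cons [5, 1, 0, 4, 2, 3] 168211 (by decide)

theorem sc_124053_48 : StopC par6.d S_124053_48 K_124053_48 := sc_124053_47.cons [3, 4, 1, 0, 5, 2] 115242 (by decide)

theorem sc_124053_49 : StopC par6.d S_124053_49 K_124053_49 := sc_124053_48.cons [4, 0, 3, 5, 1, 2] 132938 (by decide)

theorem sc_124053_50 : StopC par6.d S_124053_50 K_124053_50 := sc_124053_49.cons [2, 3, 0, 5, 1, 4] 78156 (by decide)

theorem sc_124053_51 : StopC par6.d S_124053_51 K_124053_51 := sc_124053_50.cons [2, 3, 0, 5, 4, 1] 78177 (by decide)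

theorem sc_124053_52 : StopC par6.d S_124053_52 K_124053_52 := sc_124053_51.cons [5, 0, 4, 3, 1, 2] 166090 (by decide)

theorem sc_124053_53 : StopC par6.d S_124053_53 K_124053_53 := sc_124053_52.cons [5, 4, 3, 1, 2, 0] 181840 (by decide)

theorem sc_124053_54 : StopC par6.d S_124053_54 K_124053_54 := sc_124053_53.cons [5, 1, 2, 0, 4, 3] 168995 (by decide)

theorem sc_124053_55 : StopC par6.d S_124053_55 K_124053_55 := sc_124053_54.cons [5, 2, 0, 4, 3, 1] 172313 (by decide)

theorem sc_124053_56 : StopC par6.d S_124053_56 K_124053_56 := sc_124053_55.cons [5, 3, 1, 2, 0, 4] 176772 (by decide)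

theorem sc_124053_57 : StopC par6.d S_124053_57 K_124053_57 := sc_124053_56.cons [3, 4, 0, 2, 5, 1] 114857 (by decide)

theorem sc_124053_58 : StopC par6.d S_124053_58 K_124053_58 := sc_124053_57.cons [4, 5, 0, 3, 2, 1] 151761 (by decide)

theorem sc_124053_59 : StopC par6.d S_124053_59 K_124053_59 := sc_124053_58.cons [4, 5, 1, 0, 3, 2] 152090 (by decide)

theorem sc_124053_60 : StopC par6.d S_124053_60 K_124053_60 := sc_124053_59.cons [3, 1, 2, 5, 0, 4] 103748 (by decide)

theorem sc_124053_61 : StopC par6.d S_124053_61 K_124053_61 := sc_124053_60.cons [1, 5, 3, 4, 2, 0] 55056 (by decide)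

theorem sc_124053_62 : StopC par6.d S_124053_62 K_124053_62 := sc_124053_61.cons [5, 4, 2, 3, 1, 0] 181448 (by decide)

theorem sc_124053_63 : StopC par6.d S_124053_63 K_124053_63 := sc_124053_62.cons [4, 3, 1, 2, 5, 0] 144040 (by decide)

theorem sc_124053_64 : StopC par6.d S_124053_64 K_124053_64 := sc_124053_63.cons [5, 2, 3, 1, 0, 4] 173636 (by decide)

theorem sc_124053_65 : StopC par6.d S_124053_65 K_124053_65 := sc_124053_64.cons [5, 3, 1, 0, 4, 2] 176674 (by decide)

theorem sc_124053_66 : StopC par6.d S_124053_66 K_124053_66 := sc_124053_65.cons [2, 1, 4, 5, 3, 0] 72024 (by decide)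

theorem sc_124053_67 : StopC par6.d S_124053_67 K_124053_67 := sc_124053_66.cons [3, 2, 5, 1, 4, 0] 109152 (by decide)

theorem sc_124053_68 : StopC par6.d S_124053_68 K_124053_68 := sc_124053_67.cons [4, 3, 2, 5, 1, 0] 144712 (by decide)

theorem sc_124053_69 : StopC par6.d S_124053_69 K_124053_69 := sc_124053_68.cons [2, 1, 5, 3, 4, 0] 72416 (by decide)

theorem sc_124053_70 : StopC par6.d S_124053_70 K_124053_70 := sc_124053_69.cons [3, 2, 1, 4, 5, 0] 107304 (by decide)

theorem sc_124053_71 : StopC par6.d S_124053_71 K_124053_71 := sc_124053_70.cons [1, 4, 5, 2, 0, 3] 51843 (by decide)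

theorem sc_124053_72 : StopC par6.d S_124053_72 K_124053_72 := sc_124053_71.cons [1, 4, 5, 3, 2, 0] 51920 (by decide)

theorem sc_124053_73 : StopC par6.d S_124053_73 K_124053_73 := sc_124053_72.cons [5, 0, 3, 4, 2, 1] 165649 (by decide)

theorem sc_124053_74 : StopC par6.d S_124053_74 K_124053_74 := sc_124053_73.cons [5, 3, 4, 2, 1, 0] 178312 (by decide)

theorem sc_124053_75 : StopC par6.d S_124053_75 K_124053_75 := sc_124053_74.cons [5, 4, 2, 1, 0, 3] 181315 (by decide)

theorem sc_124053_76 : StopC par6.d S_124053_76 K_124053_76 := sc_124053_75.cons [3, 1, 2, 5, 4, 0] 103776 (by decide)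

theorem sc_124053_77 : StopC par6.d S_124053_77 K_124053_77 := sc_124053_76.cons [4, 2, 3, 1, 5, 0] 140904 (by decide)

theorem sc_124053_78 : StopC par6.d S_124053_78 K_124053_78 := sc_124053_77.cons [5, 1, 0, 3, 4, 2] 168162 (by decide)

theorem sc_124053_79 : StopC par6.d S_124053_79 K_124053_79 := sc_124053_78.cons [5, 2, 1, 0, 3, 4] 172572 (by decide)

theorem sc_124053_80 : StopC par6.d S_124053_80 K_124053_80 := sc_124053_79.cons [2, 4, 0, 1, 5, 3] 82027 (by decide)

theorem sc_124053_81 : StopC par6.d S_124053_81 K_124053_81 := sc_124053_80.cons [2, 5, 0, 1, 4, 3] 86115 (by decide)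

theorem sc_124053_82 : StopC par6.d S_124053_82 K_124053_82 := sc_124053_81.cons [2, 5, 1, 4, 3, 0] 86808 (by decide)

theorem sc_124053_83 : StopC par6.d S_124053_83 K_124053_83 := sc_124053_82.cons [2, 5, 4, 3, 0, 1] 88257 (by decide)

theorem sc_124053_84 : StopC par6.d S_124053_84 K_124053_84 := sc_124053_83.cons [3, 2, 5, 4, 0, 1] 109313 (by decide)

theorem sc_124053_85 : StopC par6.d S_124053_85 K_124053_85 := sc_124053_84.cons [4, 3, 2, 5, 0, 1] 144705 (by decide)

theorem sc_124053_86 : StopC par6.d S_124053_86 K_124053_86 := sc_124053_85.cons [5, 4, 3, 2, 0, 1] 181889 (by decide)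

theorem sc_124053_87 : StopC par6.d S_124053_87 K_124053_87 := sc_124053_86.cons [2, 5, 3, 0, 1, 4] 87564 (by decide)

theorem sc_124053_88 : StopC par6.d S_124053_88 K_124053_88 := sc_124053_87.cons [3, 2, 5, 0, 1, 4] 109068 (by decide)

theorem sc_124053_89 : StopC par6.d S_124053_89 K_124053_89 := sc_124053_88.cons [5, 2, 0, 1, 4, 3] 172131 (by decide)

theorem sc_124053_90 : StopC par6.d S_124053_90 K_124053_90 := sc_124053_89.cons [5, 3, 2, 0, 1, 4] 177164 (by decide)

theorem sc_132504_0 : StopC par6.d S_132504_0 K_132504_0 := StopC.nil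

theorem sc_132504_1 : StopC par6.d S_132504_1 K_132504_1 := sc_132504_0.cons [1, 4, 0, 2, 5, 3] 49323 (by decide)

theorem sc_132504_2 : StopC par6.d S_132504_2 K_132504_2 := sc_132504_1.cons [2, 0, 3, 5, 1, 4] 67404 (by decide)

theorem sc_132504_3 : StopC par6.d S_132504_3 K_132504_3 := sc_132504_2.cons [1, 5, 0, 2, 4, 3] 53411 (by decide)

theorem sc_132504_4 : StopC par6.d S_132504_4 K_132504_4 := sc_132504_3.cons [2, 0, 3, 5, 4, 1] 67425 (by decide)

theorem sc_132504_5 : StopC par6.d S_132504_5 K_132504_5 := sc_132504_4.cons [1, 5, 3, 0, 2, 4] 54804 (by decide)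

theorem sc_132504_6 : StopC par6.d S_132504_6 K_132504_6 := sc_132504_5.cons [3, 0, 4, 2, 5, 1] 100521 (by decide)

theorem sc_132504_7 : StopC par6.d S_132504_7 K_132504_7 := sc_132504_6.cons [1, 5, 4, 3, 0, 2] 55490 (by decide)

theorem sc_132504_8 : StopC par6.d S_132504_8 K_132504_8 := sc_132504_7.cons [4, 0, 5, 3, 2, 1] 133841 (by decide)

theorem sc_132504_9 : StopC par6.d S_132504_9 K_132504_9 := sc_132504_8.cons [1, 4, 3, 0, 5, 2] 50730 (by decide)

theorem sc_132504_10 : StopC par6.d S_132504_10 K_132504_10 := sc_132504_9.cons [3, 0, 5, 2, 1, 4] 101004 (by decide)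

theorem sc_132504_11 : StopC par6.d S_132504_11 K_132504_11 := sc_132504_10.cons [2, 1, 3, 5, 0, 4] 71492 (by decide)

theorem sc_132504_12 : StopC par6.d S_132504_12 K_132504_12 := sc_132504_11.cons [4, 1, 0, 2, 5, 3] 135339 (by decide)

theorem sc_132504_13 : StopC par6.d S_132504_13 K_132504_13 := sc_132504_12.cons [1, 5, 0, 3, 2, 4] 53460 (by decide)

theorem sc_132504_14 : StopC par6.d S_132504_14 K_132504_14 := sc_132504_13.cons [2, 0, 4, 3, 5, 1] 67817 (by decide)

theorem sc_132504_15 : StopC par6.d S_132504_15 K_132504_15 := sc_132504_14.cons [1, 5, 4, 0, 3, 2] 55322 (by decide)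

theorem sc_132504_16 : StopC par6.d S_132504_16 K_132504_16 := sc_132504_15.cons [3, 0, 5, 4, 2, 1] 101137 (by decide)

theorem sc_132504_17 : StopC par6.d S_132504_17 K_132504_17 := sc_132504_16.cons [1, 3, 5, 0, 4, 2] 47650 (by decide)

theorem sc_132504_18 : StopC par6.d S_132504_18 K_132504_18 := sc_132504_17.cons [3, 0, 5, 1, 4, 2] 100962 (by decide)

theorem sc_132504_19 : StopC par6.d S_132504_19 K_132504_19 := sc_132504_18.cons [1, 3, 5, 0, 2, 4] 47636 (by decide)

theorem sc_132504_20 : StopC par6.d S_132504_20 K_132504_20 := sc_132504_19.cons [3, 2, 5, 1, 0, 4] 109124 (by decide)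

theorem sc_132504_21 : StopC par6.d S_132504_21 K_132504_21 := sc_132504_20.cons [4, 0, 2, 1, 5, 3] 132203 (by decide)

theorem sc_132504_22 : StopC par6.d S_132504_22 K_132504_22 := sc_132504_21.cons [3, 2, 5, 0, 4, 1] 109089 (by decide)

theorem sc_132504_23 : StopC par6.d S_132504_23 K_132504_23 := sc_132504_22.cons [2, 5, 0, 3, 1, 4] 86220 (by decide)

theorem sc_132504_24 : StopC par6.d S_132504_24 K_132504_24 := sc_132504_23.cons [1, 5, 2, 4, 0, 3] 54531 (by decide)

theorem sc_132504_25 : StopC par6.d S_132504_25 K_132504_25 := sc_132504_24.cons [1, 4, 2, 5, 0, 3] 50499 (by decide)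

theorem sc_132504_26 : StopC par6.d S_132504_26 K_132504_26 := sc_132504_25.cons [2, 5, 4, 0, 3, 1] 88089 (by decide)

theorem sc_132504_27 : StopC par6.d S_132504_27 K_132504_27 := sc_132504_26.cons [4, 3, 2, 0, 5, 1] 144425 (by decide)

theorem sc_132504_28 : StopC par6.d S_132504_28 K_132504_28 := sc_132504_27.cons [5, 0, 2, 1, 4, 3] 164963 (by decide)

theorem sc_132504_29 : StopC par6.d S_132504_29 K_132504_29 := sc_132504_28.cons [5, 3, 0, 2, 1, 4] 176268 (by decide)

theorem sc_132504_30 : StopC par6.d S_132504_30 K_132504_30 := sc_132504_29.cons [1, 5, 3, 2, 4, 0] 54944 (by decide)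

theorem sc_132504_31 : StopC par6.d S_132504_31 K_132504_31 := sc_132504_30.cons [3, 1, 4, 0, 5, 2] 104490 (by decide)

theorem sc_132504_32 : StopC par6.d S_132504_32 K_132504_32 := sc_132504_31.cons [4, 1, 5, 0, 3, 2] 137754 (by decide)

theorem sc_132504_33 : StopC par6.d S_132504_33 K_132504_33 := sc_132504_32.cons [1, 3, 2, 5, 0, 4] 46404 (by decide)

theorem sc_132504_34 : StopC par6.d S_132504_34 K_132504_34 := sc_132504_33.cons [3, 5, 2, 1, 0, 4] 119876 (by decide)

theorem sc_132504_35 : StopC par6.d S_132504_35 K_132504_35 := sc_132504_34.cons [3, 5, 1, 0, 4, 2] 119330 (by decide)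

theorem sc_132504_36 : StopC par6.d S_132504_36 K_132504_36 := sc_132504_35.cons [4, 1, 5, 3, 2, 0] 137936 (by decide)

theorem sc_132504_37 : StopC par6.d S_132504_37 K_132504_37 := sc_132504_36.cons [5, 2, 1, 4, 3, 0] 172824 (by decide)

theorem sc_132504_38 : StopC par6.d S_132504_38 K_132504_38 := sc_132504_37.cons [3, 5, 4, 2, 1, 0] 120968 (by decide)

theorem sc_132504_39 : StopC par6.d S_132504_39 K_132504_39 := sc_132504_38.cons [1, 3, 2, 5, 4, 0] 46432 (by decide)

theorem sc_132504_40 : StopC par6.d S_132504_40 K_132504_40 := sc_132504_39.cons [2, 4, 3, 1, 5, 0] 83560 (by decide)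

theorem sc_132504_41 : StopC par6.d S_132504_41 K_132504_41 := sc_132504_40.cons [4, 3, 1, 0, 5, 2] 143914 (by decide)

theorem sc_132504_42 : StopC par6.d S_132504_42 K_132504_42 := sc_132504_41.cons [5, 1, 4, 3, 0, 2] 170178 (by decide)

theorem sc_132504_43 : StopC par6.d S_132504_43 K_132504_43 := sc_132504_42.cons [5, 4, 3, 0, 2, 1] 181777 (by decide)

theorem sc_132504_44 : StopC par6.d S_132504_44 K_132504_44 := sc_132504_43.cons [5, 0, 3, 2, 4, 1] 165537 (by decide)

theorem sc_132504_45 : StopC par6.d S_132504_45 K_132504_45 := sc_132504_44.cons [4, 0, 2, 5, 3, 1] 132441 (by decide)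

theorem sc_132504_46 : StopC par6.d S_132504_46 K_132504_46 := sc_132504_45.cons [2, 1, 4, 3, 5, 0] 71912 (by decide)

theorem sc_132504_47 : StopC par6.d S_132504_47 K_132504_47 := sc_132504_46.cons [5, 1, 0, 3, 2, 4] 168148 (by decide)

theorem sc_132504_48 : StopC par6.d S_132504_48 K_132504_48 := sc_132504_47.cons [3, 2, 5, 4, 1, 0] 109320 (by decide)

theorem sc_132504_49 : StopC par6.d S_132504_49 K_132504_49 := sc_132504_48.cons [5, 4, 1, 0, 3, 2] 180762 (by decide)

theorem sc_132504_50 : StopC par6.d S_132504_50 K_132504_50 := sc_132504_49.cons [4, 0, 2, 5, 1, 3] 132427 (by decide)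

theorem sc_132504_51 : StopC par6.d S_132504_51 K_132504_51 := sc_132504_50.cons [4, 0, 5, 2, 1, 3] 133771 (by decide)

theorem sc_132504_52 : StopC par6.d S_132504_52 K_132504_52 := sc_132504_51.cons [3, 0, 4, 1, 5, 2] 100458 (by decide)

theorem sc_132504_53 : StopC par6.d S_132504_53 K_132504_53 := sc_132504_52.cons [4, 0, 5, 1, 3, 2] 133722 (by decide)

theorem sc_132504_54 : StopC par6.d S_132504_54 K_132504_54 := sc_132504_53.cons [2, 4, 0, 3, 5, 1] 82153 (by decide)

theorem sc_132504_55 : StopC par6.d S_132504_55 K_132504_55 := sc_132504_54.cons [3, 1, 5, 0, 2, 4] 104980 (by decide)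

theorem sc_132504_56 : StopC par6.d S_132504_56 K_132504_56 := sc_132504_55.cons [1, 4, 3, 5, 0, 2] 51010 (by decide)

theorem sc_132504_57 : StopC par6.d S_132504_57 K_132504_57 := sc_132504_56.cons [1, 3, 5, 4, 0, 2] 47874 (by decide)

theorem sc_132504_58 : StopC par6.d S_132504_58 K_132504_58 := sc_132504_57.cons [3, 1, 5, 4, 0, 2] 105218 (by decide)

theorem sc_132504_59 : StopC par6.d S_132504_59 K_132504_59 := sc_132504_58.cons [3, 5, 0, 4, 2, 1] 119057 (by decide)

theorem sc_132504_60 : StopC par6.d S_132504_60 K_132504_60 := sc_132504_59.cons [1, 4, 2, 5, 3, 0] 50520 (by decide)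

theorem sc_132504_61 : StopC par6.d S_132504_61 K_132504_61 := sc_132504_60.cons [4, 1, 5, 2, 0, 3] 137859 (by decide)

theorem sc_132504_62 : StopC par6.d S_132504_62 K_132504_62 := sc_132504_61.cons [5, 0, 2, 4, 1, 3] 165131 (by decide)

theorem sc_132504_63 : StopC par6.d S_132504_63 K_132504_63 := sc_132504_62.cons [4, 1, 3, 5, 0, 2] 137026 (by decide)

theorem sc_132504_64 : StopC par6.d S_132504_64 K_132504_64 := sc_132504_63.cons [1, 4, 3, 5, 2, 0] 51024 (by decide)

theorem sc_132504_65 : StopC par6.d S_132504_65 K_132504_65 := sc_132504_64.cons [5, 3, 2, 4, 1, 0] 177416 (by decide)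

theorem sc_132504_66 : StopC par6.d S_132504_66 K_132504_66 := sc_132504_65.cons [3, 1, 5, 2, 4, 0] 105120 (by decide)

theorem sc_132504_67 : StopC par6.d S_132504_67 K_132504_67 := sc_132504_66.cons [4, 2, 1, 3, 5, 0] 140008 (by decide)

theorem sc_132504_68 : StopC par6.d S_132504_68 K_132504_68 := sc_132504_67.cons [5, 2, 4, 1, 0, 3] 174147 (by decide)

theorem sc_132504_69 : StopC par6.d S_132504_69 K_132504_69 := sc_132504_68.cons [4, 2, 5, 1, 0, 3] 141891 (by decide)

theorem sc_132504_70 : StopC par6.d S_132504_70 K_132504_70 := sc_132504_69.cons [4, 2, 0, 5, 3, 1] 139609 (by decide)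

theorem sc_132504_71 : StopC par6.d S_132504_71 K_132504_71 := sc_132504_70.cons [4, 2, 0, 5, 1, 3] 139595 (by decide)

theorem sc_132504_72 : StopC par6.d S_132504_72 K_132504_72 := sc_132504_71.cons [4, 0, 3, 1, 5, 2] 132714 (by decide)

theorem sc_132504_73 : StopC par6.d S_132504_73 K_132504_73 := sc_132504_72.cons [5, 0, 4, 1, 3, 2] 165978 (by decide)

theorem sc_132504_74 : StopC par6.d S_132504_74 K_132504_74 := sc_132504_73.cons [5, 1, 3, 2, 0, 4] 169604 (by decide)

theorem sc_132504_75 : StopC par6.d S_132504_75 K_132504_75 := sc_132504_74.cons [5, 2, 0, 4, 1, 3] 172299 (by decide)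

theorem sc_132504_76 : StopC par6.d S_132504_76 K_132504_76 := sc_132504_75.cons [1, 3, 5, 2, 0, 4] 47748 (by decide)

theorem sc_132504_77 : StopC par6.d S_132504_77 K_132504_77 := sc_132504_76.cons [4, 2, 5, 0, 3, 1] 141849 (by decide)

theorem sc_132504_78 : StopC par6.d S_132504_78 K_132504_78 := sc_132504_77.cons [2, 5, 3, 1, 4, 0] 87648 (by decide)

theorem sc_132504_79 : StopC par6.d S_132504_79 K_132504_79 := sc_132504_78.cons [3, 1, 4, 2, 5, 0] 104616 (by decide)

theorem sc_132504_80 : StopC par6.d S_132504_80 K_132504_80 := sc_132504_79.cons [4, 2, 5, 3, 1, 0] 142024 (by decide)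

theorem sc_132504_81 : StopC par6.d S_132504_81 K_132504_81 := sc_132504_80.cons [1, 3, 5, 4, 2, 0] 47888 (by decide)

theorem sc_132504_82 : StopC par6.d S_132504_82 K_132504_82 := sc_132504_81.cons [2, 4, 1, 5, 0, 3] 82755 (by decide)

theorem sc_132504_83 : StopC par6.d S_132504_83 K_132504_83 := sc_132504_82.cons [2, 5, 1, 4, 0, 3] 86787 (by decide)

theorem sc_132504_84 : StopC par6.d S_132504_84 K_132504_84 := sc_132504_83.cons [4, 1, 3, 2, 5, 0] 136872 (by decide)

theorem sc_132504_85 : StopC par6.d S_132504_85 K_132504_85 := sc_132504_84.cons [2, 4, 1, 5, 3, 0] 82776 (by decide)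

theorem sc_132504_86 : StopC par6.d S_132504_86 K_132504_86 := sc_132504_85.cons [3, 5, 2, 1, 4, 0] 119904 (by decide)

theorem sc_132504_87 : StopC par6.d S_132504_87 K_132504_87 := sc_132504_86.cons [5, 3, 2, 0, 4, 1] 177185 (by decide)

theorem sc_132504_88 : StopC par6.d S_132504_88 K_132504_88 := sc_132504_87.cons [2, 4, 3, 0, 5, 1] 83497 (by decide)

theorem sc_132504_89 : StopC par6.d S_132504_89 K_132504_89 := sc_132504_88.cons [3, 5, 0, 2, 1, 4] 118924 (by decide)

theorem sc_132504_90 : StopC par6.d S_132504_90 K_132504_90 := sc_132504_89.cons [3, 5, 1, 0, 2, 4] 119316 (by decide)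

theorem sc_132504_91 : StopC par6.d S_132504_91 K_132504_91 := sc_132504_90.cons [2, 4, 0, 5, 3, 1] 82265 (by decide)

theorem sc_132504_92 : StopC par6.d S_132504_92 K_132504_92 := sc_132504_91.cons [5, 0, 4, 2, 1, 3] 166027 (by decide)

theorem sc_132504_93 : StopC par6.d S_132504_93 K_132504_93 := sc_132504_92.cons [5, 4, 2, 1, 3, 0] 181336 (by decide)

theorem sc_132504_94 : StopC par6.d S_132504_94 K_132504_94 := sc_132504_93.cons [5, 1, 3, 0, 4, 2] 169506 (by decide)

theorem sc_132504_95 : StopC par6.d S_132504_95 K_132504_95 := sc_132504_94.cons [5, 3, 0, 4, 2, 1] 176401 (by decide)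

theorem sc_132504_96 : StopC par6.d S_132504_96 K_132504_96 := sc_132504_95.cons [3, 5, 0, 2, 4, 1] 118945 (by decide)

theorem sc_132504_97 : StopC par6.d S_132504_97 K_132504_97 := sc_132504_96.cons [4, 2, 0, 3, 5, 1] 139497 (by decide)

theorem sc_132504_98 : StopC par6.d S_132504_98 K_132504_98 := sc_132504_97.cons [5, 2, 1, 3, 0, 4] 172740 (by decide)

theorem sc_132504_99 : StopC par6.d S_132504_99 K_132504_99 := sc_132504_98.cons [1, 3, 5, 2, 4, 0] 47776 (by decide)

theorem sc_132504_100 : StopC par6.d S_132504_100 K_132504_100 := sc_132504_99.cons [3, 5, 2, 4, 1, 0] 120072 (by decide)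

theorem sc_132504_101 : StopC par6.d S_132504_101 K_132504_101 := sc_132504_100.cons [4, 1, 3, 5, 2, 0] 137040 (by decide)

theorem sc_132504_102 : StopC par6.d S_132504_102 K_132504_102 := sc_132504_101.cons [5, 2, 4, 1, 3, 0] 174168 (by decide)

theorem sc_132504_103 : StopC par6.d S_132504_103 K_132504_103 := sc_132504_102.cons [2, 4, 1, 3, 5, 0] 82664 (by decide)

theorem sc_132504_104 : StopC par6.d S_132504_104 K_132504_104 := sc_132504_103.cons [3, 5, 1, 4, 0, 2] 119554 (by decide)

theorem sc_132504_105 : StopC par6.d S_132504_105 K_132504_105 := sc_132504_104.cons [3, 5, 4, 0, 2, 1] 120849 (by decide)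

theorem sc_132504_106 : StopC par6.d S_132504_106 K_132504_106 := sc_132504_105.cons [5, 4, 1, 3, 0, 2] 180930 (by decide)

theorem sc_132504_107 : StopC par6.d S_132504_107 K_132504_107 := sc_132504_106.cons [4, 3, 1, 5, 0, 2] 144194 (by decide)

theorem sc_132504_108 : StopC par6.d S_132504_108 K_132504_108 := sc_132504_107.cons [4, 3, 1, 5, 2, 0] 144208 (by decide)

theorem sc_132504_109 : StopC par6.d S_132504_109 K_132504_109 := sc_132504_108.cons [5, 1, 3, 0, 2, 4] 169492 (by decide)

theorem sc_132504_110 : StopC par6.d S_132504_110 K_132504_110 := sc_132504_109.cons [5, 3, 0, 2, 4, 1] 176289 (by decide)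

theorem sc_132504_111 : StopC par6.d S_132504_111 K_132504_111 := sc_132504_110.cons [1, 5, 2, 4, 3, 0] 54552 (by decide)

theorem sc_132504_112 : StopC par6.d S_132504_112 K_132504_112 := sc_132504_111.cons [5, 4, 1, 3, 2, 0] 180944 (by decide)

theorem sc_132504_113 : StopC par6.d S_132504_113 K_132504_113 := sc_132504_112.cons [2, 4, 0, 5, 1, 3] 82251 (by decide)

theorem sc_132504_114 : StopC par6.d S_132504_114 K_132504_114 := sc_132504_113.cons [2, 5, 0, 4, 1, 3] 86283 (by decide)

theorem sc_132504_115 : StopC par6.d S_132504_115 K_132504_115 := sc_132504_114.cons [2, 5, 4, 1, 3, 0] 88152 (by decide)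

theorem sc_132504_116 : StopC par6.d S_132504_116 K_132504_116 := sc_132504_115.cons [2, 5, 1, 3, 0, 4] 86724 (by decide)

theorem sc_132504_117 : StopC par6.d S_132504_117 K_132504_117 := sc_132504_116.cons [2, 5, 3, 0, 4, 1] 87585 (by decide)

theorem sc_132504_118 : StopC par6.d S_132504_118 K_132504_118 := sc_132504_117.cons [5, 0, 3, 1, 4, 2] 165474 (by decide)

theorem sc_132504_119 : StopC par6.d S_132504_119 K_132504_119 := sc_132504_118.cons [5, 1, 4, 2, 0, 3] 170115 (by decide)

theorem sc_132504_120 : StopC par6.d S_132504_120 K_132504_120 := sc_132504_119.cons [5, 3, 1, 4, 2, 0] 176912 (by decide)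

theorem sc_132504_121 : StopC par6.d S_132504_121 K_132504_121 := sc_132504_120.cons [5, 4, 2, 0, 3, 1] 181273 (by decide)

theorem sc_132504_122 : StopC par6.d S_132504_122 K_132504_122 := sc_132504_121.cons [5, 2, 0, 3, 1, 4] 172236 (by decide)

theorem sc_132504_123 : StopC par6.d S_132504_123 K_132504_123 := sc_132504_122.cons [3, 5, 4, 1, 0, 2] 120898 (by decide)

theorem sc_132504_124 : StopC par6.d S_132504_124 K_132504_124 := sc_132504_123.cons [5, 0, 2, 4, 3, 1] 165145 (by decide)

theorem sc_132504_125 : StopC par6.d S_132504_125 K_132504_125 := sc_132504_124.cons [5, 2, 4, 3, 1, 0] 174280 (by decide)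

theorem sc_132504_126 : StopC par6.d S_132504_126 K_132504_126 := sc_132504_125.cons [5, 4, 3, 1, 0, 2] 181826 (by decide)

theorem sc_132504_127 : StopC par6.d S_132504_127 K_132504_127 := sc_132504_126.cons [4, 3, 5, 0, 2, 1] 145937 (by decide)

theorem sc_132504_128 : StopC par6.d S_132504_128 K_132504_128 := sc_132504_127.cons [4, 3, 5, 1, 0, 2] 145986 (by decide)

theorem sc_132504_129 : StopC par6.d S_132504_129 K_132504_129 := sc_132504_128.cons [4, 3, 5, 2, 1, 0] 146056 (by decide)

theorem sc_132504_130 : StopC par6.d S_132504_130 K_132504_130 := sc_132504_129.cons [2, 1, 3, 5, 4, 0] 71520 (by decide)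

theorem sc_132504_131 : StopC par6.d S_132504_131 K_132504_131 := sc_132504_130.cons [3, 2, 4, 0, 5, 1] 108585 (by decide)

theorem sc_132504_132 : StopC par6.d S_132504_132 K_132504_132 := sc_132504_131.cons [3, 2, 4, 1, 5, 0] 108648 (by decide)

theorem sc_132504_133 : StopC par6.d S_132504_133 K_132504_133 := sc_132504_132.cons [5, 1, 0, 2, 4, 3] 168099 (by decide)

theorem sc_132504_134 : StopC par6.d S_132504_134 K_132504_134 := sc_132504_133.cons [5, 3, 1, 0, 2, 4] 176660 (by decide)

theorem sc_124350_0 : StopC par6.d S_124350_0 K_124350_0 := StopC.nil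

theorem sc_124350_1 : StopC par6.d S_124350_1 K_124350_1 := sc_124350_0.cons [2, 5, 1, 0, 3, 4] 86556 (by decide)

theorem sc_124350_2 : StopC par6.d S_124350_2 K_124350_2 := sc_124350_1.cons [2, 5, 0, 3, 4, 1] 86241 (by decide)

theorem sc_124350_3 : StopC par6.d S_124350_3 K_124350_3 := sc_124350_2.cons [3, 2, 0, 4, 5, 1] 106793 (by decide)

theorem sc_124350_4 : StopC par6.d S_124350_4 K_124350_4 := sc_124350_3.cons [2, 5, 4, 1, 0, 3] 88131 (by decide)

theorem sc_124350_5 : StopC par6.d S_124350_5 K_124350_5 := sc_124350_4.cons [4, 3, 0, 5, 2, 1] 143697 (by decide)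

theorem sc_124350_6 : StopC par6.d S_124350_6 K_124350_6 := sc_124350_5.cons [2, 4, 5, 1, 0, 3] 84547 (by decide)

theorem sc_124350_7 : StopC par6.d S_124350_7 K_124350_7 := sc_124350_6.cons [4, 3, 0, 5, 1, 2] 143690 (by decide)

theorem sc_124350_8 : StopC par6.d S_124350_8 K_124350_8 := sc_124350_7.cons [2, 4, 5, 0, 3, 1] 84505 (by decide)

theorem sc_124350_9 : StopC par6.d S_124350_9 K_124350_9 := sc_124350_8.cons [4, 2, 3, 0, 5, 1] 140841 (by decide)

theorem sc_124350_10 : StopC par6.d S_124350_10 K_124350_10 := sc_124350_9.cons [3, 5, 0, 4, 1, 2] 119050 (by decide)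

theorem sc_124350_11 : StopC par6.d S_124350_11 K_124350_11 := sc_124350_10.cons [3, 5, 2, 0, 4, 1] 119841 (by decide)

theorem sc_124350_12 : StopC par6.d S_124350_12 K_124350_12 := sc_124350_11.cons [3, 5, 1, 2, 0, 4] 119428 (by decide)

theorem sc_124350_13 : StopC par6.d S_124350_13 K_124350_13 := sc_124350_12.cons [1, 4, 2, 3, 5, 0] 50408 (by decide)

theorem sc_124350_14 : StopC par6.d S_124350_14 K_124350_14 := sc_124350_13.cons [4, 1, 2, 5, 0, 3] 136515 (by decide)

theorem sc_124350_15 : StopC par6.d S_124350_15 K_124350_15 := sc_124350_14.cons [5, 1, 2, 4, 0, 3] 169219 (by decide)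

theorem sc_124350_16 : StopC par6.d S_124350_16 K_124350_16 := sc_124350_15.cons [5, 3, 1, 2, 4, 0] 176800 (by decide)

theorem sc_124350_17 : StopC par6.d S_124350_17 K_124350_17 := sc_124350_16.cons [4, 2, 5, 1, 3, 0] 141912 (by decide)

theorem sc_124350_18 : StopC par6.d S_124350_18 K_124350_18 := sc_124350_17.cons [2, 5, 3, 4, 1, 0] 87816 (by decide)

theorem sc_124350_19 : StopC par6.d S_124350_19 K_124350_19 := sc_124350_18.cons [3, 1, 4, 5, 2, 0] 104784 (by decide)

theorem sc_124350_20 : StopC par6.d S_124350_20 K_124350_20 := sc_124350_19.cons [1, 3, 4, 2, 5, 0] 47272 (by decide)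

theorem sc_124350_21 : StopC par6.d S_124350_21 K_124350_21 := sc_124350_20.cons [4, 1, 2, 5, 3, 0] 136536 (by decide)

theorem sc_124350_22 : StopC par6.d S_124350_22 K_124350_22 := sc_124350_21.cons [3, 5, 2, 0, 1, 4] 119820 (by decide)

theorem sc_124350_23 : StopC par6.d S_124350_23 K_124350_23 := sc_124350_22.cons [2, 4, 5, 3, 1, 0] 84680 (by decide)

theorem sc_124350_24 : StopC par6.d S_124350_24 K_124350_24 := sc_124350_23.cons [3, 5, 1, 4, 2, 0] 119568 (by decide)

theorem sc_124350_25 : StopC par6.d S_124350_25 K_124350_25 := sc_124350_24.cons [3, 5, 4, 2, 0, 1] 120961 (by decide)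

theorem sc_124350_26 : StopC par6.d S_124350_26 K_124350_26 := sc_124350_25.cons [2, 4, 3, 5, 0, 1] 83777 (by decide)

theorem sc_124350_27 : StopC par6.d S_124350_27 K_124350_27 := sc_124350_26.cons [3, 5, 0, 1, 4, 2] 118882 (by decide)

theorem sc_124350_28 : StopC par6.d S_124350_28 K_124350_28 := sc_124350_27.cons [4, 3, 0, 1, 5, 2] 143466 (by decide)

theorem sc_124350_29 : StopC par6.d S_124350_29 K_124350_29 := sc_124350_28.cons [5, 0, 1, 3, 2, 4] 164564 (by decide)

theorem sc_124350_30 : StopC par6.d S_124350_30 K_124350_30 := sc_124350_29.cons [5, 4, 0, 1, 3, 2] 180314 (by decide)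

theorem sc_124350_31 : StopC par6.d S_124350_31 K_124350_31 := sc_124350_30.cons [4, 2, 5, 3, 0, 1] 142017 (by decide)

theorem sc_124350_32 : StopC par6.d S_124350_32 K_124350_32 := sc_124350_31.cons [4, 2, 5, 0, 1, 3] 141835 (by decide)

theorem sc_124350_33 : StopC par6.d S_124350_33 K_124350_33 := sc_124350_32.cons [5, 2, 4, 0, 1, 3] 174091 (by decide)

theorem sc_124350_34 : StopC par6.d S_124350_34 K_124350_34 := sc_124350_33.cons [1, 3, 2, 4, 5, 0] 46376 (by decide)

theorem sc_124350_35 : StopC par6.d S_124350_35 K_124350_35 := sc_124350_34.cons [2, 4, 3, 5, 1, 0] 83784 (by decide)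

theorem sc_124350_36 : StopC par6.d S_124350_36 K_124350_36 := sc_124350_35.cons [3, 1, 4, 5, 0, 2] 104770 (by decide)

theorem sc_124350_37 : StopC par6.d S_124350_37 K_124350_37 := sc_124350_36.cons [3, 5, 4, 1, 2, 0] 120912 (by decide)

theorem sc_124350_38 : StopC par6.d S_124350_38 K_124350_38 := sc_124350_37.cons [5, 1, 3, 4, 0, 2] 169730 (by decide)

theorem sc_124350_39 : StopC par6.d S_124350_39 K_124350_39 := sc_124350_38.cons [5, 3, 4, 0, 2, 1] 178193 (by decide)

theorem sc_124350_40 : StopC par6.d S_124350_40 K_124350_40 := sc_124350_39.cons [4, 1, 5, 3, 0, 2] 137922 (by decide)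

theorem sc_124350_41 : StopC par6.d S_124350_41 K_124350_41 := sc_124350_40.cons [5, 2, 3, 1, 4, 0] 173664 (by decide)

theorem sc_124350_42 : StopC par6.d S_124350_42 K_124350_42 := sc_124350_41.cons [3, 4, 2, 0, 5, 1] 115753 (by decide)

theorem sc_124350_43 : StopC par6.d S_124350_43 K_124350_43 := sc_124350_42.cons [2, 3, 5, 0, 4, 1] 80417 (by decide)

theorem sc_124350_44 : StopC par6.d S_124350_44 K_124350_44 := sc_124350_43.cons [5, 2, 4, 0, 3, 1] 174105 (by decide)

theorem sc_124350_45 : StopC par6.d S_124350_45 K_124350_45 := sc_124350_44.cons [5, 4, 0, 3, 1, 2] 180426 (by decide)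

theorem sc_124350_46 : StopC par6.d S_124350_46 K_124350_46 := sc_124350_45.cons [5, 0, 3, 1, 2, 4] 165460 (by decide)

theorem sc_124350_47 : StopC par6.d S_124350_47 K_124350_47 := sc_124350_46.cons [2, 3, 5, 1, 0, 4] 80452 (by decide)

theorem sc_124350_48 : StopC par6.d S_124350_48 K_124350_48 := sc_124350_47.cons [4, 5, 0, 2, 1, 3] 151691 (by decide)

theorem sc_124350_49 : StopC par6.d S_124350_49 K_124350_49 := sc_124350_48.cons [5, 4, 0, 2, 1, 3] 180363 (by decide)

theorem sc_124350_50 : StopC par6.d S_124350_50 K_124350_50 := sc_124350_49.cons [5, 0, 2, 1, 3, 4] 164956 (by decide)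

theorem sc_124350_51 : StopC par6.d S_124350_51 K_124350_51 := sc_124350_50.cons [5, 2, 1, 3, 4, 0] 172768 (by decide)

theorem sc_124350_52 : StopC par6.d S_124350_52 K_124350_52 := sc_124350_51.cons [1, 2, 4, 3, 5, 0] 43240 (by decide)

theorem sc_124350_53 : StopC par6.d S_124350_53 K_124350_53 := sc_124350_52.cons [4, 5, 2, 1, 3, 0] 152664 (by decide)

theorem sc_124350_54 : StopC par6.d S_124350_54 K_124350_54 := sc_124350_53.cons [5, 1, 3, 2, 4, 0] 169632 (by decide)

theorem sc_124350_55 : StopC par6.d S_124350_55 K_124350_55 := sc_124350_54.cons [5, 3, 2, 4, 0, 1] 177409 (by decide)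

theorem sc_124350_56 : StopC par6.d S_124350_56 K_124350_56 := sc_124350_55.cons [2, 3, 5, 4, 1, 0] 80648 (by decide)

theorem sc_124350_57 : StopC par6.d S_124350_57 K_124350_57 := sc_124350_56.cons [3, 4, 1, 5, 0, 2] 115522 (by decide)

theorem sc_124350_58 : StopC par6.d S_124350_58 K_124350_58 := sc_124350_57.cons [3, 4, 1, 5, 2, 0] 115536 (by decide)

theorem sc_124350_59 : StopC par6.d S_124350_59 K_124350_59 := sc_124350_58.cons [4, 5, 1, 3, 0, 2] 152258 (by decide)

theorem sc_124350_60 : StopC par6.d S_124350_60 K_124350_60 := sc_124350_59.cons [4, 5, 3, 0, 2, 1] 153105 (by decide)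

theorem sc_124350_61 : StopC par6.d S_124350_61 K_124350_61 := sc_124350_60.cons [5, 3, 1, 4, 0, 2] 176898 (by decide)

theorem sc_124350_62 : StopC par6.d S_124350_62 K_124350_62 := sc_124350_61.cons [4, 1, 5, 0, 2, 3] 137747 (by decide)

theorem sc_124350_63 : StopC par6.d S_124350_63 K_124350_63 := sc_124350_62.cons [4, 1, 5, 2, 3, 0] 137880 (by decide)

theorem sc_124350_64 : StopC par6.d S_124350_64 K_124350_64 := sc_124350_63.cons [5, 1, 4, 0, 2, 3] 170003 (by decide)

theorem sc_124350_65 : StopC par6.d S_124350_65 K_124350_65 := sc_124350_64.cons [5, 4, 0, 2, 3, 1] 180377 (by decide)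

theorem sc_124350_66 : StopC par6.d S_124350_66 K_124350_66 := sc_124350_65.cons [5, 0, 2, 3, 1, 4] 165068 (by decide)

theorem sc_123450_0 : StopC par6.d S_123450_0 K_123450_0 := StopC.nil

theorem sc_123450_1 : StopC par6.d S_123450_1 K_123450_1 := sc_123450_0.cons [1, 2, 3, 4, 5, 0] 42792 (by decide)

theorem sc_123450_2 : StopC par6.d S_123450_2 K_123450_2 := sc_123450_1.cons [5, 1, 2, 3, 4, 0] 169184 (by decide)

theorem sc_123450_3 : StopC par6.d S_123450_3 K_123450_3 := sc_123450_2.cons [4, 5, 1, 2, 3, 0] 152216 (by decide)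

theorem sc_123450_4 : StopC par6.d S_123450_4 K_123450_4 := sc_123450_3.cons [3, 4, 5, 2, 0, 1] 117377 (by decide)

theorem sc_123450_5 : StopC par6.d S_123450_5 K_123450_5 := sc_123450_4.cons [4, 5, 2, 3, 0, 1] 152769 (by decide)

theorem sc_123450_6 : StopC par6.d S_123450_6 K_123450_6 := sc_123450_5.cons [3, 4, 5, 1, 2, 0] 117328 (by decide)

theorem sc_123450_7 : StopC par6.d S_123450_7 K_123450_7 := sc_123450_6.cons [2, 3, 4, 5, 0, 1] 80193 (by decide)

theorem sc_123450_8 : StopC par6.d S_123450_8 K_123450_8 := sc_123450_7.cons [2, 3, 4, 5, 1, 0] 80200 (by decide)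

theorem sc_123450_9 : StopC par6.d S_123450_9 K_123450_9 := sc_123450_8.cons [5, 2, 3, 4, 0, 1] 173825 (by decide)

theorem sc_123450_10 : StopC par6.d S_123450_10 K_123450_10 := sc_123450_9.cons [3, 4, 5, 0, 1, 2] 117258 (by decide)

theorem sc_123450_11 : StopC par6.d S_123450_11 K_123450_11 := sc_123450_10.cons [4, 5, 3, 0, 1, 2] 153098 (by decide)

theorem sc_123450_12 : StopC par6.d S_123450_12 K_123450_12 := sc_123450_11.cons [5, 3, 4, 0, 1, 2] 178186 (by decide)

theorem sc_123450_13 : StopC par6.d S_123450_13 K_123450_13 := sc_123450_12.cons [4, 5, 0, 1, 2, 3] 151635 (by decide)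

theorem sc_123450_14 : StopC par6.d S_123450_14 K_123450_14 := sc_123450_13.cons [5, 4, 0, 1, 2, 3] 180307 (by decide)

theorem sc_123450_15 : StopC par6.d S_123450_15 K_123450_15 := sc_123450_14.cons [5, 0, 1, 2, 3, 4] 164508 (by decide)

theorem sc_123504_0 : StopC par6.d S_123504_0 K_123504_0 := StopC.nil

theorem sc_123504_1 : StopC par6.d S_123504_1 K_123504_1 := sc_123504_0.cons [1, 2, 5, 0, 3, 4] 43548 (by decide)

theorem sc_123504_2 : StopC par6.d S_123504_2 K_123504_2 := sc_123504_1.cons [3, 0, 1, 4, 5, 2] 99114 (by decide)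

theorem sc_123504_3 : StopC par6.d S_123504_3 K_123504_3 := sc_123504_2.cons [1, 2, 5, 4, 0, 3] 43779 (by decide)

theorem sc_123504_4 : StopC par6.d S_123504_4 K_123504_4 := sc_123504_3.cons [4, 0, 1, 5, 3, 2] 131930 (by decide)

theorem sc_123504_5 : StopC par6.d S_123504_5 K_123504_5 := sc_123504_4.cons [1, 2, 4, 5, 0, 3] 43331 (by decide)

theorem sc_123504_6 : StopC par6.d S_123504_6 K_123504_6 := sc_123504_5.cons [4, 0, 1, 5, 2, 3] 131923 (by decide)

theorem sc_123504_7 : StopC par6.d S_123504_7 K_123504_7 := sc_123504_6.cons [1, 5, 0, 2, 3, 4] 53404 (by decide)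

theorem sc_123504_8 : StopC par6.d S_123504_8 K_123504_8 := sc_123504_7.cons [2, 5, 0, 1, 3, 4] 86108 (by decide)

theorem sc_123504_9 : StopC par6.d S_123504_9 K_123504_9 := sc_123504_8.cons [1, 4, 5, 3, 0, 2] 51906 (by decide)

theorem sc_123504_10 : StopC par6.d S_123504_10 K_123504_10 := sc_123504_9.cons [1, 4, 5, 0, 2, 3] 51731 (by decide)

theorem sc_123504_11 : StopC par6.d S_123504_11 K_123504_11 := sc_123504_10.cons [1, 5, 4, 0, 2, 3] 55315 (by decide)

theorem sc_123504_12 : StopC par6.d S_123504_12 K_123504_12 := sc_123504_11.cons [1, 4, 5, 2, 3, 0] 51864 (by decide)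

theorem sc_123504_13 : StopC par6.d S_123504_13 K_123504_13 := sc_123504_12.cons [1, 5, 3, 4, 0, 2] 55042 (by decide)

theorem sc_123504_14 : StopC par6.d S_123504_14 K_123504_14 := sc_123504_13.cons [2, 0, 3, 4, 5, 1] 67369 (by decide)

theorem sc_123504_15 : StopC par6.d S_123504_15 K_123504_15 := sc_123504_14.cons [2, 3, 0, 4, 5, 1] 78121 (by decide)

theorem sc_123504_16 : StopC par6.d S_123504_16 K_123504_16 := sc_123504_15.cons [5, 3, 4, 1, 2, 0] 178256 (by decide)

theorem sc_123504_17 : StopC par6.d S_123504_17 K_123504_17 := sc_123504_16.cons [5, 4, 1, 2, 0, 3] 180867 (by decide)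

theorem sc_123504_18 : StopC par6.d S_123504_18 K_123504_18 := sc_123504_17.cons [5, 1, 2, 0, 3, 4] 168988 (by decide)

theorem sc_123504_19 : StopC par6.d S_123504_19 K_123504_19 := sc_123504_18.cons [5, 2, 0, 3, 4, 1] 172257 (by decide)

theorem sc_123504_20 : StopC par6.d S_123504_20 K_123504_20 := sc_123504_19.cons [5, 0, 3, 4, 1, 2] 165642 (by decide)

theorem sc_123504_21 : StopC par6.d S_123504_21 K_123504_21 := sc_123504_20.cons [4, 2, 3, 5, 1, 0] 141128 (by decide)

theorem sc_123504_22 : StopC par6.d S_123504_22 K_123504_22 := sc_123504_21.cons [2, 5, 1, 3, 4, 0] 86752 (by decide)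

theorem sc_123504_23 : StopC par6.d S_123504_23 K_123504_23 := sc_123504_22.cons [3, 1, 2, 4, 5, 0] 103720 (by decide)

theorem sc_123504_24 : StopC par6.d S_123504_24 K_123504_24 := sc_123504_23.cons [4, 0, 5, 3, 1, 2] 133834 (by decide)

theorem sc_123504_25 : StopC par6.d S_123504_25 K_123504_25 := sc_123504_24.cons [3, 0, 4, 5, 1, 2] 100682 (by decide)

theorem sc_123504_26 : StopC par6.d S_123504_26 K_123504_26 := sc_123504_25.cons [3, 0, 4, 5, 2, 1] 100689 (by decide)

theorem sc_123504_27 : StopC par6.d S_123504_27 K_123504_27 := sc_123504_26.cons [4, 0, 5, 2, 3, 1] 133785 (by decide)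

theorem sc_123504_28 : StopC par6.d S_123504_28 K_123504_28 := sc_123504_27.cons [2, 5, 4, 0, 1, 3] 88075 (by decide)

theorem sc_123504_29 : StopC par6.d S_123504_29 K_123504_29 := sc_123504_28.cons [3, 4, 0, 5, 2, 1] 115025 (by decide)

theorem sc_123504_30 : StopC par6.d S_123504_30 K_123504_30 := sc_123504_29.cons [1, 3, 4, 5, 0, 2] 47426 (by decide)

theorem sc_123504_31 : StopC par6.d S_123504_31 K_123504_31 := sc_123504_30.cons [4, 0, 5, 1, 2, 3] 133715 (by decide)

theorem sc_123504_32 : StopC par6.d S_123504_32 K_123504_32 := sc_123504_31.cons [1, 2, 4, 5, 3, 0] 43352 (by decide)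

theorem sc_123504_33 : StopC par6.d S_123504_33 K_123504_33 := sc_123504_32.cons [4, 2, 3, 5, 0, 1] 141121 (by decide)

theorem sc_123504_34 : StopC par6.d S_123504_34 K_123504_34 := sc_123504_33.cons [3, 5, 2, 4, 0, 1] 120065 (by decide)

theorem sc_123504_35 : StopC par6.d S_123504_35 K_123504_35 := sc_123504_34.cons [2, 4, 5, 0, 1, 3] 84491 (by decide)

theorem sc_123504_36 : StopC par6.d S_123504_36 K_123504_36 := sc_123504_35.cons [2, 4, 5, 3, 0, 1] 84673 (by decide)

theorem sc_123504_37 : StopC par6.d S_123504_37 K_123504_37 := sc_123504_36.cons [5, 1, 3, 4, 2, 0] 169744 (by decide)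

theorem sc_123504_38 : StopC par6.d S_123504_38 K_123504_38 := sc_123504_37.cons [5, 3, 4, 2, 0, 1] 178305 (by decide)

theorem sc_123504_39 : StopC par6.d S_123504_39 K_123504_39 := sc_123504_38.cons [5, 4, 2, 0, 1, 3] 181259 (by decide)

theorem sc_123504_40 : StopC par6.d S_123504_40 K_123504_40 := sc_123504_39.cons [5, 0, 1, 3, 4, 2] 164578 (by decide)

theorem sc_123504_41 : StopC par6.d S_123504_41 K_123504_41 := sc_123504_40.cons [5, 2, 0, 1, 3, 4] 172124 (by decide)

theorem sc_123504_42 : StopC par6.d S_123504_42 K_123504_42 := sc_123504_41.cons [4, 5, 2, 3, 1, 0] 152776 (by decide)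

theorem sc_123504_43 : StopC par6.d S_123504_43 K_123504_43 := sc_123504_42.cons [3, 4, 1, 2, 5, 0] 115368 (by decide)

theorem sc_123504_44 : StopC par6.d S_123504_44 K_123504_44 := sc_123504_43.cons [1, 3, 4, 5, 2, 0] 47440 (by decide)

theorem sc_123504_45 : StopC par6.d S_123504_45 K_123504_45 := sc_123504_44.cons [4, 5, 0, 2, 3, 1] 151705 (by decide)

theorem sc_123504_46 : StopC par6.d S_123504_46 K_123504_46 := sc_123504_45.cons [4, 5, 3, 1, 0, 2] 153154 (by decide)

theorem sc_123504_47 : StopC par6.d S_123504_47 K_123504_47 := sc_123504_46.cons [4, 5, 1, 0, 2, 3] 152083 (by decide)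

theorem sc_123504_48 : StopC par6.d S_123504_48 K_123504_48 := sc_123504_47.cons [4, 1, 2, 3, 5, 0] 136424 (by decide)

theorem sc_123504_49 : StopC par6.d S_123504_49 K_123504_49 := sc_123504_48.cons [5, 0, 2, 3, 4, 1] 165089 (by decide)

theorem sc_123504_50 : StopC par6.d S_123504_50 K_123504_50 := sc_123504_49.cons [5, 2, 3, 4, 1, 0] 173832 (by decide)

theorem sc_123504_51 : StopC par6.d S_123504_51 K_123504_51 := sc_123504_50.cons [5, 3, 4, 1, 0, 2] 178242 (by decide)

theorem sc_123504_52 : StopC par6.d S_123504_52 K_123504_52 := sc_123504_51.cons [5, 4, 1, 0, 2, 3] 180755 (by decide)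

theorem sc_123504_53 : StopC par6.d S_123504_53 K_123504_53 := sc_123504_52.cons [5, 1, 0, 2, 3, 4] 168092 (by decide)

theorem sc_123504_54 : StopC par6.d S_123504_54 K_123504_54 := sc_123504_53.cons [2, 4, 5, 1, 3, 0] 84568 (by decide)

theorem sc_123504_55 : StopC par6.d S_123504_55 K_123504_55 := sc_123504_54.cons [3, 5, 1, 2, 4, 0] 119456 (by decide)

theorem sc_123504_56 : StopC par6.d S_123504_56 K_123504_56 := sc_123504_55.cons [2, 3, 5, 1, 4, 0] 80480 (by decide)

theorem sc_123504_57 : StopC par6.d S_123504_57 K_123504_57 := sc_123504_56.cons [1, 2, 3, 5, 0, 4] 42820 (by decide)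

theorem sc_123504_58 : StopC par6.d S_123504_58 K_123504_58 := sc_123504_57.cons [2, 3, 5, 0, 1, 4] 80396 (by decide)

theorem sc_123504_59 : StopC par6.d S_123504_59 K_123504_59 := sc_123504_58.cons [3, 5, 0, 1, 2, 4] 118868 (by decide)

theorem sc_123504_60 : StopC par6.d S_123504_60 K_123504_60 := sc_123504_59.cons [4, 0, 1, 2, 5, 3] 131755 (by decide)

theorem sc_123504_61 : StopC par6.d S_123504_61 K_123504_61 := sc_123504_60.cons [5, 0, 1, 2, 4, 3] 164515 (by decide)

theorem sc_123504_62 : StopC par6.d S_123504_62 K_123504_62 := sc_123504_61.cons [1, 2, 5, 3, 4, 0] 43744 (by decide)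

theorem sc_123504_63 : StopC par6.d S_123504_63 K_123504_63 := sc_123504_62.cons [5, 1, 4, 2, 3, 0] 170136 (by decide)

theorem sc_123504_64 : StopC par6.d S_123504_64 K_123504_64 := sc_123504_63.cons [4, 5, 1, 2, 0, 3] 152195 (by decide)

theorem sc_123504_65 : StopC par6.d S_123504_65 K_123504_65 := sc_123504_64.cons [4, 5, 3, 1, 2, 0] 153168 (by decide)

theorem sc_123504_66 : StopC par6.d S_123504_66 K_123504_66 := sc_123504_65.cons [3, 4, 2, 5, 1, 0] 116040 (by decide)

theorem sc_123504_67 : StopC par6.d S_123504_67 K_123504_67 := sc_123504_66.cons [2, 3, 1, 4, 5, 0] 78632 (by decide)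

theorem sc_123504_68 : StopC par6.d S_123504_68 K_123504_68 := sc_123504_67.cons [4, 5, 2, 0, 3, 1] 152601 (by decide)

theorem sc_123504_69 : StopC par6.d S_123504_69 K_123504_69 := sc_123504_68.cons [3, 4, 5, 0, 2, 1] 117265 (by decide)

theorem sc_123504_70 : StopC par6.d S_123504_70 K_123504_70 := sc_123504_69.cons [2, 3, 4, 0, 5, 1] 79913 (by decide)

theorem sc_123504_71 : StopC par6.d S_123504_71 K_123504_71 := sc_123504_70.cons [5, 0, 4, 1, 2, 3] 165971 (by decide)

theorem sc_123504_72 : StopC par6.d S_123504_72 K_123504_72 := sc_123504_71.cons [3, 4, 0, 5, 1, 2] 115018 (by decide)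

theorem sc_123504_73 : StopC par6.d S_123504_73 K_123504_73 := sc_123504_72.cons [4, 5, 0, 3, 1, 2] 151754 (by decide)

theorem sc_123504_74 : StopC par6.d S_123504_74 K_123504_74 := sc_123504_73.cons [5, 3, 0, 4, 1, 2] 176394 (by decide)

theorem sc_123504_75 : StopC par6.d S_123504_75 K_123504_75 := sc_123504_74.cons [2, 3, 5, 4, 0, 1] 80641 (by decide)

theorem sc_123504_76 : StopC par6.d S_123504_76 K_123504_76 := sc_123504_75.cons [3, 4, 2, 5, 0, 1] 116033 (by decide)

theorem sc_123504_77 : StopC par6.d S_123504_77 K_123504_77 := sc_123504_76.cons [5, 2, 3, 0, 4, 1] 173601 (by decide)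

theorem sc_123504_78 : StopC par6.d S_123504_78 K_123504_78 := sc_123504_77.cons [5, 2, 4, 3, 0, 1] 174273 (by decide)

theorem sc_123504_79 : StopC par6.d S_123504_79 K_123504_79 := sc_123504_78.cons [3, 5, 4, 0, 1, 2] 120842 (by decide)

theorem sc_123504_80 : StopC par6.d S_123504_80 K_123504_80 := sc_123504_79.cons [5, 4, 3, 0, 1, 2] 181770 (by decide)

theorem sc_123504_81 : StopC par6.d S_123504_81 K_123504_81 := sc_123504_80.cons [5, 3, 0, 1, 2, 4] 176212 (by decide)

theorem sc_123504_82 : StopC par6.d S_123504_82 K_123504_82 := sc_123504_81.cons [4, 3, 5, 0, 1, 2] 145930 (by decide)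

theorem sc_123504_83 : StopC par6.d S_123504_83 K_123504_83 := sc_123504_82.cons [1, 5, 2, 3, 4, 0] 54496 (by decide)

theorem sc_123504_84 : StopC par6.d S_123504_84 K_123504_84 := sc_123504_83.cons [4, 3, 5, 1, 2, 0] 146000 (by decide)

theorem sc_123504_85 : StopC par6.d S_123504_85 K_123504_85 := sc_123504_84.cons [5, 4, 1, 2, 3, 0] 180888 (by decide)

theorem sc_123504_86 : StopC par6.d S_123504_86 K_123504_86 := sc_123504_85.cons [5, 1, 2, 3, 0, 4] 169156 (by decide)

theorem sc_123504_87 : StopC par6.d S_123504_87 K_123504_87 := sc_123504_86.cons [2, 5, 3, 4, 0, 1] 87809 (by decide)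

theorem sc_123504_88 : StopC par6.d S_123504_88 K_123504_88 := sc_123504_87.cons [4, 3, 5, 2, 0, 1] 146049 (by decide)

theorem sc_123504_89 : StopC par6.d S_123504_89 K_123504_89 := sc_123504_88.cons [5, 4, 2, 3, 0, 1] 181441 (by decide)

theorem sc_123504_90 : StopC par6.d S_123504_90 K_123504_90 := sc_123504_89.cons [3, 2, 4, 5, 0, 1] 108865 (by decide)

theorem sc_123504_91 : StopC par6.d S_123504_91 K_123504_91 := sc_123504_90.cons [3, 2, 4, 5, 1, 0] 108872 (by decide)

theorem sc_123504_92 : StopC par6.d S_123504_92 K_123504_92 := sc_123504_91.cons [2, 1, 3, 4, 5, 0] 71464 (by decide)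

theorem sc_123504_93 : StopC par6.d S_123504_93 K_123504_93 := sc_123504_92.cons [5, 2, 3, 0, 1, 4] 173580 (by decide)

theorem sc_123504_94 : StopC par6.d S_123504_94 K_123504_94 := sc_123504_93.cons [1, 2, 3, 5, 4, 0] 42848 (by decide)

theorem sc_123504_95 : StopC par6.d S_123504_95 K_123504_95 := sc_123504_94.cons [5, 1, 2, 4, 3, 0] 169240 (by decide)

theorem sc_123504_96 : StopC par6.d S_123504_96 K_123504_96 := sc_123504_95.cons [3, 4, 0, 1, 5, 2] 114794 (by decide)

theorem sc_123504_97 : StopC par6.d S_123504_97 K_123504_97 := sc_123504_96.cons [5, 0, 1, 4, 2, 3] 164627 (by decide)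

theorem sc_123504_98 : StopC par6.d S_123504_98 K_123504_98 := sc_123504_97.cons [5, 3, 0, 1, 4, 2] 176226 (by decide)

theorem sc_123504_99 : StopC par6.d S_123504_99 K_123504_99 := sc_123504_98.cons [3, 4, 5, 1, 0, 2] 117314 (by decide)

theorem sc_123504_100 : StopC par6.d S_123504_100 K_123504_100 := sc_123504_99.cons [3, 4, 5, 2, 1, 0] 117384 (by decide)

theorem sc_123504_101 : StopC par6.d S_123504_101 K_123504_101 := sc_123504_100.cons [2, 3, 4, 1, 5, 0] 79976 (by decide)

theorem sc_123504_102 : StopC par6.d S_123504_102 K_123504_102 := sc_123504_101.cons [4, 5, 0, 1, 3, 2] 151642 (by decide)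

theorem sc_123504_103 : StopC par6.d S_123504_103 K_123504_103 := sc_123504_102.cons [4, 5, 1, 3, 2, 0] 152272 (by decide)

theorem sc_123504_104 : StopC par6.d S_123504_104 K_123504_104 := sc_123504_103.cons [4, 5, 2, 0, 1, 3] 152587 (by decide)

theorem sc_123504_105 : StopC par6.d S_123504_105 K_123504_105 := sc_123504_104.cons [4, 5, 3, 2, 0, 1] 153217 (by decide)

end Pool.Agent.RTX
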