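import Pool.Agent.RTX.C6G
import Pool.Agent.RTX.C6_0
import Pool.Agent.RTX.C6_1
import Pool.Agent.RTX.C6_2
import Pool.Agent.RTX.C6_3
import Pool.Agent.RTX.C6_4
import Pool.Agent.RTX.C6_5
import Pool.Agent.RTX.C6_6
import Pool.Agent.RTX.C6_7
import Pool.Agent.RTX.C6_8
import Pool.Agent.RTX.C6_9
import Pool.Agent.RTX.C6_10
import Pool.Agent.RTX.C6_11
import Pool.Agent.RTX.C6_12
import Pool.Agent.RTX.C6_13
import Pool.Agent.RTX.C6_14

/-!
# RTX: the certified lists of vertices for `d = 6`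
-/

set_option autoImplicit false
set_option maxRecDepth 100000

namespace Pool.Agent.RTX

theorem gd_130524_0 : Good par6 S_130524_0 (rows0 par6.d [1, 3, 0, 5, 2, 4]) (gold1 par6 (rows0 par6.d [1, 3, 0, 5, 2, 4])) [] :=
  (g6c sc_130524_0 x_130524_0_0)

theorem cf_130524_1 : Cfd2 par6 S_130524_1 := Cfd2.cons _ _ Cfd2.nil gd_130524_0

theorem gd_130524_1 : Good par6 S_130524_1 (rows0 par6.d [1, 3, 0, 5, 4, 2]) (gold1 par6 (rows0 par6.d [1, 3, 0, 5, 4, 2])) [] :=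
  (g6c sc_130524_1 x_130524_1_0)

theorem cf_130524_2 : Cfd2 par6 S_130524_2 := Cfd2.cons _ _ cf_130524_1 gd_130524_1

theorem gd_130524_2 : Good par6 S_130524_2 (rows0 par6.d [1, 5, 0, 4, 3, 2]) (gold1 par6 (rows0 par6.d [1, 5, 0, 4, 3, 2])) [] :=
  (g6c sc_130524_2 x_130524_2_0)

theorem cf_130524_3 : Cfd2 par6 S_130524_3 := Cfd2.cons _ _ cf_130524_2 gd_130524_2

theorem gd_130524_3 : Good par6 S_130524_3 (rows0 par6.d [1, 4, 0, 3, 5, 2]) (gold1 par6 (rows0 par6.d [1, 4, 0, 3, 5, 2])) [] :=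
  (g6c sc_130524_3 x_130524_3_0)

theorem cf_130524_4 : Cfd2 par6 S_130524_4 := Cfd2.cons _ _ cf_130524_3 gd_130524_3

theorem gd_130524_4 : Good par6 S_130524_4 (rows0 par6.d [2, 1, 4, 0, 5, 3]) (gold1 par6 (rows0 par6.d [2, 1, 4, 0, 5, 3])) [] :=
  (g6c sc_130524_4 x_130524_4_0)

theorem cf_130524_5 : Cfd2 par6 S_130524_5 := Cfd2.cons _ _ cf_130524_4 gd_130524_4

theorem gd_130524_5 : Good par6 S_130524_5 (rows0 par6.d [2, 1, 5, 0, 4, 3]) (gold1 par6 (rows0 par6.d [2, 1, 5, 0, 4, 3])) [] :=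
  (g6c sc_130524_5 x_130524_5_0)

theorem cf_130524_6 : Cfd2 par6 S_130524_6 := Cfd2.cons _ _ cf_130524_5 gd_130524_5

theorem gd_130524_6 : Good par6 S_130524_6 (rows0 par6.d [1, 4, 2, 0, 5, 3]) (gold1 par6 (rows0 par6.d [1, 4, 2, 0, 5, 3])) [] :=
  (g6c sc_130524_6 x_130524_6_0)

theorem cf_130524_7 : Cfd2 par6 S_130524_7 := Cfd2.cons _ _ cf_130524_6 gd_130524_6

theorem gd_130524_7 : Good par6 S_130524_7 (rows0 par6.d [1, 5, 2, 0, 4, 3]) (gold1 par6 (rows0 par6.d [1, 5, 2, 0, 4, 3])) [] :=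
  (g6c sc_130524_7 x_130524_7_0)

theorem cf_130524_8 : Cfd2 par6 S_130524_8 := Cfd2.cons _ _ cf_130524_7 gd_130524_7

theorem gd_130524_8 : Good par6 S_130524_8 (rows0 par6.d [3, 1, 0, 5, 2, 4]) (gold1 par6 (rows0 par6.d [3, 1, 0, 5, 2, 4])) [] :=
  (g6c sc_130524_8 x_130524_8_0)

theorem cf_130524_9 : Cfd2 par6 S_130524_9 := Cfd2.cons _ _ cf_130524_8 gd_130524_8

theorem gd_130524_9 : Good par6 S_130524_9 (rows0 par6.d [3, 1, 0, 5, 4, 2]) (gold1 par6 (rows0 par6.d [3, 1, 0, 5, 4, 2])) [] :=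
  (g6c sc_130524_9 x_130524_9_0)

theorem cf_130524_10 : Cfd2 par6 S_130524_10 := Cfd2.cons _ _ cf_130524_9 gd_130524_9

theorem gd_130524_10 : Good par6 S_130524_10 (rows0 par6.d [1, 5, 3, 2, 0, 4]) (gold1 par6 (rows0 par6.d [1, 5, 3, 2, 0, 4])) [] :=
  (g6c sc_130524_10 x_130524_10_0)

theorem cf_130524_11 : Cfd2 par6 S_130524_11 := Cfd2.cons _ _ cf_130524_10 gd_130524_10

theorem gd_130524_11 : Good par6 S_130524_11 (rows0 par6.d [2, 0, 4, 1, 5, 3]) (gold1 par6 (rows0 par6.d [2, 0, 4, 1, 5, 3])) [] :=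
  (g6c sc_130524_11 x_130524_11_0)

theorem cf_130524_12 : Cfd2 par6 S_130524_12 := Cfd2.cons _ _ cf_130524_11 gd_130524_11

theorem gd_130524_12 : Good par6 S_130524_12 (rows0 par6.d [2, 0, 5, 1, 4, 3]) (gold1 par6 (rows0 par6.d [2, 0, 5, 1, 4, 3])) [] :=
  (g6c sc_130524_12 x_130524_12_0)

theorem cf_130524_13 : Cfd2 par6 S_130524_13 := Cfd2.cons _ _ cf_130524_12 gd_130524_12

theorem gd_130524_13 : Good par6 S_130524_13 (rows0 par6.d [2, 0, 5, 4, 3, 1]) (gold1 par6 (rows0 par6.d [2, 0, 5, 4, 3, 1])) [] :=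
  (g6c sc_130524_13 x_130524_13_0)

theorem cf_130524_14 : Cfd2 par6 S_130524_14 := Cfd2.cons _ _ cf_130524_13 gd_130524_13

theorem gd_130524_14 : Good par6 S_130524_14 (rows0 par6.d [2, 0, 5, 3, 1, 4]) (gold1 par6 (rows0 par6.d [2, 0, 5, 3, 1, 4])) [] :=
  (g6c sc_130524_14 x_130524_14_0)

theorem cf_130524_15 : Cfd2 par6 S_130524_15 := Cfd2.cons _ _ cf_130524_14 gd_130524_14

theorem gd_130524_15 : Good par6 S_130524_15 (rows0 par6.d [1, 5, 4, 3, 2, 0]) (gold1 par6 (rows0 par6.d [1, 5, 4, 3, 2, 0])) [] :=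
  (g6c sc_130524_15 x_130524_15_0)

theorem cf_130524_16 : Cfd2 par6 S_130524_16 := Cfd2.cons _ _ cf_130524_15 gd_130524_15

theorem gd_130524_16 : Good par6 S_130524_16 (rows0 par6.d [4, 2, 1, 0, 5, 3]) (gold1 par6 (rows0 par6.d [4, 2, 1, 0, 5, 3])) [] :=
  (g6c sc_130524_16 x_130524_16_0)

theorem cf_130524_17 : Cfd2 par6 S_130524_17 := Cfd2.cons _ _ cf_130524_16 gd_130524_16

theorem gd_130524_17 : Good par6 S_130524_17 (rows0 par6.d [5, 0, 4, 3, 2, 1]) (gold1 par6 (rows0 par6.d [5, 0, 4, 3, 2, 1])) [] :=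
  (g6c sc_130524_17 x_130524_17_0)

theorem cf_130524_18 : Cfd2 par6 S_130524_18 := Cfd2.cons _ _ cf_130524_17 gd_130524_17

theorem gd_130524_18 : Good par6 S_130524_18 (rows0 par6.d [5, 4, 3, 2, 1, 0]) (gold1 par6 (rows0 par6.d [5, 4, 3, 2, 1, 0])) [] :=
  (g6c sc_130524_18 x_130524_18_0)

theorem cf_130524_19 : Cfd2 par6 S_130524_19 := Cfd2.cons _ _ cf_130524_18 gd_130524_18

theorem gd_130524_19 : Good par6 S_130524_19 (rows0 par6.d [4, 0, 3, 2, 5, 1]) (gold1 par6 (rows0 par6.d [4, 0, 3, 2, 5, 1])) [] :=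
  (g6c sc_130524_19 x_130524_19_0)

theorem cf_130524_20 : Cfd2 par6 S_130524_20 := Cfd2.cons _ _ cf_130524_19 gd_130524_19

theorem gd_130524_20 : Good par6 S_130524_20 (rows0 par6.d [4, 3, 2, 1, 5, 0]) (gold1 par6 (rows0 par6.d [4, 3, 2, 1, 5, 0])) [] :=
  (g6c sc_130524_20 x_130524_20_0)

theorem cf_130524_21 : Cfd2 par6 S_130524_21 := Cfd2.cons _ _ cf_130524_20 gd_130524_20

theorem gd_130524_21 : Good par6 S_130524_21 (rows0 par6.d [5, 1, 0, 4, 3, 2]) (gold1 par6 (rows0 par6.d [5, 1, 0, 4, 3, 2])) [] :=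
  (g6c sc_130524_21 x_130524_21_0)

theorem cf_130524_22 : Cfd2 par6 S_130524_22 := Cfd2.cons _ _ cf_130524_21 gd_130524_21

theorem gd_130524_22 : Good par6 S_130524_22 (rows0 par6.d [4, 1, 0, 3, 5, 2]) (gold1 par6 (rows0 par6.d [4, 1, 0, 3, 5, 2])) [] :=
  (g6c sc_130524_22 x_130524_22_0)

theorem cf_130524_23 : Cfd2 par6 S_130524_23 := Cfd2.cons _ _ cf_130524_22 gd_130524_22

theorem gd_130524_23 : Good par6 S_130524_23 (rows0 par6.d [5, 2, 1, 0, 4, 3]) (gold1 par6 (rows0 par6.d [5, 2, 1, 0, 4, 3])) [] :=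
  (g6c sc_130524_23 x_130524_23_0)

theorem cf_130524_24 : Cfd2 par6 S_130524_24 := Cfd2.cons _ _ cf_130524_23 gd_130524_23

theorem gd_130524_24 : Good par6 S_130524_24 (rows0 par6.d [5, 3, 2, 1, 0, 4]) (gold1 par6 (rows0 par6.d [5, 3, 2, 1, 0, 4])) [] :=
  (g6c sc_130524_24 x_130524_24_0)

theorem cf_130524_25 : Cfd2 par6 S_130524_25 := Cfd2.cons _ _ cf_130524_24 gd_130524_24

theorem gd_130524_25 : Good par6 S_130524_25 (rows0 par6.d [2, 1, 5, 4, 3, 0]) (gold1 par6 (rows0 par6.d [2, 1, 5, 4, 3, 0])) [] :=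
  (g6c sc_130524_25 x_130524_25_0)

theorem cf_130524_26 : Cfd2 par6 S_130524_26 := Cfd2.cons _ _ cf_130524_25 gd_130524_25

theorem gd_130524_26 : Good par6 S_130524_26 (rows0 par6.d [2, 1, 5, 3, 0, 4]) (gold1 par6 (rows0 par6.d [2, 1, 5, 3, 0, 4])) [] :=
  (g6c sc_130524_26 x_130524_26_0)

theorem cf_130524_27 : Cfd2 par6 S_130524_27 := Cfd2.cons _ _ cf_130524_26 gd_130524_26

theorem gd_130524_27 : Good par6 S_130524_27 (rows0 par6.d [3, 0, 2, 5, 1, 4]) (gold1 par6 (rows0 par6.d [3, 0, 2, 5, 1, 4])) [] :=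
  (g6c sc_130524_27 x_130524_27_0)

theorem cf_130524_28 : Cfd2 par6 S_130524_28 := Cfd2.cons _ _ cf_130524_27 gd_130524_27

theorem gd_130524_28 : Good par6 S_130524_28 (rows0 par6.d [3, 0, 2, 5, 4, 1]) (gold1 par6 (rows0 par6.d [3, 0, 2, 5, 4, 1])) [] :=
  (g6c sc_130524_28 x_130524_28_0)

theorem cf_130524_29 : Cfd2 par6 S_130524_29 := Cfd2.cons _ _ cf_130524_28 gd_130524_28

theorem gd_130524_29 : Good par6 S_130524_29 (rows0 par6.d [3, 2, 1, 5, 0, 4]) (gold1 par6 (rows0 par6.d [3, 2, 1, 5, 0, 4])) [] :=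
  (g6c sc_130524_29 x_130524_29_0)

theorem cf_130524_30 : Cfd2 par6 S_130524_30 := Cfd2.cons _ _ cf_130524_29 gd_130524_29

theorem gd_130524_30 : Good par6 S_130524_30 (rows0 par6.d [3, 2, 1, 5, 4, 0]) (gold1 par6 (rows0 par6.d [3, 2, 1, 5, 4, 0])) [] :=
  (g6c sc_130524_30 x_130524_30_0)

theorem cf_130524_31 : Cfd2 par6 S_130524_31 := Cfd2.cons _ _ cf_130524_30 gd_130524_30

theorem gd_143250_0 : Good par6 S_143250_0 (rows0 par6.d [2, 4, 1, 0, 5, 3]) (gold1 par6 (rows0 par6.d [2, 4, 1, 0, 5, 3])) [] :=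
  (g6c sc_143250_0 x_143250_0_0)

theorem cf_143250_1 : Cfd2 par6 S_143250_1 := Cfd2.cons _ _ Cfd2.nil gd_143250_0

theorem gd_143250_1 : Good par6 S_143250_1 (rows0 par6.d [3, 2, 0, 5, 1, 4]) (gold1 par6 (rows0 par6.d [3, 2, 0, 5, 1, 4])) [] :=
  (g6c sc_143250_1 x_143250_1_0)

theorem cf_143250_2 : Cfd2 par6 S_143250_2 := Cfd2.cons _ _ cf_143250_1 gd_143250_1

theorem gd_143250_2 : Good par6 S_143250_2 (rows0 par6.d [2, 5, 1, 0, 4, 3]) (gold1 par6 (rows0 par6.d [2, 5, 1, 0, 4, 3])) [] :=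
  (g6c sc_143250_2 x_143250_2_0)

theorem cf_143250_3 : Cfd2 par6 S_143250_3 := Cfd2.cons _ _ cf_143250_2 gd_143250_2

theorem gd_143250_3 : Good par6 S_143250_3 (rows0 par6.d [2, 5, 0, 4, 3, 1]) (gold1 par6 (rows0 par6.d [2, 5, 0, 4, 3, 1])) [] :=
  (g6c sc_143250_3 x_143250_3_0)

theorem cf_143250_4 : Cfd2 par6 S_143250_4 := Cfd2.cons _ _ cf_143250_3 gd_143250_3

theorem gd_143250_4 : Good par6 S_143250_4 (rows0 par6.d [3, 2, 0, 5, 4, 1]) (gold1 par6 (rows0 par6.d [3, 2, 0, 5, 4, 1])) [] :=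
  (g6c sc_143250_4 x_143250_4_0)

theorem cf_143250_5 : Cfd2 par6 S_143250_5 := Cfd2.cons _ _ cf_143250_4 gd_143250_4

theorem gd_143250_5 : Good par6 S_143250_5 (rows0 par6.d [2, 5, 3, 1, 0, 4]) (gold1 par6 (rows0 par6.d [2, 5, 3, 1, 0, 4])) [] :=
  (g6c sc_143250_5 x_143250_5_0)

theorem cf_143250_6 : Cfd2 par6 S_143250_6 := Cfd2.cons _ _ cf_143250_5 gd_143250_5

theorem gd_143250_6 : Good par6 S_143250_6 (rows0 par6.d [4, 3, 0, 2, 5, 1]) (gold1 par6 (rows0 par6.d [4, 3, 0, 2, 5, 1])) [] :=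
  (g6c sc_143250_6 x_143250_6_0)

theorem cf_143250_7 : Cfd2 par6 S_143250_7 := Cfd2.cons _ _ cf_143250_6 gd_143250_6

theorem gd_143250_7 : Good par6 S_143250_7 (rows0 par6.d [1, 4, 3, 2, 5, 0]) (gold1 par6 (rows0 par6.d [1, 4, 3, 2, 5, 0])) [] :=
  (g6c sc_143250_7 x_143250_7_0)

theorem cf_143250_8 : Cfd2 par6 S_143250_8 := Cfd2.cons _ _ cf_143250_7 gd_143250_7

theorem gd_143250_8 : Good par6 S_143250_8 (rows0 par6.d [4, 1, 3, 0, 5, 2]) (gold1 par6 (rows0 par6.d [4, 1, 3, 0, 5, 2])) [] :=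
  (g6c sc_143250_8 x_143250_8_0)

theorem cf_143250_9 : Cfd2 par6 S_143250_9 := Cfd2.cons _ _ cf_143250_8 gd_143250_8

theorem gd_143250_9 : Good par6 S_143250_9 (rows0 par6.d [2, 5, 4, 3, 1, 0]) (gold1 par6 (rows0 par6.d [2, 5, 4, 3, 1, 0])) [] :=
  (g6c sc_143250_9 x_143250_9_0)

theorem cf_143250_10 : Cfd2 par6 S_143250_10 := Cfd2.cons _ _ cf_143250_9 gd_143250_9

theorem gd_143250_10 : Good par6 S_143250_10 (rows0 par6.d [3, 1, 5, 0, 4, 2]) (gold1 par6 (rows0 par6.d [3, 1, 5, 0, 4, 2])) [] :=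
  (g6c sc_143250_10 x_143250_10_0)

theorem cf_143250_11 : Cfd2 par6 S_143250_11 := Cfd2.cons _ _ cf_143250_10 gd_143250_10

theorem gd_143250_11 : Good par6 S_143250_11 (rows0 par6.d [5, 0, 3, 2, 1, 4]) (gold1 par6 (rows0 par6.d [5, 0, 3, 2, 1, 4])) [] :=
  (g6c sc_143250_11 x_143250_11_0)

theorem cf_143250_12 : Cfd2 par6 S_143250_12 := Cfd2.cons _ _ cf_143250_11 gd_143250_11

theorem gd_143250_12 : Good par6 S_143250_12 (rows0 par6.d [5, 3, 2, 1, 4, 0]) (gold1 par6 (rows0 par6.d [5, 3, 2, 1, 4, 0])) [] :=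
  (g6c sc_143250_12 x_143250_12_0)

theorem cf_143250_13 : Cfd2 par6 S_143250_13 := Cfd2.cons _ _ cf_143250_12 gd_143250_12

theorem gd_143250_13 : Good par6 S_143250_13 (rows0 par6.d [3, 1, 5, 4, 2, 0]) (gold1 par6 (rows0 par6.d [3, 1, 5, 4, 2, 0])) [] :=
  (g6c sc_143250_13 x_143250_13_0)

theorem cf_143250_14 : Cfd2 par6 S_143250_14 := Cfd2.cons _ _ cf_143250_13 gd_143250_13

theorem gd_143250_14 : Good par6 S_143250_14 (rows0 par6.d [3, 1, 5, 2, 0, 4]) (gold1 par6 (rows0 par6.d [3, 1, 5, 2, 0, 4])) [] :=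
  (g6c sc_143250_14 x_143250_14_0)

theorem cf_143250_15 : Cfd2 par6 S_143250_15 := Cfd2.cons _ _ cf_143250_14 gd_143250_14

theorem gd_143250_15 : Good par6 S_143250_15 (rows0 par6.d [4, 2, 1, 5, 0, 3]) (gold1 par6 (rows0 par6.d [4, 2, 1, 5, 0, 3])) [] :=
  (g6c sc_143250_15 x_143250_15_0)

theorem cf_143250_16 : Cfd2 par6 S_143250_16 := Cfd2.cons _ _ cf_143250_15 gd_143250_15

theorem gd_143250_16 : Good par6 S_143250_16 (rows0 par6.d [4, 2, 1, 5, 3, 0]) (gold1 par6 (rows0 par6.d [4, 2, 1, 5, 3, 0])) [] :=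
  (g6c sc_143250_16 x_143250_16_0)

theorem cf_143250_17 : Cfd2 par6 S_143250_17 := Cfd2.cons _ _ cf_143250_16 gd_143250_16

theorem gd_143250_17 : Good par6 S_143250_17 (rows0 par6.d [5, 1, 4, 0, 3, 2]) (gold1 par6 (rows0 par6.d [5, 1, 4, 0, 3, 2])) [] :=
  (g6c sc_143250_17 x_143250_17_0)

theorem cf_143250_18 : Cfd2 par6 S_143250_18 := Cfd2.cons _ _ cf_143250_17 gd_143250_17

theorem gd_143250_18 : Good par6 S_143250_18 (rows0 par6.d [5, 2, 1, 4, 0, 3]) (gold1 par6 (rows0 par6.d [5, 2, 1, 4, 0, 3])) [] :=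
  (g6c sc_143250_18 x_143250_18_0)

theorem cf_143250_19 : Cfd2 par6 S_143250_19 := Cfd2.cons _ _ cf_143250_18 gd_143250_18

theorem gd_143250_19 : Good par6 S_143250_19 (rows0 par6.d [5, 4, 0, 3, 2, 1]) (gold1 par6 (rows0 par6.d [5, 4, 0, 3, 2, 1])) [] :=
  (g6c sc_143250_19 x_143250_19_0)

theorem cf_143250_20 : Cfd2 par6 S_143250_20 := Cfd2.cons _ _ cf_143250_19 gd_143250_19

theorem gd_124053_0 : Good par6 S_124053_0 (rows0 par6.d [1, 2, 4, 0, 5, 3]) (gold1 par6 (rows0 par6.d [1, 2, 4, 0, 5, 3])) [] :=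
  (g6c sc_124053_0 x_124053_0_0)

theorem cf_124053_1 : Cfd2 par6 S_124053_1 := Cfd2.cons _ _ Cfd2.nil gd_124053_0

theorem gd_124053_1 : Good par6 S_124053_1 (rows0 par6.d [1, 2, 5, 0, 4, 3]) (gold1 par6 (rows0 par6.d [1, 2, 5, 0, 4, 3])) [] :=
  (g6c sc_124053_1 x_124053_1_0)

theorem cf_124053_2 : Cfd2 par6 S_124053_2 := Cfd2.cons _ _ cf_124053_1 gd_124053_1

theorem gd_124053_2 : Good par6 S_124053_2 (rows0 par6.d [2, 0, 5, 1, 3, 4]) (gold1 par6 (rows0 par6.d [2, 0, 5, 1, 3, 4])) [] :=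
  (g6c sc_124053_2 x_124053_2_0)

theorem cf_124053_3 : Cfd2 par6 S_124053_3 := Cfd2.cons _ _ cf_124053_2 gd_124053_2

theorem gd_124053_3 : Good par6 S_124053_3 (rows0 par6.d [2, 0, 5, 3, 4, 1]) (gold1 par6 (rows0 par6.d [2, 0, 5, 3, 4, 1])) [] :=
  (g6c sc_124053_3 x_124053_3_0)

theorem cf_124053_4 : Cfd2 par6 S_124053_4 := Cfd2.cons _ _ cf_124053_3 gd_124053_3

theorem gd_124053_4 : Good par6 S_124053_4 (rows0 par6.d [2, 0, 5, 4, 1, 3]) (gold1 par6 (rows0 par6.d [2, 0, 5, 4, 1, 3])) [] :=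
  (g6c sc_124053_4 x_124053_4_0)

theorem cf_124053_5 : Cfd2 par6 S_124053_5 := Cfd2.cons _ _ cf_124053_4 gd_124053_4

theorem gd_124053_5 : Good par6 S_124053_5 (rows0 par6.d [3, 1, 0, 4, 5, 2]) (gold1 par6 (rows0 par6.d [3, 1, 0, 4, 5, 2])) [] :=
  (g6c sc_124053_5 x_124053_5_0)

theorem cf_124053_6 : Cfd2 par6 S_124053_6 := Cfd2.cons _ _ cf_124053_5 gd_124053_5

theorem gd_124053_6 : Good par6 S_124053_6 (rows0 par6.d [4, 1, 0, 5, 3, 2]) (gold1 par6 (rows0 par6.d [4, 1, 0, 5, 3, 2])) [] :=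
  (g6c sc_124053_6 x_124053_6_0)

theorem cf_124053_7 : Cfd2 par6 S_124053_7 := Cfd2.cons _ _ cf_124053_6 gd_124053_6

theorem gd_124053_7 : Good par6 S_124053_7 (rows0 par6.d [3, 0, 1, 5, 2, 4]) (gold1 par6 (rows0 par6.d [3, 0, 1, 5, 2, 4])) [] :=
  (g6c sc_124053_7 x_124053_7_0)

theorem cf_124053_8 : Cfd2 par6 S_124053_8 := Cfd2.cons _ _ cf_124053_7 gd_124053_7

theorem gd_124053_8 : Good par6 S_124053_8 (rows0 par6.d [3, 0, 1, 5, 4, 2]) (gold1 par6 (rows0 par6.d [3, 0, 1, 5, 4, 2])) [] :=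
  (g6c sc_124053_8 x_124053_8_0)

theorem cf_124053_9 : Cfd2 par6 S_124053_9 := Cfd2.cons _ _ cf_124053_8 gd_124053_8

theorem gd_124053_9 : Good par6 S_124053_9 (rows0 par6.d [2, 0, 4, 5, 1, 3]) (gold1 par6 (rows0 par6.d [2, 0, 4, 5, 1, 3])) [] :=
  (g6c sc_124053_9 x_124053_9_0)

theorem cf_124053_10 : Cfd2 par6 S_124053_10 := Cfd2.cons _ _ cf_124053_9 gd_124053_9

theorem gd_124053_10 : Good par6 S_124053_10 (rows0 par6.d [2, 0, 4, 5, 3, 1]) (gold1 par6 (rows0 par6.d [2, 0, 4, 5, 3, 1])) [] :=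
  (g6c sc_124053_10 x_124053_10_0)

theorem cf_124053_11 : Cfd2 par6 S_124053_11 := Cfd2.cons _ _ cf_124053_10 gd_124053_10

theorem gd_124053_11 : Good par6 S_124053_11 (rows0 par6.d [4, 1, 0, 5, 2, 3]) (gold1 par6 (rows0 par6.d [4, 1, 0, 5, 2, 3])) [] :=
  (g6c sc_124053_11 x_124053_11_0)

theorem cf_124053_12 : Cfd2 par6 S_124053_12 := Cfd2.cons _ _ cf_124053_11 gd_124053_11

theorem gd_124053_12 : Good par6 S_124053_12 (rows0 par6.d [1, 3, 0, 4, 5, 2]) (gold1 par6 (rows0 par6.d [1, 3, 0, 4, 5, 2])) [] :=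
  (g6c sc_124053_12 x_124053_12_0)

theorem cf_124053_13 : Cfd2 par6 S_124053_13 := Cfd2.cons _ _ cf_124053_12 gd_124053_12

theorem gd_124053_13 : Good par6 S_124053_13 (rows0 par6.d [1, 5, 0, 3, 4, 2]) (gold1 par6 (rows0 par6.d [1, 5, 0, 3, 4, 2])) [] :=
  (g6c sc_124053_13 x_124053_13_0)

theorem cf_124053_14 : Cfd2 par6 S_124053_14 := Cfd2.cons _ _ cf_124053_13 gd_124053_13

theorem gd_124053_14 : Good par6 S_124053_14 (rows0 par6.d [1, 4, 0, 5, 3, 2]) (gold1 par6 (rows0 par6.d [1, 4, 0, 5, 3, 2])) [] :=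
  (g6c sc_124053_14 x_124053_14_0)

theorem cf_124053_15 : Cfd2 par6 S_124053_15 := Cfd2.cons _ _ cf_124053_14 gd_124053_14

theorem gd_124053_15 : Good par6 S_124053_15 (rows0 par6.d [2, 1, 5, 0, 3, 4]) (gold1 par6 (rows0 par6.d [2, 1, 5, 0, 3, 4])) [] :=
  (g6c sc_124053_15 x_124053_15_0)

theorem cf_124053_16 : Cfd2 par6 S_124053_16 := Cfd2.cons _ _ cf_124053_15 gd_124053_15

theorem gd_124053_16 : Good par6 S_124053_16 (rows0 par6.d [2, 1, 5, 4, 0, 3]) (gold1 par6 (rows0 par6.d [2, 1, 5, 4, 0, 3])) [] :=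
  (g6c sc_124053_16 x_124053_16_0)

theorem cf_124053_17 : Cfd2 par6 S_124053_17 := Cfd2.cons _ _ cf_124053_16 gd_124053_16

theorem gd_124053_17 : Good par6 S_124053_17 (rows0 par6.d [1, 5, 2, 0, 3, 4]) (gold1 par6 (rows0 par6.d [1, 5, 2, 0, 3, 4])) [] :=
  (g6c sc_124053_17 x_124053_17_0)

theorem cf_124053_18 : Cfd2 par6 S_124053_18 := Cfd2.cons _ _ cf_124053_17 gd_124053_17

theorem gd_124053_18 : Good par6 S_124053_18 (rows0 par6.d [1, 5, 4, 2, 0, 3]) (gold1 par6 (rows0 par6.d [1, 5, 4, 2, 0, 3])) [] :=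
  (g6c sc_124053_18 x_124053_18_0)

theorem cf_124053_19 : Cfd2 par6 S_124053_19 := Cfd2.cons _ _ cf_124053_18 gd_124053_18

theorem gd_124053_19 : Good par6 S_124053_19 (rows0 par6.d [1, 4, 0, 5, 2, 3]) (gold1 par6 (rows0 par6.d [1, 4, 0, 5, 2, 3])) [] :=
  (g6c sc_124053_19 x_124053_19_0)

theorem cf_124053_20 : Cfd2 par6 S_124053_20 := Cfd2.cons _ _ cf_124053_19 gd_124053_19

theorem gd_124053_20 : Good par6 S_124053_20 (rows0 par6.d [1, 5, 0, 4, 2, 3]) (gold1 par6 (rows0 par6.d [1, 5, 0, 4, 2, 3])) [] :=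
  (g6c sc_124053_20 x_124053_20_0)

theorem cf_124053_21 : Cfd2 par6 S_124053_21 := Cfd2.cons _ _ cf_124053_20 gd_124053_20

theorem gd_124053_21 : Good par6 S_124053_21 (rows0 par6.d [3, 0, 2, 4, 5, 1]) (gold1 par6 (rows0 par6.d [3, 0, 2, 4, 5, 1])) [] :=
  (g6c sc_124053_21 x_124053_21_0)

theorem cf_124053_22 : Cfd2 par6 S_124053_22 := Cfd2.cons _ _ cf_124053_21 gd_124053_21

theorem gd_124053_22 : Good par6 S_124053_22 (rows0 par6.d [4, 0, 3, 5, 2, 1]) (gold1 par6 (rows0 par6.d [4, 0, 3, 5, 2, 1])) [] :=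
  (g6c sc_124053_22 x_124053_22_0)

theorem cf_124053_23 : Cfd2 par6 S_124053_23 := Cfd2.cons _ _ cf_124053_22 gd_124053_22

theorem gd_124053_23 : Good par6 S_124053_23 (rows0 par6.d [2, 1, 4, 5, 0, 3]) (gold1 par6 (rows0 par6.d [2, 1, 4, 5, 0, 3])) [] :=
  (g6c sc_124053_23 x_124053_23_0)

theorem cf_124053_24 : Cfd2 par6 S_124053_24 := Cfd2.cons _ _ cf_124053_23 gd_124053_23

theorem gd_124053_24 : Good par6 S_124053_24 (rows0 par6.d [1, 5, 3, 0, 4, 2]) (gold1 par6 (rows0 par6.d [1, 5, 3, 0, 4, 2])) [] :=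
  (g6c sc_124053_24 x_124053_24_0)

theorem cf_124053_25 : Cfd2 par6 S_124053_25 := Cfd2.cons _ _ cf_124053_24 gd_124053_24

theorem gd_124053_25 : Good par6 S_124053_25 (rows0 par6.d [1, 3, 4, 0, 5, 2]) (gold1 par6 (rows0 par6.d [1, 3, 4, 0, 5, 2])) [] :=
  (g6c sc_124053_25 x_124053_25_0)

theorem cf_124053_26 : Cfd2 par6 S_124053_26 := Cfd2.cons _ _ cf_124053_25 gd_124053_25

theorem gd_124053_26 : Good par6 S_124053_26 (rows0 par6.d [1, 4, 5, 0, 3, 2]) (gold1 par6 (rows0 par6.d [1, 4, 5, 0, 3, 2])) [] :=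
  (g6c sc_124053_26 x_124053_26_0)

theorem cf_124053_27 : Cfd2 par6 S_124053_27 := Cfd2.cons _ _ cf_124053_26 gd_124053_26

theorem gd_124053_27 : Good par6 S_124053_27 (rows0 par6.d [4, 0, 2, 3, 5, 1]) (gold1 par6 (rows0 par6.d [4, 0, 2, 3, 5, 1])) [] :=
  (g6c sc_124053_27 x_124053_27_0)

theorem cf_124053_28 : Cfd2 par6 S_124053_28 := Cfd2.cons _ _ cf_124053_27 gd_124053_27

theorem gd_124053_28 : Good par6 S_124053_28 (rows0 par6.d [3, 0, 5, 2, 4, 1]) (gold1 par6 (rows0 par6.d [3, 0, 5, 2, 4, 1])) [] :=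
  (g6c sc_124053_28 x_124053_28_0)

theorem cf_124053_29 : Cfd2 par6 S_124053_29 := Cfd2.cons _ _ cf_124053_28 gd_124053_28

theorem gd_124053_29 : Good par6 S_124053_29 (rows0 par6.d [3, 0, 5, 1, 2, 4]) (gold1 par6 (rows0 par6.d [3, 0, 5, 1, 2, 4])) [] :=
  (g6c sc_124053_29 x_124053_29_0)

theorem cf_124053_30 : Cfd2 par6 S_124053_30 := Cfd2.cons _ _ cf_124053_29 gd_124053_29

theorem gd_124053_30 : Good par6 S_124053_30 (rows0 par6.d [1, 5, 2, 3, 0, 4]) (gold1 par6 (rows0 par6.d [1, 5, 2, 3, 0, 4])) [] :=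
  (g6c sc_124053_30 x_124053_30_0)

theorem cf_124053_31 : Cfd2 par6 S_124053_31 := Cfd2.cons _ _ cf_124053_30 gd_124053_30

theorem gd_124053_31 : Good par6 S_124053_31 (rows0 par6.d [3, 0, 5, 4, 1, 2]) (gold1 par6 (rows0 par6.d [3, 0, 5, 4, 1, 2])) [] :=
  (g6c sc_124053_31 x_124053_31_0)

theorem cf_124053_32 : Cfd2 par6 S_124053_32 := Cfd2.cons _ _ cf_124053_31 gd_124053_31

theorem gd_124053_32 : Good par6 S_124053_32 (rows0 par6.d [1, 2, 5, 3, 0, 4]) (gold1 par6 (rows0 par6.d [1, 2, 5, 3, 0, 4])) [] :=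
  (g6c sc_124053_32 x_124053_32_0)

theorem cf_124053_33 : Cfd2 par6 S_124053_33 := Cfd2.cons _ _ cf_124053_32 gd_124053_32

theorem gd_124053_33 : Good par6 S_124053_33 (rows0 par6.d [4, 0, 1, 3, 5, 2]) (gold1 par6 (rows0 par6.d [4, 0, 1, 3, 5, 2])) [] :=
  (g6c sc_124053_33 x_124053_33_0)

theorem cf_124053_34 : Cfd2 par6 S_124053_34 := Cfd2.cons _ _ cf_124053_33 gd_124053_33

theorem gd_124053_34 : Good par6 S_124053_34 (rows0 par6.d [1, 5, 4, 2, 3, 0]) (gold1 par6 (rows0 par6.d [1, 5, 4, 2, 3, 0])) [] :=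
  (g6c sc_124053_34 x_124053_34_0)

theorem cf_124053_35 : Cfd2 par6 S_124053_35 := Cfd2.cons _ _ cf_124053_34 gd_124053_34

theorem gd_124053_35 : Good par6 S_124053_35 (rows0 par6.d [4, 1, 2, 0, 5, 3]) (gold1 par6 (rows0 par6.d [4, 1, 2, 0, 5, 3])) [] :=
  (g6c sc_124053_35 x_124053_35_0)

theorem cf_124053_36 : Cfd2 par6 S_124053_36 := Cfd2.cons _ _ cf_124053_35 gd_124053_35

theorem gd_124053_36 : Good par6 S_124053_36 (rows0 par6.d [1, 2, 5, 4, 3, 0]) (gold1 par6 (rows0 par6.d [1, 2, 5, 4, 3, 0])) [] :=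
  (g6c sc_124053_36 x_124053_36_0)

theorem cf_124053_37 : Cfd2 par6 S_124053_37 := Cfd2.cons _ _ cf_124053_36 gd_124053_36

theorem gd_124053_37 : Good par6 S_124053_37 (rows0 par6.d [4, 2, 0, 1, 5, 3]) (gold1 par6 (rows0 par6.d [4, 2, 0, 1, 5, 3])) [] :=
  (g6c sc_124053_37 x_124053_37_0)

theorem cf_124053_38 : Cfd2 par6 S_124053_38 := Cfd2.cons _ _ cf_124053_37 gd_124053_37

theorem gd_124053_38 : Good par6 S_124053_38 (rows0 par6.d [5, 0, 1, 4, 3, 2]) (gold1 par6 (rows0 par6.d [5, 0, 1, 4, 3, 2])) [] :=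
  (g6c sc_124053_38 x_124053_38_0)

theorem cf_124053_39 : Cfd2 par6 S_124053_39 := Cfd2.cons _ _ cf_124053_38 gd_124053_38

theorem gd_124053_39 : Good par6 S_124053_39 (rows0 par6.d [5, 1, 4, 3, 2, 0]) (gold1 par6 (rows0 par6.d [5, 1, 4, 3, 2, 0])) [] :=
  (g6c sc_124053_39 x_124053_39_0)

theorem cf_124053_40 : Cfd2 par6 S_124053_40 := Cfd2.cons _ _ cf_124053_39 gd_124053_39

theorem gd_124053_40 : Good par6 S_124053_40 (rows0 par6.d [2, 3, 1, 5, 0, 4]) (gold1 par6 (rows0 par6.d [2, 3, 1, 5, 0, 4])) [] :=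
  (g6c sc_124053_40 x_124053_40_0)

theorem cf_124053_41 : Cfd2 par6 S_124053_41 := Cfd2.cons _ _ cf_124053_40 gd_124053_40

theorem gd_124053_41 : Good par6 S_124053_41 (rows0 par6.d [4, 5, 3, 2, 1, 0]) (gold1 par6 (rows0 par6.d [4, 5, 3, 2, 1, 0])) [] :=
  (g6c sc_124053_41 x_124053_41_0)

theorem cf_124053_42 : Cfd2 par6 S_124053_42 := Cfd2.cons _ _ cf_124053_41 gd_124053_41

theorem gd_124053_42 : Good par6 S_124053_42 (rows0 par6.d [2, 3, 1, 5, 4, 0]) (gold1 par6 (rows0 par6.d [2, 3, 1, 5, 4, 0])) [] :=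
  (g6c sc_124053_42 x_124053_42_0)

theorem cf_124053_43 : Cfd2 par6 S_124053_43 := Cfd2.cons _ _ cf_124053_42 gd_124053_42

theorem gd_124053_43 : Good par6 S_124053_43 (rows0 par6.d [3, 4, 2, 1, 5, 0]) (gold1 par6 (rows0 par6.d [3, 4, 2, 1, 5, 0])) [] :=
  (g6c sc_124053_43 x_124053_43_0)

theorem cf_124053_44 : Cfd2 par6 S_124053_44 := Cfd2.cons _ _ cf_124053_43 gd_124053_43

theorem gd_124053_44 : Good par6 S_124053_44 (rows0 par6.d [4, 5, 2, 1, 0, 3]) (gold1 par6 (rows0 par6.d [4, 5, 2, 1, 0, 3])) [] :=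
  (g6c sc_124053_44 x_124053_44_0)

theorem cf_124053_45 : Cfd2 par6 S_124053_45 := Cfd2.cons _ _ cf_124053_44 gd_124053_44

theorem gd_124053_45 : Good par6 S_124053_45 (rows0 par6.d [5, 0, 4, 2, 3, 1]) (gold1 par6 (rows0 par6.d [5, 0, 4, 2, 3, 1])) [] :=
  (g6c sc_124053_45 x_124053_45_0)

theorem cf_124053_46 : Cfd2 par6 S_124053_46 := Cfd2.cons _ _ cf_124053_45 gd_124053_45

theorem gd_124053_46 : Good par6 S_124053_46 (rows0 par6.d [5, 1, 0, 4, 2, 3]) (gold1 par6 (rows0 par6.d [5, 1, 0, 4, 2, 3])) [] :=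
  (g6c sc_124053_46 x_124053_46_0)

theorem cf_124053_47 : Cfd2 par6 S_124053_47 := Cfd2.cons _ _ cf_124053_46 gd_124053_46

theorem gd_124053_47 : Good par6 S_124053_47 (rows0 par6.d [3, 4, 1, 0, 5, 2]) (gold1 par6 (rows0 par6.d [3, 4, 1, 0, 5, 2])) [] :=
  (g6c sc_124053_47 x_124053_47_0)

theorem cf_124053_48 : Cfd2 par6 S_124053_48 := Cfd2.cons _ _ cf_124053_47 gd_124053_47

theorem gd_124053_48 : Good par6 S_124053_48 (rows0 par6.d [4, 0, 3, 5, 1, 2]) (gold1 par6 (rows0 par6.d [4, 0, 3, 5, 1, 2])) [] :=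
  (g6c sc_124053_48 x_124053_48_0)

theorem cf_124053_49 : Cfd2 par6 S_124053_49 := Cfd2.cons _ _ cf_124053_48 gd_124053_48

theorem gd_124053_49 : Good par6 S_124053_49 (rows0 par6.d [2, 3, 0, 5, 1, 4]) (gold1 par6 (rows0 par6.d [2, 3, 0, 5, 1, 4])) [] :=
  (g6c sc_124053_49 x_124053_49_0)

theorem cf_124053_50 : Cfd2 par6 S_124053_50 := Cfd2.cons _ _ cf_124053_49 gd_124053_49

theorem gd_124053_50 : Good par6 S_124053_50 (rows0 par6.d [2, 3, 0, 5, 4, 1]) (gold1 par6 (rows0 par6.d [2, 3, 0, 5, 4, 1])) [] :=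
  (g6c sc_124053_50 x_124053_50_0)

theorem cf_124053_51 : Cfd2 par6 S_124053_51 := Cfd2.cons _ _ cf_124053_50 gd_124053_50

theorem gd_124053_51 : Good par6 S_124053_51 (rows0 par6.d [5, 0, 4, 3, 1, 2]) (gold1 par6 (rows0 par6.d [5, 0, 4, 3, 1, 2])) [] :=
  (g6c sc_124053_51 x_124053_51_0)

theorem cf_124053_52 : Cfd2 par6 S_124053_52 := Cfd2.cons _ _ cf_124053_51 gd_124053_51

theorem gd_124053_52 : Good par6 S_124053_52 (rows0 par6.d [5, 4, 3, 1, 2, 0]) (gold1 par6 (rows0 par6.d [5, 4, 3, 1, 2, 0])) [] :=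
  (g6c sc_124053_52 x_124053_52_0)

theorem cf_124053_53 : Cfd2 par6 S_124053_53 := Cfd2.cons _ _ cf_124053_52 gd_124053_52

theorem gd_124053_53 : Good par6 S_124053_53 (rows0 par6.d [5, 1, 2, 0, 4, 3]) (gold1 par6 (rows0 par6.d [5, 1, 2, 0, 4, 3])) [] :=
  (g6c sc_124053_53 x_124053_53_0)

theorem cf_124053_54 : Cfd2 par6 S_124053_54 := Cfd2.cons _ _ cf_124053_53 gd_124053_53

theorem gd_124053_54 : Good par6 S_124053_54 (rows0 par6.d [5, 2, 0, 4, 3, 1]) (gold1 par6 (rows0 par6.d [5, 2, 0, 4, 3, 1])) [] :=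
  (g6c sc_124053_54 x_124053_54_0)

theorem cf_124053_55 : Cfd2 par6 S_124053_55 := Cfd2.cons _ _ cf_124053_54 gd_124053_54

theorem gd_124053_55 : Good par6 S_124053_55 (rows0 par6.d [5, 3, 1, 2, 0, 4]) (gold1 par6 (rows0 par6.d [5, 3, 1, 2, 0, 4])) [] :=
  (g6c sc_124053_55 x_124053_55_0)

theorem cf_124053_56 : Cfd2 par6 S_124053_56 := Cfd2.cons _ _ cf_124053_55 gd_124053_55

theorem gd_124053_56 : Good par6 S_124053_56 (rows0 par6.d [3, 4, 0, 2, 5, 1]) (gold1 par6 (rows0 par6.d [3, 4, 0, 2, 5, 1])) [] :=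
  (g6c sc_124053_56 x_124053_56_0)

theorem cf_124053_57 : Cfd2 par6 S_124053_57 := Cfd2.cons _ _ cf_124053_56 gd_124053_56

theorem gd_124053_57 : Good par6 S_124053_57 (rows0 par6.d [4, 5, 0, 3, 2, 1]) (gold1 par6 (rows0 par6.d [4, 5, 0, 3, 2, 1])) [] :=
  (g6c sc_124053_57 x_124053_57_0)

theorem cf_124053_58 : Cfd2 par6 S_124053_58 := Cfd2.cons _ _ cf_124053_57 gd_124053_57

theorem gd_124053_58 : Good par6 S_124053_58 (rows0 par6.d [4, 5, 1, 0, 3, 2]) (gold1 par6 (rows0 par6.d [4, 5, 1, 0, 3, 2])) [] :=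
  (g6c sc_124053_58 x_124053_58_0)

theorem cf_124053_59 : Cfd2 par6 S_124053_59 := Cfd2.cons _ _ cf_124053_58 gd_124053_58

theorem gd_124053_59 : Good par6 S_124053_59 (rows0 par6.d [3, 1, 2, 5, 0, 4]) (gold1 par6 (rows0 par6.d [3, 1, 2, 5, 0, 4])) [] :=
  (g6c sc_124053_59 x_124053_59_0)

theorem cf_124053_60 : Cfd2 par6 S_124053_60 := Cfd2.cons _ _ cf_124053_59 gd_124053_59

theorem gd_124053_60 : Good par6 S_124053_60 (rows0 par6.d [1, 5, 3, 4, 2, 0]) (gold1 par6 (rows0 par6.d [1, 5, 3, 4, 2, 0])) [] :=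
  (g6c sc_124053_60 x_124053_60_0)

theorem cf_124053_61 : Cfd2 par6 S_124053_61 := Cfd2.cons _ _ cf_124053_60 gd_124053_60

theorem gd_124053_61 : Good par6 S_124053_61 (rows0 par6.d [5, 4, 2, 3, 1, 0]) (gold1 par6 (rows0 par6.d [5, 4, 2, 3, 1, 0])) [] :=
  (g6c sc_124053_61 x_124053_61_0)

theorem cf_124053_62 : Cfd2 par6 S_124053_62 := Cfd2.cons _ _ cf_124053_61 gd_124053_61

theorem gd_124053_62 : Good par6 S_124053_62 (rows0 par6.d [4, 3, 1, 2, 5, 0]) (gold1 par6 (rows0 par6.d [4, 3, 1, 2, 5, 0])) [] :=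
  (g6c sc_124053_62 x_124053_62_0)

theorem cf_124053_63 : Cfd2 par6 S_124053_63 := Cfd2.cons _ _ cf_124053_62 gd_124053_62

theorem gd_124053_63 : Good par6 S_124053_63 (rows0 par6.d [5, 2, 3, 1, 0, 4]) (gold1 par6 (rows0 par6.d [5, 2, 3, 1, 0, 4])) [] :=
  (g6c sc_124053_63 x_124053_63_0)

theorem cf_124053_64 : Cfd2 par6 S_124053_64 := Cfd2.cons _ _ cf_124053_63 gd_124053_63

theorem gd_124053_64 : Good par6 S_124053_64 (rows0 par6.d [5, 3, 1, 0, 4, 2]) (gold1 par6 (rows0 par6.d [5, 3, 1, 0, 4, 2])) [] :=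
  (g6c sc_124053_64 x_124053_64_0)

theorem cf_124053_65 : Cfd2 par6 S_124053_65 := Cfd2.cons _ _ cf_124053_64 gd_124053_64

theorem gd_124053_65 : Good par6 S_124053_65 (rows0 par6.d [2, 1, 4, 5, 3, 0]) (gold1 par6 (rows0 par6.d [2, 1, 4, 5, 3, 0])) [] :=
  (g6c sc_124053_65 x_124053_65_0)

theorem cf_124053_66 : Cfd2 par6 S_124053_66 := Cfd2.cons _ _ cf_124053_65 gd_124053_65

theorem gd_124053_66 : Good par6 S_124053_66 (rows0 par6.d [3, 2, 5, 1, 4, 0]) (gold1 par6 (rows0 par6.d [3, 2, 5, 1, 4, 0])) [] :=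
  (g6c sc_124053_66 x_124053_66_0)

theorem cf_124053_67 : Cfd2 par6 S_124053_67 := Cfd2.cons _ _ cf_124053_66 gd_124053_66

theorem gd_124053_67 : Good par6 S_124053_67 (rows0 par6.d [4, 3, 2, 5, 1, 0]) (gold1 par6 (rows0 par6.d [4, 3, 2, 5, 1, 0])) [] :=
  (g6c sc_124053_67 x_124053_67_0)

theorem cf_124053_68 : Cfd2 par6 S_124053_68 := Cfd2.cons _ _ cf_124053_67 gd_124053_67

theorem gd_124053_68 : Good par6 S_124053_68 (rows0 par6.d [2, 1, 5, 3, 4, 0]) (gold1 par6 (rows0 par6.d [2, 1, 5, 3, 4, 0])) [] :=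
  (g6c sc_124053_68 x_124053_68_0)

theorem cf_124053_69 : Cfd2 par6 S_124053_69 := Cfd2.cons _ _ cf_124053_68 gd_124053_68

theorem gd_124053_69 : Good par6 S_124053_69 (rows0 par6.d [3, 2, 1, 4, 5, 0]) (gold1 par6 (rows0 par6.d [3, 2, 1, 4, 5, 0])) [] :=
  (g6c sc_124053_69 x_124053_69_0)

theorem cf_124053_70 : Cfd2 par6 S_124053_70 := Cfd2.cons _ _ cf_124053_69 gd_124053_69

theorem gd_124053_70 : Good par6 S_124053_70 (rows0 par6.d [1, 4, 5, 2, 0, 3]) (gold1 par6 (rows0 par6.d [1, 4, 5, 2, 0, 3])) [] :=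
  (g6c sc_124053_70 x_124053_70_0)

theorem cf_124053_71 : Cfd2 par6 S_124053_71 := Cfd2.cons _ _ cf_124053_70 gd_124053_70

theorem gd_124053_71 : Good par6 S_124053_71 (rows0 par6.d [1, 4, 5, 3, 2, 0]) (gold1 par6 (rows0 par6.d [1, 4, 5, 3, 2, 0])) [] :=
  (g6c sc_124053_71 x_124053_71_0)

theorem cf_124053_72 : Cfd2 par6 S_124053_72 := Cfd2.cons _ _ cf_124053_71 gd_124053_71

theorem gd_124053_72 : Good par6 S_124053_72 (rows0 par6.d [5, 0, 3, 4, 2, 1]) (gold1 par6 (rows0 par6.d [5, 0, 3, 4, 2, 1])) [] :=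
  (g6c sc_124053_72 x_124053_72_0)

theorem cf_124053_73 : Cfd2 par6 S_124053_73 := Cfd2.cons _ _ cf_124053_72 gd_124053_72

theorem gd_124053_73 : Good par6 S_124053_73 (rows0 par6.d [5, 3, 4, 2, 1, 0]) (gold1 par6 (rows0 par6.d [5, 3, 4, 2, 1, 0])) [] :=
  (g6c sc_124053_73 x_124053_73_0)

theorem cf_124053_74 : Cfd2 par6 S_124053_74 := Cfd2.cons _ _ cf_124053_73 gd_124053_73

theorem gd_124053_74 : Good par6 S_124053_74 (rows0 par6.d [5, 4, 2, 1, 0, 3]) (gold1 par6 (rows0 par6.d [5, 4, 2, 1, 0, 3])) [] :=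
  (g6c sc_124053_74 x_124053_74_0)

theorem cf_124053_75 : Cfd2 par6 S_124053_75 := Cfd2.cons _ _ cf_124053_74 gd_124053_74

theorem gd_124053_75 : Good par6 S_124053_75 (rows0 par6.d [3, 1, 2, 5, 4, 0]) (gold1 par6 (rows0 par6.d [3, 1, 2, 5, 4, 0])) [] :=
  (g6c sc_124053_75 x_124053_75_0)

theorem cf_124053_76 : Cfd2 par6 S_124053_76 := Cfd2.cons _ _ cf_124053_75 gd_124053_75

theorem gd_124053_76 : Good par6 S_124053_76 (rows0 par6.d [4, 2, 3, 1, 5, 0]) (gold1 par6 (rows0 par6.d [4, 2, 3, 1, 5, 0])) [] :=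
  (g6c sc_124053_76 x_124053_76_0)

theorem cf_124053_77 : Cfd2 par6 S_124053_77 := Cfd2.cons _ _ cf_124053_76 gd_124053_76

theorem gd_124053_77 : Good par6 S_124053_77 (rows0 par6.d [5, 1, 0, 3, 4, 2]) (gold1 par6 (rows0 par6.d [5, 1, 0, 3, 4, 2])) [] :=
  (g6c sc_124053_77 x_124053_77_0)

theorem cf_124053_78 : Cfd2 par6 S_124053_78 := Cfd2.cons _ _ cf_124053_77 gd_124053_77

theorem gd_124053_78 : Good par6 S_124053_78 (rows0 par6.d [5, 2, 1, 0, 3, 4]) (gold1 par6 (rows0 par6.d [5, 2, 1, 0, 3, 4])) [] :=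
  (g6c sc_124053_78 x_124053_78_0)

theorem cf_124053_79 : Cfd2 par6 S_124053_79 := Cfd2.cons _ _ cf_124053_78 gd_124053_78

theorem gd_124053_79 : Good par6 S_124053_79 (rows0 par6.d [2, 4, 0, 1, 5, 3]) (gold1 par6 (rows0 par6.d [2, 4, 0, 1, 5, 3])) [] :=
  (g6c sc_124053_79 x_124053_79_0)

theorem cf_124053_80 : Cfd2 par6 S_124053_80 := Cfd2.cons _ _ cf_124053_79 gd_124053_79

theorem gd_124053_80 : Good par6 S_124053_80 (rows0 par6.d [2, 5, 0, 1, 4, 3]) (gold1 par6 (rows0 par6.d [2, 5, 0, 1, 4, 3])) [] :=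
  (g6c sc_124053_80 x_124053_80_0)

theorem cf_124053_81 : Cfd2 par6 S_124053_81 := Cfd2.cons _ _ cf_124053_80 gd_124053_80

theorem gd_124053_81 : Good par6 S_124053_81 (rows0 par6.d [2, 5, 1, 4, 3, 0]) (gold1 par6 (rows0 par6.d [2, 5, 1, 4, 3, 0])) [] :=
  (g6c sc_124053_81 x_124053_81_0)

theorem cf_124053_82 : Cfd2 par6 S_124053_82 := Cfd2.cons _ _ cf_124053_81 gd_124053_81

theorem gd_124053_82 : Good par6 S_124053_82 (rows0 par6.d [2, 5, 4, 3, 0, 1]) (gold1 par6 (rows0 par6.d [2, 5, 4, 3, 0, 1])) [] :=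
  (g6c sc_124053_82 x_124053_82_0)

theorem cf_124053_83 : Cfd2 par6 S_124053_83 := Cfd2.cons _ _ cf_124053_82 gd_124053_82

theorem gd_124053_83 : Good par6 S_124053_83 (rows0 par6.d [3, 2, 5, 4, 0, 1]) (gold1 par6 (rows0 par6.d [3, 2, 5, 4, 0, 1])) [] :=
  (g6c sc_124053_83 x_124053_83_0)

theorem cf_124053_84 : Cfd2 par6 S_124053_84 := Cfd2.cons _ _ cf_124053_83 gd_124053_83

theorem gd_124053_84 : Good par6 S_124053_84 (rows0 par6.d [4, 3, 2, 5, 0, 1]) (gold1 par6 (rows0 par6.d [4, 3, 2, 5, 0, 1])) [] :=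
  (g6c sc_124053_84 x_124053_84_0)

theorem cf_124053_85 : Cfd2 par6 S_124053_85 := Cfd2.cons _ _ cf_124053_84 gd_124053_84

theorem gd_124053_85 : Good par6 S_124053_85 (rows0 par6.d [5, 4, 3, 2, 0, 1]) (gold1 par6 (rows0 par6.d [5, 4, 3, 2, 0, 1])) [] :=
  (g6c sc_124053_85 x_124053_85_0)

theorem cf_124053_86 : Cfd2 par6 S_124053_86 := Cfd2.cons _ _ cf_124053_85 gd_124053_85

theorem gd_124053_86 : Good par6 S_124053_86 (rows0 par6.d [2, 5, 3, 0, 1, 4]) (gold1 par6 (rows0 par6.d [2, 5, 3, 0, 1, 4])) [] :=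
  (g6c sc_124053_86 x_124053_86_0)

theorem cf_124053_87 : Cfd2 par6 S_124053_87 := Cfd2.cons _ _ cf_124053_86 gd_124053_86

theorem gd_124053_87 : Good par6 S_124053_87 (rows0 par6.d [3, 2, 5, 0, 1, 4]) (gold1 par6 (rows0 par6.d [3, 2, 5, 0, 1, 4])) [] :=
  (g6c sc_124053_87 x_124053_87_0)

theorem cf_124053_88 : Cfd2 par6 S_124053_88 := Cfd2.cons _ _ cf_124053_87 gd_124053_87

theorem gd_124053_88 : Good par6 S_124053_88 (rows0 par6.d [5, 2, 0, 1, 4, 3]) (gold1 par6 (rows0 par6.d [5, 2, 0, 1, 4, 3])) [] :=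
  (g6c sc_124053_88 x_124053_88_0)

theorem cf_124053_89 : Cfd2 par6 S_124053_89 := Cfd2.cons _ _ cf_124053_88 gd_124053_88

theorem gd_124053_89 : Good par6 S_124053_89 (rows0 par6.d [5, 3, 2, 0, 1, 4]) (gold1 par6 (rows0 par6.d [5, 3, 2, 0, 1, 4])) [] :=
  (g6c sc_124053_89 x_124053_89_0)

theorem cf_124053_90 : Cfd2 par6 S_124053_90 := Cfd2.cons _ _ cf_124053_89 gd_124053_89

theorem gd_132504_0 : Good par6 S_132504_0 (rows0 par6.d [1, 4, 0, 2, 5, 3]) (gold1 par6 (rows0 par6.d [1, 4, 0, 2, 5, 3])) [] :=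
  (g6c sc_132504_0 x_132504_0_0)

theorem cf_132504_1 : Cfd2 par6 S_132504_1 := Cfd2.cons _ _ Cfd2.nil gd_132504_0

theorem gd_132504_1 : Good par6 S_132504_1 (rows0 par6.d [2, 0, 3, 5, 1, 4]) (gold1 par6 (rows0 par6.d [2, 0, 3, 5, 1, 4])) [] :=
  (g6c sc_132504_1 x_132504_1_0)

theorem cf_132504_2 : Cfd2 par6 S_132504_2 := Cfd2.cons _ _ cf_132504_1 gd_132504_1

theorem gd_132504_2 : Good par6 S_132504_2 (rows0 par6.d [1, 5, 0, 2, 4, 3]) (gold1 par6 (rows0 par6.d [1, 5, 0, 2, 4, 3])) [] :=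
  (g6c sc_132504_2 x_132504_2_0)

theorem cf_132504_3 : Cfd2 par6 S_132504_3 := Cfd2.cons _ _ cf_132504_2 gd_132504_2

theorem gd_132504_3 : Good par6 S_132504_3 (rows0 par6.d [2, 0, 3, 5, 4, 1]) (gold1 par6 (rows0 par6.d [2, 0, 3, 5, 4, 1])) [] :=
  (g6c sc_132504_3 x_132504_3_0)

theorem cf_132504_4 : Cfd2 par6 S_132504_4 := Cfd2.cons _ _ cf_132504_3 gd_132504_3

theorem gd_132504_4 : Good par6 S_132504_4 (rows0 par6.d [1, 5, 3, 0, 2, 4]) (gold1 par6 (rows0 par6.d [1, 5, 3, 0, 2, 4])) [] :=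
  (g6c sc_132504_4 x_132504_4_0)

theorem cf_132504_5 : Cfd2 par6 S_132504_5 := Cfd2.cons _ _ cf_132504_4 gd_132504_4

theorem gd_132504_5 : Good par6 S_132504_5 (rows0 par6.d [3, 0, 4, 2, 5, 1]) (gold1 par6 (rows0 par6.d [3, 0, 4, 2, 5, 1])) [] :=
  (g6c sc_132504_5 x_132504_5_0)

theorem cf_132504_6 : Cfd2 par6 S_132504_6 := Cfd2.cons _ _ cf_132504_5 gd_132504_5

theorem gd_132504_6 : Good par6 S_132504_6 (rows0 par6.d [1, 5, 4, 3, 0, 2]) (gold1 par6 (rows0 par6.d [1, 5, 4, 3, 0, 2])) [] :=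
  (g6c sc_132504_6 x_132504_6_0)

theorem cf_132504_7 : Cfd2 par6 S_132504_7 := Cfd2.cons _ _ cf_132504_6 gd_132504_6

theorem gd_132504_7 : Good par6 S_132504_7 (rows0 par6.d [4, 0, 5, 3, 2, 1]) (gold1 par6 (rows0 par6.d [4, 0, 5, 3, 2, 1])) [] :=
  (g6c sc_132504_7 x_132504_7_0)

theorem cf_132504_8 : Cfd2 par6 S_132504_8 := Cfd2.cons _ _ cf_132504_7 gd_132504_7

theorem gd_132504_8 : Good par6 S_132504_8 (rows0 par6.d [1, 4, 3, 0, 5, 2]) (gold1 par6 (rows0 par6.d [1, 4, 3, 0, 5, 2])) [] :=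
  (g6c sc_132504_8 x_132504_8_0)

theorem cf_132504_9 : Cfd2 par6 S_132504_9 := Cfd2.cons _ _ cf_132504_8 gd_132504_8

theorem gd_132504_9 : Good par6 S_132504_9 (rows0 par6.d [3, 0, 5, 2, 1, 4]) (gold1 par6 (rows0 par6.d [3, 0, 5, 2, 1, 4])) [] :=
  (g6c sc_132504_9 x_132504_9_0)

theorem cf_132504_10 : Cfd2 par6 S_132504_10 := Cfd2.cons _ _ cf_132504_9 gd_132504_9

theorem gd_132504_10 : Good par6 S_132504_10 (rows0 par6.d [2, 1, 3, 5, 0, 4]) (gold1 par6 (rows0 par6.d [2, 1, 3, 5, 0, 4])) [] :=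
  (g6c sc_132504_10 x_132504_10_0)

theorem cf_132504_11 : Cfd2 par6 S_132504_11 := Cfd2.cons _ _ cf_132504_10 gd_132504_10

theorem gd_132504_11 : Good par6 S_132504_11 (rows0 par6.d [4, 1, 0, 2, 5, 3]) (gold1 par6 (rows0 par6.d [4, 1, 0, 2, 5, 3])) [] :=
  (g6c sc_132504_11 x_132504_11_0)

theorem cf_132504_12 : Cfd2 par6 S_132504_12 := Cfd2.cons _ _ cf_132504_11 gd_132504_11

theorem gd_132504_12 : Good par6 S_132504_12 (rows0 par6.d [1, 5, 0, 3, 2, 4]) (gold1 par6 (rows0 par6.d [1, 5, 0, 3, 2, 4])) [] :=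
  (g6c sc_132504_12 x_132504_12_0)

theorem cf_132504_13 : Cfd2 par6 S_132504_13 := Cfd2.cons _ _ cf_132504_12 gd_132504_12

theorem gd_132504_13 : Good par6 S_132504_13 (rows0 par6.d [2, 0, 4, 3, 5, 1]) (gold1 par6 (rows0 par6.d [2, 0, 4, 3, 5, 1])) [] :=
  (g6c sc_132504_13 x_132504_13_0)

theorem cf_132504_14 : Cfd2 par6 S_132504_14 := Cfd2.cons _ _ cf_132504_13 gd_132504_13

theorem gd_132504_14 : Good par6 S_132504_14 (rows0 par6.d [1, 5, 4, 0, 3, 2]) (gold1 par6 (rows0 par6.d [1, 5, 4, 0, 3, 2])) [] :=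
  (g6c sc_132504_14 x_132504_14_0)

theorem cf_132504_15 : Cfd2 par6 S_132504_15 := Cfd2.cons _ _ cf_132504_14 gd_132504_14

theorem gd_132504_15 : Good par6 S_132504_15 (rows0 par6.d [3, 0, 5, 4, 2, 1]) (gold1 par6 (rows0 par6.d [3, 0, 5, 4, 2, 1])) [] :=
  (g6c sc_132504_15 x_132504_15_0)

theorem cf_132504_16 : Cfd2 par6 S_132504_16 := Cfd2.cons _ _ cf_132504_15 gd_132504_15

theorem gd_132504_16 : Good par6 S_132504_16 (rows0 par6.d [1, 3, 5, 0, 4, 2]) (gold1 par6 (rows0 par6.d [1, 3, 5, 0, 4, 2])) [] :=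
  (g6c sc_132504_16 x_132504_16_0)

theorem cf_132504_17 : Cfd2 par6 S_132504_17 := Cfd2.cons _ _ cf_132504_16 gd_132504_16

theorem gd_132504_17 : Good par6 S_132504_17 (rows0 par6.d [3, 0, 5, 1, 4, 2]) (gold1 par6 (rows0 par6.d [3, 0, 5, 1, 4, 2])) [] :=
  (g6c sc_132504_17 x_132504_17_0)

theorem cf_132504_18 : Cfd2 par6 S_132504_18 := Cfd2.cons _ _ cf_132504_17 gd_132504_17

theorem gd_132504_18 : Good par6 S_132504_18 (rows0 par6.d [1, 3, 5, 0, 2, 4]) (gold1 par6 (rows0 par6.d [1, 3, 5, 0, 2, 4])) [] :=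
  (g6c sc_132504_18 x_132504_18_0)

theorem cf_132504_19 : Cfd2 par6 S_132504_19 := Cfd2.cons _ _ cf_132504_18 gd_132504_18

theorem gd_132504_19 : Good par6 S_132504_19 (rows0 par6.d [3, 2, 5, 1, 0, 4]) (gold1 par6 (rows0 par6.d [3, 2, 5, 1, 0, 4])) [] :=
  (g6c sc_132504_19 x_132504_19_0)

theorem cf_132504_20 : Cfd2 par6 S_132504_20 := Cfd2.cons _ _ cf_132504_19 gd_132504_19

theorem gd_132504_20 : Good par6 S_132504_20 (rows0 par6.d [4, 0, 2, 1, 5, 3]) (gold1 par6 (rows0 par6.d [4, 0, 2, 1, 5, 3])) [] :=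
  (g6c sc_132504_20 x_132504_20_0)

theorem cf_132504_21 : Cfd2 par6 S_132504_21 := Cfd2.cons _ _ cf_132504_20 gd_132504_20

theorem gd_132504_21 : Good par6 S_132504_21 (rows0 par6.d [3, 2, 5, 0, 4, 1]) (gold1 par6 (rows0 par6.d [3, 2, 5, 0, 4, 1])) [] :=
  (g6c sc_132504_21 x_132504_21_0)

theorem cf_132504_22 : Cfd2 par6 S_132504_22 := Cfd2.cons _ _ cf_132504_21 gd_132504_21

theorem gd_132504_22 : Good par6 S_132504_22 (rows0 par6.d [2, 5, 0, 3, 1, 4]) (gold1 par6 (rows0 par6.d [2, 5, 0, 3, 1, 4])) [] :=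
  (g6c sc_132504_22 x_132504_22_0)

theorem cf_132504_23 : Cfd2 par6 S_132504_23 := Cfd2.cons _ _ cf_132504_22 gd_132504_22

theorem gd_132504_23 : Good par6 S_132504_23 (rows0 par6.d [1, 5, 2, 4, 0, 3]) (gold1 par6 (rows0 par6.d [1, 5, 2, 4, 0, 3])) [] :=
  (g6c sc_132504_23 x_132504_23_0)

theorem cf_132504_24 : Cfd2 par6 S_132504_24 := Cfd2.cons _ _ cf_132504_23 gd_132504_23

theorem gd_132504_24 : Good par6 S_132504_24 (rows0 par6.d [1, 4, 2, 5, 0, 3]) (gold1 par6 (rows0 par6.d [1, 4, 2, 5, 0, 3])) [] :=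
  (g6c sc_132504_24 x_132504_24_0)

theorem cf_132504_25 : Cfd2 par6 S_132504_25 := Cfd2.cons _ _ cf_132504_24 gd_132504_24

theorem gd_132504_25 : Good par6 S_132504_25 (rows0 par6.d [2, 5, 4, 0, 3, 1]) (gold1 par6 (rows0 par6.d [2, 5, 4, 0, 3, 1])) [] :=
  (g6c sc_132504_25 x_132504_25_0)

theorem cf_132504_26 : Cfd2 par6 S_132504_26 := Cfd2.cons _ _ cf_132504_25 gd_132504_25

theorem gd_132504_26 : Good par6 S_132504_26 (rows0 par6.d [4, 3, 2, 0, 5, 1]) (gold1 par6 (rows0 par6.d [4, 3, 2, 0, 5, 1])) [] :=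
  (g6c sc_132504_26 x_132504_26_0)

theorem cf_132504_27 : Cfd2 par6 S_132504_27 := Cfd2.cons _ _ cf_132504_26 gd_132504_26

theorem gd_132504_27 : Good par6 S_132504_27 (rows0 par6.d [5, 0, 2, 1, 4, 3]) (gold1 par6 (rows0 par6.d [5, 0, 2, 1, 4, 3])) [] :=
  (g6c sc_132504_27 x_132504_27_0)

theorem cf_132504_28 : Cfd2 par6 S_132504_28 := Cfd2.cons _ _ cf_132504_27 gd_132504_27

theorem gd_132504_28 : Good par6 S_132504_28 (rows0 par6.d [5, 3, 0, 2, 1, 4]) (gold1 par6 (rows0 par6.d [5, 3, 0, 2, 1, 4])) [] :=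
  (g6c sc_132504_28 x_132504_28_0)

theorem cf_132504_29 : Cfd2 par6 S_132504_29 := Cfd2.cons _ _ cf_132504_28 gd_132504_28

theorem gd_132504_29 : Good par6 S_132504_29 (rows0 par6.d [1, 5, 3, 2, 4, 0]) (gold1 par6 (rows0 par6.d [1, 5, 3, 2, 4, 0])) [] :=
  (g6c sc_132504_29 x_132504_29_0)

theorem cf_132504_30 : Cfd2 par6 S_132504_30 := Cfd2.cons _ _ cf_132504_29 gd_132504_29

theorem gd_132504_30 : Good par6 S_132504_30 (rows0 par6.d [3, 1, 4, 0, 5, 2]) (gold1 par6 (rows0 par6.d [3, 1, 4, 0, 5, 2])) [] :=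
  (g6c sc_132504_30 x_132504_30_0)

theorem cf_132504_31 : Cfd2 par6 S_132504_31 := Cfd2.cons _ _ cf_132504_30 gd_132504_30

theorem gd_132504_31 : Good par6 S_132504_31 (rows0 par6.d [4, 1, 5, 0, 3, 2]) (gold1 par6 (rows0 par6.d [4, 1, 5, 0, 3, 2])) [] :=
  (g6c sc_132504_31 x_132504_31_0)

theorem cf_132504_32 : Cfd2 par6 S_132504_32 := Cfd2.cons _ _ cf_132504_31 gd_132504_31

theorem gd_132504_32 : Good par6 S_132504_32 (rows0 par6.d [1, 3, 2, 5, 0, 4]) (gold1 par6 (rows0 par6.d [1, 3, 2, 5, 0, 4])) [] :=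
  (g6c sc_132504_32 x_132504_32_0)

theorem cf_132504_33 : Cfd2 par6 S_132504_33 := Cfd2.cons _ _ cf_132504_32 gd_132504_32

theorem gd_132504_33 : Good par6 S_132504_33 (rows0 par6.d [3, 5, 2, 1, 0, 4]) (gold1 par6 (rows0 par6.d [3, 5, 2, 1, 0, 4])) [] :=
  (g6c sc_132504_33 x_132504_33_0)

theorem cf_132504_34 : Cfd2 par6 S_132504_34 := Cfd2.cons _ _ cf_132504_33 gd_132504_33

theorem gd_132504_34 : Good par6 S_132504_34 (rows0 par6.d [3, 5, 1, 0, 4, 2]) (gold1 par6 (rows0 par6.d [3, 5, 1, 0, 4, 2])) [] :=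
  (g6c sc_132504_34 x_132504_34_0)

theorem cf_132504_35 : Cfd2 par6 S_132504_35 := Cfd2.cons _ _ cf_132504_34 gd_132504_34

theorem gd_132504_35 : Good par6 S_132504_35 (rows0 par6.d [4, 1, 5, 3, 2, 0]) (gold1 par6 (rows0 par6.d [4, 1, 5, 3, 2, 0])) [] :=
  (g6c sc_132504_35 x_132504_35_0)

theorem cf_132504_36 : Cfd2 par6 S_132504_36 := Cfd2.cons _ _ cf_132504_35 gd_132504_35

theorem gd_132504_36 : Good par6 S_132504_36 (rows0 par6.d [5, 2, 1, 4, 3, 0]) (gold1 par6 (rows0 par6.d [5, 2, 1, 4, 3, 0])) [] :=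
  (g6c sc_132504_36 x_132504_36_0)

theorem cf_132504_37 : Cfd2 par6 S_132504_37 := Cfd2.cons _ _ cf_132504_36 gd_132504_36

theorem gd_132504_37 : Good par6 S_132504_37 (rows0 par6.d [3, 5, 4, 2, 1, 0]) (gold1 par6 (rows0 par6.d [3, 5, 4, 2, 1, 0])) [] :=
  (g6c sc_132504_37 x_132504_37_0)

theorem cf_132504_38 : Cfd2 par6 S_132504_38 := Cfd2.cons _ _ cf_132504_37 gd_132504_37

theorem gd_132504_38 : Good par6 S_132504_38 (rows0 par6.d [1, 3, 2, 5, 4, 0]) (gold1 par6 (rows0 par6.d [1, 3, 2, 5, 4, 0])) [] :=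
  (g6c sc_132504_38 x_132504_38_0)

theorem cf_132504_39 : Cfd2 par6 S_132504_39 := Cfd2.cons _ _ cf_132504_38 gd_132504_38

theorem gd_132504_39 : Good par6 S_132504_39 (rows0 par6.d [2, 4, 3, 1, 5, 0]) (gold1 par6 (rows0 par6.d [2, 4, 3, 1, 5, 0])) [] :=
  (g6c sc_132504_39 x_132504_39_0)

theorem cf_132504_40 : Cfd2 par6 S_132504_40 := Cfd2.cons _ _ cf_132504_39 gd_132504_39

theorem gd_132504_40 : Good par6 S_132504_40 (rows0 par6.d [4, 3, 1, 0, 5, 2]) (gold1 par6 (rows0 par6.d [4, 3, 1, 0, 5, 2])) [] :=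
  (g6c sc_132504_40 x_132504_40_0)

theorem cf_132504_41 : Cfd2 par6 S_132504_41 := Cfd2.cons _ _ cf_132504_40 gd_132504_40

theorem gd_132504_41 : Good par6 S_132504_41 (rows0 par6.d [5, 1, 4, 3, 0, 2]) (gold1 par6 (rows0 par6.d [5, 1, 4, 3, 0, 2])) [] :=
  (g6c sc_132504_41 x_132504_41_0)

theorem cf_132504_42 : Cfd2 par6 S_132504_42 := Cfd2.cons _ _ cf_132504_41 gd_132504_41

theorem gd_132504_42 : Good par6 S_132504_42 (rows0 par6.d [5, 4, 3, 0, 2, 1]) (gold1 par6 (rows0 par6.d [5, 4, 3, 0, 2, 1])) [] :=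
  (g6c sc_132504_42 x_132504_42_0)

theorem cf_132504_43 : Cfd2 par6 S_132504_43 := Cfd2.cons _ _ cf_132504_42 gd_132504_42

theorem gd_132504_43 : Good par6 S_132504_43 (rows0 par6.d [5, 0, 3, 2, 4, 1]) (gold1 par6 (rows0 par6.d [5, 0, 3, 2, 4, 1])) [] :=
  (g6c sc_132504_43 x_132504_43_0)

theorem cf_132504_44 : Cfd2 par6 S_132504_44 := Cfd2.cons _ _ cf_132504_43 gd_132504_43

theorem gd_132504_44 : Good par6 S_132504_44 (rows0 par6.d [4, 0, 2, 5, 3, 1]) (gold1 par6 (rows0 par6.d [4, 0, 2, 5, 3, 1])) [] :=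
  (g6c sc_132504_44 x_132504_44_0)

theorem cf_132504_45 : Cfd2 par6 S_132504_45 := Cfd2.cons _ _ cf_132504_44 gd_132504_44

theorem gd_132504_45 : Good par6 S_132504_45 (rows0 par6.d [2, 1, 4, 3, 5, 0]) (gold1 par6 (rows0 par6.d [2, 1, 4, 3, 5, 0])) [] :=
  (g6c sc_132504_45 x_132504_45_0)

theorem cf_132504_46 : Cfd2 par6 S_132504_46 := Cfd2.cons _ _ cf_132504_45 gd_132504_45

theorem gd_132504_46 : Good par6 S_132504_46 (rows0 par6.d [5, 1, 0, 3, 2, 4]) (gold1 par6 (rows0 par6.d [5, 1, 0, 3, 2, 4])) [] :=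
  (g6c sc_132504_46 x_132504_46_0)

theorem cf_132504_47 : Cfd2 par6 S_132504_47 := Cfd2.cons _ _ cf_132504_46 gd_132504_46

theorem gd_132504_47 : Good par6 S_132504_47 (rows0 par6.d [3, 2, 5, 4, 1, 0]) (gold1 par6 (rows0 par6.d [3, 2, 5, 4, 1, 0])) [] :=
  (g6c sc_132504_47 x_132504_47_0)

theorem cf_132504_48 : Cfd2 par6 S_132504_48 := Cfd2.cons _ _ cf_132504_47 gd_132504_47

theorem gd_132504_48 : Good par6 S_132504_48 (rows0 par6.d [5, 4, 1, 0, 3, 2]) (gold1 par6 (rows0 par6.d [5, 4, 1, 0, 3, 2])) [] :=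
  (g6c sc_132504_48 x_132504_48_0)

theorem cf_132504_49 : Cfd2 par6 S_132504_49 := Cfd2.cons _ _ cf_132504_48 gd_132504_48

theorem gd_132504_49 : Good par6 S_132504_49 (rows0 par6.d [4, 0, 2, 5, 1, 3]) (gold1 par6 (rows0 par6.d [4, 0, 2, 5, 1, 3])) [] :=
  (g6c sc_132504_49 x_132504_49_0)

theorem cf_132504_50 : Cfd2 par6 S_132504_50 := Cfd2.cons _ _ cf_132504_49 gd_132504_49

theorem gd_132504_50 : Good par6 S_132504_50 (rows0 par6.d [4, 0, 5, 2, 1, 3]) (gold1 par6 (rows0 par6.d [4, 0, 5, 2, 1, 3])) [] :=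
  (g6c sc_132504_50 x_132504_50_0)

theorem cf_132504_51 : Cfd2 par6 S_132504_51 := Cfd2.cons _ _ cf_132504_50 gd_132504_50

theorem gd_132504_51 : Good par6 S_132504_51 (rows0 par6.d [3, 0, 4, 1, 5, 2]) (gold1 par6 (rows0 par6.d [3, 0, 4, 1, 5, 2])) [] :=
  (g6c sc_132504_51 x_132504_51_0)

theorem cf_132504_52 : Cfd2 par6 S_132504_52 := Cfd2.cons _ _ cf_132504_51 gd_132504_51

theorem gd_132504_52 : Good par6 S_132504_52 (rows0 par6.d [4, 0, 5, 1, 3, 2]) (gold1 par6 (rows0 par6.d [4, 0, 5, 1, 3, 2])) [] :=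
  (g6c sc_132504_52 x_132504_52_0)

theorem cf_132504_53 : Cfd2 par6 S_132504_53 := Cfd2.cons _ _ cf_132504_52 gd_132504_52

theorem gd_132504_53 : Good par6 S_132504_53 (rows0 par6.d [2, 4, 0, 3, 5, 1]) (gold1 par6 (rows0 par6.d [2, 4, 0, 3, 5, 1])) [] :=
  (g6c sc_132504_53 x_132504_53_0)

theorem cf_132504_54 : Cfd2 par6 S_132504_54 := Cfd2.cons _ _ cf_132504_53 gd_132504_53

theorem gd_132504_54 : Good par6 S_132504_54 (rows0 par6.d [3, 1, 5, 0, 2, 4]) (gold1 par6 (rows0 par6.d [3, 1, 5, 0, 2, 4])) [] :=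
  (g6c sc_132504_54 x_132504_54_0)

theorem cf_132504_55 : Cfd2 par6 S_132504_55 := Cfd2.cons _ _ cf_132504_54 gd_132504_54

theorem gd_132504_55 : Good par6 S_132504_55 (rows0 par6.d [1, 4, 3, 5, 0, 2]) (gold1 par6 (rows0 par6.d [1, 4, 3, 5, 0, 2])) [] :=
  (g6c sc_132504_55 x_132504_55_0)

theorem cf_132504_56 : Cfd2 par6 S_132504_56 := Cfd2.cons _ _ cf_132504_55 gd_132504_55

theorem gd_132504_56 : Good par6 S_132504_56 (rows0 par6.d [1, 3, 5, 4, 0, 2]) (gold1 par6 (rows0 par6.d [1, 3, 5, 4, 0, 2])) [] :=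
  (g6c sc_132504_56 x_132504_56_0)

theorem cf_132504_57 : Cfd2 par6 S_132504_57 := Cfd2.cons _ _ cf_132504_56 gd_132504_56

theorem gd_132504_57 : Good par6 S_132504_57 (rows0 par6.d [3, 1, 5, 4, 0, 2]) (gold1 par6 (rows0 par6.d [3, 1, 5, 4, 0, 2])) [] :=
  (g6c sc_132504_57 x_132504_57_0)

theorem cf_132504_58 : Cfd2 par6 S_132504_58 := Cfd2.cons _ _ cf_132504_57 gd_132504_57

theorem gd_132504_58 : Good par6 S_132504_58 (rows0 par6.d [3, 5, 0, 4, 2, 1]) (gold1 par6 (rows0 par6.d [3, 5, 0, 4, 2, 1])) [] :=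
  (g6c sc_132504_58 x_132504_58_0)

theorem cf_132504_59 : Cfd2 par6 S_132504_59 := Cfd2.cons _ _ cf_132504_58 gd_132504_58

theorem gd_132504_59 : Good par6 S_132504_59 (rows0 par6.d [1, 4, 2, 5, 3, 0]) (gold1 par6 (rows0 par6.d [1, 4, 2, 5, 3, 0])) [] :=
  (g6c sc_132504_59 x_132504_59_0)

theorem cf_132504_60 : Cfd2 par6 S_132504_60 := Cfd2.cons _ _ cf_132504_59 gd_132504_59

theorem gd_132504_60 : Good par6 S_132504_60 (rows0 par6.d [4, 1, 5, 2, 0, 3]) (gold1 par6 (rows0 par6.d [4, 1, 5, 2, 0, 3])) [] :=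
  (g6c sc_132504_60 x_132504_60_0)

theorem cf_132504_61 : Cfd2 par6 S_132504_61 := Cfd2.cons _ _ cf_132504_60 gd_132504_60

theorem gd_132504_61 : Good par6 S_132504_61 (rows0 par6.d [5, 0, 2, 4, 1, 3]) (gold1 par6 (rows0 par6.d [5, 0, 2, 4, 1, 3])) [] :=
  (g6c sc_132504_61 x_132504_61_0)

theorem cf_132504_62 : Cfd2 par6 S_132504_62 := Cfd2.cons _ _ cf_132504_61 gd_132504_61

theorem gd_132504_62 : Good par6 S_132504_62 (rows0 par6.d [4, 1, 3, 5, 0, 2]) (gold1 par6 (rows0 par6.d [4, 1, 3, 5, 0, 2])) [] :=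
  (g6c sc_132504_62 x_132504_62_0)

theorem cf_132504_63 : Cfd2 par6 S_132504_63 := Cfd2.cons _ _ cf_132504_62 gd_132504_62

theorem gd_132504_63 : Good par6 S_132504_63 (rows0 par6.d [1, 4, 3, 5, 2, 0]) (gold1 par6 (rows0 par6.d [1, 4, 3, 5, 2, 0])) [] :=
  (g6c sc_132504_63 x_132504_63_0)

theorem cf_132504_64 : Cfd2 par6 S_132504_64 := Cfd2.cons _ _ cf_132504_63 gd_132504_63

theorem gd_132504_64 : Good par6 S_132504_64 (rows0 par6.d [5, 3, 2, 4, 1, 0]) (gold1 par6 (rows0 par6.d [5, 3, 2, 4, 1, 0])) [] :=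
  (g6c sc_132504_64 x_132504_64_0)

theorem cf_132504_65 : Cfd2 par6 S_132504_65 := Cfd2.cons _ _ cf_132504_64 gd_132504_64

theorem gd_132504_65 : Good par6 S_132504_65 (rows0 par6.d [3, 1, 5, 2, 4, 0]) (gold1 par6 (rows0 par6.d [3, 1, 5, 2, 4, 0])) [] :=
  (g6c sc_132504_65 x_132504_65_0)

theorem cf_132504_66 : Cfd2 par6 S_132504_66 := Cfd2.cons _ _ cf_132504_65 gd_132504_65

theorem gd_132504_66 : Good par6 S_132504_66 (rows0 par6.d [4, 2, 1, 3, 5, 0]) (gold1 par6 (rows0 par6.d [4, 2, 1, 3, 5, 0])) [] :=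
  (g6c sc_132504_66 x_132504_66_0)

theorem cf_132504_67 : Cfd2 par6 S_132504_67 := Cfd2.cons _ _ cf_132504_66 gd_132504_66

theorem gd_132504_67 : Good par6 S_132504_67 (rows0 par6.d [5, 2, 4, 1, 0, 3]) (gold1 par6 (rows0 par6.d [5, 2, 4, 1, 0, 3])) [] :=
  (g6c sc_132504_67 x_132504_67_0)

theorem cf_132504_68 : Cfd2 par6 S_132504_68 := Cfd2.cons _ _ cf_132504_67 gd_132504_67

theorem gd_132504_68 : Good par6 S_132504_68 (rows0 par6.d [4, 2, 5, 1, 0, 3]) (gold1 par6 (rows0 par6.d [4, 2, 5, 1, 0, 3])) [] :=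
  (g6c sc_132504_68 x_132504_68_0)

theorem cf_132504_69 : Cfd2 par6 S_132504_69 := Cfd2.cons _ _ cf_132504_68 gd_132504_68

theorem gd_132504_69 : Good par6 S_132504_69 (rows0 par6.d [4, 2, 0, 5, 3, 1]) (gold1 par6 (rows0 par6.d [4, 2, 0, 5, 3, 1])) [] :=
  (g6c sc_132504_69 x_132504_69_0)

theorem cf_132504_70 : Cfd2 par6 S_132504_70 := Cfd2.cons _ _ cf_132504_69 gd_132504_69

theorem gd_132504_70 : Good par6 S_132504_70 (rows0 par6.d [4, 2, 0, 5, 1, 3]) (gold1 par6 (rows0 par6.d [4, 2, 0, 5, 1, 3])) [] :=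
  (g6c sc_132504_70 x_132504_70_0)

theorem cf_132504_71 : Cfd2 par6 S_132504_71 := Cfd2.cons _ _ cf_132504_70 gd_132504_70

theorem gd_132504_71 : Good par6 S_132504_71 (rows0 par6.d [4, 0, 3, 1, 5, 2]) (gold1 par6 (rows0 par6.d [4, 0, 3, 1, 5, 2])) [] :=
  (g6c sc_132504_71 x_132504_71_0)

theorem cf_132504_72 : Cfd2 par6 S_132504_72 := Cfd2.cons _ _ cf_132504_71 gd_132504_71

theorem gd_132504_72 : Good par6 S_132504_72 (rows0 par6.d [5, 0, 4, 1, 3, 2]) (gold1 par6 (rows0 par6.d [5, 0, 4, 1, 3, 2])) [] :=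
  (g6c sc_132504_72 x_132504_72_0)

theorem cf_132504_73 : Cfd2 par6 S_132504_73 := Cfd2.cons _ _ cf_132504_72 gd_132504_72

theorem gd_132504_73 : Good par6 S_132504_73 (rows0 par6.d [5, 1, 3, 2, 0, 4]) (gold1 par6 (rows0 par6.d [5, 1, 3, 2, 0, 4])) [] :=
  (g6c sc_132504_73 x_132504_73_0)

theorem cf_132504_74 : Cfd2 par6 S_132504_74 := Cfd2.cons _ _ cf_132504_73 gd_132504_73

theorem gd_132504_74 : Good par6 S_132504_74 (rows0 par6.d [5, 2, 0, 4, 1, 3]) (gold1 par6 (rows0 par6.d [5, 2, 0, 4, 1, 3])) [] :=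
  (g6c sc_132504_74 x_132504_74_0)

theorem cf_132504_75 : Cfd2 par6 S_132504_75 := Cfd2.cons _ _ cf_132504_74 gd_132504_74

theorem gd_132504_75 : Good par6 S_132504_75 (rows0 par6.d [1, 3, 5, 2, 0, 4]) (gold1 par6 (rows0 par6.d [1, 3, 5, 2, 0, 4])) [] :=
  (g6c sc_132504_75 x_132504_75_0)

theorem cf_132504_76 : Cfd2 par6 S_132504_76 := Cfd2.cons _ _ cf_132504_75 gd_132504_75

theorem gd_132504_76 : Good par6 S_132504_76 (rows0 par6.d [4, 2, 5, 0, 3, 1]) (gold1 par6 (rows0 par6.d [4, 2, 5, 0, 3, 1])) [] :=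
  (g6c sc_132504_76 x_132504_76_0)

theorem cf_132504_77 : Cfd2 par6 S_132504_77 := Cfd2.cons _ _ cf_132504_76 gd_132504_76

theorem gd_132504_77 : Good par6 S_132504_77 (rows0 par6.d [2, 5, 3, 1, 4, 0]) (gold1 par6 (rows0 par6.d [2, 5, 3, 1, 4, 0])) [] :=
  (g6c sc_132504_77 x_132504_77_0)

theorem cf_132504_78 : Cfd2 par6 S_132504_78 := Cfd2.cons _ _ cf_132504_77 gd_132504_77

theorem gd_132504_78 : Good par6 S_132504_78 (rows0 par6.d [3, 1, 4, 2, 5, 0]) (gold1 par6 (rows0 par6.d [3, 1, 4, 2, 5, 0])) [] :=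
  (g6c sc_132504_78 x_132504_78_0)

theorem cf_132504_79 : Cfd2 par6 S_132504_79 := Cfd2.cons _ _ cf_132504_78 gd_132504_78

theorem gd_132504_79 : Good par6 S_132504_79 (rows0 par6.d [4, 2, 5, 3, 1, 0]) (gold1 par6 (rows0 par6.d [4, 2, 5, 3, 1, 0])) [] :=
  (g6c sc_132504_79 x_132504_79_0)

theorem cf_132504_80 : Cfd2 par6 S_132504_80 := Cfd2.cons _ _ cf_132504_79 gd_132504_79

theorem gd_132504_80 : Good par6 S_132504_80 (rows0 par6.d [1, 3, 5, 4, 2, 0]) (gold1 par6 (rows0 par6.d [1, 3, 5, 4, 2, 0])) [] :=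
  (g6c sc_132504_80 x_132504_80_0)

theorem cf_132504_81 : Cfd2 par6 S_132504_81 := Cfd2.cons _ _ cf_132504_80 gd_132504_80

theorem gd_132504_81 : Good par6 S_132504_81 (rows0 par6.d [2, 4, 1, 5, 0, 3]) (gold1 par6 (rows0 par6.d [2, 4, 1, 5, 0, 3])) [] :=
  (g6c sc_132504_81 x_132504_81_0)

theorem cf_132504_82 : Cfd2 par6 S_132504_82 := Cfd2.cons _ _ cf_132504_81 gd_132504_81

theorem gd_132504_82 : Good par6 S_132504_82 (rows0 par6.d [2, 5, 1, 4, 0, 3]) (gold1 par6 (rows0 par6.d [2, 5, 1, 4, 0, 3])) [] :=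
  (g6c sc_132504_82 x_132504_82_0)

theorem cf_132504_83 : Cfd2 par6 S_132504_83 := Cfd2.cons _ _ cf_132504_82 gd_132504_82

theorem gd_132504_83 : Good par6 S_132504_83 (rows0 par6.d [4, 1, 3, 2, 5, 0]) (gold1 par6 (rows0 par6.d [4, 1, 3, 2, 5, 0])) [] :=
  (g6c sc_132504_83 x_132504_83_0)

theorem cf_132504_84 : Cfd2 par6 S_132504_84 := Cfd2.cons _ _ cf_132504_83 gd_132504_83

theorem gd_132504_84 : Good par6 S_132504_84 (rows0 par6.d [2, 4, 1, 5, 3, 0]) (gold1 par6 (rows0 par6.d [2, 4, 1, 5, 3, 0])) [] :=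
  (g6c sc_132504_84 x_132504_84_0)

theorem cf_132504_85 : Cfd2 par6 S_132504_85 := Cfd2.cons _ _ cf_132504_84 gd_132504_84

theorem gd_132504_85 : Good par6 S_132504_85 (rows0 par6.d [3, 5, 2, 1, 4, 0]) (gold1 par6 (rows0 par6.d [3, 5, 2, 1, 4, 0])) [] :=
  (g6c sc_132504_85 x_132504_85_0)

theorem cf_132504_86 : Cfd2 par6 S_132504_86 := Cfd2.cons _ _ cf_132504_85 gd_132504_85

theorem gd_132504_86 : Good par6 S_132504_86 (rows0 par6.d [5, 3, 2, 0, 4, 1]) (gold1 par6 (rows0 par6.d [5, 3, 2, 0, 4, 1])) [] :=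
  (g6c sc_132504_86 x_132504_86_0)

theorem cf_132504_87 : Cfd2 par6 S_132504_87 := Cfd2.cons _ _ cf_132504_86 gd_132504_86

theorem gd_132504_87 : Good par6 S_132504_87 (rows0 par6.d [2, 4, 3, 0, 5, 1]) (gold1 par6 (rows0 par6.d [2, 4, 3, 0, 5, 1])) [] :=
  (g6c sc_132504_87 x_132504_87_0)

theorem cf_132504_88 : Cfd2 par6 S_132504_88 := Cfd2.cons _ _ cf_132504_87 gd_132504_87

theorem gd_132504_88 : Good par6 S_132504_88 (rows0 par6.d [3, 5, 0, 2, 1, 4]) (gold1 par6 (rows0 par6.d [3, 5, 0, 2, 1, 4])) [] :=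
  (g6c sc_132504_88 x_132504_88_0)

theorem cf_132504_89 : Cfd2 par6 S_132504_89 := Cfd2.cons _ _ cf_132504_88 gd_132504_88

theorem gd_132504_89 : Good par6 S_132504_89 (rows0 par6.d [3, 5, 1, 0, 2, 4]) (gold1 par6 (rows0 par6.d [3, 5, 1, 0, 2, 4])) [] :=
  (g6c sc_132504_89 x_132504_89_0)

theorem cf_132504_90 : Cfd2 par6 S_132504_90 := Cfd2.cons _ _ cf_132504_89 gd_132504_89

theorem gd_132504_90 : Good par6 S_132504_90 (rows0 par6.d [2, 4, 0, 5, 3, 1]) (gold1 par6 (rows0 par6.d [2, 4, 0, 5, 3, 1])) [] :=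
  (g6c sc_132504_90 x_132504_90_0)

theorem cf_132504_91 : Cfd2 par6 S_132504_91 := Cfd2.cons _ _ cf_132504_90 gd_132504_90

theorem gd_132504_91 : Good par6 S_132504_91 (rows0 par6.d [5, 0, 4, 2, 1, 3]) (gold1 par6 (rows0 par6.d [5, 0, 4, 2, 1, 3])) [] :=
  (g6c sc_132504_91 x_132504_91_0)

theorem cf_132504_92 : Cfd2 par6 S_132504_92 := Cfd2.cons _ _ cf_132504_91 gd_132504_91

theorem gd_132504_92 : Good par6 S_132504_92 (rows0 par6.d [5, 4, 2, 1, 3, 0]) (gold1 par6 (rows0 par6.d [5, 4, 2, 1, 3, 0])) [] :=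
  (g6c sc_132504_92 x_132504_92_0)

theorem cf_132504_93 : Cfd2 par6 S_132504_93 := Cfd2.cons _ _ cf_132504_92 gd_132504_92

theorem gd_132504_93 : Good par6 S_132504_93 (rows0 par6.d [5, 1, 3, 0, 4, 2]) (gold1 par6 (rows0 par6.d [5, 1, 3, 0, 4, 2])) [] :=
  (g6c sc_132504_93 x_132504_93_0)

theorem cf_132504_94 : Cfd2 par6 S_132504_94 := Cfd2.cons _ _ cf_132504_93 gd_132504_93

theorem gd_132504_94 : Good par6 S_132504_94 (rows0 par6.d [5, 3, 0, 4, 2, 1]) (gold1 par6 (rows0 par6.d [5, 3, 0, 4, 2, 1])) [] :=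
  (g6c sc_132504_94 x_132504_94_0)

theorem cf_132504_95 : Cfd2 par6 S_132504_95 := Cfd2.cons _ _ cf_132504_94 gd_132504_94

theorem gd_132504_95 : Good par6 S_132504_95 (rows0 par6.d [3, 5, 0, 2, 4, 1]) (gold1 par6 (rows0 par6.d [3, 5, 0, 2, 4, 1])) [] :=
  (g6c sc_132504_95 x_132504_95_0)

theorem cf_132504_96 : Cfd2 par6 S_132504_96 := Cfd2.cons _ _ cf_132504_95 gd_132504_95

theorem gd_132504_96 : Good par6 S_132504_96 (rows0 par6.d [4, 2, 0, 3, 5, 1]) (gold1 par6 (rows0 par6.d [4, 2, 0, 3, 5, 1])) [] :=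
  (g6c sc_132504_96 x_132504_96_0)

theorem cf_132504_97 : Cfd2 par6 S_132504_97 := Cfd2.cons _ _ cf_132504_96 gd_132504_96

theorem gd_132504_97 : Good par6 S_132504_97 (rows0 par6.d [5, 2, 1, 3, 0, 4]) (gold1 par6 (rows0 par6.d [5, 2, 1, 3, 0, 4])) [] :=
  (g6c sc_132504_97 x_132504_97_0)

theorem cf_132504_98 : Cfd2 par6 S_132504_98 := Cfd2.cons _ _ cf_132504_97 gd_132504_97

theorem gd_132504_98 : Good par6 S_132504_98 (rows0 par6.d [1, 3, 5, 2, 4, 0]) (gold1 par6 (rows0 par6.d [1, 3, 5, 2, 4, 0])) [] :=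
  (g6c sc_132504_98 x_132504_98_0)

theorem cf_132504_99 : Cfd2 par6 S_132504_99 := Cfd2.cons _ _ cf_132504_98 gd_132504_98

theorem gd_132504_99 : Good par6 S_132504_99 (rows0 par6.d [3, 5, 2, 4, 1, 0]) (gold1 par6 (rows0 par6.d [3, 5, 2, 4, 1, 0])) [] :=
  (g6c sc_132504_99 x_132504_99_0)

theorem cf_132504_100 : Cfd2 par6 S_132504_100 := Cfd2.cons _ _ cf_132504_99 gd_132504_99

theorem gd_132504_100 : Good par6 S_132504_100 (rows0 par6.d [4, 1, 3, 5, 2, 0]) (gold1 par6 (rows0 par6.d [4, 1, 3, 5, 2, 0])) [] :=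
  (g6c sc_132504_100 x_132504_100_0)

theorem cf_132504_101 : Cfd2 par6 S_132504_101 := Cfd2.cons _ _ cf_132504_100 gd_132504_100

theorem gd_132504_101 : Good par6 S_132504_101 (rows0 par6.d [5, 2, 4, 1, 3, 0]) (gold1 par6 (rows0 par6.d [5, 2, 4, 1, 3, 0])) [] :=
  (g6c sc_132504_101 x_132504_101_0)

theorem cf_132504_102 : Cfd2 par6 S_132504_102 := Cfd2.cons _ _ cf_132504_101 gd_132504_101

theorem gd_132504_102 : Good par6 S_132504_102 (rows0 par6.d [2, 4, 1, 3, 5, 0]) (gold1 par6 (rows0 par6.d [2, 4, 1, 3, 5, 0])) [] :=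
  (g6c sc_132504_102 x_132504_102_0)

theorem cf_132504_103 : Cfd2 par6 S_132504_103 := Cfd2.cons _ _ cf_132504_102 gd_132504_102

theorem gd_132504_103 : Good par6 S_132504_103 (rows0 par6.d [3, 5, 1, 4, 0, 2]) (gold1 par6 (rows0 par6.d [3, 5, 1, 4, 0, 2])) [] :=
  (g6c sc_132504_103 x_132504_103_0)

theorem cf_132504_104 : Cfd2 par6 S_132504_104 := Cfd2.cons _ _ cf_132504_103 gd_132504_103

theorem gd_132504_104 : Good par6 S_132504_104 (rows0 par6.d [3, 5, 4, 0, 2, 1]) (gold1 par6 (rows0 par6.d [3, 5, 4, 0, 2, 1])) [] :=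
  (g6c sc_132504_104 x_132504_104_0)

theorem cf_132504_105 : Cfd2 par6 S_132504_105 := Cfd2.cons _ _ cf_132504_104 gd_132504_104

theorem gd_132504_105 : Good par6 S_132504_105 (rows0 par6.d [5, 4, 1, 3, 0, 2]) (gold1 par6 (rows0 par6.d [5, 4, 1, 3, 0, 2])) [] :=
  (g6c sc_132504_105 x_132504_105_0)

theorem cf_132504_106 : Cfd2 par6 S_132504_106 := Cfd2.cons _ _ cf_132504_105 gd_132504_105

theorem gd_132504_106 : Good par6 S_132504_106 (rows0 par6.d [4, 3, 1, 5, 0, 2]) (gold1 par6 (rows0 par6.d [4, 3, 1, 5, 0, 2])) [] :=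
  (g6c sc_132504_106 x_132504_106_0)

theorem cf_132504_107 : Cfd2 par6 S_132504_107 := Cfd2.cons _ _ cf_132504_106 gd_132504_106

theorem gd_132504_107 : Good par6 S_132504_107 (rows0 par6.d [4, 3, 1, 5, 2, 0]) (gold1 par6 (rows0 par6.d [4, 3, 1, 5, 2, 0])) [] :=
  (g6c sc_132504_107 x_132504_107_0)

theorem cf_132504_108 : Cfd2 par6 S_132504_108 := Cfd2.cons _ _ cf_132504_107 gd_132504_107

theorem gd_132504_108 : Good par6 S_132504_108 (rows0 par6.d [5, 1, 3, 0, 2, 4]) (gold1 par6 (rows0 par6.d [5, 1, 3, 0, 2, 4])) [] :=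
  (g6c sc_132504_108 x_132504_108_0)

theorem cf_132504_109 : Cfd2 par6 S_132504_109 := Cfd2.cons _ _ cf_132504_108 gd_132504_108

theorem gd_132504_109 : Good par6 S_132504_109 (rows0 par6.d [5, 3, 0, 2, 4, 1]) (gold1 par6 (rows0 par6.d [5, 3, 0, 2, 4, 1])) [] :=
  (g6c sc_132504_109 x_132504_109_0)

theorem cf_132504_110 : Cfd2 par6 S_132504_110 := Cfd2.cons _ _ cf_132504_109 gd_132504_109

theorem gd_132504_110 : Good par6 S_132504_110 (rows0 par6.d [1, 5, 2, 4, 3, 0]) (gold1 par6 (rows0 par6.d [1, 5, 2, 4, 3, 0])) [] :=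
  (g6c sc_132504_110 x_132504_110_0)

theorem cf_132504_111 : Cfd2 par6 S_132504_111 := Cfd2.cons _ _ cf_132504_110 gd_132504_110

theorem gd_132504_111 : Good par6 S_132504_111 (rows0 par6.d [5, 4, 1, 3, 2, 0]) (gold1 par6 (rows0 par6.d [5, 4, 1, 3, 2, 0])) [] :=
  (g6c sc_132504_111 x_132504_111_0)

theorem cf_132504_112 : Cfd2 par6 S_132504_112 := Cfd2.cons _ _ cf_132504_111 gd_132504_111

theorem gd_132504_112 : Good par6 S_132504_112 (rows0 par6.d [2, 4, 0, 5, 1, 3]) (gold1 par6 (rows0 par6.d [2, 4, 0, 5, 1, 3])) [] :=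
  (g6c sc_132504_112 x_132504_112_0)

theorem cf_132504_113 : Cfd2 par6 S_132504_113 := Cfd2.cons _ _ cf_132504_112 gd_132504_112

theorem gd_132504_113 : Good par6 S_132504_113 (rows0 par6.d [2, 5, 0, 4, 1, 3]) (gold1 par6 (rows0 par6.d [2, 5, 0, 4, 1, 3])) [] :=
  (g6c sc_132504_113 x_132504_113_0)

theorem cf_132504_114 : Cfd2 par6 S_132504_114 := Cfd2.cons _ _ cf_132504_113 gd_132504_113

theorem gd_132504_114 : Good par6 S_132504_114 (rows0 par6.d [2, 5, 4, 1, 3, 0]) (gold1 par6 (rows0 par6.d [2, 5, 4, 1, 3, 0])) [] :=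
  (g6c sc_132504_114 x_132504_114_0)

theorem cf_132504_115 : Cfd2 par6 S_132504_115 := Cfd2.cons _ _ cf_132504_114 gd_132504_114

theorem gd_132504_115 : Good par6 S_132504_115 (rows0 par6.d [2, 5, 1, 3, 0, 4]) (gold1 par6 (rows0 par6.d [2, 5, 1, 3, 0, 4])) [] :=
  (g6c sc_132504_115 x_132504_115_0)

theorem cf_132504_116 : Cfd2 par6 S_132504_116 := Cfd2.cons _ _ cf_132504_115 gd_132504_115

theorem gd_132504_116 : Good par6 S_132504_116 (rows0 par6.d [2, 5, 3, 0, 4, 1]) (gold1 par6 (rows0 par6.d [2, 5, 3, 0, 4, 1])) [] :=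
  (g6c sc_132504_116 x_132504_116_0)

theorem cf_132504_117 : Cfd2 par6 S_132504_117 := Cfd2.cons _ _ cf_132504_116 gd_132504_116

theorem gd_132504_117 : Good par6 S_132504_117 (rows0 par6.d [5, 0, 3, 1, 4, 2]) (gold1 par6 (rows0 par6.d [5, 0, 3, 1, 4, 2])) [] :=
  (g6c sc_132504_117 x_132504_117_0)

theorem cf_132504_118 : Cfd2 par6 S_132504_118 := Cfd2.cons _ _ cf_132504_117 gd_132504_117

theorem gd_132504_118 : Good par6 S_132504_118 (rows0 par6.d [5, 1, 4, 2, 0, 3]) (gold1 par6 (rows0 par6.d [5, 1, 4, 2, 0, 3])) [] :=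
  (g6c sc_132504_118 x_132504_118_0)

theorem cf_132504_119 : Cfd2 par6 S_132504_119 := Cfd2.cons _ _ cf_132504_118 gd_132504_118

theorem gd_132504_119 : Good par6 S_132504_119 (rows0 par6.d [5, 3, 1, 4, 2, 0]) (gold1 par6 (rows0 par6.d [5, 3, 1, 4, 2, 0])) [] :=
  (g6c sc_132504_119 x_132504_119_0)

theorem cf_132504_120 : Cfd2 par6 S_132504_120 := Cfd2.cons _ _ cf_132504_119 gd_132504_119

theorem gd_132504_120 : Good par6 S_132504_120 (rows0 par6.d [5, 4, 2, 0, 3, 1]) (gold1 par6 (rows0 par6.d [5, 4, 2, 0, 3, 1])) [] :=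
  (g6c sc_132504_120 x_132504_120_0)

theorem cf_132504_121 : Cfd2 par6 S_132504_121 := Cfd2.cons _ _ cf_132504_120 gd_132504_120

theorem gd_132504_121 : Good par6 S_132504_121 (rows0 par6.d [5, 2, 0, 3, 1, 4]) (gold1 par6 (rows0 par6.d [5, 2, 0, 3, 1, 4])) [] :=
  (g6c sc_132504_121 x_132504_121_0)

theorem cf_132504_122 : Cfd2 par6 S_132504_122 := Cfd2.cons _ _ cf_132504_121 gd_132504_121

theorem gd_132504_122 : Good par6 S_132504_122 (rows0 par6.d [3, 5, 4, 1, 0, 2]) (gold1 par6 (rows0 par6.d [3, 5, 4, 1, 0, 2])) [] :=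
  (g6c sc_132504_122 x_132504_122_0)

theorem cf_132504_123 : Cfd2 par6 S_132504_123 := Cfd2.cons _ _ cf_132504_122 gd_132504_122

theorem gd_132504_123 : Good par6 S_132504_123 (rows0 par6.d [5, 0, 2, 4, 3, 1]) (gold1 par6 (rows0 par6.d [5, 0, 2, 4, 3, 1])) [] :=
  (g6c sc_132504_123 x_132504_123_0)

theorem cf_132504_124 : Cfd2 par6 S_132504_124 := Cfd2.cons _ _ cf_132504_123 gd_132504_123

theorem gd_132504_124 : Good par6 S_132504_124 (rows0 par6.d [5, 2, 4, 3, 1, 0]) (gold1 par6 (rows0 par6.d [5, 2, 4, 3, 1, 0])) [] :=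
  (g6c sc_132504_124 x_132504_124_0)

theorem cf_132504_125 : Cfd2 par6 S_132504_125 := Cfd2.cons _ _ cf_132504_124 gd_132504_124

theorem gd_132504_125 : Good par6 S_132504_125 (rows0 par6.d [5, 4, 3, 1, 0, 2]) (gold1 par6 (rows0 par6.d [5, 4, 3, 1, 0, 2])) [] :=
  (g6c sc_132504_125 x_132504_125_0)

theorem cf_132504_126 : Cfd2 par6 S_132504_126 := Cfd2.cons _ _ cf_132504_125 gd_132504_125

theorem gd_132504_126 : Good par6 S_132504_126 (rows0 par6.d [4, 3, 5, 0, 2, 1]) (gold1 par6 (rows0 par6.d [4, 3, 5, 0, 2, 1])) [] :=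
  (g6c sc_132504_126 x_132504_126_0)

theorem cf_132504_127 : Cfd2 par6 S_132504_127 := Cfd2.cons _ _ cf_132504_126 gd_132504_126

theorem gd_132504_127 : Good par6 S_132504_127 (rows0 par6.d [4, 3, 5, 1, 0, 2]) (gold1 par6 (rows0 par6.d [4, 3, 5, 1, 0, 2])) [] :=
  (g6c sc_132504_127 x_132504_127_0)

theorem cf_132504_128 : Cfd2 par6 S_132504_128 := Cfd2.cons _ _ cf_132504_127 gd_132504_127

theorem gd_132504_128 : Good par6 S_132504_128 (rows0 par6.d [4, 3, 5, 2, 1, 0]) (gold1 par6 (rows0 par6.d [4, 3, 5, 2, 1, 0])) [] :=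
  (g6c sc_132504_128 x_132504_128_0)

theorem cf_132504_129 : Cfd2 par6 S_132504_129 := Cfd2.cons _ _ cf_132504_128 gd_132504_128

theorem gd_132504_129 : Good par6 S_132504_129 (rows0 par6.d [2, 1, 3, 5, 4, 0]) (gold1 par6 (rows0 par6.d [2, 1, 3, 5, 4, 0])) [] :=
  (g6c sc_132504_129 x_132504_129_0)

theorem cf_132504_130 : Cfd2 par6 S_132504_130 := Cfd2.cons _ _ cf_132504_129 gd_132504_129

theorem gd_132504_130 : Good par6 S_132504_130 (rows0 par6.d [3, 2, 4, 0, 5, 1]) (gold1 par6 (rows0 par6.d [3, 2, 4, 0, 5, 1])) [] :=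
  (g6c sc_132504_130 x_132504_130_0)

theorem cf_132504_131 : Cfd2 par6 S_132504_131 := Cfd2.cons _ _ cf_132504_130 gd_132504_130

theorem gd_132504_131 : Good par6 S_132504_131 (rows0 par6.d [3, 2, 4, 1, 5, 0]) (gold1 par6 (rows0 par6.d [3, 2, 4, 1, 5, 0])) [] :=
  (g6c sc_132504_131 x_132504_131_0)

theorem cf_132504_132 : Cfd2 par6 S_132504_132 := Cfd2.cons _ _ cf_132504_131 gd_132504_131

theorem gd_132504_132 : Good par6 S_132504_132 (rows0 par6.d [5, 1, 0, 2, 4, 3]) (gold1 par6 (rows0 par6.d [5, 1, 0, 2, 4, 3])) [] :=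
  (g6c sc_132504_132 x_132504_132_0)

theorem cf_132504_133 : Cfd2 par6 S_132504_133 := Cfd2.cons _ _ cf_132504_132 gd_132504_132

theorem gd_132504_133 : Good par6 S_132504_133 (rows0 par6.d [5, 3, 1, 0, 2, 4]) (gold1 par6 (rows0 par6.d [5, 3, 1, 0, 2, 4])) [] :=
  (g6c sc_132504_133 x_132504_133_0)

theorem cf_132504_134 : Cfd2 par6 S_132504_134 := Cfd2.cons _ _ cf_132504_133 gd_132504_133

theorem gd_124350_0 : Good par6 S_124350_0 (rows0 par6.d [2, 5, 1, 0, 3, 4]) (gold1 par6 (rows0 par6.d [2, 5, 1, 0, 3, 4])) [] :=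
  (g6c sc_124350_0 x_124350_0_0)

theorem cf_124350_1 : Cfd2 par6 S_124350_1 := Cfd2.cons _ _ Cfd2.nil gd_124350_0

theorem gd_124350_1 : Good par6 S_124350_1 (rows0 par6.d [2, 5, 0, 3, 4, 1]) (gold1 par6 (rows0 par6.d [2, 5, 0, 3, 4, 1])) [] :=
  (g6c sc_124350_1 x_124350_1_0)

theorem cf_124350_2 : Cfd2 par6 S_124350_2 := Cfd2.cons _ _ cf_124350_1 gd_124350_1

theorem gd_124350_2 : Good par6 S_124350_2 (rows0 par6.d [3, 2, 0, 4, 5, 1]) (gold1 par6 (rows0 par6.d [3, 2, 0, 4, 5, 1])) [] :=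
  (g6c sc_124350_2 x_124350_2_0)

theorem cf_124350_3 : Cfd2 par6 S_124350_3 := Cfd2.cons _ _ cf_124350_2 gd_124350_2

theorem gd_124350_3 : Good par6 S_124350_3 (rows0 par6.d [2, 5, 4, 1, 0, 3]) (gold1 par6 (rows0 par6.d [2, 5, 4, 1, 0, 3])) [] :=
  (g6c sc_124350_3 x_124350_3_0)

theorem cf_124350_4 : Cfd2 par6 S_124350_4 := Cfd2.cons _ _ cf_124350_3 gd_124350_3

theorem gd_124350_4 : Good par6 S_124350_4 (rows0 par6.d [4, 3, 0, 5, 2, 1]) (gold1 par6 (rows0 par6.d [4, 3, 0, 5, 2, 1])) [] :=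
  (g6c sc_124350_4 x_124350_4_0)

theorem cf_124350_5 : Cfd2 par6 S_124350_5 := Cfd2.cons _ _ cf_124350_4 gd_124350_4

theorem gd_124350_5 : Good par6 S_124350_5 (rows0 par6.d [2, 4, 5, 1, 0, 3]) (gold1 par6 (rows0 par6.d [2, 4, 5, 1, 0, 3])) [] :=
  (good_N (good_N (g6c sc_124350_5 x_124350_5_0) (g6c sc_124350_5 x_124350_5_1)) (g6c sc_124350_5 x_124350_5_2))

theorem cf_124350_6 : Cfd2 par6 S_124350_6 := Cfd2.cons _ _ cf_124350_5 gd_124350_5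

theorem gd_124350_6 : Good par6 S_124350_6 (rows0 par6.d [4, 3, 0, 5, 1, 2]) (gold1 par6 (rows0 par6.d [4, 3, 0, 5, 1, 2])) [] :=
  (g6c sc_124350_6 x_124350_6_0)

theorem cf_124350_7 : Cfd2 par6 S_124350_7 := Cfd2.cons _ _ cf_124350_6 gd_124350_6

theorem gd_124350_7 : Good par6 S_124350_7 (rows0 par6.d [2, 4, 5, 0, 3, 1]) (gold1 par6 (rows0 par6.d [2, 4, 5, 0, 3, 1])) [] :=
  (g6c sc_124350_7 x_124350_7_0)

theorem cf_124350_8 : Cfd2 par6 S_124350_8 := Cfd2.cons _ _ cf_124350_7 gd_124350_7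

theorem gd_124350_8 : Good par6 S_124350_8 (rows0 par6.d [4, 2, 3, 0, 5, 1]) (gold1 par6 (rows0 par6.d [4, 2, 3, 0, 5, 1])) [] :=
  (g6c sc_124350_8 x_124350_8_0)

theorem cf_124350_9 : Cfd2 par6 S_124350_9 := Cfd2.cons _ _ cf_124350_8 gd_124350_8

theorem gd_124350_9 : Good par6 S_124350_9 (rows0 par6.d [3, 5, 0, 4, 1, 2]) (gold1 par6 (rows0 par6.d [3, 5, 0, 4, 1, 2])) [] :=
  (g6c sc_124350_9 x_124350_9_0)

theorem cf_124350_10 : Cfd2 par6 S_124350_10 := Cfd2.cons _ _ cf_124350_9 gd_124350_9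

theorem gd_124350_10 : Good par6 S_124350_10 (rows0 par6.d [3, 5, 2, 0, 4, 1]) (gold1 par6 (rows0 par6.d [3, 5, 2, 0, 4, 1])) [] :=
  (g6c sc_124350_10 x_124350_10_0)

theorem cf_124350_11 : Cfd2 par6 S_124350_11 := Cfd2.cons _ _ cf_124350_10 gd_124350_10

theorem gd_124350_11 : Good par6 S_124350_11 (rows0 par6.d [3, 5, 1, 2, 0, 4]) (gold1 par6 (rows0 par6.d [3, 5, 1, 2, 0, 4])) [] :=
  (g6c sc_124350_11 x_124350_11_0)

theorem cf_124350_12 : Cfd2 par6 S_124350_12 := Cfd2.cons _ _ cf_124350_11 gd_124350_11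

theorem gd_124350_12 : Good par6 S_124350_12 (rows0 par6.d [1, 4, 2, 3, 5, 0]) (gold1 par6 (rows0 par6.d [1, 4, 2, 3, 5, 0])) [] :=
  (g6c sc_124350_12 x_124350_12_0)

theorem cf_124350_13 : Cfd2 par6 S_124350_13 := Cfd2.cons _ _ cf_124350_12 gd_124350_12

theorem gd_124350_13 : Good par6 S_124350_13 (rows0 par6.d [4, 1, 2, 5, 0, 3]) (gold1 par6 (rows0 par6.d [4, 1, 2, 5, 0, 3])) [] :=
  (g6c sc_124350_13 x_124350_13_0)

theorem cf_124350_14 : Cfd2 par6 S_124350_14 := Cfd2.cons _ _ cf_124350_13 gd_124350_13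

theorem gd_124350_14 : Good par6 S_124350_14 (rows0 par6.d [5, 1, 2, 4, 0, 3]) (gold1 par6 (rows0 par6.d [5, 1, 2, 4, 0, 3])) [] :=
  (g6c sc_124350_14 x_124350_14_0)

theorem cf_124350_15 : Cfd2 par6 S_124350_15 := Cfd2.cons _ _ cf_124350_14 gd_124350_14

theorem gd_124350_15 : Good par6 S_124350_15 (rows0 par6.d [5, 3, 1, 2, 4, 0]) (gold1 par6 (rows0 par6.d [5, 3, 1, 2, 4, 0])) [] :=
  (g6c sc_124350_15 x_124350_15_0)

theorem cf_124350_16 : Cfd2 par6 S_124350_16 := Cfd2.cons _ _ cf_124350_15 gd_124350_15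

theorem gd_124350_16 : Good par6 S_124350_16 (rows0 par6.d [4, 2, 5, 1, 3, 0]) (gold1 par6 (rows0 par6.d [4, 2, 5, 1, 3, 0])) [] :=
  (g6c sc_124350_16 x_124350_16_0)

theorem cf_124350_17 : Cfd2 par6 S_124350_17 := Cfd2.cons _ _ cf_124350_16 gd_124350_16

theorem gd_124350_17 : Good par6 S_124350_17 (rows0 par6.d [2, 5, 3, 4, 1, 0]) (gold1 par6 (rows0 par6.d [2, 5, 3, 4, 1, 0])) [] :=
  (g6c sc_124350_17 x_124350_17_0)

theorem cf_124350_18 : Cfd2 par6 S_124350_18 := Cfd2.cons _ _ cf_124350_17 gd_124350_17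

theorem gd_124350_18 : Good par6 S_124350_18 (rows0 par6.d [3, 1, 4, 5, 2, 0]) (gold1 par6 (rows0 par6.d [3, 1, 4, 5, 2, 0])) [] :=
  (g6c sc_124350_18 x_124350_18_0)

theorem cf_124350_19 : Cfd2 par6 S_124350_19 := Cfd2.cons _ _ cf_124350_18 gd_124350_18

theorem gd_124350_19 : Good par6 S_124350_19 (rows0 par6.d [1, 3, 4, 2, 5, 0]) (gold1 par6 (rows0 par6.d [1, 3, 4, 2, 5, 0])) [] :=
  (g6c sc_124350_19 x_124350_19_0)

theorem cf_124350_20 : Cfd2 par6 S_124350_20 := Cfd2.cons _ _ cf_124350_19 gd_124350_19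

theorem gd_124350_20 : Good par6 S_124350_20 (rows0 par6.d [4, 1, 2, 5, 3, 0]) (gold1 par6 (rows0 par6.d [4, 1, 2, 5, 3, 0])) [] :=
  (g6c sc_124350_20 x_124350_20_0)

theorem cf_124350_21 : Cfd2 par6 S_124350_21 := Cfd2.cons _ _ cf_124350_20 gd_124350_20

theorem gd_124350_21 : Good par6 S_124350_21 (rows0 par6.d [3, 5, 2, 0, 1, 4]) (gold1 par6 (rows0 par6.d [3, 5, 2, 0, 1, 4])) [] :=
  (g6c sc_124350_21 x_124350_21_0)

theorem cf_124350_22 : Cfd2 par6 S_124350_22 := Cfd2.cons _ _ cf_124350_21 gd_124350_21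

theorem gd_124350_22 : Good par6 S_124350_22 (rows0 par6.d [2, 4, 5, 3, 1, 0]) (gold1 par6 (rows0 par6.d [2, 4, 5, 3, 1, 0])) [] :=
  (g6c sc_124350_22 x_124350_22_0)

theorem cf_124350_23 : Cfd2 par6 S_124350_23 := Cfd2.cons _ _ cf_124350_22 gd_124350_22

theorem gd_124350_23 : Good par6 S_124350_23 (rows0 par6.d [3, 5, 1, 4, 2, 0]) (gold1 par6 (rows0 par6.d [3, 5, 1, 4, 2, 0])) [] :=
  (g6c sc_124350_23 x_124350_23_0)

theorem cf_124350_24 : Cfd2 par6 S_124350_24 := Cfd2.cons _ _ cf_124350_23 gd_124350_23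

theorem gd_124350_24 : Good par6 S_124350_24 (rows0 par6.d [3, 5, 4, 2, 0, 1]) (gold1 par6 (rows0 par6.d [3, 5, 4, 2, 0, 1])) [] :=
  (g6c sc_124350_24 x_124350_24_0)

theorem cf_124350_25 : Cfd2 par6 S_124350_25 := Cfd2.cons _ _ cf_124350_24 gd_124350_24

theorem gd_124350_25 : Good par6 S_124350_25 (rows0 par6.d [2, 4, 3, 5, 0, 1]) (gold1 par6 (rows0 par6.d [2, 4, 3, 5, 0, 1])) [] :=
  (g6c sc_124350_25 x_124350_25_0)

theorem cf_124350_26 : Cfd2 par6 S_124350_26 := Cfd2.cons _ _ cf_124350_25 gd_124350_25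

theorem gd_124350_26 : Good par6 S_124350_26 (rows0 par6.d [3, 5, 0, 1, 4, 2]) (gold1 par6 (rows0 par6.d [3, 5, 0, 1, 4, 2])) [] :=
  (g6c sc_124350_26 x_124350_26_0)

theorem cf_124350_27 : Cfd2 par6 S_124350_27 := Cfd2.cons _ _ cf_124350_26 gd_124350_26

theorem gd_124350_27 : Good par6 S_124350_27 (rows0 par6.d [4, 3, 0, 1, 5, 2]) (gold1 par6 (rows0 par6.d [4, 3, 0, 1, 5, 2])) [] :=
  (g6c sc_124350_27 x_124350_27_0)

theorem cf_124350_28 : Cfd2 par6 S_124350_28 := Cfd2.cons _ _ cf_124350_27 gd_124350_27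

theorem gd_124350_28 : Good par6 S_124350_28 (rows0 par6.d [5, 0, 1, 3, 2, 4]) (gold1 par6 (rows0 par6.d [5, 0, 1, 3, 2, 4])) [] :=
  (g6c sc_124350_28 x_124350_28_0)

theorem cf_124350_29 : Cfd2 par6 S_124350_29 := Cfd2.cons _ _ cf_124350_28 gd_124350_28

theorem gd_124350_29 : Good par6 S_124350_29 (rows0 par6.d [5, 4, 0, 1, 3, 2]) (gold1 par6 (rows0 par6.d [5, 4, 0, 1, 3, 2])) [] :=
  (g6c sc_124350_29 x_124350_29_0)

theorem cf_124350_30 : Cfd2 par6 S_124350_30 := Cfd2.cons _ _ cf_124350_29 gd_124350_29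

theorem gd_124350_30 : Good par6 S_124350_30 (rows0 par6.d [4, 2, 5, 3, 0, 1]) (gold1 par6 (rows0 par6.d [4, 2, 5, 3, 0, 1])) [] :=
  (g6c sc_124350_30 x_124350_30_0)

theorem cf_124350_31 : Cfd2 par6 S_124350_31 := Cfd2.cons _ _ cf_124350_30 gd_124350_30

theorem gd_124350_31 : Good par6 S_124350_31 (rows0 par6.d [4, 2, 5, 0, 1, 3]) (gold1 par6 (rows0 par6.d [4, 2, 5, 0, 1, 3])) [] :=
  (g6c sc_124350_31 x_124350_31_0)

theorem cf_124350_32 : Cfd2 par6 S_124350_32 := Cfd2.cons _ _ cf_124350_31 gd_124350_31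

theorem gd_124350_32 : Good par6 S_124350_32 (rows0 par6.d [5, 2, 4, 0, 1, 3]) (gold1 par6 (rows0 par6.d [5, 2, 4, 0, 1, 3])) [] :=
  (g6c sc_124350_32 x_124350_32_0)

theorem cf_124350_33 : Cfd2 par6 S_124350_33 := Cfd2.cons _ _ cf_124350_32 gd_124350_32

theorem gd_124350_33 : Good par6 S_124350_33 (rows0 par6.d [1, 3, 2, 4, 5, 0]) (gold1 par6 (rows0 par6.d [1, 3, 2, 4, 5, 0])) [] :=
  (g6c sc_124350_33 x_124350_33_0)

theorem cf_124350_34 : Cfd2 par6 S_124350_34 := Cfd2.cons _ _ cf_124350_33 gd_124350_33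

theorem gd_124350_34 : Good par6 S_124350_34 (rows0 par6.d [2, 4, 3, 5, 1, 0]) (gold1 par6 (rows0 par6.d [2, 4, 3, 5, 1, 0])) [] :=
  (g6c sc_124350_34 x_124350_34_0)

theorem cf_124350_35 : Cfd2 par6 S_124350_35 := Cfd2.cons _ _ cf_124350_34 gd_124350_34

theorem gd_124350_35 : Good par6 S_124350_35 (rows0 par6.d [3, 1, 4, 5, 0, 2]) (gold1 par6 (rows0 par6.d [3, 1, 4, 5, 0, 2])) [] :=
  (g6c sc_124350_35 x_124350_35_0)

theorem cf_124350_36 : Cfd2 par6 S_124350_36 := Cfd2.cons _ _ cf_124350_35 gd_124350_35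

theorem gd_124350_36 : Good par6 S_124350_36 (rows0 par6.d [3, 5, 4, 1, 2, 0]) (gold1 par6 (rows0 par6.d [3, 5, 4, 1, 2, 0])) [] :=
  (g6c sc_124350_36 x_124350_36_0)

theorem cf_124350_37 : Cfd2 par6 S_124350_37 := Cfd2.cons _ _ cf_124350_36 gd_124350_36

theorem gd_124350_37 : Good par6 S_124350_37 (rows0 par6.d [5, 1, 3, 4, 0, 2]) (gold1 par6 (rows0 par6.d [5, 1, 3, 4, 0, 2])) [] :=
  (g6c sc_124350_37 x_124350_37_0)

theorem cf_124350_38 : Cfd2 par6 S_124350_38 := Cfd2.cons _ _ cf_124350_37 gd_124350_37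

theorem gd_124350_38 : Good par6 S_124350_38 (rows0 par6.d [5, 3, 4, 0, 2, 1]) (gold1 par6 (rows0 par6.d [5, 3, 4, 0, 2, 1])) [] :=
  (g6c sc_124350_38 x_124350_38_0)

theorem cf_124350_39 : Cfd2 par6 S_124350_39 := Cfd2.cons _ _ cf_124350_38 gd_124350_38

theorem gd_124350_39 : Good par6 S_124350_39 (rows0 par6.d [4, 1, 5, 3, 0, 2]) (gold1 par6 (rows0 par6.d [4, 1, 5, 3, 0, 2])) [] :=
  (g6c sc_124350_39 x_124350_39_0)

theorem cf_124350_40 : Cfd2 par6 S_124350_40 := Cfd2.cons _ _ cf_124350_39 gd_124350_39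

theorem gd_124350_40 : Good par6 S_124350_40 (rows0 par6.d [5, 2, 3, 1, 4, 0]) (gold1 par6 (rows0 par6.d [5, 2, 3, 1, 4, 0])) [] :=
  (g6c sc_124350_40 x_124350_40_0)

theorem cf_124350_41 : Cfd2 par6 S_124350_41 := Cfd2.cons _ _ cf_124350_40 gd_124350_40

theorem gd_124350_41 : Good par6 S_124350_41 (rows0 par6.d [3, 4, 2, 0, 5, 1]) (gold1 par6 (rows0 par6.d [3, 4, 2, 0, 5, 1])) [] :=
  (g6c sc_124350_41 x_124350_41_0)

theorem cf_124350_42 : Cfd2 par6 S_124350_42 := Cfd2.cons _ _ cf_124350_41 gd_124350_41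

theorem gd_124350_42 : Good par6 S_124350_42 (rows0 par6.d [2, 3, 5, 0, 4, 1]) (gold1 par6 (rows0 par6.d [2, 3, 5, 0, 4, 1])) [] :=
  (g6c sc_124350_42 x_124350_42_0)

theorem cf_124350_43 : Cfd2 par6 S_124350_43 := Cfd2.cons _ _ cf_124350_42 gd_124350_42

theorem gd_124350_43 : Good par6 S_124350_43 (rows0 par6.d [5, 2, 4, 0, 3, 1]) (gold1 par6 (rows0 par6.d [5, 2, 4, 0, 3, 1])) [] :=
  (g6c sc_124350_43 x_124350_43_0)

theorem cf_124350_44 : Cfd2 par6 S_124350_44 := Cfd2.cons _ _ cf_124350_43 gd_124350_43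

theorem gd_124350_44 : Good par6 S_124350_44 (rows0 par6.d [5, 4, 0, 3, 1, 2]) (gold1 par6 (rows0 par6.d [5, 4, 0, 3, 1, 2])) [] :=
  (g6c sc_124350_44 x_124350_44_0)

theorem cf_124350_45 : Cfd2 par6 S_124350_45 := Cfd2.cons _ _ cf_124350_44 gd_124350_44

theorem gd_124350_45 : Good par6 S_124350_45 (rows0 par6.d [5, 0, 3, 1, 2, 4]) (gold1 par6 (rows0 par6.d [5, 0, 3, 1, 2, 4])) [] :=
  (g6c sc_124350_45 x_124350_45_0)

theorem cf_124350_46 : Cfd2 par6 S_124350_46 := Cfd2.cons _ _ cf_124350_45 gd_124350_45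

theorem gd_124350_46 : Good par6 S_124350_46 (rows0 par6.d [2, 3, 5, 1, 0, 4]) (gold1 par6 (rows0 par6.d [2, 3, 5, 1, 0, 4])) [] :=
  (g6c sc_124350_46 x_124350_46_0)

theorem cf_124350_47 : Cfd2 par6 S_124350_47 := Cfd2.cons _ _ cf_124350_46 gd_124350_46

theorem gd_124350_47 : Good par6 S_124350_47 (rows0 par6.d [4, 5, 0, 2, 1, 3]) (gold1 par6 (rows0 par6.d [4, 5, 0, 2, 1, 3])) [] :=
  (g6c sc_124350_47 x_124350_47_0)

theorem cf_124350_48 : Cfd2 par6 S_124350_48 := Cfd2.cons _ _ cf_124350_47 gd_124350_47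

theorem gd_124350_48 : Good par6 S_124350_48 (rows0 par6.d [5, 4, 0, 2, 1, 3]) (gold1 par6 (rows0 par6.d [5, 4, 0, 2, 1, 3])) [] :=
  (g6c sc_124350_48 x_124350_48_0)

theorem cf_124350_49 : Cfd2 par6 S_124350_49 := Cfd2.cons _ _ cf_124350_48 gd_124350_48

theorem gd_124350_49 : Good par6 S_124350_49 (rows0 par6.d [5, 0, 2, 1, 3, 4]) (gold1 par6 (rows0 par6.d [5, 0, 2, 1, 3, 4])) [] :=
  (g6c sc_124350_49 x_124350_49_0)

theorem cf_124350_50 : Cfd2 par6 S_124350_50 := Cfd2.cons _ _ cf_124350_49 gd_124350_49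

theorem gd_124350_50 : Good par6 S_124350_50 (rows0 par6.d [5, 2, 1, 3, 4, 0]) (gold1 par6 (rows0 par6.d [5, 2, 1, 3, 4, 0])) [] :=
  (g6c sc_124350_50 x_124350_50_0)

theorem cf_124350_51 : Cfd2 par6 S_124350_51 := Cfd2.cons _ _ cf_124350_50 gd_124350_50

theorem gd_124350_51 : Good par6 S_124350_51 (rows0 par6.d [1, 2, 4, 3, 5, 0]) (gold1 par6 (rows0 par6.d [1, 2, 4, 3, 5, 0])) [] :=
  (g6c sc_124350_51 x_124350_51_0)

theorem cf_124350_52 : Cfd2 par6 S_124350_52 := Cfd2.cons _ _ cf_124350_51 gd_124350_51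

theorem gd_124350_52 : Good par6 S_124350_52 (rows0 par6.d [4, 5, 2, 1, 3, 0]) (gold1 par6 (rows0 par6.d [4, 5, 2, 1, 3, 0])) [] :=
  (g6c sc_124350_52 x_124350_52_0)

theorem cf_124350_53 : Cfd2 par6 S_124350_53 := Cfd2.cons _ _ cf_124350_52 gd_124350_52

theorem gd_124350_53 : Good par6 S_124350_53 (rows0 par6.d [5, 1, 3, 2, 4, 0]) (gold1 par6 (rows0 par6.d [5, 1, 3, 2, 4, 0])) [] :=
  (g6c sc_124350_53 x_124350_53_0)

theorem cf_124350_54 : Cfd2 par6 S_124350_54 := Cfd2.cons _ _ cf_124350_53 gd_124350_53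

theorem gd_124350_54 : Good par6 S_124350_54 (rows0 par6.d [5, 3, 2, 4, 0, 1]) (gold1 par6 (rows0 par6.d [5, 3, 2, 4, 0, 1])) [] :=
  (g6c sc_124350_54 x_124350_54_0)

theorem cf_124350_55 : Cfd2 par6 S_124350_55 := Cfd2.cons _ _ cf_124350_54 gd_124350_54

theorem gd_124350_55 : Good par6 S_124350_55 (rows0 par6.d [2, 3, 5, 4, 1, 0]) (gold1 par6 (rows0 par6.d [2, 3, 5, 4, 1, 0])) [] :=
  (g6c sc_124350_55 x_124350_55_0)

theorem cf_124350_56 : Cfd2 par6 S_124350_56 := Cfd2.cons _ _ cf_124350_55 gd_124350_55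

theorem gd_124350_56 : Good par6 S_124350_56 (rows0 par6.d [3, 4, 1, 5, 0, 2]) (gold1 par6 (rows0 par6.d [3, 4, 1, 5, 0, 2])) [] :=
  (g6c sc_124350_56 x_124350_56_0)

theorem cf_124350_57 : Cfd2 par6 S_124350_57 := Cfd2.cons _ _ cf_124350_56 gd_124350_56

theorem gd_124350_57 : Good par6 S_124350_57 (rows0 par6.d [3, 4, 1, 5, 2, 0]) (gold1 par6 (rows0 par6.d [3, 4, 1, 5, 2, 0])) [] :=
  (g6c sc_124350_57 x_124350_57_0)

theorem cf_124350_58 : Cfd2 par6 S_124350_58 := Cfd2.cons _ _ cf_124350_57 gd_124350_57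

theorem gd_124350_58 : Good par6 S_124350_58 (rows0 par6.d [4, 5, 1, 3, 0, 2]) (gold1 par6 (rows0 par6.d [4, 5, 1, 3, 0, 2])) [] :=
  (g6c sc_124350_58 x_124350_58_0)

theorem cf_124350_59 : Cfd2 par6 S_124350_59 := Cfd2.cons _ _ cf_124350_58 gd_124350_58

theorem gd_124350_59 : Good par6 S_124350_59 (rows0 par6.d [4, 5, 3, 0, 2, 1]) (gold1 par6 (rows0 par6.d [4, 5, 3, 0, 2, 1])) [] :=
  (g6c sc_124350_59 x_124350_59_0)

theorem cf_124350_60 : Cfd2 par6 S_124350_60 := Cfd2.cons _ _ cf_124350_59 gd_124350_59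

theorem gd_124350_60 : Good par6 S_124350_60 (rows0 par6.d [5, 3, 1, 4, 0, 2]) (gold1 par6 (rows0 par6.d [5, 3, 1, 4, 0, 2])) [] :=
  (g6c sc_124350_60 x_124350_60_0)

theorem cf_124350_61 : Cfd2 par6 S_124350_61 := Cfd2.cons _ _ cf_124350_60 gd_124350_60

theorem gd_124350_61 : Good par6 S_124350_61 (rows0 par6.d [4, 1, 5, 0, 2, 3]) (gold1 par6 (rows0 par6.d [4, 1, 5, 0, 2, 3])) [] :=
  (g6c sc_124350_61 x_124350_61_0)

theorem cf_124350_62 : Cfd2 par6 S_124350_62 := Cfd2.cons _ _ cf_124350_61 gd_124350_61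

theorem gd_124350_62 : Good par6 S_124350_62 (rows0 par6.d [4, 1, 5, 2, 3, 0]) (gold1 par6 (rows0 par6.d [4, 1, 5, 2, 3, 0])) [] :=
  (g6c sc_124350_62 x_124350_62_0)

theorem cf_124350_63 : Cfd2 par6 S_124350_63 := Cfd2.cons _ _ cf_124350_62 gd_124350_62

theorem gd_124350_63 : Good par6 S_124350_63 (rows0 par6.d [5, 1, 4, 0, 2, 3]) (gold1 par6 (rows0 par6.d [5, 1, 4, 0, 2, 3])) [] :=
  (g6c sc_124350_63 x_124350_63_0)

theorem cf_124350_64 : Cfd2 par6 S_124350_64 := Cfd2.cons _ _ cf_124350_63 gd_124350_63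

theorem gd_124350_64 : Good par6 S_124350_64 (rows0 par6.d [5, 4, 0, 2, 3, 1]) (gold1 par6 (rows0 par6.d [5, 4, 0, 2, 3, 1])) [] :=
  (g6c sc_124350_64 x_124350_64_0)

theorem cf_124350_65 : Cfd2 par6 S_124350_65 := Cfd2.cons _ _ cf_124350_64 gd_124350_64

theorem gd_124350_65 : Good par6 S_124350_65 (rows0 par6.d [5, 0, 2, 3, 1, 4]) (gold1 par6 (rows0 par6.d [5, 0, 2, 3, 1, 4])) [] :=
  (g6c sc_124350_65 x_124350_65_0)

theorem cf_124350_66 : Cfd2 par6 S_124350_66 := Cfd2.cons _ _ cf_124350_65 gd_124350_65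

theorem gd_123450_0 : Good par6 S_123450_0 (rows0 par6.d [1, 2, 3, 4, 5, 0]) (gold1 par6 (rows0 par6.d [1, 2, 3, 4, 5, 0])) [] :=
  (good_N (g6c sc_123450_0 x_123450_0_0) (good_N (good_N (g6c sc_123450_0 x_123450_0_1) (good_N (good_N (good_N (g6c sc_123450_0 x_123450_0_2) (good_N (good_N (g6c sc_123450_0 x_123450_0_3) (g6c sc_123450_0 x_123450_0_4)) (g6c sc_123450_0 x_123450_0_5))) (good_N (good_N (good_N (g6c sc_123450_0 x_123450_0_6) (g6c sc_123450_0 x_123450_0_7)) (g6c sc_123450_0 x_123450_0_8)) (g6c sc_123450_0 x_123450_0_9))) (good_N (good_N (g6c sc_123450_0 x_123450_0_10) (g6c sc_123450_0 x_123450_0_11)) (g6c sc_123450_0 x_123450_0_12)))) (good_N (good_N (good_N (g6c sc_123450_0 x_123450_0_13) (good_N (good_N (good_N (g6c sc_123450_0 x_123450_0_14) (good_N (good_N (g6c sc_123450_0 x_123450_0_15) (g6c sc_123450_0 x_123450_0_16)) (g6c sc_123450_0 x_123450_0_17))) (g6c sc_123450_0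 x_123450_0_18)) (g6c sc_123450_0 x_123450_0_19))) (good_N (good_N (good_N (g6c sc_123450_0 x_123450_0_20) (g6c sc_123450_0 x_123450_0_21)) (good_N (good_N (g6c sc_123450_0 x_123450_0_22) (g6c sc_123450_0 x_123450_0_23)) (g6c sc_123450_0 x_123450_0_24))) (g6c sc_123450_0 x_123450_0_25))) (good_N (good_N (good_N (g6c sc_123450_0 x_123450_0_26) (good_N (good_N (g6c sc_123450_0 x_123450_0_27) (good_N (g6c sc_123450_0 x_123450_0_28) (good_N (g6c sc_123450_0 x_123450_0_29) (g6c sc_123450_0 x_123450_0_30)))) (g6c sc_123450_0 x_123450_0_31))) (good_N (good_N (g6c sc_123450_0 x_123450_0_32) (good_N (good_N (g6c sc_123450_0 x_123450_0_33) (g6c sc_123450_0 x_123450_0_34)) (g6c sc_123450_0 x_123450_0_35))) (g6c sc_123450_0 x_123450_0_36))) (g6c sc_123450_0 x_123450_0_37)))))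

theorem cf_123450_1 : Cfd2 par6 S_123450_1 := Cfd2.cons _ _ Cfd2.nil gd_123450_0

theorem gd_123450_1 : Good par6 S_123450_1 (rows0 par6.d [5, 1, 2, 3, 4, 0]) (gold1 par6 (rows0 par6.d [5, 1, 2, 3, 4, 0])) [] :=
  (good_N (good_N (good_N (good_N (good_N (g6c sc_123450_1 x_123450_1_0) (good_N (good_N (g6c sc_123450_1 x_123450_1_1) (good_N (g6c sc_123450_1 x_123450_1_2) (g6c sc_123450_1 x_123450_1_3))) (good_N (g6c sc_123450_1 x_123450_1_4) (g6c sc_123450_1 x_123450_1_5)))) (good_N (good_N (g6c sc_123450_1 x_123450_1_6) (good_N (g6c sc_123450_1 x_123450_1_7) (g6c sc_123450_1 x_123450_1_8))) (g6c sc_123450_1 x_123450_1_9))) (good_N (good_N (g6c sc_123450_1 x_123450_1_10) (good_N (g6c sc_123450_1 x_123450_1_11) (g6c sc_123450_1 x_123450_1_12))) (g6c sc_123450_1 x_123450_1_13))) (g6c sc_123450_1 x_123450_1_14)) (g6c sc_123450_1 x_123450_1_15))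

theorem cf_123450_2 : Cfd2 par6 S_123450_2 := Cfd2.cons _ _ cf_123450_1 gd_123450_1

theorem gd_123450_2 : Good par6 S_123450_2 (rows0 par6.d [4, 5, 1, 2, 3, 0]) (gold1 par6 (rows0 par6.d [4, 5, 1, 2, 3, 0])) [] :=
  (good_N (good_N (good_N (g6c sc_123450_2 x_123450_2_0) (g6c sc_123450_2 x_123450_2_1)) (good_N (good_N (g6c sc_123450_2 x_123450_2_2) (g6c sc_123450_2 x_123450_2_3)) (g6c sc_123450_2 x_123450_2_4))) (g6c sc_123450_2 x_123450_2_5))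

theorem cf_123450_3 : Cfd2 par6 S_123450_3 := Cfd2.cons _ _ cf_123450_2 gd_123450_2

theorem gd_123450_3 : Good par6 S_123450_3 (rows0 par6.d [3, 4, 5, 2, 0, 1]) (gold1 par6 (rows0 par6.d [3, 4, 5, 2, 0, 1])) [] :=
  (g6c sc_123450_3 x_123450_3_0)

theorem cf_123450_4 : Cfd2 par6 S_123450_4 := Cfd2.cons _ _ cf_123450_3 gd_123450_3

theorem gd_123450_4 : Good par6 S_123450_4 (rows0 par6.d [4, 5, 2, 3, 0, 1]) (gold1 par6 (rows0 par6.d [4, 5, 2, 3, 0, 1])) [] :=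
  (g6c sc_123450_4 x_123450_4_0)

theorem cf_123450_5 : Cfd2 par6 S_123450_5 := Cfd2.cons _ _ cf_123450_4 gd_123450_4

theorem gd_123450_5 : Good par6 S_123450_5 (rows0 par6.d [3, 4, 5, 1, 2, 0]) (gold1 par6 (rows0 par6.d [3, 4, 5, 1, 2, 0])) [] :=
  (g6c sc_123450_5 x_123450_5_0)

theorem cf_123450_6 : Cfd2 par6 S_123450_6 := Cfd2.cons _ _ cf_123450_5 gd_123450_5

theorem gd_123450_6 : Good par6 S_123450_6 (rows0 par6.d [2, 3, 4, 5, 0, 1]) (gold1 par6 (rows0 par6.d [2, 3, 4, 5, 0, 1])) [] :=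
  (g6c sc_123450_6 x_123450_6_0)

theorem cf_123450_7 : Cfd2 par6 S_123450_7 := Cfd2.cons _ _ cf_123450_6 gd_123450_6

theorem gd_123450_7 : Good par6 S_123450_7 (rows0 par6.d [2, 3, 4, 5, 1, 0]) (gold1 par6 (rows0 par6.d [2, 3, 4, 5, 1, 0])) [] :=
  (g6c sc_123450_7 x_123450_7_0)

theorem cf_123450_8 : Cfd2 par6 S_123450_8 := Cfd2.cons _ _ cf_123450_7 gd_123450_7

theorem gd_123450_8 : Good par6 S_123450_8 (rows0 par6.d [5, 2, 3, 4, 0, 1]) (gold1 par6 (rows0 par6.d [5, 2, 3, 4, 0, 1])) [] :=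
  (g6c sc_123450_8 x_123450_8_0)

theorem cf_123450_9 : Cfd2 par6 S_123450_9 := Cfd2.cons _ _ cf_123450_8 gd_123450_8

theorem gd_123450_9 : Good par6 S_123450_9 (rows0 par6.d [3, 4, 5, 0, 1, 2]) (gold1 par6 (rows0 par6.d [3, 4, 5, 0, 1, 2])) [] :=
  (g6c sc_123450_9 x_123450_9_0)

theorem cf_123450_10 : Cfd2 par6 S_123450_10 := Cfd2.cons _ _ cf_123450_9 gd_123450_9

theorem gd_123450_10 : Good par6 S_123450_10 (rows0 par6.d [4, 5, 3, 0, 1, 2]) (gold1 par6 (rows0 par6.d [4, 5, 3, 0, 1, 2])) [] :=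
  (g6c sc_123450_10 x_123450_10_0)

theorem cf_123450_11 : Cfd2 par6 S_123450_11 := Cfd2.cons _ _ cf_123450_10 gd_123450_10

theorem gd_123450_11 : Good par6 S_123450_11 (rows0 par6.d [5, 3, 4, 0, 1, 2]) (gold1 par6 (rows0 par6.d [5, 3, 4, 0, 1, 2])) [] :=
  (g6c sc_123450_11 x_123450_11_0)

theorem cf_123450_12 : Cfd2 par6 S_123450_12 := Cfd2.cons _ _ cf_123450_11 gd_123450_11

theorem gd_123450_12 : Good par6 S_123450_12 (rows0 par6.d [4, 5, 0, 1, 2, 3]) (gold1 par6 (rows0 par6.d [4, 5, 0, 1, 2, 3])) [] :=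
  (g6c sc_123450_12 x_123450_12_0)

theorem cf_123450_13 : Cfd2 par6 S_123450_13 := Cfd2.cons _ _ cf_123450_12 gd_123450_12

theorem gd_123450_13 : Good par6 S_123450_13 (rows0 par6.d [5, 4, 0, 1, 2, 3]) (gold1 par6 (rows0 par6.d [5, 4, 0, 1, 2, 3])) [] :=
  (g6c sc_123450_13 x_123450_13_0)

theorem cf_123450_14 : Cfd2 par6 S_123450_14 := Cfd2.cons _ _ cf_123450_13 gd_123450_13

theorem gd_123450_14 : Good par6 S_123450_14 (rows0 par6.d [5, 0, 1, 2, 3, 4]) (gold1 par6 (rows0 par6.d [5, 0, 1, 2, 3, 4])) [] :=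
  (g6c sc_123450_14 x_123450_14_0)

theorem cf_123450_15 : Cfd2 par6 S_123450_15 := Cfd2.cons _ _ cf_123450_14 gd_123450_14

theorem gd_123504_0 : Good par6 S_123504_0 (rows0 par6.d [1, 2, 5, 0, 3, 4]) (gold1 par6 (rows0 par6.d [1, 2, 5, 0, 3, 4])) [] :=
  (g6c sc_123504_0 x_123504_0_0)

theorem cf_123504_1 : Cfd2 par6 S_123504_1 := Cfd2.cons _ _ Cfd2.nil gd_123504_0

theorem gd_123504_1 : Good par6 S_123504_1 (rows0 par6.d [3, 0, 1, 4, 5, 2]) (gold1 par6 (rows0 par6.d [3, 0, 1, 4, 5, 2])) [] :=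
  (g6c sc_123504_1 x_123504_1_0)

theorem cf_123504_2 : Cfd2 par6 S_123504_2 := Cfd2.cons _ _ cf_123504_1 gd_123504_1

theorem gd_123504_2 : Good par6 S_123504_2 (rows0 par6.d [1, 2, 5, 4, 0, 3]) (gold1 par6 (rows0 par6.d [1, 2, 5, 4, 0, 3])) [] :=
  (good_N (g6c sc_123504_2 x_123504_2_0) (g6c sc_123504_2 x_123504_2_1))

theorem cf_123504_3 : Cfd2 par6 S_123504_3 := Cfd2.cons _ _ cf_123504_2 gd_123504_2

theorem gd_123504_3 : Good par6 S_123504_3 (rows0 par6.d [4, 0, 1, 5, 3, 2]) (gold1 par6 (rows0 par6.d [4, 0, 1, 5, 3, 2])) [] :=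
  (good_N (g6c sc_123504_3 x_123504_3_0) (g6c sc_123504_3 x_123504_3_1))

theorem cf_123504_4 : Cfd2 par6 S_123504_4 := Cfd2.cons _ _ cf_123504_3 gd_123504_3

theorem gd_123504_4 : Good par6 S_123504_4 (rows0 par6.d [1, 2, 4, 5, 0, 3]) (gold1 par6 (rows0 par6.d [1, 2, 4, 5, 0, 3])) [] :=
  (good_N (good_N (g6c sc_123504_4 x_123504_4_0) (good_N (g6c sc_123504_4 x_123504_4_1) (g6c sc_123504_4 x_123504_4_2))) (g6c sc_123504_4 x_123504_4_3))

theorem cf_123504_5 : Cfd2 par6 S_123504_5 := Cfd2.cons _ _ cf_123504_4 gd_123504_4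

theorem gd_123504_5 : Good par6 S_123504_5 (rows0 par6.d [4, 0, 1, 5, 2, 3]) (gold1 par6 (rows0 par6.d [4, 0, 1, 5, 2, 3])) [] :=
  (good_N (g6c sc_123504_5 x_123504_5_0) (good_N (good_N (g6c sc_123504_5 x_123504_5_1) (g6c sc_123504_5 x_123504_5_2)) (g6c sc_123504_5 x_123504_5_3)))

theorem cf_123504_6 : Cfd2 par6 S_123504_6 := Cfd2.cons _ _ cf_123504_5 gd_123504_5

theorem gd_123504_6 : Good par6 S_123504_6 (rows0 par6.d [1, 5, 0, 2, 3, 4]) (gold1 par6 (rows0 par6.d [1, 5, 0, 2, 3, 4])) [] :=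
  (good_N (good_N (g6c sc_123504_6 x_123504_6_0) (g6c sc_123504_6 x_123504_6_1)) (g6c sc_123504_6 x_123504_6_2))

theorem cf_123504_7 : Cfd2 par6 S_123504_7 := Cfd2.cons _ _ cf_123504_6 gd_123504_6

theorem gd_123504_7 : Good par6 S_123504_7 (rows0 par6.d [2, 5, 0, 1, 3, 4]) (gold1 par6 (rows0 par6.d [2, 5, 0, 1, 3, 4])) [] :=
  (good_N (good_N (g6c sc_123504_7 x_123504_7_0) (g6c sc_123504_7 x_123504_7_1)) (g6c sc_123504_7 x_123504_7_2))

theorem cf_123504_8 : Cfd2 par6 S_123504_8 := Cfd2.cons _ _ cf_123504_7 gd_123504_7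

theorem gd_123504_8 : Good par6 S_123504_8 (rows0 par6.d [1, 4, 5, 3, 0, 2]) (gold1 par6 (rows0 par6.d [1, 4, 5, 3, 0, 2])) [] :=
  (good_N (g6c sc_123504_8 x_123504_8_0) (g6c sc_123504_8 x_123504_8_1))

theorem cf_123504_9 : Cfd2 par6 S_123504_9 := Cfd2.cons _ _ cf_123504_8 gd_123504_8

theorem gd_123504_9 : Good par6 S_123504_9 (rows0 par6.d [1, 4, 5, 0, 2, 3]) (gold1 par6 (rows0 par6.d [1, 4, 5, 0, 2, 3])) [] :=
  (g6c sc_123504_9 x_123504_9_0)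

theorem cf_123504_10 : Cfd2 par6 S_123504_10 := Cfd2.cons _ _ cf_123504_9 gd_123504_9

theorem gd_123504_10 : Good par6 S_123504_10 (rows0 par6.d [1, 5, 4, 0, 2, 3]) (gold1 par6 (rows0 par6.d [1, 5, 4, 0, 2, 3])) [] :=
  (g6c sc_123504_10 x_123504_10_0)

theorem cf_123504_11 : Cfd2 par6 S_123504_11 := Cfd2.cons _ _ cf_123504_10 gd_123504_10

theorem gd_123504_11 : Good par6 S_123504_11 (rows0 par6.d [1, 4, 5, 2, 3, 0]) (gold1 par6 (rows0 par6.d [1, 4, 5, 2, 3, 0])) [] :=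
  (g6c sc_123504_11 x_123504_11_0)

theorem cf_123504_12 : Cfd2 par6 S_123504_12 := Cfd2.cons _ _ cf_123504_11 gd_123504_11

theorem gd_123504_12 : Good par6 S_123504_12 (rows0 par6.d [1, 5, 3, 4, 0, 2]) (gold1 par6 (rows0 par6.d [1, 5, 3, 4, 0, 2])) [] :=
  (g6c sc_123504_12 x_123504_12_0)

theorem cf_123504_13 : Cfd2 par6 S_123504_13 := Cfd2.cons _ _ cf_123504_12 gd_123504_12

theorem gd_123504_13 : Good par6 S_123504_13 (rows0 par6.d [2, 0, 3, 4, 5, 1]) (gold1 par6 (rows0 par6.d [2, 0, 3, 4, 5, 1])) [] :=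
  (good_N (g6c sc_123504_13 x_123504_13_0) (good_N (g6c sc_123504_13 x_123504_13_1) (g6c sc_123504_13 x_123504_13_2)))

theorem cf_123504_14 : Cfd2 par6 S_123504_14 := Cfd2.cons _ _ cf_123504_13 gd_123504_13

theorem gd_123504_14 : Good par6 S_123504_14 (rows0 par6.d [2, 3, 0, 4, 5, 1]) (gold1 par6 (rows0 par6.d [2, 3, 0, 4, 5, 1])) [] :=
  (g6c sc_123504_14 x_123504_14_0)

theorem cf_123504_15 : Cfd2 par6 S_123504_15 := Cfd2.cons _ _ cf_123504_14 gd_123504_14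

theorem gd_123504_15 : Good par6 S_123504_15 (rows0 par6.d [5, 3, 4, 1, 2, 0]) (gold1 par6 (rows0 par6.d [5, 3, 4, 1, 2, 0])) [] :=
  (g6c sc_123504_15 x_123504_15_0)

theorem cf_123504_16 : Cfd2 par6 S_123504_16 := Cfd2.cons _ _ cf_123504_15 gd_123504_15

theorem gd_123504_16 : Good par6 S_123504_16 (rows0 par6.d [5, 4, 1, 2, 0, 3]) (gold1 par6 (rows0 par6.d [5, 4, 1, 2, 0, 3])) [] :=
  (g6c sc_123504_16 x_123504_16_0)

theorem cf_123504_17 : Cfd2 par6 S_123504_17 := Cfd2.cons _ _ cf_123504_16 gd_123504_16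

theorem gd_123504_17 : Good par6 S_123504_17 (rows0 par6.d [5, 1, 2, 0, 3, 4]) (gold1 par6 (rows0 par6.d [5, 1, 2, 0, 3, 4])) [] :=
  (g6c sc_123504_17 x_123504_17_0)

theorem cf_123504_18 : Cfd2 par6 S_123504_18 := Cfd2.cons _ _ cf_123504_17 gd_123504_17

theorem gd_123504_18 : Good par6 S_123504_18 (rows0 par6.d [5, 2, 0, 3, 4, 1]) (gold1 par6 (rows0 par6.d [5, 2, 0, 3, 4, 1])) [] :=
  (g6c sc_123504_18 x_123504_18_0)

theorem cf_123504_19 : Cfd2 par6 S_123504_19 := Cfd2.cons _ _ cf_123504_18 gd_123504_18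

theorem gd_123504_19 : Good par6 S_123504_19 (rows0 par6.d [5, 0, 3, 4, 1, 2]) (gold1 par6 (rows0 par6.d [5, 0, 3, 4, 1, 2])) [] :=
  (g6c sc_123504_19 x_123504_19_0)

theorem cf_123504_20 : Cfd2 par6 S_123504_20 := Cfd2.cons _ _ cf_123504_19 gd_123504_19

theorem gd_123504_20 : Good par6 S_123504_20 (rows0 par6.d [4, 2, 3, 5, 1, 0]) (gold1 par6 (rows0 par6.d [4, 2, 3, 5, 1, 0])) [] :=
  (g6c sc_123504_20 x_123504_20_0)

theorem cf_123504_21 : Cfd2 par6 S_123504_21 := Cfd2.cons _ _ cf_123504_20 gd_123504_20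

theorem gd_123504_21 : Good par6 S_123504_21 (rows0 par6.d [2, 5, 1, 3, 4, 0]) (gold1 par6 (rows0 par6.d [2, 5, 1, 3, 4, 0])) [] :=
  (g6c sc_123504_21 x_123504_21_0)

theorem cf_123504_22 : Cfd2 par6 S_123504_22 := Cfd2.cons _ _ cf_123504_21 gd_123504_21

theorem gd_123504_22 : Good par6 S_123504_22 (rows0 par6.d [3, 1, 2, 4, 5, 0]) (gold1 par6 (rows0 par6.d [3, 1, 2, 4, 5, 0])) [] :=
  (g6c sc_123504_22 x_123504_22_0)

theorem cf_123504_23 : Cfd2 par6 S_123504_23 := Cfd2.cons _ _ cf_123504_22 gd_123504_22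

theorem gd_123504_23 : Good par6 S_123504_23 (rows0 par6.d [4, 0, 5, 3, 1, 2]) (gold1 par6 (rows0 par6.d [4, 0, 5, 3, 1, 2])) [] :=
  (g6c sc_123504_23 x_123504_23_0)

theorem cf_123504_24 : Cfd2 par6 S_123504_24 := Cfd2.cons _ _ cf_123504_23 gd_123504_23

theorem gd_123504_24 : Good par6 S_123504_24 (rows0 par6.d [3, 0, 4, 5, 1, 2]) (gold1 par6 (rows0 par6.d [3, 0, 4, 5, 1, 2])) [] :=
  (g6c sc_123504_24 x_123504_24_0)

theorem cf_123504_25 : Cfd2 par6 S_123504_25 := Cfd2.cons _ _ cf_123504_24 gd_123504_24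

theorem gd_123504_25 : Good par6 S_123504_25 (rows0 par6.d [3, 0, 4, 5, 2, 1]) (gold1 par6 (rows0 par6.d [3, 0, 4, 5, 2, 1])) [] :=
  (g6c sc_123504_25 x_123504_25_0)

theorem cf_123504_26 : Cfd2 par6 S_123504_26 := Cfd2.cons _ _ cf_123504_25 gd_123504_25

theorem gd_123504_26 : Good par6 S_123504_26 (rows0 par6.d [4, 0, 5, 2, 3, 1]) (gold1 par6 (rows0 par6.d [4, 0, 5, 2, 3, 1])) [] :=
  (g6c sc_123504_26 x_123504_26_0)

theorem cf_123504_27 : Cfd2 par6 S_123504_27 := Cfd2.cons _ _ cf_123504_26 gd_123504_26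

theorem gd_123504_27 : Good par6 S_123504_27 (rows0 par6.d [2, 5, 4, 0, 1, 3]) (gold1 par6 (rows0 par6.d [2, 5, 4, 0, 1, 3])) [] :=
  (g6c sc_123504_27 x_123504_27_0)

theorem cf_123504_28 : Cfd2 par6 S_123504_28 := Cfd2.cons _ _ cf_123504_27 gd_123504_27

theorem gd_123504_28 : Good par6 S_123504_28 (rows0 par6.d [3, 4, 0, 5, 2, 1]) (gold1 par6 (rows0 par6.d [3, 4, 0, 5, 2, 1])) [] :=
  (g6c sc_123504_28 x_123504_28_0)

theorem cf_123504_29 : Cfd2 par6 S_123504_29 := Cfd2.cons _ _ cf_123504_28 gd_123504_28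

theorem gd_123504_29 : Good par6 S_123504_29 (rows0 par6.d [1, 3, 4, 5, 0, 2]) (gold1 par6 (rows0 par6.d [1, 3, 4, 5, 0, 2])) [] :=
  (g6c sc_123504_29 x_123504_29_0)

theorem cf_123504_30 : Cfd2 par6 S_123504_30 := Cfd2.cons _ _ cf_123504_29 gd_123504_29

theorem gd_123504_30 : Good par6 S_123504_30 (rows0 par6.d [4, 0, 5, 1, 2, 3]) (gold1 par6 (rows0 par6.d [4, 0, 5, 1, 2, 3])) [] :=
  (g6c sc_123504_30 x_123504_30_0)

theorem cf_123504_31 : Cfd2 par6 S_123504_31 := Cfd2.cons _ _ cf_123504_30 gd_123504_30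

theorem gd_123504_31 : Good par6 S_123504_31 (rows0 par6.d [1, 2, 4, 5, 3, 0]) (gold1 par6 (rows0 par6.d [1, 2, 4, 5, 3, 0])) [] :=
  (g6c sc_123504_31 x_123504_31_0)

theorem cf_123504_32 : Cfd2 par6 S_123504_32 := Cfd2.cons _ _ cf_123504_31 gd_123504_31

theorem gd_123504_32 : Good par6 S_123504_32 (rows0 par6.d [4, 2, 3, 5, 0, 1]) (gold1 par6 (rows0 par6.d [4, 2, 3, 5, 0, 1])) [] :=
  (g6c sc_123504_32 x_123504_32_0)

theorem cf_123504_33 : Cfd2 par6 S_123504_33 := Cfd2.cons _ _ cf_123504_32 gd_123504_32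

theorem gd_123504_33 : Good par6 S_123504_33 (rows0 par6.d [3, 5, 2, 4, 0, 1]) (gold1 par6 (rows0 par6.d [3, 5, 2, 4, 0, 1])) [] :=
  (g6c sc_123504_33 x_123504_33_0)

theorem cf_123504_34 : Cfd2 par6 S_123504_34 := Cfd2.cons _ _ cf_123504_33 gd_123504_33

theorem gd_123504_34 : Good par6 S_123504_34 (rows0 par6.d [2, 4, 5, 0, 1, 3]) (gold1 par6 (rows0 par6.d [2, 4, 5, 0, 1, 3])) [] :=
  (g6c sc_123504_34 x_123504_34_0)

theorem cf_123504_35 : Cfd2 par6 S_123504_35 := Cfd2.cons _ _ cf_123504_34 gd_123504_34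

theorem gd_123504_35 : Good par6 S_123504_35 (rows0 par6.d [2, 4, 5, 3, 0, 1]) (gold1 par6 (rows0 par6.d [2, 4, 5, 3, 0, 1])) [] :=
  (g6c sc_123504_35 x_123504_35_0)

theorem cf_123504_36 : Cfd2 par6 S_123504_36 := Cfd2.cons _ _ cf_123504_35 gd_123504_35

theorem gd_123504_36 : Good par6 S_123504_36 (rows0 par6.d [5, 1, 3, 4, 2, 0]) (gold1 par6 (rows0 par6.d [5, 1, 3, 4, 2, 0])) [] :=
  (g6c sc_123504_36 x_123504_36_0)

theorem cf_123504_37 : Cfd2 par6 S_123504_37 := Cfd2.cons _ _ cf_123504_36 gd_123504_36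

theorem gd_123504_37 : Good par6 S_123504_37 (rows0 par6.d [5, 3, 4, 2, 0, 1]) (gold1 par6 (rows0 par6.d [5, 3, 4, 2, 0, 1])) [] :=
  (g6c sc_123504_37 x_123504_37_0)

theorem cf_123504_38 : Cfd2 par6 S_123504_38 := Cfd2.cons _ _ cf_123504_37 gd_123504_37

theorem gd_123504_38 : Good par6 S_123504_38 (rows0 par6.d [5, 4, 2, 0, 1, 3]) (gold1 par6 (rows0 par6.d [5, 4, 2, 0, 1, 3])) [] :=
  (g6c sc_123504_38 x_123504_38_0)

theorem cf_123504_39 : Cfd2 par6 S_123504_39 := Cfd2.cons _ _ cf_123504_38 gd_123504_38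

theorem gd_123504_39 : Good par6 S_123504_39 (rows0 par6.d [5, 0, 1, 3, 4, 2]) (gold1 par6 (rows0 par6.d [5, 0, 1, 3, 4, 2])) [] :=
  (g6c sc_123504_39 x_123504_39_0)

theorem cf_123504_40 : Cfd2 par6 S_123504_40 := Cfd2.cons _ _ cf_123504_39 gd_123504_39

theorem gd_123504_40 : Good par6 S_123504_40 (rows0 par6.d [5, 2, 0, 1, 3, 4]) (gold1 par6 (rows0 par6.d [5, 2, 0, 1, 3, 4])) [] :=
  (g6c sc_123504_40 x_123504_40_0)

theorem cf_123504_41 : Cfd2 par6 S_123504_41 := Cfd2.cons _ _ cf_123504_40 gd_123504_40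

theorem gd_123504_41 : Good par6 S_123504_41 (rows0 par6.d [4, 5, 2, 3, 1, 0]) (gold1 par6 (rows0 par6.d [4, 5, 2, 3, 1, 0])) [] :=
  (g6c sc_123504_41 x_123504_41_0)

theorem cf_123504_42 : Cfd2 par6 S_123504_42 := Cfd2.cons _ _ cf_123504_41 gd_123504_41

theorem gd_123504_42 : Good par6 S_123504_42 (rows0 par6.d [3, 4, 1, 2, 5, 0]) (gold1 par6 (rows0 par6.d [3, 4, 1, 2, 5, 0])) [] :=
  (g6c sc_123504_42 x_123504_42_0)

theorem cf_123504_43 : Cfd2 par6 S_123504_43 := Cfd2.cons _ _ cf_123504_42 gd_123504_42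

theorem gd_123504_43 : Good par6 S_123504_43 (rows0 par6.d [1, 3, 4, 5, 2, 0]) (gold1 par6 (rows0 par6.d [1, 3, 4, 5, 2, 0])) [] :=
  (g6c sc_123504_43 x_123504_43_0)

theorem cf_123504_44 : Cfd2 par6 S_123504_44 := Cfd2.cons _ _ cf_123504_43 gd_123504_43

theorem gd_123504_44 : Good par6 S_123504_44 (rows0 par6.d [4, 5, 0, 2, 3, 1]) (gold1 par6 (rows0 par6.d [4, 5, 0, 2, 3, 1])) [] :=
  (g6c sc_123504_44 x_123504_44_0)

theorem cf_123504_45 : Cfd2 par6 S_123504_45 := Cfd2.cons _ _ cf_123504_44 gd_123504_44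

theorem gd_123504_45 : Good par6 S_123504_45 (rows0 par6.d [4, 5, 3, 1, 0, 2]) (gold1 par6 (rows0 par6.d [4, 5, 3, 1, 0, 2])) [] :=
  (g6c sc_123504_45 x_123504_45_0)

theorem cf_123504_46 : Cfd2 par6 S_123504_46 := Cfd2.cons _ _ cf_123504_45 gd_123504_45

theorem gd_123504_46 : Good par6 S_123504_46 (rows0 par6.d [4, 5, 1, 0, 2, 3]) (gold1 par6 (rows0 par6.d [4, 5, 1, 0, 2, 3])) [] :=
  (g6c sc_123504_46 x_123504_46_0)

theorem cf_123504_47 : Cfd2 par6 S_123504_47 := Cfd2.cons _ _ cf_123504_46 gd_123504_46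

theorem gd_123504_47 : Good par6 S_123504_47 (rows0 par6.d [4, 1, 2, 3, 5, 0]) (gold1 par6 (rows0 par6.d [4, 1, 2, 3, 5, 0])) [] :=
  (g6c sc_123504_47 x_123504_47_0)

theorem cf_123504_48 : Cfd2 par6 S_123504_48 := Cfd2.cons _ _ cf_123504_47 gd_123504_47

theorem gd_123504_48 : Good par6 S_123504_48 (rows0 par6.d [5, 0, 2, 3, 4, 1]) (gold1 par6 (rows0 par6.d [5, 0, 2, 3, 4, 1])) [] :=
  (g6c sc_123504_48 x_123504_48_0)

theorem cf_123504_49 : Cfd2 par6 S_123504_49 := Cfd2.cons _ _ cf_123504_48 gd_123504_48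

theorem gd_123504_49 : Good par6 S_123504_49 (rows0 par6.d [5, 2, 3, 4, 1, 0]) (gold1 par6 (rows0 par6.d [5, 2, 3, 4, 1, 0])) [] :=
  (g6c sc_123504_49 x_123504_49_0)

theorem cf_123504_50 : Cfd2 par6 S_123504_50 := Cfd2.cons _ _ cf_123504_49 gd_123504_49

theorem gd_123504_50 : Good par6 S_123504_50 (rows0 par6.d [5, 3, 4, 1, 0, 2]) (gold1 par6 (rows0 par6.d [5, 3, 4, 1, 0, 2])) [] :=
  (g6c sc_123504_50 x_123504_50_0)

theorem cf_123504_51 : Cfd2 par6 S_123504_51 := Cfd2.cons _ _ cf_123504_50 gd_123504_50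

theorem gd_123504_51 : Good par6 S_123504_51 (rows0 par6.d [5, 4, 1, 0, 2, 3]) (gold1 par6 (rows0 par6.d [5, 4, 1, 0, 2, 3])) [] :=
  (g6c sc_123504_51 x_123504_51_0)

theorem cf_123504_52 : Cfd2 par6 S_123504_52 := Cfd2.cons _ _ cf_123504_51 gd_123504_51

theorem gd_123504_52 : Good par6 S_123504_52 (rows0 par6.d [5, 1, 0, 2, 3, 4]) (gold1 par6 (rows0 par6.d [5, 1, 0, 2, 3, 4])) [] :=
  (g6c sc_123504_52 x_123504_52_0)

theorem cf_123504_53 : Cfd2 par6 S_123504_53 := Cfd2.cons _ _ cf_123504_52 gd_123504_52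

theorem gd_123504_53 : Good par6 S_123504_53 (rows0 par6.d [2, 4, 5, 1, 3, 0]) (gold1 par6 (rows0 par6.d [2, 4, 5, 1, 3, 0])) [] :=
  (g6c sc_123504_53 x_123504_53_0)

theorem cf_123504_54 : Cfd2 par6 S_123504_54 := Cfd2.cons _ _ cf_123504_53 gd_123504_53

theorem gd_123504_54 : Good par6 S_123504_54 (rows0 par6.d [3, 5, 1, 2, 4, 0]) (gold1 par6 (rows0 par6.d [3, 5, 1, 2, 4, 0])) [] :=
  (g6c sc_123504_54 x_123504_54_0)

theorem cf_123504_55 : Cfd2 par6 S_123504_55 := Cfd2.cons _ _ cf_123504_54 gd_123504_54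

theorem gd_123504_55 : Good par6 S_123504_55 (rows0 par6.d [2, 3, 5, 1, 4, 0]) (gold1 par6 (rows0 par6.d [2, 3, 5, 1, 4, 0])) [] :=
  (g6c sc_123504_55 x_123504_55_0)

theorem cf_123504_56 : Cfd2 par6 S_123504_56 := Cfd2.cons _ _ cf_123504_55 gd_123504_55

theorem gd_123504_56 : Good par6 S_123504_56 (rows0 par6.d [1, 2, 3, 5, 0, 4]) (gold1 par6 (rows0 par6.d [1, 2, 3, 5, 0, 4])) [] :=
  (g6c sc_123504_56 x_123504_56_0)

theorem cf_123504_57 : Cfd2 par6 S_123504_57 := Cfd2.cons _ _ cf_123504_56 gd_123504_56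

theorem gd_123504_57 : Good par6 S_123504_57 (rows0 par6.d [2, 3, 5, 0, 1, 4]) (gold1 par6 (rows0 par6.d [2, 3, 5, 0, 1, 4])) [] :=
  (g6c sc_123504_57 x_123504_57_0)

theorem cf_123504_58 : Cfd2 par6 S_123504_58 := Cfd2.cons _ _ cf_123504_57 gd_123504_57

theorem gd_123504_58 : Good par6 S_123504_58 (rows0 par6.d [3, 5, 0, 1, 2, 4]) (gold1 par6 (rows0 par6.d [3, 5, 0, 1, 2, 4])) [] :=
  (g6c sc_123504_58 x_123504_58_0)

theorem cf_123504_59 : Cfd2 par6 S_123504_59 := Cfd2.cons _ _ cf_123504_58 gd_123504_58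

theorem gd_123504_59 : Good par6 S_123504_59 (rows0 par6.d [4, 0, 1, 2, 5, 3]) (gold1 par6 (rows0 par6.d [4, 0, 1, 2, 5, 3])) [] :=
  (g6c sc_123504_59 x_123504_59_0)

theorem cf_123504_60 : Cfd2 par6 S_123504_60 := Cfd2.cons _ _ cf_123504_59 gd_123504_59

theorem gd_123504_60 : Good par6 S_123504_60 (rows0 par6.d [5, 0, 1, 2, 4, 3]) (gold1 par6 (rows0 par6.d [5, 0, 1, 2, 4, 3])) [] :=
  (g6c sc_123504_60 x_123504_60_0)

theorem cf_123504_61 : Cfd2 par6 S_123504_61 := Cfd2.cons _ _ cf_123504_60 gd_123504_60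

theorem gd_123504_61 : Good par6 S_123504_61 (rows0 par6.d [1, 2, 5, 3, 4, 0]) (gold1 par6 (rows0 par6.d [1, 2, 5, 3, 4, 0])) [] :=
  (g6c sc_123504_61 x_123504_61_0)

theorem cf_123504_62 : Cfd2 par6 S_123504_62 := Cfd2.cons _ _ cf_123504_61 gd_123504_61

theorem gd_123504_62 : Good par6 S_123504_62 (rows0 par6.d [5, 1, 4, 2, 3, 0]) (gold1 par6 (rows0 par6.d [5, 1, 4, 2, 3, 0])) [] :=
  (g6c sc_123504_62 x_123504_62_0)

theorem cf_123504_63 : Cfd2 par6 S_123504_63 := Cfd2.cons _ _ cf_123504_62 gd_123504_62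

theorem gd_123504_63 : Good par6 S_123504_63 (rows0 par6.d [4, 5, 1, 2, 0, 3]) (gold1 par6 (rows0 par6.d [4, 5, 1, 2, 0, 3])) [] :=
  (g6c sc_123504_63 x_123504_63_0)

theorem cf_123504_64 : Cfd2 par6 S_123504_64 := Cfd2.cons _ _ cf_123504_63 gd_123504_63

theorem gd_123504_64 : Good par6 S_123504_64 (rows0 par6.d [4, 5, 3, 1, 2, 0]) (gold1 par6 (rows0 par6.d [4, 5, 3, 1, 2, 0])) [] :=
  (g6c sc_123504_64 x_123504_64_0)

theorem cf_123504_65 : Cfd2 par6 S_123504_65 := Cfd2.cons _ _ cf_123504_64 gd_123504_64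

theorem gd_123504_65 : Good par6 S_123504_65 (rows0 par6.d [3, 4, 2, 5, 1, 0]) (gold1 par6 (rows0 par6.d [3, 4, 2, 5, 1, 0])) [] :=
  (g6c sc_123504_65 x_123504_65_0)

theorem cf_123504_66 : Cfd2 par6 S_123504_66 := Cfd2.cons _ _ cf_123504_65 gd_123504_65

theorem gd_123504_66 : Good par6 S_123504_66 (rows0 par6.d [2, 3, 1, 4, 5, 0]) (gold1 par6 (rows0 par6.d [2, 3, 1, 4, 5, 0])) [] :=
  (g6c sc_123504_66 x_123504_66_0)

theorem cf_123504_67 : Cfd2 par6 S_123504_67 := Cfd2.cons _ _ cf_123504_66 gd_123504_66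

theorem gd_123504_67 : Good par6 S_123504_67 (rows0 par6.d [4, 5, 2, 0, 3, 1]) (gold1 par6 (rows0 par6.d [4, 5, 2, 0, 3, 1])) [] :=
  (g6c sc_123504_67 x_123504_67_0)

theorem cf_123504_68 : Cfd2 par6 S_123504_68 := Cfd2.cons _ _ cf_123504_67 gd_123504_67

theorem gd_123504_68 : Good par6 S_123504_68 (rows0 par6.d [3, 4, 5, 0, 2, 1]) (gold1 par6 (rows0 par6.d [3, 4, 5, 0, 2, 1])) [] :=
  (g6c sc_123504_68 x_123504_68_0)

theorem cf_123504_69 : Cfd2 par6 S_123504_69 := Cfd2.cons _ _ cf_123504_68 gd_123504_68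

theorem gd_123504_69 : Good par6 S_123504_69 (rows0 par6.d [2, 3, 4, 0, 5, 1]) (gold1 par6 (rows0 par6.d [2, 3, 4, 0, 5, 1])) [] :=
  (g6c sc_123504_69 x_123504_69_0)

theorem cf_123504_70 : Cfd2 par6 S_123504_70 := Cfd2.cons _ _ cf_123504_69 gd_123504_69

theorem gd_123504_70 : Good par6 S_123504_70 (rows0 par6.d [5, 0, 4, 1, 2, 3]) (gold1 par6 (rows0 par6.d [5, 0, 4, 1, 2, 3])) [] :=
  (g6c sc_123504_70 x_123504_70_0)

theorem cf_123504_71 : Cfd2 par6 S_123504_71 := Cfd2.cons _ _ cf_123504_70 gd_123504_70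

theorem gd_123504_71 : Good par6 S_123504_71 (rows0 par6.d [3, 4, 0, 5, 1, 2]) (gold1 par6 (rows0 par6.d [3, 4, 0, 5, 1, 2])) [] :=
  (g6c sc_123504_71 x_123504_71_0)

theorem cf_123504_72 : Cfd2 par6 S_123504_72 := Cfd2.cons _ _ cf_123504_71 gd_123504_71

theorem gd_123504_72 : Good par6 S_123504_72 (rows0 par6.d [4, 5, 0, 3, 1, 2]) (gold1 par6 (rows0 par6.d [4, 5, 0, 3, 1, 2])) [] :=
  (g6c sc_123504_72 x_123504_72_0)

theorem cf_123504_73 : Cfd2 par6 S_123504_73 := Cfd2.cons _ _ cf_123504_72 gd_123504_72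

theorem gd_123504_73 : Good par6 S_123504_73 (rows0 par6.d [5, 3, 0, 4, 1, 2]) (gold1 par6 (rows0 par6.d [5, 3, 0, 4, 1, 2])) [] :=
  (g6c sc_123504_73 x_123504_73_0)

theorem cf_123504_74 : Cfd2 par6 S_123504_74 := Cfd2.cons _ _ cf_123504_73 gd_123504_73

theorem gd_123504_74 : Good par6 S_123504_74 (rows0 par6.d [2, 3, 5, 4, 0, 1]) (gold1 par6 (rows0 par6.d [2, 3, 5, 4, 0, 1])) [] :=
  (g6c sc_123504_74 x_123504_74_0)

theorem cf_123504_75 : Cfd2 par6 S_123504_75 := Cfd2.cons _ _ cf_123504_74 gd_123504_74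

theorem gd_123504_75 : Good par6 S_123504_75 (rows0 par6.d [3, 4, 2, 5, 0, 1]) (gold1 par6 (rows0 par6.d [3, 4, 2, 5, 0, 1])) [] :=
  (g6c sc_123504_75 x_123504_75_0)

theorem cf_123504_76 : Cfd2 par6 S_123504_76 := Cfd2.cons _ _ cf_123504_75 gd_123504_75

theorem gd_123504_76 : Good par6 S_123504_76 (rows0 par6.d [5, 2, 3, 0, 4, 1]) (gold1 par6 (rows0 par6.d [5, 2, 3, 0, 4, 1])) [] :=
  (g6c sc_123504_76 x_123504_76_0)

theorem cf_123504_77 : Cfd2 par6 S_123504_77 := Cfd2.cons _ _ cf_123504_76 gd_123504_76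

theorem gd_123504_77 : Good par6 S_123504_77 (rows0 par6.d [5, 2, 4, 3, 0, 1]) (gold1 par6 (rows0 par6.d [5, 2, 4, 3, 0, 1])) [] :=
  (g6c sc_123504_77 x_123504_77_0)

theorem cf_123504_78 : Cfd2 par6 S_123504_78 := Cfd2.cons _ _ cf_123504_77 gd_123504_77

theorem gd_123504_78 : Good par6 S_123504_78 (rows0 par6.d [3, 5, 4, 0, 1, 2]) (gold1 par6 (rows0 par6.d [3, 5, 4, 0, 1, 2])) [] :=
  (g6c sc_123504_78 x_123504_78_0)

theorem cf_123504_79 : Cfd2 par6 S_123504_79 := Cfd2.cons _ _ cf_123504_78 gd_123504_78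

theorem gd_123504_79 : Good par6 S_123504_79 (rows0 par6.d [5, 4, 3, 0, 1, 2]) (gold1 par6 (rows0 par6.d [5, 4, 3, 0, 1, 2])) [] :=
  (g6c sc_123504_79 x_123504_79_0)

theorem cf_123504_80 : Cfd2 par6 S_123504_80 := Cfd2.cons _ _ cf_123504_79 gd_123504_79

theorem gd_123504_80 : Good par6 S_123504_80 (rows0 par6.d [5, 3, 0, 1, 2, 4]) (gold1 par6 (rows0 par6.d [5, 3, 0, 1, 2, 4])) [] :=
  (g6c sc_123504_80 x_123504_80_0)

theorem cf_123504_81 : Cfd2 par6 S_123504_81 := Cfd2.cons _ _ cf_123504_80 gd_123504_80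

theorem gd_123504_81 : Good par6 S_123504_81 (rows0 par6.d [4, 3, 5, 0, 1, 2]) (gold1 par6 (rows0 par6.d [4, 3, 5, 0, 1, 2])) [] :=
  (g6c sc_123504_81 x_123504_81_0)

theorem cf_123504_82 : Cfd2 par6 S_123504_82 := Cfd2.cons _ _ cf_123504_81 gd_123504_81

theorem gd_123504_82 : Good par6 S_123504_82 (rows0 par6.d [1, 5, 2, 3, 4, 0]) (gold1 par6 (rows0 par6.d [1, 5, 2, 3, 4, 0])) [] :=
  (g6c sc_123504_82 x_123504_82_0)

theorem cf_123504_83 : Cfd2 par6 S_123504_83 := Cfd2.cons _ _ cf_123504_82 gd_123504_82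

theorem gd_123504_83 : Good par6 S_123504_83 (rows0 par6.d [4, 3, 5, 1, 2, 0]) (gold1 par6 (rows0 par6.d [4, 3, 5, 1, 2, 0])) [] :=
  (g6c sc_123504_83 x_123504_83_0)

theorem cf_123504_84 : Cfd2 par6 S_123504_84 := Cfd2.cons _ _ cf_123504_83 gd_123504_83

theorem gd_123504_84 : Good par6 S_123504_84 (rows0 par6.d [5, 4, 1, 2, 3, 0]) (gold1 par6 (rows0 par6.d [5, 4, 1, 2, 3, 0])) [] :=
  (g6c sc_123504_84 x_123504_84_0)

theorem cf_123504_85 : Cfd2 par6 S_123504_85 := Cfd2.cons _ _ cf_123504_84 gd_123504_84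

theorem gd_123504_85 : Good par6 S_123504_85 (rows0 par6.d [5, 1, 2, 3, 0, 4]) (gold1 par6 (rows0 par6.d [5, 1, 2, 3, 0, 4])) [] :=
  (g6c sc_123504_85 x_123504_85_0)

theorem cf_123504_86 : Cfd2 par6 S_123504_86 := Cfd2.cons _ _ cf_123504_85 gd_123504_85

theorem gd_123504_86 : Good par6 S_123504_86 (rows0 par6.d [2, 5, 3, 4, 0, 1]) (gold1 par6 (rows0 par6.d [2, 5, 3, 4, 0, 1])) [] :=
  (g6c sc_123504_86 x_123504_86_0)

theorem cf_123504_87 : Cfd2 par6 S_123504_87 := Cfd2.cons _ _ cf_123504_86 gd_123504_86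

theorem gd_123504_87 : Good par6 S_123504_87 (rows0 par6.d [4, 3, 5, 2, 0, 1]) (gold1 par6 (rows0 par6.d [4, 3, 5, 2, 0, 1])) [] :=
  (g6c sc_123504_87 x_123504_87_0)

theorem cf_123504_88 : Cfd2 par6 S_123504_88 := Cfd2.cons _ _ cf_123504_87 gd_123504_87

theorem gd_123504_88 : Good par6 S_123504_88 (rows0 par6.d [5, 4, 2, 3, 0, 1]) (gold1 par6 (rows0 par6.d [5, 4, 2, 3, 0, 1])) [] :=
  (g6c sc_123504_88 x_123504_88_0)

theorem cf_123504_89 : Cfd2 par6 S_123504_89 := Cfd2.cons _ _ cf_123504_88 gd_123504_88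

theorem gd_123504_89 : Good par6 S_123504_89 (rows0 par6.d [3, 2, 4, 5, 0, 1]) (gold1 par6 (rows0 par6.d [3, 2, 4, 5, 0, 1])) [] :=
  (g6c sc_123504_89 x_123504_89_0)

theorem cf_123504_90 : Cfd2 par6 S_123504_90 := Cfd2.cons _ _ cf_123504_89 gd_123504_89

theorem gd_123504_90 : Good par6 S_123504_90 (rows0 par6.d [3, 2, 4, 5, 1, 0]) (gold1 par6 (rows0 par6.d [3, 2, 4, 5, 1, 0])) [] :=
  (g6c sc_123504_90 x_123504_90_0)

theorem cf_123504_91 : Cfd2 par6 S_123504_91 := Cfd2.cons _ _ cf_123504_90 gd_123504_90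

theorem gd_123504_91 : Good par6 S_123504_91 (rows0 par6.d [2, 1, 3, 4, 5, 0]) (gold1 par6 (rows0 par6.d [2, 1, 3, 4, 5, 0])) [] :=
  (g6c sc_123504_91 x_123504_91_0)

theorem cf_123504_92 : Cfd2 par6 S_123504_92 := Cfd2.cons _ _ cf_123504_91 gd_123504_91

theorem gd_123504_92 : Good par6 S_123504_92 (rows0 par6.d [5, 2, 3, 0, 1, 4]) (gold1 par6 (rows0 par6.d [5, 2, 3, 0, 1, 4])) [] :=
  (g6c sc_123504_92 x_123504_92_0)

theorem cf_123504_93 : Cfd2 par6 S_123504_93 := Cfd2.cons _ _ cf_123504_92 gd_123504_92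

theorem gd_123504_93 : Good par6 S_123504_93 (rows0 par6.d [1, 2, 3, 5, 4, 0]) (gold1 par6 (rows0 par6.d [1, 2, 3, 5, 4, 0])) [] :=
  (g6c sc_123504_93 x_123504_93_0)

theorem cf_123504_94 : Cfd2 par6 S_123504_94 := Cfd2.cons _ _ cf_123504_93 gd_123504_93

theorem gd_123504_94 : Good par6 S_123504_94 (rows0 par6.d [5, 1, 2, 4, 3, 0]) (gold1 par6 (rows0 par6.d [5, 1, 2, 4, 3, 0])) [] :=
  (g6c sc_123504_94 x_123504_94_0)

theorem cf_123504_95 : Cfd2 par6 S_123504_95 := Cfd2.cons _ _ cf_123504_94 gd_123504_94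

theorem gd_123504_95 : Good par6 S_123504_95 (rows0 par6.d [3, 4, 0, 1, 5, 2]) (gold1 par6 (rows0 par6.d [3, 4, 0, 1, 5, 2])) [] :=
  (g6c sc_123504_95 x_123504_95_0)

theorem cf_123504_96 : Cfd2 par6 S_123504_96 := Cfd2.cons _ _ cf_123504_95 gd_123504_95

theorem gd_123504_96 : Good par6 S_123504_96 (rows0 par6.d [5, 0, 1, 4, 2, 3]) (gold1 par6 (rows0 par6.d [5, 0, 1, 4, 2, 3])) [] :=
  (g6c sc_123504_96 x_123504_96_0)

theorem cf_123504_97 : Cfd2 par6 S_123504_97 := Cfd2.cons _ _ cf_123504_96 gd_123504_96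

theorem gd_123504_97 : Good par6 S_123504_97 (rows0 par6.d [5, 3, 0, 1, 4, 2]) (gold1 par6 (rows0 par6.d [5, 3, 0, 1, 4, 2])) [] :=
  (g6c sc_123504_97 x_123504_97_0)

theorem cf_123504_98 : Cfd2 par6 S_123504_98 := Cfd2.cons _ _ cf_123504_97 gd_123504_97

theorem gd_123504_98 : Good par6 S_123504_98 (rows0 par6.d [3, 4, 5, 1, 0, 2]) (gold1 par6 (rows0 par6.d [3, 4, 5, 1, 0, 2])) [] :=
  (g6c sc_123504_98 x_123504_98_0)

theorem cf_123504_99 : Cfd2 par6 S_123504_99 := Cfd2.cons _ _ cf_123504_98 gd_123504_98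

theorem gd_123504_99 : Good par6 S_123504_99 (rows0 par6.d [3, 4, 5, 2, 1, 0]) (gold1 par6 (rows0 par6.d [3, 4, 5, 2, 1, 0])) [] :=
  (g6c sc_123504_99 x_123504_99_0)

theorem cf_123504_100 : Cfd2 par6 S_123504_100 := Cfd2.cons _ _ cf_123504_99 gd_123504_99

theorem gd_123504_100 : Good par6 S_123504_100 (rows0 par6.d [2, 3, 4, 1, 5, 0]) (gold1 par6 (rows0 par6.d [2, 3, 4, 1, 5, 0])) [] :=
  (g6c sc_123504_100 x_123504_100_0)

theorem cf_123504_101 : Cfd2 par6 S_123504_101 := Cfd2.cons _ _ cf_123504_100 gd_123504_100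

theorem gd_123504_101 : Good par6 S_123504_101 (rows0 par6.d [4, 5, 0, 1, 3, 2]) (gold1 par6 (rows0 par6.d [4, 5, 0, 1, 3, 2])) [] :=
  (g6c sc_123504_101 x_123504_101_0)

theorem cf_123504_102 : Cfd2 par6 S_123504_102 := Cfd2.cons _ _ cf_123504_101 gd_123504_101

theorem gd_123504_102 : Good par6 S_123504_102 (rows0 par6.d [4, 5, 1, 3, 2, 0]) (gold1 par6 (rows0 par6.d [4, 5, 1, 3, 2, 0])) [] :=
  (g6c sc_123504_102 x_123504_102_0)

theorem cf_123504_103 : Cfd2 par6 S_123504_103 := Cfd2.cons _ _ cf_123504_102 gd_123504_102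

theorem gd_123504_103 : Good par6 S_123504_103 (rows0 par6.d [4, 5, 2, 0, 1, 3]) (gold1 par6 (rows0 par6.d [4, 5, 2, 0, 1, 3])) [] :=
  (g6c sc_123504_103 x_123504_103_0)

theorem cf_123504_104 : Cfd2 par6 S_123504_104 := Cfd2.cons _ _ cf_123504_103 gd_123504_103

theorem gd_123504_104 : Good par6 S_123504_104 (rows0 par6.d [4, 5, 3, 2, 0, 1]) (gold1 par6 (rows0 par6.d [4, 5, 3, 2, 0, 1])) [] :=
  (g6c sc_123504_104 x_123504_104_0)

theorem cf_123504_105 : Cfd2 par6 S_123504_105 := Cfd2.cons _ _ cf_123504_104 gd_123504_104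

/-- all certified vertices -/
def L6 : List (List ℕ) := S_130524_31 ++ S_143250_20 ++ S_124053_90 ++ S_132504_134 ++ S_124350_66 ++ S_123450_15 ++ S_123504_105

theorem cov6_ok : covOK par6.d L6 = true := by decide +kernel

end Pool.Agent.RTX
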