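import Mathlib.Data.List.Basic
import Mathlib.Data.Int.Basic

/-!
# RTX: certified branch and bound over Rauzy paths (the checker)

Rows of labels (natural numbers), Rauzy steps, words, integer linear forms in the zippers `P`, `S`, forbidden windows,
certificate trees.  Everything here is evaluated in the kernel by `decide +kernel`.
-/

set_option autoImplicit false

namespace Pool.Agent.RTX

/-- Insert `y` right after the first entry equal to `x`. -/
def ins (x y : ℕ) : List ℕ → List ℕ
  | [] => []
  | z :: l => bif Nat.beq z x then z :: y :: l else z :: ins x y l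

/-- The last entry. -/
def lst : List ℕ → ℕ
  | [] => 0
  | [x] => x
  | _ :: y :: l => lst (y :: l)

/-- The two rows of labels of an exchange. -/
structure Rows where
  top : List ℕ
  bot : List ℕ

/-- The last label of the top row. -/
def Rows.a (R : Rows) : ℕ := lst R.top

/-- The last label of the bottom row. -/
def Rows.b (R : Rows) : ℕ := lst R.bot

/-- One Rauzy step. `c = false`: the top label `a` wins, `b` moves right after `a` in the bottom row.
`c = true`: the bottom label `b` wins, `a` moves right after `b` in the top row. -/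
def step (c : Bool) (R : Rows) : Rows :=
  bif c then ⟨ins R.b R.a R.top.dropLast, R.bot⟩ else ⟨R.top, ins R.a R.b R.bot.dropLast⟩

/-- The rows after a path. -/
def runR : List Bool → Rows → Rows
  | [], R => R
  | c :: g, R => runR g (step c R)

/-- The loser of a step. -/
def los (c : Bool) (R : Rows) : ℕ := bif c then R.a else R.b

/-- The words, over the labels at the start of the path, of the labels at its end. -/
def wd : List Bool → Rows → ℕ → List ℕ
  | [], _, x => [x]
  | c :: g, R, x => (wd g (step c R) x).flatMap fun z => bif Nat.beq z (los c R) then [R.b, R.a] else [z]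

/-- Integer linear forms: coefficients on the `P`, coefficients on the `S`, constant. -/
structure LF where
  p : List ℤ
  s : List ℤ
  k : ℤ

/-- Add `v` to the `n`-th entry. -/
def addAt : ℕ → ℤ → List ℤ → List ℤ
  | _, _, [] => []
  | 0, v, z :: l => (z + v) :: l
  | n + 1, v, z :: l => z :: addAt n v l

/-- The `n`-th entry. -/
def getZ : ℕ → List ℤ → ℤ
  | _, [] => 0
  | 0, z :: _ => z
  | n + 1, _ :: l => getZ n l

/-- Linear combination of lists. -/
def zipL (q r : ℤ) : List ℤ → List ℤ → List ℤ
  | x :: l, y :: m => (q * x + r * y) :: zipL q r l m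
  | _, _ => []

/-- Linear combination of forms. -/
def lin (q : ℤ) (f : LF) (r : ℤ) (g : LF) : LF := ⟨zipL q r f.p g.p, zipL q r f.s g.s, q * f.k + r * g.k⟩

/-- The zero form. -/
def zero (d : ℕ) : LF := ⟨List.replicate d 0, List.replicate d 0, 0⟩

/-- Add the heights `P x + S x + 1` of the labels of a word. -/
def addW : List ℕ → LF → LF
  | [], f => f
  | x :: l, f => addW l ⟨addAt x 1 f.p, addAt x 1 f.s, f.k + 1⟩

/-- Pull a form back through one step. -/
def pull1 (c : Bool) (R : Rows) (f : LF) : LF :=
  bif c then ⟨addAt R.b (getZ R.a f.p) f.p, addAt R.b (getZ R.a f.p) f.s, f.k + getZ R.a f.p⟩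
  else ⟨addAt R.a (getZ R.b f.s) f.p, addAt R.a (getZ R.b f.s) f.s, f.k + getZ R.b f.s⟩

/-- Pull a form back through a path. -/
def pull : List Bool → Rows → LF → LF
  | [], _, f => f
  | c :: g, R, f => pull1 c R (pull g (step c R) f)

/-- The entry following `x`. -/
def nxt (x : ℕ) : List ℕ → Option ℕ
  | [] => none
  | [_] => none
  | z :: w :: l => bif Nat.beq z x then some w else nxt x (w :: l)

/-- Use the multiple `y` of the relation `1 ≤ P e + S e + 1 - P g - S k ≤ 2`. -/
def rel1 (y : ℤ) (e g k : ℕ) (f : LF) : LF :=
  ⟨addAt g y (addAt e (-y) f.p), addAt k y (addAt e (-y) f.s), f.k - y + min y (2 * y)⟩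

/-- Use all the multiples `(e, y)`. -/
def relAll (R : Rows) : List (ℕ × ℤ) → LF → Option LF
  | [], f => some f
  | (e, y) :: l, f =>
    match nxt e R.top, nxt e R.bot with
    | some g, some k => relAll R l (rel1 y e g k f)
    | _, _ => none

/-- All entries are nonnegative. -/
def allNonneg : List ℤ → Bool
  | [] => true
  | z :: l => decide (0 ≤ z) && allNonneg l

/-- Replace the `n`-th entry by zero. -/
def setZ : ℕ → List ℤ → List ℤ
  | _, [] => []
  | 0, _ :: l => 0 :: l
  | n + 1, z :: l => z :: setZ n l

/-- The form is bounded below by `-K`. -/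
def bdd (K : ℤ) (R : Rows) (ys : List (ℕ × ℤ)) (f : LF) : Bool :=
  match relAll R ys f with
  | none => false
  | some g => allNonneg (setZ (R.top.headD 0) g.p) && allNonneg (setZ (R.bot.headD 0) g.s) &&
      decide (0 ≤ g.k + K)

/-- A pattern: level `s` in the window, kind of the block (`d`: the pair `b a`), lengths of the common prefix and
suffix, and the run: the `l` letters from `i` equal the `l` letters from `i + k`. -/
structure Pat where
  s : ℕ
  kind : ℕ
  np : ℕ
  ns : ℕ
  i : ℕ
  k : ℕ
  l : ℕ

/-- A pattern with multipliers. -/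
structure Hint where
  pt : Pat
  ys : List (ℕ × ℤ)

/-- The last `n` letters. -/
def lastN (n : ℕ) (l : List ℕ) : List ℕ := l.drop (l.length - n)

/-- Equality of lists. -/
def eqL : List ℕ → List ℕ → Bool
  | [], [] => true
  | x :: l, y :: m => Nat.beq x y && eqL l m
  | _, _ => false

/-- Equality of paths. -/
def eqB : List Bool → List Bool → Bool
  | [], [] => true
  | x :: l, y :: m => (x == y) && eqB l m
  | _, _ => false

/-- Membership. -/
def memL (x : List ℕ) : List (List ℕ) → Bool
  | [] => false
  | y :: l => eqL x y || memL x l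

/-- The words of the labels `< x` start with `p` (`n` letters). -/
def allPre (W : ℕ → List ℕ) (n : ℕ) (p : List ℕ) : ℕ → Bool
  | 0 => true
  | x + 1 => eqL ((W x).take n) p && allPre W n p x

/-- The words of the labels `< x` end with `p` (`n` letters). -/
def allSuf (W : ℕ → List ℕ) (n : ℕ) (p : List ℕ) : ℕ → Bool
  | 0 => true
  | x + 1 => eqL (lastN n (W x)) p && allSuf W n p x

/-- Common prefix of the blocks. -/
def patPre (g : List Bool) (R : Rows) (h : Pat) : List ℕ := (wd g R 0).take h.np

/-- Common suffix of the blocks. -/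
def patSuf (g : List Bool) (R : Rows) (h : Pat) : List ℕ := lastN h.ns (wd g R 0)

/-- The middle block. -/
def patMid (d : ℕ) (g : List Bool) (R : Rows) (h : Pat) : List ℕ :=
  bif Nat.blt h.kind d then wd g R h.kind else wd g R (runR g R).b ++ wd g R (runR g R).a

/-- The word of the pattern. -/
def patZ (d : ℕ) (g : List Bool) (R : Rows) (h : Pat) : List ℕ := patSuf g R h ++ (patMid d g R h ++ patPre g R h)

/-- The word of the period. -/
def patVw (Z : List ℕ) (h : Pat) : List ℕ := (Z.drop h.i).take h.k

/-- The word of the run. -/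
def patNw (Z : List ℕ) (h : Pat) : List ℕ := (Z.drop h.i).take h.l

/-- Check of a pattern. -/
def patChk (d : ℕ) (g : List Bool) (R : Rows) (h : Pat) : Bool :=
  (Nat.beq h.np 0 || allPre (wd g R) h.np (patPre g R h) d) &&
  (Nat.beq h.ns 0 || allSuf (wd g R) h.ns (patSuf g R h) d) &&
  eqL (patNw (patZ d g R h) h) (((patZ d g R h).drop (h.i + h.k)).take h.l) &&
  Nat.beq (patNw (patZ d g R h) h).length h.l && Nat.beq (patVw (patZ d g R h) h).length h.k && Nat.blt 0 h.k

/-- `y` follows `x` in the row. -/
def isNxt (x y : ℕ) (row : List ℕ) : Bool :=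
  match nxt x row with
  | some w => Nat.beq w y
  | none => false

/-- The right one of `x`, `y` if they are neighbours in the row and the left one is not `e`. -/
def cut (row : List ℕ) (e x y : ℕ) : Option ℕ :=
  bif isNxt x y row && !(Nat.beq x e) then some y
  else bif isNxt y x row && !(Nat.beq y e) then some x else none

/-- The first entry. -/
def hd : List ℕ → Option ℕ
  | [] => none
  | x :: _ => some x

/-- The cut at the right end of the run. -/
def rcut (R : Rows) (Z : List ℕ) (i k l : ℕ) : Option ℕ :=
  match hd (Z.drop (i + l)), hd (Z.drop (i + k + l)) with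
  | some x, some y => cut R.top R.b x y
  | _, _ => none

/-- The cut at the left end of the run. -/
def lcut (R : Rows) (Z : List ℕ) (i k : ℕ) : Option ℕ :=
  match i with
  | 0 => none
  | j + 1 =>
    match hd (Z.drop j), hd (Z.drop (j + k)) with
    | some x, some y => cut R.bot R.a x y
    | _, _ => none

/-- Add one at an optional place. -/
def opt1 : Option ℕ → List ℤ → List ℤ
  | none, l => l
  | some c, l => addAt c 1 l

/-- The form of the length of the run. -/
def patN (d : ℕ) (R : Rows) (Z : List ℕ) (h : Pat) : LF :=
  ⟨opt1 (rcut R Z h.i h.k h.l) (addW (patNw Z h) (zero d)).p,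
    opt1 (lcut R Z h.i h.k) (addW (patNw Z h) (zero d)).s, (addW (patNw Z h) (zero d)).k⟩

/-- The form of the period. -/
def patV (d : ℕ) (Z : List ℕ) (h : Pat) : LF := addW (patVw Z h) (zero d)

/-- Check of a forbidden window with root `rt` and path `g`. -/
def leafOK (d : ℕ) (P Q K : ℤ) (rt : Rows) (g : List Bool) (h : Hint) : Bool :=
  patChk d (g.drop h.pt.s) (runR (g.take h.pt.s) rt) h.pt &&
  bdd K rt h.ys (pull (g.take h.pt.s) rt
    (lin Q (patN d (runR (g.take h.pt.s) rt) (patZ d (g.drop h.pt.s) (runR (g.take h.pt.s) rt) h.pt) h.pt)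
      (-P) (patV d (patZ d (g.drop h.pt.s) (runR (g.take h.pt.s) rt) h.pt) h.pt)))

/-- Certificate trees: `F` forbidden, `Y` a vertex of lower rank, `G` golden loop. -/
inductive Crt where
  | F (h : Hint)
  | Y
  | G
  | N (t0 t1 : Crt)

/-- Position of the first entry equal to `x`. -/
def idx (x : ℕ) : List ℕ → ℕ
  | [] => 0
  | z :: l => bif Nat.beq z x then 0 else idx x l + 1

/-- The bottom row in terms of the positions in the top row. -/
def canon (R : Rows) : List ℕ := R.bot.map fun x => idx x R.top

/-- Parameters: number of intervals, threshold `P / Q`, additive constant, golden vertex and golden loop. -/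
structure Par where
  d : ℕ
  P : ℤ
  Q : ℤ
  K : ℤ
  g0 : List ℕ
  gp : List Bool

/-- The canonical rows with bottom row `π`. -/
def rows0 (d : ℕ) (π : List ℕ) : Rows := ⟨List.range d, π⟩

/-- Check of a tree: `gr` is the path from the root in reverse order, `R` the rows at its end. -/
def treeOK (A : Par) (stop : List (List ℕ)) (gchk : List Bool → Bool) (rt : Rows) :
    Crt → List Bool → Rows → Bool
  | .F h, gr, _ => leafOK A.d A.P A.Q A.K rt gr.reverse h
  | .Y, gr, R => !gr.isEmpty && memL (canon R) stop
  | .G, gr, _ => gchk gr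
  | .N t0 t1, gr, R => treeOK A stop gchk rt t0 (false :: gr) (step false R) &&
      treeOK A stop gchk rt t1 (true :: gr) (step true R)

/-- Drop a prefix. -/
def dropPre : List Bool → List Bool → Option (List Bool)
  | [], l => some l
  | x :: p, y :: l => bif x == y then dropPre p l else none
  | _ :: _, [] => none

/-- The reversed path ends with one golden loop from the golden vertex. -/
def gold1 (A : Par) (rt : Rows) (gr : List Bool) : Bool :=
  match dropPre A.gp.reverse gr with
  | some l => eqL (canon (runR l.reverse rt)) A.g0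
  | none => false

/-- The reversed path is two golden loops. -/
def gold2 (A : Par) (gr : List Bool) : Bool := eqB gr (A.gp.reverse ++ A.gp.reverse)

/-- The ranked roots `π :: rs` are certified. -/
inductive Cfd (A : Par) : List (List ℕ) → Prop
  | nil : Cfd A []
  | cons (π : List ℕ) (rs : List (List ℕ)) (t : Crt) (h : Cfd A rs)
      (ht : treeOK A rs (gold1 A (rows0 A.d π)) (rows0 A.d π) t [] (rows0 A.d π) = true) : Cfd A (π :: rs)

/-- The second check: from the golden loop one can only continue along the golden loop. -/
def tree2OK (A : Par) (t : Crt) : Bool :=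
  eqL (canon (runR A.gp (rows0 A.d A.g0))) A.g0 &&
  treeOK A [] (gold2 A) (rows0 A.d A.g0) t A.gp.reverse (runR A.gp (rows0 A.d A.g0))

/-- The list is reducible. -/
def redB (d : ℕ) (π : List ℕ) : Bool :=
  (List.range d).any fun k => Nat.blt 0 k && (π.take k).all fun x => Nat.blt x k

/-- All irreducible permutations are in the list. -/
def covOK (d : ℕ) (L : List (List ℕ)) : Bool :=
  (List.permutations' (List.range d)).all fun π => memL π L || redB d π

/-- Data of the exact analysis of the golden loop. -/
structure Gd where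
  /-- the golden loop repeated until the labelled rows come back -/
  gpp : List Bool
  pt : Pat
  /-- length of the window of the pattern -/
  m : ℕ
  c : ℤ
  A : ℤ
  B : ℤ
  ys1 : List (ℕ × ℤ)
  ys2 : List (ℕ × ℤ)

/-- Rows at the level of the pattern. -/
def gR (A : Par) (D : Gd) : Rows := runR (D.gpp.take D.pt.s) (rows0 A.d A.g0)

/-- Window of the pattern. -/
def gW (D : Gd) : List Bool := ((D.gpp ++ D.gpp).drop D.pt.s).take D.m

/-- Word of the pattern. -/
def gZ (A : Par) (D : Gd) : List ℕ := patZ A.d (gW D) (gR A D) D.pt

/-- Form of the run at the golden vertex. -/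
def gN (A : Par) (D : Gd) : LF := pull (D.gpp.take D.pt.s) (rows0 A.d A.g0) (patN A.d (gR A D) (gZ A D) D.pt)

/-- Form of the period at the golden vertex. -/
def gV (A : Par) (D : Gd) : LF := pull (D.gpp.take D.pt.s) (rows0 A.d A.g0) (patV A.d (gZ A D) D.pt)

/-- The period one loop later. -/
def gV1 (A : Par) (D : Gd) : LF := pull D.gpp (rows0 A.d A.g0) (gV A D)

/-- The period two loops later. -/
def gV2 (A : Par) (D : Gd) : LF := pull D.gpp (rows0 A.d A.g0) (gV1 A D)

/-- The invariant form `A N - V' - B V`. -/
def gF (A : Par) (D : Gd) : LF := lin 1 (lin D.A (gN A D) (-1) (gV1 A D)) (-D.B) (gV A D)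

/-- `gpp` is `n` times the golden loop. -/
def repB (n : ℕ) (g : List Bool) : List Bool := (List.replicate n g).flatten

/-- Check of the golden data (`n` loops). -/
def goldOK (A : Par) (D : Gd) (n : ℕ) : Bool :=
  Nat.blt 0 n && Nat.blt 0 A.gp.length && eqB D.gpp (repB n A.gp) &&
  eqL (runR D.gpp (rows0 A.d A.g0)).top (List.range A.d) && eqL (runR D.gpp (rows0 A.d A.g0)).bot A.g0 &&
  Nat.ble (D.pt.s + D.m) (D.gpp.length + D.gpp.length) && Nat.ble D.pt.s D.gpp.length &&
  patChk A.d (gW D) (gR A D) D.pt &&
  bdd A.K (rows0 A.d A.g0) D.ys1 (lin 1 (lin 1 (gV2 A D) (-D.c) (gV1 A D)) 1 (gV A D)) &&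
  bdd A.K (rows0 A.d A.g0) D.ys2 (lin 1 (pull D.gpp (rows0 A.d A.g0) (gF A D)) (-1) (gF A D))

end Pool.Agent.RTX
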