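import Pool.Agent.RTX.NxtA

/-!
# RTX/RelA: naturality under relabelling
-/

set_option autoImplicit false

namespace Pool.Agent.RTX

/-- Relabelled rows. -/
def Rows.map (f : ℕ → ℕ) (R : Rows) : Rows := ⟨R.top.map f, R.bot.map f⟩

private theorem relA_lst {f : ℕ → ℕ} : ∀ {l : List ℕ}, l ≠ [] → lst (l.map f) = f (lst l)
  | [], h => absurd rfl h
  | [x], _ => rfl
  | x :: y :: l, _ => by
    have := relA_lst (f := f) (l := y :: l) (by simp)
    simpa [lst] using this

private theorem relA_beq {f : ℕ → ℕ} (hf : Function.Injective f) (x y : ℕ) :
    Nat.beq (f x) (f y) = Nat.beq x y := by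
  by_cases h : x = y
  · subst h
    simp
  · have h1 : Nat.beq x y = false := by
      rw [Bool.eq_false_iff]
      intro h1
      exact h (Nat.eq_of_beq_eq_true h1)
    have h2 : Nat.beq (f x) (f y) = false := by
      rw [Bool.eq_false_iff]
      intro h1
      exact h (hf (Nat.eq_of_beq_eq_true h1))
    rw [h1, h2]

private theorem relA_ins {f : ℕ → ℕ} (hf : Function.Injective f) (x y : ℕ) :
    ∀ l : List ℕ, ins (f x) (f y) (l.map f) = (ins x y l).map f
  | [] => rfl
  | z :: l => by
    have ih := relA_ins hf x y l
    simp only [List.map_cons, ins, relA_beq hf]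
    cases Nat.beq z x
    · simp [ih]
    · simp

private theorem relA_idx {f : ℕ → ℕ} (hf : Function.Injective f) (x : ℕ) :
    ∀ l : List ℕ, idx (f x) (l.map f) = idx x l
  | [] => rfl
  | z :: l => by
    have ih := relA_idx hf x l
    simp only [List.map_cons, idx, relA_beq hf, ih]

theorem map_ab {f : ℕ → ℕ} {R : Rows} (ht : R.top ≠ []) (hb : R.bot ≠ []) :
    (R.map f).a = f R.a ∧ (R.map f).b = f R.b :=
  ⟨relA_lst ht, relA_lst hb⟩

theorem map_step {f : ℕ → ℕ} (hf : Function.Injective f) {R : Rows} (ht : R.top ≠ []) (hb : R.bot ≠ []) (c : Bool) :
    step c (R.map f) = (step c R).map f := by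
  have h1 := map_ab (f := f) ht hb
  cases c
  · show (⟨R.top.map f, ins (R.map f).a (R.map f).b (R.bot.map f).dropLast⟩ : Rows) =
      ⟨R.top.map f, (ins R.a R.b R.bot.dropLast).map f⟩
    rw [h1.1, h1.2, ← List.map_dropLast, relA_ins hf]
  · show (⟨ins (R.map f).b (R.map f).a (R.top.map f).dropLast, R.bot.map f⟩ : Rows) =
      ⟨(ins R.b R.a R.top.dropLast).map f, R.bot.map f⟩
    rw [h1.1, h1.2, ← List.map_dropLast, relA_ins hf]

theorem map_nxt {f : ℕ → ℕ} (hf : Function.Injective f) (x : ℕ) (l : List ℕ) :
    nxt (f x) (l.map f) = (nxt x l).map f := by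
  match l with
  | [] => rfl
  | [z] => rfl
  | z :: w :: l =>
    have ih := map_nxt hf x (w :: l)
    simp only [List.map_cons] at ih
    simp only [List.map_cons, nxt, relA_beq hf]
    cases Nat.beq z x
    · simpa using ih
    · simp

theorem map_canon {f : ℕ → ℕ} (hf : Function.Injective f) (R : Rows) : canon (R.map f) = canon R := by
  show (R.bot.map f).map (fun x => idx x (R.top.map f)) = R.bot.map (fun x => idx x R.top)
  rw [List.map_map]
  apply List.map_congr_left
  intro x _
  exact relA_idx hf x R.top

private theorem relA_idx_lt {x : ℕ} : ∀ {l : List ℕ}, x ∈ l → idx x l < l.length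
  | [], h => by simp at h
  | z :: l, h => by
    by_cases hz : z = x
    · subst hz
      simp [idx]
    · have hb : Nat.beq z x = false := by
        rw [Bool.eq_false_iff]
        intro h1
        exact hz (Nat.eq_of_beq_eq_true h1)
      have hm : x ∈ l := by
        rcases List.mem_cons.1 h with h1 | h1
        · exact absurd h1.symm hz
        · exact h1
      have := relA_idx_lt hm
      simp only [idx, hb, cond_false, List.length_cons]
      omega

private theorem relA_get_idx {x : ℕ} : ∀ {l : List ℕ}, x ∈ l → l.getD (idx x l) 0 = x
  | [], h => by simp at h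
  | z :: l, h => by
    by_cases hz : z = x
    · subst hz
      simp [idx]
    · have hb : Nat.beq z x = false := by
        rw [Bool.eq_false_iff]
        intro h1
        exact hz (Nat.eq_of_beq_eq_true h1)
      have hm : x ∈ l := by
        rcases List.mem_cons.1 h with h1 | h1
        · exact absurd h1.symm hz
        · exact h1
      have := relA_get_idx hm
      simp only [idx, hb, cond_false, List.getD_cons_succ]
      exact this

private theorem relA_idx_get : ∀ {l : List ℕ} (_ : l.Nodup) {i : ℕ} (_ : i < l.length), idx (l.getD i 0) l = i
  | [], _, i, h => by simp at h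
  | z :: l, hn, 0, _ => by simp [idx]
  | z :: l, hn, i + 1, h => by
    have hn' := (List.nodup_cons.1 hn)
    have hi : i < l.length := by simpa using h
    have hmem : l.getD i 0 ∈ l := by
      rw [List.getD_eq_getElem _ _ hi]
      exact List.getElem_mem hi
    have hne : z ≠ l.getD i 0 := by
      intro h1
      exact hn'.1 (by rw [h1]; exact hmem)
    have hb : Nat.beq z (l.getD i 0) = false := by
      rw [Bool.eq_false_iff]
      intro h1
      exact hne (Nat.eq_of_beq_eq_true h1)
    simp only [List.getD_cons_succ, idx, hb, cond_false]
    rw [relA_idx_get hn'.2 hi]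

private theorem relA_idx_inj {x y : ℕ} {l : List ℕ} (hx : x ∈ l) (hy : y ∈ l) (h : idx x l = idx y l) : x = y := by
  rw [← relA_get_idx hx, ← relA_get_idx hy, h]

private theorem relA_map_self {l : List ℕ} (hn : l.Nodup) : l.map (fun x => idx x l) = List.range l.length := by
  apply List.ext_getElem
  · simp
  · intro i hi hi'
    have hi2 : i < l.length := by simpa using hi
    rw [List.getElem_map, List.getElem_range]
    have h2 := relA_idx_get hn hi2
    rw [List.getD_eq_getElem _ _ hi2] at h2
    exact h2

private theorem relA_idx_range {d x : ℕ} (hx : x < d) : idx x (List.range d) = x := by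
  have h := relA_idx_get (l := List.range d) List.nodup_range (i := x) (by simpa using hx)
  rw [List.getD_eq_getElem _ _ (by simpa using hx), List.getElem_range] at h
  exact h

private theorem relA_idx_take {x k : ℕ} : ∀ {l : List ℕ}, x ∈ l.take k → idx x l < k := by
  intro l hx
  induction l generalizing k with
  | nil => simp at hx
  | cons z l ih =>
    cases k with
    | zero => simp at hx
    | succ k =>
      by_cases hz : z = x
      · subst hz
        simp [idx]
      · have hb : Nat.beq z x = false := by
          rw [Bool.eq_false_iff]
          intro h1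
          exact hz (Nat.eq_of_beq_eq_true h1)
        have hm : x ∈ l.take k := by
          rw [List.take_succ_cons] at hx
          rcases List.mem_cons.1 hx with h1 | h1
          · exact absurd h1.symm hz
          · exact h1
        have := ih hm
        simp only [idx, hb, cond_false]
        omega

theorem canon_rows0 {d : ℕ} {π : List ℕ} (h : RI d (rows0 d π)) : canon (rows0 d π) = π := by
  show π.map (fun x => idx x (List.range d)) = π
  have hp : π.Perm (List.range d) := h.bot
  calc π.map (fun x => idx x (List.range d)) = π.map id := by
        apply List.map_congr_left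
        intro x hx
        have hm : x < d := by
          have := (hp.mem_iff).1 hx
          simpa using this
        exact relA_idx_range hm
    _ = π := List.map_id π

/-- The bottom row of the canonical rows; `canon` of irreducible rows is an irreducible permutation. -/
theorem canon_irr {d : ℕ} {R : Rows} (h : RI d R) : RI d (rows0 d (canon R)) where
  two := h.two
  top := List.Perm.refl _
  bot := by
    show (R.bot.map fun x => idx x R.top).Perm (List.range d)
    have hlen : R.top.length = d := by simpa using h.top.length_eq
    have hnd : R.top.Nodup := (h.top.nodup_iff).2 List.nodup_range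
    have h1 : R.bot.Perm R.top := h.bot.trans h.top.symm
    have h2 := h1.map (fun x => idx x R.top)
    rw [relA_map_self hnd, hlen] at h2
    exact h2
  irr k hk hkd := by
    obtain ⟨x, hx, hx'⟩ := h.irr k hk hkd
    have hxt : x ∈ R.top := List.mem_of_mem_take hx
    refine ⟨idx x R.top, ?_, ?_⟩
    · show idx x R.top ∈ (List.range d).take k
      have h1 := relA_idx_take hx
      rw [List.take_range, List.mem_range]
      omega
    · show idx x R.top ∉ (R.bot.map fun x => idx x R.top).take k
      rw [← List.map_take]
      intro h1
      obtain ⟨y, hy, hy'⟩ := List.mem_map.1 h1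
      have hyb : y ∈ R.bot := List.mem_of_mem_take hy
      have hyt : y ∈ R.top := (h.top.mem_iff).2 ((h.bot.mem_iff).1 hyb)
      have : y = x := relA_idx_inj hyt hxt hy'
      subst this
      exact hx' hy

end Pool.Agent.RTX
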