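import Pool.Agent.RTX.FStk
import Pool.Agent.RTX.RelA

/-!
# RTX/FCan: the packed canonical vertex

PLAN: `posR x n (encR l 0)` for `x ∈ l`, `l.Nodup`, `|l| ≤ n`, `L8 l`: it is `|l| - 1 - idx x l` (induction on `n`, `l = l' ++ [y]`: `encR_lst`; if `y = x` both are 0).
`canF d T n (encR b a)` for `|b| = n`: `encR (b.map fun y => d - 1 - posR y 8 T) 0` (induction on `n`, `b = b' ++ [y]`, `encR_lst`, `encR_app`).  With `idx x R.top < d`:
`d - 1 - (d - 1 - idx) = idx`.  `memF_mem`: `memF_cons`, `encR_inj` (`canon R` has length `d` and entries `< d`), `memL`, `eqL` (`eqL_iff` if available, or prove `eqL l l = true`).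
-/

set_option autoImplicit false

namespace Pool.Agent.RTX

private theorem FCan_idx_cons (x z : ℕ) (l : List ℕ) : idx x (z :: l) = if z = x then 0 else idx x l + 1 := by
  show (bif Nat.beq z x then 0 else idx x l + 1) = _
  by_cases h : z = x
  · have h1 : Nat.beq z x = true := by rw [Nat.beq_eq]; exact h
    rw [if_pos h, h1]
    rfl
  · have h1 : Nat.beq z x = false := by
      rw [Bool.eq_false_iff]
      intro h1
      rw [Nat.beq_eq] at h1
      exact h h1
    rw [if_neg h, h1]
    rfl

private theorem FCan_idx_mem {x : ℕ} {l : List ℕ} (h : x ∈ l) (m : List ℕ) : idx x (l ++ m) = idx x l := by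
  induction l with
  | nil => simp at h
  | cons z l ih =>
    rw [List.cons_append, FCan_idx_cons, FCan_idx_cons]
    by_cases hz : z = x
    · rw [if_pos hz, if_pos hz]
    · rw [if_neg hz, if_neg hz]
      rcases List.mem_cons.1 h with h1 | h1
      · exact absurd h1.symm hz
      · rw [ih h1]

private theorem FCan_idx_not {x : ℕ} {l : List ℕ} (h : x ∉ l) (m : List ℕ) :
    idx x (l ++ m) = l.length + idx x m := by
  induction l with
  | nil => simp
  | cons z l ih =>
    have h1 : z ≠ x := fun h1 => h (by rw [h1]; exact List.mem_cons_self)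
    have h2 : x ∉ l := fun h2 => h (List.mem_cons_of_mem _ h2)
    rw [List.cons_append, FCan_idx_cons, if_neg h1, ih h2, List.length_cons]
    omega

private theorem FCan_idx_lt {x : ℕ} {l : List ℕ} (h : x ∈ l) : idx x l < l.length := by
  induction l with
  | nil => simp at h
  | cons z l ih =>
    rw [FCan_idx_cons, List.length_cons]
    by_cases hz : z = x
    · rw [if_pos hz]; omega
    · rw [if_neg hz]
      rcases List.mem_cons.1 h with h1 | h1
      · exact absurd h1.symm hz
      · have := ih h1; omega

private theorem FCan_l8_drop {l : List ℕ} (h : L8 l) : L8 l.dropLast :=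
  fun x hx => h x (List.mem_of_mem_dropLast hx)

private theorem FCan_posR (x : ℕ) : ∀ (n : ℕ) (l : List ℕ), L8 l → l.Nodup → x ∈ l → l.length ≤ n →
    posR x n (encR l 0) = l.length - 1 - idx x l
  | 0, l, _, _, hx, hl => by
    have h0 : l = [] := List.length_eq_zero_iff.1 (Nat.le_zero.1 hl)
    rw [h0] at hx
    simp at hx
  | n + 1, l, h8, hn, hx, hl => by
    have hne : l ≠ [] := List.ne_nil_of_mem hx
    have he := encR_lst h8 hne 0
    have hd := dropLast_lst hne
    have hlen : l.dropLast.length + 1 = l.length := by
      rw [List.length_dropLast]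
      have := List.length_pos_iff.2 hne
      omega
    have hn2 : (l.dropLast ++ [lst l]).Nodup := by rw [hd]; exact hn
    have hx2 : x ∈ l.dropLast ++ [lst l] := by rw [hd]; exact hx
    have hnot : lst l ∉ l.dropLast := by
      intro hm
      have := (List.nodup_append.1 hn2).2.2 _ hm (lst l) (by simp)
      exact this rfl
    have hidx : idx x l = idx x (l.dropLast ++ [lst l]) := by rw [hd]
    rw [posR_succ, he.1, he.2]
    by_cases hy : lst l = x
    · rw [if_pos hy, hidx, FCan_idx_not (by rw [← hy]; exact hnot)]
      omega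
    · rw [if_neg hy]
      have hx3 : x ∈ l.dropLast := by
        rcases List.mem_append.1 hx2 with h1 | h1
        · exact h1
        · exact absurd (List.mem_singleton.1 h1).symm hy
      rw [FCan_posR x n l.dropLast (FCan_l8_drop h8) (List.nodup_append.1 hn2).1 hx3 (by omega), hidx,
        FCan_idx_mem hx3]
      have := FCan_idx_lt hx3
      omega

private theorem FCan_canF (d T : ℕ) : ∀ (n : ℕ) (l : List ℕ), L8 l → l.length = n →
    canF d T n (encR l 0) = encR (l.map fun y => d - 1 - posR y 8 T) 0
  | 0, l, _, hl => by
    have h0 : l = [] := List.length_eq_zero_iff.1 hl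
    rw [h0, canF_zero]
    rfl
  | n + 1, l, h8, hl => by
    have hne : l ≠ [] := by
      intro h0
      rw [h0] at hl
      simp at hl
    have he := encR_lst h8 hne 0
    have hd := dropLast_lst hne
    have hlen : l.dropLast.length = n := by
      rw [List.length_dropLast]
      omega
    rw [canF_succ, he.1, he.2, FCan_canF d T n l.dropLast (FCan_l8_drop h8) hlen]
    have h1 : (l.map fun y => d - 1 - posR y 8 T) =
        (l.dropLast.map fun y => d - 1 - posR y 8 T) ++ [d - 1 - posR (lst l) 8 T] := by
      rw [← hd]
      simp only [List.map_append, List.map_cons, List.map_nil]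
      rw [hd]
    rw [h1, encR_app]
    rfl

theorem canF_enc {d : ℕ} (hd : d ≤ 8) {R : Rows} (h : RI d R) :
    canF d (encR R.top 0) d (encR R.bot 0) = encR (canon R) 0 := by
  have h8 := ri_l8 hd h
  have hl := ri_len h
  rw [FCan_canF d (encR R.top 0) d R.bot h8.2 hl.2]
  have h1 : canon R = R.bot.map fun y => d - 1 - posR y 8 (encR R.top 0) := by
    show (R.bot.map fun x => idx x R.top) = _
    apply List.map_congr_left
    intro x hx
    have hx2 : x ∈ R.top := (ri_mem_top h x).2 ((ri_mem_bot h x).1 hx)
    rw [FCan_posR x 8 R.top h8.1 (ri_nd_top h) hx2 (by omega)]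
    have := FCan_idx_lt hx2
    omega
  rw [h1]

private theorem FCan_eqL_refl (l : List ℕ) : eqL l l = true := by
  induction l with
  | nil => rfl
  | cons x l ih => simp [eqL, ih]

theorem memF_mem {d : ℕ} (hd : d ≤ 8) {R : Rows} (h : RI d R) {stop : List (List ℕ)}
    (hs : ∀ π ∈ stop, π.length = d ∧ L8 π)
    (hm : memF (canF d (encR R.top 0) d (encR R.bot 0)) (stop.map fun π => encR π 0) = true) :
    memL (canon R) stop = true := by
  rw [canF_enc hd h] at hm
  have hl := ri_len h
  have hc : (canon R).length = d := by
    show (R.bot.map fun x => idx x R.top).length = d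
    rw [List.length_map]
    exact hl.2
  have hc8 : L8 (canon R) := by
    intro y hy
    have hy2 : y ∈ R.bot.map fun x => idx x R.top := hy
    obtain ⟨x, hx, hxy⟩ := List.mem_map.1 hy2
    have hx2 : x ∈ R.top := (ri_mem_top h x).2 ((ri_mem_bot h x).1 hx)
    have := FCan_idx_lt hx2
    omega
  induction stop with
  | nil => rw [List.map_nil, memF_nil] at hm; exact absurd hm (by simp)
  | cons π stop ih =>
    rw [List.map_cons, memF_cons] at hm
    show (eqL (canon R) π || memL (canon R) stop) = true
    rcases hm with h1 | h1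
    · have h2 := hs π List.mem_cons_self
      have h3 : canon R = π := encR_inj hc8 h2.2 (hc.trans h2.1.symm) h1
      rw [← h3, FCan_eqL_refl]
      rfl
    · rw [ih (fun π' h' => hs π' (List.mem_cons_of_mem _ h')) h1, Bool.or_true]

end Pool.Agent.RTX
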