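import Pool.Agent.RTX.Par

/-!
# RTX: the fast checker (definitions)

Everything is packed into natural numbers, so that the kernel works with its built-in arithmetic only.  Recursions use
the recursors directly, `fz` forces the evaluation of an argument, literals are raw.

* rows: base 8, the last label is the lowest digit;
* words: base 8 with a leading digit 1; table of words: slots of 128 bits, the word of `x` in the slot `x + 1`;
* forms: slots of 128 bits with offset `2 ^ 127`: `P x` in the slot `x + 1`, `S x` in the slot `x + 9`, constant in the slot 17;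
* the lowest slots hold garbage (it makes the hash values of the literals different);
* the certificate tree is a stream of bits, lowest bits first.
-/

set_option autoImplicit false

namespace Pool.Agent.RTX

/-- Force the evaluation of `n`. -/
noncomputable def fz {α : Type} (n : ℕ) (f : ℕ → α) : α :=
  Nat.rec (motive := fun _ => α) (f (nat_lit 0)) (fun m _ => f (Nat.add m (nat_lit 1))) n

/-- Case distinction. -/
noncomputable def ifB {α : Type} (b : Bool) (x y : α) : α := Bool.rec (motive := fun _ => α) y x b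

/-- `0` is failure; `m + 1` is success with the remaining code `m`. -/
noncomputable def bndN (r : ℕ) (f : ℕ → ℕ) : ℕ := Nat.rec (motive := fun _ => ℕ) (nat_lit 0) (fun m _ => f m) r

/-- `2 ^ 128` -/
def b128 : ℕ := nat_lit 340282366920938463463374607431768211456

/-- `2 ^ 127` -/
def b127 : ℕ := nat_lit 170141183460469231731687303715884105728

/-- Concatenation of packed words. -/
def catW (m n : ℕ) : ℕ := Nat.add (Nat.shiftLeft (Nat.sub m (nat_lit 1)) (Nat.log2 n)) n

/-- The word of `x` in a table. -/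
def slot (W x : ℕ) : ℕ :=
  Nat.mod (Nat.shiftRight W (Nat.add (Nat.mul (nat_lit 128) x) (nat_lit 128))) (nat_lit 340282366920938463463374607431768211456)

/-- Replace the word `o` of the label `l` by `n` (`0` if `n` is too large). -/
noncomputable def updW (W l o n : ℕ) : ℕ :=
  ifB (Nat.ble (nat_lit 340282366920938463463374607431768211456) n) (nat_lit 0)
    (Nat.add (Nat.add W (Nat.mod n (nat_lit 4294967291)))
      (Nat.shiftLeft (Nat.sub n o) (Nat.add (Nat.mul (nat_lit 128) l) (nat_lit 128))))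

/-- Last top label before the step of the stack entry `X`. -/
def aX (X : ℕ) : ℕ := Nat.mod (Nat.shiftRight X (nat_lit 25)) (nat_lit 8)

/-- Last bottom label before the step of the stack entry `X`. -/
def bX (X : ℕ) : ℕ := Nat.mod (Nat.shiftRight X (nat_lit 1)) (nat_lit 8)

/-- Loser of the step of the stack entry `X` (`u`, `v`: words of `a`, `b`). -/
noncomputable def stW2 (X W u v : ℕ) : ℕ :=
  ifB (Nat.beq (Nat.mod X (nat_lit 2)) (nat_lit 1)) (fz (catW v u) (updW W (aX X) u)) (fz (catW v u) (updW W (bX X) v))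

/-- Auxiliary. -/
noncomputable def stW1 (X W u : ℕ) : ℕ := fz (slot W (bX X)) (stW2 X W u)

/-- One step of the table of words. -/
noncomputable def stW (X W : ℕ) : ℕ := ifB (Nat.beq W (nat_lit 0)) (nat_lit 0) (fz (slot W (aX X)) (stW1 X W))

/-- Table of the words of the last `n` steps of the stack. -/
noncomputable def tabW (w0 : ℕ) (n : ℕ) : List ℕ → ℕ :=
  Nat.rec (motive := fun _ => List ℕ → ℕ) (fun _ => w0)
    (fun _ ih st => List.rec (motive := fun _ => ℕ) (nat_lit 0) (fun X st' _ => fz (ih st') (stW X)) st) n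

/-- Initial table. -/
noncomputable def iniW (d : ℕ) : ℕ :=
  Nat.rec (motive := fun _ => ℕ) (nat_lit 0)
    (fun x W => Nat.add W (Nat.shiftLeft (Nat.add (nat_lit 8) x) (Nat.add (Nat.mul (nat_lit 128) x) (nat_lit 128)))) d

/-- Drop `n` entries. -/
noncomputable def drpF (n : ℕ) : List ℕ → List ℕ :=
  Nat.rec (motive := fun _ => List ℕ → List ℕ) (fun st => st)
    (fun _ ih st => List.rec (motive := fun _ => List ℕ) [] (fun _ st' _ => ih st') st) n

/-- Rows `n` steps before the end of the stack (`T * 2 ^ 24 + B`). -/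
noncomputable def rowF (n : ℕ) : List ℕ → ℕ → ℕ :=
  Nat.rec (motive := fun _ => List ℕ → ℕ → ℕ) (fun _ r => r)
    (fun _ ih st _ => List.rec (motive := fun _ => ℕ) (nat_lit 0)
      (fun X st' _ => ih st' (Nat.mod (Nat.shiftRight X (nat_lit 1)) (nat_lit 281474976710656))) st) n

/-- Comparison of one word with the common beginning and ending. -/
noncomputable def okF (p3 s3 pre suf w : ℕ) : Bool :=
  ifB (Nat.beq (Nat.shiftRight w (Nat.sub (Nat.log2 w) p3)) pre)
    (ifB (Nat.ble (Nat.shiftLeft (nat_lit 1) s3) w) (Nat.beq (Nat.mod w (Nat.shiftLeft (nat_lit 1) s3)) suf) false) false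

/-- All words of the labels `< n` have the given beginning and ending. -/
noncomputable def allF (W p3 s3 pre suf : ℕ) (n : ℕ) : Bool :=
  Nat.rec (motive := fun _ => Bool) true (fun x ih => ifB (fz (slot W x) (okF p3 s3 pre suf)) ih false) n

/-- The middle block. -/
noncomputable def midF (d W T B kind : ℕ) : ℕ :=
  ifB (Nat.ble d kind) (catW (slot W (Nat.mod B (nat_lit 8))) (slot W (Nat.mod T (nat_lit 8)))) (slot W kind)

/-- Auxiliary. -/
noncomputable def zF3 (d W T B kind p3 s3 pre suf : ℕ) : ℕ :=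
  ifB (allF W p3 s3 pre suf d) (catW (catW (Nat.add (Nat.shiftLeft (nat_lit 1) s3) suf) (midF d W T B kind)) pre) (nat_lit 0)

/-- Auxiliary. -/
noncomputable def zF2 (d W T B kind p3 s3 pre w : ℕ) : ℕ :=
  fz (Nat.mod w (Nat.shiftLeft (nat_lit 1) s3)) (zF3 d W T B kind p3 s3 pre)

/-- Auxiliary. -/
noncomputable def zF1 (d W T B kind p3 s3 w : ℕ) : ℕ :=
  fz (Nat.shiftRight w (Nat.sub (Nat.log2 w) p3)) fun pre => zF2 d W T B kind p3 s3 pre w

/-- The word of the pattern (`0`: failure). -/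
noncomputable def zF (d W T B kind p3 s3 : ℕ) : ℕ :=
  ifB (Nat.beq (Nat.add p3 s3) (nat_lit 0)) (midF d W T B kind) (fz (slot W (nat_lit 0)) (zF1 d W T B kind p3 s3))

/-- Height of a letter as a form, without the constant. -/
def hF (x : ℕ) : ℕ :=
  Nat.shiftLeft (Nat.add (Nat.shiftLeft (nat_lit 1) (nat_lit 128)) (Nat.shiftLeft (nat_lit 1) (nat_lit 1152))) (Nat.mul (nat_lit 128) x)

/-- Height of a letter as a form, with the constant and garbage. -/
def gF' (x : ℕ) : ℕ := Nat.add (hF x) (Nat.add (Nat.shiftLeft (nat_lit 1) (nat_lit 2176)) (Nat.pow (nat_lit 11) x))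

/-- Sum of the heights of the lowest `n` letters. -/
noncomputable def sumF (n : ℕ) : ℕ → ℕ → ℕ :=
  Nat.rec (motive := fun _ => ℕ → ℕ → ℕ) (fun _ r => r)
    (fun _ ih z r => fz (Nat.div z (nat_lit 8)) fun z' => fz (Nat.add r (hF (Nat.mod z (nat_lit 8)))) (ih z')) n

/-- All the offsets. -/
noncomputable def offF : ℕ :=
  Nat.rec (motive := fun _ => ℕ) (nat_lit 0)
    (fun x W => Nat.add W (Nat.shiftLeft (nat_lit 1) (Nat.add (Nat.mul (nat_lit 128) x) (nat_lit 127)))) (nat_lit 18)

/-- Pull back one step. -/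
def pl1 (X Y : ℕ) : ℕ :=
  Nat.sub
    (Nat.add Y (Nat.mul (Nat.mod (Nat.shiftRight Y (Nat.mod (Nat.shiftRight X (nat_lit 64)) (nat_lit 4096)))
      (nat_lit 340282366920938463463374607431768211456)) (Nat.shiftRight X (nat_lit 76))))
    (Nat.shiftLeft (Nat.shiftRight X (nat_lit 76)) (nat_lit 127))

/-- Pull back through the stack. -/
noncomputable def plF : List ℕ → ℕ → ℕ :=
  List.rec (motive := fun _ => ℕ → ℕ) (fun Y => Y) (fun X _ ih Y => fz (pl1 X Y) ih)

/-- Use one multiplier `y` (sign in the lowest bit) of the relation `(u, v)`. -/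
noncomputable def mul1 (u v y Y : ℕ) : ℕ :=
  ifB (Nat.beq (Nat.mod y (nat_lit 2)) (nat_lit 1))
    (Nat.sub (Nat.add Y (Nat.mul (Nat.div y (nat_lit 2)) v))
      (Nat.mul (Nat.div y (nat_lit 2)) (Nat.add u (Nat.shiftLeft (nat_lit 1) (nat_lit 2176)))))
    (Nat.sub (Nat.add Y (Nat.mul (Nat.div y (nat_lit 2)) u)) (Nat.mul (Nat.div y (nat_lit 2)) v))

/-- Use the multipliers (20 bits each), then continue with the rest of the code. -/
noncomputable def mulsF (f : ℕ → ℕ → ℕ) : List (ℕ × ℕ) → ℕ → ℕ → ℕ :=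
  List.rec (motive := fun _ => ℕ → ℕ → ℕ) f
    (fun p _ ih c Y => fz (Nat.div c (nat_lit 1048576)) fun c' => fz (mul1 p.1 p.2 (Nat.mod c (nat_lit 1048576)) Y) (ih c'))

/-- Cut from the hint `q` (2 bits: none, `y` follows `x`, `x` follows `y`; 3 bits: position); `0` none, otherwise `c + 1`. -/
noncomputable def cutF (d T e x y q : ℕ) : ℕ :=
  ifB (Nat.ble (Nat.add (Nat.div q (nat_lit 4)) (nat_lit 2)) d)
    (ifB (Nat.beq (Nat.mod q (nat_lit 4)) (nat_lit 1))
      (ifB (Nat.beq x e) (nat_lit 0)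
        (ifB (Nat.beq (Nat.mod (Nat.shiftRight T (Nat.mul (nat_lit 3) (Nat.div q (nat_lit 4)))) (nat_lit 64))
          (Nat.add (Nat.mul (nat_lit 8) x) y)) (Nat.add y (nat_lit 1)) (nat_lit 0)))
      (ifB (Nat.beq (Nat.mod q (nat_lit 4)) (nat_lit 2))
        (ifB (Nat.beq y e) (nat_lit 0)
          (ifB (Nat.beq (Nat.mod (Nat.shiftRight T (Nat.mul (nat_lit 3) (Nat.div q (nat_lit 4)))) (nat_lit 64))
            (Nat.add (Nat.mul (nat_lit 8) y) x)) (Nat.add x (nat_lit 1)) (nat_lit 0)))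
        (nat_lit 0)))
    (nat_lit 0)

/-- Slot `v + s` if `v` is positive. -/
def ctr (v s : ℕ) : ℕ := Nat.shiftLeft (Nat.sub v (Nat.sub v (nat_lit 1))) (Nat.mul (nat_lit 128) (Nat.add v s))

/-- Data of a root. -/
structure RF where
  d : ℕ
  P : ℕ
  Q : ℕ
  K : ℕ
  /-- mask -/
  k : ℕ
  /-- initial table -/
  w : ℕ
  /-- offsets -/
  o : ℕ
  /-- relations -/
  r : List (ℕ × ℕ)

/-- Last check. -/
noncomputable def l9 (D : RF) (c' Y : ℕ) : ℕ :=
  ifB (Nat.beq (Nat.land Y D.k) D.k)
    (ifB (Nat.ble (nat_lit 170141183460469231731687303715884105728) (Nat.add (Nat.shiftRight Y (nat_lit 2176)) D.K))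
      (Nat.add c' (nat_lit 1)) (nat_lit 0)) (nat_lit 0)

/-- Multipliers. -/
noncomputable def l8 (D : RF) (c Y : ℕ) : ℕ := mulsF (l9 D) D.r c Y

/-- Pulling back. -/
noncomputable def l7 (D : RF) (st : List ℕ) (c Z N V : ℕ) : ℕ :=
  fz (plF st (Nat.sub (Nat.add (Nat.add D.o (Nat.mod Z (nat_lit 2305843009213693951))) (Nat.mul D.Q N)) (Nat.mul D.P V))) (l8 D c)

/-- Length of the run, length of the period. -/
noncomputable def l6 (D : RF) (st : List ℕ) (c RS q Z r3 k l : ℕ) : ℕ :=
  fz (sumF l (Nat.shiftRight Z (Nat.add r3 (Nat.mul (nat_lit 3) k)))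
    (Nat.add (Nat.shiftLeft l (nat_lit 2176))
      (Nat.add
        (ifB (Nat.ble (nat_lit 3) r3)
          (ctr (cutF D.d (Nat.shiftRight RS (nat_lit 24)) (Nat.mod RS (nat_lit 8))
            (Nat.mod (Nat.shiftRight Z (Nat.sub (Nat.add r3 (Nat.mul (nat_lit 3) k)) (nat_lit 3))) (nat_lit 8))
            (Nat.mod (Nat.shiftRight Z (Nat.sub r3 (nat_lit 3))) (nat_lit 8))
            (Nat.mod (Nat.div q (nat_lit 8589934592)) (nat_lit 32))) (nat_lit 0)) (nat_lit 0))
        (ifB (Nat.ble (Nat.shiftLeft (nat_lit 1) (Nat.add (Nat.add r3 (Nat.mul (nat_lit 3) (Nat.add k l))) (nat_lit 3))) Z)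
          (ctr (cutF D.d (Nat.mod RS (nat_lit 16777216)) (Nat.mod (Nat.shiftRight RS (nat_lit 24)) (nat_lit 8))
            (Nat.mod (Nat.shiftRight Z (Nat.add r3 (Nat.mul (nat_lit 3) (Nat.add k l)))) (nat_lit 8))
            (Nat.mod (Nat.shiftRight Z (Nat.add r3 (Nat.mul (nat_lit 3) l))) (nat_lit 8))
            (Nat.mod (Nat.div q (nat_lit 274877906944)) (nat_lit 32))) (nat_lit 8)) (nat_lit 0)))))
    fun N => fz (sumF k (Nat.shiftRight Z (Nat.add r3 (Nat.mul (nat_lit 3) l))) (Nat.shiftLeft k (nat_lit 2176))) (l7 D st c Z N)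

/-- The run is a run. -/
noncomputable def l5 (D : RF) (st : List ℕ) (c RS q Z r3 k l : ℕ) : ℕ :=
  ifB (ifB (Nat.ble (nat_lit 1) k)
      (ifB (Nat.ble (Nat.shiftLeft (nat_lit 1) (Nat.add r3 (Nat.mul (nat_lit 3) (Nat.add k l)))) Z)
        (Nat.beq (Nat.mod (Nat.shiftRight Z (Nat.add r3 (Nat.mul (nat_lit 3) k))) (Nat.shiftLeft (nat_lit 1) (Nat.mul (nat_lit 3) l)))
          (Nat.mod (Nat.shiftRight Z r3) (Nat.shiftLeft (nat_lit 1) (Nat.mul (nat_lit 3) l)))) false) false)
    (l6 D st c RS q Z r3 k l) (nat_lit 0)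

/-- Auxiliary. -/
noncomputable def l4 (D : RF) (st : List ℕ) (c RS q Z r3 k : ℕ) : ℕ :=
  fz (Nat.mod (Nat.div q (nat_lit 268435456)) (nat_lit 32)) (l5 D st c RS q Z r3 k)

/-- Auxiliary. -/
noncomputable def l3 (D : RF) (st : List ℕ) (c RS q Z r3 : ℕ) : ℕ :=
  fz (Nat.mod (Nat.div q (nat_lit 8388608)) (nat_lit 32)) (l4 D st c RS q Z r3)

/-- Auxiliary. -/
noncomputable def l2 (D : RF) (st : List ℕ) (c RS q Z : ℕ) : ℕ :=
  fz (Nat.mul (nat_lit 3) (Nat.mod (Nat.div q (nat_lit 262144)) (nat_lit 32))) (l3 D st c RS q Z)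

/-- Auxiliary. -/
noncomputable def l1 (D : RF) (st : List ℕ) (T B c q W : ℕ) : ℕ :=
  fz (rowF (Nat.mod q (nat_lit 32)) st (Nat.add (Nat.shiftLeft T (nat_lit 24)) B)) fun RS =>
    fz (zF D.d W T B (Nat.mod (Nat.div q (nat_lit 32)) (nat_lit 8))
        (Nat.mul (nat_lit 3) (Nat.mod (Nat.div q (nat_lit 256)) (nat_lit 32)))
        (Nat.mul (nat_lit 3) (Nat.mod (Nat.div q (nat_lit 8192)) (nat_lit 32))))
      (l2 D (drpF (Nat.mod q (nat_lit 32)) st) c RS q)

/-- Auxiliary. -/
noncomputable def l0 (D : RF) (st : List ℕ) (T B c q : ℕ) : ℕ :=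
  fz (tabW D.w (Nat.mod q (nat_lit 32)) st) (l1 D st T B c q)

/-- Forbidden window: the code is `window length (5 bits), kind (3), np (5), ns (5), r (5), k (5), l (5), hints for the right
and for the left cut (5, 5), multipliers`. -/
noncomputable def leafF (D : RF) (st : List ℕ) (T B c : ℕ) : ℕ :=
  fz (Nat.div c (nat_lit 8796093022208)) fun c' => fz (Nat.mod c (nat_lit 8796093022208)) (l0 D st T B c')

/-- Membership. -/
noncomputable def memF (x : ℕ) : List ℕ → Bool :=
  List.rec (motive := fun _ => Bool) false (fun y _ ih => ifB (Nat.beq x y) true ih)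

/-- Position from the right of the digit `x`. -/
noncomputable def posR (x : ℕ) (n : ℕ) : ℕ → ℕ :=
  Nat.rec (motive := fun _ => ℕ → ℕ) (fun _ => nat_lit 0)
    (fun _ ih T => ifB (Nat.beq (Nat.mod T (nat_lit 8)) x) (nat_lit 0) (Nat.add (ih (Nat.div T (nat_lit 8))) (nat_lit 1))) n

/-- Canonical code of the rows. -/
noncomputable def canF (d T : ℕ) (n : ℕ) : ℕ → ℕ :=
  Nat.rec (motive := fun _ => ℕ → ℕ) (fun _ => nat_lit 0)
    (fun _ ih B => Nat.add (Nat.mul (nat_lit 8) (ih (Nat.div B (nat_lit 8))))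
      (Nat.sub (Nat.sub d (nat_lit 1)) (posR (Nat.mod B (nat_lit 8)) (nat_lit 8) T))) n

/-- The types of the steps in the stack (most recent first). -/
noncomputable def typF : List ℕ → List Bool :=
  List.rec (motive := fun _ => List Bool) [] (fun X _ ih => Nat.beq (Nat.mod X (nat_lit 2)) (nat_lit 1) :: ih)

/-- The row `B` without its last label `y`, which is inserted after the label `x` at position `j` from the right (`f` is applied to
the new row; `0` if `x` is not there). -/
noncomputable def insF (d x j B : ℕ) (f : ℕ → ℕ) : ℕ :=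
  ifB (ifB (Nat.ble (Nat.add j (nat_lit 2)) d)
      (Nat.beq (Nat.mod (Nat.shiftRight B (Nat.mul (nat_lit 3) (Nat.add j (nat_lit 1)))) (nat_lit 8)) x) false)
    (fz (Nat.add
      (Nat.shiftLeft (Nat.add (Nat.mul (nat_lit 8) (Nat.shiftRight B (Nat.mul (nat_lit 3) (Nat.add j (nat_lit 1))))) (Nat.mod B (nat_lit 8)))
        (Nat.mul (nat_lit 3) j))
      (Nat.mod (Nat.div B (nat_lit 8)) (Nat.shiftLeft (nat_lit 1) (Nat.mul (nat_lit 3) j)))) f)
    (nat_lit 0)

/-- Stack entry. -/
def entF (T B c h s : ℕ) : ℕ :=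
  Nat.add (Nat.shiftLeft (Nat.add (Nat.shiftLeft h (nat_lit 12)) (Nat.mul (nat_lit 128) s)) (nat_lit 64))
    (Nat.add (Nat.mul (nat_lit 2) (Nat.add (Nat.shiftLeft T (nat_lit 24)) B)) c)

/-- The second child of a node. -/
noncomputable def nd2 (D : RF) (ih : List ℕ → ℕ → ℕ → ℕ → ℕ) (st : List ℕ) (T B j c : ℕ) : ℕ :=
  fz (entF T B (nat_lit 1) (gF' (Nat.mod B (nat_lit 8))) (Nat.add (Nat.mod T (nat_lit 8)) (nat_lit 1))) fun X =>
    insF D.d (Nat.mod B (nat_lit 8)) j T fun T' => ih (X :: st) T' B c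

/-- The first child of a node. -/
noncomputable def nd1 (D : RF) (ih : List ℕ → ℕ → ℕ → ℕ → ℕ) (st : List ℕ) (T B j c : ℕ) : ℕ :=
  fz (entF T B (nat_lit 0) (gF' (Nat.mod T (nat_lit 8))) (Nat.add (Nat.mod B (nat_lit 8)) (nat_lit 9))) fun X =>
    insF D.d (Nat.mod T (nat_lit 8)) j B fun B' => ih (X :: st) T B' c

/-- Tag of a vertex of lower rank or of a golden loop. -/
noncomputable def nd3 (D : RF) (stop : List ℕ) (gchk : List Bool → Bool) (st : List ℕ) (T B c t : ℕ) : ℕ :=
  Nat.rec (motive := fun _ => ℕ)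
    (List.rec (motive := fun _ => ℕ) (nat_lit 0)
      (fun _ _ _ => ifB (memF (canF D.d T D.d B) stop) (Nat.add c (nat_lit 1)) (nat_lit 0)) st)
    (fun _ _ => ifB (gchk (typF st)) (Nat.add c (nat_lit 1)) (nat_lit 0)) t

/-- Traversal of the coded tree: tags `0` node (with two positions of 3 bits), `1` forbidden, `2` lower rank, `3` golden. -/
noncomputable def runF (D : RF) (stop : List ℕ) (gchk : List Bool → Bool) (n : ℕ) : List ℕ → ℕ → ℕ → ℕ → ℕ :=
  Nat.rec (motive := fun _ => List ℕ → ℕ → ℕ → ℕ → ℕ) (fun _ _ _ _ => nat_lit 0)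
    (fun _ ih st T B c => fz (Nat.div c (nat_lit 4)) fun c' =>
      Nat.rec (motive := fun _ => ℕ)
        (bndN (nd1 D ih st T B (Nat.mod c' (nat_lit 8)) (Nat.div c' (nat_lit 64)))
          (nd2 D ih st T B (Nat.mod (Nat.div c' (nat_lit 8)) (nat_lit 8))))
        (fun t _ => Nat.rec (motive := fun _ => ℕ) (leafF D st T B c')
          (fun t' _ => nd3 D stop gchk st T B c' t') t)
        (Nat.mod c (nat_lit 4))) n

/-- Required slots. -/
noncomputable def mskF (d h : ℕ) : ℕ :=
  Nat.rec (motive := fun _ => ℕ) (nat_lit 0)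
    (fun x W => Nat.add (Nat.add W (ifB (Nat.beq x (nat_lit 0)) (nat_lit 0)
        (Nat.shiftLeft (nat_lit 1) (Nat.add (Nat.mul (nat_lit 128) x) (nat_lit 255)))))
      (ifB (Nat.beq x h) (nat_lit 0) (Nat.shiftLeft (nat_lit 1) (Nat.add (Nat.mul (nat_lit 128) x) (nat_lit 1279))))) d

/-- Packed row. -/
def encR : List ℕ → ℕ → ℕ
  | [], m => m
  | x :: l, m => encR l (8 * m + x)

/-- Relation of the label `e` at the root. -/
def relR (R : Rows) (e : ℕ) : List (ℕ × ℕ) :=
  match nxt e R.top, nxt e R.bot with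
  | some g, some k => [(2 ^ (128 * (g + 1)) + 2 ^ (128 * (k + 9)), 2 ^ (128 * (e + 1)) + 2 ^ (128 * (e + 9)))]
  | _, _ => []

/-- Data of the root `π`. -/
noncomputable def mkRF (A : Par) (π : List ℕ) : RF :=
  ⟨A.d, A.P.toNat, A.Q.toNat, A.K.toNat, mskF A.d (π.headD 0), iniW A.d, offF,
    (List.range A.d).flatMap (relR (rows0 A.d π))⟩

/-- Stack entry of a step of type `c` from the rows `R`. -/
def entR (c : Bool) (R : Rows) : ℕ :=
  bif c then entF (encR R.top 0) (encR R.bot 0) 1 (gF' R.b) (R.a + 1)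
  else entF (encR R.top 0) (encR R.bot 0) 0 (gF' R.a) (R.b + 9)

/-- Stack of the reversed path `gr` from the rows `rt`. -/
def stkF (rt : Rows) : List Bool → List ℕ
  | [] => []
  | c :: gr => entR c (runR gr.reverse rt) :: stkF rt gr

/-- Force the evaluation of a list. -/
noncomputable def frc (f : List ℕ → ℕ) : List ℕ → List ℕ → ℕ :=
  List.rec (motive := fun _ => List ℕ → ℕ) (fun l => f l) (fun x _ ih l => fz x fun x' => ih (x' :: l))

/-- Force the evaluation of a list of pairs. -/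
noncomputable def frcP (f : List (ℕ × ℕ) → ℕ) : List (ℕ × ℕ) → List (ℕ × ℕ) → ℕ :=
  List.rec (motive := fun _ => List (ℕ × ℕ) → ℕ) (fun l => f l)
    (fun x _ ih l => fz x.1 fun a => fz x.2 fun b => ih ((a, b) :: l))

/-- Apply `f` to the data of the root `π`, all evaluated. -/
noncomputable def mkD (A : Par) (π : List ℕ) (f : RF → ℕ) : ℕ :=
  fz A.d fun d => fz A.P.toNat fun P => fz A.Q.toNat fun Q => fz A.K.toNat fun K => fz (mskF A.d (π.headD 0)) fun k =>
    fz (iniW A.d) fun w => fz offF fun o =>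
      frcP (fun r => f ⟨d, P, Q, K, k, w, o, r⟩) ((List.range A.d).flatMap (relR (rows0 A.d π))).reverse []

/-- Fast check of the subtree with code `c` at the end of the reversed path `gr` from the root `π`; `codes` are the
packed vertices of lower rank. -/
noncomputable def fastOK (A : Par) (codes : List ℕ) (gchk : List Bool → Bool) (π : List ℕ) (gr : List Bool) (c : ℕ) :
    Bool :=
  Nat.beq (mkD A π fun D => frc (fun st =>
    fz (encR (runR gr.reverse (rows0 A.d π)).top 0) fun T => fz (encR (runR gr.reverse (rows0 A.d π)).bot 0) fun B =>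
      runF D codes gchk (64 - gr.length) st T B c) (stkF (rows0 A.d π) gr).reverse []) 1

end Pool.Agent.RTX
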