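import Pool.Agent.RTX.FPk

/-! # RTX/FDig: the slots of a packed form -/

set_option autoImplicit false

namespace Pool.Agent.RTX

/-- All entries are digits. -/
private def FDig_ok (L : List ℤ) : Prop := ∀ z ∈ L, 0 ≤ z ∧ z < 2 ^ 128

private theorem FDig_nonneg : ∀ (L : List ℤ), FDig_ok L → 0 ≤ evB L
  | [], _ => le_refl _
  | z :: l, h => by
    have h1 := FDig_nonneg l fun y hy => h y (List.mem_cons_of_mem _ hy)
    have h2 := (h z List.mem_cons_self).1
    have h3 : (0 : ℤ) ≤ 2 ^ 128 * evB l := mul_nonneg (by positivity) h1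
    simp only [evB]
    exact add_nonneg h2 h3

private theorem FDig_append (L M : List ℤ) : evB (L ++ M) = evB L + 2 ^ (128 * L.length) * evB M := by
  induction L with
  | nil => simp [evB]
  | cons z l ih =>
    rw [List.cons_append, List.length_cons]
    simp only [evB]
    rw [ih, Nat.mul_succ, pow_add]
    ring

private theorem FDig_map (L : List ℤ) (u : ℤ) :
    evB (L.map (u + ·)) = evB (List.replicate L.length u) + evB L := by
  induction L with
  | nil => simp [evB]
  | cons z l ih =>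
    rw [List.map_cons, List.length_cons, List.replicate_succ]
    simp only [evB]
    rw [ih]
    ring

private theorem FDig_zero (n : ℕ) : evB (List.replicate n 0) = 0 := by
  induction n with
  | zero => rfl
  | succ n ih =>
    rw [List.replicate_succ]
    simp only [evB]
    rw [ih]; simp

private theorem FDig_getApp (L M : List ℤ) : ∀ n, n < L.length → getZ n (L ++ M) = getZ n L := by
  induction L with
  | nil => intro n h; simp at h
  | cons z l ih =>
    intro n h
    cases n with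
    | zero => rfl
    | succ n =>
      have h1 : n < l.length := by simpa using h
      exact ih n h1

private theorem FDig_getApp2 (L M : List ℤ) (n : ℕ) : getZ (L.length + n) (L ++ M) = getZ n M := by
  induction L with
  | nil => rw [List.length_nil, Nat.zero_add]; rfl
  | cons z l ih =>
    have e : (z :: l).length + n = (l.length + n) + 1 := by
      rw [List.length_cons]; omega
    rw [e]
    exact ih

private theorem FDig_getMap (L : List ℤ) (u : ℤ) : ∀ n, n < L.length →
    getZ n (L.map (u + ·)) = u + getZ n L := by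
  induction L with
  | nil => intro n h; simp at h
  | cons z l ih =>
    intro n h
    cases n with
    | zero => rfl
    | succ n =>
      have h1 : n < l.length := by simpa using h
      exact ih n h1

private theorem FDig_getDrop (L : List ℤ) : ∀ n, getZ 0 (L.drop n) = getZ n L := by
  induction L with
  | nil => intro n; cases n <;> rfl
  | cons z l ih =>
    intro n
    cases n with
    | zero => rfl
    | succ n => exact ih n

private theorem FDig_tail {z : ℤ} {l : List ℤ} (h : FDig_ok (z :: l)) {Y : ℕ} (hY : (Y : ℤ) = evB (z :: l)) :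
    ((Y >>> 128 : ℕ) : ℤ) = evB l ∧ ((Y % 2 ^ 128 : ℕ) : ℤ) = z := by
  have h0 := h z List.mem_cons_self
  have h1 := FDig_nonneg l fun y hy => h y (List.mem_cons_of_mem _ hy)
  obtain ⟨a, rfl⟩ := Int.eq_ofNat_of_zero_le h0.1
  obtain ⟨b, hb⟩ := Int.eq_ofNat_of_zero_le h1
  simp only [evB] at hY
  rw [hb] at hY
  have h2 : Y = a + 2 ^ 128 * b := by
    have h3 : ((Y : ℕ) : ℤ) = ((a + 2 ^ 128 * b : ℕ) : ℤ) := by
      rw [hY]
      push_cast
      rfl
    exact_mod_cast h3
  have ha : a < 2 ^ 128 := by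
    have h4 := h0.2
    exact_mod_cast h4
  constructor
  · rw [hb, Nat.shiftRight_eq_div_pow, h2, Nat.add_mul_div_left _ _ (by positivity), Nat.div_eq_of_lt ha,
      Nat.zero_add]
  · rw [h2, Nat.add_mul_mod_self_left, Nat.mod_eq_of_lt ha]

private theorem FDig_shift : ∀ (n : ℕ) (L : List ℤ) (Y : ℕ), FDig_ok L → (Y : ℤ) = evB L →
    ((Y >>> (128 * n) : ℕ) : ℤ) = evB (L.drop n) := by
  intro n
  induction n with
  | zero =>
    intro L Y _ hY
    rw [Nat.mul_zero, Nat.shiftRight_zero, List.drop_zero]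
    exact hY
  | succ n ih =>
    intro L Y h hY
    cases L with
    | nil =>
      have h0 : Y = 0 := by
        have h1 : ((Y : ℕ) : ℤ) = 0 := hY
        exact_mod_cast h1
      rw [h0, Nat.zero_shiftRight]
      rfl
    | cons z l =>
      have h1 := (FDig_tail h hY).1
      have h2 := ih l (Y >>> 128) (fun y hy => h y (List.mem_cons_of_mem _ hy)) h1
      rw [← Nat.shiftRight_add] at h2
      have e : 128 + 128 * n = 128 * (n + 1) := by ring
      rw [e] at h2
      exact h2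

private theorem FDig_digit {L : List ℤ} {Y : ℕ} (h : FDig_ok L) (hY : (Y : ℤ) = evB L) (n : ℕ) :
    ((Y >>> (128 * n) % 2 ^ 128 : ℕ) : ℤ) = getZ n L := by
  have h1 := FDig_shift n L Y h hY
  have h2 : FDig_ok (L.drop n) := fun z hz => h z (List.mem_of_mem_drop hz)
  rw [← FDig_getDrop]
  obtain ⟨M, hM⟩ : ∃ M, M = L.drop n := ⟨_, rfl⟩
  rw [← hM] at h1 h2 ⊢
  cases M with
  | nil =>
    have h3 : Y >>> (128 * n) = 0 := by
      have h4 : (((Y >>> (128 * n) : ℕ)) : ℤ) = 0 := h1
      exact_mod_cast h4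
    rw [h3, Nat.zero_mod]
    rfl
  | cons z l => exact (FDig_tail h2 h1).2

/-- The digits of the packed form. -/
private def FDig_list (d : ℕ) (F : LF) (j : ℤ) : List ℤ :=
  ((2 ^ 127 + j) :: (F.p ++ List.replicate (8 - d) 0).map (2 ^ 127 + ·)) ++
    ((F.s ++ List.replicate (8 - d) 0).map (2 ^ 127 + ·) ++ [2 ^ 127 + F.k])

private theorem FDig_list_ev {d : ℕ} (hd : d ≤ 8) {F : LF} (ok : F.ok d) (j : ℤ) :
    evB (FDig_list d F j) = offZ + j + pk F := by
  have hlp : (F.p ++ List.replicate (8 - d) (0 : ℤ)).length = 8 := by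
    rw [List.length_append, List.length_replicate, ok.p]; omega
  have hls : (F.s ++ List.replicate (8 - d) (0 : ℤ)).length = 8 := by
    rw [List.length_append, List.length_replicate, ok.s]; omega
  have hep : evB (F.p ++ List.replicate (8 - d) (0 : ℤ)) = evB F.p := by
    rw [FDig_append, FDig_zero, mul_zero, add_zero]
  have hes : evB (F.s ++ List.replicate (8 - d) (0 : ℤ)) = evB F.s := by
    rw [FDig_append, FDig_zero, mul_zero, add_zero]
  have hrep : List.replicate 18 ((2 : ℤ) ^ 127) =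
      ((2 : ℤ) ^ 127 :: List.replicate 8 ((2 : ℤ) ^ 127)) ++ (List.replicate 8 ((2 : ℤ) ^ 127) ++ [(2 : ℤ) ^ 127]) := rfl
  have hoff : offZ = evB (((2 : ℤ) ^ 127 :: List.replicate 8 ((2 : ℤ) ^ 127)) ++
      (List.replicate 8 ((2 : ℤ) ^ 127) ++ [(2 : ℤ) ^ 127])) := by
    unfold offZ
    rw [hrep]
  have e1 : (1152 : ℕ) = 128 * 9 := by norm_num
  have e2 : (2176 : ℕ) = 128 * 9 + 128 * 8 := by norm_num
  rw [hoff]
  unfold FDig_list pk
  rw [e1, e2, FDig_append, FDig_append, FDig_append, FDig_append]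
  have c1 : ((2 ^ 127 + j) :: (F.p ++ List.replicate (8 - d) (0 : ℤ)).map (2 ^ 127 + ·)).length = 9 := by
    rw [List.length_cons, List.length_map, hlp]
  have c2 : ((F.s ++ List.replicate (8 - d) (0 : ℤ)).map ((2 : ℤ) ^ 127 + ·)).length = 8 := by
    rw [List.length_map, hls]
  have c3 : ((2 : ℤ) ^ 127 :: List.replicate 8 ((2 : ℤ) ^ 127)).length = 9 := by
    rw [List.length_cons, List.length_replicate]
  have c4 : (List.replicate 8 ((2 : ℤ) ^ 127)).length = 8 := List.length_replicate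
  rw [c1, c2, c3, c4]
  simp only [evB]
  rw [FDig_map, FDig_map, hlp, hls, hep, hes, pow_add]
  generalize (2 : ℤ) ^ (128 * 9) = a
  generalize (2 : ℤ) ^ (128 * 8) = b
  generalize (2 : ℤ) ^ 128 = c
  generalize evB (List.replicate 8 ((2 : ℤ) ^ 127)) = o
  generalize (2 : ℤ) ^ 127 = u
  ring

private theorem FDig_list_ok {d : ℕ} {F : LF} {B j : ℤ} (hp : ∀ z ∈ F.p, |z| ≤ B)
    (hs : ∀ z ∈ F.s, |z| ≤ B) (hk : |F.k| ≤ B) (hj : |j| ≤ 2 ^ 61 + 2 ^ 25 * B) (hB : B ≤ 2 ^ 98) :
    FDig_ok (FDig_list d F j) := by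
  have key : ∀ z : ℤ, |z| ≤ 2 ^ 98 → 0 ≤ 2 ^ 127 + z ∧ 2 ^ 127 + z < 2 ^ 128 := by
    intro z hz
    have h1 := abs_le.1 hz
    constructor
    · have : (2 : ℤ) ^ 98 ≤ 2 ^ 127 := by norm_num
      linarith [h1.1]
    · have : (2 : ℤ) ^ 127 + 2 ^ 98 < 2 ^ 128 := by norm_num
      linarith [h1.2]
  have keyJ : 0 ≤ 2 ^ 127 + j ∧ 2 ^ 127 + j < 2 ^ 128 := by
    have h1 : |j| ≤ 2 ^ 61 + 2 ^ 25 * 2 ^ 98 := by
      have h2 : (2 : ℤ) ^ 25 * B ≤ 2 ^ 25 * 2 ^ 98 := mul_le_mul_of_nonneg_left hB (by positivity)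
      linarith
    have h3 := abs_le.1 h1
    have h4 : (2 : ℤ) ^ 61 + 2 ^ 25 * 2 ^ 98 < 2 ^ 127 := by norm_num
    have h5 : (2 : ℤ) ^ 127 + 2 ^ 127 = 2 ^ 128 := by norm_num
    constructor
    · linarith [h3.1]
    · linarith [h3.2]
  have keyL : ∀ l : List ℤ, (∀ z ∈ l, |z| ≤ B) →
      ∀ z ∈ (l ++ List.replicate (8 - d) 0).map ((2 : ℤ) ^ 127 + ·), 0 ≤ z ∧ z < 2 ^ 128 := by
    intro l hl z hz
    obtain ⟨y, hy, rfl⟩ := List.mem_map.1 hz
    rcases List.mem_append.1 hy with hy | hy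
    · exact key y ((hl y hy).trans hB)
    · have h0 := (List.mem_replicate.1 hy).2
      rw [h0]
      exact key 0 (by norm_num)
  intro z hz
  unfold FDig_list at hz
  rcases List.mem_append.1 hz with hz | hz
  · rcases List.mem_cons.1 hz with hz | hz
    · rw [hz]
      exact keyJ
    · exact keyL F.p hp z hz
  · rcases List.mem_append.1 hz with hz | hz
    · exact keyL F.s hs z hz
    · rw [List.mem_singleton.1 hz]
      exact key F.k (hk.trans hB)

theorem pk_nonneg {d : ℕ} (hd : d ≤ 8) {F : LF} (ok : F.ok d) {B j : ℤ} (hp : ∀ z ∈ F.p, |z| ≤ B)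
    (hs : ∀ z ∈ F.s, |z| ≤ B) (hk : |F.k| ≤ B) (hj : |j| ≤ 2 ^ 61 + 2 ^ 25 * B) (hB : B ≤ 2 ^ 98) :
    0 ≤ offZ + j + pk F := by
  rw [← FDig_list_ev hd ok j]
  exact FDig_nonneg _ (FDig_list_ok (d := d) hp hs hk hj hB)

theorem frm_dig {d : ℕ} (hd : d ≤ 8) {F : LF} {B : ℤ} {Y : ℕ} (h : Frm d F B Y) (hB : B ≤ 2 ^ 98) :
    (∀ x < d, ((Y >>> (128 * (x + 1)) % 340282366920938463463374607431768211456 : ℕ) : ℤ) = 2 ^ 127 + getZ x F.p) ∧
    (∀ x < d, ((Y >>> (128 * (x + 9)) % 340282366920938463463374607431768211456 : ℕ) : ℤ) = 2 ^ 127 + getZ x F.s) ∧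
    ((Y >>> 2176 : ℕ) : ℤ) = 2 ^ 127 + F.k := by
  obtain ⟨j, hj, hY⟩ := h.y
  have hok := FDig_list_ok (d := d) h.p h.s h.k hj hB
  rw [← FDig_list_ev hd h.ok j] at hY
  have e0 : (340282366920938463463374607431768211456 : ℕ) = 2 ^ 128 := by norm_num
  have hlp : (F.p ++ List.replicate (8 - d) (0 : ℤ)).length = 8 := by
    rw [List.length_append, List.length_replicate, h.ok.p]; omega
  have hls : (F.s ++ List.replicate (8 - d) (0 : ℤ)).length = 8 := by
    rw [List.length_append, List.length_replicate, h.ok.s]; omega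
  have c1 : ((2 ^ 127 + j) :: (F.p ++ List.replicate (8 - d) (0 : ℤ)).map ((2 : ℤ) ^ 127 + ·)).length = 9 := by
    rw [List.length_cons, List.length_map, hlp]
  have c2 : ((F.s ++ List.replicate (8 - d) (0 : ℤ)).map ((2 : ℤ) ^ 127 + ·)).length = 8 := by
    rw [List.length_map, hls]
  refine ⟨fun x hx => ?_, fun x hx => ?_, ?_⟩
  · rw [e0, FDig_digit hok hY]
    unfold FDig_list
    rw [FDig_getApp _ _ _ (by rw [c1]; omega)]
    show getZ x ((F.p ++ List.replicate (8 - d) (0 : ℤ)).map ((2 : ℤ) ^ 127 + ·)) = _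
    rw [FDig_getMap _ _ _ (by rw [hlp]; omega), FDig_getApp _ _ _ (by rw [h.ok.p]; exact hx)]
  · rw [e0, FDig_digit hok hY]
    unfold FDig_list
    have e : x + 9 = ((2 ^ 127 + j) ::
        (F.p ++ List.replicate (8 - d) (0 : ℤ)).map ((2 : ℤ) ^ 127 + ·)).length + x := by
      rw [c1]; omega
    rw [e, FDig_getApp2, FDig_getApp _ _ _ (by rw [c2]; omega),
      FDig_getMap _ _ _ (by rw [hls]; omega), FDig_getApp _ _ _ (by rw [h.ok.s]; exact hx)]
  · have e3 : (2176 : ℕ) = 128 * 17 := by norm_num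
    rw [e3, FDig_shift 17 _ Y hok hY]
    unfold FDig_list
    have e4 : (17 : ℕ) = ((2 ^ 127 + j) ::
        (F.p ++ List.replicate (8 - d) (0 : ℤ)).map ((2 : ℤ) ^ 127 + ·)).length +
        ((F.s ++ List.replicate (8 - d) (0 : ℤ)).map ((2 : ℤ) ^ 127 + ·)).length := by
      rw [c1, c2]
    rw [e4, ← List.drop_drop, List.drop_left, List.drop_left]
    simp [evB]

end Pool.Agent.RTX
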