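import Pool.Agent.RTX.FPre

/-!
# RTX/FEncA: packed words (first part)

`encR l m` appends the digits of `l` (base 8) to `m`.  PLAN: `encR_app`, `encR_val` by induction on `l` (generalising `m`; in the
cons case `encR (x :: l) a = encR l (8 * a + x)`, and use the induction hypothesis twice, for `8 * a + x` and for `x`);
`encR_lt` by induction with `encR_val` (`encR (x :: l) 0 = x * 8 ^ |l| + encR l 0`); `encR_inj` by induction on both lists:
`x * 8 ^ n + r = y * 8 ^ n + s` with `r, s < 8 ^ n` gives `x = y`, `r = s`; `encW_inj`: `encR l 1 = 8 ^ |l| + encR l 0` lies in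
`[8 ^ |l|, 2 * 8 ^ |l|)`, hence the lengths agree.
-/

set_option autoImplicit false

namespace Pool.Agent.RTX

theorem encR_app (l m : List ℕ) (a : ℕ) : encR (l ++ m) a = encR m (encR l a) := by
  induction l generalizing a with
  | nil => rfl
  | cons x l ih => exact ih (8 * a + x)

theorem encR_val (l : List ℕ) (a : ℕ) : encR l a = a * 8 ^ l.length + encR l 0 := by
  induction l generalizing a with
  | nil =>
    show a = a * 8 ^ 0 + 0
    ring
  | cons x l ih =>
    have h1 : encR (x :: l) a = encR l (8 * a + x) := rfl
    have h2 : encR (x :: l) 0 = encR l (8 * 0 + x) := rfl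
    rw [h1, h2, ih (8 * a + x), ih (8 * 0 + x), List.length_cons]
    ring

private theorem fencA_cons (x : ℕ) (l : List ℕ) : encR (x :: l) 0 = x * 8 ^ l.length + encR l 0 := by
  have h2 : encR (x :: l) 0 = encR l (8 * 0 + x) := rfl
  rw [h2, encR_val, mul_zero, zero_add]

theorem encR_lt {l : List ℕ} (h : L8 l) : encR l 0 < 8 ^ l.length := by
  induction l with
  | nil =>
    show 0 < 8 ^ 0
    norm_num
  | cons x l ih =>
    have h1 : encR l 0 < 8 ^ l.length := ih fun y hy => h y (List.mem_cons_of_mem _ hy)
    have h2 : x < 8 := h x List.mem_cons_self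
    rw [fencA_cons, List.length_cons, pow_succ]
    have h3 : x * 8 ^ l.length ≤ 7 * 8 ^ l.length := Nat.mul_le_mul_right _ (by omega)
    omega

theorem encR_inj {l m : List ℕ} (hl : L8 l) (hm : L8 m) (h : l.length = m.length) (he : encR l 0 = encR m 0) :
    l = m := by
  induction l generalizing m with
  | nil =>
    cases m with
    | nil => rfl
    | cons y m => simp at h
  | cons x l ih =>
    cases m with
    | nil => simp at h
    | cons y m =>
      have hlen : l.length = m.length := by simpa using h
      have hl' : L8 l := fun z hz => hl z (List.mem_cons_of_mem _ hz)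
      have hm' : L8 m := fun z hz => hm z (List.mem_cons_of_mem _ hz)
      rw [fencA_cons, fencA_cons, hlen] at he
      have h1 : encR l 0 < 8 ^ m.length := hlen ▸ encR_lt hl'
      have h2 : encR m 0 < 8 ^ m.length := encR_lt hm'
      have hpos : 0 < 8 ^ m.length := by positivity
      have hx : x = y := by
        have h3 := congrArg (fun t => t / 8 ^ m.length) he
        rw [mul_comm x, mul_comm y, Nat.mul_add_div hpos, Nat.mul_add_div hpos,
          Nat.div_eq_of_lt h1, Nat.div_eq_of_lt h2] at h3
        simpa using h3
      subst hx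
      have he' : encR l 0 = encR m 0 := by omega
      rw [ih hl' hm' hlen he']

theorem encW_inj {l m : List ℕ} (hl : L8 l) (hm : L8 m) (he : encR l 1 = encR m 1) : l = m := by
  rw [encR_val l, encR_val m, one_mul, one_mul] at he
  have h1 := encR_lt hl
  have h2 := encR_lt hm
  have hlen : l.length = m.length := by
    rcases Nat.lt_trichotomy l.length m.length with h | h | h
    · exfalso
      have h3 : 8 ^ (l.length + 1) ≤ 8 ^ m.length := Nat.pow_le_pow_right (by norm_num) h
      rw [pow_succ] at h3
      omega
    · exact h
    · exfalso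
      have h3 : 8 ^ (m.length + 1) ≤ 8 ^ l.length := Nat.pow_le_pow_right (by norm_num) h
      rw [pow_succ] at h3
      omega
  refine encR_inj hl hm hlen ?_
  rw [hlen] at he
  omega

end Pool.Agent.RTX
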