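import Pool.Agent.RTX.FEncA

/-!
# RTX/FEncB: packed words (second part)

PLAN: `1 <<< (3 * n) = 8 ^ n`, `m >>> (3 * n) = m / 8 ^ n` (`Nat.shiftLeft_eq`, `Nat.shiftRight_eq_div_pow`, `pow_mul`).  Write
`l = p ++ s` with `s` the last `n` entries: `encR l a = encR s (encR p a) = encR p a * 8 ^ n + encR s 0` and `encR s 0 < 8 ^ n`.  This gives `encR_shr`
and `encR_mod`; `encR_dig`, `encR_lst` from `encR (p ++ [x]) a = 8 * encR p a + x`.  `encR l 1` lies in `[8 ^ |l|, 2 * 8 ^ |l|)`: `encW_log2`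
(`Nat.log2_eq_iff` or `Nat.log2_lt`, `Nat.le_log2`), `encW_le`.  `catW_enc`: `catW_eq`, `(m - 1) * 8 ^ |u| + (8 ^ |u| + encR u 0)` with `m = encR v 1 ≥ 1`.
-/

set_option autoImplicit false

namespace Pool.Agent.RTX

private theorem fencB_shl (n : ℕ) : 1 <<< (3 * n) = 8 ^ n := by
  rw [Nat.shiftLeft_eq, one_mul, pow_mul]
  norm_num

private theorem fencB_shr (m n : ℕ) : m >>> (3 * n) = m / 8 ^ n := by
  rw [Nat.shiftRight_eq_div_pow, pow_mul]
  norm_num

private theorem fencB_split {l : List ℕ} (h : L8 l) (a : ℕ) {n : ℕ} (hn : n ≤ l.length) :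
    encR l a = encR (l.take (l.length - n)) a * 8 ^ n + encR (l.drop (l.length - n)) 0 ∧
      encR (l.drop (l.length - n)) 0 < 8 ^ n := by
  have hlen : (l.drop (l.length - n)).length = n := by
    rw [List.length_drop]; omega
  constructor
  · conv_lhs => rw [← List.take_append_drop (l.length - n) l]
    rw [encR_app, encR_val (l.drop (l.length - n)), hlen]
  · have h1 : L8 (l.drop (l.length - n)) := fun x hx => h x (List.mem_of_mem_drop hx)
    have h2 := encR_lt h1
    rwa [hlen] at h2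

theorem encR_shr {l : List ℕ} (h : L8 l) (a : ℕ) {n : ℕ} (hn : n ≤ l.length) :
    encR l a >>> (3 * n) = encR (l.take (l.length - n)) a := by
  obtain ⟨h1, h2⟩ := fencB_split h a hn
  have hpos : 0 < 8 ^ n := by positivity
  rw [fencB_shr, h1, mul_comm, Nat.mul_add_div hpos, Nat.div_eq_of_lt h2, add_zero]

theorem encR_mod {l : List ℕ} (h : L8 l) (a : ℕ) {n : ℕ} (hn : n ≤ l.length) :
    encR l a % (1 <<< (3 * n)) = encR (l.drop (l.length - n)) 0 := by
  obtain ⟨h1, h2⟩ := fencB_split h a hn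
  rw [fencB_shl, h1, mul_comm, Nat.mul_add_mod, Nat.mod_eq_of_lt h2]

private theorem fencB_snoc (p : List ℕ) (x a : ℕ) : encR (p ++ [x]) a = 8 * encR p a + x := by
  rw [encR_app]
  rfl

theorem encR_dig {l : List ℕ} (h : L8 l) (a : ℕ) {n : ℕ} (hn : n < l.length) :
    (encR l a >>> (3 * n)) % 8 = l.getD (l.length - 1 - n) 0 := by
  rw [encR_shr h a hn.le]
  have hk : l.length - n = (l.length - 1 - n) + 1 := by omega
  have hlt : l.length - 1 - n < l.length := by omega
  rw [hk, List.take_succ_eq_append_getElem hlt, fencB_snoc, Nat.mul_add_mod,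
    Nat.mod_eq_of_lt (h _ (List.getElem_mem hlt)), List.getD_eq_getElem _ _ hlt]

theorem encR_lst {l : List ℕ} (h : L8 l) (hl : l ≠ []) (a : ℕ) :
    encR l a % 8 = lst l ∧ encR l a / 8 = encR l.dropLast a := by
  have hlst : ∀ (q : List ℕ) (x : ℕ), lst (q ++ [x]) = x := by
    intro q x
    induction q with
    | nil => rfl
    | cons y q ih =>
      cases q with
      | nil => rfl
      | cons z q => exact ih
  have hx : l.getLast hl < 8 := h _ (List.getLast_mem hl)
  have e1 : l.dropLast ++ [l.getLast hl] = l := List.dropLast_append_getLast hl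
  have e2 : encR l a = 8 * encR l.dropLast a + l.getLast hl := by
    conv_lhs => rw [← e1]
    exact fencB_snoc _ _ _
  have e3 : lst l = l.getLast hl := by
    conv_lhs => rw [← e1]
    exact hlst _ _
  constructor
  · rw [e2, e3, Nat.mul_add_mod, Nat.mod_eq_of_lt hx]
  · rw [e2, Nat.mul_add_div (by norm_num), Nat.div_eq_of_lt hx, add_zero]

theorem encW_pos (l : List ℕ) : 1 ≤ encR l 1 := by
  rw [encR_val, one_mul]
  have : 0 < 8 ^ l.length := by positivity
  omega

theorem encW_log2 {l : List ℕ} (h : L8 l) : Nat.log2 (encR l 1) = 3 * l.length := by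
  have hp : 1 ≤ encR l 1 := encW_pos l
  have h1 := encR_lt h
  have e : encR l 1 = 8 ^ l.length + encR l 0 := by rw [encR_val, one_mul]
  have e8 : (8 : ℕ) ^ l.length = 2 ^ (3 * l.length) := by
    rw [pow_mul]; norm_num
  rw [Nat.log2_eq_iff (by omega)]
  rw [e, e8] 
  rw [e8] at h1
  constructor
  · omega
  · rw [pow_succ]; omega

theorem encW_le {l : List ℕ} (h : L8 l) (n : ℕ) : 1 <<< (3 * n) ≤ encR l 1 ↔ n ≤ l.length := by
  rw [fencB_shl]
  have h1 := encR_lt h
  have e : encR l 1 = 8 ^ l.length + encR l 0 := by rw [encR_val, one_mul]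
  rw [e]
  constructor
  · intro h2
    by_contra h3
    push Not at h3
    have h4 : 8 ^ (l.length + 1) ≤ 8 ^ n := Nat.pow_le_pow_right (by norm_num) h3
    rw [pow_succ] at h4
    omega
  · intro h2
    have h4 : 8 ^ n ≤ 8 ^ l.length := Nat.pow_le_pow_right (by norm_num) h2
    omega

theorem catW_enc (v : List ℕ) {u : List ℕ} (hu : L8 u) : catW (encR v 1) (encR u 1) = encR (v ++ u) 1 := by
  have hp := encW_pos v
  have e8 : (2 : ℕ) ^ (3 * u.length) = 8 ^ u.length := by
    rw [pow_mul]; norm_num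
  rw [catW_eq, encW_log2 hu, encR_app, encR_val u (encR v 1), encR_val u 1, one_mul, Nat.shiftLeft_eq, e8]
  obtain ⟨m, hm⟩ : ∃ m, encR v 1 = m + 1 := ⟨encR v 1 - 1, by omega⟩
  rw [hm, Nat.add_sub_cancel]
  ring

end Pool.Agent.RTX
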