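import Pool.Agent.RTX.FEncB

/-!
# RTX/FIns: inserting a label in a packed row
-/

set_option autoImplicit false

namespace Pool.Agent.RTX

private theorem FIns_lst (l : List ℕ) (y : ℕ) : lst (l ++ [y]) = y := by
  induction l with
  | nil => rfl
  | cons a l ih =>
    cases l with
    | nil => rfl
    | cons b l =>
      exact ih

private theorem FIns_ins {x y : ℕ} {p : List ℕ} (hx : x ∉ p) (s : List ℕ) :
    ins x y (p ++ x :: s) = p ++ x :: y :: s := by
  induction p with
  | nil =>
    show (bif Nat.beq x x then x :: y :: s else x :: ins x y s) = x :: y :: s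
    have h1 : Nat.beq x x = true := by rw [Nat.beq_eq]
    rw [h1]
    rfl
  | cons a p ih =>
    have hxa : ¬ a = x := fun h => hx (h ▸ List.mem_cons_self)
    have hxp : x ∉ p := fun h => hx (List.mem_cons_of_mem a h)
    show (bif Nat.beq a x then a :: y :: (p ++ x :: s) else a :: ins x y (p ++ x :: s)) = _
    have h1 : Nat.beq a x = false := by
      rw [Bool.eq_false_iff]
      intro h1
      rw [Nat.beq_eq] at h1
      exact hxa h1
    rw [h1, ih hxp]
    rfl

private theorem FIns_split {l : List ℕ} {j : ℕ} (h : j + 2 ≤ l.length) :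
    ∃ (p s : List ℕ) (z y : ℕ), l = p ++ z :: (s ++ [y]) ∧ s.length = j := by
  have h1 : (l.drop (l.length - (j + 2))).length = j + 2 := by
    rw [List.length_drop]
    omega
  obtain ⟨z, r, hr⟩ : ∃ z r, l.drop (l.length - (j + 2)) = z :: r := by
    cases hd : l.drop (l.length - (j + 2)) with
    | nil => rw [hd] at h1; simp at h1
    | cons z r => exact ⟨z, r, rfl⟩
  have h2 : r.length = j + 1 := by
    rw [hr, List.length_cons] at h1
    omega
  have h3 : r ≠ [] := by
    intro h0
    rw [h0] at h2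
    simp at h2
  refine ⟨l.take (l.length - (j + 2)), r.dropLast, z, r.getLast h3, ?_, ?_⟩
  · rw [List.dropLast_append_getLast h3, ← hr, List.take_append_drop]
  · rw [List.length_dropLast, h2]
    omega

theorem insF_enc {d : ℕ} {l : List ℕ} (hl : l.length = d) (hn : l.Nodup) (h8 : L8 l) {x j m : ℕ} {f : ℕ → ℕ}
    (h : insF d x j (encR l 0) f = m + 1) : f (encR (ins x (lst l) l.dropLast) 0) = m + 1 := by
  rw [insF_eq] at h
  split_ifs at h with hc
  obtain ⟨hj, hx⟩ := hc
  obtain ⟨p, s, z, y, hlp, hs⟩ := FIns_split (l := l) (j := j) (by omega)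
  have hS8 : L8 s := fun a ha => h8 a (by rw [hlp]; simp [ha])
  have hz8 : z < 8 := h8 z (by rw [hlp]; simp)
  have hy8 : y < 8 := h8 y (by rw [hlp]; simp)
  have hSlt := encR_lt hS8
  rw [hs] at hSlt
  have hzp : z ∉ p := by
    rw [hlp] at hn
    have h1 := List.nodup_append.mp hn
    intro hz
    exact h1.2.2 z hz z List.mem_cons_self rfl
  have hB : encR l 0 = 8 * ((8 * encR p 0 + z) * 8 ^ j + encR s 0) + y := by
    rw [hlp, encR_app]
    show encR (s ++ [y]) (8 * encR p 0 + z) = _
    rw [encR_app, encR_val s, hs]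
    rfl
  have hsh : encR l 0 >>> (3 * (j + 1)) = 8 * encR p 0 + z := by
    rw [Nat.shiftRight_eq_div_pow, pow_mul, hB]
    have e8 : (2 : ℕ) ^ 3 = 8 := by norm_num
    rw [e8, pow_succ, mul_comm (8 ^ j) 8, ← Nat.div_div_eq_div_mul]
    have h1 : (8 * ((8 * encR p 0 + z) * 8 ^ j + encR s 0) + y) / 8 = (8 * encR p 0 + z) * 8 ^ j + encR s 0 := by
      omega
    rw [h1, mul_comm (8 * encR p 0 + z), Nat.mul_add_div (by positivity), Nat.div_eq_of_lt hSlt, add_zero]
  have hzx : z = x := by
    rw [hsh] at hx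
    omega
  have h8j : (1 : ℕ) <<< (3 * j) = 8 ^ j := by
    rw [Nat.shiftLeft_eq, one_mul, pow_mul]
    norm_num
  have hcode : (8 * (encR l 0 >>> (3 * (j + 1))) + encR l 0 % 8) <<< (3 * j) + encR l 0 / 8 % (1 <<< (3 * j))
      = encR (ins x (lst l) l.dropLast) 0 := by
    have h1 : encR l 0 % 8 = y := by omega
    have h2 : encR l 0 / 8 = (8 * encR p 0 + z) * 8 ^ j + encR s 0 := by omega
    rw [hsh, h1, h2, h8j, Nat.mul_add_mod', Nat.mod_eq_of_lt hSlt, Nat.shiftLeft_eq, pow_mul]
    have h3 : lst l = y := by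
      rw [hlp]
      have : p ++ z :: (s ++ [y]) = (p ++ z :: s) ++ [y] := by simp
      rw [this, FIns_lst]
    have h4 : l.dropLast = p ++ x :: s := by
      rw [hlp, hzx]
      have : p ++ x :: (s ++ [y]) = (p ++ x :: s) ++ [y] := by simp
      rw [this, List.dropLast_concat]
    rw [h3, h4, FIns_ins (hzx ▸ hzp), encR_app]
    show _ = encR s (8 * (8 * encR p 0 + x) + y)
    rw [encR_val s (8 * (8 * encR p 0 + x) + y), hs, hzx]
    norm_num
  rw [hcode] at h
  exact h

end Pool.Agent.RTX
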