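import Pool.Agent.RTX.LinA
import Pool.Agent.RTX.RowA

/-!
# RTX/LinB: pulling forms back

One step changes one value, `pull1` adds the coefficient at the winner; paths by induction.
-/

set_option autoImplicit false

namespace Pool.Agent.RTX

theorem ev_pull1 {d : ℕ} {R : Rows} (hR : RI d R) {F : LF} (hF : F.ok d) (c : Bool) (P S : ℕ → ℕ) :
    (pull1 c R F).ev P S = F.ev (stepP c R P S) (stepS c R P S) ∧ (pull1 c R F).ok d := by
  obtain ⟨ha, hb, _⟩ := ri_ab hR
  cases c with
  | true =>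
    have e1 : pull1 true R F = ⟨addAt R.b (getZ R.a F.p) F.p, addAt R.b (getZ R.a F.p) F.s,
      F.k + getZ R.a F.p⟩ := rfl
    have e2 : stepS true R P S = S := by
      funext x
      unfold stepS
      rw [if_neg (by simp)]
    have e3 : evalL F.p (stepP true R P S) =
        evalL F.p P + getZ R.a F.p * ((P R.b + S R.b + 1 : ℕ) : ℤ) := by
      refine evalL_update P _ _ ?_ ?_
      · unfold stepP
        rw [if_pos ⟨rfl, rfl⟩]
      · intro x hx
        unfold stepP
        rw [if_neg (fun h => hx h.2)]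
    refine ⟨?_, ?_, ?_⟩
    · rw [e1, e2]
      unfold LF.ev
      dsimp only
      rw [e3, evalL_addAt (by rw [hF.p]; exact hb), evalL_addAt (by rw [hF.s]; exact hb)]
      push_cast
      ring
    · rw [e1]
      dsimp only
      rw [len_addAt, hF.p]
    · rw [e1]
      dsimp only
      rw [len_addAt, hF.s]
  | false =>
    have e1 : pull1 false R F = ⟨addAt R.a (getZ R.b F.s) F.p, addAt R.a (getZ R.b F.s) F.s,
      F.k + getZ R.b F.s⟩ := rfl
    have e2 : stepP false R P S = P := by
      funext x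
      unfold stepP
      rw [if_neg (by simp)]
    have e3 : evalL F.s (stepS false R P S) =
        evalL F.s S + getZ R.b F.s * ((P R.a + S R.a + 1 : ℕ) : ℤ) := by
      refine evalL_update S _ _ ?_ ?_
      · unfold stepS
        rw [if_pos ⟨rfl, rfl⟩]
      · intro x hx
        unfold stepS
        rw [if_neg (fun h => hx h.2)]
    refine ⟨?_, ?_, ?_⟩
    · rw [e1, e2]
      unfold LF.ev
      dsimp only
      rw [e3, evalL_addAt (by rw [hF.p]; exact ha), evalL_addAt (by rw [hF.s]; exact ha)]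
      push_cast
      ring
    · rw [e1]
      dsimp only
      rw [len_addAt, hF.p]
    · rw [e1]
      dsimp only
      rw [len_addAt, hF.s]

theorem ev_pull {d : ℕ} {u : ℕ → ℕ} (𝒮 : Sys d u) {g : List Bool} {t : ℕ} (hg : Fol 𝒮.c t g) {F : LF}
    (hF : F.ok d) :
    (pull g (𝒮.R t) F).ev (𝒮.P t) (𝒮.S t) = F.ev (𝒮.P (t + g.length)) (𝒮.S (t + g.length)) ∧
      (pull g (𝒮.R t) F).ok d := by
  induction g generalizing t with
  | nil => exact ⟨rfl, hF⟩
  | cons c g ih =>
    have hc : 𝒮.c t = c := hg 0 (by simp)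
    have hg' : Fol 𝒮.c (t + 1) g := by
      intro j hj
      have h1 := hg (j + 1) (by simp only [List.length_cons]; omega)
      rw [show t + 1 + j = t + (j + 1) by omega, h1]
      rfl
    have hR : step c (𝒮.R t) = 𝒮.R (t + 1) := by rw [𝒮.hR t, hc]
    obtain ⟨h1, h2⟩ := ih hg'
    have e1 : pull (c :: g) (𝒮.R t) F = pull1 c (𝒮.R t) (pull g (𝒮.R (t + 1)) F) := by
      rw [← hR]
      rfl
    obtain ⟨h3, h4⟩ := ev_pull1 (𝒮.ri t) h2 c (𝒮.P t) (𝒮.S t)
    rw [e1]
    refine ⟨?_, h4⟩
    rw [h3]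
    have hP : stepP c (𝒮.R t) (𝒮.P t) (𝒮.S t) = 𝒮.P (t + 1) := by rw [𝒮.hP t, hc]
    have hS : stepS c (𝒮.R t) (𝒮.P t) (𝒮.S t) = 𝒮.S (t + 1) := by rw [𝒮.hS t, hc]
    rw [hP, hS, h1]
    have e2 : t + (c :: g).length = t + 1 + g.length := by
      simp only [List.length_cons]
      omega
    rw [e2]

end Pool.Agent.RTX
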