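import Pool.Agent.RTX.RowA

/-!
# RTX/NxtA: the successor of a label in a row

All by induction on the list.  `ins a (lst l) l.dropLast` moves the last label right after `a`.
-/

set_option autoImplicit false

namespace Pool.Agent.RTX

private theorem NxtA_nxt_cc (x z w : ℕ) (l : List ℕ) :
    nxt x (z :: w :: l) = if z = x then some w else nxt x (w :: l) := by
  by_cases h : z = x
  · rw [if_pos h]
    subst h
    show (bif Nat.beq z z then some w else nxt z (w :: l)) = some w
    rw [Nat.beq_refl]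
    rfl
  · rw [if_neg h]
    show (bif Nat.beq z x then some w else nxt x (w :: l)) = _
    have h1 : Nat.beq z x = false := by
      cases h2 : Nat.beq z x
      · rfl
      · exact absurd (Nat.eq_of_beq_eq_true h2) h
    rw [h1]
    rfl

private theorem NxtA_ins_c (x y z : ℕ) (l : List ℕ) :
    ins x y (z :: l) = if z = x then z :: y :: l else z :: ins x y l := by
  by_cases h : z = x
  · rw [if_pos h]
    subst h
    show (bif Nat.beq z z then z :: y :: l else z :: ins z y l) = _
    rw [Nat.beq_refl]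
    rfl
  · rw [if_neg h]
    show (bif Nat.beq z x then z :: y :: l else z :: ins x y l) = _
    have h1 : Nat.beq z x = false := by
      cases h2 : Nat.beq z x
      · rfl
      · exact absurd (Nat.eq_of_beq_eq_true h2) h
    rw [h1]
    rfl

private theorem NxtA_notMem {x : ℕ} {l : List ℕ} (h : x ∉ l) : nxt x l = none := by
  induction l with
  | nil => rfl
  | cons z l ih =>
    cases l with
    | nil => rfl
    | cons w l =>
      rw [NxtA_nxt_cc, if_neg (fun e => h (by rw [e]; exact List.mem_cons_self))]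
      exact ih (fun e => h (List.mem_cons_of_mem _ e))

private theorem NxtA_app {x : ℕ} {u : List ℕ} (v : List ℕ) (h : x ∉ u) :
    nxt x (u ++ x :: v) = v.head? := by
  induction u with
  | nil =>
    cases v with
    | nil => rfl
    | cons w v =>
      rw [List.nil_append, NxtA_nxt_cc, if_pos rfl]
      rfl
  | cons z u ih =>
    have hz : z ≠ x := fun e => h (by rw [e]; exact List.mem_cons_self)
    have h1 := ih (fun e => h (List.mem_cons_of_mem _ e))
    cases u with
    | nil =>
      rw [← h1]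
      show nxt x (z :: x :: v) = nxt x (x :: v)
      rw [NxtA_nxt_cc, if_neg hz]
    | cons w u =>
      rw [← h1]
      show nxt x (z :: w :: (u ++ x :: v)) = nxt x (w :: (u ++ x :: v))
      rw [NxtA_nxt_cc, if_neg hz]

private theorem NxtA_ins_app {x : ℕ} (y : ℕ) {u : List ℕ} (v : List ℕ) (h : x ∉ u) :
    ins x y (u ++ x :: v) = u ++ x :: y :: v := by
  induction u with
  | nil =>
    rw [List.nil_append, NxtA_ins_c, if_pos rfl]
    rfl
  | cons z u ih =>
    have hz : z ≠ x := fun e => h (by rw [e]; exact List.mem_cons_self)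
    rw [List.cons_append, NxtA_ins_c, if_neg hz, ih (fun e => h (List.mem_cons_of_mem _ e)),
      List.cons_append]

private theorem NxtA_lst (u : List ℕ) (x : ℕ) : lst (u ++ [x]) = x := by
  induction u with
  | nil => rfl
  | cons z u ih =>
    cases u with
    | nil => rfl
    | cons w u => exact ih

private theorem NxtA_split {x : ℕ} {l : List ℕ} (h : x ∈ l) : ∃ u v, l = u ++ x :: v ∧ x ∉ u :=
  List.eq_append_cons_of_mem h

private theorem NxtA_some {x y : ℕ} {l : List ℕ} (h : nxt x l = some y) :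
    ∃ u v, l = u ++ x :: y :: v ∧ x ∉ u := by
  by_cases hx : x ∈ l
  · obtain ⟨u, v, rfl, hu⟩ := NxtA_split hx
    rw [NxtA_app v hu] at h
    cases v with
    | nil => exact absurd h (by simp)
    | cons w v =>
      have h1 : w = y := by simpa using h
      subst h1
      exact ⟨u, v, rfl, hu⟩
  · rw [NxtA_notMem hx] at h
    exact absurd h (by simp)

private theorem NxtA_dec {a : ℕ} {l : List ℕ} (hl : l.Nodup) (ha : a ∈ l) (h : a ≠ lst l) :
    ∃ (b : ℕ) (u v : List ℕ), l = u ++ a :: (v ++ [b]) ∧ lst l = b ∧ l.dropLast = u ++ a :: v ∧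
      ins a b l.dropLast = u ++ a :: b :: v ∧ a ∉ u ∧ a ∉ v ∧ b ∉ u ∧ b ∉ v ∧ a ≠ b ∧
      (∀ z ∈ u, z ∉ v) ∧ u.Nodup ∧ v.Nodup := by
  obtain ⟨u, w, rfl, hu⟩ := NxtA_split ha
  rcases List.eq_nil_or_concat w with rfl | ⟨v, b, hw⟩
  · exact absurd (NxtA_lst u a).symm h
  · rw [List.concat_eq_append] at hw
    subst hw
    have hb : lst (u ++ a :: (v ++ [b])) = b := by
      have h1 : u ++ a :: (v ++ [b]) = (u ++ a :: v) ++ [b] := by simp
      rw [h1, NxtA_lst]
    have hd : (u ++ a :: (v ++ [b])).dropLast = u ++ a :: v := by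
      have h1 : u ++ a :: (v ++ [b]) = (u ++ a :: v) ++ [b] := by simp
      rw [h1, List.dropLast_concat]
    rw [List.nodup_append] at hl
    obtain ⟨hu1, hu2, hu3⟩ := hl
    rw [List.nodup_cons] at hu2
    obtain ⟨ha1, hv1⟩ := hu2
    rw [List.nodup_append] at hv1
    obtain ⟨hv2, -, hv3⟩ := hv1
    refine ⟨b, u, v, rfl, hb, hd, ?_, hu, ?_, ?_, ?_, ?_, ?_, hu1, hv2⟩
    · rw [hd, NxtA_ins_app b v hu]
    · exact fun e => ha1 (List.mem_append_left _ e)
    · exact fun e => hu3 b e b (by simp) rfl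
    · exact fun e => hv3 b e b (by simp) rfl
    · rw [hb] at h
      exact h
    · exact fun z hz e => hu3 z hz z (by simp [e]) rfl

theorem nxt_mem {x y : ℕ} {l : List ℕ} (h : nxt x l = some y) : x ∈ l ∧ y ∈ l := by
  obtain ⟨u, v, rfl, -⟩ := NxtA_some h
  simp

theorem nxt_ne {x y : ℕ} {l : List ℕ} (hl : l.Nodup) (h : nxt x l = some y) : x ≠ y := by
  obtain ⟨u, v, rfl, -⟩ := NxtA_some h
  rintro rfl
  rw [List.nodup_append] at hl
  have h1 := hl.2.1
  rw [List.nodup_cons] at h1
  exact h1.1 List.mem_cons_self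

theorem nxt_inj {x y z : ℕ} {l : List ℕ} (hl : l.Nodup) (hx : nxt x l = some z) (hy : nxt y l = some z) :
    x = y := by
  obtain ⟨u, v, rfl, hu⟩ := NxtA_some hx
  obtain ⟨u', v', he, hu'⟩ := NxtA_some hy
  have h1 : u ++ x :: z :: v = (u ++ [x]) ++ z :: v := by simp
  have h2 : u' ++ y :: z :: v' = (u' ++ [y]) ++ z :: v' := by simp
  rw [h1] at he hl
  rw [h2] at he
  have h3 : z ∉ u ++ [x] := by
    rw [List.nodup_append] at hl
    exact fun e => hl.2.2 z e z List.mem_cons_self rfl
  have h4 : z ∉ u' ++ [y] := by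
    rw [he, List.nodup_append] at hl
    exact fun e => hl.2.2 z e z List.mem_cons_self rfl
  have h5 : u ++ [x] = u' ++ [y] := by
    rcases List.append_eq_append_iff.1 he with ⟨w, hw1, hw2⟩ | ⟨w, hw1, hw2⟩
    · cases w with
      | nil => simpa using hw1.symm
      | cons c w =>
        have h6 : z = c := by
          have h7 := congrArg List.head? hw2
          simpa using h7
        exact absurd (by rw [hw1, h6]; simp) h4
    · cases w with
      | nil => simpa using hw1
      | cons c w =>
        have h6 : z = c := by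
          have h7 := congrArg List.head? hw2
          simpa using h7
        exact absurd (by rw [hw1, h6]; simp) h3
  have h6 := congrArg lst h5
  rwa [NxtA_lst, NxtA_lst] at h6

theorem nxt_lst {l : List ℕ} (hl : l.Nodup) : nxt (lst l) l = none := by
  rcases List.eq_nil_or_concat l with rfl | ⟨v, b, hw⟩
  · rfl
  · rw [List.concat_eq_append] at hw
    subst hw
    rw [NxtA_lst]
    rw [NxtA_app [] (fun e => by
      rw [List.nodup_append] at hl
      exact hl.2.2 b e b (by simp) rfl)]
    rfl

theorem nxt_ex {x : ℕ} {l : List ℕ} (hx : x ∈ l) (h : x ≠ lst l) : ∃ y, nxt x l = some y := by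
  obtain ⟨u, v, rfl, hu⟩ := NxtA_split hx
  cases v with
  | nil => exact absurd (NxtA_lst u x).symm h
  | cons y v => exact ⟨y, by rw [NxtA_app _ hu]; rfl⟩

theorem nxt_ne_head {x y : ℕ} {l : List ℕ} (hl : l.Nodup) (h : nxt x l = some y) : y ≠ l.headD 0 := by
  obtain ⟨u, v, rfl, hu⟩ := NxtA_some h
  rw [List.nodup_append] at hl
  obtain ⟨-, h1, h2⟩ := hl
  cases u with
  | nil =>
    rintro h3
    have h4 : y = x := h3
    rw [h4, List.nodup_cons] at h1
    exact h1.1 List.mem_cons_self
  | cons w u =>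
    intro h3
    have h4 : y = w := h3
    exact h2 w List.mem_cons_self y (by simp) h4.symm

theorem ins_same {a : ℕ} {l : List ℕ} (hl : l.Nodup) (h : nxt a l = some (lst l)) :
    ins a (lst l) l.dropLast = l := by
  have hne := nxt_ne hl h
  obtain ⟨b, u, v, h1, h2, h3, h4, h5, h6, h7, h8, h9, -, -, -⟩ := NxtA_dec hl (nxt_mem h).1 hne
  rw [h2] at h ⊢
  rw [h4]
  rw [h1, NxtA_app _ h5] at h
  cases v with
  | nil => exact h1.symm
  | cons c v =>
    have h10 : c = b := by simpa using h
    exact absurd (by rw [h10]; exact List.mem_cons_self) h8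

theorem nxt_ins_a {a : ℕ} {l : List ℕ} (hl : l.Nodup) (ha : a ∈ l) (h : a ≠ lst l) :
    nxt a (ins a (lst l) l.dropLast) = some (lst l) := by
  obtain ⟨b, u, v, h1, h2, h3, h4, h5, h6, h7, h8, h9, -, -, -⟩ := NxtA_dec hl ha h
  rw [h2, h4, NxtA_app _ h5]
  rfl

theorem nxt_ins_b {a : ℕ} {l : List ℕ} (hl : l.Nodup) (ha : a ∈ l) (h : a ≠ lst l) (h2 : nxt a l ≠ some (lst l)) :
    nxt (lst l) (ins a (lst l) l.dropLast) = nxt a l := by
  obtain ⟨b, u, v, h1, h10, h3, h4, h5, h6, h7, h8, h9, -, -, -⟩ := NxtA_dec hl ha h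
  rw [h10] at h2 ⊢
  rw [h4]
  have e1 : u ++ a :: b :: v = (u ++ [a]) ++ b :: v := by simp
  rw [e1, NxtA_app v (by
    intro e
    rcases List.mem_append.1 e with e | e
    · exact h7 e
    · exact h9 (List.mem_singleton.1 e).symm)]
  have e2 : nxt a l = (v ++ [b]).head? := by
    rw [h1, NxtA_app _ h5]
  rw [e2] at h2 ⊢
  cases v with
  | nil => exact absurd rfl h2
  | cons c v => rfl

theorem nxt_ins_x {a x : ℕ} {l : List ℕ} (hl : l.Nodup) (ha : a ∈ l) (h : a ≠ lst l) (hx : x ≠ a) (hx2 : x ≠ lst l) :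
    nxt x (ins a (lst l) l.dropLast) = if nxt x l = some (lst l) then none else nxt x l := by
  obtain ⟨b, u, v, h1, h2, h3, h4, h5, h6, h7, h8, h9, h10, h11, h12⟩ := NxtA_dec hl ha h
  rw [h2] at hx2 ⊢
  rw [h4]
  by_cases hxu : x ∈ u
  · obtain ⟨u1, u2, hu, hx1⟩ := NxtA_split hxu
    have e1 : nxt x (u ++ a :: b :: v) = (u2 ++ a :: b :: v).head? := by
      rw [hu]
      have e : (u1 ++ x :: u2) ++ a :: b :: v = u1 ++ x :: (u2 ++ a :: b :: v) := by simp
      rw [e, NxtA_app _ hx1]
    have e2 : nxt x l = (u2 ++ a :: (v ++ [b])).head? := by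
      rw [h1, hu]
      have e : (u1 ++ x :: u2) ++ a :: (v ++ [b]) = u1 ++ x :: (u2 ++ a :: (v ++ [b])) := by simp
      rw [e, NxtA_app _ hx1]
    rw [e1, e2]
    cases u2 with
    | nil =>
      have e3 : (([] : List ℕ) ++ a :: (v ++ [b])).head? = some a := rfl
      have e4 : (([] : List ℕ) ++ a :: b :: v).head? = some a := rfl
      rw [e3, e4, if_neg]
      intro e
      exact h9 (by simpa using e)
    | cons c u2 =>
      have e3 : ((c :: u2) ++ a :: (v ++ [b])).head? = some c := rfl
      have e4 : ((c :: u2) ++ a :: b :: v).head? = some c := rfl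
      rw [e3, e4, if_neg]
      intro e
      have e5 : c = b := by simpa using e
      exact h7 (by rw [hu, ← e5]; simp)
  · by_cases hxv : x ∈ v
    · obtain ⟨v1, v2, hv, hx1⟩ := NxtA_split hxv
      have e1 : nxt x (u ++ a :: b :: v) = v2.head? := by
        rw [hv]
        have e : u ++ a :: b :: (v1 ++ x :: v2) = (u ++ a :: b :: v1) ++ x :: v2 := by simp
        rw [e, NxtA_app _ (by simp [hxu, hx, hx2, hx1])]
      have e2 : nxt x l = (v2 ++ [b]).head? := by
        rw [h1, hv]
        have e : u ++ a :: ((v1 ++ x :: v2) ++ [b]) = (u ++ a :: v1) ++ x :: (v2 ++ [b]) := by simp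
        rw [e, NxtA_app _ (by simp [hxu, hx, hx1])]
      rw [e1, e2]
      cases v2 with
      | nil =>
        have e3 : (([] : List ℕ) ++ [b]).head? = some b := rfl
        rw [e3, if_pos rfl]
        rfl
      | cons c v2 =>
        have e3 : ((c :: v2) ++ [b]).head? = some c := rfl
        rw [e3, if_neg]
        · rfl
        · intro e
          have e5 : c = b := by simpa using e
          exact h8 (by rw [hv, ← e5]; simp)
    · have e1 : nxt x (u ++ a :: b :: v) = none := NxtA_notMem (by simp [hxu, hx, hx2, hxv])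
      have e2 : nxt x l = none := NxtA_notMem (by rw [h1]; simp [hxu, hx, hx2, hxv])
      rw [e1, e2, if_neg (by simp)]

/-- The new last label is the one which stood before the old last label. -/
theorem lst_ins {a : ℕ} {l : List ℕ} (hl : l.Nodup) (ha : a ∈ l) (h : a ≠ lst l) (h2 : nxt a l ≠ some (lst l)) :
    nxt (lst (ins a (lst l) l.dropLast)) l = some (lst l) ∧ lst (ins a (lst l) l.dropLast) ≠ a ∧
      lst (ins a (lst l) l.dropLast) ≠ lst l := by
  obtain ⟨b, u, v, h1, h10, h3, h4, h5, h6, h7, h8, h9, h11, h12, h13⟩ := NxtA_dec hl ha h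
  rw [h10] at h2 ⊢
  rw [h4]
  rcases List.eq_nil_or_concat v with rfl | ⟨w, e, hw⟩
  · exfalso
    apply h2
    rw [h1, NxtA_app _ h5]
    rfl
  · rw [List.concat_eq_append] at hw
    subst hw
    have e1 : u ++ a :: b :: (w ++ [e]) = (u ++ a :: b :: w) ++ [e] := by simp
    rw [e1, NxtA_lst]
    have e2 : u ++ a :: ((w ++ [e]) ++ [b]) = (u ++ a :: w) ++ e :: [b] := by simp
    have hea : e ≠ a := fun hh => h6 (by rw [hh]; simp)
    have heb : e ≠ b := fun hh => h8 (by rw [hh]; simp)
    have heu : e ∉ u := fun hh => h11 e hh (by simp)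
    have hew : e ∉ w := by
      intro hh
      rw [List.nodup_append] at h13
      exact h13.2.2 e hh e (by simp) rfl
    refine ⟨?_, hea, heb⟩
    rw [h1, e2, NxtA_app _ (by simp [heu, hea, hew])]
    rfl

end Pool.Agent.RTX
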