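import Pool.Agent.RTX.LinA
import Pool.Agent.RTX.NxtA

/-!
# RTX/LinC: lower bounds by multipliers

One relation: `1 ≤ P e + S e + 1 - P g - S k ≤ 2` for `nxt e top = some g`, `nxt e bot = some k` (`InvN.rel`, `InvN.len`;
`e < d` by `nxt_mem`, `ri_mem_top`), so for every integer `y` the value of `f` is at least the value of `rel1 y e g k f`
(`y r ≥ min y (2 y)` for `1 ≤ r ≤ 2`).  Then induction on the list of multipliers.  End: all coefficients are nonnegative except
possibly at `P (top.headD 0) = 0` and `S (bot.headD 0) = 0` (`InvN.p0`, `s0`; replacing the coefficient at a place where the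
function vanishes by zero does not change the value), so the value is at least the constant.
-/

set_option autoImplicit false

namespace Pool.Agent.RTX

private theorem LinC_nonneg {l : List ℤ} (h : allNonneg l = true) (f : ℕ → ℕ) : 0 ≤ evalL l f := by
  induction l generalizing f with
  | nil => exact le_rfl
  | cons z l ih =>
    simp only [allNonneg, Bool.and_eq_true, decide_eq_true_eq] at h
    simp only [evalL]
    have h1 := ih h.2 (fun n => f (n + 1))
    have h2 : 0 ≤ z * (f 0 : ℤ) := mul_nonneg h.1 (Int.natCast_nonneg _)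
    omega

private theorem LinC_setZ {l : List ℤ} {n : ℕ} (h : allNonneg (setZ n l) = true) (f : ℕ → ℕ)
    (hf : f n = 0) : 0 ≤ evalL l f := by
  induction l generalizing n f with
  | nil => exact le_rfl
  | cons z l ih =>
    cases n with
    | zero =>
      simp only [setZ, allNonneg, Bool.and_eq_true] at h
      simp only [evalL]
      rw [hf]
      simpa using LinC_nonneg h.2 (fun n => f (n + 1))
    | succ n =>
      simp only [setZ, allNonneg, Bool.and_eq_true, decide_eq_true_eq] at h
      simp only [evalL]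
      have h1 := ih h.2 (fun n => f (n + 1)) hf
      have h2 : 0 ≤ z * (f 0 : ℤ) := mul_nonneg h.1 (Int.natCast_nonneg _)
      omega

private theorem LinC_rel1 {d : ℕ} {R : Rows} {σ : ℕ → List ℕ} {P S : ℕ → ℕ} (hR : RI d R)
    (h : InvN d R σ P S) {F : LF} (hF : F.ok d) {e g k : ℕ} (y : ℤ)
    (hg : nxt e R.top = some g) (hk : nxt e R.bot = some k) :
    (rel1 y e g k F).ok d ∧ (rel1 y e g k F).ev P S ≤ F.ev P S := by
  have he : e < d := (ri_mem_top hR e).1 (nxt_mem hg).1
  have hg' : g < d := (ri_mem_top hR g).1 (nxt_mem hg).2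
  have hk' : k < d := (ri_mem_bot hR k).1 (nxt_mem hk).2
  have h1 := h.rel e g k hg hk
  rw [h.len e he] at h1
  have l1 : (addAt e (-y) F.p).length = d := by rw [len_addAt, hF.p]
  have l2 : (addAt e (-y) F.s).length = d := by rw [len_addAt, hF.s]
  refine ⟨⟨?_, ?_⟩, ?_⟩
  · show (addAt g y (addAt e (-y) F.p)).length = d
    rw [len_addAt, l1]
  · show (addAt k y (addAt e (-y) F.s)).length = d
    rw [len_addAt, l2]
  · show evalL (addAt g y (addAt e (-y) F.p)) P + evalL (addAt k y (addAt e (-y) F.s)) S +
      (F.k - y + min y (2 * y)) ≤ evalL F.p P + evalL F.s S + F.k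
    have q1 : evalL (addAt e (-y) F.p) P = evalL F.p P + (-y) * (P e : ℤ) :=
      evalL_addAt (by rw [hF.p]; exact he) _ _
    have q2 : evalL (addAt e (-y) F.s) S = evalL F.s S + (-y) * (S e : ℤ) :=
      evalL_addAt (by rw [hF.s]; exact he) _ _
    have q3 : evalL (addAt g y (addAt e (-y) F.p)) P =
        evalL (addAt e (-y) F.p) P + y * (P g : ℤ) := evalL_addAt (by rw [l1]; exact hg') _ _
    have q4 : evalL (addAt k y (addAt e (-y) F.s)) S =
        evalL (addAt e (-y) F.s) S + y * (S k : ℤ) := evalL_addAt (by rw [l2]; exact hk') _ _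
    rw [q3, q4, q1, q2]
    have h2 : P e + S e + 1 = P g + S k + 1 ∨ P e + S e + 1 = P g + S k + 2 := by omega
    rcases h2 with h2 | h2
    · have h3 : (P e : ℤ) + S e = P g + S k := by omega
      have h4 : min y (2 * y) ≤ y := min_le_left _ _
      have h5 : y * (P e : ℤ) + y * S e = y * P g + y * S k := by
        rw [← mul_add, ← mul_add, h3]
      linarith
    · have h3 : (P e : ℤ) + S e = P g + S k + 1 := by omega
      have h4 : min y (2 * y) ≤ 2 * y := min_le_right _ _
      have h5 : y * (P e : ℤ) + y * S e = y * P g + y * S k + y := by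
        rw [← mul_add, ← mul_add, h3]
        ring
      linarith

private theorem LinC_relAll {d : ℕ} {R : Rows} {σ : ℕ → List ℕ} {P S : ℕ → ℕ} (hR : RI d R)
    (h : InvN d R σ P S) (ys : List (ℕ × ℤ)) {F G : LF} (hF : F.ok d)
    (hG : relAll R ys F = some G) : G.ok d ∧ G.ev P S ≤ F.ev P S := by
  induction ys generalizing F with
  | nil =>
    simp only [relAll, Option.some.injEq] at hG
    subst hG
    exact ⟨hF, le_rfl⟩
  | cons ey ys ih =>
    obtain ⟨e, y⟩ := ey
    simp only [relAll] at hG
    cases hg : nxt e R.top with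
    | none => simp [hg] at hG
    | some g =>
      cases hk : nxt e R.bot with
      | none => simp [hg, hk] at hG
      | some k =>
        simp only [hg, hk] at hG
        obtain ⟨h1, h2⟩ := LinC_rel1 hR h hF y hg hk
        obtain ⟨h3, h4⟩ := ih h1 hG
        exact ⟨h3, h4.trans h2⟩

theorem bdd_sound {d : ℕ} {R : Rows} {σ : ℕ → List ℕ} {P S : ℕ → ℕ} (hR : RI d R) (h : InvN d R σ P S)
    {K : ℤ} {ys : List (ℕ × ℤ)} {F : LF} (hF : F.ok d) (hb : bdd K R ys F = true) : -K ≤ F.ev P S := by
  unfold bdd at hb
  cases hG : relAll R ys F with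
  | none => simp [hG] at hb
  | some G =>
    simp only [hG, Bool.and_eq_true, decide_eq_true_eq] at hb
    obtain ⟨-, h2⟩ := LinC_relAll hR h ys hF hG
    have h3 := LinC_setZ hb.1.1 P h.p0
    have h4 := LinC_setZ hb.1.2 S h.s0
    have h5 := hb.2
    unfold LF.ev at h2 ⊢
    linarith

end Pool.Agent.RTX
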