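import Pool.Agent.RTX.PatS
import Pool.Agent.RTX.LinB
import Pool.Agent.RTX.LinC

/-!
# RTX/Leaf: soundness of a forbidden window

The pattern lives at level `s`; its forms are pulled back to level `0`.
-/

set_option autoImplicit false

namespace Pool.Agent.RTX

theorem leaf_sound {u : ℕ → ℕ} (A : Par) (𝒮 : Sys A.d u) {g : List Bool} (hg : Fol 𝒮.c 0 g) {h : Hint}
    (hc : leafOK A.d A.P A.Q A.K (𝒮.R 0) g h = true) : 𝒮.fb A 0 := by
  have hg0 := hg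
  rw [← List.take_append_drop h.pt.s g, fol_append] at hg0
  obtain ⟨hg1, hg2⟩ := hg0
  unfold leafOK at hc
  rw [Bool.and_eq_true] at hc
  obtain ⟨hc1, hc2⟩ := hc
  rw [sys_runR 𝒮 hg1] at hc1 hc2
  obtain ⟨okN, okV, j, p, l, hp, hl, hp0, hpow, hm⟩ := pat_sound 𝒮 hg2 hc1
  obtain ⟨e1, ok1⟩ := ev_lin okN okV A.Q (-A.P) (𝒮.P (0 + (g.take h.pt.s).length))
    (𝒮.S (0 + (g.take h.pt.s).length))
  obtain ⟨e2, ok2⟩ := ev_pull 𝒮 hg1 ok1
  have h1 := bdd_sound (𝒮.ri 0) (𝒮.iN 0) ok2 hc2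
  rw [e2, e1, ← hp, ← hl] at h1
  intro m hm0
  refine ⟨j, p, l, hm m (sys_mono 𝒮 (Nat.zero_le _) hm0), hp0, hpow, ?_⟩
  rw [neg_mul] at h1
  omega

end Pool.Agent.RTX
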