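import Pool.Agent.RTX.FPre
import Pool.Agent.RTX.Leaf

/-!
# RTX/FLf: soundness of a forbidden window with optional cuts

As `leaf_sound` (RTX/Leaf).  PLAN: `pat_sound` gives `l = (patN …).ev` for the form with both cuts; `patN2` with `ur = ul = true` is `patN`, and in general
`(patN2 … ur ul).ev P S ≤ (patN …).ev P S` and `(patN2 …).ok d` (`opt1 none l = l`, `opt1 (some c) l = addAt c 1 l`, `evalL_addAt`, `len_addAt`; the cut `c` is a letter of the word, hence `< d`:
see the private lemmas of `PatS`, copy what you need; if `c` were not `< length`, `addAt` changes nothing).  Then `Q * N2 - P * V ≤ Q * N - P * V` because `0 ≤ Q`.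
-/

set_option autoImplicit false

namespace Pool.Agent.RTX

private theorem FLf_addAt (n : ℕ) (l : List ℤ) (f : ℕ → ℕ) : evalL l f ≤ evalL (addAt n 1 l) f := by
  induction l generalizing n f with
  | nil => cases n <;> exact le_refl _
  | cons z l ih =>
    cases n with
    | zero =>
      simp only [addAt, evalL]
      have h0 : (0 : ℤ) ≤ (f 0 : ℤ) := Int.natCast_nonneg _
      nlinarith
    | succ n =>
      simp only [addAt, evalL]
      have h1 := ih n (fun n => f (n + 1))
      linarith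

private theorem FLf_len (o : Option ℕ) (l : List ℤ) : (opt1 o l).length = l.length := by
  cases o with
  | none => rfl
  | some c => exact len_addAt c 1 l

private theorem FLf_opt (b : Bool) (o : Option ℕ) (l : List ℤ) (f : ℕ → ℕ) :
    evalL (opt1 (bif b then o else none) l) f ≤ evalL (opt1 o l) f := by
  cases b with
  | true => exact le_refl _
  | false =>
    cases o with
    | none => exact le_refl _
    | some c => exact FLf_addAt c l f

private theorem FLf_patN2 {d : ℕ} {R : Rows} {Z : List ℕ} {h : Pat} (ur ul : Bool) (ok : (patN d R Z h).ok d)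
    (P S : ℕ → ℕ) :
    (patN2 d R Z h ur ul).ok d ∧ (patN2 d R Z h ur ul).ev P S ≤ (patN d R Z h).ev P S := by
  constructor
  · have hp := ok.p
    have hs := ok.s
    unfold patN at hp hs
    simp only [FLf_len] at hp hs
    refine ⟨?_, ?_⟩
    · unfold patN2
      simp only [FLf_len]
      exact hp
    · unfold patN2
      simp only [FLf_len]
      exact hs
  · unfold patN2 patN LF.ev
    simp only
    have h1 := FLf_opt ur (rcut R Z h.i h.k h.l) (addW (patNw Z h) (zero d)).p P
    have h2 := FLf_opt ul (lcut R Z h.i h.k) (addW (patNw Z h) (zero d)).s S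
    linarith

theorem leaf2_sound {u : ℕ → ℕ} (A : Par) (hQ : 0 ≤ A.Q) (𝒮 : Sys A.d u) {g : List Bool} (hg : Fol 𝒮.c 0 g)
    {pt : Pat} {ur ul : Bool} {ys : List (ℕ × ℤ)} (hc : Leaf2 A.d A.P A.Q A.K (𝒮.R 0) g pt ur ul ys) : 𝒮.fb A 0 := by
  have hg0 := hg
  rw [← List.take_append_drop pt.s g, fol_append] at hg0
  obtain ⟨hg1, hg2⟩ := hg0
  obtain ⟨hc1, hc2⟩ := hc
  rw [sys_runR 𝒮 hg1] at hc1 hc2
  obtain ⟨okN, okV, j, p, l, hp, hl, hp0, hpow, hm⟩ := pat_sound 𝒮 hg2 hc1
  obtain ⟨okN2, hle⟩ := FLf_patN2 ur ul okN (𝒮.P (0 + (g.take pt.s).length)) (𝒮.S (0 + (g.take pt.s).length))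
  obtain ⟨e1, ok1⟩ := ev_lin okN2 okV A.Q (-A.P) (𝒮.P (0 + (g.take pt.s).length))
    (𝒮.S (0 + (g.take pt.s).length))
  obtain ⟨e2, ok2⟩ := ev_pull 𝒮 hg1 ok1
  have h1 := bdd_sound (𝒮.ri 0) (𝒮.iN 0) ok2 hc2
  rw [e2, e1, ← hp] at h1
  rw [← hl] at hle
  have h3 := mul_le_mul_of_nonneg_left hle hQ
  intro m hm0
  refine ⟨j, p, l, hm m (sys_mono 𝒮 (Nat.zero_le _) hm0), hp0, hpow, ?_⟩
  rw [neg_mul] at h1
  omega

end Pool.Agent.RTX
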