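import Pool.Agent.RTX.FLeaf
import Pool.Agent.RTX.FIns
import Pool.Agent.RTX.FCan
import Pool.Agent.RTX.FLf
import Pool.Agent.RTX.Tree

/-!
# RTX/FGood: soundness of the fast checker
-/

set_option autoImplicit false

namespace Pool.Agent.RTX

private lemma fg_pth {c : ℕ → Bool} {gr : List Bool} (h : Fol c 0 gr.reverse) :
    (pth c 0 gr.length).reverse = gr := by
  rw [List.reverse_eq_iff]
  refine List.ext_getElem (by simp [pth]) fun j h1 h2 => ?_
  have h3 := h j h2
  rw [← h3]
  simp [pth]

private lemma fg_fol {c : ℕ → Bool} {gr : List Bool} (h : Fol c 0 gr.reverse) (b : Bool)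
    (hb : c gr.length = b) : Fol c 0 (b :: gr).reverse := by
  intro j hj
  have h1 : (b :: gr).reverse = gr.reverse ++ [b] := List.reverse_cons
  have h2 : j ≤ gr.length := by simpa using hj
  rcases Nat.lt_or_eq_of_le h2 with h3 | h3
  · have h4 : j < gr.reverse.length := by simpa using h3
    simp only [h1]
    rw [List.getElem_append_left h4]
    exact h j h4
  · subst h3
    simp [hb]

theorem good_N {A : Par} {stop : List (List ℕ)} {rt : Rows} {gchk : List Bool → Bool} {gr : List Bool}
    (h0 : Good A stop rt gchk (false :: gr)) (h1 : Good A stop rt gchk (true :: gr)) : Good A stop rt gchk gr := by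
  intro u 𝒮 hR hf
  have hlt : ∀ b : Bool, gr.length ≤ (b :: gr).length := fun b => by simp
  cases hb : 𝒮.c gr.length with
  | false =>
    rcases h0 u 𝒮 hR (fg_fol hf false hb) with h | h | ⟨j, hj, h⟩
    · exact Or.inl h
    · exact Or.inr (Or.inl h)
    · exact Or.inr (Or.inr ⟨j, (hlt false).trans hj, h⟩)
  | true =>
    rcases h1 u 𝒮 hR (fg_fol hf true hb) with h | h | ⟨j, hj, h⟩
    · exact Or.inl h
    · exact Or.inr (Or.inl h)
    · exact Or.inr (Or.inr ⟨j, (hlt true).trans hj, h⟩)

/-- The stop list consists of words of length `d` over the digits `< 8`; their codes. -/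
structure StopC (d : ℕ) (stop : List (List ℕ)) (codes : List ℕ) : Prop where
  ok : ∀ π ∈ stop, π.length = d ∧ L8 π
  eq : codes = stop.map fun π => encR π 0

theorem StopC.nil {d : ℕ} : StopC d [] [] := ⟨by simp, rfl⟩

theorem StopC.cons {d : ℕ} {stop : List (List ℕ)} {codes : List ℕ} (h : StopC d stop codes) (π : List ℕ) (m : ℕ)
    (h1 : (Nat.beq π.length d && (π.all fun x => Nat.ble x 7) && Nat.beq m (encR π 0)) = true) :
    StopC d (π :: stop) (m :: codes) := by
  rw [Bool.and_eq_true, Bool.and_eq_true, List.all_eq_true, Nat.beq_eq, Nat.beq_eq] at h1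
  obtain ⟨⟨h2, h3⟩, h4⟩ := h1
  refine ⟨?_, ?_⟩
  · intro ρ hρ
    rw [List.mem_cons] at hρ
    rcases hρ with hρ | hρ
    · subst hρ
      refine ⟨h2, fun x hx => ?_⟩
      have h5 := h3 x hx
      rw [Nat.ble_eq] at h5
      omega
    · exact h.ok ρ hρ
  · rw [h4, h.eq]
    rfl

theorem runF_ok {A : Par} (hA : ParOK A) {π : List ℕ} {stop : List (List ℕ)}
    (hs : ∀ π ∈ stop, π.length = A.d ∧ L8 π) (gchk : List Bool → Bool) (hr : RI A.d (rows0 A.d π)) :
    ∀ (n : ℕ) (gr : List Bool) (c m : ℕ), gr.length + n ≤ 64 →
      runF (mkRF A π) (stop.map fun π => encR π 0) gchk n (stkF (rows0 A.d π) gr)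
        (encR (runR gr.reverse (rows0 A.d π)).top 0) (encR (runR gr.reverse (rows0 A.d π)).bot 0) c = m + 1 →
      Good A stop (rows0 A.d π) gchk gr := by
  intro n
  induction n with
  | zero =>
    intro gr c m _ h
    rw [runF_zero] at h
    omega
  | succ n ih =>
    intro gr c m hl h
    set rt := rows0 A.d π with hrt
    set Rg := runR gr.reverse rt with hRg
    have hRgi : RI A.d Rg := ri_run hr _
    obtain ⟨l8t, l8b⟩ := ri_l8 hA.d8 hRgi
    obtain ⟨-, -, -, -, ea, eb⟩ := pkR_spec hA.d8 hRgi
    have eD : (mkRF A π).d = A.d := rfl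
    rw [runF_succ] at h
    generalize c % 4 = t at h
    match t, h with
    | 0, h =>
      simp only at h
      generalize hx : nd1 (mkRF A π) (runF (mkRF A π) (stop.map fun π => encR π 0) gchk n) (stkF rt gr)
        (encR Rg.top 0) (encR Rg.bot 0) (c / 4 % 8) (c / 4 / 64) = x at h
      cases x with
      | zero => rw [bndN_zero] at h; omega
      | succ c1 =>
        rw [bndN_succ, nd2_eq, ea, eb, eD] at h
        rw [nd1_eq, ea, eb, eD] at hx
        apply good_N
        · have h1 := insF_enc (ri_len hRgi).2 (ri_nd_bot hRgi) l8b hx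
          have e1 : runR (false :: gr).reverse rt = step false Rg := by
            rw [List.reverse_cons, runR_app]
            rfl
          apply ih (false :: gr) (c / 4 / 64) c1 (by simp only [List.length_cons]; omega)
          rw [e1]
          exact h1
        · have h1 := insF_enc (ri_len hRgi).1 (ri_nd_top hRgi) l8t h
          have e1 : runR (true :: gr).reverse rt = step true Rg := by
            rw [List.reverse_cons, runR_app]
            rfl
          apply ih (true :: gr) c1 m (by simp only [List.length_cons]; omega)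
          rw [e1]
          exact h1
    | 1, h =>
      obtain ⟨pt, ur, ul, ys, hL⟩ := leafF_ok hA hr (by omega) h
      intro u 𝒮 hR hf
      left
      rw [← hrt, ← hR] at hL
      exact leaf2_sound A hA.Q0 𝒮 hf hL
    | 2, h =>
      simp only at h
      intro u 𝒮 hR hf
      right
      left
      cases gr with
      | nil =>
        have e : stkF rt ([] : List Bool) = [] := rfl
        rw [e, nd3_zero_nil] at h
        omega
      | cons b gr =>
        have e : stkF rt (b :: gr) = entR b (runR gr.reverse rt) :: stkF rt gr := rfl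
        rw [e, nd3_zero_cons] at h
        have hm : memF (canF (mkRF A π).d (encR Rg.top 0) (mkRF A π).d (encR Rg.bot 0))
            (stop.map fun π => encR π 0) = true := by
          by_contra hc
          rw [if_neg hc] at h
          omega
        have h1 := memF_mem hA.d8 hRgi hs hm
        refine ⟨(b :: gr).length, by simp, ?_⟩
        have h2 := sys_runR 𝒮 hf
        rw [hR, Nat.zero_add, List.length_reverse] at h2
        rw [← h2]
        exact h1
    | t + 3, h =>
      simp only at h
      rw [nd3_succ, stk_typ] at h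
      intro u 𝒮 hR hf
      right
      right
      refine ⟨gr.length, le_rfl, ?_⟩
      rw [fg_pth hf]
      by_contra hc
      rw [if_neg hc] at h
      omega

theorem fast_good {A : Par} (hA : ParOK A) {π : List ℕ} {stop : List (List ℕ)} {codes : List ℕ}
    (hs : StopC A.d stop codes) {gchk : List Bool → Bool} {gr : List Bool} {c : ℕ}
    (h : fastOK A codes gchk π gr c = true) : Good A stop (rows0 A.d π) gchk gr := by
  intro u 𝒮 hR hf
  have hr : RI A.d (rows0 A.d π) := hR ▸ 𝒮.ri 0
  rw [fastOK_eq, hs.eq] at h
  by_cases hgr : gr.length ≤ 64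
  · exact runF_ok hA hs.ok gchk hr (64 - gr.length) gr c 0 (by omega) h u 𝒮 hR hf
  · have e : 64 - gr.length = 0 := by omega
    rw [e, runF_zero] at h
    omega

end Pool.Agent.RTX
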