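import Pool.Agent.RTX.FDig

/-!
# RTX/FIni: the initial packed form of a leaf

Bounds for the coefficients of `lin Q F (-P) G`; the subtraction is exact by `pk_nonneg`.
-/

set_option autoImplicit false

namespace Pool.Agent.RTX

private theorem FIni_one {P Q : ℤ} (hP0 : 0 ≤ P) (hP : P < 1048576) (hQ0 : 0 ≤ Q) (hQ : Q < 1048576) {x y : ℤ}
    (hx : 0 ≤ x ∧ x ≤ 33) (hy : 0 ≤ y ∧ y ≤ 33) : |Q * x + (-P) * y| ≤ 2 ^ 26 := by
  obtain ⟨hx0, hx1⟩ := hx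
  obtain ⟨hy0, hy1⟩ := hy
  have a1 : 0 ≤ Q * x := mul_nonneg hQ0 hx0
  have a2 : Q * x ≤ 1048576 * 33 := mul_le_mul hQ.le hx1 hx0 (by norm_num)
  have b1 : 0 ≤ P * y := mul_nonneg hP0 hy0
  have b2 : P * y ≤ 1048576 * 33 := mul_le_mul hP.le hy1 hy0 (by norm_num)
  have e : (-P) * y = -(P * y) := by ring
  rw [e, abs_le]
  constructor
  · norm_num; linarith
  · norm_num; linarith

private theorem FIni_zip {P Q : ℤ} (hP0 : 0 ≤ P) (hP : P < 1048576) (hQ0 : 0 ≤ Q) (hQ : Q < 1048576) :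
    ∀ (l m : List ℤ), (∀ z ∈ l, 0 ≤ z ∧ z ≤ 33) → (∀ z ∈ m, 0 ≤ z ∧ z ≤ 33) →
      ∀ z ∈ zipL Q (-P) l m, |z| ≤ 2 ^ 26 := by
  intro l
  induction l with
  | nil => intro m _ _ z hz; simp [zipL] at hz
  | cons x l ih =>
    intro m hl hm z hz
    cases m with
    | nil => simp [zipL] at hz
    | cons y m =>
      simp only [zipL, List.mem_cons] at hz
      rcases hz with rfl | hz
      · exact FIni_one hP0 hP hQ0 hQ (hl x List.mem_cons_self) (hm y List.mem_cons_self)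
      · exact ih m (fun w hw => hl w (List.mem_cons_of_mem _ hw)) (fun w hw => hm w (List.mem_cons_of_mem _ hw)) z hz

theorem frm_ini {d : ℕ} (hd : d ≤ 8) {F G : LF} (okF' : F.ok d) (okG : G.ok d)
    (hFp : ∀ z ∈ F.p, 0 ≤ z ∧ z ≤ 33) (hFs : ∀ z ∈ F.s, 0 ≤ z ∧ z ≤ 33) (hFk : 0 ≤ F.k ∧ F.k ≤ 33)
    (hGp : ∀ z ∈ G.p, 0 ≤ z ∧ z ≤ 33) (hGs : ∀ z ∈ G.s, 0 ≤ z ∧ z ≤ 33) (hGk : 0 ≤ G.k ∧ G.k ≤ 33)
    {P Q N V : ℕ} (hP : P < 1048576) (hQ : Q < 1048576) (hN : (N : ℤ) = pk F) (hV : (V : ℤ) = pk G) (Z : ℕ) :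
    Frm d (lin Q F (-(P : ℤ)) G) (2 ^ 26) (offF + Z % 2305843009213693951 + Q * N - P * V) := by
  have P0 : (0 : ℤ) ≤ (P : ℤ) := Int.natCast_nonneg P
  have Q0 : (0 : ℤ) ≤ (Q : ℤ) := Int.natCast_nonneg Q
  have P1 : (P : ℤ) < 1048576 := by exact_mod_cast hP
  have Q1 : (Q : ℤ) < 1048576 := by exact_mod_cast hQ
  have okL : (lin Q F (-(P : ℤ)) G).ok d := (ev_lin okF' okG Q (-(P : ℤ)) (fun _ => 0) (fun _ => 0)).2
  have hp : ∀ z ∈ (lin Q F (-(P : ℤ)) G).p, |z| ≤ 2 ^ 26 := FIni_zip P0 P1 Q0 Q1 F.p G.p hFp hGp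
  have hs : ∀ z ∈ (lin Q F (-(P : ℤ)) G).s, |z| ≤ 2 ^ 26 := FIni_zip P0 P1 Q0 Q1 F.s G.s hFs hGs
  have hk : |(lin Q F (-(P : ℤ)) G).k| ≤ 2 ^ 26 := FIni_one P0 P1 Q0 Q1 hFk hGk
  have hZ : Z % 2305843009213693951 < 2305843009213693951 := Nat.mod_lt _ (by norm_num)
  have hj : |((Z % 2305843009213693951 : ℕ) : ℤ)| ≤ 2 ^ 61 + 2 ^ 25 * 2 ^ 26 := by
    rw [abs_of_nonneg (Int.natCast_nonneg _)]
    have h1 : ((Z % 2305843009213693951 : ℕ) : ℤ) < 2305843009213693951 := by exact_mod_cast hZ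
    norm_num
    linarith
  have hnn := pk_nonneg hd okL (B := 2 ^ 26) hp hs hk hj (by norm_num)
  have hpk : pk (lin Q F (-(P : ℤ)) G) = (Q : ℤ) * N - (P : ℤ) * V := by
    rw [pk_lin okF' okG, hN, hV]; ring
  refine ⟨okL, hp, hs, hk, ((Z % 2305843009213693951 : ℕ) : ℤ), hj, ?_⟩
  generalize Z % 2305843009213693951 = z at *
  rw [hpk, ← offF_eq] at hnn ⊢
  have hle : P * V ≤ offF + z + Q * N := by
    have h2 : ((P * V : ℕ) : ℤ) ≤ ((offF + z + Q * N : ℕ) : ℤ) := by push_cast; linarith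
    exact_mod_cast h2
  rw [Nat.cast_sub hle]
  push_cast
  ring


end Pool.Agent.RTX
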