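import Pool.Agent.RTX.FDig

/-!
# RTX/FMsk: the last check of a leaf
-/

set_option autoImplicit false

namespace Pool.Agent.RTX

private theorem fMsk_bits : ∀ d < 9, ∀ h < 8, ∀ x < d,
    (x ≠ 0 → (mskF d h).testBit (128 * (x + 1) + 127) = true) ∧
      (x ≠ h → (mskF d h).testBit (128 * (x + 9) + 127) = true) := by
  decide +kernel

private theorem fMsk_and {Y M b : ℕ} (h : Y &&& M = M) (hb : M.testBit b = true) : Y.testBit b = true := by
  have h1 : (Y &&& M).testBit b = true := by rw [h]; exact hb
  rw [Nat.testBit_and, Bool.and_eq_true] at h1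
  exact h1.1

private theorem fMsk_slot {Y x : ℕ} (hb : Y.testBit (128 * x + 127) = true) :
    170141183460469231731687303715884105728 ≤ Y >>> (128 * x) % 340282366920938463463374607431768211456 := by
  by_contra hlt
  have e1 : (340282366920938463463374607431768211456 : ℕ) = 2 ^ 128 := by norm_num
  have e2 : (170141183460469231731687303715884105728 : ℕ) = 2 ^ 127 := by norm_num
  rw [e1, e2, not_le] at hlt
  have h1 := Nat.testBit_lt_two_pow hlt
  rw [Nat.testBit_mod_two_pow, Nat.testBit_shiftRight, hb] at h1
  simp at h1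

private theorem fMsk_all : ∀ (l : List ℤ) (n : ℕ), (∀ x < l.length, x ≠ n → 0 ≤ getZ x l) →
    allNonneg (setZ n l) = true := by
  intro l
  induction l with
  | nil =>
    intro n _
    cases n <;> rfl
  | cons z l ih =>
    intro n h
    cases n with
    | zero =>
      have h1 : ∀ l : List ℤ, (∀ x < l.length, 0 ≤ getZ x l) → allNonneg l = true := by
        intro l
        induction l with
        | nil => intro _; rfl
        | cons z l ih =>
          intro h
          have h2 := h 0 (by simp)
          have h3 := ih fun x hx => h (x + 1) (by simpa using hx)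
          simp only [getZ] at h2
          simp [allNonneg, h2, h3]
      have h3 := h1 l fun x hx => h (x + 1) (by simpa using hx) (by omega)
      simp [setZ, allNonneg, h3]
    | succ n =>
      have h2 := h 0 (by simp) (by omega)
      have h3 := ih n fun x hx hn => h (x + 1) (by simpa using hx) (by omega)
      simp only [getZ] at h2
      simp [setZ, allNonneg, h2, h3]

theorem l9_ok {d : ℕ} (hd : d ≤ 8) {G : LF} {B : ℤ} {Y : ℕ} (hG : Frm d G B Y) (hB : B ≤ 2 ^ 98) {D : RF} {h : ℕ}
    (hh : h < 8) (hk : D.k = mskF d h) {c m : ℕ} (hl : l9 D c Y = m + 1) :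
    allNonneg (setZ 0 G.p) = true ∧ allNonneg (setZ h G.s) = true ∧ 0 ≤ G.k + (D.K : ℤ) := by
  obtain ⟨f1, f2, f3⟩ := frm_dig hd hG hB
  rw [l9_eq] at hl
  split_ifs at hl with h1 h2
  rw [hk] at h1
  have hbits := fMsk_bits d (by omega) h hh
  have hok := hG.ok
  refine ⟨fMsk_all _ _ fun x hx hn => ?_, fMsk_all _ _ fun x hx hn => ?_, ?_⟩
  · have hxd : x < d := by rw [← hok.1]; exact hx
    have h3 := fMsk_slot (fMsk_and h1 ((hbits x hxd).1 hn))
    have h4 := f1 x hxd
    have e2 : (2 : ℤ) ^ 127 = 170141183460469231731687303715884105728 := by norm_num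
    rw [e2] at h4
    omega
  · have hxd : x < d := by rw [← hok.2]; exact hx
    have h3 := fMsk_slot (fMsk_and h1 ((hbits x hxd).2 hn))
    have h4 := f2 x hxd
    have e2 : (2 : ℤ) ^ 127 = 170141183460469231731687303715884105728 := by norm_num
    rw [e2] at h4
    omega
  · have e2 : (2 : ℤ) ^ 127 = 170141183460469231731687303715884105728 := by norm_num
    rw [e2] at f3
    omega

end Pool.Agent.RTX
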