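import Pool.Agent.RTX.FStk
import Pool.Agent.RTX.FDig

/-!
# RTX/FPul: pulling back a packed form
-/

set_option autoImplicit false

namespace Pool.Agent.RTX

private theorem FPul_bd {l : List ℤ} {b v : ℤ} (n : ℕ) (h : ∀ z ∈ l, |z| ≤ b) (hv : |v| ≤ b) :
    ∀ z ∈ addAt n v l, |z| ≤ 2 * b := by
  induction l generalizing n with
  | nil =>
    intro z hz
    cases n <;> simp [addAt] at hz
  | cons y l ih =>
    have hy := h y List.mem_cons_self
    have hl : ∀ z ∈ l, |z| ≤ b := fun z hz => h z (List.mem_cons_of_mem _ hz)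
    have hb : 0 ≤ b := (abs_nonneg y).trans hy
    cases n with
    | zero =>
      intro z hz
      rcases List.mem_cons.1 hz with rfl | hz
      · have := abs_add_le y v
        linarith
      · have := hl z hz
        linarith
    | succ n =>
      intro z hz
      rcases List.mem_cons.1 hz with rfl | hz
      · linarith
      · exact ih n hl z hz

private theorem FPul_getZ {l : List ℤ} {b : ℤ} (h : ∀ z ∈ l, |z| ≤ b) : ∀ n, n < l.length → |getZ n l| ≤ b := by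
  induction l with
  | nil => intro n hn; simp at hn
  | cons y l ih =>
    intro n hn
    cases n with
    | zero => exact h y List.mem_cons_self
    | succ n =>
      have h1 : n < l.length := by simpa using hn
      exact ih (fun z hz => h z (List.mem_cons_of_mem _ hz)) n h1

private theorem FPul_g (x : ℕ) :
    ((gF' x : ℕ) : ℤ) = 2 ^ (128 * (x + 1)) + 2 ^ (128 * (x + 9)) + 2 ^ 2176 + 11 ^ x := by
  rw [gF'_eq, hF_val, Nat.shiftLeft_eq, one_mul, Nat.cast_add, Nat.cast_add, Nat.cast_add, Nat.cast_pow,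
    Nat.cast_pow, Nat.cast_pow, Nat.cast_pow, Nat.cast_ofNat, Nat.cast_ofNat]
  generalize (2 : ℤ) ^ 2176 = c
  ring

private theorem FPul_pk {d : ℕ} {F : LF} (ok : F.ok d) {x : ℕ} (hx : x < d) (v : ℤ) :
    pk ⟨addAt x v F.p, addAt x v F.s, F.k + v⟩ =
      pk F + v * (2 ^ (128 * (x + 1)) + 2 ^ (128 * (x + 9)) + 2 ^ 2176) := by
  unfold pk
  simp only
  rw [evB_addAt (by rw [ok.p]; exact hx), evB_addAt (by rw [ok.s]; exact hx)]
  have e1 : (2 : ℤ) ^ (128 * (x + 1)) = 2 ^ 128 * 2 ^ (128 * x) := by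
    rw [← pow_add]
    congr 1
    ring
  have e2 : (2 : ℤ) ^ (128 * (x + 9)) = 2 ^ 1152 * 2 ^ (128 * x) := by
    rw [← pow_add]
    congr 1
    ring
  rw [e1, e2]
  generalize (2 : ℤ) ^ 128 = a
  generalize (2 : ℤ) ^ 1152 = b
  generalize (2 : ℤ) ^ 2176 = c
  ring

private theorem FPul_core {d : ℕ} (hd : d ≤ 8) {F : LF} {B : ℤ} {Y : ℕ} (hF : Frm d F B Y) (hB : B ≤ 2 ^ 97)
    {x : ℕ} (hx : x < d) {v : ℤ} (hv : |v| ≤ B) {X : ℕ}
    (h1 : ((Y >>> ((X >>> 64) % 4096) % 340282366920938463463374607431768211456 : ℕ) : ℤ) = 2 ^ 127 + v)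
    (h2 : X >>> 76 = gF' x) :
    Frm d ⟨addAt x v F.p, addAt x v F.s, F.k + v⟩ (2 * B) (pl1 X Y) := by
  obtain ⟨j, hj, hY⟩ := hF.y
  have ok : LF.ok d ⟨addAt x v F.p, addAt x v F.s, F.k + v⟩ :=
    ⟨by show (addAt x v F.p).length = d; rw [len_addAt, hF.ok.p],
      by show (addAt x v F.s).length = d; rw [len_addAt, hF.ok.s]⟩
  have bp : ∀ z ∈ addAt x v F.p, |z| ≤ 2 * B := FPul_bd x hF.p hv
  have bs : ∀ z ∈ addAt x v F.s, |z| ≤ 2 * B := FPul_bd x hF.s hv
  have bk : |F.k + v| ≤ 2 * B := by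
    have h3 := abs_add_le F.k v
    have h4 := hF.k
    linarith
  have h11 : (11 : ℤ) ^ x ≤ 2 ^ 25 := by
    have h3 : (11 : ℤ) ^ x ≤ 11 ^ 7 := pow_le_pow_right₀ (by norm_num) (by omega)
    have h4 : (11 : ℤ) ^ 7 ≤ 2 ^ 25 := by norm_num
    exact h3.trans h4
  have h110 : (0 : ℤ) ≤ 11 ^ x := by positivity
  have hB0 : 0 ≤ B := (abs_nonneg v).trans hv
  have bj : |j + v * 11 ^ x| ≤ 2 ^ 61 + 2 ^ 25 * (2 * B) := by
    have h3 := abs_add_le j (v * 11 ^ x)
    have h4 : |v * 11 ^ x| ≤ B * 2 ^ 25 := by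
      rw [abs_mul, abs_of_nonneg h110]
      exact mul_le_mul hv h11 h110 hB0
    have h5 : (2 : ℤ) ^ 61 + 2 ^ 25 * (2 * B) = 2 ^ 61 + 2 ^ 25 * B + B * 2 ^ 25 := by ring
    rw [h5]
    linarith
  have hB2 : 2 * B ≤ 2 ^ 98 := by
    have h3 : (2 : ℤ) ^ 98 = 2 * 2 ^ 97 := by norm_num
    rw [h3]
    linarith
  have hnn := pk_nonneg hd ok bp bs bk bj hB2
  refine ⟨ok, bp, bs, bk, j + v * 11 ^ x, bj, ?_⟩
  rw [FPul_pk hF.ok hx v] at hnn ⊢
  rw [pl1_eq, h2]
  obtain ⟨D, hD⟩ : ∃ D : ℕ, D = Y >>> ((X >>> 64) % 4096) % 340282366920938463463374607431768211456 := ⟨_, rfl⟩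
  rw [← hD] at h1 ⊢
  have hg := FPul_g x
  obtain ⟨g, hgg⟩ : ∃ g : ℕ, g = gF' x := ⟨_, rfl⟩
  rw [← hgg] at hg ⊢
  have hsh : g <<< 127 = g * 2 ^ 127 := Nat.shiftLeft_eq _ _
  rw [hsh]
  have key : ((Y + D * g : ℕ) : ℤ) = ((g * 2 ^ 127 : ℕ) : ℤ) +
      (offZ + (j + v * 11 ^ x) + (pk F + v * (2 ^ (128 * (x + 1)) + 2 ^ (128 * (x + 9)) + 2 ^ 2176))) := by
    rw [Nat.cast_add, Nat.cast_mul, Nat.cast_mul, Nat.cast_pow, Nat.cast_ofNat, h1, hY, hg]
    generalize (2 : ℤ) ^ 2176 = c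
    generalize (2 : ℤ) ^ (128 * (x + 1)) = c1
    generalize (2 : ℤ) ^ (128 * (x + 9)) = c2
    generalize (2 : ℤ) ^ 127 = c3
    generalize (11 : ℤ) ^ x = c4
    generalize offZ = c5
    ring
  have hle : g * 2 ^ 127 ≤ Y + D * g := by
    have h3 : ((g * 2 ^ 127 : ℕ) : ℤ) ≤ ((Y + D * g : ℕ) : ℤ) := by
      rw [key]
      exact le_add_of_nonneg_right hnn
    exact_mod_cast h3
  rw [Nat.cast_sub hle, key, add_sub_cancel_left]

theorem pl1_ok {d : ℕ} (hd : d ≤ 8) {R : Rows} (h : RI d R) {F : LF} {B : ℤ} {Y : ℕ} (hF : Frm d F B Y)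
    (hB : B ≤ 2 ^ 97) (c : Bool) : Frm d (pull1 c R F) (2 * B) (pl1 (entR c R) Y) := by
  obtain ⟨ha, hb, _⟩ := ri_ab h
  have hB98 : B ≤ 2 ^ 98 := hB.trans (by norm_num)
  obtain ⟨d1, d2, _⟩ := frm_dig hd hF hB98
  obtain ⟨_, _, _, _, e5, e6⟩ := entR_spec hd h c
  cases c with
  | true =>
    have e5' : (entR true R >>> 64) % 4096 = 128 * (R.a + 1) := e5
    have e6' : entR true R >>> 76 = gF' R.b := e6
    refine FPul_core hd hF hB hb (FPul_getZ hF.p R.a (by rw [hF.ok.p]; exact ha)) ?_ e6'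
    rw [e5']
    exact d1 R.a ha
  | false =>
    have e5' : (entR false R >>> 64) % 4096 = 128 * (R.b + 9) := e5
    have e6' : entR false R >>> 76 = gF' R.a := e6
    refine FPul_core hd hF hB ha (FPul_getZ hF.s R.b (by rw [hF.ok.s]; exact hb)) ?_ e6'
    rw [e5']
    exact d2 R.b hb

theorem pull_snoc (g : List Bool) (c : Bool) (R : Rows) (F : LF) :
    pull (g ++ [c]) R F = pull g R (pull1 c (runR g R) F) := by
  induction g generalizing R with
  | nil => rfl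
  | cons b g ih =>
    show pull1 b R (pull (g ++ [c]) (step b R) F) = pull1 b R (pull g (step b R) (pull1 c (runR g (step b R)) F))
    rw [ih]

theorem plF_ok {d : ℕ} (hd : d ≤ 8) {rt : Rows} (hr : RI d rt) : ∀ (gr : List Bool) {F : LF} {B : ℤ} {Y : ℕ},
    Frm d F B Y → B * 2 ^ gr.length ≤ 2 ^ 98 →
      Frm d (pull gr.reverse rt F) (B * 2 ^ gr.length) (plF (stkF rt gr) Y) := by
  intro gr
  induction gr with
  | nil =>
    intro F B Y hF _
    rw [List.length_nil, pow_zero, mul_one]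
    exact hF
  | cons c gr ih =>
    intro F B Y hF hB
    have hB0 : 0 ≤ B := (abs_nonneg F.k).trans hF.k
    have hlen : B * 2 ^ (c :: gr).length = 2 * B * 2 ^ gr.length := by
      rw [List.length_cons, pow_succ]
      ring
    rw [hlen] at hB ⊢
    have h1 : (1 : ℤ) ≤ 2 ^ gr.length := one_le_pow₀ (by norm_num)
    have h2 : 2 * B ≤ 2 * B * 2 ^ gr.length := le_mul_of_one_le_right (by linarith) h1
    have h3 : B ≤ 2 ^ 97 := by
      have h4 : (2 : ℤ) ^ 98 = 2 * 2 ^ 97 := by norm_num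
      have h5 := h2.trans hB
      rw [h4] at h5
      linarith
    have h6 := pl1_ok hd (ri_run hr gr.reverse) hF h3 c
    have e : stkF rt (c :: gr) = entR c (runR gr.reverse rt) :: stkF rt gr := rfl
    rw [e, plF_cons, List.reverse_cons, pull_snoc]
    exact ih h6 hB

end Pool.Agent.RTX
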