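import Pool.Agent.RTX.FDig
import Pool.Agent.RTX.Ent

/-!
# RTX/FRel: the multipliers

PLAN (`mul1_ok`): `mul1_eq`; `n = y / 2 < 2 ^ 19`; even `y`: `z = n`, `Y + n u - n v`; odd `y`: `z = -n`, `Y + n v - n (u + 2 ^ 2176)`; compare with `rel1 z e g k F` (`evB_addAt` twice for `p` and for `s`, constant
`F.k - z + min z (2 * z)`); `g ≠ e`, `k ≠ e` are not needed for the value; labels `e, g, k < d` (`ri_mem_top`, `ri_mem_bot`, `nxt_mem` of `Ent`).  Each entry changes by at most `2 * 2 ^ 19 ≤ 2 ^ 26 ≤ B`.  The subtraction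
of natural numbers is exact by `pk_nonneg` for the new form.  `mulsF_ok` by induction on `es` (generalising everything): if one of `nxt e rt.top`, `nxt e rt.bot` is `none`,
`relR rt e = []`; otherwise `mulsF_cons`, `mul1_ok` with `c % 1048576`, and `relAll rt ((e, z) :: ys)`.
-/

set_option autoImplicit false

namespace Pool.Agent.RTX

private theorem FRel_addAt_bd {l : List ℤ} {b v w : ℤ} (h : ∀ z ∈ l, |z| ≤ b) (hv : |v| ≤ w) (n : ℕ) :
    ∀ z ∈ addAt n v l, |z| ≤ b + w := by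
  have hw : 0 ≤ w := (abs_nonneg v).trans hv
  induction l generalizing n with
  | nil =>
    intro z hz
    cases n <;> exact absurd hz (List.not_mem_nil)
  | cons x l ih =>
    cases n with
    | zero =>
      intro z hz
      have hz' : z ∈ (x + v) :: l := hz
      rcases List.mem_cons.1 hz' with rfl | hz1
      · have h1 := h x (List.mem_cons_self)
        exact (abs_add_le _ _).trans (add_le_add h1 hv)
      · have h1 := h z (List.mem_cons_of_mem _ hz1)
        linarith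
    | succ n =>
      intro z hz
      have hz' : z ∈ x :: addAt n v l := hz
      rcases List.mem_cons.1 hz' with rfl | hz1
      · have h1 := h z (List.mem_cons_self)
        linarith
      · exact ih (fun y hy => h y (List.mem_cons_of_mem _ hy)) n z hz1

private theorem FRel_pk {d : ℕ} {F : LF} (ok : F.ok d) {e g k : ℕ} (he : e < d) (hg : g < d)
    (hk : k < d) (z : ℤ) : pk (rel1 z e g k F) = pk F +
      z * (((2 ^ (128 * (g + 1)) + 2 ^ (128 * (k + 9)) : ℕ) : ℤ)) -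
      z * (((2 ^ (128 * (e + 1)) + 2 ^ (128 * (e + 9)) : ℕ) : ℤ)) +
      2 ^ 2176 * (min z (2 * z) - z) := by
  unfold pk rel1
  simp only
  rw [evB_addAt (l := addAt e (-z) F.p) (by rw [len_addAt, ok.p]; exact hg),
    evB_addAt (l := F.p) (by rw [ok.p]; exact he),
    evB_addAt (l := addAt e (-z) F.s) (by rw [len_addAt, ok.s]; exact hk),
    evB_addAt (l := F.s) (by rw [ok.s]; exact he)]
  have e1 : ∀ x : ℕ, (2 : ℤ) ^ (128 * (x + 1)) = 2 ^ 128 * 2 ^ (128 * x) := fun x => by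
    rw [← pow_add]
    congr 1
    ring
  have e2 : ∀ x : ℕ, (2 : ℤ) ^ (128 * (x + 9)) = 2 ^ 1152 * 2 ^ (128 * x) := fun x => by
    rw [← pow_add]
    congr 1
    ring
  have c1 : (((2 ^ (128 * (g + 1)) + 2 ^ (128 * (k + 9)) : ℕ) : ℤ)) =
      2 ^ 128 * 2 ^ (128 * g) + 2 ^ 1152 * 2 ^ (128 * k) := by
    rw [Nat.cast_add, Nat.cast_pow, Nat.cast_pow, Nat.cast_ofNat, e1 g, e2 k]
  have c2 : (((2 ^ (128 * (e + 1)) + 2 ^ (128 * (e + 9)) : ℕ) : ℤ)) =
      2 ^ 128 * 2 ^ (128 * e) + 2 ^ 1152 * 2 ^ (128 * e) := by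
    rw [Nat.cast_add, Nat.cast_pow, Nat.cast_pow, Nat.cast_ofNat, e1 e, e2 e]
  rw [c1, c2]
  generalize (2 : ℤ) ^ (128 * g) = a1
  generalize (2 : ℤ) ^ (128 * k) = a2
  generalize (2 : ℤ) ^ (128 * e) = a3
  generalize (2 : ℤ) ^ 1152 = a4
  generalize (2 : ℤ) ^ 2176 = a5
  generalize (2 : ℤ) ^ 128 = a6
  ring

private theorem FRel_ok {d : ℕ} {F : LF} (ok : F.ok d) (z : ℤ) (e g k : ℕ) :
    (rel1 z e g k F).ok d := by
  constructor
  · show (addAt g z (addAt e (-z) F.p)).length = d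
    rw [len_addAt, len_addAt, ok.p]
  · show (addAt k z (addAt e (-z) F.s)).length = d
    rw [len_addAt, len_addAt, ok.s]

private theorem FRel_min (z : ℤ) : |min z (2 * z) - z| ≤ |z| := by
  rcases le_total 0 z with h | h
  · rw [min_eq_left (by linarith), sub_self, abs_zero]
    exact abs_nonneg z
  · rw [min_eq_right (by linarith), show 2 * z - z = z by ring]

private theorem FRel_frm {d : ℕ} (hd : d ≤ 8) {e g k : ℕ} (he : e < d) (hg : g < d) (hk : k < d)
    {F : LF} {B : ℤ} {Y : ℕ} (hF : Frm d F B Y) (hB0 : 2 ^ 26 ≤ B) (hB : B ≤ 2 ^ 97) {z : ℤ}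
    (hz : |z| ≤ 2 ^ 19) (S T : ℕ) (hS : (Y : ℤ) + S - T = Y +
      z * (((2 ^ (128 * (g + 1)) + 2 ^ (128 * (k + 9)) : ℕ) : ℤ)) -
      z * (((2 ^ (128 * (e + 1)) + 2 ^ (128 * (e + 9)) : ℕ) : ℤ)) +
      2 ^ 2176 * (min z (2 * z) - z)) : Frm d (rel1 z e g k F) (2 * B) (Y + S - T) := by
  have hok := FRel_ok hF.ok z e g k
  have hnz : |(-z)| ≤ 2 ^ 19 := by rw [abs_neg]; exact hz
  have hp : ∀ x ∈ (rel1 z e g k F).p, |x| ≤ 2 * B := by
    intro x hx
    have h1 := FRel_addAt_bd (FRel_addAt_bd hF.p hnz e) hz g x hx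
    have h2 : B + 2 ^ 19 + 2 ^ 19 ≤ 2 * B := by
      norm_num at hB0 ⊢
      linarith
    exact h1.trans h2
  have hs : ∀ x ∈ (rel1 z e g k F).s, |x| ≤ 2 * B := by
    intro x hx
    have h1 := FRel_addAt_bd (FRel_addAt_bd hF.s hnz e) hz k x hx
    have h2 : B + 2 ^ 19 + 2 ^ 19 ≤ 2 * B := by
      norm_num at hB0 ⊢
      linarith
    exact h1.trans h2
  have hkk : |(rel1 z e g k F).k| ≤ 2 * B := by
    have h0 : (rel1 z e g k F).k = F.k + (min z (2 * z) - z) := by
      show F.k - z + min z (2 * z) = _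
      ring
    rw [h0]
    have h1 := abs_add_le F.k (min z (2 * z) - z)
    have h2 := FRel_min z
    have h3 := hF.k
    norm_num at hB0 hz
    linarith
  obtain ⟨j, hj, hY⟩ := hF.y
  have hj' : |j| ≤ 2 ^ 61 + 2 ^ 25 * (2 * B) := by
    norm_num at hB0 hj ⊢
    linarith
  have h98 : 2 * B ≤ 2 ^ 98 := by
    norm_num at hB ⊢
    linarith
  have hnn := pk_nonneg hd hok hp hs hkk hj' h98
  have hval : (Y : ℤ) + S - T = offZ + j + pk (rel1 z e g k F) := by
    rw [hS, FRel_pk hF.ok he hg hk, hY]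
    generalize (2 : ℤ) ^ 2176 = a5
    ring
  refine ⟨hok, hp, hs, hkk, j, hj', ?_⟩
  rw [← hval]
  rw [← hval] at hnn
  have h5 : T ≤ Y + S := by
    have h6 : (T : ℤ) ≤ Y + S := by linarith
    exact_mod_cast h6
  rw [Nat.cast_sub h5]
  push_cast
  rfl

private theorem FRel_mono {d : ℕ} {F : LF} {B B' : ℤ} {Y : ℕ} (h : Frm d F B Y) (hB : B ≤ B') :
    Frm d F B' Y := by
  obtain ⟨j, hj, hY⟩ := h.y
  refine ⟨h.ok, fun z hz => (h.p z hz).trans hB, fun z hz => (h.s z hz).trans hB, h.k.trans hB, j,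
    hj.trans ?_, hY⟩
  have h1 : (2 : ℤ) ^ 25 * B ≤ 2 ^ 25 * B' := mul_le_mul_of_nonneg_left hB (by positivity)
  linarith

theorem mul1_ok {d : ℕ} (hd : d ≤ 8) {rt : Rows} (hr : RI d rt) {e g k : ℕ} (hg : nxt e rt.top = some g)
    (hk : nxt e rt.bot = some k) {F : LF} {B : ℤ} {Y : ℕ} (hF : Frm d F B Y) (hB0 : 2 ^ 26 ≤ B) (hB : B ≤ 2 ^ 97) {y : ℕ}
    (hy : y < 1048576) : ∃ z : ℤ, Frm d (rel1 z e g k F) (2 * B)
      (mul1 (2 ^ (128 * (g + 1)) + 2 ^ (128 * (k + 9))) (2 ^ (128 * (e + 1)) + 2 ^ (128 * (e + 9))) y Y) := by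
  have he := (ri_mem_top hr e).1 (nxt_mem hg).1
  have hg' := (ri_mem_top hr g).1 (nxt_mem hg).2
  have hk' := (ri_mem_bot hr k).1 (nxt_mem hk).2
  have hn : y / 2 ≤ 2 ^ 19 := by norm_num; omega
  rw [mul1_eq]
  generalize hu : 2 ^ (128 * (g + 1)) + 2 ^ (128 * (k + 9)) = u
  generalize hv : 2 ^ (128 * (e + 1)) + 2 ^ (128 * (e + 9)) = v
  by_cases hy1 : y % 2 = 1
  · rw [if_pos hy1]
    refine ⟨-((y / 2 : ℕ) : ℤ), ?_⟩
    refine FRel_frm hd he hg' hk' hF hB0 hB ?_ _ _ ?_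
    · rw [abs_neg, abs_of_nonneg (Int.natCast_nonneg _)]
      exact_mod_cast hn
    · rw [hu, hv, min_eq_right (by
        have h0 : (0 : ℤ) ≤ ((y / 2 : ℕ) : ℤ) := Int.natCast_nonneg _
        clear hu hv
        linarith)]
      rw [Nat.one_shiftLeft]
      push_cast
      generalize (2 : ℤ) ^ 2176 = w
      ring
  · rw [if_neg hy1]
    refine ⟨((y / 2 : ℕ) : ℤ), ?_⟩
    refine FRel_frm hd he hg' hk' hF hB0 hB ?_ _ _ ?_
    · rw [abs_of_nonneg (Int.natCast_nonneg _)]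
      exact_mod_cast hn
    · rw [hu, hv, min_eq_left (by
        have h0 : (0 : ℤ) ≤ ((y / 2 : ℕ) : ℤ) := Int.natCast_nonneg _
        clear hu hv
        linarith)]
      push_cast
      generalize (2 : ℤ) ^ 2176 = w
      ring

theorem mulsF_ok {d : ℕ} (hd : d ≤ 8) {rt : Rows} (hr : RI d rt) (f : ℕ → ℕ → ℕ) : ∀ (es : List ℕ) {F : LF} {B : ℤ}
    {Y c m : ℕ}, Frm d F B Y → 2 ^ 26 ≤ B → B * 2 ^ es.length ≤ 2 ^ 98 → mulsF f (es.flatMap (relR rt)) c Y = m + 1 →
    ∃ (ys : List (ℕ × ℤ)) (G : LF) (Y' c' : ℕ), relAll rt ys F = some G ∧ Frm d G (B * 2 ^ es.length) Y' ∧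
      f c' Y' = m + 1 := by
  intro es
  induction es with
  | nil =>
    intro F B Y c m hF hB0 hB h
    refine ⟨[], F, Y, c, rfl, ?_, ?_⟩
    · rw [List.length_nil, pow_zero, mul_one]
      exact hF
    · have h1 : mulsF f [] c Y = m + 1 := h
      rw [mulsF_nil] at h1
      exact h1
  | cons e es ih =>
    intro F B Y c m hF hB0 hB h
    have hBpos : (0 : ℤ) < B := lt_of_lt_of_le (by norm_num) hB0
    have hpow : B * 2 ^ (e :: es).length = 2 * B * 2 ^ es.length := by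
      rw [List.length_cons, pow_succ]
      ring
    rw [hpow] at hB
    have hp1 : (1 : ℤ) ≤ 2 ^ es.length := one_le_pow₀ (by norm_num)
    rw [hpow]
    rw [List.flatMap_cons] at h
    have hcase : relR rt e = [] ∨ ∃ g k, nxt e rt.top = some g ∧ nxt e rt.bot = some k := by
      unfold relR
      cases h1 : nxt e rt.top with
      | none => exact Or.inl rfl
      | some g =>
        cases h2 : nxt e rt.bot with
        | none => exact Or.inl rfl
        | some k => exact Or.inr ⟨g, k, rfl, rfl⟩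
    rcases hcase with h0 | ⟨g, k, hg, hk⟩
    · rw [h0, List.nil_append] at h
      have hB1 : B * 2 ^ es.length ≤ 2 * B * 2 ^ es.length :=
        mul_le_mul_of_nonneg_right (by linarith) (by positivity)
      obtain ⟨ys, G, Y', c', e1, e2, e3⟩ := ih hF hB0 (hB1.trans hB) h
      exact ⟨ys, G, Y', c', e1, FRel_mono e2 hB1, e3⟩
    · have hrel : relR rt e = [(2 ^ (128 * (g + 1)) + 2 ^ (128 * (k + 9)),
          2 ^ (128 * (e + 1)) + 2 ^ (128 * (e + 9)))] := by
        unfold relR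
        rw [hg, hk]
      rw [hrel, List.singleton_append, mulsF_cons] at h
      have hB97 : B ≤ 2 ^ 97 := by
        have h1 : 2 * B ≤ 2 * B * 2 ^ es.length := le_mul_of_one_le_right (by linarith) hp1
        have h2 := h1.trans hB
        have h3 : (2 : ℤ) ^ 98 = 2 * 2 ^ 97 := by norm_num
        rw [h3] at h2
        exact le_of_mul_le_mul_left h2 (by norm_num)
      obtain ⟨z, hz⟩ := mul1_ok hd hr hg hk hF hB0 hB97
        (Nat.mod_lt c (by norm_num : 0 < 1048576))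
      obtain ⟨ys, G, Y', c', e1, e2, e3⟩ := ih hz (by linarith) hB h
      refine ⟨(e, z) :: ys, G, Y', c', ?_, e2, e3⟩
      show (match nxt e rt.top, nxt e rt.bot with
        | some g, some k => relAll rt ys (rel1 z e g k F)
        | _, _ => none) = some G
      rw [hg, hk]
      exact e1

end Pool.Agent.RTX
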