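import Pool.Agent.RTX.FSum

/-!
# RTX/FSix: the form of a leaf before pulling back

PLAN: `l6_eq`; `rcut_ok`, `lcut_ok` (`R.top`, `R.bot` through `pkR`), `sumF_take` twice (`3 * r + 3 * k = 3 * (|Z| - (i + l))`,
`3 * r + 3 * l = 3 * (|Z| - (i + k))`), `pk_addW` with `pk_zero`, and `pk` of `opt1 o` adds `oSlot` (`evB_addAt`; the cut is a letter of `Z`, hence `< d`: see
`rcut`/`lcut`, the value of `cut` is one of the two letters).  `(Z.drop i).take l` has length `l`.
-/

set_option autoImplicit false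

namespace Pool.Agent.RTX

private theorem FSix_hd_mem {Z : List ℕ} {n x : ℕ} (h : hd (Z.drop n) = some x) : x ∈ Z := by
  cases hz : Z.drop n with
  | nil => rw [hz] at h; exact absurd h (by simp [hd])
  | cons y l =>
    rw [hz] at h
    have h1 : y = x := by simpa [hd] using h
    subst h1
    exact List.mem_of_mem_drop (i := n) (by rw [hz]; exact List.mem_cons_self)

private theorem FSix_cut {row : List ℕ} {e x y c : ℕ} (h : cut row e x y = some c) : c = x ∨ c = y := by
  unfold cut at h
  cases h1 : (isNxt x y row && !(Nat.beq x e)) with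
  | true =>
    rw [h1] at h
    right
    exact (Option.some.inj h).symm
  | false =>
    rw [h1] at h
    cases h2 : (isNxt y x row && !(Nat.beq y e)) with
    | true =>
      rw [h2] at h
      left
      exact (Option.some.inj h).symm
    | false =>
      rw [h2] at h
      exact absurd h (by simp)

private theorem FSix_rcut {R : Rows} {Z : List ℕ} {d i k l c : ℕ} (hZ : ∀ z ∈ Z, z < d)
    (h : rcut R Z i k l = some c) : c < d := by
  unfold rcut at h
  cases h1 : hd (Z.drop (i + l)) with
  | none => rw [h1] at h; exact absurd h (by simp)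
  | some x =>
    cases h2 : hd (Z.drop (i + k + l)) with
    | none => rw [h1, h2] at h; exact absurd h (by simp)
    | some y =>
      rw [h1, h2] at h
      rcases FSix_cut h with h3 | h3
      · rw [h3]; exact hZ _ (FSix_hd_mem h1)
      · rw [h3]; exact hZ _ (FSix_hd_mem h2)

private theorem FSix_lcut {R : Rows} {Z : List ℕ} {d i k c : ℕ} (hZ : ∀ z ∈ Z, z < d)
    (h : lcut R Z i k = some c) : c < d := by
  cases i with
  | zero => exact absurd h (by simp [lcut])
  | succ j =>
    have h0 : (match hd (Z.drop j), hd (Z.drop (j + k)) with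
      | some x, some y => cut R.bot R.a x y
      | _, _ => none) = some c := h
    cases h1 : hd (Z.drop j) with
    | none => rw [h1] at h0; exact absurd h0 (by simp)
    | some x =>
      cases h2 : hd (Z.drop (j + k)) with
      | none => rw [h1, h2] at h0; exact absurd h0 (by simp)
      | some y =>
        rw [h1, h2] at h0
        rcases FSix_cut h0 with h3 | h3
        · rw [h3]; exact hZ _ (FSix_hd_mem h1)
        · rw [h3]; exact hZ _ (FSix_hd_mem h2)

private theorem FSix_opt {o : Option ℕ} {l : List ℤ} {d : ℕ} (hl : l.length = d) (ho : ∀ c, o = some c → c < d)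
    (s : ℕ) : 2 ^ (128 * (s + 1)) * evB (opt1 o l) = 2 ^ (128 * (s + 1)) * evB l + (oSlot s o : ℕ) := by
  cases o with
  | none =>
    show (2 : ℤ) ^ (128 * (s + 1)) * evB l = 2 ^ (128 * (s + 1)) * evB l + ((0 : ℕ) : ℤ)
    rw [Nat.cast_zero, add_zero]
  | some c =>
    have hc : c < l.length := by rw [hl]; exact ho c rfl
    have h1 : opt1 (some c) l = addAt c 1 l := rfl
    have h2 : oSlot s (some c) = 2 ^ (128 * (c + 1 + s)) := rfl
    have h3 : 128 * (c + 1 + s) = 128 * (s + 1) + 128 * c := by ring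
    rw [h1, h2, h3, evB_addAt hc, mul_add, one_mul, ← pow_add, Nat.cast_pow, Nat.cast_ofNat]

private theorem FSix_olen (o : Option ℕ) (l : List ℤ) : (opt1 o l).length = l.length := by
  cases o with
  | none => rfl
  | some c => exact len_addAt c 1 l

private theorem FSix_ite {u : Bool} {o : Option ℕ} {d : ℕ} (ho : ∀ c, o = some c → c < d) :
    ∀ c, (bif u then o else none) = some c → c < d := by
  intro c hc
  cases u with
  | true => exact ho c hc
  | false => exact absurd hc (by simp)

theorem l6_ok {d : ℕ} (hd : d ≤ 8) {D : RF} (hD : D.d = d) {R : Rows} (h : RI d R) {Z : List ℕ}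
    (hZ : ∀ z ∈ Z, z < d) {r : ℕ} {pt : Pat} (hk : 0 < pt.k) (hp : pt.i + (r + (pt.k + pt.l)) = Z.length)
    {st : List ℕ} {c q m : ℕ} (hl : l6 D st c (pkR R) q (encR Z 1) (3 * r) pt.k pt.l = m + 1) :
    ∃ (ur ul : Bool) (N V : ℕ), (N : ℤ) = pk (patN2 d R Z pt ur ul) ∧ (V : ℤ) = pk (patV d Z pt) ∧
      (patN2 d R Z pt ur ul).ok d ∧ (patV d Z pt).ok d ∧
      l7 D st c (encR Z 1) N V = m + 1 := by
  have h8 : L8 Z := fun z hz => lt_of_lt_of_le (hZ z hz) hd
  have hlen : r + (pt.k + pt.l) ≤ Z.length := by omega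
  have hi : Z.length - (r + (pt.k + pt.l)) = pt.i := by omega
  rw [l6_eq, hD] at hl
  obtain ⟨ur, hur⟩ := rcut_ok hd h h8 hk hlen (q / 8589934592 % 32)
  obtain ⟨ul, hul⟩ := lcut_ok hd h h8 hk hlen (q / 274877906944 % 32)
  rw [hi] at hur hul
  rw [hur, hul] at hl
  have e1 : 3 * r + 3 * pt.k = 3 * (Z.length - (pt.i + pt.l)) := by omega
  have e2 : 3 * r + 3 * pt.l = 3 * (Z.length - (pt.i + pt.k)) := by omega
  rw [e1, e2, sumF_take h8 (by omega), sumF_take h8 (by omega)] at hl
  have hN : ∀ x ∈ patNw Z pt, x < d := fun x hx => hZ x (List.mem_of_mem_drop (List.mem_of_mem_take hx))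
  have hV : ∀ x ∈ patVw Z pt, x < d := fun x hx => hZ x (List.mem_of_mem_drop (List.mem_of_mem_take hx))
  have hz := (ev_zero d (fun _ => 0) (fun _ => 0)).2
  have oN := (ev_addW hN hz (fun _ => 0) (fun _ => 0)).2
  have oV := (ev_addW hV hz (fun _ => 0) (fun _ => 0)).2
  have lN : (patNw Z pt).length = pt.l := by
    show ((Z.drop pt.i).take pt.l).length = pt.l
    rw [List.length_take, List.length_drop]
    omega
  have lV : (patVw Z pt).length = pt.k := by
    show ((Z.drop pt.i).take pt.k).length = pt.k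
    rw [List.length_take, List.length_drop]
    omega
  have pN := pk_addW hN hz
  have pV := pk_addW hV hz
  rw [pk_zero, zero_add, lN] at pN
  rw [pk_zero, zero_add, lV] at pV
  refine ⟨ur, ul, _, _, ?_, ?_, ?_, ?_, hl⟩
  · have h1 := FSix_opt (s := 0) oN.p (FSix_ite (u := ur) (fun c hc => FSix_rcut (R := R) (i := pt.i) (k := pt.k) (l := pt.l) hZ hc))
    have h2 := FSix_opt (s := 8) oN.s (FSix_ite (u := ul) (fun c hc => FSix_lcut (R := R) (i := pt.i) (k := pt.k) hZ hc))
    have e3 : 128 * (0 + 1) = 128 := by norm_num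
    have e4 : 128 * (8 + 1) = 1152 := by norm_num
    rw [e3] at h1
    rw [e4] at h2
    have h3 : pk (patN2 d R Z pt ur ul) =
        2 ^ 128 * evB (opt1 (bif ur then rcut R Z pt.i pt.k pt.l else none) (addW (patNw Z pt) (zero d)).p) +
          2 ^ 1152 * evB (opt1 (bif ul then lcut R Z pt.i pt.k else none) (addW (patNw Z pt) (zero d)).s) +
            2 ^ 2176 * (addW (patNw Z pt) (zero d)).k := rfl
    have h4 : pk (addW (patNw Z pt) (zero d)) =
        2 ^ 128 * evB (addW (patNw Z pt) (zero d)).p + 2 ^ 1152 * evB (addW (patNw Z pt) (zero d)).s +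
            2 ^ 2176 * (addW (patNw Z pt) (zero d)).k := rfl
    have h5 : ((pt.l <<< 2176 : ℕ) : ℤ) = 2 ^ 2176 * pt.l := by
      rw [Nat.shiftLeft_eq, Nat.cast_mul, Nat.cast_pow, Nat.cast_ofNat, mul_comm]
    have h6 : (((Z.drop pt.i).take pt.l).map hF).sum = ((patNw Z pt).map hF).sum := rfl
    rw [h6, h3, h1, h2, Nat.cast_add, Nat.cast_add, Nat.cast_add, h5]
    rw [h4] at pN
    generalize (2 : ℤ) ^ 128 * evB (addW (patNw Z pt) (zero d)).p = a1 at pN ⊢
    generalize (2 : ℤ) ^ 1152 * evB (addW (patNw Z pt) (zero d)).s = a2 at pN ⊢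
    generalize (2 : ℤ) ^ 2176 * (addW (patNw Z pt) (zero d)).k = a3 at pN ⊢
    generalize (2 : ℤ) ^ 2176 * (pt.l : ℤ) = a4 at pN ⊢
    linarith
  · have h5 : ((pt.k <<< 2176 : ℕ) : ℤ) = 2 ^ 2176 * pt.k := by
      rw [Nat.shiftLeft_eq, Nat.cast_mul, Nat.cast_pow, Nat.cast_ofNat, mul_comm]
    have h6 : (((Z.drop pt.i).take pt.k).map hF).sum = ((patVw Z pt).map hF).sum := rfl
    rw [h6, Nat.cast_add, h5]
    show _ = pk (addW (patVw Z pt) (zero d))
    rw [pV, add_comm]
  · exact ⟨by show (opt1 _ _).length = d; rw [FSix_olen, oN.p], by show (opt1 _ _).length = d; rw [FSix_olen, oN.s]⟩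
  · exact oV

end Pool.Agent.RTX
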