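import Pool.Agent.RTX.FTab

/-!
# RTX/FZ: the word of a pattern

PLAN: `zF_eq`, `midF_eq`, `slot_tab`, `catW_enc`.  If `np = ns = 0` the word is the middle block (`lastN 0 l = []`, `take 0 = []`).  Otherwise, with `w0 = w 0`:
`encR w0 1 >>> (log2 - 3 * np) = encR (w0.take np) 1` (`encW_log2`, `encR_shr` with `|w0| - np`), also if `np > |w0|`; `allF = true` says for every
`x < d` (`allF_succ`, `okF_eq`): the same for `w x` with the same value, so `(w x).take np = w0.take np` (`encW_inj`); `ns ≤ |w x|` (`encW_le`); and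
`encR (lastN ns (w x)) 0 = encR (lastN ns w0) 0` (`encR_mod`), so the endings agree (`encR_inj`, both have length `ns`).
`1 <<< (3 * ns) + encR (lastN ns w0) 0 = encR (lastN ns w0) 1` (`encR_val`).  `allPre`, `allSuf` by induction on `d` (`eqL_iff` is in `RelB`/`Ent`;
prove `eqL l l = true` locally if you do not want the import).  `zF_zero`: all slots of `0` are `0`, `catW 0 0 = 0`, and `okF` fails.
-/

set_option autoImplicit false

namespace Pool.Agent.RTX

private theorem FZ_slot0 (x : ℕ) : slot 0 x = 0 := by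
  rw [slot_eq, Nat.zero_shiftRight, Nat.zero_mod]

theorem zF_zero {d : ℕ} (hd : 0 < d) (T B kind np ns : ℕ) : zF d 0 T B kind (3 * np) (3 * ns) = 0 := by
  have h1 : midF d 0 T B kind = 0 := by
    rw [midF_eq]
    simp only [FZ_slot0]
    rw [catW_eq]
    simp
  rw [zF_eq]
  split_ifs with h2 h3
  · exact h1
  · exfalso
    obtain ⟨e, rfl⟩ : ∃ e, d = e + 1 := ⟨d - 1, by omega⟩
    have h4 := ((allF_succ _ _ _ _ _ _).1 h3).1
    simp only [FZ_slot0] at h4
    rw [okF_eq] at h4
    have h5 := h4.2.1
    rw [Nat.shiftLeft_eq, one_mul] at h5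
    have : 0 < 2 ^ (3 * ns) := by positivity
    omega
  · rfl

private theorem FZ_eqL (l : List ℕ) : eqL l l = true := by
  induction l with
  | nil => rfl
  | cons x l ih =>
    unfold eqL
    rw [ih]
    simp

private theorem FZ_pre (w : ℕ → List ℕ) (n : ℕ) (p : List ℕ) (d : ℕ)
    (h : ∀ x < d, (w x).take n = p) : allPre w n p d = true := by
  induction d with
  | zero => rfl
  | succ d ih =>
    unfold allPre
    rw [h d (Nat.lt_succ_self d), FZ_eqL, ih fun x hx => h x (Nat.lt_succ_of_lt hx)]
    rfl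

private theorem FZ_suf (w : ℕ → List ℕ) (n : ℕ) (p : List ℕ) (d : ℕ)
    (h : ∀ x < d, lastN n (w x) = p) : allSuf w n p d = true := by
  induction d with
  | zero => rfl
  | succ d ih =>
    unfold allSuf
    rw [h d (Nat.lt_succ_self d), FZ_eqL, ih fun x hx => h x (Nat.lt_succ_of_lt hx)]
    rfl

private theorem FZ_allF (W p3 s3 pre suf : ℕ) (d : ℕ) (h : allF W p3 s3 pre suf d = true) :
    ∀ x < d, okF p3 s3 pre suf (slot W x) = true := by
  induction d with
  | zero => intro x hx; omega
  | succ d ih =>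
    intro x hx
    obtain ⟨h1, h2⟩ := (allF_succ _ _ _ _ _ _).1 h
    rcases Nat.lt_succ_iff_lt_or_eq.1 hx with h3 | h3
    · exact ih h2 x h3
    · rw [h3]
      exact h1

private theorem FZ_shr {l : List ℕ} (h : L8 l) (np : ℕ) :
    encR l 1 >>> (Nat.log2 (encR l 1) - 3 * np) = encR (l.take np) 1 := by
  rw [encW_log2 h, ← Nat.mul_sub, encR_shr h 1 (Nat.sub_le _ _)]
  congr 1
  rcases Nat.le_total np l.length with h1 | h1
  · rw [Nat.sub_sub_self h1]
  · rw [Nat.sub_eq_zero_of_le h1, Nat.sub_zero, List.take_length, List.take_of_length_le h1]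

private theorem FZ_take {l : List ℕ} (h : L8 l) (n : ℕ) : L8 (l.take n) :=
  fun x hx => h x (List.mem_of_mem_take hx)

private theorem FZ_last {l : List ℕ} (h : L8 l) (n : ℕ) : L8 (lastN n l) :=
  fun x hx => h x (List.mem_of_mem_drop hx)

private theorem FZ_len {l : List ℕ} {n : ℕ} (h : n ≤ l.length) : (lastN n l).length = n := by
  unfold lastN
  rw [List.length_drop]
  omega

theorem zF_ok {d n : ℕ} (hd : 0 < d) {w : ℕ → List ℕ} {W : ℕ} (h : TabOK d n w W) (hn : n ≤ 1048576)
    (hw : ∀ x < d, L8 (w x)) {T B a b : ℕ} (hT : T % 8 = a) (hB : B % 8 = b) (ha : a < d) (hb : b < d) (kind np ns : ℕ)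
    (hz : zF d W T B kind (3 * np) (3 * ns) ≠ 0) :
    zF d W T B kind (3 * np) (3 * ns) =
      encR (lastN ns (w 0) ++ ((bif Nat.blt kind d then w kind else w b ++ w a) ++ (w 0).take np)) 1 ∧
    (Nat.beq np 0 || allPre w np ((w 0).take np) d) = true ∧
    (Nat.beq ns 0 || allSuf w ns (lastN ns (w 0)) d) = true := by
  have hmid : midF d W T B kind = encR (bif Nat.blt kind d then w kind else w b ++ w a) 1 := by
    rw [midF_eq, hT, hB]
    split_ifs with h1
    · have e : Nat.blt kind d = false := by
        rw [Bool.eq_false_iff]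
        intro h2
        rw [Nat.blt_eq] at h2
        omega
      rw [e, cond_false, slot_tab h hn ha, slot_tab h hn hb, catW_enc _ (hw a ha)]
    · have e : Nat.blt kind d = true := by
        rw [Nat.blt_eq]
        omega
      rw [e, cond_true, slot_tab h hn (by omega)]
  have hm8 : L8 (bif Nat.blt kind d then w kind else w b ++ w a) := by
    by_cases h1 : kind < d
    · have e : Nat.blt kind d = true := by
        rw [Nat.blt_eq]
        exact h1
      rw [e, cond_true]
      exact hw kind h1
    · have e : Nat.blt kind d = false := by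
        rw [Bool.eq_false_iff]
        intro h2
        rw [Nat.blt_eq] at h2
        exact h1 h2
      rw [e, cond_false]
      intro x hx
      rcases List.mem_append.1 hx with h2 | h2
      · exact hw b hb x h2
      · exact hw a ha x h2
  rw [zF_eq] at hz ⊢
  by_cases h0 : 3 * np + 3 * ns = 0
  · have hnp : np = 0 := by omega
    have hns : ns = 0 := by omega
    subst hnp
    subst hns
    rw [if_pos h0, hmid]
    have e1 : lastN 0 (w 0) = [] := by
      unfold lastN
      rw [Nat.sub_zero, List.drop_length]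
    rw [e1, List.take_zero, List.nil_append, List.append_nil]
    exact ⟨rfl, rfl, rfl⟩
  · rw [if_neg h0] at hz ⊢
    by_cases hall : allF W (3 * np) (3 * ns) (slot W 0 >>> (Nat.log2 (slot W 0) - 3 * np))
        (slot W 0 % (1 <<< (3 * ns))) d = true
    · rw [if_pos hall]
      have hok := FZ_allF _ _ _ _ _ _ hall
      have hs0 : slot W 0 = encR (w 0) 1 := slot_tab h hn hd
      rw [hs0, FZ_shr (hw 0 hd)] at hok ⊢
      have hx : ∀ x < d, (w x).take np = (w 0).take np ∧ ns ≤ (w x).length ∧
          encR (w x) 1 % (1 <<< (3 * ns)) = encR (w 0) 1 % (1 <<< (3 * ns)) := by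
        intro x hxd
        have h1 := hok x hxd
        rw [slot_tab h hn hxd, okF_eq, FZ_shr (hw x hxd), encW_le (hw x hxd)] at h1
        exact ⟨encW_inj (FZ_take (hw x hxd) _) (FZ_take (hw 0 hd) _) h1.1, h1.2.1, h1.2.2⟩
      have hl0 : ns ≤ (w 0).length := (hx 0 hd).2.1
      have hmod : ∀ x < d, encR (w x) 1 % (1 <<< (3 * ns)) = encR (lastN ns (w x)) 0 := fun x hxd =>
        encR_mod (hw x hxd) 1 (hx x hxd).2.1
      refine ⟨?_, ?_, ?_⟩
      · rw [hmod 0 hd, hmid]
        have e1 : 1 <<< (3 * ns) + encR (lastN ns (w 0)) 0 = encR (lastN ns (w 0)) 1 := by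
          rw [encR_val (lastN ns (w 0)) 1, FZ_len hl0, Nat.shiftLeft_eq, pow_mul]
          norm_num
        rw [e1, catW_enc _ hm8, catW_enc _ (FZ_take (hw 0 hd) np), List.append_assoc]
      · rw [FZ_pre w np _ d fun x hxd => (hx x hxd).1, Bool.or_true]
      · have e2 : ∀ x < d, lastN ns (w x) = lastN ns (w 0) := by
          intro x hxd
          refine encR_inj (FZ_last (hw x hxd) _) (FZ_last (hw 0 hd) _) ?_ ?_
          · rw [FZ_len (hx x hxd).2.1, FZ_len hl0]
          · rw [← hmod x hxd, ← hmod 0 hd]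
            exact (hx x hxd).2.2
        rw [FZ_suf w ns _ d e2, Bool.or_true]
    · rw [if_neg hall] at hz
      exact absurd rfl hz

end Pool.Agent.RTX
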