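import Pool.Agent.RTX.WdA

/-!
# RTX/OccZ: the word of a pattern occurs

Let `T = t + |g|`, `W x = wd g (R t) x`, `σ T x = (W x).flatMap (σ t)` (`sys_wd`).  The check says (`eqL` is equality; if
`np = 0` resp. `ns = 0` the prefix resp. suffix is empty): `pre` is a prefix of `W x` and `suf` a suffix of `W x` for all `x < d`.
Kind `< d`: `𝒮.blk T` gives `i ≥ 1` with `v i = kind` (take `n = 1`), and `σ T (v (i-1)) ++ σ T (v i) ++ σ T (v (i+1))` occurs at
`pos (i - 1)`; it is `(w₁ ++ suf ++ W kind ++ pre ++ w₂).flatMap (σ t)`.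
Kind `≥ d`: `𝒮.blk (T + 1)` and the loser `y` of the step `T`: `σ (T+1) y = σ T b ++ σ T a` with `b`, `a` the last labels of
`R T = runR g (R t)`; the neighbouring blocks `σ (T+1) x` are `σ T x` or `σ T b ++ σ T a`, so they also begin with
`pre.flatMap (σ t)` and end with `suf.flatMap (σ t)`.
-/

set_option autoImplicit false

namespace Pool.Agent.RTX

theorem eqL_iff (l m : List ℕ) : eqL l m = true ↔ l = m := by
  induction l generalizing m with
  | nil => cases m <;> simp [eqL]
  | cons x l ih =>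
    cases m with
    | nil => simp [eqL]
    | cons y m => simp [eqL, ih m]

theorem occ_append {u : ℕ → ℕ} {n : ℕ} {w v : List ℕ} :
    occ u n (w ++ v) ↔ occ u n w ∧ occ u (n + w.length) v := by
  constructor
  · intro h
    refine ⟨fun j hj => ?_, fun j hj => ?_⟩
    · have h1 := h j (by rw [List.length_append]; omega)
      rw [h1, List.getElem_append_left hj]
    · have h1 := h (w.length + j) (by rw [List.length_append]; omega)
      rw [Nat.add_assoc, h1, List.getElem_append_right (Nat.le_add_right _ _)]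
      congr 1
      omega
  · rintro ⟨h1, h2⟩ j hj
    by_cases hjw : j < w.length
    · rw [List.getElem_append_left hjw]
      exact h1 j hjw
    · have hjw' : w.length ≤ j := Nat.le_of_not_lt hjw
      rw [List.getElem_append_right hjw']
      have h3 := h2 (j - w.length) (by rw [List.length_append] at hj; omega)
      rw [← h3]
      congr 1
      omega

private theorem oz_core {d : ℕ} {u : ℕ → ℕ} {σ : ℕ → List ℕ} (hb : Blk d u σ) {y : ℕ} (hy : y < d)
    (sF pF : List ℕ) (hs : ∀ x < d, ∃ A, σ x = A ++ sF) (hp : ∀ x < d, ∃ B, σ x = pF ++ B) :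
    ∃ n, occ u n (sF ++ (σ y ++ pF)) := by
  obtain ⟨v, pos, hv, hpos, hocc, hinf⟩ := hb
  obtain ⟨i, hi, hvi⟩ := hinf y hy 1
  obtain ⟨j, rfl⟩ : ∃ j, i = j + 1 := ⟨i - 1, by omega⟩
  obtain ⟨A, hA⟩ := hs (v j) (hv j)
  obtain ⟨B, hB⟩ := hp (v (j + 1 + 1)) (hv _)
  have h0 := hocc j
  have h1 := hocc (j + 1)
  have h2 := hocc (j + 1 + 1)
  rw [hpos (j + 1), hpos j, hvi, hB, occ_append, hA, List.length_append] at h2
  rw [hpos j, hvi, hA, List.length_append] at h1
  rw [hA, occ_append] at h0
  refine ⟨pos j + A.length, ?_⟩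
  rw [occ_append, occ_append]
  refine ⟨h0.2, ?_, ?_⟩
  · rw [Nat.add_assoc]
    exact h1
  · rw [Nat.add_assoc (pos j)]
    exact h2.1

private theorem oz_pre {W : ℕ → List ℕ} {n : ℕ} {p : List ℕ} : ∀ {d : ℕ}, allPre W n p d = true →
    ∀ x < d, (W x).take n = p := by
  intro d
  induction d with
  | zero => intro _ x hx; omega
  | succ d ih =>
    intro h x hx
    simp only [allPre, Bool.and_eq_true, eqL_iff] at h
    rcases Nat.lt_succ_iff_lt_or_eq.1 hx with h1 | h1
    · exact ih h.2 x h1
    · subst h1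
      exact h.1

private theorem oz_suf {W : ℕ → List ℕ} {n : ℕ} {p : List ℕ} : ∀ {d : ℕ}, allSuf W n p d = true →
    ∀ x < d, lastN n (W x) = p := by
  intro d
  induction d with
  | zero => intro _ x hx; omega
  | succ d ih =>
    intro h x hx
    simp only [allSuf, Bool.and_eq_true, eqL_iff] at h
    rcases Nat.lt_succ_iff_lt_or_eq.1 hx with h1 | h1
    · exact ih h.2 x h1
    · subst h1
      exact h.1

private theorem oz_lastN_mem {n : ℕ} {l : List ℕ} {z : ℕ} (h : z ∈ lastN n l) : z ∈ l :=
  List.mem_of_mem_drop h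

private theorem oz_lastN_split (n : ℕ) (l : List ℕ) : ∃ A, l = A ++ lastN n l :=
  ⟨l.take (l.length - n), (List.take_append_drop _ _).symm⟩

theorem occ_pat {d : ℕ} {u : ℕ → ℕ} (𝒮 : Sys d u) {g : List Bool} {t : ℕ} (hg : Fol 𝒮.c t g) {h : Pat}
    (hc : patChk d g (𝒮.R t) h = true) :
    (∀ z ∈ patZ d g (𝒮.R t) h, z < d) ∧ ∃ n, occ u n ((patZ d g (𝒮.R t) h).flatMap (𝒮.σ t)) := by
  have hd : 0 < d := by have := (𝒮.ri t).two; omega
  have hW := fun x hx => sys_wd 𝒮 hg x hx
  have hrun := sys_runR 𝒮 hg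
  have hab := ri_ab (𝒮.ri (t + g.length))
  -- the checks
  unfold patChk at hc
  simp only [Bool.and_eq_true, Bool.or_eq_true, Nat.beq_eq] at hc
  obtain ⟨⟨⟨⟨⟨h1, h2⟩, -⟩, -⟩, -⟩, -⟩ := hc
  have hpre : ∀ x < d, (wd g (𝒮.R t) x).take h.np = patPre g (𝒮.R t) h := by
    rcases h1 with h1 | h1
    · intro x hx
      unfold patPre
      rw [h1, List.take_zero, List.take_zero]
    · exact oz_pre h1
  have hsuf : ∀ x < d, lastN h.ns (wd g (𝒮.R t) x) = patSuf g (𝒮.R t) h := by
    rcases h2 with h2 | h2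
    · intro x hx
      unfold patSuf lastN
      rw [h2, Nat.sub_zero, Nat.sub_zero, List.drop_length, List.drop_length]
    · exact oz_suf h2
  have hmid : ∀ z ∈ patMid d g (𝒮.R t) h, z < d := by
    intro z hz
    unfold patMid at hz
    by_cases hk : h.kind < d
    · have : Nat.blt h.kind d = true := by rw [Nat.blt_eq]; exact hk
      rw [this, cond_true] at hz
      exact (hW _ hk).2.1 z hz
    · have : Nat.blt h.kind d = false := by
        rw [Bool.eq_false_iff]
        intro h'
        rw [Nat.blt_eq] at h'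
        exact hk h'
      rw [this, cond_false, List.mem_append, hrun] at hz
      rcases hz with hz | hz
      · exact (hW _ hab.2.1).2.1 z hz
      · exact (hW _ hab.1).2.1 z hz
  refine ⟨?_, ?_⟩
  · intro z hz
    unfold patZ at hz
    rw [List.mem_append, List.mem_append] at hz
    rcases hz with hz | hz | hz
    · exact (hW 0 hd).2.1 z (oz_lastN_mem hz)
    · exact hmid z hz
    · exact (hW 0 hd).2.1 z (List.mem_of_mem_take hz)
  · have hs : ∀ x < d, ∃ A, 𝒮.σ (t + g.length) x = A ++ (patSuf g (𝒮.R t) h).flatMap (𝒮.σ t) := by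
      intro x hx
      obtain ⟨A, hA⟩ := oz_lastN_split h.ns (wd g (𝒮.R t) x)
      rw [hsuf x hx] at hA
      exact ⟨A.flatMap (𝒮.σ t), by rw [(hW x hx).1, ← List.flatMap_append, ← hA]⟩
    have hp : ∀ x < d, ∃ B, 𝒮.σ (t + g.length) x = (patPre g (𝒮.R t) h).flatMap (𝒮.σ t) ++ B := by
      intro x hx
      refine ⟨((wd g (𝒮.R t) x).drop h.np).flatMap (𝒮.σ t), ?_⟩
      rw [(hW x hx).1, ← List.flatMap_append, ← hpre x hx, List.take_append_drop]
    unfold patZ
    rw [List.flatMap_append, List.flatMap_append]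
    by_cases hk : h.kind < d
    · have h3 : (patMid d g (𝒮.R t) h).flatMap (𝒮.σ t) = 𝒮.σ (t + g.length) h.kind := by
        unfold patMid
        have : Nat.blt h.kind d = true := by rw [Nat.blt_eq]; exact hk
        rw [this, cond_true, (hW _ hk).1]
      rw [h3]
      exact oz_core (𝒮.blk (t + g.length)) hk _ _ hs hp
    · have hσ := 𝒮.hσ (t + g.length)
      have hlos : los (𝒮.c (t + g.length)) (𝒮.R (t + g.length)) < d := by
        unfold los
        cases 𝒮.c (t + g.length)
        · exact hab.2.1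
        · exact hab.1
      have h3 : (patMid d g (𝒮.R t) h).flatMap (𝒮.σ t) =
          𝒮.σ (t + g.length + 1) (los (𝒮.c (t + g.length)) (𝒮.R (t + g.length))) := by
        unfold patMid
        have : Nat.blt h.kind d = false := by
          rw [Bool.eq_false_iff]
          intro h'
          rw [Nat.blt_eq] at h'
          exact hk h'
        rw [this, cond_false, List.flatMap_append, hrun, ← (hW _ hab.2.1).1, ← (hW _ hab.1).1, hσ]
        unfold stepW
        rw [if_pos rfl]
      rw [h3]
      refine oz_core (𝒮.blk (t + g.length + 1)) hlos _ _ ?_ ?_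
      · intro x hx
        rw [hσ]
        unfold stepW
        split_ifs with hx'
        · obtain ⟨A, hA⟩ := hs _ hab.1
          exact ⟨𝒮.σ (t + g.length) (𝒮.R (t + g.length)).b ++ A, by rw [List.append_assoc, ← hA]⟩
        · exact hs x hx
      · intro x hx
        rw [hσ]
        unfold stepW
        split_ifs with hx'
        · obtain ⟨B, hB⟩ := hp _ hab.2.1
          exact ⟨B ++ 𝒮.σ (t + g.length) (𝒮.R (t + g.length)).a, by rw [← List.append_assoc, ← hB]⟩
        · exact hp x hx

end Pool.Agent.RTX
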