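import Pool.Agent.RTX.FTabW
import Pool.Agent.RTX.FZ
import Pool.Agent.RTX.FSix
import Pool.Agent.RTX.FIni
import Pool.Agent.RTX.FPul
import Pool.Agent.RTX.FRel
import Pool.Agent.RTX.FMsk
import Pool.Agent.RTX.OccZ

/-!
# RTX/FLeaf: soundness of the fast check of a forbidden window
-/

set_option autoImplicit false

namespace Pool.Agent.RTX

private theorem fl_l5_zero {D : RF} {st : List ℕ} {c RS q r3 k l : ℕ} : l5 D st c RS q 0 r3 k l = 0 := by
  rw [l5_eq, if_neg]
  rintro ⟨-, h, -⟩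
  rw [Nat.shiftLeft_eq, one_mul] at h
  have := Nat.two_pow_pos (r3 + 3 * (k + l))
  omega

private theorem fl_mem_take {l : List ℕ} {n x : ℕ} (h : x ∈ l.take n) : x ∈ l := List.mem_of_mem_take h

private theorem fl_mem_lastN {l : List ℕ} {n x : ℕ} (h : x ∈ lastN n l) : x ∈ l := List.mem_of_mem_drop h

theorem leafF_ok {A : Par} (hA : ParOK A) {π : List ℕ} (hr : RI A.d (rows0 A.d π)) {gr : List Bool}
    (hgr : gr.length ≤ 64) {c m : ℕ}
    (h : leafF (mkRF A π) (stkF (rows0 A.d π) gr) (encR (runR gr.reverse (rows0 A.d π)).top 0)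
      (encR (runR gr.reverse (rows0 A.d π)).bot 0) c = m + 1) :
    ∃ pt ur ul ys, Leaf2 A.d A.P A.Q A.K (rows0 A.d π) gr.reverse pt ur ul ys := by
  obtain ⟨d2, d8, P0, P1, Q0, Q1, K0⟩ := hA
  set rt := rows0 A.d π with hrt
  set st := stkF rt gr with hst
  set Rg := runR gr.reverse rt with hRg
  have hRgi : RI A.d Rg := ri_run hr _
  rw [leafF_eq] at h
  set q := c % 8796093022208 with hq
  set n := q % 32 with hn
  set kind := q / 32 % 8 with hkind
  set np := q / 256 % 32 with hnp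
  set ns := q / 8192 % 32 with hns
  set r := q / 262144 % 32 with hr'
  set k := q / 8388608 % 32 with hk
  set l := q / 268435456 % 32 with hl
  have hn32 : n < 32 := Nat.mod_lt _ (by norm_num)
  have hk32 : k < 32 := Nat.mod_lt _ (by norm_num)
  have hl32 : l < 32 := Nat.mod_lt _ (by norm_num)
  have eD : (mkRF A π).d = A.d := rfl
  have eW : (mkRF A π).w = iniW A.d := rfl
  rw [eD, eW] at h
  -- the table
  have hW0 : tabW (iniW A.d) n st ≠ 0 := by
    intro h0
    rw [h0, zF_zero (by omega), fl_l5_zero] at h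
    omega
  obtain ⟨hng, hT⟩ := tabW_tab d8 hr n gr (by omega) hW0
  set g1 := (gr.drop n).reverse with hg1
  set g2 := (gr.take n).reverse with hg2
  set Rs := runR g1 rt with hRs
  have hRsi : RI A.d Rs := ri_run hr _
  have hrun : runR g2 Rs = Rg := by
    rw [hRs, ← runR_app, hg1, hg2, ← List.reverse_append, List.take_append_drop]
  have hw8 : ∀ x < A.d, L8 (wd g2 Rs x) := fun x hx z hz => lt_of_lt_of_le (wd_lt hRsi g2 hx z hz) d8
  obtain ⟨-, -, -, -, ha8, hb8⟩ := pkR_spec d8 hRgi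
  obtain ⟨haL, hbL, -⟩ := ri_ab hRgi
  have hz : zF A.d (tabW (iniW A.d) n st) (encR Rg.top 0) (encR Rg.bot 0) kind (3 * np) (3 * ns) ≠ 0 := by
    intro h0
    rw [h0, fl_l5_zero] at h
    omega
  obtain ⟨eZ, hpre, hsuf⟩ := zF_ok (by omega) hT (by omega) hw8 ha8 hb8 haL hbL kind np ns hz
  rw [eZ] at h
  set Z := lastN ns (wd g2 Rs 0) ++ ((bif Nat.blt kind A.d then wd g2 Rs kind else wd g2 Rs Rg.b ++ wd g2 Rs Rg.a) ++
    (wd g2 Rs 0).take np) with hZ
  have hZd : ∀ z ∈ Z, z < A.d := by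
    intro z hz
    rw [hZ, List.mem_append, List.mem_append] at hz
    rcases hz with hz | hz | hz
    · exact wd_lt hRsi g2 (by omega) z (fl_mem_lastN hz)
    · by_cases hb : kind < A.d
      · have e1 : Nat.blt kind A.d = true := by
          unfold Nat.blt
          rw [Nat.ble_eq]
          exact hb
        rw [e1, cond_true] at hz
        exact wd_lt hRsi g2 hb z hz
      · have e1 : Nat.blt kind A.d = false := by
          rw [Bool.eq_false_iff]
          intro h1
          unfold Nat.blt at h1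
          rw [Nat.ble_eq] at h1
          exact hb h1
        rw [e1, cond_false, List.mem_append] at hz
        rcases hz with hz | hz
        · exact wd_lt hRsi g2 hbL z hz
        · exact wd_lt hRsi g2 haL z hz
    · exact wd_lt hRsi g2 (by omega) z (fl_mem_take hz)
  have hZ8 : L8 Z := fun z hz => lt_of_lt_of_le (hZd z hz) d8
  obtain ⟨hk0, hlen, heq, h6⟩ := l5_ok hZ8 h
  obtain ⟨erow, edrp⟩ := stk_row d8 hr n gr hng
  have epk : encR Rg.top 0 <<< 24 + encR Rg.bot 0 = pkR Rg := rfl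
  rw [epk, erow, edrp] at h6
  set pt : Pat := ⟨gr.length - n, kind, np, ns, Z.length - (r + (k + l)), k, l⟩ with hpt
  have hpi : pt.i + (r + (pt.k + pt.l)) = Z.length := by
    show Z.length - (r + (k + l)) + (r + (k + l)) = Z.length
    omega
  obtain ⟨ur, ul, N, V, hN, hV, okN, okV, h7⟩ := l6_ok (pt := pt) d8 eD hRsi hZd hk0 hpi h6
  rw [l7_eq] at h7
  obtain ⟨b1, b2, b3⟩ := addW_bd A.d (patNw Z pt)
  obtain ⟨v1, v2, v3⟩ := addW_bd A.d (patVw Z pt)
  have lN : ((patNw Z pt).length : ℤ) ≤ 32 := by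
    have : (patNw Z pt).length ≤ l := List.length_take_le _ _
    omega
  have lV : ((patVw Z pt).length : ℤ) ≤ 33 := by
    have : (patVw Z pt).length ≤ k := List.length_take_le _ _
    omega
  have c1 : ∀ z ∈ (patN2 A.d Rs Z pt ur ul).p, 0 ≤ z ∧ z ≤ 33 := by
    intro z hz
    have := opt1_bd b1 z hz
    omega
  have c2 : ∀ z ∈ (patN2 A.d Rs Z pt ur ul).s, 0 ≤ z ∧ z ≤ 33 := by
    intro z hz
    have := opt1_bd b2 z hz
    omega
  have c3 : 0 ≤ (patN2 A.d Rs Z pt ur ul).k ∧ (patN2 A.d Rs Z pt ur ul).k ≤ 33 := by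
    have : (patN2 A.d Rs Z pt ur ul).k = ((patNw Z pt).length : ℤ) := b3
    omega
  have c4 : ∀ z ∈ (patV A.d Z pt).p, 0 ≤ z ∧ z ≤ 33 := by
    intro z hz
    have := v1 z hz
    omega
  have c5 : ∀ z ∈ (patV A.d Z pt).s, 0 ≤ z ∧ z ≤ 33 := by
    intro z hz
    have := v2 z hz
    omega
  have c6 : 0 ≤ (patV A.d Z pt).k ∧ (patV A.d Z pt).k ≤ 33 := by
    have : (patV A.d Z pt).k = ((patVw Z pt).length : ℤ) := v3
    omega
  have hP1 : A.P.toNat < 1048576 := by omega
  have hQ1 : A.Q.toNat < 1048576 := by omega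
  have f0 := frm_ini d8 okN okV c1 c2 c3 c4 c5 c6 hP1 hQ1 hN hV (encR Z 1)
  rw [Int.toNat_of_nonneg P0, Int.toNat_of_nonneg Q0] at f0
  have hl1 : (gr.drop n).length ≤ 64 := by
    rw [List.length_drop]
    omega
  have hpow : (2 : ℤ) ^ (gr.drop n).length ≤ 2 ^ 64 := pow_le_pow_right₀ (by norm_num) hl1
  have hpow1 : (1 : ℤ) ≤ 2 ^ (gr.drop n).length := one_le_pow₀ (by norm_num)
  have hpd : (2 : ℤ) ^ A.d ≤ 2 ^ 8 := pow_le_pow_right₀ (by norm_num) d8
  have hpd1 : (1 : ℤ) ≤ 2 ^ A.d := one_le_pow₀ (by norm_num)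
  have f1 := plF_ok d8 hr (gr.drop n) f0 (by
    calc (2 : ℤ) ^ 26 * 2 ^ (gr.drop n).length ≤ 2 ^ 26 * 2 ^ 64 := by gcongr
      _ ≤ 2 ^ 98 := by norm_num)
  have h8 : mulsF (l9 (mkRF A π)) ((List.range A.d).flatMap (relR rt)) (c / 8796093022208)
      (plF (stkF rt (gr.drop n)) (offF + encR Z 1 % 2305843009213693951 + A.Q.toNat * N - A.P.toNat * V)) = m + 1 := h7
  obtain ⟨ys, G, Y', c', hrel, f2, h9⟩ := mulsF_ok d8 hr (l9 (mkRF A π)) (List.range A.d) f1 (by nlinarith)
    (by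
      rw [List.length_range]
      calc (2 : ℤ) ^ 26 * 2 ^ (gr.drop n).length * 2 ^ A.d ≤ 2 ^ 26 * 2 ^ 64 * 2 ^ 8 := by gcongr
        _ ≤ 2 ^ 98 := by norm_num) h8
  have hπd : π.length = A.d := (ri_len hr).2
  have hπh : π.headD 0 < 8 := by
    have := (ri_head hr true).2.2.2.2.2
    have e : (rows0 A.d π).bot.headD 0 = π.headD 0 := rfl
    rw [e] at this
    omega
  obtain ⟨t1, t2, t3⟩ := l9_ok d8 f2 (by
      rw [List.length_range]
      calc (2 : ℤ) ^ 26 * 2 ^ (gr.drop n).length * 2 ^ A.d ≤ 2 ^ 26 * 2 ^ 64 * 2 ^ 8 := by gcongr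
        _ ≤ 2 ^ 98 := by norm_num) hπh (rfl : (mkRF A π).k = mskF A.d (π.headD 0)) h9
  have etake : gr.reverse.take pt.s = g1 := by
    show gr.reverse.take (gr.length - n) = (gr.drop n).reverse
    rw [List.reverse_drop]
  have edrop : gr.reverse.drop pt.s = g2 := by
    show gr.reverse.drop (gr.length - n) = (gr.take n).reverse
    rw [List.reverse_take]
  refine ⟨pt, ur, ul, ys, ?_, ?_⟩
  · rw [etake, edrop]
    have eZ' : patZ A.d g2 Rs pt = Z := by
      show lastN ns (wd g2 Rs 0) ++ ((bif Nat.blt kind A.d then wd g2 Rs kind else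
        wd g2 Rs (runR g2 Rs).b ++ wd g2 Rs (runR g2 Rs).a) ++ (wd g2 Rs 0).take np) = Z
      rw [hrun]
    unfold patChk
    rw [← hRs, eZ']
    simp only [Bool.and_eq_true]
    refine ⟨⟨⟨⟨⟨hpre, hsuf⟩, ?_⟩, ?_⟩, ?_⟩, ?_⟩
    · rw [eqL_iff]
      exact heq
    · rw [Nat.beq_eq]
      show ((Z.drop (Z.length - (r + (k + l)))).take l).length = l
      rw [List.length_take, List.length_drop]
      omega
    · rw [Nat.beq_eq]
      show ((Z.drop (Z.length - (r + (k + l)))).take k).length = k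
      rw [List.length_take, List.length_drop]
      omega
    · unfold Nat.blt
      rw [Nat.ble_eq]
      exact hk0
  · rw [etake, edrop]
    have eZ' : patZ A.d g2 Rs pt = Z := by
      show lastN ns (wd g2 Rs 0) ++ ((bif Nat.blt kind A.d then wd g2 Rs kind else
        wd g2 Rs (runR g2 Rs).b ++ wd g2 Rs (runR g2 Rs).a) ++ (wd g2 Rs 0).take np) = Z
      rw [hrun]
    rw [← hRs, eZ']
    unfold bdd
    rw [hrel]
    have e0 : rt.top.headD 0 = 0 := by
      show (List.range A.d).headD 0 = 0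
      obtain ⟨k, hk⟩ : ∃ k, A.d = k + 1 := ⟨A.d - 1, by omega⟩
      rw [hk, List.range_succ_eq_map]
      rfl
    have e1 : rt.bot.headD 0 = π.headD 0 := rfl
    rw [e0, e1]
    simp only [Bool.and_eq_true, decide_eq_true_eq]
    have eK : ((mkRF A π).K : ℤ) = A.K := Int.toNat_of_nonneg K0
    rw [eK] at t3
    exact ⟨⟨t1, t2⟩, t3⟩

end Pool.Agent.RTX
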