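import Pool.Agent.RTX.Sem

/-!
# RTX/LinA: values of linear forms

All by induction on the list (generalising the function and the index).
-/

set_option autoImplicit false

namespace Pool.Agent.RTX

theorem evalL_addAt {l : List ℤ} {n : ℕ} (h : n < l.length) (v : ℤ) (f : ℕ → ℕ) :
    evalL (addAt n v l) f = evalL l f + v * (f n : ℤ) := by
  induction l generalizing n f with
  | nil => simp at h
  | cons z l ih =>
    cases n with
    | zero => simp only [addAt, evalL]; ring
    | succ n =>
      have h1 : n < l.length := by simpa using h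
      simp only [addAt, evalL]
      rw [ih h1]; ring

theorem len_addAt (n : ℕ) (v : ℤ) (l : List ℤ) : (addAt n v l).length = l.length := by
  induction l generalizing n with
  | nil => cases n <;> rfl
  | cons z l ih =>
    cases n with
    | zero => rfl
    | succ n => simp [addAt, ih]

theorem evalL_zipL {l m : List ℤ} (h : l.length = m.length) (q r : ℤ) (f : ℕ → ℕ) :
    evalL (zipL q r l m) f = q * evalL l f + r * evalL m f := by
  induction l generalizing m f with
  | nil =>
    cases m with
    | nil => simp [zipL, evalL]
    | cons y m => simp at h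
  | cons x l ih =>
    cases m with
    | nil => simp at h
    | cons y m =>
      have h1 : l.length = m.length := by simpa using h
      simp only [zipL, evalL]
      rw [ih h1]; ring

theorem len_zipL {l m : List ℤ} (h : l.length = m.length) (q r : ℤ) : (zipL q r l m).length = l.length := by
  induction l generalizing m with
  | nil => rfl
  | cons x l ih =>
    cases m with
    | nil => simp at h
    | cons y m =>
      have h1 : l.length = m.length := by simpa using h
      simp [zipL, ih h1]

private theorem LinA_evalL_replicate (d : ℕ) (f : ℕ → ℕ) : evalL (List.replicate d 0) f = 0 := by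
  induction d generalizing f with
  | zero => rfl
  | succ d ih =>
    rw [List.replicate_succ]
    simp only [evalL]
    rw [ih]; simp

theorem ev_zero (d : ℕ) (P S : ℕ → ℕ) : (zero d).ev P S = 0 ∧ (zero d).ok d := by
  refine ⟨?_, ⟨by simp [zero], by simp [zero]⟩⟩
  unfold LF.ev zero
  simp only
  rw [LinA_evalL_replicate, LinA_evalL_replicate]; simp

theorem ev_lin {d : ℕ} {F G : LF} (hF : F.ok d) (hG : G.ok d) (q r : ℤ) (P S : ℕ → ℕ) :
    (lin q F r G).ev P S = q * F.ev P S + r * G.ev P S ∧ (lin q F r G).ok d := by
  have hp : F.p.length = G.p.length := hF.p.trans hG.p.symm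
  have hs : F.s.length = G.s.length := hF.s.trans hG.s.symm
  refine ⟨?_, ⟨?_, ?_⟩⟩
  · unfold LF.ev lin
    simp only
    rw [evalL_zipL hp, evalL_zipL hs]; ring
  · show (zipL q r F.p G.p).length = d
    rw [len_zipL hp, hF.p]
  · show (zipL q r F.s G.s).length = d
    rw [len_zipL hs, hF.s]

theorem ev_addW {d : ℕ} {w : List ℕ} (hw : ∀ x ∈ w, x < d) {F : LF} (hF : F.ok d) (P S : ℕ → ℕ) :
    (addW w F).ev P S = F.ev P S + ((w.map fun x => P x + S x + 1).sum : ℕ) ∧ (addW w F).ok d := by
  induction w generalizing F with
  | nil => exact ⟨by simp [addW], hF⟩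
  | cons x w ih =>
    have hx : x < d := hw x List.mem_cons_self
    have hF' : LF.ok d ⟨addAt x 1 F.p, addAt x 1 F.s, F.k + 1⟩ :=
      ⟨by show (addAt x 1 F.p).length = d; rw [len_addAt, hF.p],
        by show (addAt x 1 F.s).length = d; rw [len_addAt, hF.s]⟩
    obtain ⟨h1, h2⟩ := ih (fun y hy => hw y (List.mem_cons_of_mem _ hy)) hF'
    refine ⟨?_, h2⟩
    show (addW w ⟨addAt x 1 F.p, addAt x 1 F.s, F.k + 1⟩).ev P S = _
    rw [h1, List.map_cons, List.sum_cons]
    have e1 : evalL (addAt x 1 F.p) P = evalL F.p P + 1 * (P x : ℤ) :=
      evalL_addAt (by rw [hF.p]; exact hx) 1 P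
    have e2 : evalL (addAt x 1 F.s) S = evalL F.s S + 1 * (S x : ℤ) :=
      evalL_addAt (by rw [hF.s]; exact hx) 1 S
    unfold LF.ev
    simp only
    rw [e1, e2]
    push_cast
    ring

/-- Changing one value of the function changes the value of the form linearly. -/
theorem evalL_update {l : List ℤ} {n : ℕ} (f g : ℕ → ℕ) (v : ℕ) (hn : g n = f n + v) (hg : ∀ x, x ≠ n → g x = f x) :
    evalL l g = evalL l f + getZ n l * (v : ℤ) := by
  induction l generalizing n f g with
  | nil => cases n <;> simp [evalL, getZ]
  | cons z l ih =>
    cases n with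
    | zero =>
      have h1 : evalL l (fun n => g (n + 1)) = evalL l (fun n => f (n + 1)) := by
        congr 1
        funext x
        exact hg (x + 1) (by omega)
      simp only [evalL, getZ]
      rw [h1, hn]; push_cast; ring
    | succ n =>
      simp only [evalL, getZ]
      rw [ih (fun n => f (n + 1)) (fun n => g (n + 1)) hn (fun x hx => hg (x + 1) (by omega)),
        hg 0 (by omega)]
      ring

end Pool.Agent.RTX
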