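import Pool.Agent.RTX.FPre
import Pool.Agent.RTX.LinA

/-!
# RTX/FPk: packed forms

PLAN: `evB_addAt`, `evB_zipL` by induction; `pk_zero`, `pk_lin` by unfolding (`lin`, `ring`); `hF_val`: `hF_eq`, `Nat.shiftLeft_eq`, `pow_add`;
`pk_addW` by induction on `w` (generalising `F`); `addW_bd` by induction on `w` from the statement for general `F` with bounds `b` (`addAt` increases
one entry by 1); `offF_eq`: `offF = ∑` of 18 powers, `by decide`, `rfl`, or `norm_num` (unfold `offF` by a lemma
`Nat.rec … (n + 1) = _ + 1 <<< (128 * n + 127)` and induction: `offF` for `n` slots is `evB (List.replicate n (2 ^ 127))`).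
-/

set_option autoImplicit false

namespace Pool.Agent.RTX

theorem evB_addAt {l : List ℤ} {n : ℕ} (h : n < l.length) (v : ℤ) :
    evB (addAt n v l) = evB l + v * 2 ^ (128 * n) := by
  induction l generalizing n with
  | nil => simp at h
  | cons z l ih =>
    cases n with
    | zero => simp only [addAt, evB, Nat.mul_zero, pow_zero]; ring
    | succ n =>
      have h1 : n < l.length := by simpa using h
      simp only [addAt, evB]
      rw [ih h1, Nat.mul_succ, pow_add]
      ring

theorem evB_zipL {l m : List ℤ} (h : l.length = m.length) (q r : ℤ) :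
    evB (zipL q r l m) = q * evB l + r * evB m := by
  induction l generalizing m with
  | nil =>
    cases m with
    | nil => simp [zipL, evB]
    | cons y m => simp at h
  | cons x l ih =>
    cases m with
    | nil => simp at h
    | cons y m =>
      have h1 : l.length = m.length := by simpa using h
      simp only [zipL, evB]
      rw [ih h1]; ring

private theorem FPk_replicate (d : ℕ) : evB (List.replicate d 0) = 0 := by
  induction d with
  | zero => rfl
  | succ d ih =>
    rw [List.replicate_succ]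
    simp only [evB]
    rw [ih]; simp

theorem pk_zero (d : ℕ) : pk (zero d) = 0 := by
  unfold pk zero
  simp only
  rw [FPk_replicate]
  simp

theorem pk_lin {d : ℕ} {F G : LF} (hF : F.ok d) (hG : G.ok d) (q r : ℤ) : pk (lin q F r G) = q * pk F + r * pk G := by
  have hp : F.p.length = G.p.length := hF.p.trans hG.p.symm
  have hs : F.s.length = G.s.length := hF.s.trans hG.s.symm
  unfold pk lin
  simp only
  rw [evB_zipL hp, evB_zipL hs]
  generalize (2 : ℤ) ^ 128 = a
  generalize (2 : ℤ) ^ 1152 = b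
  generalize (2 : ℤ) ^ 2176 = c
  ring

theorem hF_val (x : ℕ) : hF x = 2 ^ (128 * (x + 1)) + 2 ^ (128 * (x + 9)) := by
  rw [hF_eq, Nat.shiftLeft_eq, Nat.shiftLeft_eq, Nat.shiftLeft_eq, one_mul, one_mul, Nat.add_mul,
    ← pow_add, ← pow_add]
  have e1 : 128 + 128 * x = 128 * (x + 1) := by ring
  have e2 : 1152 + 128 * x = 128 * (x + 9) := by ring
  rw [e1, e2]

theorem pk_addW {d : ℕ} {w : List ℕ} (hw : ∀ x ∈ w, x < d) {F : LF} (hF : F.ok d) :
    pk (addW w F) = pk F + ((w.map Pool.Agent.RTX.hF).sum : ℕ) + 2 ^ 2176 * w.length := by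
  induction w generalizing F with
  | nil => simp [addW]
  | cons x w ih =>
    have hx : x < d := hw x List.mem_cons_self
    have hF' : LF.ok d ⟨addAt x 1 F.p, addAt x 1 F.s, F.k + 1⟩ :=
      ⟨by show (addAt x 1 F.p).length = d; rw [len_addAt, hF.p],
        by show (addAt x 1 F.s).length = d; rw [len_addAt, hF.s]⟩
    have h1 := ih (fun y hy => hw y (List.mem_cons_of_mem _ hy)) hF'
    show pk (addW w ⟨addAt x 1 F.p, addAt x 1 F.s, F.k + 1⟩) = _
    rw [h1, List.map_cons, List.sum_cons, List.length_cons, hF_val]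
    unfold pk
    simp only
    rw [evB_addAt (by rw [hF.p]; exact hx), evB_addAt (by rw [hF.s]; exact hx)]
    have e1 : (2 : ℤ) ^ (128 * (x + 1)) = 2 ^ 128 * 2 ^ (128 * x) := by
      rw [← pow_add]
      congr 1
      ring
    have e2 : (2 : ℤ) ^ (128 * (x + 9)) = 2 ^ 1152 * 2 ^ (128 * x) := by
      rw [← pow_add]
      congr 1
      ring
    rw [Nat.cast_add, Nat.cast_add, Nat.cast_add, Nat.cast_pow, Nat.cast_pow, Nat.cast_ofNat, e1, e2,
      Nat.cast_one]
    generalize (2 : ℤ) ^ 128 = a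
    generalize (2 : ℤ) ^ 1152 = b
    generalize (2 : ℤ) ^ 2176 = c
    ring

private theorem FPk_add_bd {l : List ℤ} {b : ℤ} (n : ℕ) (h : ∀ z ∈ l, 0 ≤ z ∧ z ≤ b) :
    ∀ z ∈ addAt n 1 l, 0 ≤ z ∧ z ≤ b + 1 := by
  induction l generalizing n with
  | nil =>
    intro z hz
    cases n <;> simp [addAt] at hz
  | cons y l ih =>
    have hy := h y List.mem_cons_self
    have hl : ∀ z ∈ l, 0 ≤ z ∧ z ≤ b := fun z hz => h z (List.mem_cons_of_mem _ hz)
    cases n with
    | zero =>
      intro z hz
      rcases List.mem_cons.1 hz with rfl | hz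
      · omega
      · have := hl z hz
        omega
    | succ n =>
      intro z hz
      rcases List.mem_cons.1 hz with rfl | hz
      · omega
      · exact ih n hl z hz

private theorem FPk_addW_bd (w : List ℕ) : ∀ (F : LF) (b : ℤ), (∀ z ∈ F.p, 0 ≤ z ∧ z ≤ b) →
    (∀ z ∈ F.s, 0 ≤ z ∧ z ≤ b) → (∀ z ∈ (addW w F).p, 0 ≤ z ∧ z ≤ b + w.length) ∧
    (∀ z ∈ (addW w F).s, 0 ≤ z ∧ z ≤ b + w.length) ∧ (addW w F).k = F.k + w.length := by
  induction w with
  | nil =>
    intro F b hp hs
    refine ⟨fun z hz => ?_, fun z hz => ?_, ?_⟩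
    · have := hp z hz
      rw [List.length_nil, Nat.cast_zero, add_zero]
      exact this
    · have := hs z hz
      rw [List.length_nil, Nat.cast_zero, add_zero]
      exact this
    · rw [List.length_nil, Nat.cast_zero, add_zero]
      rfl
  | cons x w ih =>
    intro F b hp hs
    obtain ⟨h1, h2, h3⟩ := ih ⟨addAt x 1 F.p, addAt x 1 F.s, F.k + 1⟩ (b + 1)
      (FPk_add_bd x hp) (FPk_add_bd x hs)
    have e : ((x :: w).length : ℤ) = w.length + 1 := by
      rw [List.length_cons, Nat.cast_add, Nat.cast_one]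
    refine ⟨fun z hz => ?_, fun z hz => ?_, ?_⟩
    · have := h1 z hz
      omega
    · have := h2 z hz
      omega
    · show (addW w ⟨addAt x 1 F.p, addAt x 1 F.s, F.k + 1⟩).k = _
      rw [h3, e]
      ring

theorem addW_bd (d : ℕ) (w : List ℕ) : (∀ z ∈ (addW w (zero d)).p, 0 ≤ z ∧ z ≤ w.length) ∧
    (∀ z ∈ (addW w (zero d)).s, 0 ≤ z ∧ z ≤ w.length) ∧ (addW w (zero d)).k = w.length := by
  have h0 : ∀ z ∈ List.replicate d (0 : ℤ), 0 ≤ z ∧ z ≤ (0 : ℤ) := by
    intro z hz
    have := (List.mem_replicate.1 hz).2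
    omega
  obtain ⟨h1, h2, h3⟩ := FPk_addW_bd w (zero d) 0 h0 h0
  refine ⟨fun z hz => ?_, fun z hz => ?_, ?_⟩
  · have := h1 z hz
    omega
  · have := h2 z hz
    omega
  · rw [h3]
    show (0 : ℤ) + w.length = w.length
    ring

theorem opt1_bd {o : Option ℕ} {l : List ℤ} {b : ℤ} (h : ∀ z ∈ l, 0 ≤ z ∧ z ≤ b) :
    ∀ z ∈ opt1 o l, 0 ≤ z ∧ z ≤ b + 1 := by
  cases o with
  | none =>
    intro z hz
    have := h z hz
    omega
  | some c => exact FPk_add_bd c h

theorem offF_eq : ((offF : ℕ) : ℤ) = offZ := by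
  unfold offF offZ
  rfl

end Pool.Agent.RTX
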