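import Pool.Agent.RTX.Defs

/-!
# RTX: parameters for `d = 4, 5, 6`
-/

set_option autoImplicit false

namespace Pool.Agent.RTX

/-- `d = 4`, threshold `1.31 > φ ^ 2 / 2` -/
def par4 : Par := ⟨4, 131, 100, 10000000, [3, 1, 2, 0],
  [true, true, false, true, true, false, true, false, false, true, false, false, true, false]⟩

/-- `d = 5`, threshold `0.81 > φ / 2` -/
def par5 : Par := ⟨5, 81, 100, 10000000, [2, 3, 4, 0, 1], [false, true, false, true, false, true]⟩

/-- `d = 6`, threshold `0.724 > φ / √5` -/
def par6 : Par := ⟨6, 724, 1000, 10000000, [2, 3, 4, 5, 1, 0],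
  [true, true, false, true, false, false, true, false]⟩

end Pool.Agent.RTX
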