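import Mathlib
import Pool.Agent.RTX.Par
import Pool.Agent.Helper44.IETDefs

/-!
# RTX: semantics of the checker (definitions only)

`Sys d u`: an infinite Rauzy path read off from the word `u`: rows `R t`, types `c t`, words `σ t x` (over the letters of
`u`), zippers `P t x`, `S t x` with `|σ t x| = P t x + S t x + 1`, their invariants, the block structure of `u`, and the
growth of the heights.  Labels are the numbers `< d`.
-/

set_option autoImplicit false

namespace Pool.Agent.RTX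

open Pool.Agent.Helper44.IET (HasPower)

/-- Value of a list of coefficients. -/
def evalL : List ℤ → (ℕ → ℕ) → ℤ
  | [], _ => 0
  | z :: l, f => z * (f 0 : ℤ) + evalL l (fun n => f (n + 1))

/-- Value of a form. -/
def LF.ev (F : LF) (P S : ℕ → ℕ) : ℤ := evalL F.p P + evalL F.s S + F.k

/-- The form has `d` coefficients of each kind. -/
structure LF.ok (d : ℕ) (F : LF) : Prop where
  p : F.p.length = d
  s : F.s.length = d

/-- Irreducible rows over the labels `< d`. -/
structure RI (d : ℕ) (R : Rows) : Prop where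
  two : 2 ≤ d
  top : R.top.Perm (List.range d)
  bot : R.bot.Perm (List.range d)
  irr : ∀ k, 0 < k → k < d → ∃ x ∈ R.top.take k, x ∉ R.bot.take k

/-- Interchange of the rows. -/
def Rows.swap (R : Rows) : Rows := ⟨R.bot, R.top⟩

/-- New `P`: the loser `a` of a step of type `true`. -/
def stepP (c : Bool) (R : Rows) (P S : ℕ → ℕ) : ℕ → ℕ := fun x =>
  if c = true ∧ x = R.a then P R.a + (P R.b + S R.b + 1) else P x

/-- New `S`: the loser `b` of a step of type `false`. -/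
def stepS (c : Bool) (R : Rows) (P S : ℕ → ℕ) : ℕ → ℕ := fun x =>
  if c = false ∧ x = R.b then S R.b + (P R.a + S R.a + 1) else S x

/-- New words. -/
def stepW (c : Bool) (R : Rows) (σ : ℕ → List ℕ) : ℕ → List ℕ := fun x =>
  if x = los c R then σ R.b ++ σ R.a else σ x

/-- Numerical invariants of the zippers. -/
structure InvN (d : ℕ) (R : Rows) (σ : ℕ → List ℕ) (P S : ℕ → ℕ) : Prop where
  len : ∀ x < d, (σ x).length = P x + S x + 1
  p0 : P (R.top.headD 0) = 0
  s0 : S (R.bot.headD 0) = 0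
  rel : ∀ e g k, nxt e R.top = some g → nxt e R.bot = some k →
    P g + S k + 1 ≤ (σ e).length ∧ (σ e).length ≤ P g + S k + 2
  rab : ∀ g k, nxt R.b R.top = some g → nxt R.a R.bot = some k →
    P g + S k + 1 ≤ (σ R.b).length + (σ R.a).length ∧ (σ R.b).length + (σ R.a).length ≤ P g + S k + 2

/-- Common prefixes of neighbours in the top row. -/
structure InvT (R : Rows) (σ : ℕ → List ℕ) (P : ℕ → ℕ) : Prop where
  tp : ∀ g c, nxt g R.top = some c → g ≠ R.b → (σ g).take (P c) = (σ c).take (P c)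
  tb : ∀ c, nxt R.b R.top = some c → (σ R.b ++ σ R.a).take (P c) = (σ c).take (P c)

/-- Common suffixes of neighbours in the bottom row. -/
structure InvB (R : Rows) (σ : ℕ → List ℕ) (S : ℕ → ℕ) : Prop where
  bs : ∀ g k, nxt g R.bot = some k → g ≠ R.a → lastN (S k) (σ g) = lastN (S k) (σ k)
  ba : ∀ k, nxt R.a R.bot = some k → lastN (S k) (σ R.b ++ σ R.a) = lastN (S k) (σ k)

/-- The word `w` occurs in `u` at position `n`. -/
def occ (u : ℕ → ℕ) (n : ℕ) (w : List ℕ) : Prop := ∀ j (h : j < w.length), u (n + j) = w[j]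

/-- From some position on, `u` is a concatenation of words `σ x`, `x < d`, each used infinitely often. -/
def Blk (d : ℕ) (u : ℕ → ℕ) (σ : ℕ → List ℕ) : Prop :=
  ∃ v pos : ℕ → ℕ, (∀ i, v i < d) ∧ (∀ i, pos (i + 1) = pos i + (σ (v i)).length) ∧
    (∀ i, occ u (pos i) (σ (v i))) ∧ ∀ x < d, ∀ n, ∃ i, n ≤ i ∧ v i = x

/-- A Rauzy path read off from `u`. -/
structure Sys (d : ℕ) (u : ℕ → ℕ) where
  R : ℕ → Rows
  c : ℕ → Bool
  σ : ℕ → ℕ → List ℕ
  P : ℕ → ℕ → ℕ
  S : ℕ → ℕ → ℕ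
  ri : ∀ t, RI d (R t)
  hR : ∀ t, R (t + 1) = step (c t) (R t)
  hσ : ∀ t, σ (t + 1) = stepW (c t) (R t) (σ t)
  hP : ∀ t, P (t + 1) = stepP (c t) (R t) (P t) (S t)
  hS : ∀ t, S (t + 1) = stepS (c t) (R t) (P t) (S t)
  iN : ∀ t, InvN d (R t) (σ t) (P t) (S t)
  iT : ∀ t, InvT (R t) (σ t) (P t)
  iB : ∀ t, InvB (R t) (σ t) (S t)
  blk : ∀ t, Blk d u (σ t)
  hts : ∀ m, ∃ t0, ∀ t, t0 ≤ t → ∀ x < d, m ≤ (σ t x).length

/-- The path from level `t` starts with `g`. -/
def Fol (c : ℕ → Bool) (t : ℕ) (g : List Bool) : Prop := ∀ j (h : j < g.length), c (t + j) = g[j]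

/-- The path of length `m` from level `t`. -/
def pth (c : ℕ → Bool) (t m : ℕ) : List Bool := (List.range m).map fun j => c (t + j)

/-- `u` has a power of period `p ≥ m` and length `p + l` with `P p ≤ Q l + K`. -/
def Pw (u : ℕ → ℕ) (P Q K : ℤ) (m : ℕ) : Prop :=
  ∃ i p l : ℕ, m ≤ p ∧ 0 < p ∧ HasPower u i p (p + l) ∧ P * (p : ℤ) ≤ Q * (l : ℤ) + K

/-- All heights at level `t` are at least `m`. -/
def Sys.high {d : ℕ} {u : ℕ → ℕ} (𝒮 : Sys d u) (t m : ℕ) : Prop := ∀ x < d, m ≤ (𝒮.σ t x).length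

/-- A power with period at least the heights at level `t`. -/
def Sys.fb {d : ℕ} {u : ℕ → ℕ} (𝒮 : Sys d u) (A : Par) (t : ℕ) : Prop := ∀ m, 𝒮.high t m → Pw u A.P A.Q A.K m

/-- Golden vertex followed by the golden loop. -/
def Sys.gold {d : ℕ} {u : ℕ → ℕ} (𝒮 : Sys d u) (A : Par) (t : ℕ) : Prop := canon (𝒮.R t) = A.g0 ∧ Fol 𝒮.c t A.gp

end Pool.Agent.RTX
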