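import Pool.Agent.RTX.FSem
import Pool.Agent.RTX.Sem
import Pool.Agent.RTX.RowA

/-!
# RTX: the fast checker, definitions for the soundness proof
-/

set_option autoImplicit false

namespace Pool.Agent.RTX

/-- All entries are `< 8`. -/
def L8 (l : List ℕ) : Prop := ∀ x ∈ l, x < 8

/-- Packed rows. -/
def pkR (R : Rows) : ℕ := encR R.top 0 <<< 24 + encR R.bot 0

/-- The table `W` holds the words `w x`, `x < d`; garbage in the lowest slot. -/
def TabOK (d n : ℕ) (w : ℕ → List ℕ) (W : ℕ) : Prop :=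
  ∃ g, g ≤ n * 4294967296 ∧ W = g + ∑ x ∈ Finset.range d, encR (w x) 1 * 2 ^ (128 * x + 128) ∧
    ∀ x < d, encR (w x) 1 < 2 ^ 128

/-- Slot of an optional label. -/
def oSlot (s : ℕ) : Option ℕ → ℕ
  | none => 0
  | some c => 2 ^ (128 * (c + 1 + s))

/-- Value in base `2 ^ 128`, lowest digit first. -/
def evB : List ℤ → ℤ
  | [] => 0
  | z :: l => z + 2 ^ 128 * evB l

/-- Packed form. -/
def pk (F : LF) : ℤ := 2 ^ 128 * evB F.p + 2 ^ 1152 * evB F.s + 2 ^ 2176 * F.k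

/-- All the offsets. -/
def offZ : ℤ := evB (List.replicate 18 (2 ^ 127))

/-- `Y` is the packed form `F` with coefficients at most `B`. -/
structure Frm (d : ℕ) (F : LF) (B : ℤ) (Y : ℕ) : Prop where
  ok : F.ok d
  p : ∀ z ∈ F.p, |z| ≤ B
  s : ∀ z ∈ F.s, |z| ≤ B
  k : |F.k| ≤ B
  y : ∃ j : ℤ, |j| ≤ 2 ^ 61 + 2 ^ 25 * B ∧ (Y : ℤ) = offZ + j + pk F

/-- The form of the length of the run; the cuts are used only if `ur`, `ul`. -/
def patN2 (d : ℕ) (R : Rows) (Z : List ℕ) (h : Pat) (ur ul : Bool) : LF :=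
  ⟨opt1 (bif ur then rcut R Z h.i h.k h.l else none) (addW (patNw Z h) (zero d)).p,
    opt1 (bif ul then lcut R Z h.i h.k else none) (addW (patNw Z h) (zero d)).s, (addW (patNw Z h) (zero d)).k⟩

/-- Check of a forbidden window with root `rt` and path `g`; `pt.s` is the level of the window. -/
def Leaf2 (d : ℕ) (P Q K : ℤ) (rt : Rows) (g : List Bool) (pt : Pat) (ur ul : Bool) (ys : List (ℕ × ℤ)) : Prop :=
  patChk d (g.drop pt.s) (runR (g.take pt.s) rt) pt = true ∧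
  bdd K rt ys (pull (g.take pt.s) rt
    (lin Q (patN2 d (runR (g.take pt.s) rt) (patZ d (g.drop pt.s) (runR (g.take pt.s) rt) pt) pt ur ul)
      (-P) (patV d (patZ d (g.drop pt.s) (runR (g.take pt.s) rt) pt) pt))) = true

/-- Every system from the rows `rt` along the reversed path `gr` has a power, or reaches `stop`, or satisfies `gchk`. -/
def Good (A : Par) (stop : List (List ℕ)) (rt : Rows) (gchk : List Bool → Bool) (gr : List Bool) : Prop :=
  ∀ (u : ℕ → ℕ) (𝒮 : Sys A.d u), 𝒮.R 0 = rt → Fol 𝒮.c 0 gr.reverse →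
    𝒮.fb A 0 ∨ (∃ j, 0 < j ∧ memL (canon (𝒮.R j)) stop = true) ∨
      ∃ j, gr.length ≤ j ∧ gchk (pth 𝒮.c 0 j).reverse = true

/-- The ranked roots `π :: rs` are certified. -/
inductive Cfd2 (A : Par) : List (List ℕ) → Prop
  | nil : Cfd2 A []
  | cons (π : List ℕ) (rs : List (List ℕ)) (h : Cfd2 A rs)
      (ht : Good A rs (rows0 A.d π) (gold1 A (rows0 A.d π)) []) : Cfd2 A (π :: rs)

/-- From the golden loop one can only continue along the golden loop. -/
def Sec (A : Par) : Prop :=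
  ∀ (u : ℕ → ℕ) (𝒮 : Sys A.d u), 𝒮.gold A 0 → 𝒮.fb A 0 ∨ 𝒮.gold A A.gp.length

/-- Bounds for the parameters. -/
structure ParOK (A : Par) : Prop where
  d2 : 2 ≤ A.d
  d8 : A.d ≤ 8
  P0 : 0 ≤ A.P
  P1 : A.P < 1048576
  Q0 : 0 ≤ A.Q
  Q1 : A.Q < 1048576
  K0 : 0 ≤ A.K

end Pool.Agent.RTX
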