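import Pool.Agent.RTX.FEncB

/-!
# RTX/FRun: the run and its cuts

`Z` is a word of length `L`, the run is the letters from `i = L - (r + (k + l))`, `l` of them, equal to the `l` letters from `i + k`.  PLAN (`l5_ok`): `l5_eq`, `encW_le`,
`encR_shr` with `r + k`, resp. `r`, and `encR_mod` with `l`: `encR ((Z.drop i).take l) 0 = encR ((Z.drop (i + k)).take l) 0`, then `encR_inj`.  `cutF_ok`: `cutF_eq`; the
two digits at positions `q / 4 + 1`, `q / 4` from the right are `x`, `y` (`(m >>> (3 * t)) % 64 = 8 * x + y` with `x, y < 8` gives both digits;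
`encR_dig`), so `row = p ++ x :: y :: s`, hence `nxt x row = some y` (nodup: `x ∉ p`) and not `nxt y row = some x`; unfold `cut`, `isNxt`.
-/

set_option autoImplicit false

namespace Pool.Agent.RTX

private theorem FRun_win {Z : List ℕ} (h8 : L8 Z) {n l : ℕ} (h : n + l ≤ Z.length) :
    (encR Z 1 >>> (3 * n)) % (1 <<< (3 * l)) = encR ((Z.drop (Z.length - (n + l))).take l) 0 := by
  have h1 : L8 (Z.take (Z.length - n)) := fun x hx => h8 x (List.mem_of_mem_take hx)
  have hlen : (Z.take (Z.length - n)).length = Z.length - n := by
    rw [List.length_take]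
    omega
  rw [encR_shr h8 1 (by omega : n ≤ Z.length), encR_mod h1 1 (by rw [hlen]; omega), hlen,
    List.drop_take]
  have e1 : Z.length - n - l = Z.length - (n + l) := by omega
  have e2 : Z.length - n - (Z.length - (n + l)) = l := by omega
  rw [e1, e2]

private theorem FRun_beq {x y : ℕ} (h : x ≠ y) : Nat.beq x y = false := by
  rw [← Bool.not_eq_true]
  exact fun e => h (Nat.eq_of_beq_eq_true e)

private theorem FRun_nxt {x y : ℕ} (v : List ℕ) : ∀ {u : List ℕ}, x ∉ u →
    nxt x (u ++ x :: y :: v) = some y
  | [], _ => by simp [nxt]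
  | z :: u, h => by
    have hz : z ≠ x := fun e => h (e ▸ List.mem_cons_self)
    have hu : x ∉ u := fun e => h (List.mem_cons_of_mem _ e)
    have ih := FRun_nxt (y := y) v hu
    have hb : Nat.beq z x = false := FRun_beq hz
    cases u with
    | nil =>
      show nxt x (z :: x :: y :: v) = some y
      unfold nxt
      rw [hb, cond_false]
      exact ih
    | cons w u =>
      show nxt x (z :: w :: (u ++ x :: y :: v)) = some y
      unfold nxt
      rw [hb, cond_false]
      exact ih

private theorem FRun_split : ∀ {x y : ℕ} {l : List ℕ}, nxt x l = some y →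
    ∃ u v, l = u ++ x :: y :: v
  | x, y, [], h => by simp [nxt] at h
  | x, y, [_], h => by simp [nxt] at h
  | x, y, z :: w :: l, h => by
    unfold nxt at h
    by_cases hz : z = x
    · subst hz
      have hb : Nat.beq z z = true := Nat.beq_refl z
      rw [hb, cond_true] at h
      have h2 : w = y := by injection h
      subst h2
      exact ⟨[], l, rfl⟩
    · have hb : Nat.beq z x = false := FRun_beq hz
      rw [hb, cond_false] at h
      obtain ⟨u, v, hv⟩ := FRun_split h
      exact ⟨z :: u, v, by rw [hv]; rfl⟩

private theorem FRun_two {row : List ℕ} (hn : row.Nodup) (h8 : L8 row) {t x y : ℕ}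
    (ht : t + 2 ≤ row.length) (hx : x < 8) (hy : y < 8)
    (h : (encR row 0 >>> (3 * t)) % 64 = 8 * x + y) :
    nxt x row = some y ∧ nxt y row ≠ some x := by
  have h1 := encR_dig h8 0 (n := t) (by omega)
  have h2 := encR_dig h8 0 (n := t + 1) (by omega)
  have e2 : encR row 0 >>> (3 * (t + 1)) = (encR row 0 >>> (3 * t)) / 8 := by
    rw [Nat.shiftRight_eq_div_pow, Nat.shiftRight_eq_div_pow, Nat.div_div_eq_div_mul,
      show 3 * (t + 1) = 3 * t + 3 by ring, pow_add]
    norm_num
  rw [e2] at h2
  generalize encR row 0 >>> (3 * t) = m at h h1 h2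
  have h3 : m % 8 = y := by omega
  have h4 : m / 8 % 8 = x := by omega
  rw [h3] at h1
  rw [h4] at h2
  obtain ⟨i, hi⟩ : ∃ i, i = row.length - 2 - t := ⟨_, rfl⟩
  have i1 : row.length - 1 - t = i + 1 := by omega
  have i2 : row.length - 1 - (t + 1) = i := by omega
  rw [i1] at h1
  rw [i2] at h2
  have hl1 : i + 1 < row.length := by omega
  have hl2 : i < row.length := by omega
  rw [List.getD_eq_getElem _ _ hl1] at h1
  rw [List.getD_eq_getElem _ _ hl2] at h2
  have hrow : row = row.take i ++ x :: y :: row.drop (i + 2) := by
    conv_lhs => rw [← List.take_append_drop i row, List.drop_eq_getElem_cons hl2,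
      List.drop_eq_getElem_cons hl1]
    rw [← h1, ← h2]
  have hxu : x ∉ row.take i := by
    rw [hrow, List.nodup_append] at hn
    intro hx
    exact hn.2.2 x hx x List.mem_cons_self rfl
  constructor
  · rw [hrow]
    exact FRun_nxt _ hxu
  · intro hcon
    obtain ⟨u, v, hv⟩ := FRun_split hcon
    have hlen : u.length + 1 < row.length := by
      rw [hv]
      simp
    have g1 : row[u.length]'(by omega) = y := by
      simp [hv]
    have g2 : row[u.length + 1]'hlen = x := by
      simp [hv]
    have j1 : i + 1 = u.length := (List.Nodup.getElem_inj_iff hn).1 (h1.symm.trans g1.symm)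
    have j2 : i = u.length + 1 := (List.Nodup.getElem_inj_iff hn).1 (h2.symm.trans g2.symm)
    omega

private theorem FRun_isNxt {x y : ℕ} {row : List ℕ} : isNxt x y row = true ↔ nxt x row = some y := by
  unfold isNxt
  cases h : nxt x row with
  | none => simp
  | some w => simp

theorem l5_ok {D : RF} {st : List ℕ} {c RS q : ℕ} {Z : List ℕ} (h8 : L8 Z) {r k l m : ℕ}
    (h : l5 D st c RS q (encR Z 1) (3 * r) k l = m + 1) :
    0 < k ∧ r + (k + l) ≤ Z.length ∧
      (Z.drop (Z.length - (r + (k + l)))).take l = (Z.drop (Z.length - (r + (k + l)) + k)).take l ∧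
      l6 D st c RS q (encR Z 1) (3 * r) k l = m + 1 := by 
  rw [l5_eq] at h
  by_cases hc : 1 ≤ k ∧ 1 <<< (3 * r + 3 * (k + l)) ≤ encR Z 1 ∧
      (encR Z 1 >>> (3 * r + 3 * k)) % (1 <<< (3 * l)) = (encR Z 1 >>> (3 * r)) % (1 <<< (3 * l))
  · rw [if_pos hc] at h
    obtain ⟨h1, h2, h3⟩ := hc
    rw [show 3 * r + 3 * (k + l) = 3 * (r + (k + l)) by ring, encW_le h8] at h2
    rw [show 3 * r + 3 * k = 3 * (r + k) by ring, FRun_win h8 (by omega : r + k + l ≤ Z.length),
      FRun_win h8 (by omega : r + l ≤ Z.length)] at h3
    refine ⟨h1, h2, ?_, h⟩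
    have e1 : Z.length - (r + k + l) = Z.length - (r + (k + l)) := by omega
    have e2 : Z.length - (r + l) = Z.length - (r + (k + l)) + k := by omega
    rw [e1, e2] at h3
    refine encR_inj ?_ ?_ ?_ h3
    · exact fun x hx => h8 x (List.mem_of_mem_drop (List.mem_of_mem_take hx))
    · exact fun x hx => h8 x (List.mem_of_mem_drop (List.mem_of_mem_take hx))
    · rw [List.length_take, List.length_take, List.length_drop, List.length_drop]
      omega
  · rw [if_neg hc] at h
    exact absurd h (by omega)

theorem cutF_ok {d : ℕ} {row : List ℕ} (hl : row.length = d) (hn : row.Nodup) (h8 : L8 row) {e x y q c : ℕ}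
    (hx : x < 8) (hy : y < 8) (h : cutF d (encR row 0) e x y q = c + 1) : cut row e x y = some c := by 
  rw [cutF_eq] at h
  by_cases h1 : q / 4 + 2 ≤ d
  · rw [if_pos h1] at h
    by_cases h2 : q % 4 = 1
    · rw [if_pos h2] at h
      by_cases h3 : x = e
      · rw [if_pos h3] at h
        exact absurd h (by omega)
      · rw [if_neg h3] at h
        by_cases h4 : (encR row 0 >>> (3 * (q / 4))) % 64 = 8 * x + y
        · rw [if_pos h4] at h
          have h5 := FRun_two hn h8 (by omega) hx hy h4
          have h6 : isNxt x y row = true := FRun_isNxt.2 h5.1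
          have hb : Nat.beq x e = false := FRun_beq h3
          unfold cut
          rw [h6, hb]
          show some y = some c
          congr 1
          omega
        · rw [if_neg h4] at h
          exact absurd h (by omega)
    · rw [if_neg h2] at h
      by_cases h2' : q % 4 = 2
      · rw [if_pos h2'] at h
        by_cases h3 : y = e
        · rw [if_pos h3] at h
          exact absurd h (by omega)
        · rw [if_neg h3] at h
          by_cases h4 : (encR row 0 >>> (3 * (q / 4))) % 64 = 8 * y + x
          · rw [if_pos h4] at h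
            have h5 := FRun_two hn h8 (by omega) hy hx h4
            have h6 : isNxt y x row = true := FRun_isNxt.2 h5.1
            have h7 : isNxt x y row = false := by
              rw [← Bool.not_eq_true]
              exact fun e => h5.2 (FRun_isNxt.1 e)
            have hb : Nat.beq y e = false := FRun_beq h3
            unfold cut
            rw [h6, h7, hb]
            show some x = some c
            congr 1
            omega
          · rw [if_neg h4] at h
            exact absurd h (by omega)
      · rw [if_neg h2'] at h
        exact absurd h (by omega)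
  · rw [if_neg h1] at h
    exact absurd h (by omega)

end Pool.Agent.RTX
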