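import Pool.Agent.RTX.FDefs
import Mathlib

/-!
# RTX: the fast checker, equations

Every definition of `FDefs` in ordinary notation.
-/

set_option autoImplicit false

namespace Pool.Agent.RTX

private theorem ble_t {a b : ℕ} (h : a ≤ b) : Nat.ble a b = true := by rw [Nat.ble_eq]; exact h

private theorem ble_f {a b : ℕ} (h : ¬ a ≤ b) : Nat.ble a b = false := by
  rw [Bool.eq_false_iff]
  intro h1
  rw [Nat.ble_eq] at h1
  exact h h1

private theorem beq_t {a b : ℕ} (h : a = b) : Nat.beq a b = true := by rw [Nat.beq_eq]; exact h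

private theorem beq_f {a b : ℕ} (h : ¬ a = b) : Nat.beq a b = false := by
  rw [Bool.eq_false_iff]
  intro h1
  rw [Nat.beq_eq] at h1
  exact h h1

theorem fz_eq {α : Type} (n : ℕ) (f : ℕ → α) : fz n f = f n := by cases n <;> rfl

theorem ifB_eq {α : Type} (b : Bool) (x y : α) : ifB b x y = if b = true then x else y := by cases b <;> rfl

theorem bndN_zero (f : ℕ → ℕ) : bndN 0 f = 0 := rfl

theorem bndN_succ (m : ℕ) (f : ℕ → ℕ) : bndN (m + 1) f = f m := rfl

theorem catW_eq (m n : ℕ) : catW m n = (m - 1) <<< Nat.log2 n + n := rfl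

theorem slot_eq (W x : ℕ) : slot W x = (W >>> (128 * x + 128)) % 340282366920938463463374607431768211456 := rfl

theorem updW_eq (W l o n : ℕ) : updW W l o n = if 340282366920938463463374607431768211456 ≤ n then 0
    else W + n % 4294967291 + (n - o) <<< (128 * l + 128) := by
  unfold updW
  rw [ifB_eq]
  simp only [Nat.ble_eq]
  rfl

theorem aX_eq (X : ℕ) : aX X = (X >>> 25) % 8 := rfl

theorem bX_eq (X : ℕ) : bX X = (X >>> 1) % 8 := rfl

theorem stW_eq (X W : ℕ) : stW X W = if W = 0 then 0 else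
    if X % 2 = 1 then updW W (aX X) (slot W (aX X)) (catW (slot W (bX X)) (slot W (aX X)))
    else updW W (bX X) (slot W (bX X)) (catW (slot W (bX X)) (slot W (aX X))) := by
  unfold stW stW1 stW2
  simp only [ifB_eq, fz_eq, Nat.beq_eq]
  rfl

theorem tabW_zero (w0 : ℕ) (st : List ℕ) : tabW w0 0 st = w0 := rfl

theorem tabW_nil (w0 n : ℕ) : tabW w0 (n + 1) [] = 0 := rfl

theorem tabW_cons (w0 n X : ℕ) (st : List ℕ) : tabW w0 (n + 1) (X :: st) = stW X (tabW w0 n st) := by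
  rw [← fz_eq (tabW w0 n st) (stW X)]
  rfl

theorem iniW_zero : iniW 0 = 0 := rfl

theorem iniW_succ (d : ℕ) : iniW (d + 1) = iniW d + (8 + d) <<< (128 * d + 128) := rfl

theorem drpF_zero (st : List ℕ) : drpF 0 st = st := rfl

theorem drpF_nil (n : ℕ) : drpF (n + 1) [] = [] := rfl

theorem drpF_cons (n X : ℕ) (st : List ℕ) : drpF (n + 1) (X :: st) = drpF n st := rfl

theorem rowF_zero (st : List ℕ) (r : ℕ) : rowF 0 st r = r := rfl

theorem rowF_nil (n r : ℕ) : rowF (n + 1) [] r = 0 := rfl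

theorem rowF_cons (n X : ℕ) (st : List ℕ) (r : ℕ) :
    rowF (n + 1) (X :: st) r = rowF n st ((X >>> 1) % 281474976710656) := rfl

theorem okF_eq (p3 s3 pre suf w : ℕ) : okF p3 s3 pre suf w = true ↔
    w >>> (Nat.log2 w - p3) = pre ∧ 1 <<< s3 ≤ w ∧ w % (1 <<< s3) = suf := by
  unfold okF
  simp only [ifB_eq]
  split_ifs with h1 h2
  · rw [Nat.beq_eq] at h1
    rw [Nat.ble_eq] at h2
    rw [Nat.beq_eq]
    exact ⟨fun h => ⟨h1, h2, h⟩, fun h => h.2.2⟩
  · rw [Nat.ble_eq] at h2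
    exact ⟨fun h => absurd h (by simp), fun h => absurd h.2.1 h2⟩
  · rw [Nat.beq_eq] at h1
    exact ⟨fun h => absurd h (by simp), fun h => absurd h.1 h1⟩

theorem allF_zero (W p3 s3 pre suf : ℕ) : allF W p3 s3 pre suf 0 = true := rfl

theorem allF_succ (W p3 s3 pre suf n : ℕ) : allF W p3 s3 pre suf (n + 1) = true ↔
    okF p3 s3 pre suf (slot W n) = true ∧ allF W p3 s3 pre suf n = true := by
  have h : allF W p3 s3 pre suf (n + 1) = ifB (okF p3 s3 pre suf (slot W n)) (allF W p3 s3 pre suf n) false := by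
    rw [← fz_eq (slot W n) (okF p3 s3 pre suf)]
    rfl
  rw [h, ifB_eq]
  split_ifs with h1 <;> simp [h1]

theorem midF_eq (d W T B kind : ℕ) : midF d W T B kind =
    if d ≤ kind then catW (slot W (B % 8)) (slot W (T % 8)) else slot W kind := by
  unfold midF
  rw [ifB_eq]
  simp only [Nat.ble_eq]
  rfl

theorem zF_eq (d W T B kind p3 s3 : ℕ) : zF d W T B kind p3 s3 =
    if p3 + s3 = 0 then midF d W T B kind else
    if allF W p3 s3 (slot W 0 >>> (Nat.log2 (slot W 0) - p3)) (slot W 0 % (1 <<< s3)) d = true then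
      catW (catW (1 <<< s3 + slot W 0 % (1 <<< s3)) (midF d W T B kind)) (slot W 0 >>> (Nat.log2 (slot W 0) - p3))
    else 0 := by
  unfold zF zF1 zF2 zF3
  simp only [ifB_eq, fz_eq, Nat.beq_eq]
  rfl

theorem hF_eq (x : ℕ) : hF x = (1 <<< 128 + 1 <<< 1152) <<< (128 * x) := rfl

theorem gF'_eq (x : ℕ) : gF' x = hF x + (1 <<< 2176 + 11 ^ x) := rfl

theorem sumF_zero (z r : ℕ) : sumF 0 z r = r := rfl

theorem sumF_succ (n z r : ℕ) : sumF (n + 1) z r = sumF n (z / 8) (r + hF (z % 8)) := by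
  rw [← fz_eq (z / 8) (fun z' => sumF n z' (r + hF (z % 8))), ← fz_eq (r + hF (z % 8)) (fun r' => fz (z / 8) fun z' => sumF n z' r')]
  have h : sumF (n + 1) z r = fz (z / 8) fun z' => fz (r + hF (z % 8)) (sumF n z') := rfl
  rw [h]
  simp only [fz_eq]

theorem pl1_eq (X Y : ℕ) : pl1 X Y =
    Y + (Y >>> ((X >>> 64) % 4096)) % 340282366920938463463374607431768211456 * (X >>> 76) - (X >>> 76) <<< 127 := rfl

theorem plF_nil (Y : ℕ) : plF [] Y = Y := rfl

theorem plF_cons (X : ℕ) (st : List ℕ) (Y : ℕ) : plF (X :: st) Y = plF st (pl1 X Y) := by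
  rw [← fz_eq (pl1 X Y) (plF st)]
  rfl

theorem mul1_eq (u v y Y : ℕ) : mul1 u v y Y =
    if y % 2 = 1 then Y + y / 2 * v - y / 2 * (u + 1 <<< 2176) else Y + y / 2 * u - y / 2 * v := by
  unfold mul1
  rw [ifB_eq]
  simp only [Nat.beq_eq]
  rfl

theorem mulsF_nil (f : ℕ → ℕ → ℕ) (c Y : ℕ) : mulsF f [] c Y = f c Y := rfl

theorem mulsF_cons (f : ℕ → ℕ → ℕ) (p : ℕ × ℕ) (l : List (ℕ × ℕ)) (c Y : ℕ) :
    mulsF f (p :: l) c Y = mulsF f l (c / 1048576) (mul1 p.1 p.2 (c % 1048576) Y) := by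
  have h : mulsF f (p :: l) c Y = fz (c / 1048576) fun c' => fz (mul1 p.1 p.2 (c % 1048576) Y) (mulsF f l c') := rfl
  rw [h]
  simp only [fz_eq]

theorem cutF_eq (d T e x y q : ℕ) : cutF d T e x y q =
    if q / 4 + 2 ≤ d then
      if q % 4 = 1 then
        if x = e then 0 else if (T >>> (3 * (q / 4))) % 64 = 8 * x + y then y + 1 else 0
      else if q % 4 = 2 then
        if y = e then 0 else if (T >>> (3 * (q / 4))) % 64 = 8 * y + x then x + 1 else 0
      else 0
    else 0 := by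
  unfold cutF
  simp only [ifB_eq, Nat.beq_eq, Nat.ble_eq]
  rfl

theorem ctr_eq (v s : ℕ) : ctr v s = (v - (v - 1)) <<< (128 * (v + s)) := rfl

theorem l9_eq (D : RF) (c' Y : ℕ) : l9 D c' Y =
    if Y &&& D.k = D.k then
      if 170141183460469231731687303715884105728 ≤ Y >>> 2176 + D.K then c' + 1 else 0
    else 0 := by
  unfold l9
  simp only [ifB_eq, Nat.beq_eq, Nat.ble_eq]
  rfl

theorem l8_eq (D : RF) (c Y : ℕ) : l8 D c Y = mulsF (l9 D) D.r c Y := rfl

theorem l7_eq (D : RF) (st : List ℕ) (c Z N V : ℕ) : l7 D st c Z N V =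
    l8 D c (plF st (D.o + Z % 2305843009213693951 + D.Q * N - D.P * V)) := by
  unfold l7
  rw [fz_eq]
  rfl

theorem l6_eq (D : RF) (st : List ℕ) (c RS q Z r3 k l : ℕ) : l6 D st c RS q Z r3 k l =
    l7 D st c Z
      (sumF l (Z >>> (r3 + 3 * k))
        (l <<< 2176 +
          ((if 3 ≤ r3 then
              ctr (cutF D.d (RS >>> 24) (RS % 8) ((Z >>> (r3 + 3 * k - 3)) % 8) ((Z >>> (r3 - 3)) % 8)
                (q / 8589934592 % 32)) 0
            else 0) +
          (if 1 <<< (r3 + 3 * (k + l) + 3) ≤ Z then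
              ctr (cutF D.d (RS % 16777216) ((RS >>> 24) % 8) ((Z >>> (r3 + 3 * (k + l))) % 8)
                ((Z >>> (r3 + 3 * l)) % 8) (q / 274877906944 % 32)) 8
            else 0))))
      (sumF k (Z >>> (r3 + 3 * l)) (k <<< 2176)) := by
  unfold l6
  simp only [ifB_eq, fz_eq, Nat.ble_eq]
  rfl

theorem l5_eq (D : RF) (st : List ℕ) (c RS q Z r3 k l : ℕ) : l5 D st c RS q Z r3 k l =
    if 1 ≤ k ∧ 1 <<< (r3 + 3 * (k + l)) ≤ Z ∧ (Z >>> (r3 + 3 * k)) % (1 <<< (3 * l)) = (Z >>> r3) % (1 <<< (3 * l)) then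
      l6 D st c RS q Z r3 k l
    else 0 := by
  unfold l5
  simp only [ifB_eq]
  by_cases h1 : 1 ≤ k
  · by_cases h2 : 1 <<< (r3 + 3 * (k + l)) ≤ Z
    · by_cases h3 : (Z >>> (r3 + 3 * k)) % (1 <<< (3 * l)) = (Z >>> r3) % (1 <<< (3 * l))
      · rw [if_pos (⟨h1, h2, h3⟩ : 1 ≤ k ∧ _ ∧ _)]
        have e1 : Nat.ble 1 k = true := ble_t h1
        have e2 : Nat.ble (Nat.shiftLeft 1 (Nat.add r3 (Nat.mul 3 (Nat.add k l)))) Z = true := ble_t h2
        have e3 : Nat.beq (Nat.mod (Nat.shiftRight Z (Nat.add r3 (Nat.mul 3 k))) (Nat.shiftLeft 1 (Nat.mul 3 l)))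
          (Nat.mod (Nat.shiftRight Z r3) (Nat.shiftLeft 1 (Nat.mul 3 l))) = true := beq_t h3
        erw [e1, e2, e3]
        simp
      · rw [if_neg (fun h : 1 ≤ k ∧ _ ∧ _ => h3 h.2.2)]
        have e1 : Nat.ble 1 k = true := ble_t h1
        have e2 : Nat.ble (Nat.shiftLeft 1 (Nat.add r3 (Nat.mul 3 (Nat.add k l)))) Z = true := ble_t h2
        have e3 : Nat.beq (Nat.mod (Nat.shiftRight Z (Nat.add r3 (Nat.mul 3 k))) (Nat.shiftLeft 1 (Nat.mul 3 l)))
          (Nat.mod (Nat.shiftRight Z r3) (Nat.shiftLeft 1 (Nat.mul 3 l))) = false := beq_f h3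
        erw [e1, e2, e3]
        simp
    · rw [if_neg (fun h : 1 ≤ k ∧ _ ∧ _ => h2 h.2.1)]
      have e1 : Nat.ble 1 k = true := ble_t h1
      have e2 : Nat.ble (Nat.shiftLeft 1 (Nat.add r3 (Nat.mul 3 (Nat.add k l)))) Z = false := ble_f h2
      erw [e1, e2]
      simp
  · rw [if_neg (fun h : 1 ≤ k ∧ _ ∧ _ => h1 h.1)]
    have e1 : Nat.ble 1 k = false := ble_f h1
    erw [e1]
    simp

/-- Code of the run. -/
theorem leafF_eq (D : RF) (st : List ℕ) (T B c : ℕ) : leafF D st T B c =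
    l5 D (drpF (c % 8796093022208 % 32) st) (c / 8796093022208)
      (rowF (c % 8796093022208 % 32) st (T <<< 24 + B)) (c % 8796093022208)
      (zF D.d (tabW D.w (c % 8796093022208 % 32) st) T B (c % 8796093022208 / 32 % 8)
        (3 * (c % 8796093022208 / 256 % 32)) (3 * (c % 8796093022208 / 8192 % 32)))
      (3 * (c % 8796093022208 / 262144 % 32)) (c % 8796093022208 / 8388608 % 32)
      (c % 8796093022208 / 268435456 % 32) := by
  unfold leafF l0 l1 l2 l3 l4
  simp only [fz_eq]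
  rfl

theorem memF_nil (x : ℕ) : memF x [] = false := rfl

theorem memF_cons (x y : ℕ) (l : List ℕ) : memF x (y :: l) = true ↔ x = y ∨ memF x l = true := by
  have h : memF x (y :: l) = ifB (Nat.beq x y) true (memF x l) := rfl
  rw [h, ifB_eq]
  simp only [Nat.beq_eq]
  split_ifs with h1 <;> simp [h1]

theorem posR_zero (x T : ℕ) : posR x 0 T = 0 := rfl

theorem posR_succ (x n T : ℕ) : posR x (n + 1) T = if T % 8 = x then 0 else posR x n (T / 8) + 1 := by
  have h : posR x (n + 1) T = ifB (Nat.beq (T % 8) x) 0 (posR x n (T / 8) + 1) := rfl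
  rw [h, ifB_eq]
  simp only [Nat.beq_eq]

theorem canF_zero (d T B : ℕ) : canF d T 0 B = 0 := rfl

theorem canF_succ (d T n B : ℕ) : canF d T (n + 1) B = 8 * canF d T n (B / 8) + (d - 1 - posR (B % 8) 8 T) := rfl

theorem typF_nil : typF [] = [] := rfl

theorem typF_cons (X : ℕ) (st : List ℕ) : typF (X :: st) = Nat.beq (X % 2) 1 :: typF st := rfl

theorem insF_eq (d x j B : ℕ) (f : ℕ → ℕ) : insF d x j B f =
    if j + 2 ≤ d ∧ (B >>> (3 * (j + 1))) % 8 = x then
      f ((8 * (B >>> (3 * (j + 1))) + B % 8) <<< (3 * j) + B / 8 % (1 <<< (3 * j)))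
    else 0 := by
  unfold insF
  simp only [ifB_eq, fz_eq]
  by_cases h1 : j + 2 ≤ d
  · have e1 : Nat.ble (Nat.add j 2) d = true := ble_t h1
    by_cases h2 : (B >>> (3 * (j + 1))) % 8 = x
    · have e2 : Nat.beq (Nat.mod (Nat.shiftRight B (Nat.mul 3 (Nat.add j 1))) 8) x = true := beq_t h2
      rw [if_pos (⟨h1, h2⟩ : _ ∧ _)]
      erw [e1, e2]
      simp only [if_true]
      rfl
    · have e2 : Nat.beq (Nat.mod (Nat.shiftRight B (Nat.mul 3 (Nat.add j 1))) 8) x = false := beq_f h2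
      rw [if_neg (fun h : _ ∧ _ => h2 h.2)]
      erw [e1, e2]
      simp
  · have e1 : Nat.ble (Nat.add j 2) d = false := ble_f h1
    rw [if_neg (fun h : _ ∧ _ => h1 h.1)]
    erw [e1]
    simp

theorem entF_eq (T B c h s : ℕ) : entF T B c h s = (h <<< 12 + 128 * s) <<< 64 + (2 * (T <<< 24 + B) + c) := rfl

theorem nd2_eq (D : RF) (ih : List ℕ → ℕ → ℕ → ℕ → ℕ) (st : List ℕ) (T B j c : ℕ) : nd2 D ih st T B j c =
    insF D.d (B % 8) j T fun T' => ih (entF T B 1 (gF' (B % 8)) (T % 8 + 1) :: st) T' B c := by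
  unfold nd2
  rw [fz_eq]
  rfl

theorem nd1_eq (D : RF) (ih : List ℕ → ℕ → ℕ → ℕ → ℕ) (st : List ℕ) (T B j c : ℕ) : nd1 D ih st T B j c =
    insF D.d (T % 8) j B fun B' => ih (entF T B 0 (gF' (T % 8)) (B % 8 + 9) :: st) T B' c := by
  unfold nd1
  rw [fz_eq]
  rfl

theorem nd3_zero_nil (D : RF) (stop : List ℕ) (gchk : List Bool → Bool) (T B c : ℕ) :
    nd3 D stop gchk [] T B c 0 = 0 := rfl

theorem nd3_zero_cons (D : RF) (stop : List ℕ) (gchk : List Bool → Bool) (X : ℕ) (st : List ℕ) (T B c : ℕ) :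
    nd3 D stop gchk (X :: st) T B c 0 = if memF (canF D.d T D.d B) stop = true then c + 1 else 0 := by
  have h : nd3 D stop gchk (X :: st) T B c 0 = ifB (memF (canF D.d T D.d B) stop) (c + 1) 0 := rfl
  rw [h, ifB_eq]

theorem nd3_succ (D : RF) (stop : List ℕ) (gchk : List Bool → Bool) (st : List ℕ) (T B c t : ℕ) :
    nd3 D stop gchk st T B c (t + 1) = if gchk (typF st) = true then c + 1 else 0 := by
  have h : nd3 D stop gchk st T B c (t + 1) = ifB (gchk (typF st)) (c + 1) 0 := rfl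
  rw [h, ifB_eq]

theorem runF_zero (D : RF) (stop : List ℕ) (gchk : List Bool → Bool) (st : List ℕ) (T B c : ℕ) :
    runF D stop gchk 0 st T B c = 0 := rfl

theorem runF_succ (D : RF) (stop : List ℕ) (gchk : List Bool → Bool) (n : ℕ) (st : List ℕ) (T B c : ℕ) :
    runF D stop gchk (n + 1) st T B c =
      match c % 4 with
      | 0 => bndN (nd1 D (runF D stop gchk n) st T B (c / 4 % 8) (c / 4 / 64))
          (nd2 D (runF D stop gchk n) st T B (c / 4 / 8 % 8))
      | 1 => leafF D st T B (c / 4)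
      | t + 2 => nd3 D stop gchk st T B (c / 4) t := by
  have h : runF D stop gchk (n + 1) st T B c = fz (c / 4) fun c' =>
      Nat.rec (motive := fun _ => ℕ)
        (bndN (nd1 D (runF D stop gchk n) st T B (c' % 8) (c' / 64))
          (nd2 D (runF D stop gchk n) st T B (c' / 8 % 8)))
        (fun t _ => Nat.rec (motive := fun _ => ℕ) (leafF D st T B c')
          (fun t' _ => nd3 D stop gchk st T B c' t') t)
        (c % 4) := rfl
  rw [h, fz_eq]
  generalize c % 4 = t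
  match t with
  | 0 => rfl
  | 1 => rfl
  | t + 2 => rfl

theorem mskF_zero (h : ℕ) : mskF 0 h = 0 := rfl

theorem mskF_succ (d h : ℕ) : mskF (d + 1) h = mskF d h + (if d = 0 then 0 else 1 <<< (128 * d + 255)) +
    (if d = h then 0 else 1 <<< (128 * d + 1279)) := by
  have e : mskF (d + 1) h = mskF d h + ifB (Nat.beq d 0) 0 (1 <<< (128 * d + 255)) +
    ifB (Nat.beq d h) 0 (1 <<< (128 * d + 1279)) := rfl
  rw [e, ifB_eq, ifB_eq]
  simp only [Nat.beq_eq]

private theorem frc_eq_aux (f : List ℕ → ℕ) (l m : List ℕ) : frc f l m = f (l.reverse ++ m) := by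
  induction l generalizing m with
  | nil => rfl
  | cons x l ih =>
    have h : frc f (x :: l) m = fz x fun x' => frc f l (x' :: m) := rfl
    rw [h, fz_eq, ih]
    simp

theorem frc_eq (f : List ℕ → ℕ) (l : List ℕ) : frc f l.reverse [] = f l := by
  rw [frc_eq_aux]
  simp

private theorem frcP_eq_aux (f : List (ℕ × ℕ) → ℕ) (l m : List (ℕ × ℕ)) : frcP f l m = f (l.reverse ++ m) := by
  induction l generalizing m with
  | nil => rfl
  | cons x l ih =>
    have h : frcP f (x :: l) m = fz x.1 fun a => fz x.2 fun b => frcP f l ((a, b) :: m) := rfl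
    rw [h, fz_eq, fz_eq, ih]
    simp

theorem frcP_eq (f : List (ℕ × ℕ) → ℕ) (l : List (ℕ × ℕ)) : frcP f l.reverse [] = f l := by
  rw [frcP_eq_aux]
  simp

theorem mkD_eq (A : Par) (π : List ℕ) (f : RF → ℕ) : mkD A π f = f (mkRF A π) := by
  unfold mkD mkRF
  simp only [fz_eq, frcP_eq]

theorem fastOK_eq (A : Par) (codes : List ℕ) (gchk : List Bool → Bool) (π : List ℕ) (gr : List Bool) (c : ℕ) :
    fastOK A codes gchk π gr c = true ↔
      runF (mkRF A π) codes gchk (64 - gr.length) (stkF (rows0 A.d π) gr)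
        (encR (runR gr.reverse (rows0 A.d π)).top 0) (encR (runR gr.reverse (rows0 A.d π)).bot 0) c = 1 := by
  unfold fastOK
  rw [Nat.beq_eq, mkD_eq, frc_eq]
  simp only [fz_eq]

end Pool.Agent.RTX
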