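import Pool.Agent.RTX.FEncB

/-!
# RTX/FStk: the packed stack
-/

set_option autoImplicit false

namespace Pool.Agent.RTX

theorem entF_spec {T B c h s : ℕ} (hT : T < 16777216) (hB : B < 16777216) (hc : c < 2) (hs : s < 32) :
    entF T B c h s % 2 = c ∧ aX (entF T B c h s) = T % 8 ∧ bX (entF T B c h s) = B % 8 ∧
      (entF T B c h s >>> 1) % 281474976710656 = T <<< 24 + B ∧ (entF T B c h s >>> 64) % 4096 = 128 * s ∧
      entF T B c h s >>> 76 = h := by
  have key : entF T B c h s =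
      (h * 4096 + 128 * s) * 18446744073709551616 + (2 * (T * 16777216 + B) + c) := by
    rw [entF_eq, Nat.shiftLeft_eq, Nat.shiftLeft_eq, Nat.shiftLeft_eq]
  have e1 : ∀ x : ℕ, x >>> 25 = x / 33554432 := fun x => by rw [Nat.shiftRight_eq_div_pow]
  have e2 : ∀ x : ℕ, x >>> 1 = x / 2 := fun x => by rw [Nat.shiftRight_eq_div_pow]
  have e3 : ∀ x : ℕ, x >>> 64 = x / 18446744073709551616 := fun x => by
    rw [Nat.shiftRight_eq_div_pow]
  have e4 : ∀ x : ℕ, x >>> 76 = x / 75557863725914323419136 := fun x => by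
    rw [Nat.shiftRight_eq_div_pow]
  have e5 : T <<< 24 = T * 16777216 := by rw [Nat.shiftLeft_eq]
  rw [aX_eq, bX_eq, e1, e2, e3, e4, e5, key]
  refine ⟨?_, ?_, ?_, ?_, ?_, ?_⟩ <;> omega

theorem ri_l8 {d : ℕ} (hd : d ≤ 8) {R : Rows} (h : RI d R) : L8 R.top ∧ L8 R.bot := by
  refine ⟨fun x hx => ?_, fun x hx => ?_⟩
  · have := (ri_mem_top h x).1 hx
    omega
  · have := (ri_mem_bot h x).1 hx
    omega

theorem enc24 {d : ℕ} (hd : d ≤ 8) {R : Rows} (h : RI d R) :
    encR R.top 0 < 16777216 ∧ encR R.bot 0 < 16777216 := by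
  obtain ⟨h1, h2⟩ := ri_l8 hd h
  obtain ⟨h3, h4⟩ := ri_len h
  have h5 : 8 ^ d ≤ 8 ^ 8 := Nat.pow_le_pow_right (by norm_num) hd
  have h6 := encR_lt h1
  have h7 := encR_lt h2
  rw [h3] at h6
  rw [h4] at h7
  have h8 : (8 : ℕ) ^ 8 = 16777216 := by norm_num
  omega

theorem pkR_spec {d : ℕ} (hd : d ≤ 8) {R : Rows} (h : RI d R) : pkR R >>> 24 = encR R.top 0 ∧
    pkR R % 16777216 = encR R.bot 0 ∧ pkR R % 8 = R.b ∧ (pkR R >>> 24) % 8 = R.a ∧ encR R.top 0 % 8 = R.a ∧
      encR R.bot 0 % 8 = R.b := by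
  obtain ⟨h1, h2⟩ := ri_l8 hd h
  obtain ⟨h3, h4⟩ := ri_len h
  obtain ⟨h5, h6⟩ := enc24 hd h
  have h7 : R.top ≠ [] := by
    intro h0
    rw [h0] at h3
    have := h.two
    simp at h3
    omega
  have h8 : R.bot ≠ [] := by
    intro h0
    rw [h0] at h4
    have := h.two
    simp at h4
    omega
  have h9 : encR R.top 0 % 8 = R.a := (encR_lst h1 h7 0).1
  have h10 : encR R.bot 0 % 8 = R.b := (encR_lst h2 h8 0).1
  unfold pkR
  simp only [Nat.shiftLeft_eq, Nat.shiftRight_eq_div_pow]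
  refine ⟨?_, ?_, ?_, ?_, h9, h10⟩ <;> omega

theorem runR_app (g h : List Bool) (R : Rows) : runR (g ++ h) R = runR h (runR g R) := by
  induction g generalizing R with
  | nil => rfl
  | cons c g ih => exact ih (step c R)

theorem ri_run {d : ℕ} {R : Rows} (h : RI d R) (g : List Bool) : RI d (runR g R) := by
  induction g generalizing R with
  | nil => exact h
  | cons c g ih => exact ih (ri_step h c)

theorem entR_spec {d : ℕ} (hd : d ≤ 8) {R : Rows} (h : RI d R) (c : Bool) :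
    entR c R % 2 = c.toNat ∧ aX (entR c R) = R.a ∧ bX (entR c R) = R.b ∧
      (entR c R >>> 1) % 281474976710656 = pkR R ∧
      (entR c R >>> 64) % 4096 = 128 * (bif c then R.a + 1 else R.b + 9) ∧
      entR c R >>> 76 = gF' (bif c then R.b else R.a) := by
  obtain ⟨h1, h2⟩ := enc24 hd h
  obtain ⟨h3, h4, h5, h6, h7, h8⟩ := pkR_spec hd h
  obtain ⟨ha, hb, _⟩ := ri_ab h
  cases c
  · obtain ⟨e1, e2, e3, e4, e5, e6⟩ := entF_spec (T := encR R.top 0) (B := encR R.bot 0) (c := 0)
      (h := gF' R.a) (s := R.b + 9) h1 h2 (by norm_num) (by omega)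
    exact ⟨e1, e2.trans h7, e3.trans h8, e4, e5, e6⟩
  · obtain ⟨e1, e2, e3, e4, e5, e6⟩ := entF_spec (T := encR R.top 0) (B := encR R.bot 0) (c := 1)
      (h := gF' R.b) (s := R.a + 1) h1 h2 (by norm_num) (by omega)
    exact ⟨e1, e2.trans h7, e3.trans h8, e4, e5, e6⟩

theorem stk_row {d : ℕ} (hd : d ≤ 8) {rt : Rows} (hr : RI d rt) : ∀ (n : ℕ) (gr : List Bool), n ≤ gr.length →
    rowF n (stkF rt gr) (pkR (runR gr.reverse rt)) = pkR (runR (gr.drop n).reverse rt) ∧
      drpF n (stkF rt gr) = stkF rt (gr.drop n) := by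
  intro n
  induction n with
  | zero =>
    intro gr _
    exact ⟨rowF_zero _ _, drpF_zero _⟩
  | succ n ih =>
    intro gr hn
    cases gr with
    | nil => simp at hn
    | cons c gr =>
      have hn' : n ≤ gr.length := by
        simp only [List.length_cons] at hn
        omega
      obtain ⟨h1, h2⟩ := ih gr hn'
      have h3 := (entR_spec hd (ri_run hr gr.reverse) c).2.2.2.1
      have e : stkF rt (c :: gr) = entR c (runR gr.reverse rt) :: stkF rt gr := rfl
      rw [e, rowF_cons, drpF_cons, h3]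
      exact ⟨h1, h2⟩

theorem stk_typ (rt : Rows) (gr : List Bool) : typF (stkF rt gr) = gr := by
  induction gr with
  | nil => rfl
  | cons c gr ih =>
    have e : stkF rt (c :: gr) = entR c (runR gr.reverse rt) :: stkF rt gr := rfl
    rw [e, typF_cons, ih]
    congr 1
    cases c
    · have h1 : entR false (runR gr.reverse rt) % 2 = 0 := by
        show entF _ _ 0 _ _ % 2 = 0
        simp only [entF_eq, Nat.shiftLeft_eq]
        omega
      rw [h1]
      rfl
    · have h1 : entR true (runR gr.reverse rt) % 2 = 1 := by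
        show entF _ _ 1 _ _ % 2 = 1
        simp only [entF_eq, Nat.shiftLeft_eq]
        omega
      rw [h1]
      rfl

end Pool.Agent.RTX
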