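import Pool.Agent.RTX.FStk
import Pool.Agent.RTX.FRun
import Pool.Agent.RTX.FPk

/-!
# RTX/FSum: the forms of the run and of the period
-/

set_option autoImplicit false

namespace Pool.Agent.RTX

private theorem fSum_hd {Z : List ℕ} {n : ℕ} (h : n < Z.length) : hd (Z.drop n) = some (Z.getD n 0) := by
  rw [List.drop_eq_getElem_cons h, List.getD_eq_getElem _ _ h]
  rfl

private theorem fSum_take {Z : List ℕ} (h8 : L8 Z) (i : ℕ) : ∀ (n : ℕ), i + n ≤ Z.length → ∀ r : ℕ,
    sumF n (encR (Z.take (i + n)) 1) r = r + (((Z.drop i).take n).map hF).sum := by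
  intro n
  induction n with
  | zero =>
    intro _ r
    rw [sumF_zero, List.take_zero]
    rfl
  | succ n ih =>
    intro h r
    have hlt : i + n < Z.length := by omega
    have e1 : Z.take (i + (n + 1)) = Z.take (i + n) ++ [Z.getD (i + n) 0] := by
      rw [← add_assoc, List.take_succ_eq_append_getElem hlt, List.getD_eq_getElem _ _ hlt]
    have e2 : (Z.drop i).take (n + 1) = (Z.drop i).take n ++ [Z.getD (i + n) 0] := by
      have h3 : n < (Z.drop i).length := by
        rw [List.length_drop]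
        omega
      rw [List.take_succ_eq_append_getElem h3, List.getD_eq_getElem _ _ hlt, List.getElem_drop]
    have h8' : L8 (Z.take (i + (n + 1))) := fun x hx => h8 x (List.mem_of_mem_take hx)
    have hne : Z.take (i + (n + 1)) ≠ [] := by
      rw [e1]
      exact List.append_ne_nil_of_right_ne_nil _ (List.cons_ne_nil _ _)
    have h4 := encR_lst h8' hne 1
    have h5 : (Z.take (i + (n + 1))).dropLast = Z.take (i + n) := by
      rw [e1, List.dropLast_concat]
    have h6 : encR (Z.take (i + (n + 1))) 1 % 8 = Z.getD (i + n) 0 := by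
      have h7 : encR (Z.take (i + (n + 1))) 1 = 8 * encR (Z.take (i + n)) 1 + Z.getD (i + n) 0 := by
        rw [e1, encR_app]
        rfl
      have h9 : Z.getD (i + n) 0 < 8 := by
        rw [List.getD_eq_getElem _ _ hlt]
        exact h8 _ (List.getElem_mem hlt)
      omega
    rw [sumF_succ, h4.2, h5, h6, ih (by omega), e2, List.map_append, List.sum_append, List.map_cons,
      List.map_nil, List.sum_cons, List.sum_nil]
    omega

private theorem fSum_ctr0 (s : ℕ) : ctr 0 s = 0 := by
  rw [ctr_eq, Nat.zero_sub, Nat.zero_shiftLeft]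

private theorem fSum_ctr (c s : ℕ) : ctr (c + 1) s = 2 ^ (128 * (c + 1 + s)) := by
  have h : c + 1 - (c + 1 - 1) = 1 := by omega
  rw [ctr_eq, h, Nat.shiftLeft_eq, one_mul]

theorem sumF_take {Z : List ℕ} (h8 : L8 Z) {i n : ℕ} (h : i + n ≤ Z.length) (r : ℕ) :
    sumF n (encR Z 1 >>> (3 * (Z.length - (i + n)))) r = r + (((Z.drop i).take n).map hF).sum := by
  have h1 : Z.length - (Z.length - (i + n)) = i + n := by omega
  rw [encR_shr h8 1 (Nat.sub_le _ _), h1]
  exact fSum_take h8 i n h r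

theorem rcut_ok {d : ℕ} (hd : d ≤ 8) {R : Rows} (h : RI d R) {Z : List ℕ} (h8 : L8 Z) {r k l : ℕ} (hk : 0 < k)
    (hZ : r + (k + l) ≤ Z.length) (q : ℕ) : ∃ u : Bool,
    (if 3 ≤ 3 * r then ctr (cutF d (pkR R >>> 24) (pkR R % 8) ((encR Z 1 >>> (3 * r + 3 * k - 3)) % 8)
        ((encR Z 1 >>> (3 * r - 3)) % 8) q) 0 else 0) =
      oSlot 0 (bif u then rcut R Z (Z.length - (r + (k + l))) k l else none) := by
  by_cases hr : 1 ≤ r
  · have h3 : 3 ≤ 3 * r := by omega
    rw [if_pos h3]
    have e1 : 3 * r + 3 * k - 3 = 3 * (r + k - 1) := by omega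
    have e2 : 3 * r - 3 = 3 * (r - 1) := by omega
    obtain ⟨s1, s2, s3, s4, s5, s6⟩ := pkR_spec hd h
    rw [e1, e2, s1, s3, encR_dig h8 1 (by omega), encR_dig h8 1 (by omega)]
    have e3 : Z.length - 1 - (r + k - 1) = Z.length - (r + (k + l)) + l := by omega
    have e4 : Z.length - 1 - (r - 1) = Z.length - (r + (k + l)) + k + l := by omega
    rw [e3, e4]
    have hl1 : Z.length - (r + (k + l)) + l < Z.length := by omega
    have hl2 : Z.length - (r + (k + l)) + k + l < Z.length := by omega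
    have hx : Z.getD (Z.length - (r + (k + l)) + l) 0 < 8 := by
      rw [List.getD_eq_getElem _ _ hl1]
      exact h8 _ (List.getElem_mem hl1)
    have hy : Z.getD (Z.length - (r + (k + l)) + k + l) 0 < 8 := by
      rw [List.getD_eq_getElem _ _ hl2]
      exact h8 _ (List.getElem_mem hl2)
    cases hc : cutF d (encR R.top 0) R.b (Z.getD (Z.length - (r + (k + l)) + l) 0)
      (Z.getD (Z.length - (r + (k + l)) + k + l) 0) q with
    | zero =>
      refine ⟨false, ?_⟩
      rw [fSum_ctr0]
      rfl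
    | succ c =>
      refine ⟨true, ?_⟩
      have h4 := cutF_ok (ri_len h).1 (ri_nd_top h) (ri_l8 hd h).1 hx hy hc
      have h5 : rcut R Z (Z.length - (r + (k + l))) k l = some c := by
        unfold rcut
        rw [fSum_hd hl1, fSum_hd hl2]
        exact h4
      rw [fSum_ctr, cond_true, h5]
      rfl
  · have h3 : ¬ 3 ≤ 3 * r := by omega
    rw [if_neg h3]
    exact ⟨false, rfl⟩

theorem lcut_ok {d : ℕ} (hd : d ≤ 8) {R : Rows} (h : RI d R) {Z : List ℕ} (h8 : L8 Z) {r k l : ℕ} (hk : 0 < k)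
    (hZ : r + (k + l) ≤ Z.length) (q : ℕ) : ∃ u : Bool,
    (if 1 <<< (3 * r + 3 * (k + l) + 3) ≤ encR Z 1 then
        ctr (cutF d (pkR R % 16777216) ((pkR R >>> 24) % 8) ((encR Z 1 >>> (3 * r + 3 * (k + l))) % 8)
          ((encR Z 1 >>> (3 * r + 3 * l)) % 8) q) 8 else 0) =
      oSlot 8 (bif u then lcut R Z (Z.length - (r + (k + l))) k else none) := by
  have e0 : 3 * r + 3 * (k + l) + 3 = 3 * (r + (k + l) + 1) := by ring
  by_cases hr : r + (k + l) + 1 ≤ Z.length
  · have h3 : 1 <<< (3 * r + 3 * (k + l) + 3) ≤ encR Z 1 := by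
      rw [e0]
      exact (encW_le h8 _).2 hr
    rw [if_pos h3]
    have e1 : 3 * r + 3 * (k + l) = 3 * (r + (k + l)) := by ring
    have e2 : 3 * r + 3 * l = 3 * (r + l) := by ring
    obtain ⟨s1, s2, s3, s4, s5, s6⟩ := pkR_spec hd h
    rw [e1, e2, s2, s4, encR_dig h8 1 (by omega), encR_dig h8 1 (by omega)]
    obtain ⟨j, hj⟩ : ∃ j, Z.length - (r + (k + l)) = j + 1 := ⟨Z.length - (r + (k + l)) - 1, by omega⟩
    have e3 : Z.length - 1 - (r + (k + l)) = j := by omega
    have e4 : Z.length - 1 - (r + l) = j + k := by omega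
    rw [e3, e4, hj]
    have hl1 : j < Z.length := by omega
    have hl2 : j + k < Z.length := by omega
    have hx : Z.getD j 0 < 8 := by
      rw [List.getD_eq_getElem _ _ hl1]
      exact h8 _ (List.getElem_mem hl1)
    have hy : Z.getD (j + k) 0 < 8 := by
      rw [List.getD_eq_getElem _ _ hl2]
      exact h8 _ (List.getElem_mem hl2)
    cases hc : cutF d (encR R.bot 0) R.a (Z.getD j 0) (Z.getD (j + k) 0) q with
    | zero =>
      refine ⟨false, ?_⟩
      rw [fSum_ctr0]
      rfl
    | succ c =>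
      refine ⟨true, ?_⟩
      have h4 := cutF_ok (ri_len h).2 (ri_nd_bot h) (ri_l8 hd h).2 hx hy hc
      have h5 : lcut R Z (j + 1) k = some c := by
        unfold lcut
        dsimp only
        rw [fSum_hd hl1, fSum_hd hl2]
        exact h4
      rw [fSum_ctr, cond_true, h5]
      rfl
  · have h3 : ¬ 1 <<< (3 * r + 3 * (k + l) + 3) ≤ encR Z 1 := by
      rw [e0]
      exact fun hh => hr ((encW_le h8 _).1 hh)
    rw [if_neg h3]
    exact ⟨false, rfl⟩

end Pool.Agent.RTX
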