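import Pool.Agent.RTX.FEncB

/-!
# RTX/FTab: the table of words (digits in base `2 ^ 128`), one step of the table
-/

set_option autoImplicit false

namespace Pool.Agent.RTX

private theorem FTab_low (e : ℕ → ℕ) (g : ℕ) (hg : g < 2 ^ 128) :
    ∀ k : ℕ, (∀ y < k, e y < 2 ^ 128) →
      g + ∑ y ∈ Finset.range k, e y * 2 ^ (128 * y + 128) < 2 ^ (128 * k + 128) := by
  intro k
  induction k with
  | zero => intro _; simpa using hg
  | succ k ih =>
    intro h
    have h1 := ih fun y hy => h y (by omega)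
    have h2 := h k (by omega)
    rw [Finset.sum_range_succ]
    have h3 : (2 : ℕ) ^ (128 * (k + 1) + 128) = 2 ^ 128 * 2 ^ (128 * k + 128) := by
      rw [← pow_add]
      congr 1
      ring
    rw [h3]
    have h4 : e k * 2 ^ (128 * k + 128) + 2 ^ (128 * k + 128) ≤ 2 ^ 128 * 2 ^ (128 * k + 128) := by
      have h5 : (e k + 1) * 2 ^ (128 * k + 128) ≤ 2 ^ 128 * 2 ^ (128 * k + 128) :=
        Nat.mul_le_mul_right _ h2
      have h6 : (e k + 1) * 2 ^ (128 * k + 128) = e k * 2 ^ (128 * k + 128) + 2 ^ (128 * k + 128) := by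
        ring
      rw [h6] at h5
      exact h5
    generalize 2 ^ (128 * k + 128) = P at *
    omega

private theorem FTab_high (e : ℕ → ℕ) (x : ℕ) : ∀ d : ℕ, x + 1 ≤ d →
    ∃ c, ∑ y ∈ Finset.range d, e y * 2 ^ (128 * y + 128) =
      ∑ y ∈ Finset.range (x + 1), e y * 2 ^ (128 * y + 128) + c * 2 ^ (128 * x + 256) := by
  intro d hd
  induction d, hd using Nat.le_induction with
  | base => exact ⟨0, by simp⟩
  | succ d hd ih =>
    obtain ⟨c, hc⟩ := ih
    refine ⟨c + e d * 2 ^ (128 * (d - (x + 1))), ?_⟩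
    have hp : 2 ^ (128 * d + 128) = 2 ^ (128 * (d - (x + 1))) * 2 ^ (128 * x + 256) := by
      rw [← pow_add]
      have h0 : 128 * d + 128 = 128 * (d - (x + 1)) + (128 * x + 256) := by omega
      rw [h0]
    rw [Finset.sum_range_succ, hc, hp]
    generalize 2 ^ (128 * (d - (x + 1))) = P
    generalize 2 ^ (128 * x + 256) = Q
    ring

private theorem FTab_dig (e : ℕ → ℕ) (g d x : ℕ) (hg : g < 2 ^ 128) (he : ∀ y < d, e y < 2 ^ 128)
    (hx : x < d) :
    (g + ∑ y ∈ Finset.range d, e y * 2 ^ (128 * y + 128)) / 2 ^ (128 * x + 128) % 2 ^ 128 = e x := by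
  obtain ⟨c, hc⟩ := FTab_high e x d hx
  have hlow := FTab_low e g hg x fun y hy => he y (by omega)
  have h1 : g + ∑ y ∈ Finset.range d, e y * 2 ^ (128 * y + 128) =
      (g + ∑ y ∈ Finset.range x, e y * 2 ^ (128 * y + 128)) +
        2 ^ (128 * x + 128) * (e x + 2 ^ 128 * c) := by
    rw [hc, Finset.sum_range_succ]
    have h2 : (2 : ℕ) ^ (128 * x + 256) = 2 ^ 128 * 2 ^ (128 * x + 128) := by
      rw [← pow_add]
      congr 1
      ring
    rw [h2]
    ring
  rw [h1, Nat.add_mul_div_left _ _ (Nat.pos_of_ne_zero (by positivity)), Nat.div_eq_of_lt hlow,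
    zero_add, Nat.add_mul_mod_self_left, Nat.mod_eq_of_lt (he x hx)]

theorem slot_tab {d n : ℕ} {w : ℕ → List ℕ} {W : ℕ} (h : TabOK d n w W) (hn : n ≤ 1048576) {x : ℕ} (hx : x < d) :
    slot W x = encR (w x) 1 := by
  obtain ⟨g, hg, hW, he⟩ := h
  have hg' : g < 2 ^ 128 := by
    have h1 : n * 4294967296 ≤ 1048576 * 4294967296 := Nat.mul_le_mul_right _ hn
    have h2 : (1048576 * 4294967296 : ℕ) < 2 ^ 128 := by norm_num
    omega
  have h3 : (340282366920938463463374607431768211456 : ℕ) = 2 ^ 128 := by norm_num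
  rw [slot_eq, Nat.shiftRight_eq_div_pow, hW, h3]
  exact FTab_dig (fun y => encR (w y) 1) g d x hg' he hx

theorem tab_pos {d n : ℕ} {w : ℕ → List ℕ} {W : ℕ} (h : TabOK d n w W) (hd : 0 < d) : W ≠ 0 := by
  obtain ⟨g, hg, hW, he⟩ := h
  have h1 : encR (w 0) 1 * 2 ^ (128 * 0 + 128) ≤
      ∑ x ∈ Finset.range d, encR (w x) 1 * 2 ^ (128 * x + 128) :=
    Finset.single_le_sum (f := fun x => encR (w x) 1 * 2 ^ (128 * x + 128))
      (fun _ _ => Nat.zero_le _) (Finset.mem_range.2 hd)
  have h2 : 0 < encR (w 0) 1 * 2 ^ (128 * 0 + 128) :=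
    Nat.mul_pos (encW_pos _) (Nat.pos_of_ne_zero (by positivity))
  omega

theorem iniW_tab {d : ℕ} (hd : d ≤ 8) : TabOK d 0 (fun x => [x]) (iniW d) := by
  have h0 : ∀ x : ℕ, encR [x] 1 = 8 + x := fun x => rfl
  refine ⟨0, by simp, ?_, ?_⟩
  · simp only [h0, zero_add]
    clear hd
    induction d with
    | zero => rfl
    | succ d ih => rw [iniW_succ, Finset.sum_range_succ, ih, Nat.shiftLeft_eq]
  · intro x hx
    rw [h0]
    have h2 : (16 : ℕ) < 2 ^ 128 := by norm_num
    omega

theorem stW_tab {d n : ℕ} {w : ℕ → List ℕ} {W X a b : ℕ} (h : TabOK d n w W) (hn : n ≤ 1048576) (ha : a < d)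
    (hb : b < d) (hXa : aX X = a) (hXb : bX X = b) (hw : L8 (w a)) (hs : stW X W ≠ 0) :
    TabOK d (n + 1) (fun x => if x = (if X % 2 = 1 then a else b) then w b ++ w a else w x) (stW X W) := by
  have hsa := slot_tab h hn ha
  have hsb := slot_tab h hn hb
  have hcat := catW_enc (w b) hw
  obtain ⟨l, hl⟩ : ∃ l, l = if X % 2 = 1 then a else b := ⟨_, rfl⟩
  have hld : l < d := by rw [hl]; split_ifs <;> assumption
  obtain ⟨N, hN⟩ : ∃ N, N = encR (w b ++ w a) 1 := ⟨_, rfl⟩
  have hst : stW X W = if W = 0 then 0 else updW W l (encR (w l) 1) N := by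
    rw [stW_eq, hXa, hXb, hsa, hsb, hcat, ← hN, hl]
    split_ifs <;> rfl
  have hoN : encR (w l) 1 ≤ N := by
    have h1 : N = encR (w b) 1 * 8 ^ (w a).length + encR (w a) 0 := by
      rw [hN, encR_app, encR_val]
    have h2 := encW_pos (w b)
    have h3 : 0 < 8 ^ (w a).length := Nat.pos_of_ne_zero (by positivity)
    rw [hl]
    split_ifs with h4
    · rw [encR_val, h1]
      exact Nat.add_le_add_right (Nat.mul_le_mul_right _ h2) _
    · rw [h1]
      exact (Nat.le_mul_of_pos_right _ h3).trans (Nat.le_add_right _ _)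
  rw [← hl]
  obtain ⟨g, hg, hW, he⟩ := h
  rw [hst] at hs ⊢
  have hW0 : W ≠ 0 := by
    intro h0
    rw [if_pos h0] at hs
    exact hs rfl
  rw [if_neg hW0] at hs ⊢
  rw [updW_eq] at hs ⊢
  have hN2 : ¬ 340282366920938463463374607431768211456 ≤ N := by
    intro h0
    rw [if_pos h0] at hs
    exact hs rfl
  rw [if_neg hN2, Nat.shiftLeft_eq]
  have hN3 : N < 2 ^ 128 := by
    have h3 : (340282366920938463463374607431768211456 : ℕ) = 2 ^ 128 := by norm_num
    omega
  refine ⟨g + N % 4294967291, ?_, ?_, ?_⟩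
  · have h1 : N % 4294967291 < 4294967291 := Nat.mod_lt _ (by norm_num)
    rw [Nat.add_mul]
    omega
  · rw [hW]
    have h1 := Finset.add_sum_erase (Finset.range d)
      (fun x => encR (w x) 1 * 2 ^ (128 * x + 128)) (Finset.mem_range.2 hld)
    have h2 := Finset.add_sum_erase (Finset.range d)
      (fun x => encR (if x = l then w b ++ w a else w x) 1 * 2 ^ (128 * x + 128))
      (Finset.mem_range.2 hld)
    have h3 : ∑ x ∈ (Finset.range d).erase l,
        encR (if x = l then w b ++ w a else w x) 1 * 2 ^ (128 * x + 128) =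
        ∑ x ∈ (Finset.range d).erase l, encR (w x) 1 * 2 ^ (128 * x + 128) := by
      refine Finset.sum_congr rfl fun x hx => ?_
      rw [if_neg (Finset.ne_of_mem_erase hx)]
    simp only [if_true] at h2
    rw [h3, ← hN] at h2
    rw [← h2, ← h1]
    have h4 : N * 2 ^ (128 * l + 128) =
        encR (w l) 1 * 2 ^ (128 * l + 128) + (N - encR (w l) 1) * 2 ^ (128 * l + 128) := by
      rw [← Nat.add_mul]
      congr 1
      omega
    rw [h4]
    ring
  · intro x hx
    by_cases hxl : x = l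
    · simp only [hxl, if_true]
      rw [← hN]
      exact hN3
    · simp only [if_neg hxl]
      exact he x hx

end Pool.Agent.RTX
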