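import Pool.Agent.RTX.FTab
import Pool.Agent.RTX.FStk

/-!
# RTX/FTabW: the table of the words of a window

PLAN: `wd_snoc` by induction on `g` (generalising `R`): `wd (c' :: g ++ [c]) R x = (wd (g ++ [c]) (step c' R) x).flatMap _`, `List.flatMap_append`.
`wd_lt` by induction on `g` (`ri_step`, `ri_ab`).  `tabW_tab` by induction on `n`, `gr = c :: gr'`: `tabW_cons`, `stW X 0 = 0` (`stW_eq`), `stW_tab` with
`a`, `b` the last labels of `runR gr'.reverse rt` (`entR_spec`), `runR (gr'.take n).reverse (runR (gr'.drop n).reverse rt) = runR gr'.reverse rt`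
(`runR_app`, `List.reverse_append`, `List.take_append_drop`), `wd_snoc`; `los true R = R.a`.  For `gr = []`, `n + 1`: `tabW_nil`.
-/

set_option autoImplicit false

namespace Pool.Agent.RTX

theorem wd_snoc (g : List Bool) (c : Bool) (R : Rows) (x : ℕ) :
    wd (g ++ [c]) R x = if x = los c (runR g R) then wd g R (runR g R).b ++ wd g R (runR g R).a else wd g R x := by
  induction g generalizing R with
  | nil =>
    show ([x] : List ℕ).flatMap (fun z => bif Nat.beq z (los c R) then [R.b, R.a] else [z]) =
      if x = los c R then [R.b] ++ [R.a] else [x]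
    by_cases h : x = los c R
    · have hb : Nat.beq x (los c R) = true := by rw [h]; exact Nat.beq_refl _
      simp [hb, h]
    · have hb : Nat.beq x (los c R) = false := by
        rw [← Bool.not_eq_true]
        intro h'
        exact h (Nat.eq_of_beq_eq_true h')
      simp [hb, h]
  | cons c' g ih =>
    have h1 : wd (c' :: g ++ [c]) R x = (wd (g ++ [c]) (step c' R) x).flatMap
        fun z => bif Nat.beq z (los c' R) then [R.b, R.a] else [z] := rfl
    have h2 : ∀ y, wd (c' :: g) R y = (wd g (step c' R) y).flatMap
        fun z => bif Nat.beq z (los c' R) then [R.b, R.a] else [z] := fun y => rfl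
    have h3 : runR (c' :: g) R = runR g (step c' R) := rfl
    rw [h1, ih, h2, h2, h2, h3]
    by_cases h : x = los c (runR g (step c' R))
    · rw [if_pos h, if_pos h, List.flatMap_append]
    · rw [if_neg h, if_neg h]

theorem wd_lt {d : ℕ} {R : Rows} (h : RI d R) (g : List Bool) {x : ℕ} (hx : x < d) : ∀ z ∈ wd g R x, z < d := by
  induction g generalizing R with
  | nil =>
    intro z hz
    have h1 : z ∈ [x] := hz
    rw [List.mem_singleton] at h1
    rw [h1]
    exact hx
  | cons c g ih =>
    intro z hz
    have h1 : z ∈ (wd g (step c R) x).flatMap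
        fun z => bif Nat.beq z (los c R) then [R.b, R.a] else [z] := hz
    rw [List.mem_flatMap] at h1
    obtain ⟨y, hy, hz'⟩ := h1
    have hy' := ih (ri_step h c) y hy
    have hab := ri_ab h
    cases hb : Nat.beq y (los c R) with
    | true =>
      rw [hb, cond_true, List.mem_cons, List.mem_singleton] at hz'
      rcases hz' with h2 | h2
      · rw [h2]; exact hab.2.1
      · rw [h2]; exact hab.1
    | false =>
      rw [hb, cond_false, List.mem_singleton] at hz'
      rw [hz']; exact hy'

theorem tabW_tab {d : ℕ} (hd : d ≤ 8) {rt : Rows} (hr : RI d rt) : ∀ (n : ℕ) (gr : List Bool), n ≤ 1048576 →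
    tabW (iniW d) n (stkF rt gr) ≠ 0 → n ≤ gr.length ∧
      TabOK d n (wd (gr.take n).reverse (runR (gr.drop n).reverse rt)) (tabW (iniW d) n (stkF rt gr)) := by
  intro n
  induction n with
  | zero =>
    intro gr _ _
    refine ⟨Nat.zero_le _, ?_⟩
    rw [tabW_zero]
    exact iniW_tab hd
  | succ n ih =>
    intro gr hn h0
    cases gr with
    | nil => exact absurd (tabW_nil (iniW d) n) h0
    | cons c gr =>
      have hst : stkF rt (c :: gr) = entR c (runR gr.reverse rt) :: stkF rt gr := rfl
      rw [hst, tabW_cons] at h0 ⊢
      have hW : tabW (iniW d) n (stkF rt gr) ≠ 0 := by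
        intro h
        apply h0
        rw [h, stW_eq, if_pos rfl]
      obtain ⟨h1, h2⟩ := ih gr (by omega) hW
      have hR := ri_run hr gr.reverse
      have hab := ri_ab hR
      obtain ⟨e1, e2, e3, -, -, -⟩ := entR_spec hd hR c
      have hrun : runR (gr.take n).reverse (runR (gr.drop n).reverse rt) = runR gr.reverse rt := by
        rw [← runR_app, ← List.reverse_append, List.take_append_drop]
      have hL8 : L8 (wd (gr.take n).reverse (runR (gr.drop n).reverse rt) (runR gr.reverse rt).a) := by
        intro z hz
        have := wd_lt (ri_run hr (gr.drop n).reverse) (gr.take n).reverse hab.1 z hz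
        omega
      have h3 := stW_tab h2 (by omega) hab.1 hab.2.1 e2 e3 hL8 h0
      refine ⟨by rw [List.length_cons]; omega, ?_⟩
      have hg : ((c :: gr).take (n + 1)).reverse = (gr.take n).reverse ++ [c] := by
        rw [List.take_succ_cons, List.reverse_cons]
      have hg2 : (c :: gr).drop (n + 1) = gr.drop n := rfl
      rw [hg, hg2]
      have hf : wd ((gr.take n).reverse ++ [c]) (runR (gr.drop n).reverse rt) = fun x =>
          if x = (if entR c (runR gr.reverse rt) % 2 = 1 then (runR gr.reverse rt).a
            else (runR gr.reverse rt).b) then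
            wd (gr.take n).reverse (runR (gr.drop n).reverse rt) (runR gr.reverse rt).b ++
              wd (gr.take n).reverse (runR (gr.drop n).reverse rt) (runR gr.reverse rt).a
          else wd (gr.take n).reverse (runR (gr.drop n).reverse rt) x := by
        funext x
        rw [wd_snoc, hrun, e1]
        cases c
        · rfl
        · rfl
      rw [hf]
      exact h3

end Pool.Agent.RTX
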