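import Pool.Agent.RTX.Par
set_option autoImplicit false
namespace Pool.Agent.RTX

structure Stp where
  c : Bool
  a : ℕ
  b : ℕ
  R : Rows

def pullS : List Stp → LF → LF
  | [], f => f
  | x :: l, f => pullS l (bif x.c then ⟨addAt x.b (getZ x.a f.p) f.p, addAt x.b (getZ x.a f.p) f.s, f.k + getZ x.a f.p⟩
  else ⟨addAt x.a (getZ x.b f.s) f.p, addAt x.a (getZ x.b f.s) f.s, f.k + getZ x.b f.s⟩)

def leafS (d : ℕ) (P Q K : ℤ) (rt : Rows) (st : List Stp) (Rs : Rows) (w : List Bool) (h : Hint) : Bool :=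
  patChk d w Rs h.pt &&
  bdd K rt h.ys (pullS st
    (lin Q (patN d Rs (patZ d w Rs h.pt) h.pt)
      (-P) (patV d (patZ d w Rs h.pt) h.pt)))

def lastR (R : Rows) : List Stp → Rows
 | [] => R
 | [x] => x.R
 | _ :: y :: l => lastR R (y :: l)

def treeS (A : Par) (stop : List (List ℕ)) (gchk : List Bool → Bool) (rt : Rows) :
    Crt → List Stp → List Bool → Rows → Bool
  | .F h, st, gr, R => leafS A.d A.P A.Q A.K rt (st.drop (st.length - h.pt.s)) (lastR R (st.take (st.length - h.pt.s))) ((st.take (st.length - h.pt.s)).map Stp.c).reverse h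
  | .Y, st, gr, R => !gr.isEmpty && memL (canon R) stop
  | .G, st, gr, _ => gchk gr
  | .N t0 t1, st, gr, R => treeS A stop gchk rt t0 (⟨false, R.a, R.b, R⟩ :: st) (false :: gr) (step false R) &&
      treeS A stop gchk rt t1 (⟨true, R.a, R.b, R⟩ :: st) (true :: gr) (step true R)
end Pool.Agent.RTX
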