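import Pool.Agent.RTX.FibA

/-!
# RTX/LucA: Lucas numbers and the angle `ga = (ph + 2) / 5`

`luc (k+1) = fib k + fib (k + 2)`-type identities: `luc k = 2 fib (k + 1) - fib k`.  `ga = ph / sqrt 5`, `5 ga - 3 = al`.
`luc_err`: `luc k * ga - fib (k + 1) = (-al) ^ k / sqrt 5`: two-step induction (start `k = 0`: `2 ga - 1 = 1 / sqrt 5`, `k = 1`: `ga - 1 = - al / sqrt 5`).
`luc_block`: `IET3.hit_block` with `a = luc k`, `b = luc (k + 1)` for `k ≥ 1` (`a ≤ b`), errors of opposite signs with sum `al ^ (k - 1) / sqrt 5`; the existence of a hit from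
`IET3.orbit_dense` (irrationality of `ga`).  `1 / sqrt 5 ≤ al`.
`luc_ph`: `luc (k + 1) = sqrt 5 * ph * fib k + (-al) ^ k`.
-/

set_option autoImplicit false

namespace Pool.Agent.RTX

open Pool.Agent.Helper44.IET Pool.Agent.Helper28.IET3

/-- Lucas numbers. -/
def luc : ℕ → ℤ
  | 0 => 2
  | 1 => 1
  | n + 2 => luc n + luc (n + 1)

/-- `ga = ph / sqrt 5` -/
noncomputable def ga : ℝ := (ph + 2) / 5

private theorem lu_pow (k : ℕ) : (-al) ^ (k + 2) = (-al) ^ k + (-al) ^ (k + 1) := by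
  have h := al_sq
  have e : (-al) ^ (k + 2) = (-al) ^ k * (al * al) := by ring
  rw [e, h]
  ring

private theorem lu_pos (k : ℕ) : 0 < luc k ∧ 0 < luc (k + 1) := by
  induction k with
  | zero => simp [luc]
  | succ n ih =>
    refine ⟨ih.2, ?_⟩
    have : luc (n + 1 + 1) = luc n + luc (n + 1) := rfl
    omega

private theorem lu_s5 : (0 : ℝ) < Real.sqrt 5 := by linarith [sqrt5_gt]

private theorem lu_abs (k : ℕ) : |(-al) ^ k / Real.sqrt 5| = al ^ k / Real.sqrt 5 := by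
  rw [abs_div, abs_pow, abs_neg, abs_of_pos al_pos, abs_of_pos lu_s5]

private theorem lu_err2 (k : ℕ) : ((luc k : ℝ) * ga - Nat.fib (k + 1) = (-al) ^ k / Real.sqrt 5) ∧
    ((luc (k + 1) : ℝ) * ga - Nat.fib (k + 1 + 1) = (-al) ^ (k + 1) / Real.sqrt 5) := by
  have h5 := sqrt5_sq
  have h0 := lu_s5.ne'
  induction k with
  | zero =>
    refine ⟨?_, ?_⟩
    · rw [eq_div_iff h0]
      simp only [luc, ga, ph, Nat.fib_one, zero_add, pow_zero]
      push_cast
      linear_combination (1 / 5 : ℝ) * h5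
    · rw [eq_div_iff h0]
      have : Nat.fib (0 + 1 + 1) = 1 := by decide
      rw [this]
      simp only [luc, ga, ph, al, zero_add, pow_one]
      push_cast
      linear_combination (1 / 10 : ℝ) * h5
  | succ n ih =>
    refine ⟨ih.2, ?_⟩
    have e1 : luc (n + 1 + 1) = luc n + luc (n + 1) := rfl
    have e2 : Nat.fib (n + 1 + 1 + 1) = Nat.fib (n + 1) + Nat.fib (n + 1 + 1) := Nat.fib_add_two
    have e3 : (-al) ^ (n + 1 + 1) = (-al) ^ n + (-al) ^ (n + 1) := lu_pow n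
    rw [e1, e2, e3]
    push_cast
    rw [add_div]
    linear_combination ih.1 + ih.2

private theorem lu_ph2 (k : ℕ) : ((luc (k + 1) : ℝ) = Real.sqrt 5 * ph * Nat.fib k + (-al) ^ k) ∧
    ((luc (k + 1 + 1) : ℝ) = Real.sqrt 5 * ph * Nat.fib (k + 1) + (-al) ^ (k + 1)) := by
  have h5 := sqrt5_sq
  induction k with
  | zero =>
    refine ⟨?_, ?_⟩
    · simp [luc]
    · simp only [luc, ph, al, Nat.fib_one, zero_add, pow_one]
      push_cast
      linear_combination (-1 / 2 : ℝ) * h5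
  | succ n ih =>
    refine ⟨ih.2, ?_⟩
    have e1 : luc (n + 1 + 1 + 1) = luc (n + 1) + luc (n + 1 + 1) := rfl
    have e2 : Nat.fib (n + 1 + 1) = Nat.fib n + Nat.fib (n + 1) := Nat.fib_add_two
    have e3 : (-al) ^ (n + 1 + 1) = (-al) ^ n + (-al) ^ (n + 1) := lu_pow n
    rw [e1, e2, e3]
    push_cast
    linear_combination ih.1 + ih.2

theorem ga_irr : Irrational ga := by
  have h1 : Irrational (al + ((3 : ℕ) : ℝ)) := irrational_al.add_natCast 3
  have h2 : Irrational ((al + ((3 : ℕ) : ℝ)) / ((5 : ℕ) : ℝ)) := h1.div_natCast (by norm_num)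
  have e : ga = (al + ((3 : ℕ) : ℝ)) / ((5 : ℕ) : ℝ) := by
    unfold ga
    rw [ph_eq]
    push_cast
    ring
  rw [e]
  exact h2

theorem luc_err (k : ℕ) : (luc k : ℝ) * ga - Nat.fib (k + 1) = (-al) ^ k / Real.sqrt 5 := by
  exact (lu_err2 k).1

/-- `k = k' + 1` -/
theorem luc_block {k : ℕ} {δ : ℝ} (hδ : al ^ (k + 1) ≤ δ) (w : ℝ) (s0 : ℤ) :
    ∃ s, s0 ≤ s ∧ s < s0 + luc (k + 2) ∧ Hit ga δ w s := by
  have p1 := lu_pos k
  have p2 := lu_pos (k + 1)
  have e1 := luc_err (k + 1)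
  have e2 := luc_err (k + 2)
  have hpow : 0 < al ^ (k + 1) := pow_pos al_pos _
  have h0 := lu_s5
  apply hit_block (a := luc (k + 1)) (b := luc (k + 2)) (ga := (Nat.fib (k + 1 + 1) : ℤ))
    (gb := (Nat.fib (k + 2 + 1) : ℤ))
  · exact p1.2
  · have : luc (k + 2) = luc k + luc (k + 1) := rfl
    omega
  · rw [Int.cast_natCast, Int.cast_natCast, e1, e2]
    have h4 : (-al) ^ (k + 1) / Real.sqrt 5 * ((-al) ^ (k + 2) / Real.sqrt 5) =
        -(((-al) ^ (k + 1)) ^ 2 * al / (Real.sqrt 5) ^ 2) := by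
      field_simp
      ring
    rw [h4]
    have h6 : (-al) ^ (k + 1) ≠ 0 := pow_ne_zero _ (by linarith [al_pos])
    have h8 := al_pos
    have h7 : 0 < ((-al) ^ (k + 1)) ^ 2 * al / (Real.sqrt 5) ^ 2 := by positivity
    linarith
  · rw [Int.cast_natCast, Int.cast_natCast, e1, e2, lu_abs, lu_abs]
    refine le_trans ?_ hδ
    have h7 : al ^ (k + 1) / Real.sqrt 5 + al ^ (k + 2) / Real.sqrt 5 = al ^ (k + 1) * ((1 + al) / Real.sqrt 5) := by
      rw [pow_succ al (k + 1)]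
      ring
    rw [h7]
    have h8 : (1 + al) / Real.sqrt 5 ≤ 1 := by
      rw [div_le_one h0]
      linarith [al_lt, sqrt5_gt]
    nlinarith
  · obtain ⟨i, _, l, hl1, hl2⟩ := orbit_dense ga ga_irr w (-δ) 0 (by linarith) 0
    refine ⟨i, -l, ?_, ?_⟩ <;> push_cast <;> linarith

theorem luc_ph (k : ℕ) : (luc (k + 1) : ℝ) ≤ Real.sqrt 5 * ph * Nat.fib k + 1 := by
  rw [(lu_ph2 k).1]
  have h1 : (-al) ^ k ≤ 1 := by
    have h2 : |(-al) ^ k| ≤ 1 := by
      rw [abs_pow, abs_neg, abs_of_pos al_pos]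
      exact pow_le_one₀ al_pos.le al_lt_one.le
    exact (le_abs_self _).trans h2
  linarith

end Pool.Agent.RTX
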