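import Pool.Agent.RTX.UG
import Pool.Agent.RTX.LucA

/-!
# RTX/U6: the upper bound for `d = 6`

Cuts `0, 3 - 4 ga, 1 - ga, 4 - 5 ga = 1 - al, 2 - 2 ga, 3 - 3 ga`, i.e. the points `- i ga` modulo one, `i = 0, ..., 5`; `al = 5 ga - 3`.
`keane6`: `Cuts.keane`; with `ga = (al + 3) / 5` the difference of two cuts is `(integer) - (e / 5) (al + 3)`, `0 < |e| < 5`, which is not in `Z + Z al` (`re_eq_zero`).
`run6`: `fib_loc`: `F_k ≤ p < F_(k+1)`, `k ≥ 2`, `k = k' + 1`; `run_avoid` with `δ ≥ al ^ k` (`fib_best`).  The integers `s = 5 j + i`, `0 ≤ j < n`, `0 ≤ i ≤ 5`, i.e. all `s` from `0` to `5 n`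
(if `n > 0`), are no hits `Hit ga δ w s`: `w + s ga < N ≤ w + s ga + δ` means `w + j al < (N - 3 j) - i ga ≤ w + j al + δ`, i.e. the cut `- i ga` plus an integer is in the
arc number `j`.  `luc_block` gives `5 n + 1 < luc (k' + 2) = luc (k + 1)`, so `5 n ≤ luc (k + 1) - 2 ≤ sqrt 5 ph F_k` (`luc_ph`), and `sqrt 5 / 5 = 1 / sqrt 5`.
-/

set_option autoImplicit false

namespace Pool.Agent.RTX

open Pool.Agent.Helper44.IET Pool.Agent.Helper28.IET3

/-- The cuts for `d = 6`. -/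
noncomputable def C6 : Cuts 6 where
  g n := match n with
    | 0 => 0
    | 1 => 3 - 4 * ga
    | 2 => 1 - ga
    | 3 => 4 - 5 * ga
    | 4 => 2 - 2 * ga
    | 5 => 3 - 3 * ga
    | _ => 1
  r := 3
  mono i hi := by
    have h1 := al_gt
    have h2 := al_lt
    have h3 := ph_eq
    have h4 : ga = (ph + 2) / 5 := rfl
    interval_cases i <;> simp only [] <;> linarith
  zero := rfl
  last := rfl
  hr := by
    have h3 := ph_eq
    have h4 : ga = (ph + 2) / 5 := rfl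
    simp only []
    linarith
  hr0 := by norm_num
  hrd := by norm_num

/-- The numbers `n c`. -/
private def U6_nn : ℕ → ℤ
  | 1 => 3
  | 2 => 1
  | 3 => 4
  | 4 => 2
  | 5 => 3
  | _ => 0

/-- The numbers `e c`, the cut number `c` is `n c - e c * ga`. -/
private def U6_ee : ℕ → ℤ
  | 1 => 4
  | 2 => 1
  | 3 => 5
  | 4 => 2
  | 5 => 3
  | _ => 0

private theorem U6_g {c : ℕ} (hc : c < 6) : C6.g c = U6_nn c - U6_ee c * ga := by
  interval_cases c
  · show (0 : ℝ) = ((0 : ℤ) : ℝ) - ((0 : ℤ) : ℝ) * ga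
    push_cast
    ring
  · show 3 - 4 * ga = ((3 : ℤ) : ℝ) - ((4 : ℤ) : ℝ) * ga
    push_cast
    ring
  · show 1 - ga = ((1 : ℤ) : ℝ) - ((1 : ℤ) : ℝ) * ga
    push_cast
    ring
  · show 4 - 5 * ga = ((4 : ℤ) : ℝ) - ((5 : ℤ) : ℝ) * ga
    push_cast
    ring
  · show 2 - 2 * ga = ((2 : ℤ) : ℝ) - ((2 : ℤ) : ℝ) * ga
    push_cast
    ring
  · show 3 - 3 * ga = ((3 : ℤ) : ℝ) - ((3 : ℤ) : ℝ) * ga
    push_cast
    ring

private theorem U6_ga : 5 * ga = al + 3 := by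
  have h4 : ga = (ph + 2) / 5 := rfl
  have h3 := ph_eq
  rw [h4, h3]
  ring

theorem keane6 : C6.ex.Keane := by
  apply C6.keane
  intro i j hi hi6 hj hj6 a b h
  rw [U6_g hi6, U6_g hj6] at h
  have hga : ga = (al + 3) / 5 := by
    have := U6_ga
    linarith
  have h1 : re (5 * (U6_nn i - U6_nn j) - 3 * (U6_ee i - U6_ee j) - 5 * a)
      (-(U6_ee i - U6_ee j) - 5 * b) = 0 := by
    unfold re
    rw [hga] at h
    push_cast
    linear_combination 5 * h
  have h2 := (re_eq_zero h1).2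
  interval_cases i <;> interval_cases j <;> first | rfl | (exfalso; simp only [U6_ee] at h2; omega)

private theorem U6_cut (e : ℕ) (he : e ≤ 5) : ∃ c < 6, U6_ee c = e := by
  interval_cases e
  · exact ⟨0, by norm_num, rfl⟩
  · exact ⟨2, by norm_num, rfl⟩
  · exact ⟨4, by norm_num, rfl⟩
  · exact ⟨5, by norm_num, rfl⟩
  · exact ⟨1, by norm_num, rfl⟩
  · exact ⟨3, by norm_num, rfl⟩

private theorem U6_len : ∀ i < 6, C6.g (i + 1) - C6.g i ≤ 1 / 2 := by
  intro i hi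
  have h1 := al_gt
  have h2 := al_lt
  have h3 := ph_eq
  have h4 : ga = (ph + 2) / 5 := rfl
  interval_cases i
  · show 3 - 4 * ga - 0 ≤ 1 / 2
    linarith
  · show 1 - ga - (3 - 4 * ga) ≤ 1 / 2
    linarith
  · show 4 - 5 * ga - (1 - ga) ≤ 1 / 2
    linarith
  · show 2 - 2 * ga - (4 - 5 * ga) ≤ 1 / 2
    linarith
  · show 3 - 3 * ga - (2 - 2 * ga) ≤ 1 / 2
    linarith
  · show 1 - (3 - 3 * ga) ≤ 1 / 2
    linarith

theorem run6 {u : ℕ → Fin 6} (hu : C6.ex.IsCoding u) {i p n : ℕ} (hp : 0 < p) (h : HasPower u i p (p + n)) :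
    (n : ℝ) ≤ ph / Real.sqrt 5 * p := by
  have hs5 : 0 < Real.sqrt 5 := Real.sqrt_pos.2 (by norm_num)
  have hph := ph_pos
  rcases Nat.eq_zero_or_pos n with hn | hn
  · subst hn
    push_cast
    positivity
  obtain ⟨k, hk2, hk, hk'⟩ := fib_loc hp
  obtain ⟨w, m, hδ, hav⟩ := run_avoid C6 U6_len hu hp h
  have hb := fib_best hp hk' m
  obtain ⟨k', rfl⟩ : ∃ k', k = k' + 1 := ⟨k - 1, by omega⟩
  obtain ⟨s, hs0, hs1, N, hN1, hN2⟩ := luc_block hb w 0
  have hbig : 5 * (n : ℤ) < s := by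
    by_contra hc
    push Not at hc
    obtain ⟨j, e, hj, he, hs⟩ : ∃ j e : ℕ, j < n ∧ e ≤ 5 ∧ s = 5 * j + e := by
      rcases eq_or_lt_of_le hc with h1 | h1
      · exact ⟨n - 1, 5, by omega, le_rfl, by omega⟩
      · refine ⟨(s / 5).toNat, (s % 5).toNat, ?_, ?_, ?_⟩ <;> omega
    obtain ⟨c, hc6, hce⟩ := U6_cut e he
    refine hav j hj c hc6 (N - 3 * j - U6_nn c) ?_
    rw [U6_g hc6, hce]
    have h5 := U6_ga
    have h6 : (s : ℝ) = 5 * j + e := by
      rw [hs]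
      push_cast
      ring
    have h7 : (s : ℝ) * ga = j * al + 3 * j + e * ga := by
      rw [h6]
      linear_combination (j : ℝ) * h5
    rw [h7] at hN1 hN2
    push_cast
    constructor <;> linarith
  have hl := luc_ph (k' + 1)
  have h8 : 5 * (n : ℤ) + 2 ≤ luc (k' + 2) := by omega
  have h9 : (5 : ℝ) * n + 2 ≤ (luc (k' + 2) : ℝ) := by exact_mod_cast h8
  have h10 : (Nat.fib (k' + 1) : ℝ) ≤ p := by exact_mod_cast hk
  have h11 : Real.sqrt 5 * ph * Nat.fib (k' + 1) ≤ Real.sqrt 5 * ph * p :=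
    mul_le_mul_of_nonneg_left h10 (by positivity)
  have h12 : (5 : ℝ) * n ≤ Real.sqrt 5 * ph * p := by
    have h13 : (luc (k' + 1 + 1) : ℝ) = luc (k' + 2) := rfl
    rw [h13] at hl
    linarith
  have h14 : ph / Real.sqrt 5 * p = Real.sqrt 5 * ph * p / 5 := by
    rw [div_mul_eq_mul_div, div_eq_div_iff hs5.ne' (by norm_num)]
    linear_combination (-(ph * p)) * sqrt5_sq
  rw [h14]
  linarith

end Pool.Agent.RTX
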