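import Pool.Agent.RTX.FinL2
import Pool.Agent.RTX.Cov6
import Pool.Agent.RTX.CGold
import Pool.Agent.RTX.U6

/-!
# RTX/Fin6: six intervals
-/

set_option autoImplicit false

namespace Pool.Agent.RTX

open Pool.Agent.Helper44.IET Pool.Agent.Helper28.IET3

theorem hL6 : ∀ π, memL π L6 = true → ∃ rs, Cfd2 par6 rs ∧ memL π rs = true :=
  mem2_app (by rfl) (mem2_app (by rfl) (mem2_app (by rfl) (mem2_app (by rfl) (mem2_app (by rfl) (mem2_app (by rfl)
    (mem2_one cf_130524_31) (mem2_one cf_143250_20)) (mem2_one cf_124053_90)) (mem2_one cf_132504_134))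
    (mem2_one cf_124350_66)) (mem2_one cf_123450_15)) (mem2_one cf_123504_105)

theorem low6 {u : ℕ → Fin 6} (hu : u ∈ Codings 6) :
    (((15 + Real.sqrt 5) / 10 : ℝ) : EReal) ≤ critExp u ∧ (((15 + Real.sqrt 5) / 10 : ℝ) : EReal) ≤ asympCritExp u := by
  have h5 := sqrt5_sq
  have hg := sqrt5_gt
  have hl := sqrt5_lt
  refine lower2_cod (A := par6) (L := L6) (D := gd6) (lam := (7 + 3 * Real.sqrt 5) / 2) hL6 cov6_ok sec6 gd6_ok
    (by norm_num [par6]) (by norm_num [par6]) (by norm_num [par6]) (by norm_num [gd6]) (by norm_num [gd6]) ?_ ?_ ?_ ?_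
    (by norm_num [par6]) hu
  · have : ((gd6.c : ℤ) : ℝ) = 7 := by norm_num [gd6]
    rw [this]; nlinarith
  · linarith
  · have h1 : ((par6.P : ℤ) : ℝ) = 724 := by norm_num [par6]
    have h2 : ((par6.Q : ℤ) : ℝ) = 1000 := by norm_num [par6]
    rw [h1, h2]; linarith
  · have h1 : ((gd6.A : ℤ) : ℝ) = 15 := by norm_num [gd6]
    have h2 : ((gd6.B : ℤ) : ℝ) = 4 := by norm_num [gd6]
    rw [h1, h2]; linarith

theorem thr6 : RT 6 = (((15 + Real.sqrt 5) / 10 : ℝ) : EReal) ∧ RTstar 6 = (((15 + Real.sqrt 5) / 10 : ℝ) : EReal) ∧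
    ∃ u ∈ Codings 6, critExp u = (((15 + Real.sqrt 5) / 10 : ℝ) : EReal) ∧
      asympCritExp u = (((15 + Real.sqrt 5) / 10 : ℝ) : EReal) := by
  obtain ⟨u, hu, hc⟩ := coding_ex C6 keane6
  refine thresholds hu (crit_le u _ (by linarith [sqrt5_gt]) fun i p n hp h => ?_) fun v hv => low6 hv
  have h1 := run6 hc hp h
  have h2 : ph / Real.sqrt 5 = (15 + Real.sqrt 5) / 10 - 1 := by
    have h5 := sqrt5_sq
    have hg := sqrt5_gt
    have hne : Real.sqrt 5 ≠ 0 := by linarith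
    rw [div_eq_iff hne]
    unfold ph
    nlinarith
  rwa [h2] at h1

end Pool.Agent.RTX
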