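import Pool.Agent.RTX.Lower2
import Pool.Agent.RTX.FinL

/-!
# RTX/FinL2: the thresholds from the fast certificates
-/

set_option autoImplicit false

namespace Pool.Agent.RTX

open Pool.Agent.Helper44.IET Pool.Agent.Helper28.IET3

theorem lower2_cod {A : Par} {L : List (List ℕ)}
    (hL : ∀ π, memL π L = true → ∃ rs, Cfd2 A rs ∧ memL π rs = true)
    (hc : covOK A.d L = true) (h2 : Sec A) {D : Gd} {n : ℕ} (hg : goldOK A D n = true)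
    (hQ : 0 < A.Q) (hP : 0 ≤ A.P) (hK : 0 ≤ A.K) (hc3 : 3 ≤ D.c) (hA : 0 < D.A) {lam κ : ℝ}
    (hl : lam ^ 2 - D.c * lam + 1 = 0) (hl1 : 1 < lam)
    (hκ1 : κ ≤ 1 + (A.P : ℝ) / A.Q) (hκ2 : κ ≤ 1 + (lam + D.B) / D.A) (hd : 2 ≤ A.d) {u : ℕ → Fin A.d}
    (hu : u ∈ Codings A.d) : (κ : EReal) ≤ critExp u ∧ (κ : EReal) ≤ asympCritExp u := by
  obtain ⟨E, hi, hK', hcod⟩ := hu
  obtain ⟨𝒮⟩ := sys_ex hd hi hK' hcod
  refine crit_of_runs u κ fun ε hε m => ?_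
  obtain ⟨i, p, l, hp, hm, hpow, hl⟩ :=
    lower2_sys hL hc h2 hg hQ hP hK hc3 hA hl hl1 hκ1 hκ2 𝒮 ε hε m
  exact ⟨i, p, l, hp, hm, fun j hj => Fin.ext (hpow j hj), hl⟩

theorem mem2_app {A : Par} {L L1 L2 : List (List ℕ)} (hL : L = L1 ++ L2)
    (h1 : ∀ π, memL π L1 = true → ∃ rs, Cfd2 A rs ∧ memL π rs = true)
    (h2 : ∀ π, memL π L2 = true → ∃ rs, Cfd2 A rs ∧ memL π rs = true) :
    ∀ π, memL π L = true → ∃ rs, Cfd2 A rs ∧ memL π rs = true := by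
  subst hL
  intro π h
  rw [memL_iff, List.mem_append, ← memL_iff, ← memL_iff] at h
  rcases h with h | h
  · exact h1 π h
  · exact h2 π h

theorem mem2_one {A : Par} {L : List (List ℕ)} (h : Cfd2 A L) :
    ∀ π, memL π L = true → ∃ rs, Cfd2 A rs ∧ memL π rs = true := fun _ hπ => ⟨L, h, hπ⟩

end Pool.Agent.RTX
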