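import Pool.Agent.RTX.Sem

/-!
# RTX: the geometry of the Rauzy induction (definitions only)

Lengths `lam`, left ends `ps lam x row`, total length `tot lam row`.  `Geo E R σ lam`: the first return map of `E.T` to
`J = [0, tot lam R.top)` is the exchange with rows `R` and lengths `lam`, and the points of the interval of the label `x` have the
itinerary `σ x` up to their return.
-/

set_option autoImplicit false

namespace Pool.Agent.RTX

open Pool.Agent.Helper44.IET (Exchange)

/-- Sum of the lengths of the entries before `x`. -/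
noncomputable def ps (lam : ℕ → ℝ) (x : ℕ) : List ℕ → ℝ
  | [] => 0
  | z :: l => if z = x then 0 else lam z + ps lam x l

/-- Total length. -/
noncomputable def tot (lam : ℕ → ℝ) (l : List ℕ) : ℝ := (l.map lam).sum

/-- The winner of a step. -/
def win (c : Bool) (R : Rows) : ℕ := bif c then R.b else R.a

/-- New lengths. -/
noncomputable def stepL (c : Bool) (R : Rows) (lam : ℕ → ℝ) : ℕ → ℝ := fun x =>
  if x = win c R then lam x - lam (los c R) else lam x

/-- The point `z` follows the itinerary `w`. -/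
def Vis {d : ℕ} (E : Exchange d) (z : ℝ) (w : List ℕ) : Prop :=
  ∀ j (h : j < w.length), ∃ hd : w[j] < d, E.T^[j] z ∈ E.interval ⟨w[j], hd⟩

/-- The point `z` lies in the interval of the label `x` of the top row. -/
def inJ (R : Rows) (lam : ℕ → ℝ) (x : ℕ) (z : ℝ) : Prop := ps lam x R.top ≤ z ∧ z < ps lam x R.top + lam x

/-- One level of the Rauzy induction. -/
structure Geo {d : ℕ} (E : Exchange d) (R : Rows) (σ : ℕ → List ℕ) (lam : ℕ → ℝ) : Prop where
  ri : RI d R
  pos : ∀ x < d, 0 < lam x
  vis : ∀ x < d, ∀ z, inJ R lam x z → Vis E z (σ x)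
  ret : ∀ x < d, ∀ z, inJ R lam x z → E.T^[(σ x).length] z = z - ps lam x R.top + ps lam x R.bot
  cut : ∀ x < d, x ≠ R.top.headD 0 → ∃ p < (σ x).length, ∃ i : Fin d, 0 < (i : ℕ) ∧
    E.T^[p] (ps lam x R.top) = E.left i

/-- The bottom row of an exchange. -/
def botE {d : ℕ} (E : Exchange d) : List ℕ := (List.finRange d).map fun k => ((E.perm.symm k : Fin d) : ℕ)

/-- The rows of an exchange. -/
def rowsE {d : ℕ} (E : Exchange d) : Rows := ⟨List.range d, botE E⟩

/-- The lengths of an exchange. -/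
noncomputable def lamE {d : ℕ} (E : Exchange d) : ℕ → ℝ := fun x => if h : x < d then E.len ⟨x, h⟩ else 0

/-- An infinite Rauzy path with positive lengths. -/
structure LP (d : ℕ) (R : ℕ → Rows) (c : ℕ → Bool) (lam : ℕ → ℕ → ℝ) : Prop where
  ri : ∀ t, RI d (R t)
  hR : ∀ t, R (t + 1) = step (c t) (R t)
  pos : ∀ t, ∀ x < d, 0 < lam t x
  hl : ∀ t, lam (t + 1) = stepL (c t) (R t) (lam t)

/-- The words at level `t + s` over the labels at level `t`. -/
def relW (R : ℕ → Rows) (c : ℕ → Bool) (t : ℕ) : ℕ → ℕ → List ℕ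
  | 0 => fun x => [x]
  | s + 1 => stepW (c (t + s)) (R (t + s)) (relW R c t s)

/-- `Blk` without the last condition. -/
def BlkW (d : ℕ) (u : ℕ → ℕ) (σ : ℕ → List ℕ) : Prop :=
  ∃ v pos : ℕ → ℕ, (∀ i, v i < d) ∧ (∀ i, pos (i + 1) = pos i + (σ (v i)).length) ∧ ∀ i, occ u (pos i) (σ (v i))

end Pool.Agent.RTX
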