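import Pool.Agent.RTX.PsB

/-!
# RTX/GeoF: one step of type `false` (`a` wins, `lam b < lam a`)
-/

set_option autoImplicit false

namespace Pool.Agent.RTX

open Pool.Agent.Helper44.IET (Exchange)

theorem vis_append {d : ℕ} {E : Exchange d} {z : ℝ} {w v : List ℕ} (h : Vis E z w)
    (h2 : Vis E (E.T^[w.length] z) v) : Vis E z (w ++ v) := by
  intro j hj
  by_cases hjw : j < w.length
  · obtain ⟨hd, hm⟩ := h j hjw
    have e : (w ++ v)[j] = w[j] := List.getElem_append_left hjw
    have hd' : (w ++ v)[j] < d := by rw [e]; exact hd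
    refine ⟨hd', ?_⟩
    have e2 : (⟨(w ++ v)[j], hd'⟩ : Fin d) = ⟨w[j], hd⟩ := Fin.ext e
    rw [e2]
    exact hm
  · obtain ⟨k, rfl⟩ : ∃ k, j = w.length + k := ⟨j - w.length, by omega⟩
    have hk : k < v.length := by
      rw [List.length_append] at hj
      omega
    obtain ⟨hd, hm⟩ := h2 k hk
    have e : (w ++ v)[w.length + k] = v[k] := by
      rw [List.getElem_append_right (by omega)]
      congr 1
      omega
    have hd' : (w ++ v)[w.length + k] < d := by rw [e]; exact hd
    refine ⟨hd', ?_⟩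
    have e2 : (⟨(w ++ v)[w.length + k], hd'⟩ : Fin d) = ⟨v[k], hd⟩ := Fin.ext e
    rw [e2, add_comm, Function.iterate_add_apply]
    exact hm

theorem geo_false {d : ℕ} {E : Exchange d} {R : Rows} {σ : ℕ → List ℕ} {lam : ℕ → ℝ} (h : Geo E R σ lam)
    (hlt : lam R.b < lam R.a) : Geo E (step false R) (stepW false R σ) (stepL false R lam) := by
  obtain ⟨ha, hb, hab⟩ := ri_ab h.ri
  have ndt := ri_nd_top h.ri
  have ndb := ri_nd_bot h.ri
  have mt := ri_mem_top h.ri
  have mb := ri_mem_bot h.ri
  have net : R.top ≠ [] := List.ne_nil_of_mem ((mt _).2 ha)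
  have neb : R.bot ≠ [] := List.ne_nil_of_mem ((mb _).2 ha)
  set mu : ℕ → ℝ := stepL false R lam with hmu
  have mu_a : mu R.a = lam R.a - lam R.b := by
    rw [hmu, stepL]
    exact if_pos rfl
  have mu_x : ∀ x, x ≠ R.a → mu x = lam x := by
    intro x hx
    rw [hmu, stepL]
    exact if_neg hx
  have W_b : stepW false R σ R.b = σ R.b ++ σ R.a := by
    rw [stepW]
    exact if_pos rfl
  have W_x : ∀ x, x ≠ R.b → stepW false R σ x = σ x := by
    intro x hx
    rw [stepW]
    exact if_neg hx
  have mu_le : ∀ x < d, mu x ≤ lam x := by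
    intro x hx
    by_cases hxa : x = R.a
    · rw [hxa, mu_a]
      have := h.pos R.b hb
      linarith
    · rw [mu_x x hxa]
  have top_eq : ∀ x < d, ps mu x R.top = ps lam x R.top := by
    intro x hx
    exact ps_last ndt (fun z _ hz2 => mu_x z hz2) ((mt x).2 hx)
  have bot_eq : ∀ x < d, x ≠ R.b → ps mu x (step false R).bot = ps lam x R.bot := by
    intro x hx hxb
    exact ps_ins ndb ((mb _).2 ha) hab mu_a (fun z _ hz2 => mu_x z hz2) ((mb x).2 hx) hxb
  have bot_b : ps mu R.b (step false R).bot = ps lam R.a R.bot + (lam R.a - lam R.b) :=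
    ps_ins_b ndb ((mb _).2 ha) hab mu_a (fun z _ hz2 => mu_x z hz2)
  have hT : tot lam R.top = tot lam R.bot := tot_perm lam (h.ri.top.trans h.ri.bot.symm)
  have pa : ps lam R.a R.top = tot lam R.top - lam R.a := ps_lst ndt net
  have pb : ps lam R.b R.bot = tot lam R.top - lam R.b := by
    rw [hT]
    exact ps_lst ndb neb
  have inJ_of : ∀ x < d, ∀ z, inJ (step false R) mu x z → inJ R lam x z := by
    intro x hx z hz
    have h1 : ps mu x R.top ≤ z := hz.1
    have h2 : z < ps mu x R.top + mu x := hz.2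
    rw [top_eq x hx] at h1 h2
    exact ⟨h1, h2.trans_le (by linarith [mu_le x hx])⟩
  have key : ∀ z, inJ R lam R.b z → inJ R lam R.a (E.T^[(σ R.b).length] z) := by
    intro z hz
    rw [h.ret R.b hb z hz, pb]
    have h1 := hz.1
    have h2 := hz.2
    refine ⟨?_, ?_⟩
    · rw [pa]
      linarith
    · rw [pa]
      linarith
  refine ⟨ri_step h.ri false, ?_, ?_, ?_, ?_⟩
  · intro x hx
    by_cases hxa : x = R.a
    · rw [hxa, mu_a]
      linarith
    · rw [mu_x x hxa]
      exact h.pos x hx
  · intro x hx z hz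
    have hz' := inJ_of x hx z hz
    by_cases hxb : x = R.b
    · rw [hxb, W_b]
      rw [hxb] at hz'
      exact vis_append (h.vis R.b hb z hz') (h.vis R.a ha _ (key z hz'))
    · rw [W_x x hxb]
      exact h.vis x hx z hz'
  · intro x hx z hz
    have hz' := inJ_of x hx z hz
    have ht : ps mu x (step false R).top = ps lam x R.top := top_eq x hx
    rw [ht]
    by_cases hxb : x = R.b
    · rw [hxb, W_b, bot_b, List.length_append, add_comm (σ R.b).length,
        Function.iterate_add_apply]
      rw [hxb] at hz'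
      rw [h.ret R.a ha _ (key z hz'), h.ret R.b hb z hz', pa, pb]
      ring
    · rw [W_x x hxb, bot_eq x hx hxb]
      exact h.ret x hx z hz'
  · intro x hx hxh
    obtain ⟨p, hp, i, hi, e⟩ := h.cut x hx hxh
    have ht : ps mu x (step false R).top = ps lam x R.top := top_eq x hx
    refine ⟨p, ?_, i, hi, ?_⟩
    · by_cases hxb : x = R.b
      · rw [hxb, W_b, List.length_append]
        rw [hxb] at hp
        omega
      · rw [W_x x hxb]
        exact hp
    · rw [ht]
      exact e

end Pool.Agent.RTX
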