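import Pool.Agent.RTX.GeoF

/-!
# RTX/GeoT: one step of type `true` (`b` wins, `lam a < lam b`)

`R.bot` is unchanged and `b` is its last label, so all left ends in the bottom row are unchanged (`ps_last`); new top row
`ins b a top.dropLast` (`ps_ins`, `ps_ins_b`), `lam' b = lam b - lam a`.  `T = tot lam R.top = tot lam R.bot` (`tot_perm`).
`x ≠ a, b`: nothing changes.  `x = b`: the interval became shorter.  `x = a`: the new interval is
`[ps top b + lam b - lam a, ps top b + lam b)`, a part of the interval of `b`; a point `z` of it goes after `|σ b|` steps to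
`z' = z - ps top b + (T - lam b)` (`ps_lst`), which is in `[T - lam a, T)`, the old interval of `a`; then `ret` for `a` gives
`z' - (T - lam a) + ps bot a = z - ps' top' a + ps bot a`.
`cut` for `a`: the new left end goes after `|σ b|` steps to the old one, so `p' = |σ b| + p < |σ b| + |σ a|` (`Function.iterate_add_apply`);
for the others nothing changes (the first label of the top row is the same, `ri_head`, and `a` was not the first label).
-/

set_option autoImplicit false

namespace Pool.Agent.RTX

open Pool.Agent.Helper44.IET (Exchange)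

theorem geo_true {d : ℕ} {E : Exchange d} {R : Rows} {σ : ℕ → List ℕ} {lam : ℕ → ℝ} (h : Geo E R σ lam)
    (hlt : lam R.a < lam R.b) : Geo E (step true R) (stepW true R σ) (stepL true R lam) := by
  have hri := h.ri
  obtain ⟨had, hbd, hab⟩ := ri_ab hri
  have ndt := ri_nd_top hri
  have ndb := ri_nd_bot hri
  have hat : R.a ∈ R.top := (ri_mem_top hri _).2 had
  have hbt : R.b ∈ R.top := (ri_mem_top hri _).2 hbd
  have hbb : R.b ∈ R.bot := (ri_mem_bot hri _).2 hbd
  have hbl : R.b ≠ lst R.top := fun e => hab e.symm
  have mub : stepL true R lam R.b = lam R.b - lam R.a := if_pos rfl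
  have mux : ∀ z, z ≠ R.b → stepL true R lam z = lam z := fun z hz => if_neg hz
  have wa : stepW true R σ R.a = σ R.b ++ σ R.a := if_pos rfl
  have wx : ∀ z, z ≠ R.a → stepW true R σ z = σ z := fun z hz => if_neg hz
  have pt : ∀ x < d, x ≠ R.a → ps (stepL true R lam) x (step true R).top = ps lam x R.top := by
    intro x hx hxa
    exact ps_ins ndt hbt hbl mub (fun z _ hz => mux z hz) ((ri_mem_top hri _).2 hx) hxa
  have pta : ps (stepL true R lam) R.a (step true R).top = ps lam R.b R.top + (lam R.b - lam R.a) :=
    ps_ins_b ndt hbt hbl mub (fun z _ hz => mux z hz)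
  have pb : ∀ x < d, ps (stepL true R lam) x (step true R).bot = ps lam x R.bot := by
    intro x hx
    exact (ps_last ndb (fun z _ hz => (mux z hz).symm) ((ri_mem_bot hri _).2 hx)).symm
  have ea : ps lam R.a R.top = tot lam R.top - lam R.a := ps_lst ndt (List.ne_nil_of_mem hat)
  have eb : ps lam R.b R.bot = tot lam R.bot - lam R.b := ps_lst ndb (List.ne_nil_of_mem hbb)
  have et : tot lam R.top = tot lam R.bot := tot_perm lam (hri.top.trans hri.bot.symm)
  have hpa := h.pos _ had
  have inb : ∀ z, inJ (step true R) (stepL true R lam) R.a z → inJ R lam R.b z := by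
    intro z hz
    obtain ⟨h1, h2⟩ := hz
    rw [pta] at h1 h2
    rw [mux _ hab] at h2
    exact ⟨by linarith, by linarith⟩
  have ina : ∀ z, inJ (step true R) (stepL true R lam) R.a z →
      inJ R lam R.a (E.T^[(σ R.b).length] z) := by
    intro z hz
    have h3 := h.ret _ hbd z (inb z hz)
    obtain ⟨h1, h2⟩ := hz
    rw [pta] at h1 h2
    rw [mux _ hab] at h2
    rw [h3]
    unfold inJ
    rw [ea, eb, et]
    exact ⟨by linarith, by linarith⟩
  have inx : ∀ x < d, x ≠ R.a → ∀ z, inJ (step true R) (stepL true R lam) x z → inJ R lam x z := by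
    intro x hx hxa z hz
    obtain ⟨h1, h2⟩ := hz
    rw [pt x hx hxa] at h1 h2
    refine ⟨h1, ?_⟩
    by_cases hxb : x = R.b
    · subst hxb
      rw [mub] at h2
      linarith
    · rw [mux x hxb] at h2
      exact h2
  refine ⟨ri_step hri true, ?_, ?_, ?_, ?_⟩
  · intro x hx
    by_cases hxb : x = R.b
    · rw [hxb, mub]
      linarith
    · rw [mux x hxb]
      exact h.pos x hx
  · intro x hx z hz
    by_cases hxa : x = R.a
    · subst hxa
      rw [wa]
      exact vis_append (h.vis _ hbd z (inb z hz)) (h.vis _ had _ (ina z hz))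
    · rw [wx x hxa]
      exact h.vis x hx z (inx x hx hxa z hz)
  · intro x hx z hz
    by_cases hxa : x = R.a
    · subst hxa
      rw [wa, List.length_append, Nat.add_comm, Function.iterate_add_apply,
        h.ret _ had _ (ina z hz), h.ret _ hbd z (inb z hz), pta, pb _ had, ea, eb, et]
      ring
    · rw [wx x hxa, pt x hx hxa, pb x hx]
      exact h.ret x hx z (inx x hx hxa z hz)
  · intro x hx hne
    rw [(ri_head hri true).1] at hne
    obtain ⟨p, hp, i, hi, he⟩ := h.cut x hx hne
    by_cases hxa : x = R.a
    · subst hxa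
      refine ⟨p + (σ R.b).length, ?_, i, hi, ?_⟩
      · rw [wa, List.length_append]
        omega
      · have h1 : inJ R lam R.b (ps lam R.b R.top + (lam R.b - lam R.a)) :=
          ⟨by linarith, by linarith⟩
        rw [pta, Function.iterate_add_apply, h.ret _ hbd _ h1, ← he]
        congr 1
        rw [ea, eb, et]
        ring
    · refine ⟨p, ?_, i, hi, ?_⟩
      · rw [wx x hxa]
        exact hp
      · rw [pt x hx hxa]
        exact he

end Pool.Agent.RTX
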