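import Pool.Agent.RTX.NxtA

/-!
# RTX/InvNF: the numerical invariants under a step of type `false`

The top row and `P` do not change, the bottom row becomes `ins a b bot.dropLast`, the height of `a`
is added to `S b` and to the height of `b`.
-/

set_option autoImplicit false

namespace Pool.Agent.RTX

theorem invN_false {d : ℕ} {R : Rows} {σ : ℕ → List ℕ} {P S : ℕ → ℕ} (hR : RI d R) (h : InvN d R σ P S) :
    InvN d (step false R) (stepW false R σ) (stepP false R P S) (stepS false R P S) := by
  obtain ⟨had, hbd, hab⟩ := ri_ab hR
  have hndt := ri_nd_top hR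
  have hndb := ri_nd_bot hR
  have hab' : R.a ≠ lst R.bot := hab
  have hamem : R.a ∈ R.bot := (ri_mem_bot hR _).2 had
  obtain ⟨-, hhb, -, hhb', -, -⟩ := ri_head hR false
  have eP : ∀ x, stepP false R P S x = P x := by
    intro x; simp [stepP]
  have eSb : stepS false R P S R.b = S R.b + (P R.a + S R.a + 1) := by
    simp [stepS]
  have eS : ∀ x, x ≠ R.b → stepS false R P S x = S x := by
    intro x hx; simp [stepS, hx]
  have eWb : stepW false R σ R.b = σ R.b ++ σ R.a := by
    simp [stepW, los]
  have eW : ∀ x, x ≠ R.b → stepW false R σ x = σ x := by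
    intro x hx; simp [stepW, los, hx]
  have hla := h.len _ had
  have htop : (step false R).top = R.top := rfl
  have hbot : (step false R).bot = ins R.a (lst R.bot) R.bot.dropLast := rfl
  have hA : (step false R).a = R.a := rfl
  have hB : (step false R).b = lst (ins R.a (lst R.bot) R.bot.dropLast) := rfl
  have hna : nxt R.a R.top = none := nxt_lst hndt
  have hnb : nxt R.b R.bot = none := nxt_lst hndb
  refine ⟨?_, ?_, ?_, ?_, ?_⟩
  · intro x hx
    by_cases hxb : x = R.b
    · subst hxb
      rw [eWb, eP, eSb, List.length_append, h.len _ hbd, hla]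
      omega
    · rw [eW x hxb, eP, eS x hxb]
      exact h.len x hx
  · rw [eP, htop]
    exact h.p0
  · rw [hhb, eS _ hhb']
    exact h.s0
  · intro e g k he1 he2
    rw [htop] at he1
    rw [hbot] at he2
    have hea : e ≠ R.a := by
      rintro rfl
      rw [hna] at he1
      exact absurd he1 (by simp)
    rw [eP]
    by_cases hc : nxt R.a R.bot = some (lst R.bot)
    · rw [ins_same hndb hc] at he2
      have heb : e ≠ R.b := by
        rintro rfl
        rw [hnb] at he2
        exact absurd he2 (by simp)
      have hkb : k ≠ R.b := by
        rintro rfl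
        exact hea (nxt_inj hndb he2 hc)
      rw [eW e heb, eS k hkb]
      exact h.rel e g k he1 he2
    · by_cases heb : e = R.b
      · subst heb
        have he3 : nxt R.a R.bot = some k := by
          rw [← he2]
          exact (nxt_ins_b hndb hamem hab' hc).symm
        have hkb : k ≠ R.b := by
          rintro rfl
          exact hc he3
        rw [eWb, eS k hkb, List.length_append]
        exact h.rab g k he1 he3
      · rw [nxt_ins_x hndb hamem hab' hea heb] at he2
        by_cases hc2 : nxt e R.bot = some (lst R.bot)
        · rw [if_pos hc2] at he2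
          exact absurd he2 (by simp)
        · rw [if_neg hc2] at he2
          have hkb : k ≠ R.b := by
            rintro rfl
            exact hc2 he2
          rw [eW e heb, eS k hkb]
          exact h.rel e g k he1 he2
  · intro g k he1 he2
    rw [htop, hB] at he1
    rw [hA, hbot, nxt_ins_a hndb hamem hab'] at he2
    have hk : k = R.b := (Option.some.inj he2).symm
    subst hk
    rw [eP, eSb, hA, hB, eW R.a hab]
    by_cases hc : nxt R.a R.bot = some (lst R.bot)
    · rw [ins_same hndb hc] at he1 ⊢
      have h1 := h.rab g R.b he1 hc
      have e1 : stepW false R σ (lst R.bot) = σ R.b ++ σ R.a := eWb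
      rw [e1, List.length_append]
      omega
    · obtain ⟨h1, h2, h3⟩ := lst_ins hndb hamem hab' hc
      have h4 := h.rel _ g R.b he1 h1
      rw [eW _ h3]
      omega

end Pool.Agent.RTX
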