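import Pool.Agent.RTX.NxtA

/-!
# RTX/RunP: a run in the word of a pattern is a power of `u`

Let `off q = ((Z.take q).flatMap σ).length`; the letter `Z[q]` starts at `n + off q` in `u`.  For `x < l`, `Z[i+x] = Z[i+k+x]`, so with
`V = off (i+k) - off i` and `N₀ = off (i+l) - off i`: `u (n + off i + j) = u (n + off i + V + j)` for `j < N₀`, and
`off (i + k + l) = off i + V + N₀`.  Right end: if `rcut = some c`, the letters `x = Z[i+l]`, `y = Z[i+k+l]` are `{g, c}` with
`nxt g top = some c`, `g ≠ b`, so `σ x`, `σ y` have the same first `P c` letters (`InvT.tp`; `P c ≤ |σ c|` by `len`,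
`P c ≤ |σ g|` by `rel`, where `nxt g bot` exists as `g ≠ b`), which extends the equality to `j < N₀ + P c`.  Left end: if `lcut = some c`, the
letters `Z[i-1]`, `Z[i-1+k]` are `{g, c}` with `nxt g bot = some c`, `g ≠ a`: the last `S c` letters agree (`InvB.bs`), which extends the
equality by `S c` to the left.  Power: position `n + off i - S c`, period `V`, length `V + N`.
-/

set_option autoImplicit false

namespace Pool.Agent.RTX

open Pool.Agent.Helper44.IET (HasPower)

/-- Value of the zipper at an optional cut. -/
def ov (f : ℕ → ℕ) : Option ℕ → ℕ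
  | none => 0
  | some c => f c

private theorem rp_mid {u : ℕ → ℕ} {n : ℕ} {A B C : List ℕ} (h : occ u n (A ++ (B ++ C))) :
    occ u (n + A.length) B := by
  intro j hj
  have h1 := h (A.length + j) (by simp only [List.length_append]; omega)
  rw [← Nat.add_assoc] at h1
  rw [h1, List.getElem_append_right (by omega)]
  have e : A.length + j - A.length = j := by omega
  simp only [e]
  rw [List.getElem_append_left hj]

private theorem rp_run {u : ℕ → ℕ} {n : ℕ} {Z : List ℕ} {σ : ℕ → List ℕ} (h : occ u n (Z.flatMap σ)) (q r : ℕ) :
    occ u (n + ((Z.take q).flatMap σ).length) (((Z.drop q).take r).flatMap σ) := by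
  apply rp_mid (C := ((Z.drop q).drop r).flatMap σ)
  rw [← List.flatMap_append, ← List.flatMap_append, List.take_append_drop, List.take_append_drop]
  exact h

private theorem rp_add (Z : List ℕ) (σ : ℕ → List ℕ) (q r : ℕ) :
    ((Z.take (q + r)).flatMap σ).length =
      ((Z.take q).flatMap σ).length + (((Z.drop q).take r).flatMap σ).length := by
  rw [List.take_add, List.flatMap_append, List.length_append]

private theorem rp_hd {l : List ℕ} {x : ℕ} (h : hd l = some x) : ∃ t, l = x :: t := by
  cases l with
  | nil => simp [hd] at h
  | cons y t =>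
    simp only [hd, Option.some.injEq] at h
    exact ⟨t, by rw [h]⟩

private theorem rp_one {Z : List ℕ} (σ : ℕ → List ℕ) {q x : ℕ} (h : hd (Z.drop q) = some x) :
    ((Z.drop q).take 1).flatMap σ = σ x := by
  obtain ⟨t, ht⟩ := rp_hd h
  rw [ht]
  simp

private theorem rp_mem {Z : List ℕ} {q x : ℕ} (h : hd (Z.drop q) = some x) : x ∈ Z := by
  obtain ⟨t, ht⟩ := rp_hd h
  have : x ∈ Z.drop q := by rw [ht]; simp
  exact List.mem_of_mem_drop this

private theorem rp_isNxt {x y : ℕ} {row : List ℕ} (h : isNxt x y row = true) : nxt x row = some y := by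
  unfold isNxt at h
  cases hn : nxt x row with
  | none => rw [hn] at h; simp at h
  | some w =>
    rw [hn] at h
    have h2 : w = y := Nat.eq_of_beq_eq_true h
    rw [h2]

private theorem rp_cut {row : List ℕ} {e x y c : ℕ} (h : cut row e x y = some c) :
    (nxt x row = some y ∧ x ≠ e ∧ c = y) ∨ (nxt y row = some x ∧ y ≠ e ∧ c = x) := by
  unfold cut at h
  cases h1 : (isNxt x y row && !(Nat.beq x e)) with
  | true =>
    rw [h1] at h
    simp only [cond_true, Option.some.injEq] at h
    simp only [Bool.and_eq_true, Bool.not_eq_true'] at h1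
    left
    refine ⟨rp_isNxt h1.1, ?_, h.symm⟩
    intro hx
    have := h1.2
    rw [hx] at this
    simp at this
  | false =>
    rw [h1] at h
    simp only [cond_false] at h
    cases h2 : (isNxt y x row && !(Nat.beq y e)) with
    | true =>
      rw [h2] at h
      simp only [cond_true, Option.some.injEq] at h
      simp only [Bool.and_eq_true, Bool.not_eq_true'] at h2
      right
      refine ⟨rp_isNxt h2.1, ?_, h.symm⟩
      intro hx
      have := h2.2
      rw [hx] at this
      simp at this
    | false =>
      rw [h2] at h
      simp at h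

/-- Right extension. -/
private theorem rp_right {d : ℕ} {R : Rows} {σ : ℕ → List ℕ} {P S : ℕ → ℕ} (h : InvN d R σ P S)
    (hT : InvT R σ P) {u : ℕ → ℕ} {n : ℕ} {Z : List ℕ} (hZ : ∀ z ∈ Z, z < d)
    (ho : occ u n (Z.flatMap σ)) (i k l : ℕ) :
    ∀ m < ov P (rcut R Z i k l), u (n + ((Z.take (i + l)).flatMap σ).length + m) =
      u (n + ((Z.take (i + k + l)).flatMap σ).length + m) := by
  intro m hm
  unfold rcut at hm
  cases hx : hd (Z.drop (i + l)) with
  | none => rw [hx] at hm; simp [ov] at hm
  | some x =>
    cases hy : hd (Z.drop (i + k + l)) with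
    | none => rw [hx, hy] at hm; simp [ov] at hm
    | some y =>
      rw [hx, hy] at hm
      dsimp only at hm
      cases hc : cut R.top R.b x y with
      | none => rw [hc] at hm; simp [ov] at hm
      | some c =>
        rw [hc] at hm
        dsimp only [ov] at hm
        have hxd := hZ x (rp_mem hx)
        have hyd := hZ y (rp_mem hy)
        have key : (σ x).take (P c) = (σ y).take (P c) ∧ (c = x ∨ c = y) := by
          rcases rp_cut hc with ⟨h1, h2, h3⟩ | ⟨h1, h2, h3⟩
          · subst h3
            exact ⟨hT.tp x c h1 h2, Or.inr rfl⟩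
          · subst h3
            exact ⟨(hT.tp y c h1 h2).symm, Or.inl rfl⟩
        obtain ⟨k1, k2⟩ := key
        have hlen := congrArg List.length k1
        simp only [List.length_take] at hlen
        have lx := h.len x hxd
        have ly := h.len y hyd
        have hPx : P c ≤ (σ x).length := by
          rcases k2 with k2 | k2 <;> subst k2 <;> omega
        have hPy : P c ≤ (σ y).length := by
          rcases k2 with k2 | k2 <;> subst k2 <;> omega
        have o1 := rp_run ho (i + l) 1
        have o2 := rp_run ho (i + k + l) 1
        rw [rp_one σ hx] at o1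
        rw [rp_one σ hy] at o2
        rw [o1 m (by omega), o2 m (by omega)]
        have g1 : ((σ x).take (P c))[m]'(by rw [List.length_take]; omega) = (σ x)[m]'(by omega) :=
          List.getElem_take
        have g2 : ((σ y).take (P c))[m]'(by rw [List.length_take]; omega) = (σ y)[m]'(by omega) :=
          List.getElem_take
        rw [← g1, ← g2]
        simp only [k1]

/-- Left extension. -/
private theorem rp_left {d : ℕ} {R : Rows} {σ : ℕ → List ℕ} {P S : ℕ → ℕ} (h : InvN d R σ P S)
    (hB : InvB R σ S) {u : ℕ → ℕ} {n : ℕ} {Z : List ℕ} (hZ : ∀ z ∈ Z, z < d)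
    (ho : occ u n (Z.flatMap σ)) (i k : ℕ) :
    ov S (lcut R Z i k) ≤ ((Z.take i).flatMap σ).length ∧
    ∀ m < ov S (lcut R Z i k), u (n + ((Z.take i).flatMap σ).length - ov S (lcut R Z i k) + m) =
      u (n + ((Z.take (i + k)).flatMap σ).length - ov S (lcut R Z i k) + m) := by
  cases i with
  | zero => simp [lcut, ov]
  | succ j =>
    cases hx : hd (Z.drop j) with
    | none =>
      have e : lcut R Z (j + 1) k = none := by simp [lcut, hx]
      rw [e]; simp [ov]
    | some x =>
      cases hy : hd (Z.drop (j + k)) with
      | none =>
        have e : lcut R Z (j + 1) k = none := by simp [lcut, hx, hy]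
        rw [e]; simp [ov]
      | some y =>
        have e : lcut R Z (j + 1) k = cut R.bot R.a x y := by simp [lcut, hx, hy]
        rw [e]
        cases hc : cut R.bot R.a x y with
        | none => simp [ov]
        | some c =>
          dsimp only [ov]
          have hxd := hZ x (rp_mem hx)
          have hyd := hZ y (rp_mem hy)
          have key : lastN (S c) (σ x) = lastN (S c) (σ y) ∧ (c = x ∨ c = y) := by
            rcases rp_cut hc with ⟨h1, h2, h3⟩ | ⟨h1, h2, h3⟩
            · subst h3
              exact ⟨hB.bs x c h1 h2, Or.inr rfl⟩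
            · subst h3
              exact ⟨(hB.bs y c h1 h2).symm, Or.inl rfl⟩
          obtain ⟨k1, k2⟩ := key
          have hlen := congrArg List.length k1
          simp only [lastN, List.length_drop] at hlen
          have lx := h.len x hxd
          have ly := h.len y hyd
          have hSx : S c ≤ (σ x).length := by
            rcases k2 with k2 | k2 <;> subst k2 <;> omega
          have hSy : S c ≤ (σ y).length := by
            rcases k2 with k2 | k2 <;> subst k2 <;> omega
          have o1 := rp_run ho j 1
          have o2 := rp_run ho (j + k) 1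
          have a1 := rp_add Z σ j 1
          have a2 := rp_add Z σ (j + k) 1
          rw [rp_one σ hx] at o1 a1
          rw [rp_one σ hy] at o2 a2
          have e2 : j + 1 + k = j + k + 1 := by omega
          rw [e2, a1, a2]
          refine ⟨by omega, ?_⟩
          intro m hm
          have p1 : n + (((Z.take j).flatMap σ).length + (σ x).length) - S c + m =
              n + ((Z.take j).flatMap σ).length + ((σ x).length - S c + m) := by omega
          have p2 : n + (((Z.take (j + k)).flatMap σ).length + (σ y).length) - S c + m =
              n + ((Z.take (j + k)).flatMap σ).length + ((σ y).length - S c + m) := by omega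
          rw [p1, p2, o1 _ (by omega), o2 _ (by omega)]
          have g1 : ((σ x).drop ((σ x).length - S c))[m]'(by rw [List.length_drop]; omega) =
              (σ x)[(σ x).length - S c + m]'(by omega) := List.getElem_drop
          have g2 : ((σ y).drop ((σ y).length - S c))[m]'(by rw [List.length_drop]; omega) =
              (σ y)[(σ y).length - S c + m]'(by omega) := List.getElem_drop
          rw [← g1, ← g2]
          simp only [lastN] at k1
          simp only [k1]

theorem run_power {d : ℕ} {R : Rows} {σ : ℕ → List ℕ} {P S : ℕ → ℕ} (hR : RI d R) (h : InvN d R σ P S)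
    (hT : InvT R σ P) (hB : InvB R σ S) {u : ℕ → ℕ} {n : ℕ} {Z : List ℕ} (hZ : ∀ z ∈ Z, z < d)
    (ho : occ u n (Z.flatMap σ)) {i k l : ℕ} (hk : 0 < k) (hl : ((Z.drop i).take l).length = l)
    (hk2 : ((Z.drop i).take k).length = k) (he : (Z.drop i).take l = (Z.drop (i + k)).take l) :
    ∃ j, HasPower u j (((Z.drop i).take k).flatMap σ).length
      ((((Z.drop i).take k).flatMap σ).length + ((((Z.drop i).take l).flatMap σ).length +
        ov P (rcut R Z i k l) + ov S (lcut R Z i k))) := by
  set pos : ℕ → ℕ := fun q => ((Z.take q).flatMap σ).length with hpos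
  have a1 : pos (i + k) = pos i + (((Z.drop i).take k).flatMap σ).length := rp_add Z σ i k
  have a2 : pos (i + l) = pos i + (((Z.drop i).take l).flatMap σ).length := rp_add Z σ i l
  have a3 : pos (i + k + l) = pos (i + k) + (((Z.drop i).take l).flatMap σ).length := by
    rw [he]
    exact rp_add Z σ (i + k) l
  have r := rp_right h hT hZ ho i k l
  obtain ⟨l1, l2⟩ := rp_left h hB hZ ho i k
  have o1 := rp_run ho i l
  have o2 := rp_run ho (i + k) l
  rw [← he] at o2
  change ∀ m < ov P (rcut R Z i k l), u (n + pos (i + l) + m) = u (n + pos (i + k + l) + m) at r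
  change ov S (lcut R Z i k) ≤ pos i at l1
  change ∀ m < ov S (lcut R Z i k), u (n + pos i - ov S (lcut R Z i k) + m) =
    u (n + pos (i + k) - ov S (lcut R Z i k) + m) at l2
  change occ u (n + pos i) (((Z.drop i).take l).flatMap σ) at o1
  change occ u (n + pos (i + k)) (((Z.drop i).take l).flatMap σ) at o2
  generalize ov S (lcut R Z i k) = s at *
  generalize ov P (rcut R Z i k l) = t at *
  generalize hp : (((Z.drop i).take k).flatMap σ).length = p at *
  refine ⟨n + pos i - s, ?_⟩
  intro m hm
  by_cases c1 : m < s
  · rw [l2 m c1]
    congr 1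
    omega
  · by_cases c2 : m < s + (((Z.drop i).take l).flatMap σ).length
    · have e1 : n + pos i - s + m = n + pos i + (m - s) := by omega
      have e2 : n + pos i + (m - s) + p = n + pos (i + k) + (m - s) := by omega
      rw [e1, e2, o1 (m - s) (by omega), o2 (m - s) (by omega)]
    · have e1 : n + pos i - s + m = n + pos (i + l) + (m - s - (((Z.drop i).take l).flatMap σ).length) := by omega
      have e2 : n + pos (i + l) + (m - s - (((Z.drop i).take l).flatMap σ).length) + p =
          n + pos (i + k + l) + (m - s - (((Z.drop i).take l).flatMap σ).length) := by omega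
      rw [e1, e2]
      exact r _ (by omega)

end Pool.Agent.RTX
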