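import Pool.Agent.RTX.OccZ
import Pool.Agent.RTX.RunP
import Pool.Agent.RTX.LinA

/-!
# RTX/PatS: soundness of a pattern

`occ_pat`, `run_power` (the hypotheses are the conjuncts of `patChk`, `eqL_iff`); `|(w).flatMap σ| = Σ_{x ∈ w} (P x + S x + 1)`
(`InvN.len`) is the value of `addW w (zero d)` (`ev_addW`, `ev_zero`); `opt1` adds `P c` resp. `S c` (`evalL_addAt`; `c < d` since `c` is
`x` or `y` in `cut`, both in `Z`).  The period is a sum of `k > 0` heights.
-/

set_option autoImplicit false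

namespace Pool.Agent.RTX

open Pool.Agent.Helper44.IET (HasPower)

private theorem patS_len {d : ℕ} {R : Rows} {σ : ℕ → List ℕ} {P S : ℕ → ℕ} (h : InvN d R σ P S) {w : List ℕ}
    (hw : ∀ x ∈ w, x < d) : (w.flatMap σ).length = (w.map fun x => P x + S x + 1).sum := by
  rw [List.length_flatMap]
  congr 1
  exact List.map_congr_left fun x hx => h.len x (hw x hx)

private theorem patS_ge {σ : ℕ → List ℕ} {w : List ℕ} (hw : w ≠ []) {m : ℕ} (hm : ∀ x ∈ w, m ≤ (σ x).length) :
    m ≤ (w.flatMap σ).length := by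
  cases w with
  | nil => exact absurd rfl hw
  | cons x l =>
    rw [List.flatMap_cons, List.length_append]
    exact (hm x (by simp)).trans (Nat.le_add_right _ _)

private theorem patS_hd {l : List ℕ} {x : ℕ} (h : hd l = some x) : x ∈ l := by
  cases l with
  | nil => simp [hd] at h
  | cons y l =>
    simp only [hd, Option.some.injEq] at h
    subst h
    simp

private theorem patS_cut {row : List ℕ} {e x y c : ℕ} (h : cut row e x y = some c) : c = x ∨ c = y := by
  unfold cut at h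
  cases h1 : (isNxt x y row && !(Nat.beq x e)) with
  | true =>
    rw [h1, cond_true] at h
    exact Or.inr (Option.some.inj h).symm
  | false =>
    rw [h1, cond_false] at h
    cases h2 : (isNxt y x row && !(Nat.beq y e)) with
    | true =>
      rw [h2, cond_true] at h
      exact Or.inl (Option.some.inj h).symm
    | false =>
      rw [h2, cond_false] at h
      exact absurd h (by simp)

private theorem patS_rcut {R : Rows} {Z : List ℕ} {i k l c : ℕ} (h : rcut R Z i k l = some c) : c ∈ Z := by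
  unfold rcut at h
  cases h1 : hd (Z.drop (i + l)) with
  | none => rw [h1] at h; simp at h
  | some x =>
    cases h2 : hd (Z.drop (i + k + l)) with
    | none => rw [h1, h2] at h; simp at h
    | some y =>
      rw [h1, h2] at h
      rcases patS_cut h with rfl | rfl
      · exact List.mem_of_mem_drop (patS_hd h1)
      · exact List.mem_of_mem_drop (patS_hd h2)

private theorem patS_lcut {R : Rows} {Z : List ℕ} {i k c : ℕ} (h : lcut R Z i k = some c) : c ∈ Z := by
  unfold lcut at h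
  cases i with
  | zero => simp at h
  | succ j =>
    cases h1 : hd (Z.drop j) with
    | none => simp only [h1] at h; simp at h
    | some x =>
      cases h2 : hd (Z.drop (j + k)) with
      | none => simp only [h1, h2] at h; simp at h
      | some y =>
        simp only [h1, h2] at h
        rcases patS_cut h with rfl | rfl
        · exact List.mem_of_mem_drop (patS_hd h1)
        · exact List.mem_of_mem_drop (patS_hd h2)

private theorem patS_opt {d : ℕ} {o : Option ℕ} {l : List ℤ} (hl : l.length = d) (ho : ∀ c, o = some c → c < d)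
    (f : ℕ → ℕ) : evalL (opt1 o l) f = evalL l f + (ov f o : ℤ) ∧ (opt1 o l).length = d := by
  cases o with
  | none => simp [opt1, ov, hl]
  | some c =>
    refine ⟨?_, ?_⟩
    · unfold opt1 ov
      rw [evalL_addAt (by rw [hl]; exact ho c rfl), one_mul]
    · unfold opt1
      rw [len_addAt, hl]

theorem pat_sound {d : ℕ} {u : ℕ → ℕ} (𝒮 : Sys d u) {g : List Bool} {t : ℕ} (hg : Fol 𝒮.c t g) {h : Pat}
    (hc : patChk d g (𝒮.R t) h = true) :
    (patN d (𝒮.R t) (patZ d g (𝒮.R t) h) h).ok d ∧ (patV d (patZ d g (𝒮.R t) h) h).ok d ∧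
    ∃ j p l : ℕ, (p : ℤ) = (patV d (patZ d g (𝒮.R t) h) h).ev (𝒮.P t) (𝒮.S t) ∧
      (l : ℤ) = (patN d (𝒮.R t) (patZ d g (𝒮.R t) h) h).ev (𝒮.P t) (𝒮.S t) ∧
      0 < p ∧ HasPower u j p (p + l) ∧ ∀ m, 𝒮.high t m → m ≤ p := by
  obtain ⟨hZ, n, hocc⟩ := occ_pat 𝒮 hg hc
  unfold patChk at hc
  simp only [Bool.and_eq_true] at hc
  obtain ⟨⟨⟨⟨-, heq⟩, hNl⟩, hVl⟩, hk⟩ := hc
  rw [eqL_iff] at heq
  have hNl' := Nat.eq_of_beq_eq_true hNl
  have hVl' := Nat.eq_of_beq_eq_true hVl
  have hk' : 0 < h.k := by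
    have := Nat.le_of_ble_eq_true hk
    omega
  generalize patZ d g (𝒮.R t) h = Z at hZ hocc heq hNl' hVl' ⊢
  unfold patNw at heq hNl'
  unfold patVw at hVl'
  obtain ⟨j, hj⟩ := run_power (𝒮.ri t) (𝒮.iN t) (𝒮.iT t) (𝒮.iB t) hZ hocc hk' hNl' hVl' heq
  have hN : ∀ x ∈ patNw Z h, x < d := fun x hx => hZ x (List.mem_of_mem_drop (List.mem_of_mem_take hx))
  have hV : ∀ x ∈ patVw Z h, x < d := fun x hx => hZ x (List.mem_of_mem_drop (List.mem_of_mem_take hx))
  obtain ⟨hz0, hzok⟩ := ev_zero d (𝒮.P t) (𝒮.S t)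
  obtain ⟨hVe, hVok⟩ := ev_addW hV hzok (𝒮.P t) (𝒮.S t)
  obtain ⟨hNe, hNok⟩ := ev_addW hN hzok (𝒮.P t) (𝒮.S t)
  obtain ⟨hr1, hr2⟩ := patS_opt hNok.p (o := rcut (𝒮.R t) Z h.i h.k h.l)
    (fun c hc => hZ c (patS_rcut hc)) (𝒮.P t)
  obtain ⟨hl1, hl2⟩ := patS_opt hNok.s (o := lcut (𝒮.R t) Z h.i h.k)
    (fun c hc => hZ c (patS_lcut hc)) (𝒮.S t)
  refine ⟨⟨hr2, hl2⟩, hVok, j, ((patVw Z h).flatMap (𝒮.σ t)).length,
    ((patNw Z h).flatMap (𝒮.σ t)).length + ov (𝒮.P t) (rcut (𝒮.R t) Z h.i h.k h.l) +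
      ov (𝒮.S t) (lcut (𝒮.R t) Z h.i h.k), ?_, ?_, ?_, hj, ?_⟩
  · rw [patV, hVe, hz0, zero_add, patS_len (𝒮.iN t) hV]
  · have e1 : (patN d (𝒮.R t) Z h).ev (𝒮.P t) (𝒮.S t) =
        (addW (patNw Z h) (zero d)).ev (𝒮.P t) (𝒮.S t) + (ov (𝒮.P t) (rcut (𝒮.R t) Z h.i h.k h.l) : ℤ) +
          (ov (𝒮.S t) (lcut (𝒮.R t) Z h.i h.k) : ℤ) := by
      unfold patN LF.ev
      rw [hr1, hl1]
      ring
    rw [e1, hNe, hz0, zero_add, ← patS_len (𝒮.iN t) hN]
    push_cast
    ring
  · have hne : patVw Z h ≠ [] := by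
      intro h0
      unfold patVw at h0
      rw [h0] at hVl'
      simp at hVl'
      omega
    exact patS_ge hne fun x hx => by
      rw [(𝒮.iN t).len x (hV x hx)]
      omega
  · intro m hm
    have hne : patVw Z h ≠ [] := by
      intro h0
      unfold patVw at h0
      rw [h0] at hVl'
      simp at hVl'
      omega
    exact patS_ge hne fun x hx => hm x (hV x hx)

end Pool.Agent.RTX
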