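import Pool.Agent.RTX.GDefs
import Pool.Agent.RTX.RowA

/-!
# RTX/PosB: all labels occur in all words

Fix `t` and `y < d`; `A s = {x < d | y ∈ relW R c t s x}`.  `y ∈ A 0`; `A s ⊆ A (s + 1)` and: if the winner of the step `t + s` is in `A s`, its loser is in
`A (s + 1)` (`stepW` of the loser is `σ b ++ σ a`, which contains the words of the winner and of the loser).  The finite sets stabilise: `A s = A∞` for `s ≥ s₁`.
Suppose `β < d`, `β ∉ A∞`; `β` wins at some level `≥ t + s₁`.  If the winner at a level `t + s`, `s ≥ s₁`, is not in `A∞`, neither is the next one: the winner of a step is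
still the last label of its row (`step` changes only the other row), so at the next step it is either the winner or the loser, and if it were the loser
against a winner in `A∞` it would be in `A∞`.  So from then on no winner is in `A∞`, but `y` wins infinitely often, a contradiction.
Then take the maximum over the `d` labels `y` (`A s` is increasing).
`relW_flat`: induction on `s`.
-/

set_option autoImplicit false

namespace Pool.Agent.RTX

private theorem PosB_mono {R : ℕ → Rows} {c : ℕ → Bool} {t s x y : ℕ} (h : y ∈ relW R c t s x) :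
    y ∈ relW R c t (s + 1) x := by
  show y ∈ stepW (c (t + s)) (R (t + s)) (relW R c t s) x
  unfold stepW
  split_ifs with hx
  · rw [List.mem_append]
    cases hc : c (t + s) with
    | false =>
      left
      have h1 : x = (R (t + s)).b := by rw [hx, hc]; rfl
      rw [← h1]
      exact h
    | true =>
      right
      have h1 : x = (R (t + s)).a := by rw [hx, hc]; rfl
      rw [← h1]
      exact h
  · exact h

private theorem PosB_mono_le {R : ℕ → Rows} {c : ℕ → Bool} {t s s' x y : ℕ} (hs : s ≤ s')
    (h : y ∈ relW R c t s x) : y ∈ relW R c t s' x := by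
  induction hs with
  | refl => exact h
  | step _ ih => exact PosB_mono ih

private theorem PosB_win {R : ℕ → Rows} {c : ℕ → Bool} {t s y : ℕ}
    (h : y ∈ relW R c t s (win (c (t + s)) (R (t + s)))) :
    y ∈ relW R c t (s + 1) (los (c (t + s)) (R (t + s))) := by
  show y ∈ stepW (c (t + s)) (R (t + s)) (relW R c t s) _
  unfold stepW
  rw [if_pos rfl, List.mem_append]
  cases hc : c (t + s) with
  | false =>
    rw [hc] at h
    right
    exact h
  | true =>
    rw [hc] at h
    left
    exact h

private theorem PosB_next (c c' : Bool) (R : Rows) :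
    win c R = win c' (step c R) ∨ win c R = los c' (step c R) := by
  cases c with
  | false =>
    cases c' with
    | false => exact Or.inl rfl
    | true => exact Or.inr rfl
  | true =>
    cases c' with
    | false => exact Or.inr rfl
    | true => exact Or.inl rfl

private theorem PosB_win_lt {d : ℕ} {R : Rows} (h : RI d R) (c : Bool) : win c R < d := by
  obtain ⟨ha, hb, _⟩ := ri_ab h
  cases c with
  | false => exact ha
  | true => exact hb

private theorem PosB_stab (R : ℕ → Rows) (c : ℕ → Bool) (t y d : ℕ) :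
    ∃ s₁, ∀ s, ∀ x < d, y ∈ relW R c t s x → y ∈ relW R c t s₁ x := by
  have h : ∀ x, ∃ sx, ∀ s, y ∈ relW R c t s x → y ∈ relW R c t sx x := by
    intro x
    by_cases h : ∃ s, y ∈ relW R c t s x
    · obtain ⟨s, hs⟩ := h
      exact ⟨s, fun _ _ => hs⟩
    · exact ⟨0, fun s hs => absurd ⟨s, hs⟩ h⟩
  choose f hf using h
  exact ⟨(Finset.range d).sup f, fun s x hx hs =>
    PosB_mono_le (Finset.le_sup (Finset.mem_range.2 hx)) (hf x s hs)⟩

private theorem PosB_one {d : ℕ} {R : ℕ → Rows} {c : ℕ → Bool} (hri : ∀ t, RI d (R t))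
    (hR : ∀ t, R (t + 1) = step (c t) (R t)) (hw : ∀ x < d, ∀ n, ∃ t, n ≤ t ∧ win (c t) (R t) = x)
    (t y : ℕ) (hy : y < d) : ∃ s, ∀ x < d, y ∈ relW R c t s x := by
  obtain ⟨s₁, h1⟩ := PosB_stab R c t y d
  refine ⟨s₁, ?_⟩
  by_contra hcon
  push Not at hcon
  obtain ⟨β, hβ, hβ'⟩ := hcon
  obtain ⟨T, hT, hwin⟩ := hw β hβ (t + s₁)
  obtain ⟨S, rfl⟩ : ∃ S, T = t + S := ⟨T - t, by omega⟩
  have key : ∀ j, y ∉ relW R c t s₁ (win (c (t + (S + j))) (R (t + (S + j)))) := by
    intro j
    induction j with
    | zero =>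
      rw [Nat.add_zero, hwin]
      exact hβ'
    | succ j ih =>
      intro hmem
      have e1 : R (t + (S + (j + 1))) = step (c (t + (S + j))) (R (t + (S + j))) := hR _
      have h2 := PosB_next (c (t + (S + j))) (c (t + (S + (j + 1)))) (R (t + (S + j)))
      rw [← e1] at h2
      rcases h2 with h2 | h2
      · rw [h2] at ih
        exact ih hmem
      · have h3 := PosB_win (PosB_mono_le (s' := S + (j + 1)) (by omega) hmem)
        rw [← h2] at h3
        exact ih (h1 _ _ (PosB_win_lt (hri _) _) h3)
  obtain ⟨T', hT', hwin'⟩ := hw y hy (t + S)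
  obtain ⟨j, rfl⟩ : ∃ j, T' = t + (S + j) := ⟨T' - (t + S), by omega⟩
  have h4 := key j
  rw [hwin'] at h4
  exact h4 (PosB_mono_le (Nat.zero_le _) (List.mem_singleton_self y))

theorem pos_all {d : ℕ} {R : ℕ → Rows} {c : ℕ → Bool} (hri : ∀ t, RI d (R t))
    (hR : ∀ t, R (t + 1) = step (c t) (R t)) (hw : ∀ x < d, ∀ n, ∃ t, n ≤ t ∧ win (c t) (R t) = x) (t : ℕ) :
    ∃ s, ∀ x < d, ∀ y < d, y ∈ relW R c t s x := by
  have h : ∀ y, ∃ s, y < d → ∀ x < d, y ∈ relW R c t s x := by
    intro y
    by_cases hy : y < d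
    · obtain ⟨s, hs⟩ := PosB_one hri hR hw t y hy
      exact ⟨s, fun _ => hs⟩
    · exact ⟨0, fun h => absurd h hy⟩
  choose f hf using h
  exact ⟨(Finset.range d).sup f, fun x hx y hy =>
    PosB_mono_le (Finset.le_sup (Finset.mem_range.2 hy)) (hf y hy x hx)⟩

theorem relW_flat {d : ℕ} {R : ℕ → Rows} {c : ℕ → Bool} (hri : ∀ t, RI d (R t)) {σ : ℕ → ℕ → List ℕ}
    (hσ : ∀ t, σ (t + 1) = stepW (c t) (R t) (σ t)) (t s : ℕ) {x : ℕ} (hx : x < d) :
    σ (t + s) x = (relW R c t s x).flatMap (σ t) ∧ ∀ z ∈ relW R c t s x, z < d := by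
  induction s generalizing x with
  | zero =>
    refine ⟨?_, ?_⟩
    · show σ t x = [x].flatMap (σ t)
      rw [List.flatMap_singleton]
    · intro z hz
      have h1 : z = x := List.mem_singleton.1 hz
      rw [h1]
      exact hx
  | succ s ih =>
    obtain ⟨ha, hb, _⟩ := ri_ab (hri (t + s))
    have h1 : σ (t + (s + 1)) x = stepW (c (t + s)) (R (t + s)) (σ (t + s)) x := by
      rw [← hσ (t + s)]
      rfl
    have h2 : relW R c t (s + 1) x = stepW (c (t + s)) (R (t + s)) (relW R c t s) x := rfl
    rw [h1, h2]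
    unfold stepW
    split_ifs with hl
    · refine ⟨?_, ?_⟩
      · rw [List.flatMap_append, (ih hb).1, (ih ha).1]
      · intro z hz
        rcases List.mem_append.1 hz with h3 | h3
        · exact (ih hb).2 z h3
        · exact (ih ha).2 z h3
    · exact ih hx

end Pool.Agent.RTX
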