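import Pool.Agent.RTX.GDefs
import Pool.Agent.RTX.RowA

/-!
# RTX/PsA: left ends in a row

All by induction on the list.  `ps_find`: the intervals `[ps x, ps x + lam x)` of the entries tile `[0, tot)`.
`ps_lt`: `x` before `y`.  `ps_lst`: the last interval ends at `tot`.
-/

set_option autoImplicit false

namespace Pool.Agent.RTX

private theorem psA_tot_nonneg {lam : ℕ → ℝ} {l : List ℕ} (h : ∀ z ∈ l, 0 < lam z) : 0 ≤ tot lam l := by
  unfold tot
  apply List.sum_nonneg
  intro y hy
  obtain ⟨z, hz, rfl⟩ := List.mem_map.1 hy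
  exact (h z hz).le

private theorem psA_tot_cons (lam : ℕ → ℝ) (z : ℕ) (l : List ℕ) : tot lam (z :: l) = lam z + tot lam l := by
  simp [tot]

private theorem psA_lst_cons (z y : ℕ) (l : List ℕ) : lst (z :: y :: l) = lst (y :: l) := rfl

private theorem psA_ps_cons (lam : ℕ → ℝ) (x z : ℕ) (l : List ℕ) :
    ps lam x (z :: l) = if z = x then 0 else lam z + ps lam x l := rfl

theorem ps_nonneg {lam : ℕ → ℝ} {l : List ℕ} (h : ∀ z ∈ l, 0 < lam z) (x : ℕ) : 0 ≤ ps lam x l := by
  induction l with
  | nil => exact le_refl _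
  | cons z l ih =>
    rw [psA_ps_cons]
    split_ifs with hz
    · exact le_refl _
    · have h1 := h z (by simp)
      have h2 := ih fun w hw => h w (by simp [hw])
      linarith

theorem ps_head {lam : ℕ → ℝ} {l : List ℕ} : ps lam (l.headD 0) l = 0 := by
  cases l with
  | nil => rfl
  | cons z l => simp [psA_ps_cons]

theorem ps_le_tot {lam : ℕ → ℝ} {l : List ℕ} (h : ∀ z ∈ l, 0 < lam z) {x : ℕ} (hx : x ∈ l) :
    ps lam x l + lam x ≤ tot lam l := by
  induction l with
  | nil => simp at hx
  | cons z l ih =>
    rw [psA_ps_cons, psA_tot_cons]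
    have hl : ∀ w ∈ l, 0 < lam w := fun w hw => h w (by simp [hw])
    split_ifs with hz
    · subst hz
      have := psA_tot_nonneg hl
      linarith
    · have hx' : x ∈ l := by
        rcases List.mem_cons.1 hx with h1 | h1
        · exact absurd h1.symm hz
        · exact h1
      have := ih hl hx'
      linarith

theorem ps_lst {lam : ℕ → ℝ} {l : List ℕ} (hl : l.Nodup) (hn : l ≠ []) :
    ps lam (lst l) l = tot lam l - lam (lst l) := by
  induction l with
  | nil => exact absurd rfl hn
  | cons z l ih =>
    cases l with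
    | nil => simp [psA_ps_cons, lst, tot]
    | cons y l =>
      have hnd := List.nodup_cons.1 hl
      have hmem : lst (y :: l) ∈ y :: l := lst_mem (by simp)
      have hne : z ≠ lst (y :: l) := by
        intro h0
        rw [← h0] at hmem
        exact hnd.1 hmem
      rw [psA_lst_cons, psA_ps_cons, if_neg hne, psA_tot_cons, ih hnd.2 (by simp)]
      ring

theorem ps_le_lst {lam : ℕ → ℝ} {l : List ℕ} (hl : l.Nodup) (h : ∀ z ∈ l, 0 < lam z) {x : ℕ} (hx : x ∈ l)
    (hn : x ≠ lst l) : ps lam x l + lam x ≤ tot lam l - lam (lst l) := by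
  induction l with
  | nil => simp at hx
  | cons z l ih =>
    cases l with
    | nil =>
      simp only [List.mem_singleton] at hx
      exact absurd hx hn
    | cons y l =>
      have hnd := List.nodup_cons.1 hl
      have hl' : ∀ w ∈ y :: l, 0 < lam w := fun w hw => h w (List.mem_cons_of_mem _ hw)
      rw [psA_lst_cons] at hn ⊢
      rw [psA_ps_cons, psA_tot_cons]
      split_ifs with hz
      · subst hz
        have h1 := ps_lst (lam := lam) hnd.2 (by simp)
        have h2 := ps_nonneg hl' (lst (y :: l))
        linarith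
      · have hx' : x ∈ y :: l := by
          rcases List.mem_cons.1 hx with h1 | h1
          · exact absurd h1.symm hz
          · exact h1
        have := ih hnd.2 hl' hx' hn
        linarith

theorem ps_find {lam : ℕ → ℝ} {l : List ℕ} (hl : l.Nodup) (h : ∀ z ∈ l, 0 < lam z) {z : ℝ} (h0 : 0 ≤ z)
    (h1 : z < tot lam l) : ∃ x ∈ l, ps lam x l ≤ z ∧ z < ps lam x l + lam x := by
  induction l generalizing z with
  | nil =>
    simp only [tot, List.map_nil, List.sum_nil] at h1
    exact absurd h1 (not_lt.2 h0)
  | cons w l ih =>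
    have hnd := List.nodup_cons.1 hl
    have hl' : ∀ w ∈ l, 0 < lam w := fun w hw => h w (List.mem_cons_of_mem _ hw)
    rw [psA_tot_cons] at h1
    by_cases hz : z < lam w
    · refine ⟨w, by simp, ?_, ?_⟩
      · rw [psA_ps_cons, if_pos rfl]; exact h0
      · rw [psA_ps_cons, if_pos rfl]; linarith
    · obtain ⟨x, hx, h2, h3⟩ := ih hnd.2 hl' (z := z - lam w) (by linarith) (by linarith)
      have hne : w ≠ x := by
        rintro rfl
        exact hnd.1 hx
      refine ⟨x, List.mem_cons_of_mem _ hx, ?_, ?_⟩
      · rw [psA_ps_cons, if_neg hne]; linarith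
      · rw [psA_ps_cons, if_neg hne]; linarith

theorem tot_perm (lam : ℕ → ℝ) {l m : List ℕ} (h : l.Perm m) : tot lam l = tot lam m :=
  (h.map lam).sum_eq

theorem ps_congr {lam mu : ℕ → ℝ} {l : List ℕ} (h : ∀ z ∈ l, lam z = mu z) (x : ℕ) : ps lam x l = ps mu x l := by
  induction l with
  | nil => rfl
  | cons z l ih =>
    rw [psA_ps_cons, psA_ps_cons, h z (by simp), ih fun w hw => h w (by simp [hw])]

/-- Changing the length of the last label changes no left end. -/
theorem ps_last {lam mu : ℕ → ℝ} {l : List ℕ} (hl : l.Nodup) (h : ∀ z ∈ l, z ≠ lst l → lam z = mu z) {x : ℕ}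
    (hx : x ∈ l) : ps lam x l = ps mu x l := by
  induction l with
  | nil => rfl
  | cons z l ih =>
    cases l with
    | nil =>
      simp only [List.mem_singleton] at hx
      subst hx
      simp [psA_ps_cons]
    | cons y l =>
      have hnd := List.nodup_cons.1 hl
      have hmem : lst (y :: l) ∈ y :: l := lst_mem (by simp)
      have hne : z ≠ lst (y :: l) := by
        intro h0
        rw [← h0] at hmem
        exact hnd.1 hmem
      rw [psA_lst_cons] at h
      rw [psA_ps_cons lam, psA_ps_cons mu]
      split_ifs with hz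
      · rfl
      · have hx' : x ∈ y :: l := by
          rcases List.mem_cons.1 hx with h1 | h1
          · exact absurd h1.symm hz
          · exact h1
        rw [h z (by simp) hne, ih hnd.2 (fun w hw hw2 => h w (List.mem_cons_of_mem _ hw) hw2) hx']

end Pool.Agent.RTX
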