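import Pool.Agent.RTX.PsA
import Pool.Agent.RTX.NxtA

/-!
# RTX/PsB: left ends after a Rauzy step in the row of the loser

The row `l` (no repetition), its last label `b = lst l` is moved right after `a`, and the length of `a` becomes `lam a - lam b`.
Write `l = l₁ ++ a :: l₂ ++ [b]`; then the new row is `l₁ ++ a :: b :: l₂`.
-/

set_option autoImplicit false

namespace Pool.Agent.RTX

private theorem PsB_ins_cons (x y z : ℕ) (l : List ℕ) :
    ins x y (z :: l) = if z = x then z :: y :: l else z :: ins x y l := by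
  show (bif Nat.beq z x then z :: y :: l else z :: ins x y l) = _
  by_cases h : z = x
  · rw [if_pos h]
    have : Nat.beq z x = true := Nat.beq_eq.symm ▸ h
    rw [this]; rfl
  · rw [if_neg h]
    have : Nat.beq z x = false := by
      rw [Bool.eq_false_iff]
      intro h1
      exact h (Nat.eq_of_beq_eq_true h1)
    rw [this]; rfl

private theorem PsB_ps_cons (lam : ℕ → ℝ) (x z : ℕ) (l : List ℕ) :
    ps lam x (z :: l) = if z = x then 0 else lam z + ps lam x l := rfl

private theorem PsB_tot_cons (lam : ℕ → ℝ) (z : ℕ) (l : List ℕ) :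
    tot lam (z :: l) = lam z + tot lam l := by
  rw [tot, tot, List.map_cons, List.sum_cons]

private theorem PsB_ps_app {lam mu : ℕ → ℝ} (t : List ℕ) {m : List ℕ}
    (h : ∀ z ∈ m, mu z = lam z) {x : ℕ} (hx : x ∈ m) : ps mu x m = ps lam x (m ++ t) := by
  induction m with
  | nil => simp at hx
  | cons z m ih =>
    rw [List.cons_append, PsB_ps_cons, PsB_ps_cons]
    split_ifs with h1
    · rfl
    · have h2 : x ∈ m := by
        rcases List.mem_cons.1 hx with h3 | h3
        · exact absurd h3.symm h1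
        · exact h3
      rw [ih (fun z hz => h z (List.mem_cons_of_mem _ hz)) h2, h z List.mem_cons_self]

private theorem PsB_ins {lam mu : ℕ → ℝ} {a b : ℕ} {m : List ℕ} (hm : m.Nodup) (hb : b ∉ m)
    (ha : a ∈ m) (hmu : mu a = lam a - lam b) (hmub : mu b = lam b)
    (hmu2 : ∀ z ∈ m, z ≠ a → mu z = lam z) {x : ℕ} (hx : x ∈ m) :
    ps mu x (ins a b m) = ps lam x (m ++ [b]) := by
  induction m with
  | nil => simp at hx
  | cons z m ih =>
    have hxb : b ≠ x := fun h => hb (h ▸ hx)
    rw [PsB_ins_cons, List.cons_append, PsB_ps_cons lam]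
    by_cases hz : z = a
    · rw [if_pos hz, PsB_ps_cons, PsB_ps_cons]
      split_ifs with h1
      · rfl
      · have h2 : x ∈ m := by
          rcases List.mem_cons.1 hx with h3 | h3
          · exact absurd h3.symm h1
          · exact h3
        have h4 : ∀ y ∈ m, mu y = lam y := by
          intro y hy
          refine hmu2 y (List.mem_cons_of_mem _ hy) ?_
          intro h5
          rw [h5, ← hz] at hy
          exact (List.nodup_cons.1 hm).1 hy
        rw [PsB_ps_app [b] h4 h2, hz, hmu, hmub]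
        ring
    · rw [if_neg hz, PsB_ps_cons]
      split_ifs with h1
      · rfl
      · have h2 : x ∈ m := by
          rcases List.mem_cons.1 hx with h3 | h3
          · exact absurd h3.symm h1
          · exact h3
        have h3 : a ∈ m := by
          rcases List.mem_cons.1 ha with h4 | h4
          · exact absurd h4.symm hz
          · exact h4
        rw [ih (List.nodup_cons.1 hm).2 (fun h => hb (List.mem_cons_of_mem _ h)) h3
          (fun y hy => hmu2 y (List.mem_cons_of_mem _ hy)) h2, hmu2 z List.mem_cons_self hz]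

private theorem PsB_ins_b {lam mu : ℕ → ℝ} {a b : ℕ} {m : List ℕ} (hm : m.Nodup) (hb : b ∉ m)
    (ha : a ∈ m) (hmu : mu a = lam a - lam b)
    (hmu2 : ∀ z ∈ m, z ≠ a → mu z = lam z) :
    ps mu b (ins a b m) = ps lam a (m ++ [b]) + (lam a - lam b) := by
  induction m with
  | nil => simp at ha
  | cons z m ih =>
    have hzb : z ≠ b := fun h => hb (h ▸ List.mem_cons_self)
    rw [PsB_ins_cons, List.cons_append, PsB_ps_cons lam]
    by_cases hz : z = a
    · rw [if_pos hz, if_pos hz, PsB_ps_cons, PsB_ps_cons, if_neg hzb, if_pos rfl, hz, hmu]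
      ring
    · have h3 : a ∈ m := by
        rcases List.mem_cons.1 ha with h4 | h4
        · exact absurd h4.symm hz
        · exact h4
      rw [if_neg hz, if_neg hz, PsB_ps_cons, if_neg hzb,
        ih (List.nodup_cons.1 hm).2 (fun h => hb (List.mem_cons_of_mem _ h)) h3
          (fun y hy => hmu2 y (List.mem_cons_of_mem _ hy)), hmu2 z List.mem_cons_self hz]
      ring

private theorem PsB_tot_congr {lam mu : ℕ → ℝ} {m : List ℕ} (h : ∀ z ∈ m, mu z = lam z) :
    tot mu m = tot lam m := by
  rw [tot, tot, List.map_congr_left h]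

private theorem PsB_tot {lam mu : ℕ → ℝ} {a b : ℕ} {m : List ℕ} (hm : m.Nodup) (hb : b ∉ m)
    (ha : a ∈ m) (hmu : mu a = lam a - lam b) (hmub : mu b = lam b)
    (hmu2 : ∀ z ∈ m, z ≠ a → mu z = lam z) : tot mu (ins a b m) = tot lam m := by
  induction m with
  | nil => simp at ha
  | cons z m ih =>
    rw [PsB_ins_cons, PsB_tot_cons lam]
    by_cases hz : z = a
    · have h4 : ∀ y ∈ m, mu y = lam y := by
        intro y hy
        refine hmu2 y (List.mem_cons_of_mem _ hy) ?_
        intro h5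
        rw [h5, ← hz] at hy
        exact (List.nodup_cons.1 hm).1 hy
      rw [if_pos hz, PsB_tot_cons, PsB_tot_cons, PsB_tot_congr h4, hz, hmu, hmub]
      ring
    · have h3 : a ∈ m := by
        rcases List.mem_cons.1 ha with h4 | h4
        · exact absurd h4.symm hz
        · exact h4
      rw [if_neg hz, PsB_tot_cons,
        ih (List.nodup_cons.1 hm).2 (fun h => hb (List.mem_cons_of_mem _ h)) h3
          (fun y hy => hmu2 y (List.mem_cons_of_mem _ hy)), hmu2 z List.mem_cons_self hz]

private theorem PsB_tot_append (lam : ℕ → ℝ) (m : List ℕ) (b : ℕ) :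
    tot lam (m ++ [b]) = tot lam m + lam b := by
  rw [tot, tot, List.map_append, List.sum_append]
  simp

/-- the list without its last entry -/
private theorem PsB_split {l : List ℕ} (hl : l.Nodup) {a : ℕ} (ha : a ∈ l) :
    l.dropLast ++ [lst l] = l ∧ l.dropLast.Nodup ∧ lst l ∉ l.dropLast ∧
      ∀ x ∈ l, x ≠ lst l → x ∈ l.dropLast := by
  have hn : l ≠ [] := List.ne_nil_of_mem ha
  have h1 := dropLast_lst hn
  have h2 : (l.dropLast ++ [lst l]).Nodup := by rw [h1]; exact hl
  rw [List.nodup_append] at h2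
  refine ⟨h1, h2.1, fun h3 => h2.2.2 _ h3 _ (by simp) rfl, ?_⟩
  intro x hx hne
  rw [← h1] at hx
  rcases List.mem_append.1 hx with h3 | h3
  · exact h3
  · exact absurd (List.mem_singleton.1 h3) hne

theorem ps_ins {lam mu : ℕ → ℝ} {a : ℕ} {l : List ℕ} (hl : l.Nodup) (ha : a ∈ l) (h : a ≠ lst l)
    (hmu : mu a = lam a - lam (lst l)) (hmu2 : ∀ z ∈ l, z ≠ a → mu z = lam z) {x : ℕ} (hx : x ∈ l)
    (hx2 : x ≠ lst l) : ps mu x (ins a (lst l) l.dropLast) = ps lam x l := by
  obtain ⟨h1, h2, h3, h4⟩ := PsB_split hl ha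
  have h5 := PsB_ins h2 h3 (h4 a ha h) hmu
    (hmu2 _ (lst_mem (List.ne_nil_of_mem ha)) (fun h6 => h h6.symm))
    (fun z hz => hmu2 z (List.mem_of_mem_dropLast hz)) (h4 x hx hx2)
  rw [h1] at h5
  exact h5

theorem ps_ins_b {lam mu : ℕ → ℝ} {a : ℕ} {l : List ℕ} (hl : l.Nodup) (ha : a ∈ l) (h : a ≠ lst l)
    (hmu : mu a = lam a - lam (lst l)) (hmu2 : ∀ z ∈ l, z ≠ a → mu z = lam z) :
    ps mu (lst l) (ins a (lst l) l.dropLast) = ps lam a l + (lam a - lam (lst l)) := by
  obtain ⟨h1, h2, h3, h4⟩ := PsB_split hl ha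
  have h5 := PsB_ins_b h2 h3 (h4 a ha h) hmu
    (fun z hz => hmu2 z (List.mem_of_mem_dropLast hz))
  rw [h1] at h5
  exact h5

theorem tot_ins {lam mu : ℕ → ℝ} {a : ℕ} {l : List ℕ} (hl : l.Nodup) (ha : a ∈ l) (h : a ≠ lst l)
    (hmu : mu a = lam a - lam (lst l)) (hmu2 : ∀ z ∈ l, z ≠ a → mu z = lam z) :
    tot mu (ins a (lst l) l.dropLast) = tot lam l - lam (lst l) := by
  obtain ⟨h1, h2, h3, h4⟩ := PsB_split hl ha
  rw [PsB_tot h2 h3 (h4 a ha h) hmu
    (hmu2 _ (lst_mem (List.ne_nil_of_mem ha)) (fun h6 => h h6.symm))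
    (fun z hz => hmu2 z (List.mem_of_mem_dropLast hz))]
  have h5 := PsB_tot_append lam l.dropLast (lst l)
  rw [h1] at h5
  rw [h5]
  ring

end Pool.Agent.RTX
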