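import Pool.Agent.RTX.RelB
import Pool.Agent.RTX.Tree
import Pool.Agent.RTX.FPre

/-!
# RTX/Reach2: certified roots, with `Good` in place of the certificate trees
-/

set_option autoImplicit false

namespace Pool.Agent.RTX

private theorem r2_memL_iff (x : List ℕ) (l : List (List ℕ)) : memL x l = true ↔ x ∈ l := by
  induction l with
  | nil => simp [memL]
  | cons y l ih => simp [memL, ih, eqL_iff]

private theorem r2_eqB (l m : List Bool) : eqB l m = true ↔ l = m := by
  induction l generalizing m with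
  | nil => cases m <;> simp [eqB]
  | cons x l ih =>
    cases m with
    | nil => simp [eqB]
    | cons y m => simp [eqB, ih m]

private theorem r2_dropPre (p l l' : List Bool) : dropPre p l = some l' ↔ l = p ++ l' := by
  induction p generalizing l with
  | nil => simp [dropPre]
  | cons x p ih =>
    cases l with
    | nil => simp [dropPre]
    | cons y l =>
      unfold dropPre
      by_cases h : x = y
      · subst h
        simp [ih l]
      · have h1 : (x == y) = false := by simpa using h
        rw [h1, cond_false]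
        simp only [reduceCtorEq, List.cons_append, List.cons.injEq, false_iff, not_and]
        intro h2
        exact absurd h2.symm h

private theorem r2_fb {d : ℕ} {u : ℕ → ℕ} {𝒮 𝒯 : Sys d u} {A : Par} (hh : ∀ t m, 𝒯.high t m ↔ 𝒮.high t m)
    {t : ℕ} (h : 𝒯.fb A t) : 𝒮.fb A t := fun m hm => h m ((hh t m).2 hm)

theorem reach2 {A : Par} {rs : List (List ℕ)} (h : Cfd2 A rs) :
    ∀ {u : ℕ → ℕ} (𝒮 : Sys A.d u), memL (canon (𝒮.R 0)) rs = true → ∃ t, 𝒮.fb A t ∨ 𝒮.gold A t := by
  induction h with
  | nil => intro u 𝒮 hm; simp [memL] at hm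
  | cons π rs h ht ih =>
    intro u 𝒮 hm
    rw [r2_memL_iff, List.mem_cons] at hm
    rcases hm with hm | hm
    · obtain ⟨𝒯, h0, hc, hcan, hhigh⟩ := exists_canon 𝒮
      rw [hm] at h0
      have hf : Fol 𝒯.c 0 ([] : List Bool).reverse := fun j hj => by simp at hj
      rcases ht u 𝒯 h0 hf with h1 | ⟨j, -, h1⟩ | ⟨j, -, h1⟩
      · exact ⟨0, Or.inl (r2_fb hhigh h1)⟩
      · rw [hcan j] at h1
        obtain ⟨s, hs⟩ := ih (𝒮.shift j) h1
        rw [shift_fb, shift_gold] at hs
        exact ⟨j + s, hs⟩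
      · unfold gold1 at h1
        cases h2 : dropPre A.gp.reverse (pth 𝒯.c 0 j).reverse with
        | none => rw [h2] at h1; simp at h1
        | some l =>
          rw [h2] at h1
          simp only [eqL_iff] at h1
          rw [r2_dropPre] at h2
          have h3 : pth 𝒯.c 0 j = l.reverse ++ A.gp := by
            rw [← List.reverse_reverse (pth 𝒯.c 0 j), h2, List.reverse_append, List.reverse_reverse]
          have h4 := (fol_pth 𝒯.c 0 j).1
          rw [h3, fol_append] at h4
          have h5 := sys_runR 𝒯 h4.1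
          rw [h0] at h5
          rw [h5, hcan] at h1
          rw [hc] at h4
          exact ⟨0 + l.reverse.length, Or.inr ⟨h1, h4.2⟩⟩
    · exact ih 𝒮 ((r2_memL_iff _ _).2 hm)

theorem sec_of {A : Par} (h1 : eqL (canon (runR A.gp (rows0 A.d A.g0))) A.g0 = true)
    (h2 : Good A [] (rows0 A.d A.g0) (gold2 A) A.gp.reverse) : Sec A := by
  rw [eqL_iff] at h1
  intro u 𝒮 hg
  obtain ⟨𝒯, h0, hc, hcan, hhigh⟩ := exists_canon 𝒮
  rw [hg.1] at h0
  have hf : Fol 𝒯.c 0 A.gp.reverse.reverse := by
    rw [List.reverse_reverse, hc]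
    exact hg.2
  have hf' : Fol 𝒯.c 0 A.gp := by rw [hc]; exact hg.2
  have hrun := sys_runR 𝒯 hf'
  rw [h0, Nat.zero_add] at hrun
  rcases h2 u 𝒯 h0 hf with h3 | ⟨j, -, h3⟩ | ⟨j, -, h3⟩
  · exact Or.inl (r2_fb hhigh h3)
  · simp [memL] at h3
  · right
    unfold gold2 at h3
    rw [r2_eqB] at h3
    have h4 : pth 𝒯.c 0 j = A.gp ++ A.gp := by
      rw [← List.reverse_reverse (pth 𝒯.c 0 j), h3, List.reverse_append, List.reverse_reverse]
    have h5 := (fol_pth 𝒯.c 0 j).1
    rw [h4, fol_append, hc, Nat.zero_add] at h5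
    refine ⟨?_, h5.2⟩
    rw [← hcan, ← hrun]
    exact h1

end Pool.Agent.RTX
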