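import Pool.Agent.RTX.RelA
import Pool.Agent.RTX.Shift

/-!
# RTX/RelB: relabelling a system so that its first top row is `0, 1, ..., d - 1`
-/

set_option autoImplicit false

namespace Pool.Agent.RTX

private theorem relB_idx_lt {x : ℕ} : ∀ {l : List ℕ}, x ∈ l → idx x l < l.length
  | [], h => by simp at h
  | z :: l, h => by
    by_cases hz : z = x
    · subst hz
      simp [idx]
    · have hb : Nat.beq z x = false := by
        rw [Bool.eq_false_iff]
        intro h1
        exact hz (Nat.eq_of_beq_eq_true h1)
      have hm : x ∈ l := by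
        rcases List.mem_cons.1 h with h1 | h1
        · exact absurd h1.symm hz
        · exact h1
      have := relB_idx_lt hm
      simp only [idx, hb, cond_false, List.length_cons]
      omega

private theorem relB_get_idx {x : ℕ} : ∀ {l : List ℕ}, x ∈ l → l.getD (idx x l) 0 = x
  | [], h => by simp at h
  | z :: l, h => by
    by_cases hz : z = x
    · subst hz
      simp [idx]
    · have hb : Nat.beq z x = false := by
        rw [Bool.eq_false_iff]
        intro h1
        exact hz (Nat.eq_of_beq_eq_true h1)
      have hm : x ∈ l := by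
        rcases List.mem_cons.1 h with h1 | h1
        · exact absurd h1.symm hz
        · exact h1
      have := relB_get_idx hm
      simp only [idx, hb, cond_false, List.getD_cons_succ]
      exact this

private theorem relB_idx_get : ∀ {l : List ℕ} (_ : l.Nodup) {i : ℕ} (_ : i < l.length), idx (l.getD i 0) l = i
  | [], _, i, h => by simp at h
  | z :: l, hn, 0, _ => by simp [idx]
  | z :: l, hn, i + 1, h => by
    have hn' := (List.nodup_cons.1 hn)
    have hi : i < l.length := by simpa using h
    have hmem : l.getD i 0 ∈ l := by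
      rw [List.getD_eq_getElem _ _ hi]
      exact List.getElem_mem hi
    have hne : z ≠ l.getD i 0 := by
      intro h1
      exact hn'.1 (by rw [h1]; exact hmem)
    have hb : Nat.beq z (l.getD i 0) = false := by
      rw [Bool.eq_false_iff]
      intro h1
      exact hne (Nat.eq_of_beq_eq_true h1)
    simp only [List.getD_cons_succ, idx, hb, cond_false]
    rw [relB_idx_get hn'.2 hi]

/-- The relabelling. -/
private def relBe {d : ℕ} {R : Rows} (h : RI d R) : Equiv.Perm ℕ where
  toFun i := if i < d then R.top.getD i 0 else i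
  invFun x := if x < d then idx x R.top else x
  left_inv i := by
    have hlen : R.top.length = d := by simpa using h.top.length_eq
    have hnd : R.top.Nodup := (h.top.nodup_iff).2 List.nodup_range
    by_cases hi : i < d
    · have hi' : i < R.top.length := by omega
      have hmem : R.top.getD i 0 ∈ R.top := by
        rw [List.getD_eq_getElem _ _ hi']
        exact List.getElem_mem hi'
      have hlt : R.top.getD i 0 < d := by
        have := (h.top.mem_iff).1 hmem
        simpa using this
      simp only [hi, if_true, hlt]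
      exact relB_idx_get hnd hi'
    · simp [hi]
  right_inv x := by
    have hlen : R.top.length = d := by simpa using h.top.length_eq
    by_cases hx : x < d
    · have hmem : x ∈ R.top := (h.top.mem_iff).2 (by simpa using hx)
      have h1 := relB_idx_lt hmem
      have h2 : idx x R.top < d := by omega
      simp only [hx, if_true, h2]
      exact relB_get_idx hmem
    · simp [hx]

private theorem relBe_symm_lt {d : ℕ} {R : Rows} (h : RI d R) {x : ℕ} (hx : x < d) :
    (relBe h).symm x = idx x R.top := by
  show (if x < d then idx x R.top else x) = _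
  rw [if_pos hx]

private theorem relBe_lt {d : ℕ} {R : Rows} (h : RI d R) (x : ℕ) : relBe h x < d ↔ x < d := by
  have hlen : R.top.length = d := by simpa using h.top.length_eq
  show (if x < d then R.top.getD x 0 else x) < d ↔ x < d
  by_cases hx : x < d
  · have hx' : x < R.top.length := by omega
    have hmem : R.top.getD x 0 ∈ R.top := by
      rw [List.getD_eq_getElem _ _ hx']
      exact List.getElem_mem hx'
    have hlt : R.top.getD x 0 < d := by
      have := (h.top.mem_iff).1 hmem
      simpa using this
    simp only [hx, if_true, hlt]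
  · simp [hx]

private theorem relB_symm_lt {d : ℕ} {e : Equiv.Perm ℕ} (he : ∀ x, e x < d ↔ x < d) (x : ℕ) :
    e.symm x < d ↔ x < d := by
  rw [← he (e.symm x), Equiv.apply_symm_apply]

private theorem relB_perm {d : ℕ} {e : Equiv.Perm ℕ} (he : ∀ x, e x < d ↔ x < d) {l : List ℕ}
    (hl : l.Perm (List.range d)) : (l.map e.symm).Perm (List.range d) := by
  have hnd : l.Nodup := (hl.nodup_iff).2 List.nodup_range
  rw [List.perm_ext_iff_of_nodup (hnd.map e.symm.injective) List.nodup_range]
  intro a
  simp only [List.mem_map, List.mem_range]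
  constructor
  · rintro ⟨b, hb, rfl⟩
    rw [relB_symm_lt he]
    simpa using (hl.mem_iff).1 hb
  · intro ha
    refine ⟨e a, (hl.mem_iff).2 (by simpa using (he a).2 ha), by simp⟩

private theorem relB_ri {d : ℕ} {e : Equiv.Perm ℕ} (he : ∀ x, e x < d ↔ x < d) {R : Rows} (h : RI d R) :
    RI d (R.map e.symm) where
  two := h.two
  top := relB_perm he h.top
  bot := relB_perm he h.bot
  irr k hk hkd := by
    obtain ⟨x, hx, hx'⟩ := h.irr k hk hkd
    refine ⟨e.symm x, ?_, ?_⟩
    · show e.symm x ∈ (R.top.map e.symm).take k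
      rw [← List.map_take]
      exact List.mem_map_of_mem hx
    · show e.symm x ∉ (R.bot.map e.symm).take k
      rw [← List.map_take]
      intro h1
      obtain ⟨y, hy, hy'⟩ := List.mem_map.1 h1
      have : y = x := e.symm.injective hy'
      subst this
      exact hx' hy

private theorem relB_ne {d : ℕ} {R : Rows} (h : RI d R) : R.top ≠ [] ∧ R.bot ≠ [] := by
  have h2 := h.two
  constructor
  · intro h0
    have := h.top.length_eq
    rw [h0] at this
    simp at this
    omega
  · intro h0
    have := h.bot.length_eq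
    rw [h0] at this
    simp at this
    omega

private theorem relB_head {e : Equiv.Perm ℕ} {l : List ℕ} (hl : l ≠ []) :
    e ((l.map e.symm).headD 0) = l.headD 0 := by
  cases l with
  | nil => exact absurd rfl hl
  | cons z l => simp

private theorem relB_ab {d : ℕ} {e : Equiv.Perm ℕ} {R : Rows} (h : RI d R) :
    (R.map e.symm).a = e.symm R.a ∧ (R.map e.symm).b = e.symm R.b :=
  map_ab (relB_ne h).1 (relB_ne h).2

private theorem relB_nxt {e : Equiv.Perm ℕ} {x y : ℕ} {l : List ℕ} (h : nxt x (l.map e.symm) = some y) :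
    nxt (e x) l = some (e y) := by
  have h1 := map_nxt e.symm.injective (e x) l
  rw [Equiv.symm_apply_apply, h] at h1
  cases hn : nxt (e x) l with
  | none => rw [hn] at h1; simp at h1
  | some z =>
    rw [hn] at h1
    simp only [Option.map_some, Option.some.injEq] at h1
    rw [h1, Equiv.apply_symm_apply]

private theorem relB_los {d : ℕ} {e : Equiv.Perm ℕ} {R : Rows} (h : RI d R) (c : Bool) :
    los c (R.map e.symm) = e.symm (los c R) := by
  have h1 := relB_ab (e := e) h
  cases c
  · exact h1.2
  · exact h1.1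

private theorem relB_eq {e : Equiv.Perm ℕ} {x y : ℕ} : x = e.symm y ↔ e x = y := by
  rw [Equiv.eq_symm_apply]

/-- The relabelled system. -/
private def relBS {d : ℕ} {u : ℕ → ℕ} (𝒮 : Sys d u) (e : Equiv.Perm ℕ) (he : ∀ x, e x < d ↔ x < d) : Sys d u where
  R t := (𝒮.R t).map e.symm
  c := 𝒮.c
  σ t x := 𝒮.σ t (e x)
  P t x := 𝒮.P t (e x)
  S t x := 𝒮.S t (e x)
  ri t := relB_ri he (𝒮.ri t)
  hR t := by
    have h := relB_ne (𝒮.ri t)
    rw [map_step e.symm.injective h.1 h.2, 𝒮.hR t]
  hσ t := by
    have h1 := relB_ab (e := e) (𝒮.ri t)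
    funext x
    rw [𝒮.hσ t]
    simp only [stepW, relB_los (𝒮.ri t), h1.1, h1.2, Equiv.apply_symm_apply, relB_eq]
  hP t := by
    have h1 := relB_ab (e := e) (𝒮.ri t)
    funext x
    rw [𝒮.hP t]
    simp only [stepP, h1.1, h1.2, Equiv.apply_symm_apply, relB_eq]
  hS t := by
    have h1 := relB_ab (e := e) (𝒮.ri t)
    funext x
    rw [𝒮.hS t]
    simp only [stepS, h1.1, h1.2, Equiv.apply_symm_apply, relB_eq]
  iN t := by
    have h := 𝒮.iN t
    have h1 := relB_ab (e := e) (𝒮.ri t)
    have hne := relB_ne (𝒮.ri t)
    refine ⟨?_, ?_, ?_, ?_, ?_⟩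
    · intro x hx
      exact h.len (e x) ((he x).2 hx)
    · show 𝒮.P t (e (((𝒮.R t).top.map e.symm).headD 0)) = 0
      rw [relB_head hne.1]
      exact h.p0
    · show 𝒮.S t (e (((𝒮.R t).bot.map e.symm).headD 0)) = 0
      rw [relB_head hne.2]
      exact h.s0
    · intro x g k hg hk
      exact h.rel (e x) (e g) (e k) (relB_nxt hg) (relB_nxt hk)
    · intro g k hg hk
      have hg' := relB_nxt hg
      have hk' := relB_nxt hk
      rw [h1.2, Equiv.apply_symm_apply] at hg'
      rw [h1.1, Equiv.apply_symm_apply] at hk'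
      simp only [h1.1, h1.2, Equiv.apply_symm_apply]
      exact h.rab (e g) (e k) hg' hk'
  iT t := by
    have h := 𝒮.iT t
    have h1 := relB_ab (e := e) (𝒮.ri t)
    refine ⟨?_, ?_⟩
    · intro g c hg hgb
      refine h.tp (e g) (e c) (relB_nxt hg) ?_
      intro h2
      exact hgb (by rw [h1.2, relB_eq]; exact h2)
    · intro c hc
      have hc' := relB_nxt hc
      rw [h1.2, Equiv.apply_symm_apply] at hc'
      simp only [h1.1, h1.2, Equiv.apply_symm_apply]
      exact h.tb (e c) hc'
  iB t := by
    have h := 𝒮.iB t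
    have h1 := relB_ab (e := e) (𝒮.ri t)
    refine ⟨?_, ?_⟩
    · intro g k hg hga
      refine h.bs (e g) (e k) (relB_nxt hg) ?_
      intro h2
      exact hga (by rw [h1.1, relB_eq]; exact h2)
    · intro k hk
      have hk' := relB_nxt hk
      rw [h1.1, Equiv.apply_symm_apply] at hk'
      simp only [h1.1, h1.2, Equiv.apply_symm_apply]
      exact h.ba (e k) hk'
  blk t := by
    obtain ⟨v, pos, hv, hpos, hocc, hinf⟩ := 𝒮.blk t
    refine ⟨fun i => e.symm (v i), pos, ?_, ?_, ?_, ?_⟩
    · intro i
      exact (relB_symm_lt he (v i)).2 (hv i)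
    · intro i
      simp only [Equiv.apply_symm_apply]
      exact hpos i
    · intro i
      simp only [Equiv.apply_symm_apply]
      exact hocc i
    · intro x hx n
      obtain ⟨i, hi, hvi⟩ := hinf (e x) ((he x).2 hx) n
      refine ⟨i, hi, ?_⟩
      show e.symm (v i) = x
      rw [hvi, Equiv.symm_apply_apply]
  hts m := by
    obtain ⟨t0, ht0⟩ := 𝒮.hts m
    exact ⟨t0, fun t ht x hx => ht0 t ht (e x) ((he x).2 hx)⟩

theorem exists_canon {d : ℕ} {u : ℕ → ℕ} (𝒮 : Sys d u) :
    ∃ 𝒯 : Sys d u, 𝒯.R 0 = rows0 d (canon (𝒮.R 0)) ∧ 𝒯.c = 𝒮.c ∧ (∀ t, canon (𝒯.R t) = canon (𝒮.R t)) ∧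
      ∀ t m, 𝒯.high t m ↔ 𝒮.high t m := by
  have h0 := 𝒮.ri 0
  have hlen : (𝒮.R 0).top.length = d := by simpa using h0.top.length_eq
  have hnd : (𝒮.R 0).top.Nodup := (h0.top.nodup_iff).2 List.nodup_range
  refine ⟨relBS 𝒮 (relBe h0) (relBe_lt h0), ?_, rfl, ?_, ?_⟩
  · show (⟨(𝒮.R 0).top.map (relBe h0).symm, (𝒮.R 0).bot.map (relBe h0).symm⟩ : Rows) =
      ⟨List.range d, (𝒮.R 0).bot.map fun x => idx x (𝒮.R 0).top⟩
    have h1 : (𝒮.R 0).top.map (relBe h0).symm = List.range d := by
      apply List.ext_getElem
      · simp [hlen]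
      · intro i hi hi'
        have hi2 : i < (𝒮.R 0).top.length := by simpa using hi
        have hm : (𝒮.R 0).top[i] < d := by
          have := (h0.top.mem_iff).1 (List.getElem_mem hi2)
          simpa using this
        rw [List.getElem_map, relBe_symm_lt h0 hm, List.getElem_range]
        have h2 := relB_idx_get hnd hi2
        rw [List.getD_eq_getElem _ _ hi2] at h2
        exact h2
    have h2 : (𝒮.R 0).bot.map (relBe h0).symm = (𝒮.R 0).bot.map fun x => idx x (𝒮.R 0).top := by
      apply List.map_congr_left
      intro x hx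
      have hm : x < d := by
        have := (h0.bot.mem_iff).1 hx
        simpa using this
      exact relBe_symm_lt h0 hm
    rw [h1, h2]
  · intro t
    exact map_canon (relBe h0).symm.injective (𝒮.R t)
  · intro t m
    constructor
    · intro h x hx
      have h1 := h ((relBe h0).symm x) ((relB_symm_lt (relBe_lt h0) x).2 hx)
      have h2 : (relBS 𝒮 (relBe h0) (relBe_lt h0)).σ t ((relBe h0).symm x) = 𝒮.σ t x := by
        show 𝒮.σ t (relBe h0 ((relBe h0).symm x)) = _
        rw [Equiv.apply_symm_apply]
      rw [h2] at h1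
      exact h1
    · intro h x hx
      exact h (relBe h0 x) ((relBe_lt h0 x).2 hx)

end Pool.Agent.RTX
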