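import Pool.Agent.RTX.GeoT
import Pool.Agent.RTX.GeoN
import Pool.Agent.RTX.GeoI
import Pool.Agent.RTX.Ent
import Pool.Agent.RTX.WinL
import Pool.Agent.RTX.WinC
import Pool.Agent.RTX.BlkU
import Pool.Agent.RTX.Hts
import Pool.Agent.RTX.InvSw

/-!
# RTX/SysX: the system of a coding

State `(R, σ, lam, P, S)`, start `(rowsE E, x ↦ [x], lamE E, 0, 0)`; successor with `c = decide (lam R.a < lam R.b)` (classical) and `step c`, `stepW c`,
`stepL c`, `stepP c`, `stepS c`.  `Geo` at all levels by induction (`geo_init`, `geo_false`, `geo_true`, `geo_ne`), `Inv*` by `inv_base`, `inv_step`.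
`LP`; `win_comb` with `lose_fin`; `pos_all`; `hts_of`.  `enter` at every level and `blk_weak`: `BlkW` at all levels (induction on the level for the entrance
time: `E.T^[n] x` in `[0, tot)`, then `enter` for `z = E.T^[n] x`); `blk_up` from level `t + s` (`relW_flat`).
-/

set_option autoImplicit false

namespace Pool.Agent.RTX

open Pool.Agent.Helper44.IET (Exchange)

/-- the data at one level -/
private structure SysX_St where
  R : Rows
  σ : ℕ → List ℕ
  lam : ℕ → ℝ
  P : ℕ → ℕ
  S : ℕ → ℕ

open Classical in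
/-- the type of the next step -/
private noncomputable def SysX_c (s : SysX_St) : Bool := decide (s.lam s.R.a < s.lam s.R.b)

/-- the data at the next level -/
private noncomputable def SysX_nx (s : SysX_St) : SysX_St :=
  ⟨step (SysX_c s) s.R, stepW (SysX_c s) s.R s.σ, stepL (SysX_c s) s.R s.lam,
    stepP (SysX_c s) s.R s.P s.S, stepS (SysX_c s) s.R s.P s.S⟩

/-- the data at all levels -/
private noncomputable def SysX_s {d : ℕ} (E : Exchange d) : ℕ → SysX_St
  | 0 => ⟨rowsE E, fun x => [x], lamE E, fun _ => 0, fun _ => 0⟩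
  | t + 1 => SysX_nx (SysX_s E t)

private theorem SysX_lt {d : ℕ} {E : Exchange d} (hd : 2 ≤ d) (hi : E.Irreducible) (hK : E.Keane)
    {s : SysX_St} (h : Geo E s.R s.σ s.lam) :
    s.lam (los (SysX_c s) s.R) < s.lam (win (SysX_c s) s.R) := by
  have hne := geo_ne hd hi hK h
  by_cases hc : s.lam s.R.a < s.lam s.R.b
  · have h1 : SysX_c s = true := by simp [SysX_c, hc]
    rw [h1]
    exact hc
  · have h1 : SysX_c s = false := by simp [SysX_c, hc]
    rw [h1]
    exact lt_of_le_of_ne (not_lt.1 hc) (Ne.symm hne)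

private theorem SysX_geo {d : ℕ} {E : Exchange d} (hd : 2 ≤ d) (hi : E.Irreducible) (hK : E.Keane)
    (t : ℕ) : Geo E (SysX_s E t).R (SysX_s E t).σ (SysX_s E t).lam := by
  induction t with
  | zero => exact (geo_init E hd hi).1
  | succ t ih =>
    have hlt := SysX_lt hd hi hK ih
    show Geo E (step (SysX_c (SysX_s E t)) (SysX_s E t).R)
      (stepW (SysX_c (SysX_s E t)) (SysX_s E t).R (SysX_s E t).σ)
      (stepL (SysX_c (SysX_s E t)) (SysX_s E t).R (SysX_s E t).lam)
    cases hc : SysX_c (SysX_s E t) with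
    | true =>
      rw [hc] at hlt
      exact geo_true ih hlt
    | false =>
      rw [hc] at hlt
      exact geo_false ih hlt

private theorem SysX_inv {d : ℕ} {E : Exchange d} (hd : 2 ≤ d) (hi : E.Irreducible) (hK : E.Keane)
    (t : ℕ) : InvN d (SysX_s E t).R (SysX_s E t).σ (SysX_s E t).P (SysX_s E t).S ∧
      InvT (SysX_s E t).R (SysX_s E t).σ (SysX_s E t).P ∧
      InvB (SysX_s E t).R (SysX_s E t).σ (SysX_s E t).S := by
  induction t with
  | zero => exact inv_base (geo_init E hd hi).1.ri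
  | succ t ih => exact inv_step (SysX_geo hd hi hK t).ri ih.1 ih.2.1 ih.2.2 _

private theorem SysX_ent {d : ℕ} {E : Exchange d} (hd : 2 ≤ d) (hi : E.Irreducible) (hK : E.Keane)
    {x : ℝ} (hx : x ∈ Set.Ico (0 : ℝ) 1) (t : ℕ) :
    ∃ n, 0 ≤ E.T^[n] x ∧ E.T^[n] x < tot (SysX_s E t).lam (SysX_s E t).R.top := by
  induction t with
  | zero =>
    refine ⟨0, hx.1, ?_⟩
    have h1 : tot (SysX_s E 0).lam (SysX_s E 0).R.top = 1 := (geo_init E hd hi).2
    rw [h1]
    exact hx.2
  | succ t ih =>
    obtain ⟨n, h0, h1⟩ := ih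
    obtain ⟨m, h2, h3⟩ := enter (SysX_geo hd hi hK t) (SysX_lt hd hi hK (SysX_geo hd hi hK t)) h0 h1
    refine ⟨m + n, ?_, ?_⟩
    · rw [Function.iterate_add_apply]
      exact h2
    · rw [Function.iterate_add_apply]
      exact h3

theorem sys_ex {d : ℕ} (hd : 2 ≤ d) {E : Exchange d} (hi : E.Irreducible) (hK : E.Keane) {u : ℕ → Fin d}
    (hu : E.IsCoding u) : Nonempty (Sys d fun n => (u n : ℕ)) := by
  obtain ⟨x, hx, hux⟩ := hu
  have hgeo := SysX_geo hd hi hK
  have hri : ∀ t, RI d (SysX_s E t).R := fun t => (hgeo t).ri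
  have hR : ∀ t, (SysX_s E (t + 1)).R = step (SysX_c (SysX_s E t)) (SysX_s E t).R := fun t => rfl
  have hσ : ∀ t, (SysX_s E (t + 1)).σ =
      stepW (SysX_c (SysX_s E t)) (SysX_s E t).R (SysX_s E t).σ := fun t => rfl
  have hLP : LP d (fun t => (SysX_s E t).R) (fun t => SysX_c (SysX_s E t))
      (fun t => (SysX_s E t).lam) :=
    ⟨hri, hR, fun t => (hgeo t).pos, fun t => rfl⟩
  have hwin := win_comb (d := d) (R := fun t => (SysX_s E t).R)
    (c := fun t => SysX_c (SysX_s E t)) hri hR (fun y hy ⟨n, hn⟩ => lose_fin hLP hy hn)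
  have hpos := pos_all (d := d) (R := fun t => (SysX_s E t).R)
    (c := fun t => SysX_c (SysX_s E t)) hri hR hwin
  exact ⟨
    { R := fun t => (SysX_s E t).R
      c := fun t => SysX_c (SysX_s E t)
      σ := fun t => (SysX_s E t).σ
      P := fun t => (SysX_s E t).P
      S := fun t => (SysX_s E t).S
      ri := hri
      hR := hR
      hσ := hσ
      hP := fun t => rfl
      hS := fun t => rfl
      iN := fun t => (SysX_inv hd hi hK t).1
      iT := fun t => (SysX_inv hd hi hK t).2.1
      iB := fun t => (SysX_inv hd hi hK t).2.2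
      blk := fun t => by
        obtain ⟨s, hs⟩ := hpos t
        obtain ⟨n, h0, h1⟩ := SysX_ent hd hi hK hx (t + s)
        have hw := blk_weak (hgeo (t + s)) hux h0 h1
        exact blk_up (by omega) hw
          (fun y hy => (relW_flat (R := fun t => (SysX_s E t).R)
            (c := fun t => SysX_c (SysX_s E t)) (σ := fun t => (SysX_s E t).σ) hri hσ t s hy).1)
          (fun y hy => (relW_flat (R := fun t => (SysX_s E t).R)
            (c := fun t => SysX_c (SysX_s E t)) (σ := fun t => (SysX_s E t).σ) hri hσ t s hy).2)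
          hs
      hts := hts_of (R := fun t => (SysX_s E t).R) (c := fun t => SysX_c (SysX_s E t)) hd hri
        (σ := fun t => (SysX_s E t).σ) hσ (fun y _ => List.cons_ne_nil _ _) hpos }⟩

end Pool.Agent.RTX
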