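import Pool.Agent.RTX.RowA

set_option autoImplicit false

namespace Pool.Agent.RTX

theorem fol_pth (c : ℕ → Bool) (t m : ℕ) : Fol c t (pth c t m) ∧ (pth c t m).length = m := by
  unfold Fol pth
  refine ⟨fun j h => ?_, by simp⟩
  simp

private theorem wdA_fol_cons {c : ℕ → Bool} {t : ℕ} {x : Bool} {g : List Bool} :
    Fol c t (x :: g) ↔ c t = x ∧ Fol c (t + 1) g := by
  unfold Fol
  constructor
  · intro h
    refine ⟨h 0 (Nat.zero_lt_succ _), fun j hj => ?_⟩
    have := h (j + 1) (by simpa using hj)
    rw [show t + (j + 1) = t + 1 + j by omega] at this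
    simpa using this
  · rintro ⟨h1, h2⟩ j hj
    cases j with
    | zero => simpa using h1
    | succ j =>
      have := h2 j (by simpa using hj)
      rw [show t + (j + 1) = t + 1 + j by omega]
      simpa using this

theorem fol_append {c : ℕ → Bool} {t : ℕ} {g h : List Bool} :
    Fol c t (g ++ h) ↔ Fol c t g ∧ Fol c (t + g.length) h := by
  induction g generalizing t with
  | nil =>
    simp only [List.nil_append, List.length_nil, Nat.add_zero]
    refine ⟨fun hh => ⟨fun j hj => absurd hj (by simp), hh⟩, fun hh => hh.2⟩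
  | cons x g ih =>
    rw [List.cons_append, wdA_fol_cons, wdA_fol_cons, ih, List.length_cons,
      show t + (g.length + 1) = t + 1 + g.length by omega, and_assoc]

theorem sys_runR {d : ℕ} {u : ℕ → ℕ} (𝒮 : Sys d u) {g : List Bool} {t : ℕ} (hg : Fol 𝒮.c t g) :
    runR g (𝒮.R t) = 𝒮.R (t + g.length) := by
  induction g generalizing t with
  | nil => rfl
  | cons x g ih =>
    rw [wdA_fol_cons] at hg
    have h1 := ih hg.2
    rw [𝒮.hR t, hg.1] at h1
    rw [List.length_cons, show t + (g.length + 1) = t + 1 + g.length by omega, ← h1]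
    rfl

private theorem wdA_los_lt {d : ℕ} {R : Rows} (h : RI d R) (c : Bool) : los c R < d := by
  cases c
  · exact (ri_ab h).2.1
  · exact (ri_ab h).1

theorem sys_wd {d : ℕ} {u : ℕ → ℕ} (𝒮 : Sys d u) {g : List Bool} {t : ℕ} (hg : Fol 𝒮.c t g) (x : ℕ) (hx : x < d) :
    𝒮.σ (t + g.length) x = (wd g (𝒮.R t) x).flatMap (𝒮.σ t) ∧ (∀ z ∈ wd g (𝒮.R t) x, z < d) ∧
      wd g (𝒮.R t) x ≠ [] := by
  induction g generalizing t with
  | nil =>
    refine ⟨?_, ?_, ?_⟩
    · simp [wd]
    · simpa [wd] using hx
    · simp [wd]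
  | cons c g ih =>
    rw [wdA_fol_cons] at hg
    obtain ⟨h1, h2, h3⟩ := ih hg.2
    have hab := ri_ab (𝒮.ri t)
    rw [𝒮.hR t, hg.1] at h1 h2 h3
    have hw : wd (c :: g) (𝒮.R t) x = (wd g (step c (𝒮.R t)) x).flatMap
        fun z => bif Nat.beq z (los c (𝒮.R t)) then [(𝒮.R t).b, (𝒮.R t).a] else [z] := rfl
    refine ⟨?_, ?_, ?_⟩
    · rw [List.length_cons, show t + (g.length + 1) = t + 1 + g.length by omega, h1, hw, List.flatMap_assoc]
      congr 1
      funext z
      rw [𝒮.hσ t, hg.1]
      unfold stepW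
      by_cases hz : z = los c (𝒮.R t)
      · have : Nat.beq z (los c (𝒮.R t)) = true := by rw [hz]; exact Nat.beq_refl _
        simp [hz]
      · have : Nat.beq z (los c (𝒮.R t)) = false := by
          rw [Bool.eq_false_iff]; intro hb; exact hz (Nat.eq_of_beq_eq_true hb)
        rw [this]
        simp [hz]
    · intro z hz
      rw [hw, List.mem_flatMap] at hz
      obtain ⟨y, hy, hz⟩ := hz
      cases hb : Nat.beq y (los c (𝒮.R t))
      · rw [hb] at hz
        simp only [cond_false, List.mem_singleton] at hz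
        rw [hz]; exact h2 y hy
      · rw [hb] at hz
        simp only [cond_true, List.mem_cons, List.not_mem_nil, or_false] at hz
        rcases hz with rfl | rfl
        · exact hab.2.1
        · exact hab.1
    · rw [hw]
      intro hn
      rw [List.flatMap_eq_nil_iff] at hn
      obtain ⟨y, hy⟩ := List.exists_mem_of_ne_nil _ h3
      have := hn y hy
      cases hb : Nat.beq y (los c (𝒮.R t)) <;> rw [hb] at this <;> simp at this

theorem sys_mono {d : ℕ} {u : ℕ → ℕ} (𝒮 : Sys d u) {t t' m : ℕ} (h : t ≤ t') (hm : 𝒮.high t m) : 𝒮.high t' m := by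
  induction t', h using Nat.le_induction with
  | base => exact hm
  | succ n _ ih =>
    intro x hx
    rw [𝒮.hσ n]
    unfold stepW
    have hab := ri_ab (𝒮.ri n)
    split_ifs with h1
    · rw [List.length_append]
      have := ih _ hab.1
      omega
    · exact ih x hx

end Pool.Agent.RTX
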