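import Pool.Agent.RTX.GDefs
import Pool.Agent.RTX.RowA

/-!
# RTX/WinP: positions under a Rauzy step

`idx x l` = position of `x` in `l`.  The row of the loser `y = lst l`: write `l = l₁ ++ w :: l₂ ++ [y]` (`w` the winner), new row
`l₁ ++ w :: y :: l₂` (`ins w y l.dropLast`): the positions of `l₁`, `w` are unchanged, those of `l₂` increase by one.  The other row does not change.
-/

set_option autoImplicit false

namespace Pool.Agent.RTX

private theorem WinP_cons (x z : ℕ) (l : List ℕ) :
    idx x (z :: l) = if z = x then 0 else idx x l + 1 := by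
  show (bif Nat.beq z x then 0 else idx x l + 1) = _
  by_cases h : z = x
  · rw [if_pos h]
    have : Nat.beq z x = true := Nat.beq_eq.symm ▸ h
    rw [this]; rfl
  · rw [if_neg h]
    have : Nat.beq z x = false := by
      rw [Bool.eq_false_iff]
      intro h1
      exact h (Nat.eq_of_beq_eq_true h1)
    rw [this]; rfl

private theorem WinP_ins_cons (x y z : ℕ) (l : List ℕ) :
    ins x y (z :: l) = if z = x then z :: y :: l else z :: ins x y l := by
  show (bif Nat.beq z x then z :: y :: l else z :: ins x y l) = _
  by_cases h : z = x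
  · rw [if_pos h]
    have : Nat.beq z x = true := Nat.beq_eq.symm ▸ h
    rw [this]; rfl
  · rw [if_neg h]
    have : Nat.beq z x = false := by
      rw [Bool.eq_false_iff]
      intro h1
      exact h (Nat.eq_of_beq_eq_true h1)
    rw [this]; rfl

theorem idx_lt {x : ℕ} {l : List ℕ} (h : x ∈ l) : idx x l < l.length := by
  induction l with
  | nil => simp at h
  | cons z l ih =>
    rw [WinP_cons, List.length_cons]
    by_cases hz : z = x
    · rw [if_pos hz]; omega
    · rw [if_neg hz]
      have hx : x ∈ l := by
        rcases List.mem_cons.1 h with h1 | h1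
        · exact absurd h1.symm hz
        · exact h1
      have := ih hx
      omega

theorem idx_inj {x y : ℕ} {l : List ℕ} (hx : x ∈ l) (h : idx x l = idx y l) : x = y := by
  induction l with
  | nil => simp at hx
  | cons z l ih =>
    rw [WinP_cons, WinP_cons] at h
    by_cases hz : z = x
    · by_cases hy : z = y
      · rw [← hz, hy]
      · rw [if_pos hz, if_neg hy] at h
        omega
    · have hx' : x ∈ l := by
        rcases List.mem_cons.1 hx with h1 | h1
        · exact absurd h1.symm hz
        · exact h1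
      by_cases hy : z = y
      · rw [if_neg hz, if_pos hy] at h
        omega
      · rw [if_neg hz, if_neg hy] at h
        exact ih hx' (by omega)

theorem mem_take_iff {x k : ℕ} {l : List ℕ} (hl : l.Nodup) (hx : x ∈ l) : x ∈ l.take k ↔ idx x l < k := by
  induction l generalizing k with
  | nil => simp at hx
  | cons z l ih =>
    rw [WinP_cons]
    cases k with
    | zero => simp
    | succ k =>
      rw [List.take_succ_cons, List.mem_cons]
      by_cases hz : z = x
      · rw [if_pos hz]
        exact ⟨fun _ => by omega, fun _ => Or.inl hz.symm⟩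
      · rw [if_neg hz]
        have hx' : x ∈ l := by
          rcases List.mem_cons.1 hx with h1 | h1
          · exact absurd h1.symm hz
          · exact h1
        rw [ih (List.nodup_cons.1 hl).2 hx']
        constructor
        · rintro (h1 | h1)
          · exact absurd h1.symm hz
          · omega
        · intro h1
          exact Or.inr (by omega)

private theorem WinP_app {x : ℕ} {l m : List ℕ} (h : x ∈ l) : idx x (l ++ m) = idx x l := by
  induction l with
  | nil => simp at h
  | cons z l ih =>
    rw [List.cons_append, WinP_cons, WinP_cons]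
    by_cases hz : z = x
    · rw [if_pos hz, if_pos hz]
    · rw [if_neg hz, if_neg hz]
      have hx : x ∈ l := by
        rcases List.mem_cons.1 h with h1 | h1
        · exact absurd h1.symm hz
        · exact h1
      rw [ih hx]

private theorem WinP_app' {x : ℕ} {l m : List ℕ} (h : x ∉ l) : idx x (l ++ m) = l.length + idx x m := by
  induction l with
  | nil => simp
  | cons z l ih =>
    have hz : z ≠ x := fun h1 => h (by rw [h1]; exact List.mem_cons_self)
    rw [List.cons_append, WinP_cons, if_neg hz, ih (fun h1 => h (List.mem_cons_of_mem _ h1)),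
      List.length_cons]
    omega

private theorem WinP_ins {x w y : ℕ} {l : List ℕ} (hw : w ∈ l) (hxy : x ≠ y) :
    idx x (ins w y l) = if idx x l ≤ idx w l then idx x l else idx x l + 1 := by
  induction l with
  | nil => simp at hw
  | cons z l ih =>
    rw [WinP_ins_cons, WinP_cons, WinP_cons]
    by_cases hz : z = w
    · rw [if_pos hz, if_pos hz, WinP_cons]
      by_cases hx : z = x
      · rw [if_pos hx, if_pos hx, if_pos le_rfl]
      · rw [if_neg hx, if_neg hx, WinP_cons, if_neg (Ne.symm hxy), if_neg (by omega)]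
    · have hw' : w ∈ l := by
        rcases List.mem_cons.1 hw with h1 | h1
        · exact absurd h1.symm hz
        · exact h1
      rw [if_neg hz, if_neg hz, WinP_cons]
      by_cases hx : z = x
      · rw [if_pos hx, if_pos hx, if_pos (by omega)]
      · rw [if_neg hx, if_neg hx, ih hw']
        by_cases h1 : idx x l ≤ idx w l
        · rw [if_pos h1, if_pos (by omega)]
        · rw [if_neg h1, if_neg (by omega)]

private theorem WinP_ne {l : List ℕ} {x : ℕ} (h : x ∈ l) : l ≠ [] := fun h0 => by simp [h0] at h

private theorem WinP_dl {l : List ℕ} (hl : l.Nodup) {x : ℕ} (hx : x ∈ l) (h : x ≠ lst l) :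
    x ∈ l.dropLast ∧ idx x l.dropLast = idx x l := by
  have h1 := dropLast_lst (WinP_ne hx)
  have h2 : x ∈ l.dropLast := by
    rw [← h1] at hx
    rcases List.mem_append.1 hx with h3 | h3
    · exact h3
    · exact absurd (List.mem_singleton.1 h3) h
  refine ⟨h2, ?_⟩
  conv_rhs => rw [← h1]
  rw [WinP_app h2]

private theorem WinP_last {l : List ℕ} (hl : l.Nodup) (h : l ≠ []) : idx (lst l) l = l.length - 1 := by
  have h1 := dropLast_lst h
  have h2 : (l.dropLast ++ [lst l]).Nodup := by rw [h1]; exact hl
  rw [List.nodup_append] at h2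
  have h3 : lst l ∉ l.dropLast := fun h4 => h2.2.2 _ h4 (lst l) (by simp) rfl
  have h4 : idx (lst l) (l.dropLast ++ [lst l]) = l.dropLast.length + idx (lst l) [lst l] := WinP_app' h3
  rw [h1] at h4
  rw [h4, WinP_cons, if_pos rfl, List.length_dropLast]
  rfl

/-- positions in the changed row -/
private theorem WinP_row {l : List ℕ} (hl : l.Nodup) {w x : ℕ} (hw : w ∈ l) (hwl : w ≠ lst l) (hx : x ∈ l)
    (hxl : x ≠ lst l) :
    idx x (ins w (lst l) l.dropLast) = if idx x l ≤ idx w l then idx x l else idx x l + 1 := by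
  obtain ⟨h1, h2⟩ := WinP_dl hl hw hwl
  obtain ⟨h3, h4⟩ := WinP_dl hl hx hxl
  rw [WinP_ins h1 hxl, h2, h4]

private theorem WinP_row_mono {l : List ℕ} (hl : l.Nodup) {w x : ℕ} (hw : w ∈ l) (hwl : w ≠ lst l)
    (hx : x ∈ l) (hxl : x ≠ lst l) : idx x l ≤ idx x (ins w (lst l) l.dropLast) := by
  rw [WinP_row hl hw hwl hx hxl]
  split_ifs <;> omega

private theorem WinP_row_lt {l : List ℕ} (hl : l.Nodup) {x : ℕ} (hx : x ∈ l) (hxl : x ≠ lst l) :
    idx x l < idx (lst l) l := by
  have h1 : lst l ∈ l := lst_mem (WinP_ne hx)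
  have h2 := idx_lt hx
  have h3 := WinP_last hl (WinP_ne hx)
  have h4 : idx x l ≠ idx (lst l) l := fun h => hxl (idx_inj hx h)
  omega

private theorem WinP_row_ord {l : List ℕ} (hl : l.Nodup) {w x y : ℕ} (hw : w ∈ l) (hwl : w ≠ lst l)
    (hx : x ∈ l) (hy : y ∈ l) (hyl : y ≠ lst l) (h : idx x l < idx y l) :
    idx x (ins w (lst l) l.dropLast) < idx y (ins w (lst l) l.dropLast) := by
  by_cases hxl : x = lst l
  · have := WinP_row_lt hl hy hyl
    rw [hxl] at h
    omega
  · rw [WinP_row hl hw hwl hx hxl, WinP_row hl hw hwl hy hyl]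
    split_ifs <;> omega

/-- The position of a label which is not the loser does not decrease. -/
theorem idx_mono {d : ℕ} {R : Rows} (h : RI d R) (c : Bool) {x : ℕ} (hx : x < d) (hn : x ≠ los c R) :
    idx x R.top ≤ idx x (step c R).top ∧ idx x R.bot ≤ idx x (step c R).bot := by
  obtain ⟨ha, hb, hab⟩ := ri_ab h
  cases c with
  | false =>
    exact ⟨le_rfl, WinP_row_mono (ri_nd_bot h) ((ri_mem_bot h _).2 ha) hab ((ri_mem_bot h _).2 hx) hn⟩
  | true =>
    exact ⟨WinP_row_mono (ri_nd_top h) ((ri_mem_top h _).2 hb) hab.symm ((ri_mem_top h _).2 hx) hn,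
      le_rfl⟩

/-- It increases if the winner stands before it in the row of the loser. -/
theorem idx_strict {d : ℕ} {R : Rows} (h : RI d R) (c : Bool) {x : ℕ} (hx : x < d) (hn : x ≠ los c R)
    (hc : if c = true then idx R.b R.top < idx x R.top else idx R.a R.bot < idx x R.bot) :
    if c = true then idx x R.top < idx x (step c R).top else idx x R.bot < idx x (step c R).bot := by
  obtain ⟨ha, hb, hab⟩ := ri_ab h
  cases c with
  | false =>
    rw [if_neg (by simp)] at hc ⊢
    have h1 : idx x (step false R).bot = _ :=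
      WinP_row (ri_nd_bot h) ((ri_mem_bot h _).2 ha) hab ((ri_mem_bot h _).2 hx) hn
    rw [h1, if_neg (by omega)]
    omega
  | true =>
    rw [if_pos rfl] at hc ⊢
    have h1 : idx x (step true R).top = _ :=
      WinP_row (ri_nd_top h) ((ri_mem_top h _).2 hb) hab.symm ((ri_mem_top h _).2 hx) hn
    rw [h1, if_neg (by omega)]
    omega

/-- A label stays before a label which is not the loser. -/
theorem idx_ord {d : ℕ} {R : Rows} (h : RI d R) (c : Bool) {x y : ℕ} (hx : x < d) (hy : y < d) (hn : y ≠ los c R) :
    (idx x R.top < idx y R.top → idx x (step c R).top < idx y (step c R).top) ∧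
      (idx x R.bot < idx y R.bot → idx x (step c R).bot < idx y (step c R).bot) := by
  obtain ⟨ha, hb, hab⟩ := ri_ab h
  cases c with
  | false =>
    exact ⟨fun h1 => h1, fun h1 => WinP_row_ord (ri_nd_bot h) ((ri_mem_bot h _).2 ha) hab
      ((ri_mem_bot h _).2 hx) ((ri_mem_bot h _).2 hy) hn h1⟩
  | true =>
    exact ⟨fun h1 => WinP_row_ord (ri_nd_top h) ((ri_mem_top h _).2 hb) hab.symm
      ((ri_mem_top h _).2 hx) ((ri_mem_top h _).2 hy) hn h1, fun h1 => h1⟩

/-- The last labels of the rows stand behind all others. -/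
theorem idx_last {d : ℕ} {R : Rows} (h : RI d R) {x : ℕ} (hx : x < d) :
    (x ≠ R.a → idx x R.top < idx R.a R.top) ∧ (x ≠ R.b → idx x R.bot < idx R.b R.bot) :=
  ⟨fun h1 => WinP_row_lt (ri_nd_top h) ((ri_mem_top h _).2 hx) h1,
    fun h1 => WinP_row_lt (ri_nd_bot h) ((ri_mem_bot h _).2 hx) h1⟩

end Pool.Agent.RTX
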